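import Pool.Agent.N996.FP.Wcv

/-!
# The sharp core theorems
-/

set_option linter.unusedSectionVars false

namespace Pool.Agent.N996.FP

open Matrix Pool.Agent.N996.BP ComplexConjugate ComplexOrder

variable {ι : Type} [Fintype ι] [DecidableEq ι] {H : HData ι}

/-- The bounds for the irreducible multisets. -/
def MBound (H : HData ι) (M : ℕ) : Prop :=
  ∀ (z x : Matrix ι ι ℂ) (n : ℕ) (B : Bz (hn H) x z ⊤ n), IsReg (hn H) x →
    (∀ w ∈ hn H, z * w = w * z) → (∀ v ∈ Z0 H, z *ᵥ v = v) → ∀ s : Multiset (Fin n),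
    B.tot s = 0 → (∀ t ≤ s, B.tot t ∈ QL (hn H) x → t = 0 ∨ t = s) → ∀ (i : Fin n),
    2 • B.T i ∉ QL (hn H) x → ∀ (p : Fin n → Prop) [DecidablePred p],
    (∀ j, p j → B.T j - B.T i ∈ QL (hn H) x) → (s.filter p).card ≤ M

/-- **Matrices which commute with the Lie algebra and fix the Hodge classes of bounded degree.** -/
theorem central_So {z : Matrix ι ι ℂ} (hc : ∀ w ∈ ho H, z * w = w * z) {N M t : ℕ} (h2 : 2 ≤ N)
    (hfix : ∀ (κ : Type) [Fintype κ] [DecidableEq κ], Fintype.card κ ≤ N → Fixes H z κ)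
    (hMt : max 2 M * t ≤ 2 * N) (ht : Fintype.card ι ≤ t + Module.finrank ℂ (Z0 H))
    (hM : MBound H M) : z ∈ So H := by
  obtain ⟨x, hxh, hxH, hxr⟩ := exists_regular (hn H)
  have hx : IsReg (hn H) x := ⟨hxh, hxH, hxr⟩
  have hfix2 : Fixes H z (Unit ⊕ Unit) := hfix _ (by simpa using h2)
  have hZ := isZ_of (fun g hg => comm_GG hc hg) fun x hx => hx.comm_fix hfix2
  obtain ⟨n, ⟨B⟩⟩ := exists_Bz (V := ⊤) (isLA_hn H) hx (hZ.comm x hxh).symm hZ.normal
    memTop memTop memTop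
  obtain ⟨z', hzz, -⟩ := Fixes.inv hfix2
  have hζ : ∀ i, B.ζ i ≠ 0 := by
    intro i h0
    have h1 := B.ez i
    rw [h0, zero_smul] at h1
    have h2 : cji H z' *ᵥ (cji H z *ᵥ (B.v i : ι → ℂ)) = 0 := by rw [h1, Matrix.mulVec_zero]
    rw [Matrix.mulVec_mulVec, ← cji_mul, hzz, cji_one, Matrix.one_mulVec] at h2
    exact B.v_ne i h2
  have hs : ∀ s : Multiset (Fin n), B.tot s ∈ QL (hn H) x → B.zt s = 1 := fun s hs =>
    no_bad4 hx hZ.comm h2 hfix B hζ hMt ht (fun s h1 _ h3 i h4 p _ h5 =>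
      hM _ x n B hx hZ.comm (fun v hv => Z0_fix (hfix Unit (by simp; omega)) hv) s h1 h3 i h4 p
        fun j hj => (h5 j hj).1) hs
  intro κ _ _ a ha
  have h1 := fix_zero3 B hs (κ := κ) (a := kp κ (Mm H) *ᵥ ca a)
    fun t ht _ => by
      rw [Matrix.mulVec_mulVec, dk_cj_Mm, ← Matrix.mulVec_mulVec, ht κ a ha, Matrix.mulVec_zero]
  rw [Matrix.mulVec_mulVec, kp_cj_Mm, cj_cji, ← Matrix.mulVec_mulVec] at h1
  have h2 := congrArg (fun w => kp κ (Mi H) *ᵥ w) h1
  simp only [Matrix.mulVec_mulVec, ← Matrix.mul_assoc, ← kp_mul, Mi_Mm, kp_one, Matrix.one_mul,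
    Matrix.one_mulVec] at h2
  exact h2

variable {B : ∀ n : ℕ, Submodule ℚ ((Fin (n + 1) → ι) → ℚ)}

/-- **The core theorem.** -/
theorem coreT {N M t : ℕ} (h4 : 4 ≤ N) (hMt : max 2 M * t ≤ 2 * N)
    (ht : Fintype.card ι ≤ t + Module.finrank ℂ (Z0 H)) (hM : MBound H M)
    (hA : RFam H B) (hN : ∀ n, n + 1 ≤ N → BB H (Fin (n + 1)) ≤ B n) (n : ℕ) :
    BB H (Fin (n + 1)) ≤ B n := by
  classical
  intro h hh
  have h2 : 2 ≤ N := by omega
  have htN : t ≤ N := by
    have h3 : 2 * t ≤ max 2 M * t := Nat.mul_le_mul_right _ (le_max_left _ _)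
    omega
  have hfam := hA.isFam hN h2
  have h1 : (fun i => (h i : ℝ)) ∈ AR B (Fin (n + 1)) := by
    refine mem_of_fixed (κ := Fin (n + 1)) hfam _ ?_ ?_
    · have h1 := hh Complex.I Complex.I_ne_zero
      rw [← cR_C, kp_cR] at h1
      ext i
      have h2 := congrFun h1 i
      rw [Matrix.mulVec, dotProduct] at h2 ⊢
      have h3 : ((∑ j, kp (Fin (n + 1)) H.D.C i j * (h j : ℝ) : ℝ) : ℂ) = (((h i : ℝ)) : ℂ) := by
        push_cast
        exact h2
      exact_mod_cast h3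
    · intro g hg
      have hfix : ∀ (κ : Type) [Fintype κ] [DecidableEq κ], Fintype.card κ ≤ N →
          Fixes H g κ := fun κ _ _ hκ a ha => by
        have h4 := hg κ _ (AR_of (hA.of_small hN hκ ha))
        simp only [Complex.ofReal_ratCast] at h4
        exact h4
      obtain ⟨q, hq, q', hq', hqq, hc⟩ := exists_decH2 H (K := t / 2) (by omega) (p := g)
        (hfix _ (by simpa using h2)) (hfix _ (by simpa using h4))
        (fun k hk => hfix _ (by
          rw [Fintype.card_sum, Fintype.card_fin]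
          omega))
      have hgq : g = q * (q' * g) := by rw [← Matrix.mul_assoc, hqq, Matrix.one_mul]
      have hfixz : ∀ (κ : Type) [Fintype κ] [DecidableEq κ], Fintype.card κ ≤ N →
          Fixes H (q' * g) κ := fun κ _ _ hκ a ha => by
        rw [kp_mul, ← Matrix.mulVec_mulVec, hfix κ hκ a ha, hq' κ a ha]
      have hzS : q' * g ∈ So H := central_So hc h2 hfixz hMt ht hM
      simp only [Complex.ofReal_ratCast]
      change kp (Fin (n + 1)) g *ᵥ ca h = ca h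
      rw [hgq, kp_mul, ← Matrix.mulVec_mulVec, hzS _ h hh, hq _ h hh]
  rw [← hA.mem_iff]
  exact BP.descent _ h1

/-- **Self-adjoint centres.** -/
theorem tcore_adj (hR : ∀ y, IsC H y → cQ y * cQ H.Qir = cQ H.Qir * (cQ y)ᵀ) {N t : ℕ}
    (h4 : 4 ≤ N) (htN : t ≤ N) (ht : Fintype.card ι ≤ t + Module.finrank ℂ (Z0 H))
    (hA : RFam H B) (hN : ∀ n, n + 1 ≤ N → BB H (Fin (n + 1)) ≤ B n) (n : ℕ) :
    BB H (Fin (n + 1)) ≤ B n :=
  coreT (M := 0) h4 (by rw [Nat.max_zero]; omega) ht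
    (fun _ _ _ B hx _ _ _ _ _ i h2 => absurd (two_memH hR hx B i) h2) hA hN n

/-- **The trace condition.** -/
theorem tcore_tr (hT : ∀ y, IsC H y → (cQ y * Ng H (RingEquiv.refl ℂ)).trace = 0) {N t : ℕ}
    (h4 : 4 ≤ N) (htN : t ^ 2 / 4 ≤ N) (ht : Fintype.card ι ≤ t + Module.finrank ℂ (Z0 H))
    (hA : RFam H B) (hN : ∀ n, n + 1 ≤ N → BB H (Fin (n + 1)) ≤ B n) (n : ℕ) :
    BB H (Fin (n + 1)) ≤ B n := by
  classical
  refine coreT (M := t / 2) h4 ?_ ht (fun z x m B hx hz hz0 s _ hirr i h2 p _ hp => ?_) hA hN n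
  · rcases Nat.lt_or_ge t 4 with h3 | h3
    · interval_cases t <;> simp <;> omega
    · have h5 : max 2 (t / 2) = t / 2 := max_eq_right (by omega)
      rw [h5]
      obtain ⟨m, hm⟩ : ∃ m, m = t / 2 := ⟨_, rfl⟩
      rw [← hm]
      rcases (by omega : t = 2 * m ∨ t = 2 * m + 1) with h6 | h6
      · rw [h6] at htN ⊢
        have h7 : (2 * m) ^ 2 / 4 = m * m := by
          have h8 : (2 * m) ^ 2 = 4 * (m * m) := by ring
          rw [h8]; omega
        rw [h7] at htN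
        nlinarith
      · rw [h6] at htN ⊢
        have h7 : (2 * m + 1) ^ 2 / 4 = m * m + m := by
          have h8 : (2 * m + 1) ^ 2 = 4 * (m * m + m) + 1 := by ring
          rw [h8]; omega
        rw [h7] at htN
        nlinarith
  · let S : Finset (Fin m) := Finset.univ.filter fun j => B.T j - B.T i ∈ QL (hn H) x
    have hS : ∀ j, j ∈ S ↔ B.T j - B.T i ∈ QL (hn H) x := fun j => by simp [S]
    have hi : i ∈ S := (hS i).2 (by rw [sub_self]; exact (QL _ x).zero_mem)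
    have hc := halfH ht hx hz0 B i h2 S fun j hj => (hS j).1 hj
    refine B.count_le hirr (r := S.card) (Finset.card_pos.2 ⟨i, hi⟩) (by omega) ?_ p hp
    have h3 := tot_cosetH hz hT hx B i S hS
    have h4 : ∑ j ∈ S, (B.T j - B.T i) ∈ QL (hn H) x :=
      (QL (hn H) x).sum_mem fun j hj => (hS j).1 hj
    rw [Finset.sum_sub_distrib, h3, Finset.sum_const, zero_sub] at h4
    exact (QL (hn H) x).neg_mem_iff.1 h4

/-- The eigenvalues of the generators. -/
lemma Ng_eigenD {v : ι → ℂ} (hv : v ≠ 0) {μ : ℂ}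
    (h : Ng H (RingEquiv.refl ℂ) *ᵥ v = μ • v) : ∃ a : ℤ, |a| ≤ H.w ∧ μ = a := by
  have h2 : Ng H (RingEquiv.refl ℂ) = ∑ k ∈ Finset.Icc (-(H.w : ℤ)) H.w,
      (k : ℂ) • H.π k := rfl
  obtain ⟨k, hk, hkv⟩ : ∃ k ∈ Finset.Icc (-(H.w : ℤ)) H.w, H.π k *ᵥ v ≠ 0 := by
    by_contra hcon
    push Not at hcon
    apply hv
    rw [← Matrix.one_mulVec v, ← H.h1, Matrix.sum_mulVec]
    exact Finset.sum_eq_zero hcon
  refine ⟨k, ?_, ?_⟩
  · rw [Finset.mem_Icc] at hk
    exact abs_le.2 hk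
  · have h3 : H.π k * Ng H (RingEquiv.refl ℂ) = (k : ℂ) • H.π k := by
      rw [h2, Finset.mul_sum, Finset.sum_eq_single k]
      · rw [Matrix.mul_smul, H.hmul k hk k hk, if_pos rfl]
      · intro l hl hlk
        rw [Matrix.mul_smul, H.hmul k hk l hl, if_neg (Ne.symm hlk), smul_zero]
      · intro h; exact absurd hk h
    have h4 := congrArg (fun u => H.π k *ᵥ u) h
    beta_reduce at h4
    rw [Matrix.mulVec_mulVec, h3, Matrix.smul_mulVec, Matrix.mulVec_smul, ← sub_eq_zero,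
      ← sub_smul, smul_eq_zero, or_iff_left hkv, sub_eq_zero] at h4
    exact h4.symm

/-- **All Hodge structures.** -/
theorem tcore_gen {w : ℕ} (hw1 : 1 ≤ w) (hw : H.w ≤ w) {N t : ℕ}
    (h4 : 4 ≤ N) (htN : (w * t) ^ t ≤ N) (ht : Fintype.card ι ≤ t + Module.finrank ℂ (Z0 H))
    (hA : RFam H B) (hN : ∀ n, n + 1 ≤ N → BB H (Fin (n + 1)) ≤ B n) (n : ℕ) :
    BB H (Fin (n + 1)) ≤ B n := by
  classical
  refine coreT (M := max 2 ((w * (t / 2) ^ 2) ^ (t / 2))) h4 ?_ ht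
    (fun z x m B hx hz hz0 s hs hirr i h2 p _ hp => ?_) hA hN n
  · obtain ⟨g, hg⟩ : ∃ g, g = t / 2 := ⟨_, rfl⟩
    rw [← hg]
    rw [max_eq_right (le_max_left 2 ((w * g ^ 2) ^ g)), mul_comm, mul_max]
    have ht1 : t ≤ N ∨ t = 0 := by
      rcases Nat.eq_zero_or_pos t with h0 | h0
      · exact Or.inr h0
      · left
        refine le_trans ?_ htN
        calc t ≤ w * t := Nat.le_mul_of_pos_left _ hw1
          _ ≤ (w * t) ^ t := Nat.le_self_pow h0.ne' _
    refine max_le (by rcases ht1 with h | h <;> omega) ?_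
    rw [Nat.mul_comm]
    rcases Nat.lt_or_ge t 2 with h2 | h2
    · have hg0 : g = 0 := by omega
      rw [hg0, pow_zero, one_mul]
      omega
    · refine le_trans ?_ (Nat.mul_le_mul_left 2 htN)
      have hg1 : 1 ≤ g := by omega
      have h2g : 2 * g ≤ t := by omega
      have h5 : 4 ^ g * (w * g ^ 2) ^ g ≤ w ^ t * t ^ (2 * g) := by
        calc 4 ^ g * (w * g ^ 2) ^ g = (w * (2 * g) ^ 2) ^ g := by
              rw [← mul_pow]; congr 1; ring
          _ ≤ (w * t ^ 2) ^ g := Nat.pow_le_pow_left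
              (Nat.mul_le_mul_left _ (Nat.pow_le_pow_left h2g 2)) _
          _ = w ^ g * t ^ (2 * g) := by rw [mul_pow, ← pow_mul]
          _ ≤ w ^ t * t ^ (2 * g) := Nat.mul_le_mul_right _
              (Nat.pow_le_pow_right hw1 (by omega))
      rcases (by omega : t = 2 * g ∨ t = 2 * g + 1) with h6 | h6
      · -- even
        have h7 : t ≤ 2 * 4 ^ g := by
          have h8 : g < 4 ^ g := Nat.lt_pow_self (by norm_num)
          omega
        have h9 : (w * g ^ 2) ^ g * t ≤ 2 * (4 ^ g * (w * g ^ 2) ^ g) := by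
          calc (w * g ^ 2) ^ g * t ≤ (w * g ^ 2) ^ g * (2 * 4 ^ g) := Nat.mul_le_mul_left _ h7
            _ = _ := by ring
        refine h9.trans (Nat.mul_le_mul_left 2 (h5.trans ?_))
        rw [mul_pow, ← h6]
      · -- odd
        have h9 : (w * g ^ 2) ^ g * t ≤ 4 ^ g * (w * g ^ 2) ^ g * t :=
          Nat.mul_le_mul_right _ (Nat.le_mul_of_pos_left _ (by positivity))
        have h10 : 4 ^ g * (w * g ^ 2) ^ g * t ≤ (w * t) ^ t := by
          calc 4 ^ g * (w * g ^ 2) ^ g * t ≤ w ^ t * t ^ (2 * g) * t :=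
                Nat.mul_le_mul_right _ h5
            _ = w ^ t * t ^ (2 * g + 1) := by ring
            _ = (w * t) ^ t := by rw [← h6, mul_pow]
        have h11 := h9.trans h10
        omega
  · have hE : ∀ u : ι → ℂ, u ≠ 0 → ∀ μ : ℂ,
        Ng H (RingEquiv.refl ℂ) *ᵥ u = μ • u → ∃ a : ℤ, |a| ≤ w ∧ μ = a := by
      intro u hu μ hμ
      obtain ⟨a, ha1, ha2⟩ := Ng_eigenD hu hμ
      exact ⟨a, ha1.trans (by exact_mod_cast hw), ha2⟩
    have hg2 : t ≤ 2 * (t / 2) + 1 := by omega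
    exact irr_countH hw1 hE hz ht hg2 hx hz0 B hs hirr i p hp

end Pool.Agent.N996.FP
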