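import Pool.Agent.N996.FP.Ext3
import Pool.Agent.Y121.AHS.Defs
import Pool.Agent.Y133.Half.PwDefs

/-!
# Polarised Hodge theories, coordinate maps and generated classes: definitions

In the intended use the varieties are the smooth projective ones over the field of complex numbers,
`T` is the theory `X ↦ H(X, ℚ)`, and `ψ` is a polarisation of the Hodge structure `H(X, ℚ)`.
-/

open CategoryTheory AlgebraicGeometry

universe u

namespace Pool.Agent.N996.FP

open Pool.Agent.H914 Pool.Agent.H914.VarClass Pool.Agent.H914.VarClass.Obj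
  Pool.Agent.H914.WeilCohomology
open Pool.Agent.Y121.AHS
open Pool.Agent.Y133.Half (pw)
open Pool.Agent.N996.BP (Bil extConj extBil)

variable {k : Type u} [Field k] {𝒱 : VarClass k} {ops : CycleOps 𝒱}

/-- The rational bilinear forms on `H(X)`. -/
abbrev RForm (W : WeilCohomology.{u, 0} ops) (X : 𝒱.Obj) : Type := Bil W.K (W.H X)

/-- The complex conjugation `z ⊗ c ↦ z̄ ⊗ c` of the cohomology with complex coefficients. -/
noncomputable def conjH (T : HodgeTheory ops) {X : 𝒱.Obj} (x : HL T.W ℂ X) : HL T.W ℂ X :=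
  extConj T.rat x

/-- The extension of a rational bilinear form on `H(X)` to complex coefficients. -/
noncomputable def formC (T : HodgeTheory ops) {X : 𝒱.Obj} (ψ : RForm T.W X)
    (x y : HL T.W ℂ X) : ℂ := extBil ψ x y

/-- The Hodge decomposition of `H(X)` is a Hodge structure with polarisation `ψ`:
`H^(p,q)(X) = 0` unless `p` and `q` are between `0` and the dimension of `X`, the complex
conjugation maps `H^(p,q)(X)` to `H^(q,p)(X)`, the rational bilinear form `ψ` vanishes on
`H^(p,q)(X) × H^(r,s)(X)` unless `(r, s) = (q, p)`, and `i ^ (p - q) ψ(x, x̄)` is a positive real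
number for all nonzero `x` in `H^(p,q)(X)`. -/
structure IsPolarisation (T : HodgeTheory ops) (X : 𝒱.Obj) (ψ : RForm T.W X) : Prop where
  range : ∀ (p q : ℤ) (x : HL T.W ℂ X), IsType T.pq p q x → x ≠ 0 →
    0 ≤ p ∧ p ≤ X.dim ∧ 0 ≤ q ∧ q ≤ X.dim
  conj : ∀ (p q : ℤ) (x : HL T.W ℂ X), IsType T.pq p q x → IsType T.pq q p (conjH T x)
  orth : ∀ (p q r s : ℤ) (x y : HL T.W ℂ X), IsType T.pq p q x → IsType T.pq r s y →
    (r ≠ q ∨ s ≠ p) → formC T ψ x y = 0
  pos : ∀ (p q : ℤ) (x : HL T.W ℂ X), IsType T.pq p q x → x ≠ 0 →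
    ∃ r : ℝ, 0 < r ∧ Complex.I ^ (p - q) * formC T ψ x (conjH T x) = r

/-- The cohomology of `X` is the cohomology of an abelian variety: `H^1(X)` has dimension
`2 dim X` and generates the algebra `H(X)`. (All abelian varieties have these properties.) -/
def OfAbelianType (T : HodgeTheory ops) (X : 𝒱.Obj) : Prop := GenDim (T.W.gr X 1) (2 * X.dim)

/-- The centre of the algebra of the endomorphisms of the Hodge structure `H^1(X)` consists of
self-adjoint endomorphisms for the polarisation `ψ`. (For an abelian variety: no simple factor is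
of type IV.) -/
def SelfAdjointCentre (T : HodgeTheory ops) (X : 𝒱.Obj) (ψ : RForm T.W X) : Prop :=
  CentreSelfAdjoint (T.W.gr X 1) (T.pq X) ψ

/-- The elements of the centre of the algebra of the endomorphisms of the Hodge structure `H^1(X)`
have the same traces on `H^(1,0)(X)` and `H^(0,1)(X)`. (It means that the Hodge group is
semisimple.) -/
def EqualTraces (T : HodgeTheory ops) (X : 𝒱.Obj) : Prop :=
  CentreEqualTraces (T.W.gr X 1) (T.pq X)

/-- The `i`-th projection `X ^ (n + 1) → X`, `0 ≤ i ≤ n`; `pw X n` is `X ^ (n + 1)`. -/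
noncomputable def pr (X : 𝒱.Obj) : ∀ n : ℕ, ℕ → (pw X n ⟶ X)
  | 0, _ => 𝟙 X
  | n + 1, i => if i ≤ n then fst (pw X n) X ≫ pr X n i else snd (pw X n) X

/-- A coordinate map `X ^ (m + 1) → X ^ (n + 1)`, `x ↦ (x_(j 0), …, x_(j n))`: every component is
one of the projections. -/
def IsCoordinateMap {X : 𝒱.Obj} {n m : ℕ} (f : pw X m ⟶ pw X n) : Prop :=
  ∀ i ≤ n, ∃ j ≤ m, f ≫ pr X n i = pr X m j

/-- The pull-back. -/
noncomputable def pull (W : WeilCohomology.{u, 0} ops) {X Y : 𝒱.Obj} (f : X ⟶ Y) (c : W.H Y) :
    W.H X := ap (W.map f).toLinearMap c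

/-- The push-forward. -/
noncomputable def push (W : WeilCohomology.{u, 0} ops) {X Y : 𝒱.Obj} (f : X ⟶ Y) (c : W.H X) :
    W.H Y := ap (W.push f) c

/-- The classes on the powers of `X` which are generated by the Hodge classes on `X ^ (N + 1)`: the
smallest system of classes which contains the Hodge classes on `X ^ (N + 1)` and is stable under
linear combinations and cup products, pull-backs along coordinate maps, and push-forwards along
the projections `X ^ (n + 2) → X ^ (n + 1)` that forget the last factor. -/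
inductive Generated (T : HodgeTheory ops) (X : 𝒱.Obj) (N : ℕ) :
    ∀ n : ℕ, T.W.H (pw X n) → Prop
  | hodge {j : ℕ} {c : T.W.H (pw X N)} : IsHodge T (pw X N) j c → Generated T X N N c
  | add {n : ℕ} {c d : T.W.H (pw X n)} : Generated T X N n c → Generated T X N n d →
      Generated T X N n (c + d)
  | smul {n : ℕ} (r : T.W.K) {c : T.W.H (pw X n)} : Generated T X N n c →
      Generated T X N n (r • c)
  | mul {n : ℕ} {c d : T.W.H (pw X n)} : Generated T X N n c → Generated T X N n d →
      Generated T X N n (c * d)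
  | pull {n m : ℕ} (f : pw X m ⟶ pw X n) {c : T.W.H (pw X n)} : IsCoordinateMap f →
      Generated T X N n c → Generated T X N m (pull T.W f c)
  | push {n : ℕ} {c : T.W.H (pw X (n + 1))} : Generated T X N (n + 1) c →
      Generated T X N n (push T.W (fst (pw X n) X) c)

/-- The Hodge conjecture for `X`: every Hodge class on `X` is the class of an algebraic cycle (with
rational coefficients). -/
def HodgeConjecture (T : HodgeTheory ops) (X : 𝒱.Obj) : Prop :=
  ∀ (j : ℕ) (c : T.W.H X), IsHodge T X j c → ∃ z, X.IsCyc j z ∧ T.W.cl X z = c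

/-- The correspondence `H(X) → H(Y)`, `x ↦ pr₂_* (cl z · pr₁^* x)`, given by the cycle `z` on
`X × Y`. -/
noncomputable def act (W : WeilCohomology.{u, 0} ops) {X Y : 𝒱.Obj} (z : (X.prod Y).Cycles)
    (x : W.H X) : W.H Y := ap (W.corr (W.cl (X.prod Y) z)) x

/-- The cohomology of `Y` comes from powers of `X` by algebraic correspondences: the identity of
`H(Y)` is a finite sum of compositions `H(Y) → H(X ^ (m + 1)) → H(Y)` of correspondences given by
algebraic cycles. (This holds if the homological motive of `Y` is a direct summand of a sum of Tate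
twists of motives of powers of `X`, for instance if there is a surjective morphism from a power of
`X` to `Y`, or if `Y` is a product of factors of `X`.) -/
def FromPowers (W : WeilCohomology.{u, 0} ops) (X Y : 𝒱.Obj) : Prop :=
  ∃ (r : ℕ) (m a b : Fin r → ℕ) (u : ∀ i, (Y.prod (pw X (m i))).Cycles)
    (v : ∀ i, ((pw X (m i)).prod Y).Cycles),
    (∀ i, (Y.prod (pw X (m i))).IsCyc (a i) (u i) ∧ ((pw X (m i)).prod Y).IsCyc (b i) (v i)) ∧
    ∀ y : W.H Y, ∑ i, act W (v i) (act W (u i) y) = y

end Pool.Agent.N996.FP
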