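import Pool.Agent.N996.FP.Geo7
import Pool.Agent.N996.FP.Defs
import Pool.Agent.N996.BP.Fin1

/-!
# The final theorems
-/

set_option linter.unusedSectionVars false

open CategoryTheory AlgebraicGeometry TensorProduct

universe u

namespace Pool.Agent.N996.FP

open Module
open Pool.Agent.H914 Pool.Agent.H914.VarClass Pool.Agent.H914.VarClass.Obj
  Pool.Agent.H914.WeilCohomology
open Pool.Agent.Y121.AHS
open Pool.Agent.Y133.Half (pw ClassPred Sys)
open Pool.Agent.Y121.AH (hodgePred)
open Pool.Agent.N996.BP.Geo Pool.Agent.N996.FP.Geo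

variable {k : Type u} [Field k] {𝒱 : VarClass k} {ops : CycleOps 𝒱} {T : HodgeTheory ops}
  {X Y : 𝒱.Obj}

/-! ### Conversions -/

lemma IsPolarisation.toBP {ψ : RForm T.W X} (h : IsPolarisation T X ψ) :
    BP.IsPolarisation T X ψ where
  range := h.range
  conj := h.conj
  orth := h.orth
  pos := h.pos

lemma pr_BP (X : 𝒱.Obj) : ∀ n i : ℕ, pr X n i = BP.pr X n i
  | 0, _ => rfl
  | n + 1, i => by
    rw [pr, BP.pr, pr_BP X n i]

lemma isCoordinateMap_iff {n m : ℕ} {f : pw X m ⟶ pw X n} :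
    IsCoordinateMap f ↔ BP.IsCoordinateMap f := by
  simp only [IsCoordinateMap, BP.IsCoordinateMap, pr_BP]

lemma generated_iff {N n : ℕ} {c : T.W.H (pw X n)} :
    Generated T X N n c ↔ BP.Generated T X N n c := by
  constructor
  · intro h
    induction h with
    | hodge h => exact BP.Generated.hodge h
    | add _ _ ih ih' => exact BP.Generated.add ih ih'
    | smul r _ ih => exact BP.Generated.smul r ih
    | mul _ _ ih ih' => exact BP.Generated.mul ih ih'
    | pull f hf _ ih => exact BP.Generated.pull f (isCoordinateMap_iff.1 hf) ih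
    | push _ ih => exact BP.Generated.push ih
  · intro h
    induction h with
    | hodge h => exact Generated.hodge h
    | add _ _ ih ih' => exact Generated.add ih ih'
    | smul r _ ih => exact Generated.smul r ih
    | mul _ _ ih ih' => exact Generated.mul ih ih'
    | pull f hf _ ih => exact Generated.pull f (isCoordinateMap_iff.2 hf) ih
    | push _ ih => exact Generated.push ih

lemma hodgeConjecture_BP : HodgeConjecture T X ↔ BP.HodgeConjecture T X := Iff.rfl

lemma FromPowers.toBP (h : FromPowers T.W X Y) : BP.FromPowers T X Y := h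

lemma isEnd_iff {f : T.W.H X →ₗ[T.W.K] T.W.H X} :
    IsEnd (T.W.gr X 1) (T.pq X) f ↔ End1 (toH T) X f :=
  ⟨fun h => ⟨h.1, fun p q hpq x hx => h.2 p q hpq x hx⟩,
    fun h => ⟨h.1, fun p q hpq x hx => h.2 p q hpq x hx⟩⟩

lemma isCentral_iff {f : T.W.H X →ₗ[T.W.K] T.W.H X} :
    IsCentral (T.W.gr X 1) (T.pq X) f ↔ Cen1 (toH T) X f :=
  ⟨fun h => ⟨isEnd_iff.1 h.1, fun g hg c hc => h.2 g (isEnd_iff.2 hg) c hc⟩,
    fun h => ⟨isEnd_iff.2 h.1, fun g hg c hc => h.2 g (isEnd_iff.1 hg) c hc⟩⟩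

/-! ### The theorems -/

/-- The admissible exponents. -/
def Adm (T : HodgeTheory ops) (X : 𝒱.Obj) (ψ : RForm T.W X) (N : ℕ) : Prop :=
  (SelfAdjointCentre T X ψ ∧ N = 4) ∨ (EqualTraces T X ∧ N = max 4 (2 * X.dim)) ∨
    N = max 4 (2 * X.dim ^ (2 * X.dim))

/-- **The theorem for families.** -/
theorem adm_c {ψ : RForm T.W X} (hψ : IsPolarisation T X ψ) (hX : OfAbelianType T X) {N : ℕ}
    (hN : Adm T X ψ N) (S : CSys (toH T).W X)
    (hle : ∀ n, S.C n ≤ (hodgePred (toH T)).sp (pw X n))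
    (h : (hodgePred (toH T)).sp (pw X (N - 1)) ≤ S.C (N - 1)) :
    ∀ n, (hodgePred (toH T)).sp (pw X n) ≤ S.C n := by
  rcases hN with ⟨h1, rfl⟩ | ⟨h1, rfl⟩ | rfl
  · exact adj_c hψ.toBP.isPHS hX.1 hX.2 S hle (fun f hf => h1 f (isCentral_iff.2 hf)) h
  · exact tr_c hψ.toBP.isPHS hX.1 hX.2 S hle
      (fun f hf h2 h3 => h1 f (isCentral_iff.2 hf) (f.baseChange ℂ) (fun _ => rfl)
        (fun x hx => h2 hx) fun x hx => h3 hx) h
  · exact gen_c hψ.toBP.isPHS hX.1 hX.2 S hle h

/-- **Generation of the Hodge classes on the powers.** -/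
theorem generated_adm {ψ : RForm T.W X} (hψ : IsPolarisation T X ψ) (hX : OfAbelianType T X)
    {N : ℕ} (hN : Adm T X ψ N) {n j : ℕ} {c : T.W.H (pw X n)} (hc : IsHodge T (pw X n) j c) :
    Generated T X (N - 1) n c := by
  have h1 := adm_c hψ hX hN (gnrSys (toH T) X (N - 1)) (fun n c hc => gnr_le hc) (fun c hc => by
      refine ClassPred.sp_ind (Q := hodgePred (toH T)) (q := fun c =>
        Gnr (toH T) X (N - 1) _ c) ?_ ?_ ?_ hc
      · intro j x hx; exact Gnr.hodge hx
      · exact Gnr.zero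
      · intro a b ha hb; exact Gnr.add ha hb) n
  exact generated_iff.2 (BP.generated_of_gnr (h1 (ClassPred.sp_of (Q := hodgePred (toH T)) hc)))

/-- **The Hodge conjecture for the powers.** -/
theorem hodge_adm {ψ : RForm T.W X} (hψ : IsPolarisation T X ψ) (hX : OfAbelianType T X)
    {N : ℕ} (hN : Adm T X ψ N) (h : HodgeConjecture T (pw X (N - 1))) (n : ℕ) :
    HodgeConjecture T (pw X n) := by
  have h1 := adm_c hψ hX hN ((Pool.Agent.Y133.Half.algSys T.W).csys X)
    (fun n => ClassPred.alg_le (Q := hodgePred (toH T)))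
    (BP.hodgeConjecture_iff.1 (hodgeConjecture_BP.1 h)) n
  exact hodgeConjecture_BP.2 (BP.hodgeConjecture_iff.2 h1)

/-- **Varieties whose cohomology comes from the powers.** -/
theorem hodge_fr (hX : ∀ n, HodgeConjecture T (pw X n)) (hY : FromPowers T.W X Y) :
    HodgeConjecture T Y := hodgeConjecture_BP.2 (BP.hodge_from hX hY.toBP)

end Pool.Agent.N996.FP
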