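import Mathlib

/-!
# Products of elements with square zero
-/

namespace Pool.Agent.N996.FP

variable {A : Type*} [Ring A] [Algebra ℂ A] {V : Type*} [AddCommGroup V] [Module ℂ V]

/-- The product. -/
def pL (L : V →ₗ[ℂ] A) {k : ℕ} (v : Fin k → V) : A := (List.ofFn fun i => L (v i)).prod

/-- The alternating map. -/
noncomputable def pA (L : V →ₗ[ℂ] A) (hL : ∀ v, L v * L v = 0) (k : ℕ) : V [⋀^Fin k]→ₗ[ℂ] A :=
  (ExteriorAlgebra.lift ℂ ⟨L, hL⟩).toLinearMap.compAlternatingMap (ExteriorAlgebra.ιMulti ℂ k)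

lemma pA_apply (L : V →ₗ[ℂ] A) (hL : ∀ v, L v * L v = 0) {k : ℕ} (v : Fin k → V) :
    pA L hL k v = pL L v := by
  rw [pA, LinearMap.compAlternatingMap_apply, ExteriorAlgebra.ιMulti_apply]
  rw [AlgHom.toLinearMap_apply, map_list_prod, List.map_ofFn, pL]
  congr 2
  funext i
  rw [Function.comp_apply, ExteriorAlgebra.lift_ι_apply]

lemma pL_snoc (L : V →ₗ[ℂ] A) {k : ℕ} (v : Fin k → V) (w : V) :
    pL L (Fin.snoc (α := fun _ => V) v w) = pL L v * L w := by
  rw [pL, List.ofFn_succ', List.concat_eq_append, List.prod_append, List.prod_singleton,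
    Fin.snoc_last, pL]
  simp only [Fin.snoc_castSucc]

lemma pL_cons (L : V →ₗ[ℂ] A) {k : ℕ} (v : Fin (k + 1) → V) :
    pL L v = L (v 0) * pL L (fun i => v i.succ) := by
  rw [pL, List.ofFn_succ, List.prod_cons, pL]

/-- Products of linearly independent vectors do not vanish. -/
lemma pL_ne [FiniteDimensional ℂ V] (L : V →ₗ[ℂ] A) (hL : ∀ v, L v * L v = 0)
    (htop : ∃ v : Fin (Module.finrank ℂ V) → V, pL L v ≠ 0) :
    ∀ (m k : ℕ), k + m = Module.finrank ℂ V → ∀ v : Fin k → V, LinearIndependent ℂ v →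
      pL L v ≠ 0
  | 0, k, hk, v, hv => by
    obtain rfl : k = Module.finrank ℂ V := by omega
    intro h0
    let e : Module.Basis (Fin (Module.finrank ℂ V)) ℂ V :=
      basisOfLinearIndependentOfCardEqFinrank' v hv (by simp)
    have he : ∀ i, e i = v i := fun i => by simp [e]
    have h1 : pA L hL (Module.finrank ℂ V) = 0 := by
      refine e.ext_alternating fun w hw => ?_
      have hw2 : Function.Bijective w := Finite.injective_iff_bijective.1 hw
      have h2 : (fun i => e (w i)) = v ∘ (Equiv.ofBijective w hw2) := by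
        funext i
        rw [he]
        rfl
      rw [h2, AlternatingMap.map_perm, pA_apply, h0]
      simp
    obtain ⟨w, hw⟩ := htop
    apply hw
    rw [← pA_apply L hL, h1]
    rfl
  | m + 1, k, hk, v, hv => by
    intro h0
    obtain ⟨w, hw⟩ : ∃ w, w ∉ Submodule.span ℂ (Set.range v) := by
      by_contra hcon
      push Not at hcon
      have h1 : Submodule.span ℂ (Set.range v) = ⊤ := Submodule.eq_top_iff'.2 hcon
      have h2 := finrank_span_eq_card hv
      rw [h1, finrank_top, Fintype.card_fin] at h2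
      omega
    have h1 := pL_ne L hL htop m (k + 1) (by omega) (Fin.snoc (α := fun _ => V) v w)
      (linearIndependent_finSnoc.2 ⟨hv, hw⟩)
    rw [pL_snoc, h0, zero_mul] at h1
    exact h1 rfl

lemma pL_ne' [FiniteDimensional ℂ V] (L : V →ₗ[ℂ] A) (hL : ∀ v, L v * L v = 0)
    (htop : ∃ v : Fin (Module.finrank ℂ V) → V, pL L v ≠ 0) {k : ℕ} (v : Fin k → V)
    (hv : LinearIndependent ℂ v) : pL L v ≠ 0 := by
  have h1 := hv.fintype_card_le_finrank
  rw [Fintype.card_fin] at h1
  exact pL_ne L hL htop (Module.finrank ℂ V - k) k (by omega) v hv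

/-- Derivations. -/
lemma der_pL (L : V →ₗ[ℂ] A) (D : A →ₗ[ℂ] A) (hD : ∀ x y, D (x * y) = D x * y + x * D y)
    (f : V → V) (hf : ∀ v, D (L v) = L (f v)) : ∀ {k : ℕ} (v : Fin k → V),
      D (pL L v) = ∑ j, pL L (Function.update v j (f (v j)))
  | 0, v => by
    have h1 : D 1 = 0 := by
      have h2 := hD 1 1
      rw [mul_one, mul_one, one_mul] at h2
      exact left_eq_add.1 h2
    rw [Fin.sum_univ_zero, pL, List.ofFn_zero, List.prod_nil, h1]
  | k + 1, v => by
    rw [pL_cons, hD, hf, der_pL L D hD f hf, Fin.sum_univ_succ, pL_cons]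
    have h1 : L (f (v 0)) * pL L (fun i => v i.succ) =
        L (Function.update v 0 (f (v 0)) 0) *
          pL L (fun i : Fin k => Function.update v 0 (f (v 0)) i.succ) := by
      rw [Function.update_self]
      congr 1
    rw [h1, Finset.mul_sum]
    congr 1
    refine Finset.sum_congr rfl fun j _ => ?_
    rw [pL_cons, Function.update_of_ne (Fin.succ_ne_zero j).symm]
    congr 2
    funext i
    by_cases h : i = j
    · subst h
      rw [Function.update_self, Function.update_self]
    · rw [Function.update_of_ne h, Function.update_of_ne]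
      intro h'
      exact h (Fin.succ_injective _ h')

end Pool.Agent.N996.FP
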