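import Pool.Agent.N996.FP.Alg2
import Pool.Agent.N996.BP.Core

/-!
# Central isometries
-/

set_option linter.unusedSectionVars false

namespace Pool.Agent.N996.FP

open Matrix Pool.Agent.N996.BP ComplexConjugate

variable {ι : Type} [Fintype ι] [DecidableEq ι] {H : HData ι}
  {A : Type} [Ring A] [Algebra ℂ A]

namespace AData

variable (D : AData H A)

/-- Central isometries. -/
structure IsCI (z : Matrix ι ι ℂ) : Prop where
  comm : ∀ g ∈ GG H, z * g = g * z
  commE : ∀ x : Matrix ι ι ℚ, IsHE H x → z * cQ x = cQ x * z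
  mul : ∀ x y, aop D.ε z (x * y) = aop D.ε z x * aop D.ε z y
  one : aop D.ε z 1 = 1
  iso : z * cQ H.Qir * zᵀ = cQ H.Qir

lemma ucol_one {z : Matrix ι ι ℂ} (h : UCol H.D.o z) : aop D.ε z 1 = 1 := by
  apply D.ε.injective
  rw [ep_aop, D.one]
  funext i
  rw [Matrix.mulVec_single_one, Matrix.col_apply, h i, Pi.single_apply]

/-- **Decomposition of the matrices which fix the Hodge classes of degree at most four.** -/
theorem exists_qz (htop : ∃ v : Fin (Module.finrank ℂ D.V) → D.V, pL D.L v ≠ 0)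
    {p : Matrix ι ι ℂ} (hp : ∀ (κ : Type) [Fintype κ] [DecidableEq κ], Fintype.card κ ≤ 4 →
      Fixes H p κ) : ∃ q ∈ So H, ∃ z, D.IsCI z ∧ p = q * z := by
  have hp2 : Fixes H p (Unit ⊕ Unit) := hp _ (by simp)
  have hp3 : Fixes H p (Unit ⊕ (Unit ⊕ Unit)) := hp _ (by simp)
  have hp4 : Fixes H p ((Unit ⊕ Unit) ⊕ (Unit ⊕ Unit)) := hp _ (by simp)
  obtain ⟨q, hq, q', hq', hqq, hc⟩ := exists_decH H (V := D.V) (fun z hz v hv => D.V_ho hz hv)
    (fun z hz h0 => D.der_zero hz h0) hp2 hp4 (D.tests htop hp2)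
  have hq2 : Fixes H q' (Unit ⊕ Unit) := hq' _
  have hq4 : Fixes H q' ((Unit ⊕ Unit) ⊕ (Unit ⊕ Unit)) := hq' _
  refine ⟨q, hq, q' * p, ⟨fun g hg => comm_GG hc hg, fun x hx => ?_, fun x y => ?_, ?_, ?_⟩, ?_⟩
  · rw [Matrix.mul_assoc, hx.comm_fix hp2, ← Matrix.mul_assoc, hx.comm_fix hq2,
      Matrix.mul_assoc]
  · rw [aop_mul, D.mul_fix hp3 hp4, D.mul_fix (hq' _) hq4, aop_mul, aop_mul]
  · rw [aop_mul, D.ucol_one (Fixes.ucol (hp Unit (by simp))), D.ucol_one (Fixes.ucol (hq' Unit))]
  · have h1 := fix_Q H hp2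
    have h2 := fix_Q H hq2
    calc q' * p * cQ H.Qir * (q' * p)ᵀ = q' * (p * cQ H.Qir * pᵀ) * q'ᵀ := by
          rw [Matrix.transpose_mul]; simp only [Matrix.mul_assoc]
      _ = _ := by rw [h1, h2]
  · rw [← Matrix.mul_assoc, hqq, Matrix.one_mul]

/-! ### The centre -/

/-- Hodge endomorphisms of the degree one part. -/
def IsHE1 (x : Matrix ι ι ℚ) : Prop := IsHE H x ∧ D.pr1 * x = x ∧ x * D.pr1 = x

/-- Central Hodge endomorphisms of the degree one part. -/
def IsCE (x : Matrix ι ι ℚ) : Prop := D.IsHE1 x ∧ ∀ y, D.IsHE1 y → x * y = y * x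

lemma cQ_inj {m n : Type*} {x y : Matrix m n ℚ} (h : cQ x = cQ y) : x = y := by
  ext i j
  have := congrFun (congrFun h i) j
  rw [cQ, Matrix.map_apply, cQ, Matrix.map_apply] at this
  exact_mod_cast this

/-- A central matrix acts on the degree one part as a combination of central Hodge
endomorphisms. -/
lemma ce_span {z : Matrix ι ι ℂ} (hzc : ∀ g ∈ GG H, z * g = g * z)
    (hze : ∀ x : Matrix ι ι ℚ, IsHE H x → z * cQ x = cQ x * z) :
    z * cQ D.pr1 ∈ Submodule.span ℂ (cQ '' {x | D.IsCE x}) := by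
  have hP2 : cQ D.pr1 * cQ D.pr1 = cQ D.pr1 := by
    rw [D.cQ_pr1, Matrix.diagonal_mul_diagonal]
    congr 1
    funext i
    split_ifs <;> simp
  let C : Submodule ℂ (ι × ι → ℂ) :=
    { carrier := {v | (∀ g ∈ GG H, (Matrix.of fun i j => v (i, j)) * g =
        g * (Matrix.of fun i j => v (i, j))) ∧
        (∀ x, D.IsHE1 x → (Matrix.of fun i j => v (i, j)) * cQ x =
          cQ x * (Matrix.of fun i j => v (i, j))) ∧
        cQ D.pr1 * (Matrix.of fun i j => v (i, j)) = (Matrix.of fun i j => v (i, j)) ∧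
        (Matrix.of fun i j => v (i, j)) * cQ D.pr1 = (Matrix.of fun i j => v (i, j))}
      add_mem' := by
        rintro a b ⟨h1, h2, h3, h4⟩ ⟨h1', h2', h3', h4'⟩
        have e : (Matrix.of fun i j => (a + b) (i, j)) =
          (Matrix.of fun i j => a (i, j)) + (Matrix.of fun i j => b (i, j)) := rfl
        refine ⟨fun g hg => ?_, fun x hx => ?_, ?_, ?_⟩
        · rw [e, Matrix.mul_add, Matrix.add_mul, h1 g hg, h1' g hg]
        · rw [e, Matrix.mul_add, Matrix.add_mul, h2 x hx, h2' x hx]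
        · rw [e, Matrix.mul_add, h3, h3']
        · rw [e, Matrix.add_mul, h4, h4']
      zero_mem' := by
        have e : (Matrix.of fun i j => (0 : ι × ι → ℂ) (i, j)) = 0 := rfl
        refine ⟨fun g hg => ?_, fun x hx => ?_, ?_, ?_⟩ <;>
          rw [e] <;> simp only [Matrix.mul_zero, Matrix.zero_mul]
      smul_mem' := by
        rintro c a ⟨h1, h2, h3, h4⟩
        have e : (Matrix.of fun i j => (c • a) (i, j)) =
          c • (Matrix.of fun i j => a (i, j)) := rfl
        refine ⟨fun g hg => ?_, fun x hx => ?_, ?_, ?_⟩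
        · rw [e, Matrix.mul_smul, Matrix.smul_mul, h1 g hg]
        · rw [e, Matrix.mul_smul, Matrix.smul_mul, h2 x hx]
        · rw [e, Matrix.mul_smul, h3]
        · rw [e, Matrix.smul_mul, h4] }
  have hC : ∀ (σ : ℂ ≃+* ℂ), ∀ v ∈ C, (fun i => σ (v i)) ∈ C := by
    rintro σ v ⟨h1, h2, h3, h4⟩
    have e0 : (Matrix.of fun i j => (fun i => σ (v i)) (i, j)) =
        (Matrix.of fun i j => v (i, j)).map σ := rfl
    have e1 : (⇑σ ∘ ⇑σ.symm) = id := by ext; simp
    refine ⟨fun g hg => ?_, fun x hx => ?_, ?_, ?_⟩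
    · have h5 := congrArg (fun M => M.map σ) (h1 (g.map σ.symm) (GG_map H σ.symm hg))
      simp only [map_mul', Matrix.map_map, e1, Matrix.map_id] at h5
      exact h5
    · have h5 := congrArg (fun M => M.map σ) (h2 x hx)
      simp only [map_mul', cQ_map] at h5
      exact h5
    · have h5 := congrArg (fun M => M.map σ) h3
      simp only [map_mul', cQ_map] at h5
      exact h5
    · have h5 := congrArg (fun M => M.map σ) h4
      simp only [map_mul', cQ_map] at h5
      exact h5
  have hzp := hze _ D.pr1_HE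
  have hzC : (fun v : ι × ι => (z * cQ D.pr1) v.1 v.2) ∈ C := by
    refine ⟨fun g hg => ?_, fun x hx => ?_, ?_, ?_⟩
    · change z * cQ D.pr1 * g = g * (z * cQ D.pr1)
      have h1 : cQ D.pr1 * g = g * cQ D.pr1 := by
        induction hg using Submonoid.closure_induction with
        | mem x hx =>
          obtain ⟨σ, t, ht, rfl⟩ := hx
          have h5 := congrArg (fun M => M.map σ) (D.pr1_HE t ht)
          simp only [map_mul', cQ_map] at h5
          exact h5.symm
        | one => rw [Matrix.mul_one, Matrix.one_mul]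
        | mul x y _ _ hx hy => rw [← Matrix.mul_assoc, hx, Matrix.mul_assoc, hy, Matrix.mul_assoc]
      rw [Matrix.mul_assoc, h1, ← Matrix.mul_assoc, hzc g hg, Matrix.mul_assoc]
    · change z * cQ D.pr1 * cQ x = cQ x * (z * cQ D.pr1)
      rw [Matrix.mul_assoc, ← cQ_mul, hx.2.1, hze x hx.1, hzp, ← Matrix.mul_assoc, ← cQ_mul,
        hx.2.2]
    · change cQ D.pr1 * (z * cQ D.pr1) = z * cQ D.pr1
      rw [hzp, ← Matrix.mul_assoc, hP2]
    · change z * cQ D.pr1 * cQ D.pr1 = z * cQ D.pr1
      rw [Matrix.mul_assoc, hP2]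
  rw [Pool.Agent.W437.HD.span_rational C hC] at hzC
  have key : ∀ v ∈ Submodule.span ℂ {w | w ∈ C ∧ ∃ u : ι × ι → ℚ, w = fun i => (u i : ℂ)},
      (Matrix.of fun i j => v (i, j)) ∈ Submodule.span ℂ (cQ '' {x | D.IsCE x}) := by
    intro v hv
    induction hv using Submodule.span_induction with
    | mem v hv =>
      obtain ⟨⟨h1, h2, h3, h4⟩, u, rfl⟩ := hv
      refine Submodule.subset_span ⟨Matrix.of fun i j => u (i, j), ?_, rfl⟩
      have e0 : (Matrix.of fun i j => (fun i => (u i : ℂ)) (i, j)) =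
          cQ (Matrix.of fun i j => u (i, j)) := rfl
      rw [e0] at h1 h2 h3 h4
      refine ⟨⟨fun t ht => ?_, ?_, ?_⟩, fun y hy => ?_⟩
      · exact (h1 _ (Submonoid.subset_closure (l_mem_gens H ht))).symm
      · apply cQ_inj
        rw [cQ_mul, h3]
      · apply cQ_inj
        rw [cQ_mul, h4]
      · apply cQ_inj
        rw [cQ_mul, cQ_mul, h2 y hy]
    | zero => exact Submodule.zero_mem _
    | add a b _ _ ha hb => exact Submodule.add_mem _ ha hb
    | smul c a _ ha => exact Submodule.smul_mem _ c ha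
  exact key _ hzC

/-- A central isometry acts on the degree one part as a combination of central Hodge
endomorphisms. -/
lemma ci_span {z : Matrix ι ι ℂ} (hz : D.IsCI z) :
    z * cQ D.pr1 ∈ Submodule.span ℂ (cQ '' {x | D.IsCE x}) :=
  D.ce_span hz.comm hz.commE

end AData

/-- The commutant of the group is spanned by Hodge endomorphisms. -/
lemma comm_span {z : Matrix ι ι ℂ} (hz : ∀ g ∈ GG H, z * g = g * z) :
    z ∈ Submodule.span ℂ (cQ '' {x | IsHE H x}) := by
  let C : Submodule ℂ (ι × ι → ℂ) :=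
    { carrier := {v | ∀ g ∈ GG H, (Matrix.of fun i j => v (i, j)) * g =
        g * (Matrix.of fun i j => v (i, j))}
      add_mem' := by
        rintro a b h1 h1' g hg
        have e : (Matrix.of fun i j => (a + b) (i, j)) =
          (Matrix.of fun i j => a (i, j)) + (Matrix.of fun i j => b (i, j)) := rfl
        rw [e, Matrix.mul_add, Matrix.add_mul, h1 g hg, h1' g hg]
      zero_mem' := by
        intro g _
        have e : (Matrix.of fun i j => (0 : ι × ι → ℂ) (i, j)) = 0 := rfl
        rw [e, Matrix.mul_zero, Matrix.zero_mul]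
      smul_mem' := by
        rintro c a h1 g hg
        have e : (Matrix.of fun i j => (c • a) (i, j)) =
          c • (Matrix.of fun i j => a (i, j)) := rfl
        rw [e, Matrix.mul_smul, Matrix.smul_mul, h1 g hg] }
  have hC : ∀ (σ : ℂ ≃+* ℂ), ∀ v ∈ C, (fun i => σ (v i)) ∈ C := by
    intro σ v h1 g hg
    have e0 : (Matrix.of fun i j => (fun i => σ (v i)) (i, j)) =
        (Matrix.of fun i j => v (i, j)).map σ := rfl
    have e1 : (⇑σ ∘ ⇑σ.symm) = id := by ext; simp
    have h5 := congrArg (fun M => M.map σ) (h1 (g.map σ.symm) (GG_map H σ.symm hg))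
    simp only [map_mul', Matrix.map_map, e1, Matrix.map_id] at h5
    exact h5
  have hzC : (fun v : ι × ι => z v.1 v.2) ∈ C := hz
  rw [Pool.Agent.W437.HD.span_rational C hC] at hzC
  have key : ∀ v ∈ Submodule.span ℂ {w | w ∈ C ∧ ∃ u : ι × ι → ℚ, w = fun i => (u i : ℂ)},
      (Matrix.of fun i j => v (i, j)) ∈ Submodule.span ℂ (cQ '' {x | IsHE H x}) := by
    intro v hv
    induction hv using Submodule.span_induction with
    | mem v hv =>
      obtain ⟨h1, u, rfl⟩ := hv
      refine Submodule.subset_span ⟨Matrix.of fun i j => u (i, j), ?_, rfl⟩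
      have e0 : (Matrix.of fun i j => (fun i => (u i : ℂ)) (i, j)) =
          cQ (Matrix.of fun i j => u (i, j)) := rfl
      intro t ht
      exact (h1 _ (Submonoid.subset_closure (l_mem_gens H ht))).symm
    | zero => exact Submodule.zero_mem _
    | add a b _ _ ha hb => exact Submodule.add_mem _ ha hb
    | smul c a _ ha => exact Submodule.smul_mem _ c ha
  exact key _ hzC

variable {B : ∀ n : ℕ, Submodule ℚ ((Fin (n + 1) → ι) → ℚ)}

/-- **The core theorem.** A family of Hodge classes containing all Hodge classes of degree at most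
four contains all Hodge classes which are invariant under the central isometries. -/
theorem coreU (D : AData H A) (htop : ∃ v : Fin (Module.finrank ℂ D.V) → D.V, pL D.L v ≠ 0)
    (hA : RFam H B) (hN : ∀ n, n + 1 ≤ 4 → BB H (Fin (n + 1)) ≤ B n) (n : ℕ)
    (h : (Fin (n + 1) → ι) → ℚ) (hh : h ∈ BB H (Fin (n + 1)))
    (hU : ∀ z, D.IsCI z → kp (Fin (n + 1)) z *ᵥ ca h = ca h) : h ∈ B n := by
  classical
  have h2 : 2 ≤ 4 := by norm_num
  have hfam := hA.isFam hN h2
  have h1 : (fun i => (h i : ℝ)) ∈ AR B (Fin (n + 1)) := by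
    refine mem_of_fixed (κ := Fin (n + 1)) hfam _ ?_ ?_
    · have h1 := hh Complex.I Complex.I_ne_zero
      rw [← cR_C, kp_cR] at h1
      ext i
      have h2 := congrFun h1 i
      rw [Matrix.mulVec, dotProduct] at h2 ⊢
      have h3 : ((∑ j, kp (Fin (n + 1)) H.D.C i j * (h j : ℝ) : ℝ) : ℂ) = (((h i : ℝ)) : ℂ) := by
        push_cast
        exact h2
      exact_mod_cast h3
    · intro g hg
      obtain ⟨q, hq, z, hz, hgq⟩ := D.exists_qz htop (p := g) (fun κ _ _ hκ a ha => by
        have h4 := hg κ _ (AR_of (hA.of_small hN hκ ha))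
        simp only [Complex.ofReal_ratCast] at h4
        exact h4)
      simp only [Complex.ofReal_ratCast]
      change kp (Fin (n + 1)) g *ᵥ ca h = ca h
      rw [hgq, kp_mul, ← Matrix.mulVec_mulVec, hU z hz, hq _ h hh]
  rw [← hA.mem_iff]
  exact descent _ h1

end Pool.Agent.N996.FP
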