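import Pool.Agent.N996.FP.Cha

/-!
# Irreducible multisets of weights
-/

set_option linter.unusedSectionVars false

namespace Pool.Agent.N996.FP

open Matrix Pool.Agent.N996.BP ComplexConjugate ComplexOrder

section mset

variable {α : Type*} [DecidableEq α] {P : α → α → Prop} [∀ c, DecidablePred fun a => P a c]

/-- Sub-multisets with given numbers of elements. -/
lemma exists_sub (s : Multiset α) (k : α → ℕ) (R : Finset α) :
    (∀ a, ∀ c ∈ R, ∀ c' ∈ R, P a c → P a c' → c = c') →
    (∀ c ∈ R, k c ≤ (s.filter fun a => P a c).card) →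
    ∃ t ≤ s, (∀ c ∈ R, (t.filter fun a => P a c).card = k c) ∧ ∀ a ∈ t, ∃ c ∈ R, P a c := by
  induction R using Finset.induction_on with
  | empty =>
    intro _ _
    exact ⟨0, Multiset.zero_le _, by simp, by simp⟩
  | insert b R hb ih =>
    intro hd hk
    obtain ⟨t, ht, htc, htP⟩ := ih
      (fun a c hc c' hc' => hd a c (Finset.mem_insert_of_mem hc) c' (Finset.mem_insert_of_mem hc'))
      (fun c hc => hk c (Finset.mem_insert_of_mem hc))
    obtain ⟨l, hl⟩ : ∃ l : List α, (l : Multiset α) = s.filter fun a => P a b :=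
      Quot.exists_rep _
    obtain ⟨u, hu⟩ : ∃ u : Multiset α, u = ((l.take (k b) : List α) : Multiset α) := ⟨_, rfl⟩
    have hkb := hk b (Finset.mem_insert_self b R)
    have huc : u.card = k b := by
      rw [← hl, Multiset.coe_card] at hkb
      rw [hu, Multiset.coe_card, List.length_take]
      omega
    have hus : u ≤ s.filter fun a => P a b := by
      rw [hu, ← hl, Multiset.coe_le]
      exact (List.take_sublist _ l).subperm
    have huP : ∀ a ∈ u, P a b := fun a ha =>
      (Multiset.mem_filter.1 (Multiset.mem_of_le hus ha)).2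
    have htb : ∀ a ∈ t, ¬ P a b := by
      intro a ha hab
      obtain ⟨c, hc, hac⟩ := htP a ha
      have h1 := hd a c (Finset.mem_insert_of_mem hc) b (Finset.mem_insert_self b R) hac hab
      rw [h1] at hc
      exact hb hc
    refine ⟨t + u, ?_, fun c hc => ?_, fun a ha => ?_⟩
    · have h1 : t ≤ s.filter fun a => ¬ P a b := Multiset.le_filter.2 ⟨ht, htb⟩
      calc t + u ≤ (s.filter fun a => ¬ P a b) + s.filter fun a => P a b := add_le_add h1 hus
        _ = s := by rw [add_comm]; exact Multiset.filter_add_not _ _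
    · rw [Multiset.filter_add, Multiset.card_add]
      rcases Finset.mem_insert.1 hc with h1 | h1
      · rw [h1, Multiset.filter_eq_nil.2 htb, Multiset.filter_eq_self.2 huP, Multiset.card_zero,
          zero_add, huc]
      · have h2 : ∀ a ∈ u, ¬ P a c := by
          intro a ha hac
          have h3 := hd a c (Finset.mem_insert_of_mem h1) b (Finset.mem_insert_self b R) hac
            (huP a ha)
          rw [h3] at h1
          exact hb h1
        rw [htc c h1, Multiset.filter_eq_nil.2 h2, Multiset.card_zero, add_zero]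
    · rcases Multiset.mem_add.1 ha with h1 | h1
      · obtain ⟨c, hc, hac⟩ := htP a h1
        exact ⟨c, Finset.mem_insert_of_mem hc, hac⟩
      · exact ⟨b, Finset.mem_insert_self b R, huP a h1⟩

/-- Sums over the classes. -/
lemma sum_classes {M : Type*} [AddCommGroup M] (Q : AddSubgroup M) (F : α → M) (R : Finset α)
    (hd : ∀ a, ∀ c ∈ R, ∀ c' ∈ R, P a c → P a c' → c = c')
    (hF : ∀ a c, c ∈ R → P a c → F a - F c ∈ Q) (s : Multiset α)
    (h0 : ∀ a ∈ s, (∀ c ∈ R, ¬ P a c) → F a ∈ Q) :
    (s.map F).sum - ∑ c ∈ R, (s.filter fun a => P a c).card • F c ∈ Q := by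
  induction s using Multiset.induction_on with
  | empty => simp [Q.zero_mem]
  | cons a s ih =>
    have h1 := ih fun b hb => h0 b (Multiset.mem_cons_of_mem hb)
    by_cases hex : ∃ c ∈ R, P a c
    · obtain ⟨c, hc, hac⟩ := hex
      have h2 : ∑ c ∈ R, ((a ::ₘ s).filter fun a => P a c).card • F c =
          F c + ∑ c ∈ R, (s.filter fun a => P a c).card • F c := by
        rw [← Finset.add_sum_erase _ _ hc, ← Finset.add_sum_erase _ _ hc, ← add_assoc]
        congr 1
        · rw [Multiset.filter_cons_of_pos (p := fun a => P a c) _ hac, Multiset.card_cons,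
            add_smul, one_smul, add_comm]
        · refine Finset.sum_congr rfl fun c' hc' => ?_
          have h3 : ¬ P a c' := fun h =>
            Finset.ne_of_mem_erase hc' (hd a c' (Finset.mem_of_mem_erase hc') c hc h hac)
          rw [Multiset.filter_cons_of_neg (p := fun a => P a c') _ h3]
      rw [h2, Multiset.map_cons, Multiset.sum_cons]
      have h3 := Q.add_mem (hF a c hc hac) h1
      convert h3 using 1
      abel
    · push Not at hex
      have h2 : ∑ c ∈ R, ((a ::ₘ s).filter fun a => P a c).card • F c =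
          ∑ c ∈ R, (s.filter fun a => P a c).card • F c := by
        refine Finset.sum_congr rfl fun c' hc' => ?_
        rw [Multiset.filter_cons_of_neg (p := fun a => P a c') _ (hex c' hc')]
      rw [h2, Multiset.map_cons, Multiset.sum_cons]
      have h3 := Q.add_mem (h0 a (Multiset.mem_cons_self a s) hex) h1
      convert h3 using 1
      abel

end mset

variable {ι : Type} [Fintype ι] [DecidableEq ι] {H : HData ι}
  {A : Type} [Ring A] [Algebra ℂ A]

namespace AData

variable (D : AData H A) {x z : Matrix ι ι ℂ} {n : ℕ}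

/-- **The bound for irreducible multisets of weights.** -/
theorem irr_count (htop : ∃ v : Fin (Module.finrank ℂ D.V) → D.V, pL D.L v ≠ 0)
    (hz : D.IsCI z) (hP : cQ D.pr1 * cQ H.Qir = cQ H.Qir * (cQ D.pr1)ᵀ)
    (hN : Ng H (RingEquiv.refl ℂ) * Ng H (RingEquiv.refl ℂ) * cQ D.pr1 = cQ D.pr1) {g : ℕ}
    (hg : Module.finrank ℂ D.V = 2 * g) (hx : IsReg (hn H) x)
    (B : Bz (hn H) x (cji H z) D.Vn n) {s : Multiset (Fin n)} (hs : B.tot s = 0)
    (hirr : ∀ t ≤ s, B.tot t ∈ QL (hn H) x → t = 0 ∨ t = s) (i : Fin n) (p : Fin n → Prop)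
    [DecidablePred p] (hp : ∀ j, p j → B.T j - B.T i ∈ QL (hn H) x) :
    (s.filter p).card ≤ max 2 (g ^ (2 * g)) := by
  classical
  by_cases h2i : 2 • B.T i ∈ QL (hn H) x
  · exact (B.count_le hirr two_pos le_rfl h2i p hp).trans (le_max_left _ _)
  by_cases hcs : s.card ≤ 2
  · exact ((Multiset.card_le_card (Multiset.filter_le p s)).trans hcs).trans (le_max_left _ _)
  push Not at hcs
  refine le_trans ?_ (le_max_right _ _)
  rcases Multiset.empty_or_exists_mem (s.filter p) with h0 | ⟨j₀, hj₀⟩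
  · rw [h0, Multiset.card_zero]
    exact Nat.zero_le _
  have hj₀s := Multiset.mem_of_mem_filter hj₀
  have hj₀p := hp j₀ (Multiset.of_mem_filter hj₀)
  have hm : n = 2 * g := by
    have h3 := Module.finrank_eq_card_basis B.bas
    rw [Fintype.card_fin] at h3
    rw [← h3, ← hg]
    exact D.eV.finrank_eq.symm
  have hg1 : 1 ≤ g := by
    have := i.2
    omega
  -- the classes
  let Pc : Fin n → Fin n → Prop := fun a c => B.T a - B.T c ∈ QL (hn H) x
  have hPc : ∀ a c, Pc a c ↔ B.T a - B.T c ∈ QL (hn H) x := fun _ _ => Iff.rfl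
  have hrefl : ∀ a, Pc a a := fun a => by
    rw [hPc, sub_self]; exact (QL _ x).zero_mem
  have hsymm : ∀ {a b}, Pc a b → Pc b a := fun {a b} h => by
    rw [hPc] at h ⊢
    have := (QL _ x).neg_mem h
    rwa [neg_sub] at this
  have htrans : ∀ {a b c}, Pc a b → Pc b c → Pc a c := fun {a b c} h h' => by
    rw [hPc] at h h' ⊢
    have := (QL _ x).add_mem h h'
    rwa [sub_add_sub_cancel] at this
  let S : Fin n → Finset (Fin n) := fun k => Finset.univ.filter fun j => Pc j k
  have hS : ∀ k i, i ∈ S k ↔ B.T i - B.T k ∈ QL (hn H) x := fun k i => by simp [S, Pc]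
  have hSne : ∀ k, (S k).Nonempty := fun k => ⟨k, (hS k k).2 (hrefl k)⟩
  let rep : Fin n → Fin n := fun k => (S k).min' (hSne k)
  have hrep : ∀ k, Pc (rep k) k := fun k => (hS k _).1 ((S k).min'_mem (hSne k))
  have hSeq : ∀ {a b}, Pc a b → S a = S b := fun {a b} h => by
    ext c
    rw [hS, hS]
    exact ⟨fun h' => htrans h' h, fun h' => htrans h' (hsymm h)⟩
  have hrepeq : ∀ {a b}, Pc a b → rep a = rep b := fun {a b} h => by
    simp only [rep, hSeq h]
  -- the opposite classes
  have hopp : ∀ i j, (2 • B.T i ∉ QL (hn H) x ∧ ∃ j ∈ s, Pc i j) →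
      (2 • B.T j ∉ QL (hn H) x ∧ ∃ i ∈ s, Pc j i) → B.T i + B.T j ∉ QL (hn H) x := by
    rintro i j ⟨hi, i', hi's, hii⟩ ⟨hj, j', hj's, hjj⟩ hij
    by_cases hne : i' = j'
    · subst hne
      apply hi
      have h1 := (QL _ x).add_mem hij ((QL _ x).sub_mem hii hjj)
      have h2 : B.T i + B.T j + (B.T i - B.T i' - (B.T j - B.T i')) = 2 • B.T i := by
        rw [two_nsmul]; abel
      rwa [h2] at h1
    · have h1 : i' ::ₘ ({j'} : Multiset (Fin n)) ≤ s := by
        rw [Multiset.le_iff_count]
        intro a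
        rw [Multiset.count_cons, Multiset.count_singleton]
        by_cases h3 : a = j'
        · have h4 : a ≠ i' := fun h => hne (h ▸ h3)
          rw [if_pos h3, if_neg h4, h3]
          exact Multiset.one_le_count_iff_mem.2 hj's
        · rw [if_neg h3]
          by_cases h4 : a = i'
          · rw [if_pos h4, h4]
            exact Multiset.one_le_count_iff_mem.2 hi's
          · rw [if_neg h4]
            exact Nat.zero_le _
      have h2 : B.tot (i' ::ₘ ({j'} : Multiset (Fin n))) ∈ QL (hn H) x := by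
        rw [B.tot_cons, Bz.tot, Multiset.map_singleton, Multiset.sum_singleton]
        have h3 := (QL _ x).sub_mem hij ((QL _ x).add_mem hii hjj)
        have h4 : B.T i + B.T j - (B.T i - B.T i' + (B.T j - B.T j')) = B.T i' + B.T j' := by
          abel
        rwa [h4] at h3
      rcases hirr _ h1 h2 with h3 | h3
      · exact Multiset.cons_ne_zero h3
      · rw [← h3, Multiset.card_cons, Multiset.card_singleton] at hcs
        omega
  let U : Finset (Fin n) := Finset.univ.filter fun i => 2 • B.T i ∉ QL (hn H) x ∧ ∃ j ∈ s, Pc i j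
  have hU : ∀ i, i ∈ U ↔ (2 • B.T i ∉ QL (hn H) x ∧ ∃ j ∈ s, Pc i j) := fun i => by simp [U]
  have hUg : U.card ≤ g := by
    have h1 := D.half_of hP hx B U fun i hi j hj h0 => by
      refine hopp i j ((hU i).1 hi) ((hU j).1 hj) ?_
      rw [h0]
      exact (QL _ x).zero_mem
    omega
  let R : Finset (Fin n) := U.filter fun c => rep c = c
  have hR : ∀ c, c ∈ R ↔ c ∈ U ∧ rep c = c := fun c => by simp [R]
  have hUrep : ∀ i ∈ U, rep i ∈ R := by
    intro i hi
    obtain ⟨h1, j, hj, hij⟩ := (hU i).1 hi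
    refine (hR _).2 ⟨(hU _).2 ⟨fun h3 => h1 ?_, j, hj, htrans (hrep i) hij⟩,
      hrepeq (hrep i)⟩
    have h4 := (QL _ x).nsmul_mem (hrep i) 2
    have h5 := (QL _ x).sub_mem h3 h4
    have h6 : 2 • B.T (rep i) - 2 • (B.T (rep i) - B.T i) = 2 • B.T i := by
      rw [smul_sub, sub_sub_cancel]
    rwa [h6] at h5
  have hdis : ∀ a, ∀ c ∈ R, ∀ c' ∈ R, Pc a c → Pc a c' → c = c' := by
    intro a c hc c' hc' h h'
    rw [← ((hR c).1 hc).2, ← ((hR c').1 hc').2]
    exact hrepeq (htrans (hsymm h) h')
  have hSU : ∀ c ∈ R, S c ⊆ U := by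
    intro c hc j hj
    have hjc : Pc j c := (hS c j).1 hj
    obtain ⟨h1, j', hj', hcj'⟩ := (hU c).1 ((hR c).1 hc).1
    refine (hU j).2 ⟨fun h3 => h1 ?_, j', hj', htrans hjc hcj'⟩
    have h4 := (QL _ x).nsmul_mem hjc 2
    have h5 := (QL _ x).sub_mem h3 h4
    have h6 : 2 • B.T j - 2 • (B.T j - B.T c) = 2 • B.T c := by
      rw [smul_sub, sub_sub_cancel]
    rwa [h6] at h5
  have hmg : ∀ c ∈ R, (S c).card ≤ g := fun c hc => (Finset.card_le_card (hSU c hc)).trans hUg
  have hRg : R.card ≤ g := (Finset.card_le_card (Finset.filter_subset _ _)).trans hUg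
  -- the data of the relations
  choose lam hlam1 hlam2 using fun (c : R) (σ : ℂ ≃+* ℂ) => D.char_int htop hz hN hx B (hS c) σ
  let m : R → ℕ := fun c => (S c).card
  let nn : R → ℕ := fun c => (s.filter fun a => Pc a c).card
  have hm0 : ∀ c : R, 0 < m c := fun c => Finset.card_pos.2 (hSne c)
  have hDm : ∀ c, ∑ j ∈ S c, B.T j - (S c).card • B.T c ∈ QL (hn H) x := by
    intro c
    have h4 : ∑ j ∈ S c, (B.T j - B.T c) ∈ QL (hn H) x :=
      (QL (hn H) x).sum_mem fun j hj => (hS c j).1 hj
    rwa [Finset.sum_sub_distrib, Finset.sum_const] at h4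
  have hQt : ∀ (t q : Matrix ι ι ℂ), (∀ q ∈ QL (hn H) x, (t * q).trace = 0) →
      q ∈ QL (hn H) x → (q * t).trace = 0 := fun t q ht hq => by
    rw [Matrix.trace_mul_comm]; exact ht q hq
  -- the relation
  obtain ⟨Δ, hΔ⟩ : ∃ Δ : Matrix ι ι ℂ, Δ = ∑ c : R, ((nn c : ℂ) / (m c : ℂ)) •
    ∑ j ∈ S c, B.T j := ⟨_, rfl⟩
  have hΔH : Δᴴ = Δ := by
    rw [hΔ, Matrix.conjTranspose_sum]
    refine Finset.sum_congr rfl fun c _ => ?_
    rw [Matrix.conjTranspose_smul, Matrix.conjTranspose_sum]
    congr 1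
    · rw [star_div₀]
      simp
    · exact Finset.sum_congr rfl fun j _ => (B.wt j).herm
  have hΔQ : ∀ q ∈ QL (hn H) x, (Δ * q).trace = 0 := by
    intro q hq
    rw [hΔ, Finset.sum_mul, Matrix.trace_sum]
    refine Finset.sum_eq_zero fun c _ => ?_
    rw [Matrix.smul_mul, Matrix.trace_smul, D.char_root htop hz hx B (hS c) hq, smul_zero]
  have hΔ0 : Δ = 0 := by
    -- values on the weights
    let F : Fin n → ℂ := fun a => (B.T a * Δ).trace
    have hker : ∀ q ∈ QL (hn H) x, (q * Δ).trace = 0 := fun q hq => hQt Δ q hΔQ hq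
    have h1 := sum_classes (P := Pc) (⊥ : AddSubgroup ℂ) F R hdis (fun a c _ hac => by
        rw [AddSubgroup.mem_bot]
        change (B.T a * Δ).trace - (B.T c * Δ).trace = 0
        rw [← Matrix.trace_sub, ← Matrix.sub_mul]
        exact hker _ hac) s (fun a ha hna => by
        rw [AddSubgroup.mem_bot]
        change (B.T a * Δ).trace = 0
        by_cases h2a : 2 • B.T a ∈ QL (hn H) x
        · have h3 := hker _ h2a
          rw [two_nsmul, Matrix.add_mul, Matrix.trace_add] at h3
          rwa [← two_mul, mul_eq_zero, or_iff_right two_ne_zero] at h3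
        · exfalso
          exact hna (rep a) (hUrep a ((hU a).2 ⟨h2a, a, ha, hrefl a⟩)) (hsymm (hrep a)))
    rw [AddSubgroup.mem_bot, sub_eq_zero] at h1
    have h2 : (s.map F).sum = 0 := by
      have h3 : ∀ u : Multiset (Fin n), (u.map F).sum = (B.tot u * Δ).trace := by
        intro u
        induction u using Multiset.induction_on with
        | empty =>
          rw [Multiset.map_zero, Multiset.sum_zero, Bz.tot, Multiset.map_zero,
            Multiset.sum_zero, Matrix.zero_mul, Matrix.trace_zero]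
        | cons a u ih =>
          rw [Multiset.map_cons, Multiset.sum_cons, ih, B.tot_cons, Matrix.add_mul,
            Matrix.trace_add]
      rw [h3, hs, Matrix.zero_mul, Matrix.trace_zero]
    have h3 : (Δ * Δ).trace = 0 := by
      have h4 : (Δ * Δ).trace = ∑ c : R, (nn c : ℂ) * F c := by
        conv_lhs => rw [hΔ]
        rw [Finset.sum_mul, Matrix.trace_sum]
        refine Finset.sum_congr rfl fun c _ => ?_
        rw [Matrix.smul_mul, Matrix.trace_smul, smul_eq_mul, ← hΔ]
        have h5 : ((∑ j ∈ S c, B.T j) * Δ).trace = (m c : ℂ) * F c := by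
          have h6 := hker _ (hDm c)
          rw [Matrix.sub_mul, Matrix.trace_sub, sub_eq_zero] at h6
          rw [h6, Matrix.smul_mul, Matrix.trace_smul, nsmul_eq_mul]
        rw [h5]
        have h7 : (m c : ℂ) ≠ 0 := by exact_mod_cast (hm0 c).ne'
        field_simp
      rw [h4, Finset.sum_coe_sort R (fun c => ((s.filter fun a => Pc a c).card : ℂ) * F c),
        ← h2, h1]
      exact Finset.sum_congr rfl fun c _ => (nsmul_eq_mul _ _).symm
    have h4 : nsq Δ = 0 := by rw [nsq, hΔH]; exact h3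
    exact nsq_eq_zero h4
  have hrel : IsRel lam fun c => (nn c : ℚ) / (m c : ℚ) := by
    intro σ
    have h1 : (Δ * cji H (Ng H σ)).trace = 0 := by
      rw [hΔ0, Matrix.zero_mul, Matrix.trace_zero]
    rw [hΔ, Finset.sum_mul, Matrix.trace_sum] at h1
    have h2 : ∑ c : R, (((nn c : ℚ) / (m c : ℚ) * (lam c σ : ℚ) : ℚ) : ℂ) = 0 := by
      rw [← h1]
      refine Finset.sum_congr rfl fun c _ => ?_
      rw [Matrix.smul_mul, Matrix.trace_smul, smul_eq_mul, hlam2 c σ]
      push_cast
      rfl
    exact_mod_cast h2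
  -- irreducibility
  have hirr2 : ∀ y : R → ℕ, y ≠ 0 → IsRel lam (fun c => (y c : ℚ)) →
      (∀ c, m c * y c ≤ nn c) → ∀ c, m c * y c = nn c := by
    intro y hy0 hyr hyn
    let y' : Fin n → ℕ := fun c => if h : c ∈ R then y ⟨c, h⟩ else 0
    have hy' : ∀ c : R, y' c = y c := fun c => by simp only [y']; rw [dif_pos c.2]
    have hy'' : ∀ c, c ∉ R → y' c = 0 := fun c hc => by simp only [y']; rw [dif_neg hc]
    have h1 : ∑ k, (y' k : ℂ) • ∑ j ∈ S k, B.T j = 0 := by
      refine D.char_rel htop hz hx B hS y' fun σ => ?_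
      have h2 : ∑ k, (y' k : ℂ) * ((∑ j ∈ S k, B.T j) * cji H (Ng H σ)).trace =
          ∑ c : R, (((y c : ℚ) * (lam c σ : ℚ) : ℚ) : ℂ) := by
        rw [← Finset.sum_subset (Finset.subset_univ R), ← Finset.sum_coe_sort R]
        · refine Finset.sum_congr rfl fun c _ => ?_
          rw [hy' c, hlam2 c σ]
          push_cast
          rfl
        · intro c _ hc
          rw [hy'' c hc, Nat.cast_zero, zero_mul]
      rw [h2, ← Rat.cast_sum, hyr σ, Rat.cast_zero]
    obtain ⟨t, hts, htc, htP⟩ := exists_sub (P := Pc) s (fun c => (S c).card * y' c) R hdis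
      (fun c hc => by
        have h2 := hyn ⟨c, hc⟩
        rw [← hy' ⟨c, hc⟩] at h2
        exact h2)
    have htQ : B.tot t ∈ QL (hn H) x := by
      have h2 := sum_classes (P := Pc) (QL (hn H) x) B.T R hdis (fun a c _ hac => hac) t
        (fun a ha hna => by
          obtain ⟨c, hc, hac⟩ := htP a ha
          exact absurd hac (hna c hc))
      rw [Finset.sum_congr rfl fun c hc => by rw [htc c hc]] at h2
      have h3 : ∑ c ∈ R, y' c • ((S c).card • B.T c - ∑ j ∈ S c, B.T j) ∈ QL (hn H) x := by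
        refine (QL (hn H) x).sum_mem fun c _ => (QL (hn H) x).nsmul_mem ?_ _
        have := (QL (hn H) x).neg_mem (hDm c)
        rwa [neg_sub] at this
      have h4 : ∑ c ∈ R, y' c • ∑ j ∈ S c, B.T j = 0 := by
        rw [← h1, ← Finset.sum_subset (Finset.subset_univ R)]
        · refine Finset.sum_congr rfl fun c _ => ?_
          rw [Nat.cast_smul_eq_nsmul]
        · intro c _ hc
          rw [hy'' c hc, Nat.cast_zero, zero_smul]
      simp only [smul_sub, Finset.sum_sub_distrib] at h3
      rw [h4, sub_zero] at h3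
      have h5 := (QL (hn H) x).add_mem h2 h3
      have h6 : (t.map B.T).sum - ∑ c ∈ R, ((S c).card * y' c) • B.T c +
          ∑ c ∈ R, y' c • (S c).card • B.T c = (t.map B.T).sum := by
        have h7 : ∑ c ∈ R, ((S c).card * y' c) • B.T c = ∑ c ∈ R, y' c • (S c).card • B.T c :=
          Finset.sum_congr rfl fun c _ => by rw [smul_smul, mul_comm]
        rw [h7, sub_add_cancel]
      rw [h6] at h5
      exact h5
    intro c
    rcases hirr t hts htQ with h2 | h2
    · exfalso
      apply hy0
      funext c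
      have h3 := htc c c.2
      rw [h2, Multiset.filter_zero, Multiset.card_zero, hy' c] at h3
      exact (Nat.mul_eq_zero.1 h3.symm).resolve_left (hm0 c).ne'
    · have h3 := htc c c.2
      rw [h2, hy' c] at h3
      exact h3.symm
  -- the bound
  have hl : ∀ (c : R) (σ : ℂ ≃+* ℂ), |lam c σ| ≤ (g : ℤ) := fun c σ =>
    (hlam1 c σ).trans (by exact_mod_cast hmg c c.2)
  have hc₀ : rep i ∈ R := by
    refine hUrep i ((hU i).2 ⟨h2i, j₀, hj₀s, hsymm hj₀p⟩)
  have hfin := irr_bound hg1 hl hm0 hrel hirr2 ⟨rep i, hc₀⟩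
  have h1 : (s.filter p).card ≤ nn ⟨rep i, hc₀⟩ := by
    refine Multiset.card_le_card (Multiset.monotone_filter_right s fun a ha => ?_)
    exact htrans (hp a ha) (hsymm (hrep i))
  refine h1.trans (hfin.trans ?_)
  rw [Fintype.card_coe]
  have h3 : 1 ≤ R.card := Finset.card_pos.2 ⟨_, hc₀⟩
  have h4 : (R.card * g) ^ (R.card - 1) ≤ (g * g) ^ (g - 1) := by
    have h5 : 1 ≤ g * g := Nat.mul_pos hg1 hg1
    exact (Nat.pow_le_pow_left (Nat.mul_le_mul_right g hRg) _).trans
      (Nat.pow_le_pow_right h5 (by omega))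
  calc m ⟨rep i, hc₀⟩ * (R.card * (R.card * g) ^ (R.card - 1)) ≤
      g * (g * (g * g) ^ (g - 1)) :=
        Nat.mul_le_mul (hmg _ hc₀) (Nat.mul_le_mul hRg h4)
    _ = g ^ (2 * g) := by
        obtain ⟨g', rfl⟩ : ∃ g', g = g' + 1 := ⟨g - 1, by omega⟩
        rw [Nat.add_sub_cancel, ← mul_assoc, ← pow_succ', pow_mul, pow_two]

end AData

end Pool.Agent.N996.FP
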