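import Pool.Agent.N996.FP.Cor2
import Pool.Agent.N996.FP.Irr

/-!
# The core theorem in general
-/

set_option linter.unusedSectionVars false

namespace Pool.Agent.N996.FP

open Matrix Pool.Agent.N996.BP ComplexConjugate

variable {ι : Type} [Fintype ι] [DecidableEq ι] {H : HData ι}
  {A : Type} [Ring A] [Algebra ℂ A]
  {B : ∀ n : ℕ, Submodule ℚ ((Fin (n + 1) → ι) → ℚ)}

/-- **The core theorem.** -/
theorem coreG (D : AData H A) (htop : ∃ v : Fin (Module.finrank ℂ D.V) → D.V, pL D.L v ≠ 0)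
    {N M : ℕ} (h4 : 4 ≤ N) (hMN : 2 * M ≤ N)
    (hMM : ∀ (z : Matrix ι ι ℂ), D.IsCI z → ∀ (x : Matrix ι ι ℂ) (n : ℕ)
      (B : Bz (hn H) x (cji H z) D.Vn n), IsReg (hn H) x → ∀ s : Multiset (Fin n), B.tot s = 0 →
      (∀ t ≤ s, B.tot t ∈ QL (hn H) x → t = 0 ∨ t = s) → ∀ (i : Fin n) (p : Fin n → Prop)
      [DecidablePred p], (∀ j, p j → B.T j - B.T i ∈ QL (hn H) x) → (s.filter p).card ≤ M)
    (hA : RFam H B) (hN : ∀ n, n + 1 ≤ N → BB H (Fin (n + 1)) ≤ B n) (n : ℕ)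
    (h : (Fin (n + 1) → ι) → ℚ) (hh : h ∈ BB H (Fin (n + 1))) : h ∈ B n := by
  classical
  have h2 : 2 ≤ N := by omega
  have hfam := hA.isFam hN h2
  have h1 : (fun i => (h i : ℝ)) ∈ AR B (Fin (n + 1)) := by
    refine mem_of_fixed (κ := Fin (n + 1)) hfam _ ?_ ?_
    · have h1 := hh Complex.I Complex.I_ne_zero
      rw [← cR_C, kp_cR] at h1
      ext i
      have h2 := congrFun h1 i
      rw [Matrix.mulVec, dotProduct] at h2 ⊢
      have h3 : ((∑ j, kp (Fin (n + 1)) H.D.C i j * (h j : ℝ) : ℝ) : ℂ) = (((h i : ℝ)) : ℂ) := by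
        push_cast
        exact h2
      exact_mod_cast h3
    · intro g hg
      have hfix : ∀ (κ : Type) [Fintype κ] [DecidableEq κ], Fintype.card κ ≤ N →
          Fixes H g κ := fun κ _ _ hκ a ha => by
        have h4 := hg κ _ (AR_of (hA.of_small hN hκ ha))
        simp only [Complex.ofReal_ratCast] at h4
        exact h4
      obtain ⟨q, hq, z, hz, hgq⟩ := D.exists_qz htop (p := g) fun κ _ _ hκ =>
        hfix κ (hκ.trans h4)
      obtain ⟨q', hq', hqq⟩ := So_ex_inv hq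
      have hzg : z = q' * g := by
        rw [hgq, ← Matrix.mul_assoc, mul_eq_one_comm.1 hqq, Matrix.one_mul]
      have hfixz : ∀ (κ : Type) [Fintype κ] [DecidableEq κ], Fintype.card κ ≤ N →
          Fixes H z κ := fun κ _ _ hκ a ha => by
        rw [hzg, kp_mul, ← Matrix.mulVec_mulVec, hfix κ hκ a ha, hq' κ a ha]
      obtain ⟨z', -, hzz⟩ := Fixes.inv (hfixz (Unit ⊕ Unit) (by simp; omega))
      have hzS : z ∈ So H := D.ci_So htop hz (mul_eq_one_comm.1 hzz) (M := M)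
        (hfixz _ (by rw [Fintype.card_sum, Fintype.card_fin]; omega)) (hMM z hz)
      simp only [Complex.ofReal_ratCast]
      change kp (Fin (n + 1)) g *ᵥ ca h = ca h
      rw [hgq, kp_mul, ← Matrix.mulVec_mulVec, hzS _ h hh, hq _ h hh]
  rw [← hA.mem_iff]
  exact BP.descent _ h1

/-- **All structures of abelian type.** -/
theorem core_gen (D : AData H A) (htop : ∃ v : Fin (Module.finrank ℂ D.V) → D.V, pL D.L v ≠ 0)
    (hP : cQ D.pr1 * cQ H.Qir = cQ H.Qir * (cQ D.pr1)ᵀ)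
    (hNN : Ng H (RingEquiv.refl ℂ) * Ng H (RingEquiv.refl ℂ) * cQ D.pr1 = cQ D.pr1) {g : ℕ}
    (hg : Module.finrank ℂ D.V = 2 * g)
    (hA : RFam H B) (hN : ∀ n, n + 1 ≤ max 4 (2 * g ^ (2 * g)) → BB H (Fin (n + 1)) ≤ B n)
    (n : ℕ) (h : (Fin (n + 1) → ι) → ℚ) (hh : h ∈ BB H (Fin (n + 1))) : h ∈ B n :=
  coreG D htop (N := max 4 (2 * g ^ (2 * g))) (M := max 2 (g ^ (2 * g))) (le_max_left _ _)
    (by omega) (fun _ hz _ _ B hx _ hs hirr i p _ hp =>
      D.irr_count htop hz hP hNN hg hx B hs hirr i p hp) hA hN n h hh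

end Pool.Agent.N996.FP
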