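import Pool.Agent.N996.FP.Alg3
import Pool.Agent.N996.BP.PHS2
import Pool.Agent.H914R2.Graded

/-!
# Graded algebras with a rational structure in coordinates
-/

set_option linter.unusedSectionVars false

open TensorProduct

namespace Pool.Agent.N996.FP

open Module Matrix ComplexConjugate Pool.Agent.N996.BP

section Finrank

variable {ι : Type} [Fintype ι] [DecidableEq ι]

/-- The dimension of a coordinate subspace. -/
lemma finrank_supp {F : Type*} [Field F] (P : ι → Prop) [DecidablePred P]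
    (S : Submodule F (ι → F)) (hS : ∀ v, v ∈ S ↔ ∀ i, ¬ P i → v i = 0) :
    finrank F S = Fintype.card {i // P i} := by
  have e : S ≃ₗ[F] ({i // P i} → F) :=
    { toFun := fun v i => (v : ι → F) i
      map_add' := fun _ _ => rfl
      map_smul' := fun _ _ => rfl
      invFun := fun w => ⟨fun i => if h : P i then w ⟨i, h⟩ else 0, (hS _).2 fun i hi => by
        rw [dif_neg hi]⟩
      left_inv := by
        rintro ⟨v, hv⟩
        apply Subtype.ext
        funext i
        by_cases hi : P i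
        · simp only
          rw [dif_pos hi]
        · simp only
          rw [dif_neg hi, (hS v).1 hv i hi]
      right_inv := by
        intro w
        funext i
        simp only
        rw [dif_pos i.2] }
  rw [e.finrank_eq, finrank_fintype_fun_eq_card]

end Finrank

variable {K : Type} [Field K] [CharZero K] [Algebra K ℂ] {B : Type} [Ring B] [Algebra K B]
  {ι : Type} [Fintype ι] [DecidableEq ι] (e : Basis ι K B) {gr : ℕ → Submodule K B}
  {deg : ι → ℕ}

/-- The coordinates as a linear equivalence. -/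
noncomputable def ecr : (ℂ ⊗[K] B) ≃ₗ[ℂ] (ι → ℂ) := (e.baseChange ℂ).equivFun

lemma ecr_apply (x : ℂ ⊗[K] B) : ecr e x = crd e x := by
  rw [ecr, Basis.equivFun_apply]
  rfl

lemma ecr_symm (i : ι) : (ecr e).symm (Pi.single i 1) = (1 : ℂ) ⊗ₜ[K] e i := by
  rw [ecr, Basis.equivFun_symm_apply, Finset.sum_eq_single i]
  · rw [Pi.single_eq_same, one_smul, Basis.baseChange_apply]
  · intro j _ hj
    rw [Pi.single_eq_of_ne hj, zero_smul]
  · intro h; exact absurd (Finset.mem_univ _) h

variable {e}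

lemma repr_gr (hint : DirectSum.IsInternal gr) (hdeg : ∀ j, e j ∈ gr (deg j)) {i : ℕ} {c : B}
    (hc : c ∈ gr i) {j : ι} (hj : deg j ≠ i) : e.repr c j = 0 := by
  have h1 : Pool.Agent.H914.proj hint (deg j) c = 0 :=
    Pool.Agent.H914.proj_ne hint hc (Ne.symm hj)
  have h2 : Pool.Agent.H914.proj hint (deg j) c =
      ∑ m, (if deg m = deg j then e.repr c m else 0) • e m := by
    conv_lhs => rw [← e.sum_repr c, map_sum]
    refine Finset.sum_congr rfl fun m _ => ?_
    rw [map_smul]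
    by_cases hm : deg m = deg j
    · rw [if_pos hm, ← hm, Pool.Agent.H914.proj_same hint (hdeg m)]
    · rw [if_neg hm, Pool.Agent.H914.proj_ne hint (hdeg m) hm, smul_zero, zero_smul]
  have h3 := congrArg (fun x => e.repr x j) (h2.symm.trans h1)
  simp only [map_sum, map_smul, Basis.repr_self, Finsupp.coe_finsetSum, Finset.sum_apply,
    Finsupp.smul_apply, map_zero, Finsupp.coe_zero, Pi.zero_apply, Finsupp.single_apply,
    smul_eq_mul, mul_ite, mul_one, mul_zero] at h3
  rw [Finset.sum_eq_single j] at h3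
  · simpa using h3
  · intro m _ hm; rw [if_neg hm]
  · intro h; exact absurd (Finset.mem_univ _) h

lemma gr_repr (hdeg : ∀ j, e j ∈ gr (deg j)) {i : ℕ} {c : B}
    (h : ∀ j, deg j ≠ i → e.repr c j = 0) : c ∈ gr i := by
  rw [← e.sum_repr c]
  refine Submodule.sum_mem _ fun j _ => ?_
  by_cases hj : deg j = i
  · exact Submodule.smul_mem _ _ (hj ▸ hdeg j)
  · rw [h j hj, zero_smul]
    exact Submodule.zero_mem _

lemma crd_gr (hint : DirectSum.IsInternal gr) (hdeg : ∀ j, e j ∈ gr (deg j)) {i : ℕ}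
    {x : ℂ ⊗[K] B} (hx : x ∈ (gr i).baseChange ℂ) {j : ι} (hj : deg j ≠ i) :
    crd e x j = 0 := by
  rw [Submodule.baseChange_eq_span] at hx
  induction hx using Submodule.span_induction with
  | mem x hx =>
    obtain ⟨c, hc, rfl⟩ := hx
    change crd e ((1 : ℂ) ⊗ₜ[K] c) j = 0
    rw [crd_tmul, repr_gr hint hdeg hc hj, map_zero, mul_zero]
  | zero => rw [crd_zero]; rfl
  | add x y _ _ hx hy => rw [crd_add, Pi.add_apply, hx, hy, add_zero]
  | smul c x _ hx =>
    rw [← ecr_apply, map_smul, Pi.smul_apply, ecr_apply, hx, smul_zero]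

lemma gr_crd (hdeg : ∀ j, e j ∈ gr (deg j)) {i : ℕ}
    {x : ℂ ⊗[K] B} (h : ∀ j, deg j ≠ i → crd e x j = 0) : x ∈ (gr i).baseChange ℂ := by
  rw [crd_sum e x]
  refine Submodule.sum_mem _ fun j _ => ?_
  by_cases hj : deg j = i
  · exact Submodule.smul_mem _ _ (Submodule.tmul_mem_baseChange_of_mem _ (hj ▸ hdeg j))
  · rw [h j hj, zero_smul]
    exact Submodule.zero_mem _

lemma finrank_gr (hint : DirectSum.IsInternal gr) (hdeg : ∀ j, e j ∈ gr (deg j)) (i : ℕ) :
    finrank K (gr i) = Fintype.card {j // deg j = i} := by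
  have h1 : finrank K ((gr i).map e.equivFun.toLinearMap) = finrank K (gr i) :=
    LinearEquiv.finrank_map_eq e.equivFun (gr i)
  rw [← h1]
  refine finrank_supp (fun j => deg j = i) _ fun v => ?_
  constructor
  · rintro ⟨c, hc, rfl⟩ j hj
    change e.equivFun c j = 0
    rw [Basis.equivFun_apply]
    exact repr_gr hint hdeg hc hj
  · intro h
    refine ⟨e.equivFun.symm v, gr_repr hdeg fun j hj => ?_, e.equivFun.apply_symm_apply v⟩
    rw [← Basis.equivFun_apply, LinearEquiv.apply_symm_apply]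
    exact h j hj

/-- Extension of a system of generators. -/
lemma adjoin_base {S : Set (ℂ ⊗[K] B)} (hgen : Algebra.adjoin K (gr 1 : Set B) = ⊤)
    (hS : ∀ c ∈ gr 1, (1 : ℂ) ⊗ₜ[K] c ∈ S) : Algebra.adjoin ℂ S = ⊤ := by
  have h1 : ∀ c : B, (1 : ℂ) ⊗ₜ[K] c ∈ Algebra.adjoin ℂ S := by
    intro c
    have hc : c ∈ Algebra.adjoin K (gr 1 : Set B) := by rw [hgen]; trivial
    induction hc using Algebra.adjoin_induction with
    | mem x hx => exact Algebra.subset_adjoin (hS x hx)
    | algebraMap r =>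
      rw [Algebra.algebraMap_eq_smul_one, TensorProduct.tmul_smul, ← Algebra.TensorProduct.one_def,
        ← algebraMap_smul ℂ r]
      exact Subalgebra.smul_mem _ (Subalgebra.one_mem _) _
    | add x y _ _ hx hy => rw [TensorProduct.tmul_add]; exact Subalgebra.add_mem _ hx hy
    | mul x y _ _ hx hy =>
      have h2 : (1 : ℂ) ⊗ₜ[K] (x * y) = ((1 : ℂ) ⊗ₜ[K] x) * ((1 : ℂ) ⊗ₜ[K] y) := by
        rw [Algebra.TensorProduct.tmul_mul_tmul, one_mul]
      rw [h2]
      exact Subalgebra.mul_mem _ hx hy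
  rw [eq_top_iff]
  intro x _
  induction x using TensorProduct.induction_on with
  | zero => exact Subalgebra.zero_mem _
  | add x y hx hy => exact Subalgebra.add_mem _ (hx trivial) (hy trivial)
  | tmul z c =>
    have h2 : z ⊗ₜ[K] c = z • ((1 : ℂ) ⊗ₜ[K] c) := by
      rw [TensorProduct.smul_tmul', smul_eq_mul, mul_one]
    rw [h2]
    exact Subalgebra.smul_mem _ (h1 c) z

/-- The data of a graded algebra with a Hodge structure. -/
structure GData (K : Type) [Field K] [CharZero K] [Algebra K ℂ] (B : Type) [Ring B] [Algebra K B]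
    {ι : Type} [Fintype ι] [DecidableEq ι] (H : HData ι) where
  rat : ∀ r : K, ∃ q : ℚ, (q : K) = r
  /-- the grading -/
  gr : ℕ → Submodule K B
  int : DirectSum.IsInternal gr
  /-- the basis -/
  e : Basis ι K B
  /-- the degrees -/
  deg : ι → ℕ
  hdeg : ∀ j, e j ∈ gr (deg j)
  one : e H.D.o = 1
  /-- the operators -/
  L : ℂ → Module.End ℂ (ℂ ⊗[K] B)
  hL : ∀ t : ℂ, t ≠ 0 → ∀ x, crd e (L t x) = H.l t *ᵥ crd e x
  L_mul : ∀ t : ℂ, t ≠ 0 → ∀ x y, L t (x * y) = L t x * L t y
  L_gr : ∀ t : ℂ, t ≠ 0 → ∀ i, ∀ c ∈ gr i, L t ((1 : ℂ) ⊗ₜ[K] c) ∈ (gr i).baseChange ℂ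
  gen : Algebra.adjoin K (gr 1 : Set B) = ⊤
  anti : ∀ x ∈ gr 1, ∀ y ∈ gr 1, x * y = - (y * x)

namespace GData

variable {H : HData ι} (G : GData K B H)

/-- The rational number. -/
noncomputable def rq (r : K) : ℚ := (G.rat r).choose

lemma rq_spec (r : K) : ((G.rq r : ℚ) : K) = r := (G.rat r).choose_spec

lemma aop_l {t : ℂ} (ht : t ≠ 0) (x : ℂ ⊗[K] B) : aop (ecr G.e) (H.l t) x = G.L t x := by
  apply (ecr G.e).injective
  rw [ep_aop, ecr_apply, ecr_apply, G.hL t ht]

/-- The coordinates of the data. -/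
noncomputable def toAData : AData H (ℂ ⊗[K] B) where
  ε := ecr G.e
  c := fun k i j => G.rq (G.e.repr (G.e i * G.e j) k)
  deg := G.deg
  hc i j k := by
    rw [ecr_symm, ecr_symm, Algebra.TensorProduct.tmul_mul_tmul, one_mul, ecr_apply, crd_tmul,
      one_mul]
    conv_lhs => rw [← G.rq_spec (G.e.repr (G.e i * G.e j) k)]
    rw [map_ratCast]
  lm t ht x y := by
    rw [G.aop_l ht, G.aop_l ht, G.aop_l ht, G.L_mul t ht]
  one := by
    rw [ecr_apply, Algebra.TensorProduct.one_def, ← G.one, ← ecr_symm, ← ecr_apply,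
      LinearEquiv.apply_symm_apply]
  ldeg t ht i j hij := by
    have h1 := G.hL t ht ((1 : ℂ) ⊗ₜ[K] G.e j)
    have h2 := congrFun h1 i
    rw [crd_gr G.int G.hdeg (G.L_gr t ht _ _ (G.hdeg j)) hij, ← ecr_symm, ← ecr_apply,
      LinearEquiv.apply_symm_apply, Matrix.mulVec_single_one, Matrix.col_apply] at h2
    exact h2.symm
  sq x hx := by
    have h1 : x ∈ (G.gr 1).baseChange ℂ := gr_crd G.hdeg fun j hj => by
      rw [← ecr_apply]; exact hx j hj
    have h2 : ∀ x ∈ (G.gr 1).baseChange ℂ, ∀ y ∈ (G.gr 1).baseChange ℂ, x * y = - (y * x) := by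
      intro x hx y hy
      rw [Submodule.baseChange_eq_span] at hx hy
      induction hx using Submodule.span_induction with
      | mem x hx =>
        induction hy using Submodule.span_induction with
        | mem y hy =>
          obtain ⟨a, ha, rfl⟩ := hx
          obtain ⟨b, hb, rfl⟩ := hy
          change (1 : ℂ) ⊗ₜ[K] a * (1 : ℂ) ⊗ₜ[K] b = -((1 : ℂ) ⊗ₜ[K] b * (1 : ℂ) ⊗ₜ[K] a)
          rw [Algebra.TensorProduct.tmul_mul_tmul, Algebra.TensorProduct.tmul_mul_tmul,
            G.anti a ha b hb, TensorProduct.tmul_neg]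
        | zero => rw [mul_zero, zero_mul, neg_zero]
        | add a b _ _ ha hb => rw [mul_add, add_mul, ha, hb, neg_add]
        | smul c a _ ha => rw [mul_smul_comm, smul_mul_assoc, ha, smul_neg]
      | zero => rw [mul_zero, zero_mul, neg_zero]
      | add a b _ _ ha hb => rw [mul_add, add_mul, ha, hb, neg_add]
      | smul c a _ ha => rw [mul_smul_comm, smul_mul_assoc, ha, smul_neg]
    have h3 := h2 x h1 x h1
    have h4 : (2 : ℂ) • (x * x) = 0 := by
      rw [two_smul]
      nth_rewrite 1 [h3]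
      rw [neg_add_cancel]
    exact (smul_eq_zero.1 h4).resolve_left two_ne_zero
  gen := adjoin_base G.gen fun c hc i hi => by
    rw [ecr_apply, crd_tmul, repr_gr G.int G.hdeg hc hi, map_zero, mul_zero]

lemma finrank_V : finrank ℂ G.toAData.V = finrank K (G.gr 1) := by
  rw [finrank_gr G.int G.hdeg 1]
  exact finrank_supp (fun j => G.deg j = 1) _ fun v => Iff.rfl

/-- A non-vanishing product of elements of degree one. -/
lemma exists_top (v : Fin (finrank K (G.gr 1)) → B) (hv : ∀ i, v i ∈ G.gr 1)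
    (h : (List.ofFn v).prod ≠ 0) :
    ∃ v : Fin (finrank ℂ G.toAData.V) → G.toAData.V, pL G.toAData.L v ≠ 0 := by
  have key : ∀ (n : ℕ) (v : Fin n → B), (∀ i, v i ∈ G.gr 1) → (List.ofFn v).prod ≠ 0 →
      ∃ v : Fin n → G.toAData.V, pL G.toAData.L v ≠ 0 := by
    intro n v hv h
    refine ⟨fun i => ⟨crd G.e ((1 : ℂ) ⊗ₜ[K] v i), fun j hj => ?_⟩, ?_⟩
    · rw [crd_tmul, repr_gr G.int G.hdeg (hv i) hj, map_zero, mul_zero]
    · have h1 : pL G.toAData.L (fun i => (⟨crd G.e ((1 : ℂ) ⊗ₜ[K] v i), fun j hj => by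
          rw [crd_tmul, repr_gr G.int G.hdeg (hv i) hj, map_zero, mul_zero]⟩ : G.toAData.V)) =
          (1 : ℂ) ⊗ₜ[K] (List.ofFn v).prod := by
        have h2 : (1 : ℂ) ⊗ₜ[K] (List.ofFn v).prod =
            (Algebra.TensorProduct.includeRight : B →ₐ[K] ℂ ⊗[K] B) (List.ofFn v).prod := rfl
        rw [h2, map_list_prod, List.map_ofFn, pL]
        congr 2
        funext i
        rw [AData.L_apply]
        change (ecr G.e).symm (crd G.e ((1 : ℂ) ⊗ₜ[K] v i)) = (1 : ℂ) ⊗ₜ[K] v i
        rw [← ecr_apply, LinearEquiv.symm_apply_apply]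
      rw [h1]
      intro h0
      apply h
      have h3 := Algebra.TensorProduct.includeRight_injective (R := K) (A := ℂ) (B := B)
        (algebraMap K ℂ).injective
      exact h3 (h0.trans (map_zero _).symm)
  rw [G.finrank_V]
  exact key _ v hv h

end GData

end Pool.Agent.N996.FP
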