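import Pool.Agent.N996.FP.Chd
import Pool.Agent.N996.FP.Cor3
import Pool.Agent.N996.FP.GAlg

/-!
# The exterior algebra in coordinates
-/

set_option linter.unusedSectionVars false

namespace Pool.Agent.N996.FP

open Matrix Module Pool.Agent.N996.BP ComplexConjugate

variable {ι : Type} [Fintype ι] [LinearOrder ι]

/-- The basis of the exterior algebra. -/
noncomputable def bE (ι : Type) [Fintype ι] [LinearOrder ι] :
    Basis (Finset ι) ℂ (ExteriorAlgebra ℂ (ι → ℂ)) := (Pi.basisFun ℂ ι).ExteriorAlgebra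

/-- The coordinates of exterior products. -/
lemma repr_wedge {n : ℕ} (v : Fin n → ι → ℂ) (S : Finset ι) :
    (bE ι).repr (ExteriorAlgebra.ιMulti ℂ n v) S = if h : S.card = n then
      Matrix.det (Matrix.of fun i j => v i (S.orderEmbOfFin h j)) else 0 := by
  classical
  obtain ⟨x, hx⟩ : ∃ x, x = exteriorPower.ιMulti ℂ n v := ⟨_, rfl⟩
  have h1 : ExteriorAlgebra.ιMulti ℂ n v = (x : ExteriorAlgebra ℂ (ι → ℂ)) := by
    rw [hx]; rfl
  have h2 : (x : ExteriorAlgebra ℂ (ι → ℂ)) = ∑ s : Set.powersetCard ι n,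
      ((Pi.basisFun ℂ ι).exteriorPower n).repr x s • bE ι s.val := by
    conv_lhs => rw [← ((Pi.basisFun ℂ ι).exteriorPower n).sum_repr x]
    rw [Submodule.coe_sum]
    refine Finset.sum_congr rfl fun s _ => ?_
    rw [Submodule.coe_smul, bE, ExteriorAlgebra.basis_eq_coe_basis]
  rw [h1, h2, map_sum, Finsupp.finsetSum_apply]
  simp only [map_smul, Basis.repr_self, Finsupp.smul_apply, smul_eq_mul, Finsupp.single_apply]
  by_cases h : S.card = n
  · rw [dif_pos h, Finset.sum_eq_single (⟨S, h⟩ : Set.powersetCard ι n)]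
    · rw [if_pos rfl, mul_one, exteriorPower.basis_repr_apply, hx,
        exteriorPower.ιMultiDual_apply_ιMulti]
      congr 1
    · intro s _ hs
      rw [if_neg, mul_zero]
      intro h3
      exact hs (Subtype.ext h3)
    · intro h3; exact absurd (Finset.mem_univ _) h3
  · rw [dif_neg h]
    refine Finset.sum_eq_zero fun s _ => ?_
    rw [if_neg, mul_zero]
    intro h3
    exact h (h3 ▸ s.2)

lemma bE_apply (T : Finset ι) : bE ι T =
    ExteriorAlgebra.ιMulti ℂ T.card fun i => Pi.single (T.orderEmbOfFin rfl i) (1 : ℂ) := by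
  rw [bE, ExteriorAlgebra.basis_apply_ofCard (Pi.basisFun ℂ ι) (rfl : T.card = T.card)]
  rw [ExteriorAlgebra.ιMulti_family]
  congr 1
  funext i
  rw [Function.comp_apply, Pi.basisFun_apply, Set.powersetCard.ofFinEmbEquiv_symm_apply]
  rfl

/-- The coordinates. -/
noncomputable def eE (ι : Type) [Fintype ι] [LinearOrder ι] :
    ExteriorAlgebra ℂ (ι → ℂ) ≃ₗ[ℂ] (Finset ι → ℂ) := (bE ι).equivFun

lemma eE_apply (x : ExteriorAlgebra ℂ (ι → ℂ)) (S : Finset ι) :
    eE ι x S = (bE ι).repr x S := rfl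

lemma eE_bE (T : Finset ι) : eE ι (bE ι T) = Pi.single T 1 := by
  funext S
  rw [eE_apply, Basis.repr_self, Finsupp.single_apply, Pi.single_apply]
  exact if_congr eq_comm rfl rfl

lemma eE_symm (T : Finset ι) : (eE ι).symm (Pi.single T 1) = bE ι T := by
  rw [← eE_bE, LinearEquiv.symm_apply_apply]

/-- The functoriality in coordinates. -/
lemma eE_map (M : Matrix ι ι ℂ) (x : ExteriorAlgebra ℂ (ι → ℂ)) :
    eE ι (ExteriorAlgebra.map (Matrix.toLin' M) x) = cm M *ᵥ eE ι x := by
  have h1 : (eE ι).toLinearMap ∘ₗ (ExteriorAlgebra.map (Matrix.toLin' M)).toLinearMap =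
      Matrix.mulVecLin (cm M) ∘ₗ (eE ι).toLinearMap := by
    refine (bE ι).ext fun T => ?_
    change eE ι (ExteriorAlgebra.map (Matrix.toLin' M) (bE ι T)) = cm M *ᵥ eE ι (bE ι T)
    rw [eE_bE, Matrix.mulVec_single_one, bE_apply, ExteriorAlgebra.map_apply_ιMulti]
    funext S
    rw [eE_apply, repr_wedge, Matrix.col_apply]
    by_cases h : S.card = T.card
    · rw [dif_pos h, cm_apply h rfl, ← Matrix.det_transpose]
      congr 1
      ext i j
      rw [Matrix.transpose_apply, Matrix.of_apply, Function.comp_apply, Matrix.toLin'_apply,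
        Matrix.mulVec_single_one]
      rfl
    · rw [dif_neg h, cm_ne h]
  exact LinearMap.congr_fun h1 x

lemma aop_cm (M : Matrix ι ι ℂ) (x : ExteriorAlgebra ℂ (ι → ℂ)) :
    aop (eE ι) (cm M) x = ExteriorAlgebra.map (Matrix.toLin' M) x := by
  apply (eE ι).injective
  rw [ep_aop, eE_map]

lemma eE_one : eE ι 1 = Pi.single ∅ 1 := by
  have h1 : (1 : ExteriorAlgebra ℂ (ι → ℂ)) =
      ExteriorAlgebra.ιMulti ℂ 0 (fun i : Fin 0 => (i.elim0 : ι → ℂ)) := by
    rw [ExteriorAlgebra.ιMulti_zero_apply]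
  funext S
  rw [eE_apply, h1, repr_wedge, Pi.single_apply]
  by_cases h : S = ∅
  · rw [if_pos h, dif_pos (by rw [h, Finset.card_empty]), Matrix.det_isEmpty]
  · rw [if_neg h, dif_neg fun h2 => h (Finset.card_eq_zero.1 h2)]

lemma eE_ι (v : ι → ℂ) (S : Finset ι) : eE ι (ExteriorAlgebra.ι ℂ v) S =
    if h : S.card = 1 then v (S.orderEmbOfFin h 0) else 0 := by
  have h1 : ExteriorAlgebra.ι ℂ v = ExteriorAlgebra.ιMulti ℂ 1 (fun _ : Fin 1 => v) := by
    rw [ExteriorAlgebra.ιMulti_apply]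
    simp
  rw [eE_apply, h1, repr_wedge]
  by_cases h : S.card = 1
  · rw [dif_pos h, dif_pos h, Matrix.det_fin_one]
    rfl
  · rw [dif_neg h, dif_neg h]

lemma eE_ι_single (v : ι → ℂ) (i : ι) : eE ι (ExteriorAlgebra.ι ℂ v) {i} = v i := by
  rw [eE_ι, dif_pos (Finset.card_singleton i), Finset.orderEmbOfFin_singleton]

/-- Elements of degree one. -/
lemma exists_ι {x : ExteriorAlgebra ℂ (ι → ℂ)} (hx : ∀ S : Finset ι, S.card ≠ 1 → eE ι x S = 0) :
    x = ExteriorAlgebra.ι ℂ fun i => eE ι x {i} := by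
  apply (eE ι).injective
  funext S
  by_cases h : S.card = 1
  · obtain ⟨i, rfl⟩ := Finset.card_eq_one.1 h
    rw [eE_ι_single]
  · rw [hx S h, eE_ι, dif_neg h]

lemma exists_c (i j k : Finset ι) : ∃ q : ℚ, eE ι (bE ι i * bE ι j) k = q := by
  by_cases h : Disjoint i j
  · obtain ⟨u, k', h1⟩ : ∃ (u : ℤˣ) (k' : Finset ι), bE ι i * bE ι j = u • bE ι k' :=
      ⟨_, _, ExteriorAlgebra.basis_mul_of_disjoint (Pi.basisFun ℂ ι)
        (⟨i, rfl⟩ : Set.powersetCard ι i.card) (⟨j, rfl⟩ : Set.powersetCard ι j.card) h⟩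
    rw [h1]
    rcases Int.units_eq_one_or u with h2 | h2
    · refine ⟨if k' = k then 1 else 0, ?_⟩
      rw [h2, one_smul, eE_apply, Basis.repr_self, Finsupp.single_apply]
      split_ifs <;> simp
    · refine ⟨if k' = k then -1 else 0, ?_⟩
      rw [h2, Units.neg_smul, one_smul, map_neg, Pi.neg_apply, eE_apply, Basis.repr_self,
        Finsupp.single_apply]
      split_ifs <;> simp
  · have h1 := ExteriorAlgebra.basis_mul_of_not_disjoint (Pi.basisFun ℂ ι)
      (⟨i, rfl⟩ : Set.powersetCard ι i.card) (⟨j, rfl⟩ : Set.powersetCard ι j.card) h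
    change bE ι i * bE ι j = 0 at h1
    refine ⟨0, ?_⟩
    rw [h1, map_zero, Rat.cast_zero]
    rfl

variable (H : HData ι)

/-- The exterior algebra. -/
noncomputable def eA : AData (eH H) (ExteriorAlgebra ℂ (ι → ℂ)) where
  ε := eE ι
  c k i j := (exists_c i j k).choose
  deg := Finset.card
  hc i j k := by
    rw [eE_symm, eE_symm]
    exact (exists_c i j k).choose_spec
  lm t ht x y := by
    rw [eH_l H ht, aop_cm, aop_cm, aop_cm, map_mul]
  one := eE_one
  ldeg t ht i j hij := by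
    rw [eH_l H ht, cm_ne hij]
  sq x hx := by
    rw [exists_ι hx]
    exact ExteriorAlgebra.ι_sq_zero _
  gen := by
    rw [eq_top_iff]
    intro x _
    refine ExteriorAlgebra.induction (C := fun x =>
      x ∈ Algebra.adjoin ℂ {x | ∀ i : Finset ι, i.card ≠ 1 → eE ι x i = 0}) ?_ ?_ ?_ ?_ x
    · intro r; exact Subalgebra.algebraMap_mem _ r
    · intro v
      refine Algebra.subset_adjoin fun S hS => ?_
      rw [eE_ι, dif_neg hS]
    · intro a b ha hb; exact Subalgebra.mul_mem _ ha hb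
    · intro a b ha hb; exact Subalgebra.add_mem _ ha hb

lemma eA_deg (S : Finset ι) : (eA H).deg S = S.card := rfl

lemma finrank_eV : finrank ℂ (eA H).V = Fintype.card ι := by
  rw [finrank_supp (fun S : Finset ι => S.card = 1) _ fun v => Iff.rfl]
  refine Fintype.card_congr ⟨fun S => S.1.orderEmbOfFin S.2 0,
    fun i => ⟨{i}, Finset.card_singleton i⟩, ?_, ?_⟩
  · rintro ⟨S, hS⟩
    obtain ⟨i, rfl⟩ := Finset.card_eq_one.1 hS
    apply Subtype.ext
    simp only
    rw [Finset.orderEmbOfFin_singleton]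
  · intro i
    simp only
    rw [Finset.orderEmbOfFin_singleton]

lemma eA_top : ∃ v : Fin (finrank ℂ (eA H).V) → (eA H).V, pL (eA H).L v ≠ 0 := by
  have key : ∀ n, n = (Finset.univ : Finset ι).card →
      ∃ v : Fin n → (eA H).V, pL (eA H).L v ≠ 0 := by
    rintro n rfl
    refine ⟨fun i => ⟨eE ι (ExteriorAlgebra.ι ℂ
      (Pi.single ((Finset.univ : Finset ι).orderEmbOfFin rfl i) (1 : ℂ))), fun S hS => ?_⟩, ?_⟩
    · rw [eE_ι, dif_neg (show ¬ S.card = 1 from hS)]
    · have h1 : pL (eA H).L (fun i => (⟨eE ι (ExteriorAlgebra.ι ℂ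
          (Pi.single ((Finset.univ : Finset ι).orderEmbOfFin rfl i) (1 : ℂ))), fun S hS => by
            rw [eE_ι, dif_neg (show ¬ S.card = 1 from hS)]⟩ : (eA H).V)) =
              bE ι Finset.univ := by
        rw [bE_apply, ExteriorAlgebra.ιMulti_apply, pL]
        congr 2
        funext i
        rw [AData.L_apply]
        exact (eE ι).symm_apply_apply _
      rw [h1]
      exact (bE ι).ne_zero _
  exact key _ (by rw [finrank_eV, Finset.card_univ])

end Pool.Agent.N996.FP
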