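import Pool.Agent.N996.FP.Ctg
import Pool.Agent.N996.FP.Irw

/-!
# The core theorems for arbitrary Hodge structures
-/

set_option linter.unusedSectionVars false

namespace Pool.Agent.N996.FP

open Matrix Module Pool.Agent.N996.BP ComplexConjugate

/-- Central Hodge endomorphisms. -/
def IsC {ι : Type} [Fintype ι] [DecidableEq ι] (H : HData ι) (y : Matrix ι ι ℚ) : Prop :=
  IsHE H y ∧ ∀ y', IsHE H y' → y * y' = y' * y

variable {ι : Type} [Fintype ι] [LinearOrder ι] {R : Type*} [CommRing R]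

lemma j1t_j1 : (j1 ι R)ᵀ * j1 ι R = 1 := by
  ext i j
  rw [Matrix.mul_apply, Finset.sum_eq_single {i}]
  · rw [Matrix.transpose_apply, j1, Matrix.of_apply, Matrix.of_apply, if_pos rfl, one_mul,
      Matrix.one_apply]
    exact if_congr Finset.singleton_inj rfl rfl
  · intro S _ hS
    rw [Matrix.transpose_apply, j1, Matrix.of_apply, if_neg hS, zero_mul]
  · intro h; exact absurd (Finset.mem_univ _) h

lemma j1_j1t : j1 ι R * (j1 ι R)ᵀ =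
    Matrix.diagonal fun S : Finset ι => if S.card = 1 then (1 : R) else 0 := by
  ext S T
  rw [Matrix.mul_apply, Matrix.diagonal_apply]
  by_cases h : S.card = 1
  · obtain ⟨s, rfl⟩ := Finset.card_eq_one.1 h
    rw [Finset.sum_eq_single s]
    · rw [Matrix.transpose_apply, j1, Matrix.of_apply, Matrix.of_apply, if_pos rfl, one_mul,
        if_pos h]
      exact if_congr eq_comm rfl rfl
    · intro s' _ hs
      rw [j1, Matrix.of_apply, if_neg, zero_mul]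
      intro h2
      exact hs (Finset.singleton_inj.1 h2).symm
    · intro h; exact absurd (Finset.mem_univ _) h
  · rw [if_neg h, ite_self, Finset.sum_eq_zero]
    intro s _
    rw [j1, Matrix.of_apply, if_neg, zero_mul]
    rintro rfl
    exact h (Finset.card_singleton s)

lemma j1t_cm (M : Matrix ι ι R) : (j1 ι R)ᵀ * cm M = M * (j1 ι R)ᵀ := by
  have h1 := congrArg Matrix.transpose (cm_j1 Mᵀ)
  rwa [Matrix.transpose_mul, Matrix.transpose_mul, cm_transpose, Matrix.transpose_transpose,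
    Matrix.transpose_transpose] at h1

lemma cQ_j1 : cQ (j1 ι ℚ) = j1 ι ℂ := by
  ext S i
  rw [cQ, Matrix.map_apply, j1, j1, Matrix.of_apply, Matrix.of_apply]
  split_ifs <;> simp

lemma cQ_transpose {m n : Type*} (M : Matrix m n ℚ) : cQ Mᵀ = (cQ M)ᵀ := rfl

variable {H : HData ι}

lemma pr1_eq : (eA H).pr1 = j1 ι ℚ * (j1 ι ℚ)ᵀ := by
  rw [j1_j1t]
  rfl

lemma isHE1_j {y : Matrix ι ι ℚ} (hy : IsHE H y) : (eA H).IsHE1 (j1 ι ℚ * y * (j1 ι ℚ)ᵀ) := by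
  refine ⟨fun t ht => ?_, ?_, ?_⟩
  · rw [eH_l H ht, cQ_mul, cQ_mul, cQ_transpose, cQ_j1]
    calc cm (H.l t) * (j1 ι ℂ * cQ y * (j1 ι ℂ)ᵀ) =
        (cm (H.l t) * j1 ι ℂ) * cQ y * (j1 ι ℂ)ᵀ := by simp only [Matrix.mul_assoc]
      _ = j1 ι ℂ * (H.l t * cQ y) * (j1 ι ℂ)ᵀ := by rw [cm_j1]; simp only [Matrix.mul_assoc]
      _ = j1 ι ℂ * cQ y * (H.l t * (j1 ι ℂ)ᵀ) := by rw [hy t ht]; simp only [Matrix.mul_assoc]
      _ = _ := by rw [← j1t_cm]; simp only [Matrix.mul_assoc]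
  · rw [pr1_eq]
    calc j1 ι ℚ * (j1 ι ℚ)ᵀ * (j1 ι ℚ * y * (j1 ι ℚ)ᵀ) =
        j1 ι ℚ * ((j1 ι ℚ)ᵀ * j1 ι ℚ) * y * (j1 ι ℚ)ᵀ := by simp only [Matrix.mul_assoc]
      _ = _ := by rw [j1t_j1, Matrix.mul_one]
  · rw [pr1_eq]
    calc j1 ι ℚ * y * (j1 ι ℚ)ᵀ * (j1 ι ℚ * (j1 ι ℚ)ᵀ) =
        j1 ι ℚ * y * ((j1 ι ℚ)ᵀ * j1 ι ℚ) * (j1 ι ℚ)ᵀ := by simp only [Matrix.mul_assoc]
      _ = _ := by rw [j1t_j1, Matrix.mul_one]

/-- The centre of the algebra of endomorphisms. -/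
lemma exists_isC {x : Matrix (Finset ι) (Finset ι) ℚ} (hx : (eA H).IsCE x) :
    ∃ y, IsC H y ∧ x = j1 ι ℚ * y * (j1 ι ℚ)ᵀ := by
  obtain ⟨⟨hx1, hx2, hx3⟩, hx4⟩ := hx
  rw [pr1_eq] at hx2 hx3
  have hx5 : x = j1 ι ℚ * ((j1 ι ℚ)ᵀ * x * j1 ι ℚ) * (j1 ι ℚ)ᵀ := by
    calc x = j1 ι ℚ * (j1 ι ℚ)ᵀ * x * (j1 ι ℚ * (j1 ι ℚ)ᵀ) := by rw [hx2, hx3]
      _ = _ := by simp only [Matrix.mul_assoc]
  refine ⟨(j1 ι ℚ)ᵀ * x * j1 ι ℚ, ⟨fun t ht => ?_, fun y' hy' => ?_⟩, hx5⟩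
  · rw [cQ_mul, cQ_mul, cQ_transpose, cQ_j1]
    have h1 := hx1 t ht
    rw [eH_l H ht] at h1
    calc H.l t * ((j1 ι ℂ)ᵀ * cQ x * j1 ι ℂ) = (H.l t * (j1 ι ℂ)ᵀ) * cQ x * j1 ι ℂ := by
          simp only [Matrix.mul_assoc]
      _ = (j1 ι ℂ)ᵀ * (cm (H.l t) * cQ x) * j1 ι ℂ := by
          rw [← j1t_cm]; simp only [Matrix.mul_assoc]
      _ = (j1 ι ℂ)ᵀ * cQ x * (cm (H.l t) * j1 ι ℂ) := by rw [h1]; simp only [Matrix.mul_assoc]
      _ = _ := by rw [cm_j1]; simp only [Matrix.mul_assoc]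
  · have h1 := hx4 _ (isHE1_j hy')
    have h2 := congrArg (fun M => (j1 ι ℚ)ᵀ * M * j1 ι ℚ) h1
    beta_reduce at h2
    calc (j1 ι ℚ)ᵀ * x * j1 ι ℚ * y' =
        (j1 ι ℚ)ᵀ * x * j1 ι ℚ * y' * ((j1 ι ℚ)ᵀ * j1 ι ℚ) := by rw [j1t_j1, Matrix.mul_one]
      _ = (j1 ι ℚ)ᵀ * (x * (j1 ι ℚ * y' * (j1 ι ℚ)ᵀ)) * j1 ι ℚ := by
          simp only [Matrix.mul_assoc]
      _ = (j1 ι ℚ)ᵀ * (j1 ι ℚ * y' * (j1 ι ℚ)ᵀ * x) * j1 ι ℚ := h2
      _ = ((j1 ι ℚ)ᵀ * j1 ι ℚ) * y' * ((j1 ι ℚ)ᵀ * x * j1 ι ℚ) := by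
          simp only [Matrix.mul_assoc]
      _ = _ := by rw [j1t_j1, Matrix.one_mul]

lemma adj_j {y : Matrix ι ι ℚ} (hy : cQ y * cQ H.Qir = cQ H.Qir * (cQ y)ᵀ) :
    cQ (j1 ι ℚ * y * (j1 ι ℚ)ᵀ) * cQ (eH H).Qir =
      cQ (eH H).Qir * (cQ (j1 ι ℚ * y * (j1 ι ℚ)ᵀ))ᵀ := by
  rw [eH_Qir, cQ_cm, cQ_mul, cQ_mul, cQ_transpose, cQ_j1, Matrix.transpose_mul,
    Matrix.transpose_mul, Matrix.transpose_transpose]
  calc j1 ι ℂ * cQ y * (j1 ι ℂ)ᵀ * cm (cQ H.Qir) =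
      j1 ι ℂ * cQ y * ((j1 ι ℂ)ᵀ * cm (cQ H.Qir)) := by simp only [Matrix.mul_assoc]
    _ = j1 ι ℂ * (cQ y * cQ H.Qir) * (j1 ι ℂ)ᵀ := by rw [j1t_cm]; simp only [Matrix.mul_assoc]
    _ = (j1 ι ℂ * cQ H.Qir) * (cQ y)ᵀ * (j1 ι ℂ)ᵀ := by rw [hy]; simp only [Matrix.mul_assoc]
    _ = _ := by rw [← cm_j1]; simp only [Matrix.mul_assoc]

lemma adj_pr1 : cQ (eA H).pr1 * cQ (eH H).Qir = cQ (eH H).Qir * (cQ (eA H).pr1)ᵀ := by
  have h1 := adj_j (H := H) (y := 1) (by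
    rw [cQ_one, Matrix.one_mul, Matrix.transpose_one, Matrix.mul_one])
  rw [Matrix.mul_one] at h1
  rwa [pr1_eq]

/-- The generators of the Lie algebra. -/
lemma Ng_j1 : Ng (eH H) (RingEquiv.refl ℂ) * j1 ι ℂ = j1 ι ℂ * Ng H (RingEquiv.refl ℂ) := by
  obtain ⟨W, hW⟩ : ∃ W, W = max (eH H).w H.w := ⟨_, rfl⟩
  have hs1 : Finset.Icc (-((eH H).w : ℤ)) (eH H).w ⊆ ic W := by
    intro k hk
    rw [Finset.mem_Icc] at hk
    rw [mem_ic]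
    omega
  have hs2 : Finset.Icc (-(H.w : ℤ)) H.w ⊆ ic W := by
    intro k hk
    rw [Finset.mem_Icc] at hk
    rw [mem_ic]
    omega
  let a : ℤ → Matrix (Finset ι) ι ℂ := fun k =>
    if k ∈ Finset.Icc (-((eH H).w : ℤ)) (eH H).w then (eH H).π k * j1 ι ℂ else 0
  let b : ℤ → Matrix (Finset ι) ι ℂ := fun k =>
    if k ∈ Finset.Icc (-(H.w : ℤ)) H.w then j1 ι ℂ * H.π k else 0
  have hsum : ∀ f : ℤ → ℂ, (∑ k ∈ Finset.Icc (-((eH H).w : ℤ)) (eH H).w,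
      f k • (eH H).π k) * j1 ι ℂ = ∑ k ∈ ic W, f k • a k := by
    intro f
    rw [Matrix.sum_mul, ← Finset.sum_subset hs1]
    · refine Finset.sum_congr rfl fun k hk => ?_
      rw [Matrix.smul_mul]
      simp only [a]
      rw [if_pos hk]
    · intro k _ hk
      simp only [a]
      rw [if_neg hk, smul_zero]
  have hsum2 : ∀ f : ℤ → ℂ, j1 ι ℂ * (∑ k ∈ Finset.Icc (-(H.w : ℤ)) H.w,
      f k • H.π k) = ∑ k ∈ ic W, f k • b k := by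
    intro f
    rw [Matrix.mul_sum, ← Finset.sum_subset hs2]
    · refine Finset.sum_congr rfl fun k hk => ?_
      rw [Matrix.mul_smul]
      simp only [b]
      rw [if_pos hk]
    · intro k _ hk
      simp only [b]
      rw [if_neg hk, smul_zero]
  have hab : ∀ k ∈ ic W, a k = b k := by
    intro k hk
    refine lau_uniqueM (s := ic W) (a := a) (b := b) (fun t ht => ?_) hk
    rw [← hsum fun k => t ^ k, ← hsum2 fun k => t ^ k, ← H.l_apply, ← (eH H).l_apply,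
      eH_l H ht, cm_j1]
  have h1 : Ng (eH H) (RingEquiv.refl ℂ) = ∑ k ∈ Finset.Icc (-((eH H).w : ℤ)) (eH H).w,
      (k : ℂ) • (eH H).π k := rfl
  have h2 : Ng H (RingEquiv.refl ℂ) = ∑ k ∈ Finset.Icc (-(H.w : ℤ)) H.w,
      (k : ℂ) • H.π k := rfl
  rw [h1, h2, hsum fun k => (k : ℂ), hsum2 fun k => (k : ℂ)]
  exact Finset.sum_congr rfl fun k hk => by rw [hab k hk]

/-- The eigenvalues of the generators. -/
lemma Ng_eigen {v : ι → ℂ} (hv : v ≠ 0) {μ : ℂ} (h : Ng H (RingEquiv.refl ℂ) *ᵥ v = μ • v) :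
    ∃ a : ℤ, |a| ≤ H.w ∧ μ = a := by
  have h2 : Ng H (RingEquiv.refl ℂ) = ∑ k ∈ Finset.Icc (-(H.w : ℤ)) H.w,
      (k : ℂ) • H.π k := rfl
  obtain ⟨k, hk, hkv⟩ : ∃ k ∈ Finset.Icc (-(H.w : ℤ)) H.w, H.π k *ᵥ v ≠ 0 := by
    by_contra hcon
    push Not at hcon
    apply hv
    rw [← Matrix.one_mulVec v, ← H.h1, Matrix.sum_mulVec]
    exact Finset.sum_eq_zero hcon
  refine ⟨k, ?_, ?_⟩
  · rw [Finset.mem_Icc] at hk
    exact abs_le.2 hk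
  · have h3 : H.π k * Ng H (RingEquiv.refl ℂ) = (k : ℂ) • H.π k := by
      rw [h2, Finset.mul_sum, Finset.sum_eq_single k]
      · rw [Matrix.mul_smul, H.hmul k hk k hk, if_pos rfl]
      · intro l hl hlk
        rw [Matrix.mul_smul, H.hmul k hk l hl, if_neg (Ne.symm hlk), smul_zero]
      · intro h; exact absurd hk h
    have h4 := congrArg (fun u => H.π k *ᵥ u) h
    beta_reduce at h4
    rw [Matrix.mulVec_mulVec, h3, Matrix.smul_mulVec, Matrix.mulVec_smul, ← sub_eq_zero,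
      ← sub_smul, smul_eq_zero, or_iff_left hkv, sub_eq_zero] at h4
    exact h4.symm

lemma hE_of {w : ℕ} (hw : H.w ≤ w) : ∀ u ∈ (eA H).V, u ≠ 0 → ∀ μ : ℂ,
    Ng (eH H) (RingEquiv.refl ℂ) *ᵥ u = μ • u → ∃ a : ℤ, |a| ≤ w ∧ μ = a := by
  intro u hu hu0 μ hμ
  rw [(eA H).mem_V', pr1_eq, cQ_mul, cQ_transpose, cQ_j1, ← Matrix.mulVec_mulVec] at hu
  obtain ⟨v, hv⟩ : ∃ v, v = (j1 ι ℂ)ᵀ *ᵥ u := ⟨_, rfl⟩
  rw [← hv] at hu
  have hv0 : v ≠ 0 := by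
    rintro rfl
    apply hu0
    rw [← hu, Matrix.mulVec_zero]
  rw [← hu, Matrix.mulVec_mulVec, Ng_j1, ← Matrix.mulVec_mulVec, ← Matrix.mulVec_smul] at hμ
  have h1 := congrArg (fun u => (j1 ι ℂ)ᵀ *ᵥ u) hμ
  beta_reduce at h1
  simp only [Matrix.mulVec_mulVec] at h1
  rw [← Matrix.mul_assoc, j1t_j1, Matrix.one_mul, Matrix.one_mulVec] at h1
  obtain ⟨a, ha1, ha2⟩ := Ng_eigen hv0 h1
  exact ⟨a, ha1.trans (by exact_mod_cast hw), ha2⟩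

/-! ### The core theorems -/

variable {B : ∀ n : ℕ, Submodule ℚ ((Fin (n + 1) → ι) → ℚ)}

/-- Self-adjoint centres. -/
theorem ecore_adj (hR : ∀ y, IsC H y → cQ y * cQ H.Qir = cQ H.Qir * (cQ y)ᵀ)
    (hA : RFam H B) {N : ℕ} (hN4 : 4 * Fintype.card ι ≤ N)
    (hN : ∀ n, n + 1 ≤ N → BB H (Fin (n + 1)) ≤ B n) (n : ℕ) : BB H (Fin (n + 1)) ≤ B n :=
  of_eQ hA fun a ha => core_adj (eA H) (eA_top H) (fun x hx => by
    obtain ⟨y, hy, rfl⟩ := exists_isC hx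
    exact adj_j (hR y hy)) (eRFam hA) (fun n hn => eQ_small hA hN hN4 n hn) n a ha

/-- The trace condition. -/
theorem ecore_tr (hT : ∀ y, IsC H y → (cQ y * Ng H (RingEquiv.refl ℂ)).trace = 0)
    (hA : RFam H B) {N : ℕ} (hN4 : max 4 (Fintype.card ι) * Fintype.card ι ≤ N)
    (hN : ∀ n, n + 1 ≤ N → BB H (Fin (n + 1)) ≤ B n) (n : ℕ) : BB H (Fin (n + 1)) ≤ B n := by
  refine of_eQ hA fun a ha => ?_
  obtain ⟨b, hb⟩ : ∃ b, b = Fintype.card ι := ⟨_, rfl⟩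
  rw [← hb] at hN4
  have hT' : ∀ x, (eA H).IsCE x →
      (cQ x * Ng (eH H) (RingEquiv.refl ℂ)).trace = 0 := by
    intro x hx
    obtain ⟨y, hy, rfl⟩ := exists_isC hx
    rw [← hT y hy, cQ_mul, cQ_mul, cQ_transpose, cQ_j1, Matrix.mul_assoc, Matrix.mul_assoc,
      Matrix.trace_mul_comm, Matrix.mul_assoc, Matrix.mul_assoc, Ng_j1, ← Matrix.mul_assoc _ _
        (Ng H (RingEquiv.refl ℂ)), j1t_j1, Matrix.one_mul]
  refine coreM (eA H) (eA_top H) (N := max 4 b) (M := max 2 (b / 2)) (le_max_left _ _) (by omega)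
    (fun z hz x m B hx i => ?_) (eRFam hA)
    (fun n hn => eQ_small hA hN (by rw [← hb]; exact hN4) n hn) n a ha
  by_cases h2 : 2 • B.T i ∈ QL (hn (eH H)) x
  · exact ⟨2, two_pos, le_max_left _ _, h2⟩
  classical
  let S : Finset (Fin m) := Finset.univ.filter fun j => B.T j - B.T i ∈ QL (hn (eH H)) x
  have hS : ∀ j, j ∈ S ↔ B.T j - B.T i ∈ QL (hn (eH H)) x := fun j => by simp [S]
  have hi : i ∈ S := (hS i).2 (by rw [sub_self]; exact (QL _ x).zero_mem)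
  have hm : m = b := by
    have h3 := Module.finrank_eq_card_basis B.bas
    rw [Fintype.card_fin] at h3
    rw [← h3, hb, ← finrank_eV H]
    exact (eA H).eV.finrank_eq.symm
  have hc := (eA H).half adj_pr1 hx B i h2 S fun j hj => (hS j).1 hj
  refine ⟨S.card, Finset.card_pos.2 ⟨i, hi⟩, le_trans (by omega) (le_max_right _ _), ?_⟩
  have h3 := (eA H).tot_coset (eA_top H) hz B hT' hx i S hS
  have h4 : ∑ j ∈ S, (B.T j - B.T i) ∈ QL (hn (eH H)) x :=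
    (QL (hn (eH H)) x).sum_mem fun j hj => (hS j).1 hj
  rw [Finset.sum_sub_distrib, h3, Finset.sum_const, zero_sub] at h4
  exact (QL (hn (eH H)) x).neg_mem_iff.1 h4

/-- **All structures.** -/
theorem ecore_gen {w : ℕ} (hw1 : 1 ≤ w) (hw : H.w ≤ w)
    (hA : RFam H B) {N : ℕ} (hN4 : max 4 (2 * (w * (Fintype.card ι / 2) ^ 2) ^
      (Fintype.card ι / 2)) * Fintype.card ι ≤ N)
    (hN : ∀ n, n + 1 ≤ N → BB H (Fin (n + 1)) ≤ B n) (n : ℕ) : BB H (Fin (n + 1)) ≤ B n := by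
  refine of_eQ hA fun a ha => ?_
  obtain ⟨b, hb⟩ : ∃ b, b = Fintype.card ι := ⟨_, rfl⟩
  rw [← hb] at hN4
  exact coreG (eA H) (eA_top H) (N := max 4 (2 * (w * (b / 2) ^ 2) ^ (b / 2)))
    (M := max 2 ((w * (b / 2) ^ 2) ^ (b / 2))) (le_max_left _ _) (by omega)
    (fun _ hz _ _ B hx _ hs hirr i p _ hp =>
      (eA H).irr_countW hw1 (eA_top H) hz adj_pr1 (hE_of hw) (by rw [finrank_eV, ← hb]; omega)
        hx B hs hirr i p hp)
    (eRFam hA) (fun n hn => eQ_small hA hN (by rw [← hb]; exact hN4) n hn) n a ha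

end Pool.Agent.N996.FP
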