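import Mathlib

/-!
# Relations with nonnegative coefficients
-/

set_option linter.unusedSectionVars false

namespace Pool.Agent.N996.FP

open Matrix

attribute [local instance] Matrix.seminormedAddCommGroup

variable {R G : Type*} [Fintype R] [DecidableEq R]

/-- Relations between integral vectors. -/
def IsRel (lam : R → G → ℤ) (r : R → ℚ) : Prop := ∀ σ, ∑ c, r c * (lam c σ : ℚ) = 0

lemma sum_sub {S : Finset R} {f : R → ℚ} (hf : ∀ c, c ∉ S → f c = 0) :
    ∑ c, f c = ∑ c : S, f c := by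
  rw [Finset.sum_coe_sort S f]
  exact (Finset.sum_subset (Finset.subset_univ S) fun c _ hc => hf c hc).symm

/-- Small relations. -/
lemma small_rel {lam : R → G → ℤ} {A : ℕ} (hA : 1 ≤ A) (hl : ∀ c σ, |lam c σ| ≤ A)
    {S : Finset R} {u : R → ℚ} (hu0 : u ≠ 0) (hus : ∀ c, c ∉ S → u c = 0) (hu : IsRel lam u) :
    ∃ t : R → ℤ, t ≠ 0 ∧ (∀ c, c ∉ S → t c = 0) ∧ IsRel lam (fun c => (t c : ℚ)) ∧
      ∀ c, |t c| ≤ (S.card * A : ℕ) ^ (S.card - 1) := by
  classical
  let ρ : G → (S → ℚ) := fun σ c => lam c σ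
  obtain ⟨W, hW⟩ : ∃ W, W = Submodule.span ℚ (Set.range ρ) := ⟨_, rfl⟩
  let φ : (S → ℚ) →ₗ[ℚ] ℚ :=
    { toFun := fun v => ∑ c : S, u c * v c
      map_add' := fun v w => by
        rw [← Finset.sum_add_distrib]
        exact Finset.sum_congr rfl fun c _ => by rw [Pi.add_apply]; ring
      map_smul' := fun r v => by
        rw [RingHom.id_apply, smul_eq_mul, Finset.mul_sum]
        exact Finset.sum_congr rfl fun c _ => by rw [Pi.smul_apply, smul_eq_mul]; ring }
  obtain ⟨c₀, hc₀⟩ : ∃ c₀, u c₀ ≠ 0 := by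
    by_contra hcon
    push Not at hcon
    exact hu0 (funext hcon)
  have hc₀S : c₀ ∈ S := by
    by_contra hn
    exact hc₀ (hus c₀ hn)
  have hWφ : W ≤ LinearMap.ker φ := by
    rw [hW]
    refine Submodule.span_le.2 ?_
    rintro _ ⟨σ, rfl⟩
    change ∑ c : S, u c * (lam c σ : ℚ) = 0
    rw [← sum_sub (S := S) (f := fun c => u c * (lam c σ : ℚ)) fun c hc => by
      rw [hus c hc, zero_mul]]
    exact hu σ
  have hlt : Module.finrank ℚ W < S.card := by
    have h1 : W < ⊤ := by
      refine lt_top_iff_ne_top.2 fun h0 => hc₀ ?_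
      have h2 : (Pi.single (⟨c₀, hc₀S⟩ : S) 1 : S → ℚ) ∈ LinearMap.ker φ :=
        hWφ (by rw [h0]; exact Submodule.mem_top)
      have h3 : ∑ c : S, u c * (Pi.single (⟨c₀, hc₀S⟩ : S) 1 : S → ℚ) c = 0 := h2
      rw [Finset.sum_eq_single (⟨c₀, hc₀S⟩ : S)] at h3
      · simpa using h3
      · intro b _ hb
        rw [Pi.single_eq_of_ne hb, mul_zero]
      · intro hn; exact absurd (Finset.mem_univ _) hn
    have h2 := Submodule.finrank_lt h1.ne
    rwa [Module.finrank_fintype_fun_eq_card, Fintype.card_coe] at h2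
  have hbase : 1 ≤ S.card * A := by
    have : 0 < S.card := Finset.card_pos.2 ⟨c₀, hc₀S⟩
    nlinarith
  -- extending relations
  have hext : ∀ t : S → ℤ, (∀ σ, ∑ c : S, (t c : ℚ) * ρ σ c = 0) → t ≠ 0 →
      (∀ c, |t c| ≤ (S.card * A : ℕ) ^ (S.card - 1)) →
      ∃ t : R → ℤ, t ≠ 0 ∧ (∀ c, c ∉ S → t c = 0) ∧ IsRel lam (fun c => (t c : ℚ)) ∧
      ∀ c, |t c| ≤ (S.card * A : ℕ) ^ (S.card - 1) := by
    intro t h1 h2 h3
    have h4 : ∀ c : S, (if h : (c : R) ∈ S then t ⟨c, h⟩ else 0) = t c := fun c => by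
      rw [dif_pos c.2]
    refine ⟨fun c => if h : c ∈ S then t ⟨c, h⟩ else 0, fun h5 => h2 ?_, fun c hc => ?_,
      fun σ => ?_, fun c => ?_⟩
    · funext c
      have h6 : (if h : (c : R) ∈ S then t ⟨c, h⟩ else 0) = 0 := congrFun h5 c
      rw [h4] at h6
      exact h6
    · exact dif_neg hc
    · change ∑ c, ((if h : c ∈ S then t ⟨c, h⟩ else 0 : ℤ) : ℚ) * (lam c σ : ℚ) = 0
      rw [sum_sub (S := S) (f := fun c => ((if h : c ∈ S then t ⟨c, h⟩ else 0 : ℤ) : ℚ) *
        (lam c σ : ℚ)) fun c hc => by rw [dif_neg hc, Int.cast_zero, zero_mul]]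
      simp only [h4]
      exact h1 σ
    · change |(if h : c ∈ S then t ⟨c, h⟩ else 0)| ≤ _
      by_cases hc : c ∈ S
      · rw [dif_pos hc]
        exact h3 _
      · rw [dif_neg hc, abs_zero]
        positivity
  rcases Nat.eq_zero_or_pos (Module.finrank ℚ W) with hm | hm
  · -- no equations
    have hW0 : W = ⊥ := Submodule.finrank_eq_zero.1 hm
    refine hext (Pi.single ⟨c₀, hc₀S⟩ 1) (fun σ => ?_) ?_ fun c => ?_
    · have h1 : ρ σ ∈ W := by rw [hW]; exact Submodule.subset_span ⟨σ, rfl⟩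
      rw [hW0, Submodule.mem_bot] at h1
      rw [h1]
      simp
    · intro h0
      have h1 := congrFun h0 ⟨c₀, hc₀S⟩
      simp at h1
    · by_cases hc : c = ⟨c₀, hc₀S⟩
      · rw [hc, Pi.single_eq_same, abs_one]
        exact_mod_cast Nat.one_le_pow _ _ hbase
      · rw [Pi.single_eq_of_ne hc, abs_zero]
        positivity
  · obtain ⟨f, hf, hsp⟩ : ∃ f : Fin (Module.finrank ℚ W) → (S → ℚ), (∀ i, f i ∈ Set.range ρ) ∧
        Submodule.span ℚ (Set.range f) = W := by
      subst hW
      obtain ⟨f, hf, hsp, -⟩ := Submodule.exists_fun_fin_finrank_span_eq ℚ (Set.range ρ)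
      exact ⟨f, hf, hsp⟩
    choose σ' hσ' using hf
    obtain ⟨m, hme⟩ : ∃ m, m = Module.finrank ℚ W := ⟨_, rfl⟩
    rw [← hme] at hlt hm
    subst hme
    let Mx : Matrix (Fin (Module.finrank ℚ W)) S ℤ := Matrix.of fun i c => lam c (σ' i)
    obtain ⟨t, ht0, htM, htn⟩ := Int.Matrix.exists_ne_zero_int_vec_norm_le Mx
      (by rw [Fintype.card_fin, Fintype.card_coe]; exact hlt) (by rw [Fintype.card_fin]; exact hm)
    rw [Fintype.card_fin, Fintype.card_coe] at htn
    refine hext t (fun σ => ?_) ht0 fun c => ?_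
    · have h1 : ρ σ ∈ Submodule.span ℚ (Set.range f) := by
        rw [hsp, hW]; exact Submodule.subset_span ⟨σ, rfl⟩
      have h2 : ∀ v ∈ Submodule.span ℚ (Set.range f), ∑ c : S, (t c : ℚ) * v c = 0 := by
        intro v hv
        induction hv using Submodule.span_induction with
        | mem v hv =>
          obtain ⟨i, rfl⟩ := hv
          rw [← hσ' i]
          have h3 := congrFun htM i
          rw [Matrix.mulVec, dotProduct] at h3
          have h4 : ((∑ c : S, Mx i c * t c : ℤ) : ℚ) = 0 := by rw [h3]; simp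
          push_cast at h4
          rw [← h4]
          exact Finset.sum_congr rfl fun c _ => mul_comm _ _
        | zero => simp
        | add a b _ _ ha hb =>
          simp only [Pi.add_apply, mul_add, Finset.sum_add_distrib]
          rw [ha, hb, add_zero]
        | smul r a _ ha =>
          have h3 : ∀ c : S, (t c : ℚ) * (r • a) c = r * ((t c : ℚ) * a c) := fun c => by
            rw [Pi.smul_apply, smul_eq_mul]; ring
          simp only [h3]
          rw [← Finset.mul_sum, ha, mul_zero]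
      exact h2 _ h1
    · have h1 := norm_le_pi_norm t c
      have hMn : ‖Mx‖ ≤ A := by
        rw [Matrix.norm_le_iff (by positivity)]
        intro i c
        rw [Int.norm_eq_abs]
        exact_mod_cast hl _ _
      have hA' : (1 : ℝ) ≤ A := by exact_mod_cast hA
      have hb1 : (S.card : ℝ) * max 1 ‖Mx‖ ≤ S.card * A :=
        mul_le_mul_of_nonneg_left (max_le hA' hMn) (by positivity)
      have hb0 : (1 : ℝ) ≤ S.card * A := by exact_mod_cast hbase
      have hltR : (Module.finrank ℚ W : ℝ) + 1 ≤ S.card := by exact_mod_cast hlt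
      have he : (Module.finrank ℚ W : ℝ) / (S.card - Module.finrank ℚ W) ≤
          ((S.card - 1 : ℕ) : ℝ) := by
        have h3 : (1 : ℝ) ≤ S.card - Module.finrank ℚ W := by linarith
        have h4 : (0 : ℝ) ≤ Module.finrank ℚ W := by positivity
        have h5 : (Module.finrank ℚ W : ℝ) / (S.card - Module.finrank ℚ W) ≤
            Module.finrank ℚ W := div_le_self h4 h3
        have h6 : ((S.card - 1 : ℕ) : ℝ) = S.card - 1 := by
          rw [Nat.cast_sub (by omega), Nat.cast_one]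
        rw [h6]
        linarith
      have h2 : ‖t‖ ≤ ((S.card : ℝ) * A) ^ (S.card - 1) := by
        refine htn.trans ?_
        refine (Real.rpow_le_rpow (by positivity) hb1 (div_nonneg (by positivity)
          (by linarith))).trans ?_
        refine (Real.rpow_le_rpow_of_exponent_le hb0 he).trans ?_
        rw [Real.rpow_natCast]
      have h3 := h1.trans h2
      rw [Int.norm_eq_abs] at h3
      exact_mod_cast h3

/-- **Circuits.** -/
lemma exists_circuit {lam : R → G → ℤ} {A : ℕ} (hA : 1 ≤ A) (hl : ∀ c σ, |lam c σ| ≤ A) :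
    ∀ (k : ℕ) (r : R → ℚ), (Finset.univ.filter fun c => r c ≠ 0).card = k → r ≠ 0 →
      (∀ c, 0 ≤ r c) → IsRel lam r → ∃ y : R → ℕ, y ≠ 0 ∧ (∀ c, r c = 0 → y c = 0) ∧
        IsRel lam (fun c => (y c : ℚ)) ∧ ∀ c, y c ≤ (k * A) ^ (k - 1) := by
  classical
  intro k
  induction k using Nat.strong_induction_on with
  | _ k ih =>
  intro r hk hr0 hr hrel
  obtain ⟨S, hS⟩ : ∃ S : Finset R, S = Finset.univ.filter fun c => r c ≠ 0 := ⟨_, rfl⟩
  have hSm : ∀ c, c ∈ S ↔ r c ≠ 0 := fun c => by rw [hS]; simp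
  rw [← hS] at hk
  obtain ⟨t, ht0, htS, htr, htb⟩ := small_rel hA hl (S := S) hr0
    (fun c hc => by by_contra h; exact hc ((hSm c).2 h)) hrel
  rw [hk] at htb
  -- relations of one sign
  have hone : ∀ t : R → ℤ, t ≠ 0 → (∀ c, c ∉ S → t c = 0) → IsRel lam (fun c => (t c : ℚ)) →
      (∀ c, |t c| ≤ (k * A : ℕ) ^ (k - 1)) → (∀ c, 0 ≤ t c) →
      ∃ y : R → ℕ, y ≠ 0 ∧ (∀ c, r c = 0 → y c = 0) ∧
        IsRel lam (fun c => (y c : ℚ)) ∧ ∀ c, y c ≤ (k * A) ^ (k - 1) := by
    intro t ht0 htS htr htb hpos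
    have h1 : ∀ c, ((t c).toNat : ℤ) = t c := fun c => Int.toNat_of_nonneg (hpos c)
    refine ⟨fun c => (t c).toNat, fun h0 => ht0 ?_, fun c hc => ?_, fun σ => ?_, fun c => ?_⟩
    · funext c
      have h2 : (t c).toNat = 0 := congrFun h0 c
      rw [← h1 c, h2]
      rfl
    · have h2 : t c = 0 := htS c fun h => (hSm c).1 h hc
      simp only
      rw [h2]
      rfl
    · have h2 := htr σ
      rw [← h2]
      refine Finset.sum_congr rfl fun c _ => ?_
      congr 1
      change (((t c).toNat : ℕ) : ℚ) = (t c : ℚ)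
      have h3 : (((t c).toNat : ℤ) : ℚ) = (t c : ℚ) := by rw [h1 c]
      exact_mod_cast h3
    · have h2 := htb c
      rw [abs_of_nonneg (hpos c), ← h1 c] at h2
      exact_mod_cast h2
  by_cases hp : ∀ c, 0 ≤ t c
  · exact hone t ht0 htS htr htb hp
  by_cases hn : ∀ c, t c ≤ 0
  · refine hone (fun c => -t c) (fun h0 => ht0 ?_) (fun c hc => ?_) (fun σ => ?_) (fun c => ?_)
      fun c => ?_
    · funext c
      have h2 : -t c = 0 := congrFun h0 c
      simpa using h2
    · change -t c = 0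
      rw [htS c hc, neg_zero]
    · have h2 := htr σ
      have h3 : ∑ c, (((fun c => -t c) c : ℤ) : ℚ) * (lam c σ : ℚ) =
          -∑ c, (t c : ℚ) * (lam c σ : ℚ) := by
        rw [← Finset.sum_neg_distrib]
        refine Finset.sum_congr rfl fun c _ => ?_
        push_cast
        ring
      rw [h3, h2, neg_zero]
    · rw [abs_neg]
      exact htb c
    · have := hn c
      change 0 ≤ -t c
      omega
  push Not at hp hn
  obtain ⟨a, ha⟩ := hp
  obtain ⟨b, hb⟩ := hn
  -- the ratio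
  obtain ⟨d, hdP, hdmin⟩ := (Finset.univ.filter fun c => 0 < t c).exists_min_image
    (fun c => r c / (t c : ℚ)) ⟨b, by simp [hb]⟩
  have hd : 0 < t d := (Finset.mem_filter.1 hdP).2
  have hdQ : (0 : ℚ) < (t d : ℚ) := by exact_mod_cast hd
  obtain ⟨τ, hτ⟩ : ∃ τ, τ = r d / (t d : ℚ) := ⟨_, rfl⟩
  have hrd : r d ≠ 0 := by
    intro h0
    have : d ∉ S := fun h => (hSm d).1 h h0
    rw [htS d this] at hd
    exact lt_irrefl _ hd
  have hrdp : 0 < r d := lt_of_le_of_ne (hr d) (Ne.symm hrd)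
  have hτp : 0 < τ := by rw [hτ]; positivity
  obtain ⟨r', hr'⟩ : ∃ r' : R → ℚ, r' = fun c => r c - τ * (t c : ℚ) := ⟨_, rfl⟩
  have h1 : ∀ c, 0 ≤ r' c := by
    intro c
    rw [hr']
    simp only
    by_cases hc : 0 < t c
    · have hcQ : (0 : ℚ) < (t c : ℚ) := by exact_mod_cast hc
      have h2 := hdmin c (Finset.mem_filter.2 ⟨Finset.mem_univ _, hc⟩)
      rw [← hτ, le_div_iff₀ hcQ] at h2
      linarith
    · push Not at hc
      have hcQ : (t c : ℚ) ≤ 0 := by exact_mod_cast hc
      nlinarith [hr c]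
  have h2 : r' ≠ 0 := by
    intro h0
    have h3 := congrFun h0 a
    rw [hr'] at h3
    simp only [Pi.zero_apply] at h3
    have haQ : (t a : ℚ) < 0 := by exact_mod_cast ha
    nlinarith [hr a]
  have h3 : IsRel lam r' := by
    intro σ
    rw [hr']
    have h4 : ∑ c, (r c - τ * (t c : ℚ)) * (lam c σ : ℚ) =
        ∑ c, r c * (lam c σ : ℚ) - τ * ∑ c, (t c : ℚ) * (lam c σ : ℚ) := by
      rw [Finset.mul_sum, ← Finset.sum_sub_distrib]
      exact Finset.sum_congr rfl fun c _ => by ring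
    simp only
    rw [h4, hrel σ]
    have h5 := htr σ
    simp only at h5
    rw [h5, mul_zero, sub_zero]
  have h4 : ∀ c, r c = 0 → r' c = 0 := by
    intro c hc
    have h5 : c ∉ S := fun h => (hSm c).1 h hc
    rw [hr']
    simp only
    rw [htS c h5, hc]
    simp
  have h5 : r' d = 0 := by
    rw [hr']
    simp only
    rw [hτ, div_mul_cancel₀ _ hdQ.ne', sub_self]
  have hlt : (Finset.univ.filter fun c => r' c ≠ 0).card < k := by
    rw [← hk]
    refine Finset.card_lt_card ⟨fun c hc => (hSm c).2 fun h => ?_, fun h => ?_⟩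
    · exact (Finset.mem_filter.1 hc).2 (h4 c h)
    · exact (Finset.mem_filter.1 (h ((hSm d).2 hrd))).2 h5
  obtain ⟨y, hy1, hy2, hy3, hy4⟩ := ih _ hlt r' rfl h2 h1 h3
  refine ⟨y, hy1, fun c hc => hy2 c (h4 c hc), hy3, fun c => (hy4 c).trans ?_⟩
  obtain ⟨k', hk'⟩ : ∃ k', k' = (Finset.univ.filter fun c => r' c ≠ 0).card := ⟨_, rfl⟩
  rw [← hk'] at hlt ⊢
  have h6 : 1 ≤ k' := by
    rw [hk']
    obtain ⟨c, hc⟩ : ∃ c, r' c ≠ 0 := by
      by_contra hcon
      push Not at hcon
      exact h2 (funext hcon)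
    exact Finset.card_pos.2 ⟨c, by simp [hc]⟩
  have h7 : k' * A ≤ k * A := Nat.mul_le_mul_right A hlt.le
  have h8 : 1 ≤ k * A := le_trans (by nlinarith) h7
  exact (Nat.pow_le_pow_left h7 _).trans (Nat.pow_le_pow_right h8 (by omega))

/-- **The bound for irreducible relations.** -/
theorem irr_bound {lam : R → G → ℤ} {A : ℕ} (hA : 1 ≤ A) (hl : ∀ c σ, |lam c σ| ≤ A)
    {n m : R → ℕ} (hm : ∀ c, 0 < m c) (hrel : IsRel lam fun c => (n c : ℚ) / (m c : ℚ))
    (hirr : ∀ y : R → ℕ, y ≠ 0 → IsRel lam (fun c => (y c : ℚ)) → (∀ c, m c * y c ≤ n c) →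
      ∀ c, m c * y c = n c) (c : R) :
    n c ≤ m c * (Fintype.card R * (Fintype.card R * A) ^ (Fintype.card R - 1)) := by
  classical
  obtain ⟨K, hK⟩ : ∃ K, K = Fintype.card R := ⟨_, rfl⟩
  rw [← hK]
  obtain ⟨Bd, hBd⟩ : ∃ Bd, Bd = (K * A) ^ (K - 1) := ⟨_, rfl⟩
  rw [← hBd]
  have key : ∀ (k : ℕ) (r : R → ℚ), (Finset.univ.filter fun c => r c ≠ 0).card = k →
      (∀ c, 0 ≤ r c) → (∀ c, r c ≤ (n c : ℚ) / (m c : ℚ)) → IsRel lam r →
      ∀ c, r c ≤ k * Bd := by
    intro k
    induction k using Nat.strong_induction_on with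
    | _ k ih =>
    intro r hk hr hrn hrr c
    by_cases hr0 : r = 0
    · rw [hr0, Pi.zero_apply]
      positivity
    have hk1 : 1 ≤ k := by
      rw [← hk]
      obtain ⟨c, hc⟩ : ∃ c, r c ≠ 0 := by
        by_contra hcon
        push Not at hcon
        exact hr0 (funext hcon)
      exact Finset.card_pos.2 ⟨c, by simp [hc]⟩
    have hkK : k ≤ K := by
      rw [← hk, hK]
      exact Finset.card_le_univ _
    obtain ⟨y, hy1, hy2, hy3, hy4⟩ := exists_circuit hA hl k r hk hr0 hr hrr
    have hyB : ∀ c, y c ≤ Bd := by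
      intro c
      refine (hy4 c).trans ?_
      rw [hBd]
      have h7 : k * A ≤ K * A := Nat.mul_le_mul_right A hkK
      have h8 : 1 ≤ K * A := le_trans (by nlinarith) h7
      exact (Nat.pow_le_pow_left h7 _).trans (Nat.pow_le_pow_right h8 (by omega))
    obtain ⟨b, hb⟩ : ∃ b, y b ≠ 0 := by
      by_contra hcon
      push Not at hcon
      exact hy1 (funext hcon)
    obtain ⟨d, hdP, hdmin⟩ := (Finset.univ.filter fun c => 0 < y c).exists_min_image
      (fun c => r c / (y c : ℚ)) ⟨b, by simp [Nat.pos_of_ne_zero hb]⟩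
    have hd : 0 < y d := (Finset.mem_filter.1 hdP).2
    have hdQ : (0 : ℚ) < (y d : ℚ) := by exact_mod_cast hd
    obtain ⟨τ, hτ⟩ : ∃ τ, τ = r d / (y d : ℚ) := ⟨_, rfl⟩
    have hle : ∀ c, τ * y c ≤ r c := by
      intro c
      by_cases hc : 0 < y c
      · have hcQ : (0 : ℚ) < (y c : ℚ) := by exact_mod_cast hc
        have h2 := hdmin c (Finset.mem_filter.2 ⟨Finset.mem_univ _, hc⟩)
        rw [← hτ, le_div_iff₀ hcQ] at h2
        exact h2
      · have h2 : y c = 0 := by omega
        rw [h2, Nat.cast_zero, mul_zero]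
        exact hr c
    have hτ0 : 0 ≤ τ := by rw [hτ]; exact div_nonneg (hr d) hdQ.le
    by_cases hτ1 : 1 ≤ τ
    · -- the relation is a circuit
      have h2 : ∀ c, m c * y c ≤ n c := by
        intro c
        have hmc : (0 : ℚ) < (m c : ℚ) := by exact_mod_cast hm c
        have h3 : (y c : ℚ) ≤ (n c : ℚ) / (m c : ℚ) := by
          have h4 := hle c
          have h5 : (0 : ℚ) ≤ (y c : ℚ) := by positivity
          have h6 : (y c : ℚ) ≤ τ * y c := by nlinarith
          exact h6.trans (h4.trans (hrn c))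
        rw [le_div_iff₀ hmc] at h3
        have h4 : ((m c * y c : ℕ) : ℚ) ≤ (n c : ℚ) := by
          push_cast
          rw [mul_comm]
          exact h3
        exact_mod_cast h4
      have h3 := hirr y hy1 hy3 h2 c
      have hmc : (0 : ℚ) < (m c : ℚ) := by exact_mod_cast hm c
      have h4 : r c ≤ (y c : ℚ) := by
        refine (hrn c).trans ?_
        rw [← h3]
        push_cast
        rw [mul_div_cancel_left₀ _ hmc.ne']
      have h5 : (y c : ℚ) ≤ (Bd : ℚ) := by exact_mod_cast hyB c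
      have h6 : (1 : ℚ) ≤ (k : ℚ) := by exact_mod_cast hk1
      have h7 : (0 : ℚ) ≤ (Bd : ℚ) := by positivity
      nlinarith
    · push Not at hτ1
      obtain ⟨r', hr'⟩ : ∃ r' : R → ℚ, r' = fun c => r c - τ * (y c : ℚ) := ⟨_, rfl⟩
      have h1 : ∀ c, 0 ≤ r' c := by
        intro c
        rw [hr']
        have := hle c
        simp only
        linarith
      have h2 : ∀ c, r' c ≤ (n c : ℚ) / (m c : ℚ) := by
        intro c
        rw [hr']
        have h3 := hrn c
        have h4 : (0 : ℚ) ≤ τ * (y c : ℚ) := by positivity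
        simp only
        linarith
      have h3 : IsRel lam r' := by
        intro σ
        rw [hr']
        have h4 : ∑ c, (r c - τ * (y c : ℚ)) * (lam c σ : ℚ) =
            ∑ c, r c * (lam c σ : ℚ) - τ * ∑ c, (y c : ℚ) * (lam c σ : ℚ) := by
          rw [Finset.mul_sum, ← Finset.sum_sub_distrib]
          exact Finset.sum_congr rfl fun c _ => by ring
        simp only
        rw [h4, hrr σ]
        have h5 := hy3 σ
        simp only at h5
        rw [h5, mul_zero, sub_zero]
      have h4 : ∀ c, r c = 0 → r' c = 0 := by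
        intro c hc
        rw [hr']
        simp only
        rw [hy2 c hc, hc]
        simp
      have hrd : r d ≠ 0 := by
        intro h0
        rw [hy2 d h0] at hd
        exact lt_irrefl _ hd
      have h5 : r' d = 0 := by
        rw [hr']
        simp only
        rw [hτ, div_mul_cancel₀ _ hdQ.ne', sub_self]
      have hlt : (Finset.univ.filter fun c => r' c ≠ 0).card < k := by
        rw [← hk]
        refine Finset.card_lt_card ⟨fun c hc => ?_, fun h => ?_⟩
        · exact Finset.mem_filter.2 ⟨Finset.mem_univ _, fun h =>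
            (Finset.mem_filter.1 hc).2 (h4 c h)⟩
        · exact (Finset.mem_filter.1 (h (Finset.mem_filter.2
            ⟨Finset.mem_univ _, hrd⟩))).2 h5
      have h6 := ih _ hlt r' rfl h1 h2 h3 c
      have h7 : ((Finset.univ.filter fun c => r' c ≠ 0).card : ℚ) + 1 ≤ k := by
        exact_mod_cast hlt
      have h8 : (0 : ℚ) ≤ (Bd : ℚ) := by positivity
      have h9 : (y c : ℚ) ≤ (Bd : ℚ) := by exact_mod_cast hyB c
      have h10 : r c = r' c + τ * (y c : ℚ) := by rw [hr']; ring
      have h11 : τ * (y c : ℚ) ≤ (Bd : ℚ) := by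
        have h12 : (0 : ℚ) ≤ (y c : ℚ) := by positivity
        nlinarith
      rw [h10]
      nlinarith
  have h1 := key _ (fun c => (n c : ℚ) / (m c : ℚ)) rfl (fun c => by positivity)
    (fun c => le_rfl) hrel c
  have hmc : (0 : ℚ) < (m c : ℚ) := by exact_mod_cast hm c
  have h2 : ((Finset.univ.filter fun c => (n c : ℚ) / (m c : ℚ) ≠ 0).card : ℚ) ≤ K := by
    rw [hK]
    exact_mod_cast Finset.card_le_univ _
  have h3 : (n c : ℚ) / (m c : ℚ) ≤ K * Bd := by
    refine h1.trans (mul_le_mul_of_nonneg_right h2 (by positivity))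
  rw [div_le_iff₀ hmc] at h3
  have h4 : (n c : ℚ) ≤ ((m c * (K * Bd) : ℕ) : ℚ) := by
    push_cast
    rw [mul_comm]
    exact h3
  exact_mod_cast h4

end Pool.Agent.N996.FP
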