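import Pool.Agent.N996.FP.Cor2
import Pool.Agent.N996.FP.Cir

/-!
# The characters of the cosets
-/

set_option linter.unusedSectionVars false

namespace Pool.Agent.N996.FP

open Matrix Pool.Agent.N996.BP ComplexConjugate ComplexOrder

section inv

/-- The trace of an involution. -/
lemma int_trace {S : Type} [Fintype S] [DecidableEq S] (E : Matrix S S ℂ) (hE : E * E = 1) :
    ∃ a : ℤ, |a| ≤ Fintype.card S ∧ E.trace = a := by
  obtain ⟨f, hf⟩ : ∃ f : Module.End ℂ (S → ℂ), f = Matrix.toLin' ((2⁻¹ : ℂ) • (1 + E)) :=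
    ⟨_, rfl⟩
  have hff : ∀ v, f (f v) = f v := by
    intro v
    rw [hf, Matrix.toLin'_apply, Matrix.toLin'_apply, Matrix.mulVec_mulVec]
    congr 1
    rw [Matrix.smul_mul, Matrix.mul_smul, smul_smul, Matrix.add_mul, Matrix.mul_add,
      Matrix.mul_add, hE, Matrix.mul_one, Matrix.mul_one, Matrix.one_mul]
    have h1 : (1 : Matrix S S ℂ) + E + (E + 1) = (2 : ℂ) • (1 + E) := by
      rw [two_smul]; abel
    rw [h1, smul_smul]
    congr 1
    norm_num
  have hp : LinearMap.IsProj (LinearMap.range f) f :=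
    ⟨fun v => LinearMap.mem_range_self f v, fun v hv => by
      obtain ⟨w, rfl⟩ := hv
      exact hff w⟩
  have h1 := hp.trace
  have h2 : LinearMap.trace ℂ (S → ℂ) f = (2⁻¹ : ℂ) * (Fintype.card S + E.trace) := by
    rw [hf, Matrix.trace_toLin'_eq, Matrix.trace_smul, Matrix.trace_add, Matrix.trace_one,
      smul_eq_mul]
  obtain ⟨k, hk⟩ : ∃ k, k = Module.finrank ℂ (LinearMap.range f) := ⟨_, rfl⟩
  have hk2 : k ≤ Fintype.card S := by
    rw [hk]
    have h3 := Submodule.finrank_le (LinearMap.range f)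
    rwa [Module.finrank_fintype_fun_eq_card] at h3
  rw [← hk, h2] at h1
  refine ⟨2 * k - Fintype.card S, ?_, ?_⟩
  · rw [abs_le]
    constructor <;> omega
  · push_cast
    rw [← h1]
    ring

end inv

variable {ι : Type} [Fintype ι] [DecidableEq ι] {H : HData ι}
  {A : Type} [Ring A] [Algebra ℂ A]

/-- Tensors killed by the generators of the Lie algebra are fixed by the group. -/
lemma fix_of_NgT {κ : Type} [Fintype κ] [DecidableEq κ] {d : (κ → ι) → ℂ}
    (hd : ∀ σ : ℂ ≃+* ℂ, dk κ (Ng H σ) *ᵥ d = 0) {g : Matrix ι ι ℂ}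
    (hg : g ∈ GG H) : kp κ g *ᵥ d = d := by
  induction hg using Submonoid.closure_induction with
  | mem y hy =>
    obtain ⟨σ, t, ht, rfl⟩ := hy
    have hI := isIdem_map (H := H) σ
    have ht' : σ t ≠ 0 := (map_ne_zero σ).2 ht
    have h1 : Fd κ (wr H) (fun k => (H.π k).map σ) (fun m => (m : ℂ)) *ᵥ d = 0 := by
      rw [Fd_dk hI]
      exact hd σ
    have h2 : (fun m : ℤ => (σ t) ^ m) =
        fun m : ℤ => (fun _ : ℤ => (1 : ℂ)) m +
          (fun m : ℤ => (fun m : ℤ => (((σ t) ^ m - 1) / m)) m * (fun m : ℤ => (m : ℂ)) m) m := by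
      funext m
      simp only
      by_cases hm : m = 0
      · rw [hm]; simp
      · have hm' : (m : ℂ) ≠ 0 := by exact_mod_cast hm
        rw [div_mul_cancel₀ _ hm']
        ring
    rw [gen_eq, ← Fd_kp ht', h2, Fd_add, Matrix.add_mulVec, Fd_one hI, Matrix.one_mulVec,
      ← Fd_mul hI, ← Matrix.mulVec_mulVec, h1, Matrix.mulVec_zero, add_zero]
  | one => rw [kp_one, Matrix.one_mulVec]
  | mul x y _ _ hx hy => rw [kp_mul, ← Matrix.mulVec_mulVec, hy, hx]

/-- Tensors fixed by the group are killed by the Lie algebra. -/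
lemma ho_of_fixT {κ : Type} [Fintype κ] [DecidableEq κ] {d : (κ → ι) → ℂ}
    (hd : ∀ g ∈ GG H, kp κ g *ᵥ d = d) {w : Matrix ι ι ℂ} (hw : w ∈ ho H) :
    dk κ w *ᵥ d = 0 := by
  let C : Submodule ℂ ((κ → ι) → ℂ) :=
    { carrier := {v | ∀ g ∈ GG H, kp κ g *ᵥ v = v}
      add_mem' := fun {a b} ha hb g hg => by rw [Matrix.mulVec_add, ha g hg, hb g hg]
      zero_mem' := fun g _ => Matrix.mulVec_zero _
      smul_mem' := fun c a ha g hg => by rw [Matrix.mulVec_smul, ha g hg] }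
  have hC : ∀ (σ : ℂ ≃+* ℂ), ∀ v ∈ C, (fun i => σ (v i)) ∈ C := by
    intro σ v h1 g hg
    have h5 := h1 (g.map σ.symm) (GG_map H σ.symm hg)
    funext i
    have h6 := congrArg σ (congrFun h5 i)
    rw [Matrix.mulVec, dotProduct, map_sum] at h6
    rw [Matrix.mulVec, dotProduct, ← h6]
    refine Finset.sum_congr rfl fun j _ => ?_
    rw [map_mul, kp_apply, kp_apply, map_prod]
    congr 1
    refine Finset.prod_congr rfl fun k _ => ?_
    rw [Matrix.map_apply, RingEquiv.apply_symm_apply]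
  have hdC : d ∈ C := hd
  rw [Pool.Agent.W437.HD.span_rational C hC] at hdC
  have key : ∀ v ∈ Submodule.span ℂ {w | w ∈ C ∧ ∃ u : (κ → ι) → ℚ, w = fun i => (u i : ℂ)},
      dk κ w *ᵥ v = 0 := by
    intro v hv
    induction hv using Submodule.span_induction with
    | mem v hv =>
      obtain ⟨h1, u, rfl⟩ := hv
      have h2 : u ∈ BB H κ := by
        intro t ht
        exact h1 _ (Submonoid.subset_closure (l_mem_gens H ht))
      exact hw κ _ h2
    | zero => exact Matrix.mulVec_zero _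
    | add a b _ _ ha hb => rw [Matrix.mulVec_add, ha, hb, add_zero]
    | smul c a _ ha => rw [Matrix.mulVec_smul, ha, smul_zero]
  exact key d hdC

lemma Ng_map (σ : ℂ ≃+* ℂ) : Ng H σ = (Ng H (RingEquiv.refl ℂ)).map σ := by
  ext i j
  rw [Ng, Ng, Matrix.sum_apply, Matrix.map_apply, Matrix.sum_apply, map_sum]
  refine Finset.sum_congr rfl fun k _ => ?_
  rw [Matrix.smul_apply, Matrix.smul_apply, smul_eq_mul, smul_eq_mul, map_mul, map_intCast]
  rfl

namespace AData

variable (D : AData H A) {x z : Matrix ι ι ℂ} {n : ℕ}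

/-- The cosets are stable. -/
lemma stab_coset (hx : IsReg (hn H) x) (B : Bz (hn H) x z D.Vn n) {k : Fin n}
    {S : Finset (Fin n)} (hS : ∀ i, i ∈ S ↔ B.T i - B.T k ∈ QL (hn H) x) {w : Matrix ι ι ℂ}
    (hw : w ∈ hn H) {j : Fin n} (hj : j ∈ S) {i : Fin n} (hi : i ∉ S) :
    B.bas.repr ⟨w *ᵥ (B.v j : ι → ℂ), D.Vn_hn hw (B.v j).2⟩ i = 0 := by
  classical
  obtain ⟨y, hy1, -, hy3⟩ := D.exists_proj hx (B.T k)
  have hyS : ∀ i ∈ S, y *ᵥ (B.v i : ι → ℂ) = B.v i := fun i hi =>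
    (hy3 _ _ (B.v_ne i) (B.wt i)).1 ((hS i).1 hi)
  have hyS' : ∀ i, i ∉ S → y *ᵥ (B.v i : ι → ℂ) = 0 := fun i hi =>
    (hy3 _ _ (B.v_ne i) (B.wt i)).2 fun h => hi ((hS i).2 h)
  by_contra hne
  have h1 := B.coef (y := y) (c' := fun i => if i ∈ S then 1 else 0) (fun i => by
    by_cases hi : i ∈ S
    · rw [if_pos hi, one_smul, hyS i hi]
    · rw [if_neg hi, zero_smul, hyS' i hi])
    (u := ⟨w *ᵥ (B.v j : ι → ℂ), D.Vn_hn hw (B.v j).2⟩)
    (d := 1) (by
      change y *ᵥ (w *ᵥ (B.v j : ι → ℂ)) = _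
      rw [Matrix.mulVec_mulVec, hy1 _ hw, ← Matrix.mulVec_mulVec, hyS j hj, one_smul]) i hne
  rw [if_neg hi] at h1
  exact zero_ne_one h1

variable (htop : ∃ v : Fin (Module.finrank ℂ D.V) → D.V, pL D.L v ≠ 0)
    {z : Matrix ι ι ℂ} (hz : D.IsCI z)

/-- The Lie algebra acts on the top exterior power of a coset by a character. -/
lemma delta_act (hx : IsReg (hn H) x) (B : Bz (hn H) x (cji H z) D.Vn n) {k : Fin n}
    {S : Finset (Fin n)} (hS : ∀ i, i ∈ S ↔ B.T i - B.T k ∈ QL (hn H) x) {w : Matrix ι ι ℂ}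
    (hw : w ∈ hn H) : w *ᵥ (D.toPD htop hz).pS B.v S =
      ((∑ j ∈ S, B.T j) * w).trace • (D.toPD htop hz).pS B.v S := by
  have hcomm : x * (∑ j ∈ S, B.T j) = (∑ j ∈ S, B.T j) * x := by
    rw [Finset.mul_sum, Finset.sum_mul]
    exact Finset.sum_congr rfl fun j _ => (B.wt j).mem.2
  refine ad_ind hx.herm (h := hn H) (fun z hz => (isLA_hn H).lie x hx.mem z hz)
    (P := fun w => w *ᵥ (D.toPD htop hz).pS B.v S =
      ((∑ j ∈ S, B.T j) * w).trace • (D.toPD htop hz).pS B.v S) ?_ ?_ ?_ hw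
  · rw [Matrix.zero_mulVec, Matrix.mul_zero, Matrix.trace_zero, zero_smul]
  · intro a b ha hb
    rw [Matrix.add_mulVec, ha, hb, Matrix.mul_add, Matrix.trace_add, add_smul]
  · intro a w hw hwa
    by_cases ha : a = 0
    · subst ha
      rw [Complex.ofReal_zero, zero_smul, sub_eq_zero] at hwa
      rw [(D.toPD htop hz).pS_eig S hw (s := fun i => (B.T i * w).trace) fun j =>
        (B.wt j).val w ⟨hw, hwa⟩, Finset.sum_mul, Matrix.trace_sum]
    · have h1 : ((∑ j ∈ S, B.T j) * w).trace = 0 := by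
        have h2 : ((∑ j ∈ S, B.T j) * (x * w - w * x)).trace = 0 := by
          rw [Matrix.mul_sub, Matrix.trace_sub, ← Matrix.mul_assoc, ← hcomm, Matrix.mul_assoc,
            Matrix.trace_mul_comm x, Matrix.mul_assoc, sub_self]
        rw [hwa, Matrix.mul_smul, Matrix.trace_smul, smul_eq_mul] at h2
        exact (mul_eq_zero.1 h2).resolve_left (by exact_mod_cast ha)
      have hZ := isZ_of hz.comm hz.commE
      rw [h1, zero_smul]
      refine (D.toPD htop hz).pS_zero S hw fun j hj => ?_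
      refine Submodule.span_mono ?_
        (B.root_span (isLA_hn H) hx hZ.comm (fun w hw v hv => D.Vn_hn hw hv) ha hw hwa j)
      rintro _ ⟨i, ⟨hi1, hi2⟩, rfl⟩
      refine ⟨i, ⟨(hS i).2 ?_, ?_⟩, rfl⟩
      · have := (QL _ x).add_mem hi2 ((hS j).1 hj)
        rwa [sub_add_sub_cancel] at this
      · rintro rfl
        apply ha
        linarith

lemma delta_ne (B : Bz (hn H) x (cji H z) D.Vn n) (S : Finset (Fin n)) :
    (D.toPD htop hz).pS B.v S ≠ 0 := (D.toPD htop hz).pS_ne B.li S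

include htop hz in
/-- The characters are orthogonal to the roots. -/
lemma char_root (hx : IsReg (hn H) x) (B : Bz (hn H) x (cji H z) D.Vn n) {k : Fin n}
    {S : Finset (Fin n)} (hS : ∀ i, i ∈ S ↔ B.T i - B.T k ∈ QL (hn H) x) {q : Matrix ι ι ℂ}
    (hq : q ∈ QL (hn H) x) : ((∑ j ∈ S, B.T j) * q).trace = 0 := by
  induction hq using AddSubgroup.closure_induction with
  | mem q hq =>
    obtain ⟨e, he, rfl⟩ := hq
    have heH := (isLA_hn H).star _ he.mem
    have hhe : br e eᴴ = nsq e • Rt e := by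
      rw [Rt, smul_smul, mul_inv_cancel₀ (nsq_pos he.ne).ne', one_smul]
    have h1 : br e eᴴ *ᵥ (D.toPD htop hz).pS B.v S = 0 := by
      rw [br, Matrix.sub_mulVec, ← Matrix.mulVec_mulVec, ← Matrix.mulVec_mulVec,
        D.delta_act htop hz hx B hS he.mem, D.delta_act htop hz hx B hS heH,
        Matrix.mulVec_smul, Matrix.mulVec_smul, D.delta_act htop hz hx B hS he.mem,
        D.delta_act htop hz hx B hS heH, smul_smul, smul_smul, mul_comm, sub_self]
    rw [hhe, Matrix.smul_mulVec, D.delta_act htop hz hx B hS (he.ct (isLA_hn H) hx).1,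
      smul_smul] at h1
    rcases smul_eq_zero.1 h1 with h2 | h2
    · exact (mul_eq_zero.1 h2).resolve_left (nsq_pos he.ne).ne'
    · exact absurd h2 (D.delta_ne htop hz B S)
  | zero => rw [Matrix.mul_zero, Matrix.trace_zero]
  | add a b _ _ ha hb => rw [Matrix.mul_add, Matrix.trace_add, ha, hb, add_zero]
  | neg a _ ha => rw [Matrix.mul_neg, Matrix.trace_neg, ha, neg_zero]

include htop hz in
/-- **Relations between the characters.** -/
lemma char_rel (hx : IsReg (hn H) x) (B : Bz (hn H) x (cji H z) D.Vn n)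
    {S : Fin n → Finset (Fin n)} (hS : ∀ k i, i ∈ S k ↔ B.T i - B.T k ∈ QL (hn H) x)
    (y : Fin n → ℕ) (hy : ∀ σ : ℂ ≃+* ℂ, ∑ k, (y k : ℂ) *
      ((∑ j ∈ S k, B.T j) * cji H (Ng H σ)).trace = 0) :
    ∑ k, (y k : ℂ) • ∑ j ∈ S k, B.T j = 0 := by
  let κ := Σ k : Fin n, Fin (y k)
  obtain ⟨p, hp⟩ : ∃ p : κ → ι → ℂ, p = fun k => (D.toPD htop hz).pS B.v (S k.1) := ⟨_, rfl⟩
  have hp0 : pt p ≠ 0 := pt_ne fun k => by rw [hp]; exact D.delta_ne htop hz B _
  have hact : ∀ w ∈ hn H, dk κ w *ᵥ pt p =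
      (∑ k, (y k : ℂ) * ((∑ j ∈ S k, B.T j) * w).trace) • pt p := by
    intro w hw
    have h1 := dk_pt_eig (κ := κ) (w := w) (p := p)
      (s := fun k => ((∑ j ∈ S k.1, B.T j) * w).trace) fun k => by
        rw [hp]
        exact D.delta_act htop hz hx B (hS k.1) hw
    rw [h1]
    congr 1
    rw [Fintype.sum_sigma]
    refine Finset.sum_congr rfl fun k _ => ?_
    change ∑ _ : Fin (y k), ((∑ j ∈ S k, B.T j) * w).trace = _
    rw [Finset.sum_const, Finset.card_univ, Fintype.card_fin, nsmul_eq_mul]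
  have hker : ∀ w ∈ ho H, dk κ w *ᵥ (kp κ (Mi H) *ᵥ pt p) = 0 := by
    intro w hw
    refine ho_of_fixT (fun g hg => fix_of_NgT (fun σ => ?_) hg) hw
    have hN : cji H (Ng H σ) ∈ hn H := by rw [mem_hn, cj_cji]; exact Ng_mem σ
    have h2 := hact _ hN
    rw [hy σ, zero_smul] at h2
    have h3 : dk κ (Ng H σ) * kp κ (Mi H) = kp κ (Mi H) * dk κ (cji H (Ng H σ)) := by
      have h4 := dk_cj_Mm (κ := κ) H (cji H (Ng H σ))
      have h5 : dk κ (cji H (Ng H σ)) * kp κ (Mm H) = kp κ (Mm H) * dk κ (Ng H σ) := by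
        rw [h4, cj_cji]
      calc dk κ (Ng H σ) * kp κ (Mi H) =
          (kp κ (Mi H) * kp κ (Mm H)) * dk κ (Ng H σ) * kp κ (Mi H) := by
            rw [← kp_mul, Mi_Mm, kp_one, Matrix.one_mul]
        _ = kp κ (Mi H) * (kp κ (Mm H) * dk κ (Ng H σ)) * kp κ (Mi H) := by
            simp only [Matrix.mul_assoc]
        _ = kp κ (Mi H) * dk κ (cji H (Ng H σ)) * (kp κ (Mm H) * kp κ (Mi H)) := by
            rw [← h5]; simp only [Matrix.mul_assoc]
        _ = _ := by rw [← kp_mul, Mm_Mi, kp_one, Matrix.mul_one]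
    rw [Matrix.mulVec_mulVec, h3, ← Matrix.mulVec_mulVec, h2, Matrix.mulVec_zero]
  refine ct_nondeg (isLA_hn H) hx.herm (Submodule.sum_mem _ fun k _ => Submodule.smul_mem _ _
    (Submodule.sum_mem _ fun i _ => (B.wt i).mem)) fun t ht => ?_
  have h1 := hact t ht.1
  have h2 := hker (cj H t) ht.1
  have h3 : dk κ t *ᵥ pt p = 0 := by
    have h4 := dk_cj_Mm (κ := κ) H t
    have h5 : pt p = kp κ (Mm H) *ᵥ (kp κ (Mi H) *ᵥ pt p) := by
      rw [Matrix.mulVec_mulVec, ← kp_mul, Mm_Mi, kp_one, Matrix.one_mulVec]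
    rw [h5, Matrix.mulVec_mulVec, h4, ← Matrix.mulVec_mulVec, h2, Matrix.mulVec_zero]
  rw [h3] at h1
  have h6 := (smul_eq_zero.1 h1.symm).resolve_right hp0
  rw [← h6, Finset.sum_mul, Matrix.trace_sum]
  refine Finset.sum_congr rfl fun k _ => ?_
  rw [Matrix.smul_mul, Matrix.trace_smul, smul_eq_mul]

include htop hz in
/-- The characters have small integral values on the generators. -/
lemma char_int (hN : Ng H (RingEquiv.refl ℂ) * Ng H (RingEquiv.refl ℂ) * cQ D.pr1 = cQ D.pr1)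
    (hx : IsReg (hn H) x) (B : Bz (hn H) x (cji H z) D.Vn n) {k : Fin n}
    {S : Finset (Fin n)} (hS : ∀ i, i ∈ S ↔ B.T i - B.T k ∈ QL (hn H) x) (σ : ℂ ≃+* ℂ) :
    ∃ a : ℤ, |a| ≤ S.card ∧ ((∑ j ∈ S, B.T j) * cji H (Ng H σ)).trace = a := by
  classical
  have hw : cji H (Ng H σ) ∈ hn H := by rw [mem_hn, cj_cji]; exact Ng_mem σ
  obtain ⟨w, hwe⟩ : ∃ w, w = cji H (Ng H σ) := ⟨_, rfl⟩
  rw [← hwe] at hw ⊢
  -- the square
  have hsq : ∀ v ∈ D.Vn, w *ᵥ (w *ᵥ v) = v := by
    intro v hv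
    have h1 : Ng H σ * Ng H σ * cQ D.pr1 = cQ D.pr1 := by
      have h2 := congrArg (fun M => M.map σ) hN
      simp only [map_mul', cQ_map] at h2
      rw [← Ng_map] at h2
      exact h2
    have h2 : w * w * cji H (cQ D.pr1) = cji H (cQ D.pr1) := by
      rw [hwe, ← cji_mul, ← cji_mul, h1]
    have h3 := congrArg (fun M => M *ᵥ v) h2
    simp only [← Matrix.mulVec_mulVec] at h3
    rwa [D.pr1n_Vn hv] at h3
  have htr := pS_tr (D.toPD htop hz) B S hw fun j hj i hi => D.stab_coset hx B hS hw hj hi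
  rw [D.delta_act htop hz hx B hS hw] at htr
  have htr2 := smul_left_injective ℂ (D.delta_ne htop hz B S) htr
  rw [htr2]
  let u : Fin n → D.Vn := fun j => ⟨w *ᵥ (B.v j : ι → ℂ), D.Vn_hn hw (B.v j).2⟩
  let E : Matrix S S ℂ := Matrix.of fun i j => B.bas.repr (u j) i
  have hE : E * E = 1 := by
    ext i j
    rw [Matrix.mul_apply, Matrix.one_apply]
    have h1 : B.v j = ∑ l : Fin n, B.bas.repr (u j) l • u l := by
      apply Subtype.ext
      have h2 : (u j : ι → ℂ) = ((∑ l : Fin n, B.bas.repr (u j) l • B.bas l : D.Vn) : ι → ℂ) := by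
        rw [B.bas.sum_repr]
      have h3 := hsq (B.v j) (B.v j).2
      change w *ᵥ (u j : ι → ℂ) = _ at h3
      rw [← h3, h2, Submodule.coe_sum, Matrix.mulVec_sum, Submodule.coe_sum]
      refine Finset.sum_congr rfl fun l _ => ?_
      rw [Submodule.coe_smul, Matrix.mulVec_smul, Submodule.coe_smul, B.bas_apply]
    have h2 : B.bas.repr (B.v j) i = ∑ l : S, E i l * E l j := by
      conv_lhs => rw [h1]
      rw [map_sum, Finsupp.finsetSum_apply]
      rw [← Finset.sum_subset (Finset.subset_univ S), ← Finset.sum_coe_sort]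
      · refine Finset.sum_congr rfl fun l _ => ?_
        rw [map_smul, Finsupp.smul_apply, smul_eq_mul, mul_comm]
        rfl
      · intro l _ hl
        have h3 : B.bas.repr (u j) l = 0 := D.stab_coset hx B hS hw j.2 hl
        rw [h3, zero_smul, map_zero]
        rfl
    rw [← h2, ← B.bas_apply, Module.Basis.repr_self, Finsupp.single_apply]
    by_cases hij : i = j
    · rw [if_pos hij, if_pos (by rw [hij])]
    · rw [if_neg hij, if_neg fun h => hij (Subtype.ext h.symm)]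
  obtain ⟨a, ha1, ha2⟩ := int_trace E hE
  refine ⟨a, ?_, ?_⟩
  · rwa [Fintype.card_coe] at ha1
  · rw [← ha2, Matrix.trace, ← Finset.sum_coe_sort S]
    rfl

end AData

end Pool.Agent.N996.FP
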