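import Pool.Agent.N996.FP.Lau

/-!
# The exterior powers of a Hodge structure
-/

set_option linter.unusedSectionVars false

namespace Pool.Agent.N996.FP

open Matrix Pool.Agent.N996.BP ComplexConjugate

variable {ι : Type} [Fintype ι] [LinearOrder ι] (H : HData ι)

/-- The bound of the weights. -/
def eW : ℕ := Fintype.card ι * H.w

lemma lau_l (S T : Finset ι) : IsLau (eW H) fun t => cm (H.l t) S T := by
  refine lau_cm (L := H.l) (fun i j => ⟨fun k => H.π k i j, fun t _ => ?_⟩) S T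
  beta_reduce
  rw [H.l_apply, Matrix.sum_apply]
  rfl

/-- The projectors. -/
noncomputable def eπ (k : ℤ) : Matrix (Finset ι) (Finset ι) ℂ :=
  Matrix.of fun S T => (lau_l H S T).choose k

lemma cm_l {t : ℂ} (ht : t ≠ 0) : cm (H.l t) = ∑ k ∈ ic (eW H), t ^ k • eπ H k := by
  ext S T
  have h1 := (lau_l H S T).choose_spec t ht
  beta_reduce at h1
  rw [Matrix.sum_apply, h1]
  rfl

lemma sum_ic_neg {M : Type*} [AddCommMonoid M] (W : ℕ) (f : ℤ → M) :
    ∑ k ∈ ic W, f (-k) = ∑ k ∈ ic W, f k := by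
  refine Finset.sum_nbij' (fun k => -k) (fun k => -k) ?_ ?_ ?_ ?_ ?_
  · intro a ha; rw [mem_ic] at *; omega
  · intro a ha; rw [mem_ic] at *; omega
  · intro a _; simp
  · intro a _; simp
  · intro a _; rfl

lemma eπ_one : ∑ k ∈ ic (eW H), eπ H k = 1 := by
  have h1 := cm_l H (one_ne_zero)
  rw [H.l_one, cm_one] at h1
  rw [h1]
  exact Finset.sum_congr rfl fun k _ => by rw [_root_.one_zpow, one_smul]

lemma eπ_mul {k l : ℤ} (hk : k ∈ ic (eW H)) (hl : l ∈ ic (eW H)) :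
    eπ H k * eπ H l = if k = l then eπ H k else 0 := by
  have h1 : ∀ t : ℂ, t ≠ 0 → eπ H k * ∑ l ∈ ic (eW H), t ^ l • eπ H l = t ^ k • eπ H k := by
    intro t ht
    refine lau_uniqueM (s := ic (eW H))
      (a := fun k => eπ H k * ∑ l ∈ ic (eW H), t ^ l • eπ H l) (b := fun k => t ^ k • eπ H k)
      (fun s hs => ?_) hk
    have h2 : cm (H.l s) * cm (H.l t) = cm (H.l (s * t)) := by rw [← cm_mul, H.l_mul]
    rw [cm_l H hs, cm_l H ht, cm_l H (mul_ne_zero hs ht), Finset.sum_mul] at h2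
    rw [← Finset.sum_congr rfl fun k _ => Matrix.smul_mul (s ^ k) (eπ H k) _, h2]
    exact Finset.sum_congr rfl fun k _ => by rw [mul_zpow, smul_smul]
  have h3 := lau_uniqueM (s := ic (eW H)) (a := fun l => eπ H k * eπ H l)
    (b := fun l => if k = l then eπ H k else 0) (fun t ht => by
      have h2 := h1 t ht
      rw [Finset.mul_sum] at h2
      rw [← Finset.sum_congr rfl fun l _ => Matrix.mul_smul (eπ H k) (t ^ l) _, h2,
        Finset.sum_eq_single k]
      · rw [if_pos rfl]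
      · intro l _ hl
        rw [if_neg (Ne.symm hl), smul_zero]
      · intro h; exact absurd hk h) hl
  exact h3

lemma cQ_cm (M : Matrix ι ι ℚ) : cQ (cm M) = cm (cQ M) :=
  (cm_map (Rat.castHom ℂ) M).symm

lemma eπ_Q {k : ℤ} (hk : k ∈ ic (eW H)) :
    (eπ H k)ᵀ * cQ (cm H.Qr) = cQ (cm H.Qr) * eπ H (-k) := by
  refine lau_uniqueM (s := ic (eW H)) (a := fun k => (eπ H k)ᵀ * cQ (cm H.Qr))
    (b := fun k => cQ (cm H.Qr) * eπ H (-k)) (fun t ht => ?_) hk
  have h1 : (cm (H.l t))ᵀ * cQ (cm H.Qr) = cQ (cm H.Qr) * cm (H.l t⁻¹) := by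
    rw [cQ_cm, ← cm_transpose, ← cm_mul, ← cm_mul, H.l_tr ht]
  rw [cm_l H ht, cm_l H (inv_ne_zero ht), Matrix.transpose_sum, Finset.sum_mul,
    Finset.mul_sum] at h1
  have h2 : ∑ k ∈ ic (eW H), t ^ k • ((eπ H k)ᵀ * cQ (cm H.Qr)) =
      ∑ k ∈ ic (eW H), (t ^ k • eπ H k)ᵀ * cQ (cm H.Qr) :=
    Finset.sum_congr rfl fun k _ => by rw [Matrix.transpose_smul, Matrix.smul_mul]
  rw [h2, h1, ← sum_ic_neg]
  refine Finset.sum_congr rfl fun k _ => ?_
  rw [Matrix.mul_smul, _root_.inv_zpow', neg_neg]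

lemma eπ_conj {k : ℤ} (hk : k ∈ ic (eW H)) : (eπ H k).map conj = eπ H (-k) := by
  refine lau_uniqueM (s := ic (eW H)) (a := fun k => (eπ H k).map conj)
    (b := fun k => eπ H (-k)) (fun s hs => ?_) hk
  obtain ⟨t, rfl⟩ : ∃ t : ℂ, s = conj t := ⟨conj s, (Complex.conj_conj s).symm⟩
  have ht : t ≠ 0 := by
    rintro rfl
    exact hs (map_zero _)
  have h1 : (cm (H.l t)).map conj = cm (H.l (conj t)⁻¹) := by
    have h2 := cm_map (starRingEnd ℂ) (H.l t)
    rw [← h2, H.l_conj ht]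
  rw [cm_l H ht, cm_l H (inv_ne_zero hs), ← sum_ic_neg (eW H) fun k =>
    (conj t)⁻¹ ^ k • eπ H k] at h1
  have h3 : (∑ k ∈ ic (eW H), t ^ k • eπ H k).map conj =
      ∑ k ∈ ic (eW H), (conj t) ^ k • (eπ H k).map conj := by
    ext i j
    rw [Matrix.map_apply, Matrix.sum_apply, map_sum, Matrix.sum_apply]
    refine Finset.sum_congr rfl fun k _ => ?_
    rw [Matrix.smul_apply, Matrix.smul_apply, smul_eq_mul, map_mul, map_zpow₀]
    rfl
  rw [← h3, h1]
  refine Finset.sum_congr rfl fun k _ => ?_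
  rw [_root_.inv_zpow', neg_neg]

/-- The Hodge structure on the exterior algebra. -/
noncomputable def eH : HData (Finset ι) where
  D :=
    { Q := cm H.D.Q
      Qi := cm H.D.Qi
      C := cm H.D.C
      Ci := cm H.D.Ci
      M := cm H.D.M
      Mi := cm H.D.Mi
      o := ∅
      hQ := by rw [← cm_mul, H.D.hQ, cm_one]
      hC := by rw [← cm_mul, H.D.hC, cm_one]
      hM := by rw [← cm_mul, H.D.hM, cm_one]
      hS := by rw [← cm_transpose, ← cm_mul, H.D.hS, cm_mul]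
      hCQ := by rw [← cm_transpose, ← cm_mul, ← cm_mul, H.D.hCQ]
      ho := by rw [cm_empty, if_pos rfl]
      hCo := fun S => cm_empty _ S }
  Qr := cm H.Qr
  Qir := cm H.Qir
  w := eW H
  π := eπ H
  hQr := by
    have h1 := cm_map (Rat.castHom ℝ) H.Qr
    change cm H.D.Q = _
    rw [H.hQr]
    exact h1
  hQir := by
    have h1 := cm_map (Rat.castHom ℝ) H.Qir
    change cm H.D.Qi = _
    rw [H.hQir]
    exact h1
  h1 := eπ_one H
  hmul k hk l hl := eπ_mul H hk hl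
  hπQ k hk := eπ_Q H hk
  hconj k hk := eπ_conj H hk
  hC := by
    have h1 := cm_map Complex.ofRealHom H.D.C
    have h2 : (cm H.D.C).map (fun x : ℝ => (x : ℂ)) = cm (H.l Complex.I) := by
      have h3 : H.D.C.map Complex.ofRealHom = H.l Complex.I := H.hC
      rw [h3] at h1
      exact h1.symm
    change (cm H.D.C).map (fun x : ℝ => (x : ℂ)) = _
    rw [h2, cm_l H Complex.I_ne_zero]
    rfl
  ho t ht S := by
    have h1 : lt (eW H) (eπ H) t = cm (H.l t) := (cm_l H ht).symm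
    change lt (eW H) (eπ H) t S ∅ = _
    rw [h1, cm_empty]

lemma eH_l {t : ℂ} (ht : t ≠ 0) : (eH H).l t = cm (H.l t) := (cm_l H ht).symm

lemma eH_o : (eH H).D.o = ∅ := rfl

lemma eH_Qr : (eH H).Qr = cm H.Qr := rfl

lemma eH_Qir : (eH H).Qir = cm H.Qir := rfl

end Pool.Agent.N996.FP
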