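import Pool.Agent.N996.BP.Kp

/-!
# Compound matrices
-/

set_option linter.unusedSectionVars false

namespace Pool.Agent.N996.FP

open Matrix Pool.Agent.N996.BP

variable {ι : Type} [Fintype ι] [LinearOrder ι] {R R' : Type*} [CommRing R] [CommRing R']

/-- The map from the exterior power to the tensor power. -/
def ta (ι : Type) [LinearOrder ι] (R : Type*) [CommRing R] (d : ℕ) :
    Matrix (Fin d → ι) (Finset ι) R :=
  Matrix.of fun w S => if h : S.card = d then
    Matrix.det (Matrix.of fun a b => if w a = S.orderEmbOfFin h b then (1 : R) else 0) else 0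

/-- The compound matrix. -/
def cm (M : Matrix ι ι R) : Matrix (Finset ι) (Finset ι) R :=
  Matrix.of fun S T => if h : S.card = T.card then
    Matrix.det (M.submatrix (S.orderEmbOfFin h) (T.orderEmbOfFin rfl)) else 0

lemma ta_apply {d : ℕ} (w : Fin d → ι) {S : Finset ι} (h : S.card = d) : ta ι R d w S =
    Matrix.det (Matrix.of fun a b => if w a = S.orderEmbOfFin h b then (1 : R) else 0) := by
  rw [ta, Matrix.of_apply, dif_pos h]

lemma ta_ne {d : ℕ} (w : Fin d → ι) {S : Finset ι} (h : S.card ≠ d) : ta ι R d w S = 0 := by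
  rw [ta, Matrix.of_apply, dif_neg h]

lemma cm_apply {M : Matrix ι ι R} {d : ℕ} {S T : Finset ι} (hS : S.card = d) (hT : T.card = d) :
    cm M S T = Matrix.det (M.submatrix (S.orderEmbOfFin hS) (T.orderEmbOfFin hT)) := by
  subst hT
  rw [cm, Matrix.of_apply, dif_pos hS]

lemma cm_ne {M : Matrix ι ι R} {S T : Finset ι} (h : S.card ≠ T.card) : cm M S T = 0 := by
  rw [cm, Matrix.of_apply, dif_neg h]

lemma ta_row {d : ℕ} {w : Fin d → ι} {S : Finset ι} {a : Fin d} (ha : w a ∉ S) :
    ta ι R d w S = 0 := by
  by_cases h : S.card = d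
  · rw [ta_apply w h]
    refine Matrix.det_eq_zero_of_row_eq_zero a fun b => ?_
    rw [Matrix.of_apply, if_neg]
    intro h1
    exact ha (h1 ▸ S.orderEmbOfFin_mem h b)
  · exact ta_ne w h

lemma ta_notInj {d : ℕ} {w : Fin d → ι} {S : Finset ι} {a a' : Fin d} (haa : a ≠ a')
    (hw : w a = w a') : ta ι R d w S = 0 := by
  by_cases h : S.card = d
  · rw [ta_apply w h]
    refine Matrix.det_zero_of_row_eq haa ?_
    funext b
    rw [Matrix.of_apply, Matrix.of_apply, hw]
  · exact ta_ne w h

/-- The value on the elements of a set in increasing order. -/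
lemma ta_emb (S T : Finset ι) : ta ι R S.card (S.orderEmbOfFin rfl) T = if S = T then 1 else 0 := by
  by_cases h : T.card = S.card
  · by_cases hST : S = T
    · subst hST
      rw [ta_apply _ rfl, if_pos rfl]
      have h1 : (Matrix.of fun a b : Fin S.card => if S.orderEmbOfFin rfl a =
          S.orderEmbOfFin rfl b then (1 : R) else 0) = 1 := by
        ext a b
        rw [Matrix.of_apply, Matrix.one_apply]
        refine if_congr ?_ rfl rfl
        exact (S.orderEmbOfFin rfl).injective.eq_iff
      rw [h1, Matrix.det_one]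
    · rw [if_neg hST]
      have h2 : ¬ S ⊆ T := fun h2 => hST (Finset.eq_of_subset_of_card_le h2 h.le)
      rw [Finset.not_subset] at h2
      obtain ⟨x, hx, hxT⟩ := h2
      obtain ⟨a, rfl⟩ : ∃ a, S.orderEmbOfFin rfl a = x := by
        have h3 := S.range_orderEmbOfFin rfl
        rw [Set.ext_iff] at h3
        exact (h3 x).2 hx
      exact ta_row hxT
  · rw [ta_ne _ h, if_neg]
    rintro rfl
    exact h rfl

/-- The matrix entries of the tensor power. -/
lemma kp_ta_apply (M : Matrix ι ι R) {d : ℕ} (w : Fin d → ι) {T : Finset ι} (hT : T.card = d) :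
    (kp (Fin d) M * ta ι R d) w T =
      Matrix.det (Matrix.of fun a b => M (w a) (T.orderEmbOfFin hT b)) := by
  rw [Matrix.mul_apply, ← Matrix.det_transpose, Matrix.det_apply']
  have h1 : ∀ v : Fin d → ι, kp (Fin d) M w v * ta ι R d v T =
      ∑ σ : Equiv.Perm (Fin d), ((Equiv.Perm.sign σ : ℤ) : R) *
        ∏ a, (M (w a) (v a) * if v a = T.orderEmbOfFin hT (σ a) then (1 : R) else 0) := by
    intro v
    rw [ta_apply v hT, ← Matrix.det_transpose, Matrix.det_apply', Finset.mul_sum]
    refine Finset.sum_congr rfl fun σ _ => ?_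
    rw [Finset.prod_mul_distrib, kp_apply]
    simp only [Matrix.transpose_apply, Matrix.of_apply]
    ring
  simp only [h1]
  rw [Finset.sum_comm]
  refine Finset.sum_congr rfl fun σ _ => ?_
  rw [← Finset.mul_sum]
  congr 1
  have h2 := Finset.prod_univ_sum (fun _ : Fin d => (Finset.univ : Finset ι))
    (fun a x => M (w a) x * if x = T.orderEmbOfFin hT (σ a) then (1 : R) else 0)
  rw [Fintype.piFinset_univ] at h2
  rw [← h2]
  refine Finset.prod_congr rfl fun a _ => ?_
  simp

/-- **The intertwining property.** -/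
lemma kp_ta (M : Matrix ι ι R) (d : ℕ) :
    kp (Fin d) M * ta ι R d = ta ι R d * cm M := by
  classical
  ext w T
  by_cases hT : T.card = d
  · rw [kp_ta_apply M w hT, Matrix.mul_apply]
    by_cases hw : Function.Injective w
    · obtain ⟨S, hS⟩ : ∃ S : Finset ι, S = Finset.univ.image w := ⟨_, rfl⟩
      have hSc : S.card = d := by
        rw [hS, Finset.card_image_of_injective _ hw, Finset.card_univ, Fintype.card_fin]
      have hwS : ∀ a, w a ∈ S := fun a => by
        rw [hS]; exact Finset.mem_image_of_mem _ (Finset.mem_univ a)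
      rw [Finset.sum_eq_single S]
      · -- the permutation
        let τ : Fin d → Fin d := fun a => (S.orderIsoOfFin hSc).symm ⟨w a, hwS a⟩
        have hτ : ∀ a, S.orderEmbOfFin hSc (τ a) = w a := by
          intro a
          change ((S.orderIsoOfFin hSc ((S.orderIsoOfFin hSc).symm ⟨w a, hwS a⟩) : S) : ι) = w a
          rw [OrderIso.apply_symm_apply]
        have hτi : Function.Injective τ := by
          intro a b hab
          apply hw
          rw [← hτ, ← hτ, hab]
        let σ : Equiv.Perm (Fin d) := Equiv.ofBijective τ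
          (Finite.injective_iff_bijective.1 hτi)
        have hσ : ∀ a, S.orderEmbOfFin hSc (σ a) = w a := hτ
        have h1 : ta ι R d w S = ((Equiv.Perm.sign σ : ℤ) : R) := by
          rw [ta_apply w hSc]
          have h2 : (Matrix.of fun a b => if w a = S.orderEmbOfFin hSc b then (1 : R) else 0) =
              (1 : Matrix (Fin d) (Fin d) R).submatrix σ id := by
            ext a b
            rw [Matrix.of_apply, Matrix.submatrix_apply, Matrix.one_apply, ← hσ]
            refine if_congr ?_ rfl rfl
            exact (S.orderEmbOfFin hSc).injective.eq_iff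
          rw [h2, Matrix.det_permute, Matrix.det_one, mul_one]
        have h3 : (Matrix.of fun a b => M (w a) (T.orderEmbOfFin hT b)) =
            (M.submatrix (S.orderEmbOfFin hSc) (T.orderEmbOfFin hT)).submatrix σ id := by
          ext a b
          rw [Matrix.of_apply, Matrix.submatrix_apply, Matrix.submatrix_apply, hσ]
          rfl
        rw [h1, cm_apply hSc hT, h3, Matrix.det_permute]
      · intro S' _ hS'
        by_cases hc : S'.card = d
        · have h2 : ¬ S ⊆ S' := fun h2 => hS' (Finset.eq_of_subset_of_card_le h2 (by omega)).symm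
          rw [Finset.not_subset] at h2
          obtain ⟨x, hx, hxT⟩ := h2
          rw [hS, Finset.mem_image] at hx
          obtain ⟨a, -, rfl⟩ := hx
          rw [ta_row hxT, zero_mul]
        · rw [ta_ne w hc, zero_mul]
      · intro h; exact absurd (Finset.mem_univ _) h
    · rw [Function.Injective] at hw
      push Not at hw
      obtain ⟨a, a', h1, h2⟩ := hw
      rw [Matrix.det_zero_of_row_eq h2 (by
        funext b
        rw [Matrix.of_apply, Matrix.of_apply, h1]), Finset.sum_eq_zero]
      intro S _
      rw [ta_notInj h2 h1, zero_mul]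
  · rw [Matrix.mul_apply, Matrix.mul_apply, Finset.sum_eq_zero, Finset.sum_eq_zero]
    · intro S _
      by_cases hS : S.card = d
      · rw [cm_ne (fun h => hT (h ▸ hS)), mul_zero]
      · rw [ta_ne w hS, zero_mul]
    · intro v _
      rw [ta_ne v hT, mul_zero]

lemma ta_mul_emb (S T : Finset ι) (N : Matrix (Finset ι) (Finset ι) R) :
    (ta ι R S.card * N) (S.orderEmbOfFin rfl) T = N S T := by
  rw [Matrix.mul_apply, Finset.sum_eq_single S]
  · rw [ta_emb, if_pos rfl, one_mul]
  · intro S' _ h
    rw [ta_emb, if_neg (Ne.symm h), zero_mul]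
  · intro h; exact absurd (Finset.mem_univ _) h

lemma cm_mul (M N : Matrix ι ι R) : cm (M * N) = cm M * cm N := by
  ext S T
  rw [← ta_mul_emb S T (cm (M * N)), ← ta_mul_emb S T (cm M * cm N), ← kp_ta, kp_mul,
    Matrix.mul_assoc, kp_ta, ← Matrix.mul_assoc, kp_ta, Matrix.mul_assoc]

lemma cm_one : cm (1 : Matrix ι ι R) = 1 := by
  ext S T
  rw [← ta_mul_emb S T (cm 1), ← kp_ta, kp_one, Matrix.one_mul, ta_emb, Matrix.one_apply]

lemma cm_transpose (M : Matrix ι ι R) : cm Mᵀ = (cm M)ᵀ := by
  ext S T
  rw [Matrix.transpose_apply]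
  by_cases h : T.card = S.card
  · rw [cm_apply rfl h, cm_apply h rfl, ← Matrix.det_transpose]
    rfl
  · rw [cm_ne (Ne.symm h), cm_ne h]

lemma cm_map (f : R →+* R') (M : Matrix ι ι R) : cm (M.map f) = (cm M).map f := by
  ext S T
  rw [Matrix.map_apply]
  by_cases h : T.card = S.card
  · rw [cm_apply rfl h, cm_apply rfl h, RingHom.map_det]
    rfl
  · rw [cm_ne (Ne.symm h), cm_ne (Ne.symm h), map_zero]

lemma ta_map (f : R →+* R') (d : ℕ) : (ta ι R d : Matrix (Fin d → ι) (Finset ι) R).map f =
    ta ι R' d := by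
  ext w S
  rw [Matrix.map_apply]
  by_cases h : S.card = d
  · rw [ta_apply w h, ta_apply w h, RingHom.map_det]
    congr 1
    ext a b
    rw [RingHom.mapMatrix_apply, Matrix.map_apply, Matrix.of_apply, Matrix.of_apply]
    split_ifs
    · exact map_one f
    · exact map_zero f
  · rw [ta_ne w h, ta_ne w h, map_zero]

lemma cm_empty (M : Matrix ι ι R) (S : Finset ι) : cm M S ∅ = if S = ∅ then 1 else 0 := by
  by_cases h : S = ∅
  · subst h
    rw [cm_apply (d := 0) rfl rfl, if_pos rfl, Matrix.det_isEmpty]
  · rw [cm_ne, if_neg h]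
    rw [Finset.card_empty]
    exact fun h1 => h (Finset.card_eq_zero.1 h1)

lemma cm_single (M : Matrix ι ι R) (i j : ι) : cm M {i} {j} = M i j := by
  rw [cm_apply (d := 1) (Finset.card_singleton i) (Finset.card_singleton j), Matrix.det_fin_one,
    Matrix.submatrix_apply, Finset.orderEmbOfFin_singleton, Finset.orderEmbOfFin_singleton]

end Pool.Agent.N996.FP
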