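import Pool.Agent.N996.FP.Mc

/-!
# The core theorem without invariance
-/

set_option linter.unusedSectionVars false

namespace Pool.Agent.N996.FP

open Matrix Pool.Agent.N996.BP ComplexConjugate

variable {ι : Type} [Fintype ι] [DecidableEq ι] {H : HData ι}
  {A : Type} [Ring A] [Algebra ℂ A]
  {B : ∀ n : ℕ, Submodule ℚ ((Fin (n + 1) → ι) → ℚ)}

/-- **The core theorem.** -/
theorem coreM (D : AData H A) (htop : ∃ v : Fin (Module.finrank ℂ D.V) → D.V, pL D.L v ≠ 0)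
    {N M : ℕ} (h4 : 4 ≤ N) (hMN : 2 * M ≤ N)
    (hMM : ∀ (z : Matrix ι ι ℂ), D.IsCI z → ∀ (x : Matrix ι ι ℂ) (n : ℕ)
      (B : Bz (hn H) x (cji H z) D.Vn n), IsReg (hn H) x → ∀ i, ∃ r : ℕ, 0 < r ∧ r ≤ M ∧
        r • B.T i ∈ QL (hn H) x)
    (hA : RFam H B) (hN : ∀ n, n + 1 ≤ N → BB H (Fin (n + 1)) ≤ B n) (n : ℕ)
    (h : (Fin (n + 1) → ι) → ℚ) (hh : h ∈ BB H (Fin (n + 1))) : h ∈ B n := by
  classical
  have h2 : 2 ≤ N := by omega
  have hfam := hA.isFam hN h2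
  have h1 : (fun i => (h i : ℝ)) ∈ AR B (Fin (n + 1)) := by
    refine mem_of_fixed (κ := Fin (n + 1)) hfam _ ?_ ?_
    · have h1 := hh Complex.I Complex.I_ne_zero
      rw [← cR_C, kp_cR] at h1
      ext i
      have h2 := congrFun h1 i
      rw [Matrix.mulVec, dotProduct] at h2 ⊢
      have h3 : ((∑ j, kp (Fin (n + 1)) H.D.C i j * (h j : ℝ) : ℝ) : ℂ) = (((h i : ℝ)) : ℂ) := by
        push_cast
        exact h2
      exact_mod_cast h3
    · intro g hg
      have hfix : ∀ (κ : Type) [Fintype κ] [DecidableEq κ], Fintype.card κ ≤ N →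
          Fixes H g κ := fun κ _ _ hκ a ha => by
        have h4 := hg κ _ (AR_of (hA.of_small hN hκ ha))
        simp only [Complex.ofReal_ratCast] at h4
        exact h4
      obtain ⟨q, hq, z, hz, hgq⟩ := D.exists_qz htop (p := g) fun κ _ _ hκ =>
        hfix κ (hκ.trans h4)
      obtain ⟨q', hq', hqq⟩ := So_ex_inv hq
      have hzg : z = q' * g := by
        rw [hgq, ← Matrix.mul_assoc, mul_eq_one_comm.1 hqq, Matrix.one_mul]
      have hfixz : ∀ (κ : Type) [Fintype κ] [DecidableEq κ], Fintype.card κ ≤ N →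
          Fixes H z κ := fun κ _ _ hκ a ha => by
        rw [hzg, kp_mul, ← Matrix.mulVec_mulVec, hfix κ hκ a ha, hq' κ a ha]
      obtain ⟨z', -, hzz⟩ := Fixes.inv (hfixz (Unit ⊕ Unit) (by simp; omega))
      have hzS : z ∈ So H := D.ci_So htop hz (mul_eq_one_comm.1 hzz) (M := M)
        (hfixz _ (by rw [Fintype.card_sum, Fintype.card_fin]; omega))
        fun x n B hx s _ hirr i p _ hp => by
          obtain ⟨r, hr1, hr2, hr3⟩ := hMM z hz x n B hx i
          exact B.count_le hirr hr1 hr2 hr3 p hp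
      simp only [Complex.ofReal_ratCast]
      change kp (Fin (n + 1)) g *ᵥ ca h = ca h
      rw [hgq, kp_mul, ← Matrix.mulVec_mulVec, hzS _ h hh, hq _ h hh]
  rw [← hA.mem_iff]
  exact BP.descent _ h1

/-- Self-adjoint centres. -/
theorem core_adj (D : AData H A) (htop : ∃ v : Fin (Module.finrank ℂ D.V) → D.V, pL D.L v ≠ 0)
    (hR : ∀ x, D.IsCE x → cQ x * cQ H.Qir = cQ H.Qir * (cQ x)ᵀ)
    (hA : RFam H B) (hN : ∀ n, n + 1 ≤ 4 → BB H (Fin (n + 1)) ≤ B n) (n : ℕ)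
    (h : (Fin (n + 1) → ι) → ℚ) (hh : h ∈ BB H (Fin (n + 1))) : h ∈ B n :=
  coreM D htop (N := 4) (M := 2) le_rfl (by norm_num)
    (fun _ _ _ _ B hx i => ⟨2, two_pos, le_rfl, D.two_mem hR hx B i⟩) hA hN n h hh

/-- The trace condition. -/
theorem core_tr (D : AData H A) (htop : ∃ v : Fin (Module.finrank ℂ D.V) → D.V, pL D.L v ≠ 0)
    (hP : cQ D.pr1 * cQ H.Qir = cQ H.Qir * (cQ D.pr1)ᵀ)
    (hT : ∀ x, D.IsCE x → (cQ x * Ng H (RingEquiv.refl ℂ)).trace = 0) {g : ℕ}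
    (hg : Module.finrank ℂ D.V = 2 * g)
    (hA : RFam H B) (hN : ∀ n, n + 1 ≤ max 4 (2 * g) → BB H (Fin (n + 1)) ≤ B n) (n : ℕ)
    (h : (Fin (n + 1) → ι) → ℚ) (hh : h ∈ BB H (Fin (n + 1))) : h ∈ B n := by
  classical
  refine coreM D htop (N := max 4 (2 * g)) (M := max 2 g) (le_max_left _ _) (by omega)
    (fun z hz x m B hx i => ?_) hA hN n h hh
  by_cases h2 : 2 • B.T i ∈ QL (hn H) x
  · exact ⟨2, two_pos, le_max_left _ _, h2⟩
  let S : Finset (Fin m) := Finset.univ.filter fun j => B.T j - B.T i ∈ QL (hn H) x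
  have hS : ∀ j, j ∈ S ↔ B.T j - B.T i ∈ QL (hn H) x := fun j => by simp [S]
  have hi : i ∈ S := (hS i).2 (by rw [sub_self]; exact (QL _ x).zero_mem)
  have hm : m = 2 * g := by
    have h3 := Module.finrank_eq_card_basis B.bas
    rw [Fintype.card_fin] at h3
    rw [← h3, ← hg]
    exact D.eV.finrank_eq.symm
  have hc := D.half hP hx B i h2 S fun j hj => (hS j).1 hj
  refine ⟨S.card, Finset.card_pos.2 ⟨i, hi⟩, le_trans (by omega) (le_max_right _ _), ?_⟩
  have h3 := D.tot_coset htop hz B hT hx i S hS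
  have h4 : ∑ j ∈ S, (B.T j - B.T i) ∈ QL (hn H) x :=
    (QL (hn H) x).sum_mem fun j hj => (hS j).1 hj
  rw [Finset.sum_sub_distrib, h3, Finset.sum_const, zero_sub] at h4
  exact (QL (hn H) x).neg_mem_iff.1 h4

end Pool.Agent.N996.FP
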