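import Pool.Agent.N996.FP.Cst

/-!
# Projectors to the cosets of the root lattice
-/

set_option linter.unusedSectionVars false

namespace Pool.Agent.N996.FP

open Matrix Pool.Agent.N996.BP ComplexConjugate ComplexOrder

section proj

variable {ι : Type} [Fintype ι] [DecidableEq ι] {h : Submodule ℂ (Matrix ι ι ℂ)}
  {x : Matrix ι ι ℂ}

lemma fn_eig {U : Matrix ι ι ℂ} (hU : Uᴴ * U = 1) (hU' : U * Uᴴ = 1) (c : ι → ℝ) (f : ℝ → ℂ)
    {v : ι → ℂ} {d : ℝ} (hd : fn U (fun i => (c i : ℂ)) *ᵥ v = (d : ℂ) • v) :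
    fn U (fun i => f (c i)) *ᵥ v = f d • v := by
  obtain ⟨w, hw⟩ : ∃ w, w = Uᴴ *ᵥ v := ⟨_, rfl⟩
  have hv : v = U *ᵥ w := by rw [hw, Matrix.mulVec_mulVec, hU', Matrix.one_mulVec]
  have h1 : ∀ φ : ι → ℂ, fn U φ *ᵥ v = U *ᵥ (diagonal φ *ᵥ w) := by
    intro φ
    rw [fn, hw, Matrix.mulVec_mulVec, Matrix.mulVec_mulVec, Matrix.mul_assoc]
  have h2 : diagonal (fun i => (c i : ℂ)) *ᵥ w = (d : ℂ) • w := by
    rw [h1] at hd
    have h3 := congrArg (fun u => Uᴴ *ᵥ u) hd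
    simp only [Matrix.mulVec_smul] at h3
    rw [← hw, Matrix.mulVec_mulVec, hU, Matrix.one_mulVec] at h3
    exact h3
  rw [h1]
  have h4 : diagonal (fun i => f (c i)) *ᵥ w = f d • w := by
    funext i
    rw [Matrix.mulVec_diagonal, Pi.smul_apply, smul_eq_mul]
    have h3 := congrFun h2 i
    rw [Matrix.mulVec_diagonal, Pi.smul_apply, smul_eq_mul] at h3
    by_cases hwi : w i = 0
    · rw [hwi, mul_zero, mul_zero]
    · have h5 := mul_right_cancel₀ hwi h3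
      rw [Complex.ofReal_injective h5]
  rw [h4, Matrix.mulVec_smul, ← hv]

/-- **The projectors to the cosets.** -/
theorem exists_coset (hh : IsLA h) (hx : IsReg h x) (T₀ : Matrix ι ι ℂ) :
    ∃ y : Matrix ι ι ℂ, (∀ g, x * g = g * x → y * g = g * y) ∧ (∀ w ∈ h, y * w = w * y) ∧
      ∀ (v : ι → ℂ) (T : Matrix ι ι ℂ), v ≠ 0 → IsWt h x v T →
        (T - T₀ ∈ QL h x → y *ᵥ v = v) ∧ (T - T₀ ∉ QL h x → y *ᵥ v = 0) := by
  classical
  obtain ⟨U, c, hU, hU', hxe⟩ := exists_diag hx.herm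
  have hxe' : fn U (fun i => (c i : ℂ)) = x := hxe.symm
  let χ : ℝ → ℂ := fun d => if ∃ (v : ι → ℂ) (T : Matrix ι ι ℂ), v ≠ 0 ∧ IsWt h x v T ∧
    x *ᵥ v = (d : ℂ) • v ∧ T - T₀ ∈ QL h x then 1 else 0
  obtain ⟨y, hy⟩ : ∃ y, y = fn U (fun i => χ (c i)) := ⟨_, rfl⟩
  have hye : ∀ (v : ι → ℂ) (d : ℝ), x *ᵥ v = (d : ℂ) • v → y *ᵥ v = χ d • v := by
    intro v d hd
    rw [hy]
    exact fn_eig hU hU' c χ (by rw [hxe']; exact hd)
  have hxx : x ∈ ct h x := ⟨hx.mem, rfl⟩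
  have hwx : ∀ (v : ι → ℂ) (T : Matrix ι ι ℂ), IsWt h x v T →
      x *ᵥ v = ((ip T x : ℝ) : ℂ) • v := by
    intro v T hT
    rw [hT.val x hxx, tr_ip hT.herm hx.herm]
  have hval : ∀ (v : ι → ℂ) (T : Matrix ι ι ℂ), v ≠ 0 → IsWt h x v T →
      y *ᵥ v = (if T - T₀ ∈ QL h x then (1 : ℂ) else 0) • v := by
    intro v T hv hT
    have h1 := hwx v T hT
    rw [hye v _ h1]
    congr 1
    simp only [χ]
    by_cases h2 : T - T₀ ∈ QL h x
    · rw [if_pos h2, if_pos ⟨v, T, hv, hT, h1, h2⟩]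
    · rw [if_neg h2, if_neg]
      rintro ⟨v', T', hv', hT', h3, h4⟩
      have h5 : T = T' := by
        refine wt_eq hh hx hv hv' hT hT' ?_
        rw [tr_ip hT.herm hx.herm, tr_ip hT'.herm hx.herm]
        have h6 := hwx v' T' hT'
        rw [h3, ← sub_eq_zero, ← sub_smul] at h6
        rcases smul_eq_zero.1 h6 with h7 | h7
        · exact sub_eq_zero.1 h7
        · exact absurd h7 hv'
      rw [h5] at h2
      exact h2 h4
  have hcomm : ∀ g, x * g = g * x → y * g = g * y := by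
    intro g hg
    apply Matrix.mulVec_injective
    funext v
    refine vec_ind hx.herm (W := ⊤) (fun _ _ => Submodule.mem_top)
      (P := fun v => (y * g) *ᵥ v = (g * y) *ᵥ v) ?_ ?_ ?_ (Submodule.mem_top (x := v))
    · rw [Matrix.mulVec_zero, Matrix.mulVec_zero]
    · intro a b ha hb
      rw [Matrix.mulVec_add, Matrix.mulVec_add, ha, hb]
    · intro d v _ hd
      have h1 : x *ᵥ (g *ᵥ v) = (d : ℂ) • (g *ᵥ v) := by
        rw [Matrix.mulVec_mulVec, hg, ← Matrix.mulVec_mulVec, hd, Matrix.mulVec_smul]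
      rw [← Matrix.mulVec_mulVec, ← Matrix.mulVec_mulVec, hye _ d h1, hye _ d hd,
        Matrix.mulVec_smul]
  refine ⟨y, hcomm, fun w hw => ?_, fun v T hv hT => ?_⟩
  · refine ad_ind hx.herm (h := h) (fun z hz => hh.lie x hx.mem z hz)
      (P := fun w => y * w = w * y) ?_ ?_ ?_ hw
    · rw [Matrix.mul_zero, Matrix.zero_mul]
    · intro a b ha hb
      rw [Matrix.mul_add, Matrix.add_mul, ha, hb]
    · intro a w hw hwa
      by_cases ha : a = 0
      · subst ha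
        refine hcomm w ?_
        rw [Complex.ofReal_zero, zero_smul, sub_eq_zero] at hwa
        exact hwa
      by_cases hw0 : w = 0
      · rw [hw0, Matrix.mul_zero, Matrix.zero_mul]
      have hr : IsRV h x w := ⟨hw, hw0, a, ha, hwa⟩
      apply Matrix.mulVec_injective
      funext v
      refine vec_ind hx.herm (W := ⊤) (fun _ _ => Submodule.mem_top)
        (P := fun v => (y * w) *ᵥ v = (w * y) *ᵥ v) ?_ ?_ ?_ (Submodule.mem_top (x := v))
      · rw [Matrix.mulVec_zero, Matrix.mulVec_zero]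
      · intro a b ha hb
        rw [Matrix.mulVec_add, Matrix.mulVec_add, ha, hb]
      · intro d v _ hd
        rw [← Matrix.mulVec_mulVec, ← Matrix.mulVec_mulVec]
        by_cases hv0 : v = 0
        · rw [hv0]; simp only [Matrix.mulVec_zero]
        obtain ⟨T, hT⟩ := exists_wt hh hx hv0 hd
        rw [hval v T hv0 hT, Matrix.mulVec_smul]
        by_cases hwv : w *ᵥ v = 0
        · rw [hwv, Matrix.mulVec_zero, smul_zero]
        have hT2 : IsWt h x (w *ᵥ v) (T + Rt w) := by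
          refine ⟨(ct h x).add_mem hT.mem (hr.ct hh hx), ?_, fun t ht => ?_⟩
          · rw [Matrix.conjTranspose_add, hT.herm, hr.herm hh hx]
          · have h6 := hr.val hh hx ht
            have h7 : t * w = (Rt w * t).trace • w + w * t := by rw [← h6, br]; abel
            rw [Matrix.mulVec_mulVec, h7, Matrix.add_mulVec, ← Matrix.mulVec_mulVec, hT.val t ht,
              Matrix.smul_mulVec, Matrix.mulVec_smul, Matrix.add_mul, Matrix.trace_add,
              ← add_smul, add_comm]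
        rw [hval _ _ hwv hT2]
        congr 1
        have h3 : T + Rt w - T₀ ∈ QL h x ↔ T - T₀ ∈ QL h x := by
          rw [add_sub_right_comm]
          exact AddSubgroup.add_mem_cancel_right _ (Rt_mem_QL hr)
        simp only [h3]
  · have h1 := hval v T hv hT
    refine ⟨fun h2 => ?_, fun h2 => ?_⟩
    · rw [h1, if_pos h2, one_smul]
    · rw [h1, if_neg h2, zero_smul]

end proj

variable {ι : Type} [Fintype ι] [DecidableEq ι] {H : HData ι}
  {A : Type} [Ring A] [Algebra ℂ A]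

/-- The form in orthonormal coordinates. -/
noncomputable def qf (H : HData ι) (u v : ι → ℂ) : ℂ :=
  (Mi H *ᵥ u) ⬝ᵥ (cQ H.Qr *ᵥ (Mi H *ᵥ v))

lemma Qr_of_Qir {Y Z : Matrix ι ι ℂ} (hY : Y * cQ H.Qir = cQ H.Qir * Z) :
    cQ H.Qr * Y = Z * cQ H.Qr := by
  have hQQ : cQ H.Qr * cQ H.Qir = 1 := by rw [← cQ_mul, H.Qr_Qir, cQ_one]
  have hQQ' : cQ H.Qir * cQ H.Qr = 1 := mul_eq_one_comm.1 hQQ
  calc cQ H.Qr * Y = cQ H.Qr * (Y * cQ H.Qir) * cQ H.Qr := by
        rw [Matrix.mul_assoc, Matrix.mul_assoc Y, hQQ', Matrix.mul_one]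
    _ = (cQ H.Qr * cQ H.Qir) * Z * cQ H.Qr := by rw [hY]; simp only [Matrix.mul_assoc]
    _ = _ := by rw [hQQ, Matrix.one_mul]

lemma qf_adj {y : Matrix ι ι ℂ} (hY : cj H y * cQ H.Qir = cQ H.Qir * (cj H y)ᵀ)
    (u v : ι → ℂ) : qf H (y *ᵥ u) v = qf H u (y *ᵥ v) := by
  rw [qf, qf, AData.Mi_mulVec, AData.Mi_mulVec, Matrix.mulVec_mulVec _ (cQ H.Qr) (cj H y),
    Qr_of_Qir hY,
    ← Matrix.mulVec_mulVec, Matrix.dotProduct_mulVec _ (cj H y)ᵀ, Matrix.vecMul_transpose]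

lemma qf_skew {w : Matrix ι ι ℂ} (hw : w ∈ hn H) (u v : ι → ℂ) :
    qf H (w *ᵥ u) v = -qf H u (w *ᵥ v) := by
  have h1 := ho_skew (mem_hn H |>.1 hw)
  have h2 : cj H w * cQ H.Qir = cQ H.Qir * (-(cj H w)ᵀ) := by
    rw [Matrix.mul_neg, eq_neg_iff_add_eq_zero]
    exact h1
  rw [qf, qf, AData.Mi_mulVec, AData.Mi_mulVec, Matrix.mulVec_mulVec _ (cQ H.Qr) (cj H w),
    Qr_of_Qir h2,
    ← Matrix.mulVec_mulVec, Matrix.neg_mulVec, dotProduct_neg, neg_neg,
    Matrix.dotProduct_mulVec _ (cj H w)ᵀ, Matrix.vecMul_transpose]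

lemma qf_smul_left (c : ℂ) (u v : ι → ℂ) : qf H (c • u) v = c * qf H u v := by
  rw [qf, qf, Matrix.mulVec_smul, smul_dotProduct, smul_eq_mul]

lemma qf_smul_right (c : ℂ) (u v : ι → ℂ) : qf H u (c • v) = c * qf H u v := by
  rw [qf, qf, Matrix.mulVec_smul, Matrix.mulVec_smul, dotProduct_smul, smul_eq_mul]

lemma qf_zero_left (v : ι → ℂ) : qf H 0 v = 0 := by
  rw [qf, Matrix.mulVec_zero, zero_dotProduct]

lemma qf_add_left (u u' v : ι → ℂ) : qf H (u + u') v = qf H u v + qf H u' v := by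
  rw [qf, qf, qf, Matrix.mulVec_add, add_dotProduct]

lemma qf_add_right (u v v' : ι → ℂ) : qf H u (v + v') = qf H u v + qf H u v' := by
  rw [qf, qf, qf, Matrix.mulVec_add, Matrix.mulVec_add, dotProduct_add]

lemma qf_zero_right (v : ι → ℂ) : qf H v 0 = 0 := by
  rw [qf, Matrix.mulVec_zero, Matrix.mulVec_zero, dotProduct_zero]

lemma qf_nondeg {v : ι → ℂ} (h0 : ∀ u, qf H u v = 0) : v = 0 := by
  have hQQ : cQ H.Qr * cQ H.Qir = 1 := by rw [← cQ_mul, H.Qr_Qir, cQ_one]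
  have hQQ' : cQ H.Qir * cQ H.Qr = 1 := mul_eq_one_comm.1 hQQ
  have h1 : cQ H.Qr *ᵥ (Mi H *ᵥ v) = 0 := by
    rw [← dotProduct_self_star_eq_zero]
    have h2 := h0 (Mm H *ᵥ star (cQ H.Qr *ᵥ (Mi H *ᵥ v)))
    rw [qf, Matrix.mulVec_mulVec, Mi_Mm, Matrix.one_mulVec] at h2
    rw [dotProduct_comm]
    exact h2
  have h2 := congrArg (fun w => Mm H *ᵥ (cQ H.Qir *ᵥ w)) h1
  simp only [Matrix.mulVec_mulVec, Matrix.mulVec_zero] at h2
  rw [← Matrix.mul_assoc (cQ H.Qir), hQQ', Matrix.one_mul, Mm_Mi, Matrix.one_mulVec] at h2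
  exact h2

end Pool.Agent.N996.FP
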