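import Pool.Agent.N996.FP.Fin
import Pool.Agent.N996.FP.Alg3

/-!
# Central isometries which fix all Hodge classes
-/

set_option linter.unusedSectionVars false

namespace Pool.Agent.N996.FP

open Matrix Pool.Agent.N996.BP ComplexConjugate

variable {ι : Type} [Fintype ι] [DecidableEq ι] {H : HData ι}
  {A : Type} [Ring A] [Algebra ℂ A]

/-- Matrices commuting with the group commute with the Lie algebra. -/
lemma ho_of_GG {z : Matrix ι ι ℂ} (hz : ∀ g ∈ GG H, z * g = g * z) {w : Matrix ι ι ℂ}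
    (hw : w ∈ ho H) : z * w = w * z := by
  have h1 := comm_span hz
  clear hz
  induction h1 using Submodule.span_induction with
  | mem x hx =>
    obtain ⟨y, hy, rfl⟩ := hx
    exact (hy.comm_ho hw).symm
  | zero => rw [Matrix.zero_mul, Matrix.mul_zero]
  | add a b _ _ ha hb => rw [Matrix.add_mul, Matrix.mul_add, ha, hb]
  | smul c a _ ha => rw [Matrix.smul_mul, Matrix.mul_smul, ha]

/-- Matrices in the centre of the commutant. -/
structure IsZ (H : HData ι) (z : Matrix ι ι ℂ) : Prop where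
  comm : ∀ w ∈ hn H, z * w = w * z
  cen : ∀ y : Matrix ι ι ℂ, (∀ w ∈ hn H, y * w = w * y) → z * y = y * z

lemma isZ_of {z : Matrix ι ι ℂ} (h1 : ∀ g ∈ GG H, z * g = g * z)
    (h2 : ∀ x : Matrix ι ι ℚ, IsHE H x → z * cQ x = cQ x * z) : IsZ H (cji H z) where
  comm w hw := by
    have h3 := ho_of_GG h1 (mem_hn H |>.1 hw)
    have h4 := congrArg (cji H) h3
    rwa [cji_mul, cji_mul, cji_cj] at h4
  cen y hy := by
    have h3 : ∀ w ∈ ho H, cj H y * w = w * cj H y := by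
      intro w hw
      have h4 := hy (cji H w) (by rw [mem_hn, cj_cji]; exact hw)
      have h5 := congrArg (cj H) h4
      rwa [cj_mul, cj_mul, cj_cji] at h5
    have h4 := comm_span fun g hg => comm_GG h3 hg
    have h5 : z * cj H y = cj H y * z := by
      have key : ∀ u ∈ Submodule.span ℂ (cQ '' {x | IsHE H x}), z * u = u * z := by
        intro u hu
        induction hu using Submodule.span_induction with
        | mem x hx =>
          obtain ⟨y, hy, rfl⟩ := hx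
          exact h2 y hy
        | zero => rw [Matrix.zero_mul, Matrix.mul_zero]
        | add a b _ _ ha hb => rw [Matrix.add_mul, Matrix.mul_add, ha, hb]
        | smul c a _ ha => rw [Matrix.smul_mul, Matrix.mul_smul, ha]
      exact key _ h4
    have h6 := congrArg (cji H) h5
    rwa [cji_mul, cji_mul, cji_cj] at h6

lemma IsZ.star {z : Matrix ι ι ℂ} (hz : IsZ H z) : IsZ H zᴴ where
  comm w hw := by
    have h1 := congrArg conjTranspose (hz.comm _ ((isLA_hn H).star w hw))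
    rw [Matrix.conjTranspose_mul, Matrix.conjTranspose_mul,
      Matrix.conjTranspose_conjTranspose] at h1
    exact h1.symm
  cen y hy := by
    have h1 := congrArg conjTranspose (hz.cen yᴴ fun w hw => by
      have h2 := congrArg conjTranspose (hy _ ((isLA_hn H).star w hw))
      rw [Matrix.conjTranspose_mul, Matrix.conjTranspose_mul,
        Matrix.conjTranspose_conjTranspose] at h2
      exact h2.symm)
    rw [Matrix.conjTranspose_mul, Matrix.conjTranspose_mul,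
      Matrix.conjTranspose_conjTranspose] at h1
    exact h1.symm

lemma IsZ.normal {z : Matrix ι ι ℂ} (hz : IsZ H z) : z * zᴴ = zᴴ * z :=
  hz.cen _ hz.star.comm

/-- Elements of the centre of the commutant in the original coordinates. -/
lemma IsZ.comm_GG {z : Matrix ι ι ℂ} (hz : IsZ H z) : ∀ g ∈ GG H, cj H z * g = g * cj H z := by
  intro g hg
  refine FP.comm_GG (fun w hw => ?_) hg
  have h4 := hz.comm (cji H w) (by rw [mem_hn, cj_cji]; exact hw)
  have h5 := congrArg (cj H) h4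
  rwa [cj_mul, cj_mul, cj_cji] at h5

lemma IsZ.comm_HE {z : Matrix ι ι ℂ} (hz : IsZ H z) {x : Matrix ι ι ℚ} (hx : IsHE H x) :
    cj H z * cQ x = cQ x * cj H z := by
  have h4 := hz.cen (cji H (cQ x)) fun w hw => by
    have h5 := hx.comm_ho (mem_hn H |>.1 hw)
    have h6 := congrArg (cji H) h5
    rw [cji_mul, cji_mul, cji_cj] at h6
    exact h6.symm
  have h5 := congrArg (cj H) h4
  rwa [cj_mul, cj_mul, cj_cji] at h5

namespace AData

variable (D : AData H A)

/-- The degree one part in orthonormal coordinates. -/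
noncomputable def Vn : Submodule ℂ (ι → ℂ) := D.V.comap (Matrix.mulVecLin (Mi H))

lemma mem_Vn {v : ι → ℂ} : v ∈ D.Vn ↔ Mi H *ᵥ v ∈ D.V := Iff.rfl

lemma Mi_mulVec (g : Matrix ι ι ℂ) (v : ι → ℂ) : Mi H *ᵥ (g *ᵥ v) = cj H g *ᵥ (Mi H *ᵥ v) := by
  rw [Matrix.mulVec_mulVec, Matrix.mulVec_mulVec, cj]
  congr 1
  rw [Matrix.mul_assoc (Mi H * g), Mm_Mi, Matrix.mul_one]

lemma Vn_hn {w : Matrix ι ι ℂ} (hw : w ∈ hn H) {v : ι → ℂ} (hv : v ∈ D.Vn) : w *ᵥ v ∈ D.Vn := by
  rw [mem_Vn, Mi_mulVec]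
  exact D.V_ho hw hv

lemma Vn_Z {z : Matrix ι ι ℂ} (hz : IsZ H z) {v : ι → ℂ} (hv : v ∈ D.Vn) : z *ᵥ v ∈ D.Vn := by
  rw [mem_Vn, Mi_mulVec]
  exact D.V_stab (hz.comm_HE D.pr1_HE) hv

/-- The coordinates. -/
noncomputable def εn : A ≃ₗ[ℂ] (ι → ℂ) :=
  D.ε.trans
    { toFun := fun v => Mm H *ᵥ v
      map_add' := Matrix.mulVec_add _
      map_smul' := fun c v => Matrix.mulVec_smul _ c v
      invFun := fun v => Mi H *ᵥ v
      left_inv := fun v => by
        change Mi H *ᵥ (Mm H *ᵥ v) = v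
        rw [Matrix.mulVec_mulVec, Mi_Mm, Matrix.one_mulVec]
      right_inv := fun v => by
        change Mm H *ᵥ (Mi H *ᵥ v) = v
        rw [Matrix.mulVec_mulVec, Mm_Mi, Matrix.one_mulVec] }

lemma εn_apply (a : A) : D.εn a = Mm H *ᵥ D.ε a := rfl

lemma εn_symm (v : ι → ℂ) : D.εn.symm v = D.ε.symm (Mi H *ᵥ v) := rfl

lemma aop_εn (w : Matrix ι ι ℂ) (a : A) : aop D.εn w a = aop D.ε (cj H w) a := by
  rw [aop_apply, aop_apply, εn_symm, εn_apply, Mi_mulVec, Matrix.mulVec_mulVec _ _ (Mm H), Mi_Mm,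
    Matrix.one_mulVec]

/-- The equivalence of the degree one parts. -/
noncomputable def eV : D.V ≃ₗ[ℂ] D.Vn where
  toFun v := ⟨Mm H *ᵥ (v : ι → ℂ), by
    rw [mem_Vn, Matrix.mulVec_mulVec, Mi_Mm, Matrix.one_mulVec]
    exact v.2⟩
  map_add' a b := Subtype.ext (Matrix.mulVec_add _ _ _)
  map_smul' c a := Subtype.ext (Matrix.mulVec_smul _ _ _)
  invFun v := ⟨Mi H *ᵥ (v : ι → ℂ), v.2⟩
  left_inv v := Subtype.ext (by
    change Mi H *ᵥ (Mm H *ᵥ (v : ι → ℂ)) = _
    rw [Matrix.mulVec_mulVec, Mi_Mm, Matrix.one_mulVec])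
  right_inv v := Subtype.ext (by
    change Mm H *ᵥ (Mi H *ᵥ (v : ι → ℂ)) = _
    rw [Matrix.mulVec_mulVec, Mm_Mi, Matrix.one_mulVec])

/-- The algebra of derivations in orthonormal coordinates. -/
noncomputable def toPD (htop : ∃ v : Fin (Module.finrank ℂ D.V) → D.V, pL D.L v ≠ 0)
    {z : Matrix ι ι ℂ} (hz : D.IsCI z) : PD (hn H) (cji H z) A where
  ε := D.εn
  V := D.Vn
  der w hw a b := by
    rw [aop_εn, aop_εn, aop_εn]
    exact D.der_ho hw a b
  stab w hw v hv := D.Vn_hn hw hv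
  mul a b := by
    rw [aop_εn, aop_εn, aop_εn, cj_cji]
    exact hz.mul a b
  one := by
    rw [aop_εn, cj_cji]
    exact hz.one
  sq v := by
    have h1 : iL D.εn D.Vn v = D.L ⟨Mi H *ᵥ (v : ι → ℂ), v.2⟩ := rfl
    rw [h1]
    exact D.L_sq _
  top := by
    obtain ⟨v, hv⟩ := htop
    have he : Module.finrank ℂ D.Vn = Module.finrank ℂ D.V := D.eV.finrank_eq.symm
    refine ⟨fun i => D.eV (v (Fin.cast he i)), ?_⟩
    have h1 : pL (iL D.εn D.Vn) (fun i => D.eV (v (Fin.cast he i))) = pL D.L v := by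
      rw [pL, pL]
      congr 1
      have h2 : ∀ (m m' : ℕ) (hm : m' = m) (v : Fin m → D.V),
          (List.ofFn fun i : Fin m' => iL D.εn D.Vn (D.eV (v (Fin.cast hm i)))) =
            List.ofFn fun i => D.L (v i) := by
        rintro m m' rfl v
        congr 1
        funext i
        change D.ε.symm (Mi H *ᵥ (Mm H *ᵥ (v i : ι → ℂ))) = D.ε.symm (v i : ι → ℂ)
        rw [Matrix.mulVec_mulVec, Mi_Mm, Matrix.one_mulVec]
      exact h2 _ _ he v
    rw [h1]
    exact hv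
  gen := by
    rw [← D.gen]
    congr 1
    ext a
    change Mi H *ᵥ (Mm H *ᵥ D.ε a) ∈ D.V ↔ _
    rw [Matrix.mulVec_mulVec, Mi_Mm, Matrix.one_mulVec]
    rfl

lemma toPD_V (htop : ∃ v : Fin (Module.finrank ℂ D.V) → D.V, pL D.L v ≠ 0)
    {z : Matrix ι ι ℂ} (hz : D.IsCI z) : (D.toPD htop hz).V = D.Vn := rfl

/-- **Central isometries which fix the Hodge classes of bounded degree.** -/
theorem ci_So (htop : ∃ v : Fin (Module.finrank ℂ D.V) → D.V, pL D.L v ≠ 0)
    {z z' : Matrix ι ι ℂ} (hz : D.IsCI z) (hinv : z' * z = 1) {M : ℕ}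
    (hfix : Fixes H z (Fin M ⊕ Fin M))
    (hM : ∀ (x : Matrix ι ι ℂ) (n : ℕ) (B : Bz (hn H) x (cji H z) D.Vn n), IsReg (hn H) x →
      ∀ s : Multiset (Fin n), B.tot s = 0 →
      (∀ t ≤ s, B.tot t ∈ QL (hn H) x → t = 0 ∨ t = s) → ∀ (i : Fin n) (p : Fin n → Prop)
      [DecidablePred p], (∀ j, p j → B.T j - B.T i ∈ QL (hn H) x) → (s.filter p).card ≤ M) :
    z ∈ So H := by
  obtain ⟨x, hxh, hxH, hxr⟩ := exists_regular (hn H)
  have hx : IsReg (hn H) x := ⟨hxh, hxH, hxr⟩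
  have hZ := isZ_of hz.comm hz.commE
  obtain ⟨n, ⟨B⟩⟩ := exists_Bz (V := D.Vn) (isLA_hn H) hx (hZ.comm x hxh).symm hZ.normal
    (fun v hv => D.Vn_hn hxh hv) (fun v hv => D.Vn_Z hZ hv) (fun v hv => D.Vn_Z hZ.star hv)
  have hζ : ∀ i, B.ζ i ≠ 0 := by
    intro i h0
    have h1 := B.ez i
    rw [h0, zero_smul] at h1
    have h2 : cji H z' *ᵥ (cji H z *ᵥ (B.v i : ι → ℂ)) = 0 := by rw [h1, Matrix.mulVec_zero]
    rw [Matrix.mulVec_mulVec, ← cji_mul, hinv, cji_one, Matrix.one_mulVec] at h2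
    exact B.v_ne i h2
  have hs : ∀ s : Multiset (Fin n), B.tot s ∈ QL (hn H) x → B.zt s = 1 := fun s hs =>
    no_bad (D.toPD htop hz) (isLA_hn H) hx hZ.comm B hζ (hM x n B hx)
      (pres_fix H (by rw [cj_cji]; exact hfix)) hs
  intro κ _ _ a ha
  have h1 := fix_zero (D.toPD htop hz) B hs (κ := κ) (a := kp κ (Mm H) *ᵥ ca a)
    fun t ht _ => by
      rw [Matrix.mulVec_mulVec, dk_cj_Mm, ← Matrix.mulVec_mulVec, ht κ a ha, Matrix.mulVec_zero]
  rw [Matrix.mulVec_mulVec, kp_cj_Mm, cj_cji, ← Matrix.mulVec_mulVec] at h1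
  have h2 := congrArg (fun w => kp κ (Mi H) *ᵥ w) h1
  simp only [Matrix.mulVec_mulVec, ← Matrix.mul_assoc, ← kp_mul, Mi_Mm, kp_one, Matrix.one_mul,
    Matrix.one_mulVec] at h2
  exact h2

end AData

end Pool.Agent.N996.FP
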