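import Pool.Agent.N996.FP.Cal
import Pool.Agent.N996.BP.Core

/-!
# Hodge tensors of the exterior algebra
-/

set_option linter.unusedSectionVars false

namespace Pool.Agent.N996.FP

open Matrix Module Pool.Agent.N996.BP ComplexConjugate

variable {ι : Type} [Fintype ι] [LinearOrder ι] {R : Type*} [CommRing R]
  {κ : Type} [Fintype κ] [DecidableEq κ] {l : Type} [Fintype l] [DecidableEq l]

/-- The embedding of the tensors of the exterior algebra of multidegree `d`. -/
def te (ι : Type) [LinearOrder ι] (R : Type*) [CommRing R] {κ : Type} [Fintype κ]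
    (d : κ → ℕ) : Matrix ((Σ k, Fin (d k)) → ι) (κ → Finset ι) R :=
  Matrix.of fun w S => ∏ k, ta ι R (d k) (fun j => w ⟨k, j⟩) (S k)

lemma te_apply (d : κ → ℕ) (w : (Σ k, Fin (d k)) → ι) (S : κ → Finset ι) :
    te ι R d w S = ∏ k, ta ι R (d k) (fun j => w ⟨k, j⟩) (S k) := rfl

/-- **The intertwining property.** -/
lemma te_cm (M : Matrix ι ι R) (d : κ → ℕ) :
    kp (Σ k, Fin (d k)) M * te ι R d = te ι R d * kp κ (cm M) := by
  ext w S
  rw [Matrix.mul_apply, Matrix.mul_apply, ← (Equiv.piCurry fun (k : κ) (_ : Fin (d k)) => ι).symm.sum_comp]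
  have h1 : ∀ v : (k : κ) → Fin (d k) → ι,
      kp (Σ k, Fin (d k)) M w ((Equiv.piCurry fun (k : κ) (_ : Fin (d k)) => ι).symm v) *
        te ι R d ((Equiv.piCurry fun (k : κ) (_ : Fin (d k)) => ι).symm v) S =
      ∏ k, (kp (Fin (d k)) M (fun j => w ⟨k, j⟩) (v k) * ta ι R (d k) (v k) (S k)) := by
    intro v
    rw [Finset.prod_mul_distrib, kp_apply, Fintype.prod_sigma, te_apply]
    rfl
  simp only [h1]
  have h2 := Finset.prod_univ_sum (fun k : κ => (Finset.univ : Finset (Fin (d k) → ι)))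
    (fun k v => kp (Fin (d k)) M (fun j => w ⟨k, j⟩) v * ta ι R (d k) v (S k))
  rw [Fintype.piFinset_univ] at h2
  rw [← h2]
  have h3 : ∀ k : κ, ∑ v : Fin (d k) → ι, kp (Fin (d k)) M (fun j => w ⟨k, j⟩) v *
      ta ι R (d k) v (S k) = ∑ T : Finset ι, ta ι R (d k) (fun j => w ⟨k, j⟩) T * cm M T (S k) := by
    intro k
    have h4 := congrFun (congrFun (kp_ta M (d k)) fun j => w ⟨k, j⟩) (S k)
    rw [Matrix.mul_apply, Matrix.mul_apply] at h4
    exact h4
  simp only [h3]
  have h5 := Finset.prod_univ_sum (fun _ : κ => (Finset.univ : Finset (Finset ι)))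
    (fun k T => ta ι R (d k) (fun j => w ⟨k, j⟩) T * cm M T (S k))
  rw [Fintype.piFinset_univ] at h5
  rw [h5]
  refine Finset.sum_congr rfl fun T _ => ?_
  rw [Finset.prod_mul_distrib]
  rfl

lemma ca_te (d : κ → ℕ) (a : (κ → Finset ι) → ℚ) :
    ca (te ι ℚ d *ᵥ a) = te ι ℂ d *ᵥ ca a := by
  funext w
  rw [ca, Matrix.mulVec, dotProduct, Rat.cast_sum, Matrix.mulVec, dotProduct]
  refine Finset.sum_congr rfl fun S _ => ?_
  rw [Rat.cast_mul, te_apply, te_apply, Rat.cast_prod]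
  congr 1
  refine Finset.prod_congr rfl fun k _ => ?_
  have h1 := congrFun (congrFun (ta_map (ι := ι) (Rat.castHom ℂ) (d k)) fun j => w ⟨k, j⟩) (S k)
  rw [← h1]
  rfl

/-- The values on increasing sequences. -/
lemma te_emb (S : κ → Finset ι) (a : (κ → Finset ι) → R) :
    (te ι R (fun k => (S k).card) *ᵥ a) (fun x => (S x.1).orderEmbOfFin rfl x.2) = a S := by
  rw [Matrix.mulVec, dotProduct, Finset.sum_eq_single S]
  · rw [te_apply, Finset.prod_eq_one, one_mul]
    intro k _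
    rw [ta_emb, if_pos rfl]
  · intro T _ hT
    obtain ⟨k, hk⟩ := Function.ne_iff.1 hT
    rw [te_apply, Finset.prod_eq_zero (Finset.mem_univ k), zero_mul]
    rw [ta_emb, if_neg (Ne.symm hk)]
  · intro h; exact absurd (Finset.mem_univ _) h

variable (H : HData ι)

/-- Hodge tensors of the exterior algebra. -/
lemma BB_te {a : (κ → Finset ι) → ℚ} :
    a ∈ BB (eH H) κ ↔ ∀ d : κ → ℕ, te ι ℚ d *ᵥ a ∈ BB H (Σ k, Fin (d k)) := by
  constructor
  · intro ha d t ht
    have h1 := ha t ht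
    rw [eH_l H ht] at h1
    rw [ca_te, Matrix.mulVec_mulVec, te_cm, ← Matrix.mulVec_mulVec, h1]
  · intro h t ht
    rw [eH_l H ht]
    funext S
    rw [← te_emb S (kp κ (cm (H.l t)) *ᵥ ca a), ← te_emb S (ca a), Matrix.mulVec_mulVec, ← te_cm,
      ← Matrix.mulVec_mulVec, ← ca_te]
    exact congrFun (h _ t ht) _

/-! ### Reindexing and products -/

lemma te_rei (e : κ ≃ l) (d : l → ℕ) (a : (κ → Finset ι) → R) :
    te ι R d *ᵥ rei e a =
      rei (Equiv.sigmaCongrLeft (β := fun k => Fin (d k)) e) (te ι R (fun k => d (e k)) *ᵥ a) := by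
  funext w
  rw [rei, Matrix.mulVec, dotProduct, Matrix.mulVec, dotProduct,
    ← Equiv.sum_comp (e.arrowCongr (Equiv.refl (Finset ι)))]
  refine Finset.sum_congr rfl fun T _ => ?_
  have h1 : (e.arrowCongr (Equiv.refl (Finset ι))) T = T ∘ e.symm := by
    ext; simp [Equiv.arrowCongr]
  rw [h1, rei, te_apply, te_apply, ← Equiv.prod_comp e]
  congr 1
  · refine Finset.prod_congr rfl fun k _ => ?_
    rw [Function.comp_apply, Equiv.symm_apply_apply]
    rfl
  · congr 1
    ext; simp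

lemma te_tens (d : κ ⊕ l → ℕ) (a : (κ → Finset ι) → R) (b : (l → Finset ι) → R) :
    te ι R d *ᵥ tens a b =
      rei (Equiv.sumSigmaDistrib (fun k => Fin (d k))).symm
        (tens (te ι R (fun k => d (Sum.inl k)) *ᵥ a) (te ι R (fun k => d (Sum.inr k)) *ᵥ b)) := by
  funext w
  rw [rei, tens, Matrix.mulVec, dotProduct, sum_sumElim, Matrix.mulVec, Matrix.mulVec, dotProduct,
    dotProduct, Finset.sum_mul_sum]
  refine Finset.sum_congr rfl fun S _ => Finset.sum_congr rfl fun T _ => ?_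
  rw [tens_elim, te_apply, te_apply, te_apply, Fintype.prod_sum_type]
  simp only [Sum.elim_inl, Sum.elim_inr]
  have h1 : ∀ k, (fun j => w ⟨Sum.inl k, j⟩) = fun j : Fin (d (Sum.inl k)) =>
      (w ∘ (Equiv.sumSigmaDistrib (fun k => Fin (d k))).symm) (Sum.inl ⟨k, j⟩) := fun _ => rfl
  have h2 : ∀ k, (fun j => w ⟨Sum.inr k, j⟩) = fun j : Fin (d (Sum.inr k)) =>
      (w ∘ (Equiv.sumSigmaDistrib (fun k => Fin (d k))).symm) (Sum.inr ⟨k, j⟩) := fun _ => rfl
  simp only [h1, h2, Function.comp_apply]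
  ring

/-! ### Contractions -/

lemma ta_comp {m : ℕ} (w : Fin m → ι) (σ : Equiv.Perm (Fin m)) (S : Finset ι) :
    ta ι R m (w ∘ σ) S = ((Equiv.Perm.sign σ : ℤ) : R) * ta ι R m w S := by
  by_cases h : S.card = m
  · rw [ta_apply _ h, ta_apply _ h, ← Matrix.det_permute]
    rfl
  · rw [ta_ne _ h, ta_ne _ h, mul_zero]

/-- The norm of the embedding. -/
lemma ta_tr (m : ℕ) (S T : Finset ι) : ∑ w : Fin m → ι, ta ι R m w S * ta ι R m w T =
    if S = T ∧ S.card = m then (m.factorial : R) else 0 := by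
  by_cases hS : S.card = m
  · subst hS
    have h1 : ∀ w : Fin S.card → ι, ta ι R S.card w S * ta ι R S.card w T =
        ∑ σ : Equiv.Perm (Fin S.card), ((Equiv.Perm.sign σ : ℤ) : R) *
          ((∏ a, if w a = S.orderEmbOfFin rfl (σ a) then (1 : R) else 0) *
            ta ι R S.card w T) := by
      intro w
      rw [ta_apply w rfl, ← Matrix.det_transpose, Matrix.det_apply', Finset.sum_mul]
      refine Finset.sum_congr rfl fun σ _ => ?_
      simp only [Matrix.transpose_apply, Matrix.of_apply]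
      ring
    simp only [h1]
    rw [Finset.sum_comm]
    have h2 : ∀ σ : Equiv.Perm (Fin S.card), ∑ w : Fin S.card → ι,
        ((Equiv.Perm.sign σ : ℤ) : R) *
          ((∏ a, if w a = S.orderEmbOfFin rfl (σ a) then (1 : R) else 0) *
            ta ι R S.card w T) = if S = T then 1 else 0 := by
      intro σ
      rw [Finset.sum_eq_single (S.orderEmbOfFin rfl ∘ σ)]
      · rw [ta_comp, ta_emb, Finset.prod_eq_one, one_mul, ← mul_assoc]
        · have h3 : ((Equiv.Perm.sign σ : ℤ) : R) * ((Equiv.Perm.sign σ : ℤ) : R) = 1 := by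
            rw [← Int.cast_mul, ← Units.val_mul, Int.units_mul_self]
            simp
          rw [h3, one_mul]
        · intro a _
          rw [Function.comp_apply, if_pos rfl]
      · intro w _ hw
        obtain ⟨a, ha⟩ := Function.ne_iff.1 hw
        rw [Finset.prod_eq_zero (Finset.mem_univ a), zero_mul, mul_zero]
        exact if_neg ha
      · intro h; exact absurd (Finset.mem_univ _) h
    simp only [h2]
    rw [Finset.sum_const, Finset.card_univ, Fintype.card_perm, Fintype.card_fin]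
    by_cases hST : S = T
    · rw [if_pos hST, if_pos ⟨hST, trivial⟩, nsmul_eq_mul, mul_one]
    · rw [if_neg hST, if_neg fun h => hST h.1, smul_zero]
  · rw [if_neg fun h => hS h.2]
    refine Finset.sum_eq_zero fun w _ => ?_
    rw [ta_ne _ hS, zero_mul]

/-- The compound of a form. -/
lemma sum_ta_Q (Q : Matrix ι ι ℚ) (X Y : Finset ι) :
    ∑ m ∈ Finset.range (Fintype.card ι + 1), ((m.factorial : ℚ))⁻¹ * ∑ u : Fin m → ι,
      ∑ u' : Fin m → ι, kp (Fin m) Q u u' * (ta ι ℚ m u X * ta ι ℚ m u' Y) = cm Q X Y := by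
  have h1 : ∀ m : ℕ, ∑ u : Fin m → ι, ∑ u' : Fin m → ι,
      kp (Fin m) Q u u' * (ta ι ℚ m u X * ta ι ℚ m u' Y) =
      if X.card = m then (m.factorial : ℚ) * cm Q X Y else 0 := by
    intro m
    have h2 : ∀ u : Fin m → ι, ∑ u' : Fin m → ι,
        kp (Fin m) Q u u' * (ta ι ℚ m u X * ta ι ℚ m u' Y) =
        ∑ Z : Finset ι, ta ι ℚ m u X * ta ι ℚ m u Z * cm Q Z Y := by
      intro u
      have h3 := congrFun (congrFun (kp_ta Q m) u) Y
      rw [Matrix.mul_apply, Matrix.mul_apply] at h3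
      calc ∑ u' : Fin m → ι, kp (Fin m) Q u u' * (ta ι ℚ m u X * ta ι ℚ m u' Y) =
          ta ι ℚ m u X * ∑ u' : Fin m → ι, kp (Fin m) Q u u' * ta ι ℚ m u' Y := by
            rw [Finset.mul_sum]
            exact Finset.sum_congr rfl fun u' _ => by ring
        _ = _ := by
            rw [h3, Finset.mul_sum]
            exact Finset.sum_congr rfl fun Z _ => by ring
    simp only [h2]
    rw [Finset.sum_comm]
    simp only [← Finset.sum_mul, ta_tr]
    rw [Finset.sum_eq_single X]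
    · by_cases h : X.card = m
      · rw [if_pos ⟨rfl, h⟩, if_pos h]
      · rw [if_neg fun h2 => h h2.2, if_neg h, zero_mul]
    · intro Z _ hZ
      rw [if_neg fun h2 => hZ h2.1.symm, zero_mul]
    · intro h; exact absurd (Finset.mem_univ _) h
  simp only [h1]
  rw [Finset.sum_eq_single X.card]
  · rw [if_pos rfl, ← mul_assoc, inv_mul_cancel₀ (by exact_mod_cast X.card.factorial_ne_zero),
      one_mul]
  · intro m _ hm
    rw [if_neg (Ne.symm hm), mul_zero]
  · intro h
    exact absurd (Finset.mem_range.2 (Nat.lt_succ_of_le (Finset.card_le_univ X))) h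

lemma sum3 {α β γ : Type*} [Fintype α] [Fintype β] [Fintype γ] (F : α → β → γ → ℚ) :
    ∑ a, ∑ b, ∑ c, F a b c = ∑ c, ∑ a, ∑ b, F a b c := by
  calc ∑ a, ∑ b, ∑ c, F a b c = ∑ a, ∑ c, ∑ b, F a b c :=
        Finset.sum_congr rfl fun a _ => Finset.sum_comm
    _ = _ := Finset.sum_comm

/-- The multidegree. -/
def dm (d : κ → ℕ) (m : ℕ) : κ ⊕ (Unit ⊕ Unit) → ℕ := Sum.elim d (Sum.elim (fun _ => m) fun _ => m)

/-- The index set. -/
def eqm (d : κ → ℕ) (m : ℕ) :
    (Σ x : κ ⊕ (Unit ⊕ Unit), Fin (dm d m x)) ≃ (Σ k, Fin (d k)) ⊕ (Fin m ⊕ Fin m) where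
  toFun
    | ⟨Sum.inl k, j⟩ => Sum.inl ⟨k, j⟩
    | ⟨Sum.inr (Sum.inl _), j⟩ => Sum.inr (Sum.inl j)
    | ⟨Sum.inr (Sum.inr _), j⟩ => Sum.inr (Sum.inr j)
  invFun
    | Sum.inl ⟨k, j⟩ => ⟨Sum.inl k, j⟩
    | Sum.inr (Sum.inl j) => ⟨Sum.inr (Sum.inl ()), j⟩
    | Sum.inr (Sum.inr j) => ⟨Sum.inr (Sum.inr ()), j⟩
  left_inv := by rintro ⟨k | k | k, j⟩ <;> rfl
  right_inv := by rintro (⟨k, j⟩ | j | j) <;> rfl

/-- **Contractions.** -/
lemma te_contr (Q : Matrix ι ι ℚ) (d : κ → ℕ) (a : (κ ⊕ (Unit ⊕ Unit) → Finset ι) → ℚ) :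
    te ι ℚ d *ᵥ contr (cm Q) a = ∑ m ∈ Finset.range (Fintype.card ι + 1),
      ((m.factorial : ℚ))⁻¹ • contr Q (rei (eqm d m) (te ι ℚ (dm d m) *ᵥ a)) := by
  funext w
  have h1 : ∀ (m : ℕ) (u u' : Fin m → ι) (S : κ → Finset ι) (x y : Unit → Finset ι),
      te ι ℚ (dm d m) (Sum.elim w (Sum.elim u u') ∘ eqm d m) (Sum.elim S (Sum.elim x y)) =
        te ι ℚ d w S * (ta ι ℚ m u (x ()) * ta ι ℚ m u' (y ())) := by
    intro m u u' S x y
    rw [te_apply, te_apply, Fintype.prod_sum_type, Fintype.prod_sum_type]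
    simp only [Finset.univ_unique, Finset.prod_singleton]
    rfl
  have h2 : ∀ m : ℕ, contr Q (rei (eqm d m) (te ι ℚ (dm d m) *ᵥ a)) w =
      ∑ S : κ → Finset ι, ∑ x : Unit → Finset ι, ∑ y : Unit → Finset ι,
        (te ι ℚ d w S * a (Sum.elim S (Sum.elim x y))) *
        ∑ u : Fin m → ι, ∑ u' : Fin m → ι,
          kp (Fin m) Q u u' * (ta ι ℚ m u (x ()) * ta ι ℚ m u' (y ())) := by
    intro m
    have h3 : ∀ u u' : Fin m → ι, rei (eqm d m) (te ι ℚ (dm d m) *ᵥ a)
        (Sum.elim w (Sum.elim u u')) = ∑ S : κ → Finset ι, ∑ x : Unit → Finset ι,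
          ∑ y : Unit → Finset ι, te ι ℚ d w S * (ta ι ℚ m u (x ()) * ta ι ℚ m u' (y ())) *
            a (Sum.elim S (Sum.elim x y)) := by
      intro u u'
      rw [rei, Matrix.mulVec, dotProduct, sum_sumElim]
      refine Finset.sum_congr rfl fun S _ => ?_
      rw [sum_sumElim]
      refine Finset.sum_congr rfl fun x _ => Finset.sum_congr rfl fun y _ => ?_
      rw [h1]
    rw [contr]
    simp only [h3, Finset.mul_sum]
    rw [sum3]
    refine Finset.sum_congr rfl fun S _ => ?_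
    rw [sum3]
    refine Finset.sum_congr rfl fun x _ => ?_
    rw [sum3]
    refine Finset.sum_congr rfl fun y _ => Finset.sum_congr rfl fun u _ =>
      Finset.sum_congr rfl fun u' _ => ?_
    ring
  rw [Finset.sum_apply]
  simp only [Pi.smul_apply, smul_eq_mul, h2]
  rw [Matrix.mulVec, dotProduct]
  have h4 : ∀ S : κ → Finset ι, te ι ℚ d w S * contr (cm Q) a S =
      ∑ x : Unit → Finset ι, ∑ y : Unit → Finset ι,
        ∑ m ∈ Finset.range (Fintype.card ι + 1), ((m.factorial : ℚ))⁻¹ *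
          ((te ι ℚ d w S * a (Sum.elim S (Sum.elim x y))) * ∑ u : Fin m → ι, ∑ u' : Fin m → ι,
            kp (Fin m) Q u u' * (ta ι ℚ m u (x ()) * ta ι ℚ m u' (y ()))) := by
    intro S
    rw [contr, Finset.mul_sum]
    refine Finset.sum_congr rfl fun x _ => ?_
    rw [Finset.mul_sum]
    refine Finset.sum_congr rfl fun y _ => ?_
    have h5 : kp Unit (cm Q) x y = cm Q (x ()) (y ()) := by
      rw [kp_apply, Fintype.prod_unique]
    rw [h5, ← sum_ta_Q Q (x ()) (y ()), Finset.sum_mul, Finset.mul_sum]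
    refine Finset.sum_congr rfl fun m _ => ?_
    ring
  simp only [h4]
  have h6 : ∀ (F : ℕ → (κ → Finset ι) → (Unit → Finset ι) → (Unit → Finset ι) → ℚ),
      ∑ S, ∑ x, ∑ y, ∑ m ∈ Finset.range (Fintype.card ι + 1), F m S x y =
      ∑ m ∈ Finset.range (Fintype.card ι + 1), ∑ S, ∑ x, ∑ y, F m S x y := by
    intro F
    symm
    rw [Finset.sum_comm]
    refine Finset.sum_congr rfl fun S _ => ?_
    rw [Finset.sum_comm]
    refine Finset.sum_congr rfl fun x _ => ?_
    rw [Finset.sum_comm]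
  rw [h6]
  refine Finset.sum_congr rfl fun m _ => ?_
  simp only [Finset.mul_sum]

end Pool.Agent.N996.FP
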