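import Pool.Agent.N996.FP.Ctf

/-!
# The transfer to the exterior algebra
-/

set_option linter.unusedSectionVars false

namespace Pool.Agent.N996.FP

open Matrix Module Pool.Agent.N996.BP ComplexConjugate

variable {ι : Type} [Fintype ι] [LinearOrder ι] {R : Type*} [CommRing R]
  {κ : Type} [Fintype κ] [DecidableEq κ] {l : Type} [Fintype l] [DecidableEq l]
  {H : HData ι} {B : ∀ n : ℕ, Submodule ℚ ((Fin (n + 1) → ι) → ℚ)}

/-- The family for the exterior algebra. -/
def eQ (B : ∀ n : ℕ, Submodule ℚ ((Fin (n + 1) → ι) → ℚ)) (κ : Type) [Fintype κ]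
    [DecidableEq κ] :
    Submodule ℚ ((κ → Finset ι) → ℚ) where
  carrier := {a | ∀ d : κ → ℕ, te ι ℚ d *ᵥ a ∈ AQ B (Σ k, Fin (d k))}
  add_mem' {a b} ha hb d := by
    rw [Matrix.mulVec_add]
    exact Submodule.add_mem _ (ha d) (hb d)
  zero_mem' d := by
    rw [Matrix.mulVec_zero]
    exact Submodule.zero_mem _
  smul_mem' c a ha d := by
    rw [Matrix.mulVec_smul]
    exact Submodule.smul_mem _ _ (ha d)

lemma eQ_rei (hA : RFam H B) (e : κ ≃ l) {a : (κ → Finset ι) → ℚ} (ha : a ∈ eQ B κ) :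
    rei e a ∈ eQ B l := by
  intro d
  rw [te_rei]
  exact hA.rei _ (ha _)

lemma eQ_tens (hA : RFam H B) {a : (κ → Finset ι) → ℚ} {b : (l → Finset ι) → ℚ}
    (ha : a ∈ eQ B κ) (hb : b ∈ eQ B l) : tens a b ∈ eQ B (κ ⊕ l) := by
  intro d
  rw [te_tens]
  exact hA.rei _ (hA.tensQ (ha _) (hb _))

lemma eQ_contr (hA : RFam H B) {a : (κ ⊕ (Unit ⊕ Unit) → Finset ι) → ℚ}
    (ha : a ∈ eQ B (κ ⊕ (Unit ⊕ Unit))) : contr (cm H.Qr) a ∈ eQ B κ := by
  intro d
  rw [te_contr]
  exact Submodule.sum_mem _ fun m _ => Submodule.smul_mem _ _ (hA.contrQ (hA.rei _ (ha _)))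

/-- **The family of the exterior algebra.** -/
lemma eRFam (hA : RFam H B) : RFam (eH H) fun n => eQ B (Fin (n + 1)) where
  perm n σ a ha := eQ_rei hA σ ha
  tens n m a b ha hb := eQ_rei hA (ce n m) (eQ_tens hA ha hb)
  contr n a ha := by
    have h1 := eQ_contr hA (eQ_rei hA (RFam.ec (Equiv.refl (Fin (n + 1)))).symm ha)
    convert h1 using 1
    ext w
    rw [contr, ctr, ← Equiv.sum_comp (Equiv.funUnique Unit (Finset ι)).symm]
    refine Finset.sum_congr rfl fun x _ => ?_
    rw [← Equiv.sum_comp (Equiv.funUnique Unit (Finset ι)).symm]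
    refine Finset.sum_congr rfl fun y _ => ?_
    rw [rei, kp_apply, Fintype.prod_unique]
    have h2 : (Sum.elim w (Sum.elim ((Equiv.funUnique Unit (Finset ι)).symm x)
        ((Equiv.funUnique Unit (Finset ι)).symm y))) ∘ (RFam.ec (Equiv.refl (Fin (n + 1)))).symm =
        sn w x y := by
      have h3 := RFam.sn_ec (Equiv.refl (Fin (n + 1))) w x y
      funext k
      have h4 := congrFun h3 ((RFam.ec (Equiv.refl (Fin (n + 1)))).symm k)
      rw [Function.comp_apply, Equiv.apply_symm_apply] at h4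
      rw [h4]
      rfl
    rw [h2]
    rfl
  le n a ha := (BB_te H).2 fun d => hA.leQ (ha d)

lemma ta_zero {m : ℕ} (hm : Fintype.card ι < m) (w : Fin m → ι) (S : Finset ι) :
    ta ι R m w S = 0 :=
  ta_ne w fun h => absurd (Finset.card_le_univ S) (by omega)

/-- Hodge tensors of small degree. -/
lemma eQ_small (hA : RFam H B) {N N' : ℕ} (hN : ∀ n, n + 1 ≤ N → BB H (Fin (n + 1)) ≤ B n)
    (hNN : N' * Fintype.card ι ≤ N) (n : ℕ) (hn : n + 1 ≤ N') :
    BB (eH H) (Fin (n + 1)) ≤ eQ B (Fin (n + 1)) := by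
  intro a ha d
  by_cases hd : ∀ k, d k ≤ Fintype.card ι
  · refine hA.of_small hN ?_ ((BB_te H).1 ha d)
    rw [Fintype.card_sigma]
    simp only [Fintype.card_fin]
    calc ∑ k, d k ≤ ∑ _ : Fin (n + 1), Fintype.card ι := Finset.sum_le_sum fun k _ => hd k
      _ = (n + 1) * Fintype.card ι := by
          rw [Finset.sum_const, Finset.card_univ, Fintype.card_fin, smul_eq_mul]
      _ ≤ N' * Fintype.card ι := Nat.mul_le_mul_right _ hn
      _ ≤ N := hNN
  · push Not at hd
    obtain ⟨k, hk⟩ := hd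
    have h1 : te ι ℚ d *ᵥ a = 0 := by
      funext w
      rw [Matrix.mulVec, dotProduct]
      refine Finset.sum_eq_zero fun S _ => ?_
      rw [te_apply, Finset.prod_eq_zero (Finset.mem_univ k) (ta_zero hk _ _), zero_mul]
    rw [h1]
    exact Submodule.zero_mem _

/-! ### The tensors of degree one -/

/-- The embedding of the degree one part. -/
def j1 (ι : Type) [LinearOrder ι] (R : Type*) [CommRing R] : Matrix (Finset ι) ι R :=
  Matrix.of fun S i => if S = {i} then 1 else 0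

/-- The tensor power of the embedding. -/
def jk (ι : Type) [LinearOrder ι] (R : Type*) [CommRing R] (κ : Type) [Fintype κ] :
    Matrix (κ → Finset ι) (κ → ι) R :=
  Matrix.of fun S w => ∏ k, j1 ι R (S k) (w k)

lemma cm_j1 (M : Matrix ι ι R) : cm M * j1 ι R = j1 ι R * M := by
  ext S i
  rw [Matrix.mul_apply, Matrix.mul_apply, Finset.sum_eq_single {i}]
  · rw [j1, Matrix.of_apply, if_pos rfl, mul_one]
    by_cases h : S.card = 1
    · obtain ⟨s, rfl⟩ := Finset.card_eq_one.1 h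
      rw [cm_single, Finset.sum_eq_single s]
      · rw [Matrix.of_apply, if_pos rfl, one_mul]
      · intro s' _ hs
        rw [Matrix.of_apply, if_neg, zero_mul]
        intro h2
        exact hs (Finset.singleton_inj.1 h2).symm
      · intro h; exact absurd (Finset.mem_univ _) h
    · rw [cm_ne (by rw [Finset.card_singleton]; exact h), Finset.sum_eq_zero]
      intro s _
      rw [Matrix.of_apply, if_neg, zero_mul]
      rintro rfl
      exact h (Finset.card_singleton s)
  · intro T _ hT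
    rw [j1, Matrix.of_apply, if_neg hT, mul_zero]
  · intro h; exact absurd (Finset.mem_univ _) h

lemma kp_jk (M : Matrix ι ι R) : kp κ (cm M) * jk ι R κ = jk ι R κ * kp κ M := by
  ext S w
  rw [Matrix.mul_apply, Matrix.mul_apply]
  have h1 : ∀ T : κ → Finset ι, kp κ (cm M) S T * jk ι R κ T w =
      ∏ k, (cm M (S k) (T k) * j1 ι R (T k) (w k)) := by
    intro T
    rw [Finset.prod_mul_distrib]
    rfl
  have h2 : ∀ v : κ → ι, jk ι R κ S v * kp κ M v w =
      ∏ k, (j1 ι R (S k) (v k) * M (v k) (w k)) := by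
    intro v
    rw [Finset.prod_mul_distrib]
    rfl
  simp only [h1, h2]
  have h3 := Finset.prod_univ_sum (fun _ : κ => (Finset.univ : Finset (Finset ι)))
    (fun k T => cm M (S k) T * j1 ι R T (w k))
  have h4 := Finset.prod_univ_sum (fun _ : κ => (Finset.univ : Finset ι))
    (fun k v => j1 ι R (S k) v * M v (w k))
  rw [Fintype.piFinset_univ] at h3 h4
  rw [← h3, ← h4]
  refine Finset.prod_congr rfl fun k _ => ?_
  have h5 := congrFun (congrFun (cm_j1 M) (S k)) (w k)
  rw [Matrix.mul_apply, Matrix.mul_apply] at h5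
  exact h5

lemma ca_jk (a : (κ → ι) → ℚ) : ca (jk ι ℚ κ *ᵥ a) = jk ι ℂ κ *ᵥ ca a := by
  funext w
  rw [ca, Matrix.mulVec, dotProduct, Rat.cast_sum, Matrix.mulVec, dotProduct]
  refine Finset.sum_congr rfl fun S _ => ?_
  rw [Rat.cast_mul, jk, jk, Matrix.of_apply, Matrix.of_apply, Rat.cast_prod]
  congr 1
  refine Finset.prod_congr rfl fun k _ => ?_
  rw [j1, j1, Matrix.of_apply, Matrix.of_apply]
  split_ifs <;> simp

lemma BB_jk {a : (κ → ι) → ℚ} (ha : a ∈ BB H κ) : jk ι ℚ κ *ᵥ a ∈ BB (eH H) κ := by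
  intro t ht
  rw [eH_l H ht, ca_jk, Matrix.mulVec_mulVec, kp_jk, ← Matrix.mulVec_mulVec, ha t ht]

lemma ta_single (w : Fin 1 → ι) (i : ι) : ta ι R 1 w {i} = if w 0 = i then 1 else 0 := by
  rw [ta_apply w (Finset.card_singleton i), Matrix.det_fin_one, Matrix.of_apply,
    Finset.orderEmbOfFin_singleton]

lemma te_jk (a : (κ → ι) → R) : te ι R (fun _ : κ => 1) *ᵥ (jk ι R κ *ᵥ a) =
    rei (Equiv.sigmaUnique κ fun _ => Fin 1).symm a := by
  funext w
  rw [rei, Matrix.mulVec, dotProduct]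
  have h1 : ∀ S : κ → Finset ι, te ι R (fun _ : κ => 1) w S * (jk ι R κ *ᵥ a) S =
      ∑ v : κ → ι, (∏ k, (ta ι R 1 (fun j => w ⟨k, j⟩) (S k) * j1 ι R (S k) (v k))) * a v := by
    intro S
    rw [Matrix.mulVec, dotProduct, Finset.mul_sum]
    refine Finset.sum_congr rfl fun v _ => ?_
    rw [te_apply, Finset.prod_mul_distrib, ← mul_assoc]
    rfl
  simp only [h1]
  rw [Finset.sum_comm]
  have h2 : ∀ v : κ → ι, ∑ S : κ → Finset ι,
      (∏ k, (ta ι R 1 (fun j => w ⟨k, j⟩) (S k) * j1 ι R (S k) (v k))) * a v =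
      (∏ k, if w ⟨k, 0⟩ = v k then (1 : R) else 0) * a v := by
    intro v
    rw [← Finset.sum_mul]
    congr 1
    have h3 := Finset.prod_univ_sum (fun _ : κ => (Finset.univ : Finset (Finset ι)))
      (fun k S => ta ι R 1 (fun j => w ⟨k, j⟩) S * j1 ι R S (v k))
    rw [Fintype.piFinset_univ] at h3
    rw [← h3]
    refine Finset.prod_congr rfl fun k _ => ?_
    rw [Finset.sum_eq_single {v k}]
    · rw [j1, Matrix.of_apply, if_pos rfl, mul_one, ta_single]
    · intro T _ hT
      rw [j1, Matrix.of_apply, if_neg hT, mul_zero]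
    · intro h; exact absurd (Finset.mem_univ _) h
  simp only [h2]
  rw [Finset.sum_eq_single (fun k => w ⟨k, 0⟩)]
  · rw [Finset.prod_eq_one fun k _ => if_pos rfl, one_mul]
    rfl
  · intro v _ hv
    obtain ⟨k, hk⟩ := Function.ne_iff.1 hv
    rw [Finset.prod_eq_zero (Finset.mem_univ k), zero_mul]
    exact if_neg (Ne.symm hk)
  · intro h; exact absurd (Finset.mem_univ _) h

/-- **The return.** -/
lemma of_eQ (hA : RFam H B) {n : ℕ}
    (h : BB (eH H) (Fin (n + 1)) ≤ eQ B (Fin (n + 1))) : BB H (Fin (n + 1)) ≤ B n := by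
  intro a ha
  have h1 := h (BB_jk ha) fun _ => 1
  rw [te_jk] at h1
  have h2 := hA.rei (Equiv.sigmaUnique (Fin (n + 1)) fun _ => Fin 1) h1
  rw [rei_rei, Equiv.symm_trans_self, rei_refl] at h2
  exact hA.mem_iff.1 h2

end Pool.Agent.N996.FP
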