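import Pool.Agent.N996.FP.Polar

/-!
# The decomposition theorem
-/

set_option linter.unusedSectionVars false

namespace Pool.Agent.N996.FP

open Matrix ComplexOrder NormedSpace

variable {ι : Type} [Fintype ι] [DecidableEq ι] {h : Submodule ℂ (Matrix ι ι ℂ)}

/-- A group of matrices with Lie algebra `h`. -/
structure IsGrp (h : Submodule ℂ (Matrix ι ι ℂ)) (St : Submonoid (Matrix ι ι ℂ)) : Prop where
  exp : ∀ z ∈ h, exp z ∈ St
  closed : IsClosed (St : Set (Matrix ι ι ℂ))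
  inv : ∀ q ∈ St, ∃ q' ∈ St, q * q' = 1
  ad : ∀ q ∈ St, ∀ q', q * q' = 1 → ∀ z ∈ h, q * z * q' ∈ h

variable {St : Submonoid (Matrix ι ι ℂ)}

lemma isCompact_unitary : IsCompact {u : Matrix ι ι ℂ | uᴴ * u = 1} := by
  have h1 : IsCompact {u : Matrix ι ι ℂ | ∀ i j, u i j ∈ Metric.closedBall (0 : ℂ) 1} := by
    have h2 : {u : Matrix ι ι ℂ | ∀ i j, u i j ∈ Metric.closedBall (0 : ℂ) 1} =
        Set.univ.pi fun _ : ι => Set.univ.pi fun _ : ι => Metric.closedBall (0 : ℂ) 1 := by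
      ext u
      exact ⟨fun hu i _ j _ => hu i j, fun hu i j => hu i trivial j trivial⟩
    rw [h2]
    exact isCompact_univ_pi fun _ => isCompact_univ_pi fun _ => isCompact_closedBall _ _
  refine h1.of_isClosed_subset ?_ ?_
  · exact isClosed_eq ((continuous_id.matrix_conjTranspose).matrix_mul continuous_id)
      continuous_const
  · intro u hu i j
    rw [mem_closedBall_zero_iff]
    have e1 := congrFun (congrFun (show uᴴ * u = 1 from hu) j) j
    rw [Matrix.mul_apply, Matrix.one_apply_eq] at e1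
    have e2 : ∑ k, ‖u k j‖ ^ 2 = 1 := by
      have : ((∑ k, ‖u k j‖ ^ 2 : ℝ) : ℂ) = 1 := by
        rw [← e1]
        push_cast
        refine Finset.sum_congr rfl fun k _ => ?_
        rw [Matrix.conjTranspose_apply]
        exact (Complex.conj_mul' (u k j)).symm
      exact_mod_cast this
    have e3 : ‖u i j‖ ^ 2 ≤ 1 := by
      rw [← e2]
      exact Finset.single_le_sum (f := fun k => ‖u k j‖ ^ 2) (fun k _ => sq_nonneg _)
        (Finset.mem_univ i)
    nlinarith [norm_nonneg (u i j)]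

/-- The maximal compact subgroup. -/
lemma IsGrp.isCG (hS : IsGrp h St) :
    IsCG h {u : Matrix ι ι ℂ | uᴴ * u = 1 ∧ u ∈ St} where
  cpt := isCompact_unitary.inter_right hS.closed
  one := ⟨by rw [Matrix.conjTranspose_one, Matrix.one_mul], St.one_mem⟩
  exp z hz hzH u hu := by
    refine ⟨?_, St.mul_mem (hS.exp z hz) hu.2⟩
    rw [Matrix.conjTranspose_mul]
    calc uᴴ * (NormedSpace.exp z)ᴴ * (NormedSpace.exp z * u) =
        uᴴ * ((NormedSpace.exp z)ᴴ * NormedSpace.exp z) * u := by simp only [Matrix.mul_assoc]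
      _ = 1 := by rw [(exp_skew hzH).1, Matrix.mul_one, hu.1]
  uni u hu := hu.1
  ad u hu z hz := hS.ad u hu.2 uᴴ (mul_eq_one_comm.1 hu.1) z hz

/-- The stable subspaces of the representation `ρ` are stable under `G`. -/
def Pres (h : Submodule ℂ (Matrix ι ι ℂ)) {J : Type} [Fintype J] [DecidableEq J]
    (ρ : Matrix ι ι ℂ →ₗ[ℂ] Matrix J J ℂ) (G : Matrix J J ℂ) : Prop :=
  ∀ W : Submodule ℂ (J → ℂ), (∀ z ∈ h, ∀ v ∈ W, ρ z *ᵥ v ∈ W) → ∀ v ∈ W, G *ᵥ v ∈ W

section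

variable {J : Type} [Fintype J] [DecidableEq J] {ρ : Matrix ι ι ℂ →ₗ[ℂ] Matrix J J ℂ}

lemma Pres.mul {G G' : Matrix J J ℂ} (hG : Pres h ρ G) (hG' : Pres h ρ G') :
    Pres h ρ (G * G') := by
  intro W hW v hv
  rw [← Matrix.mulVec_mulVec]
  exact hG W hW _ (hG' W hW v hv)

/-- Adjoints preserve the stable subspaces. -/
lemma Pres.adj (hh : IsLA h) (hρ : ∀ a, ρ aᴴ = (ρ a)ᴴ) {G : Matrix J J ℂ} (hG : Pres h ρ G) :
    Pres h ρ Gᴴ := by
  intro W hW v hv
  -- the orthogonal complement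
  let W' : Submodule ℂ (J → ℂ) :=
    { carrier := {w | ∀ u ∈ W, star u ⬝ᵥ w = 0}
      add_mem' := fun ha hb u hu => by rw [dotProduct_add, ha u hu, hb u hu, add_zero]
      zero_mem' := fun u _ => by rw [dotProduct_zero]
      smul_mem' := fun c a ha u hu => by rw [dotProduct_smul, ha u hu, smul_zero] }
  have hW' : ∀ z ∈ h, ∀ v ∈ W', ρ z *ᵥ v ∈ W' := by
    intro z hz v hv u hu
    rw [Matrix.dotProduct_mulVec]
    have e1 : star u ᵥ* ρ z = star (ρ zᴴ *ᵥ u) := by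
      rw [Matrix.star_mulVec, hρ, Matrix.conjTranspose_conjTranspose]
    rw [e1]
    exact hv _ (hW _ (hh.star z hz) u hu)
  obtain ⟨u, hu, hort⟩ := Pool.Agent.N996.BP.exists_orth (1 : Matrix J J ℂ) W (Gᴴ *ᵥ v)
  obtain ⟨r, hr⟩ : ∃ r, r = Gᴴ *ᵥ v - u := ⟨_, rfl⟩
  have hmem : r ∈ W' := by
    intro w hw
    have := hort w hw
    rwa [Matrix.one_mulVec, Matrix.one_mulVec, ← hr] at this
  have h1 : star r ⬝ᵥ r = 0 := by
    have e0 : star r ⬝ᵥ r = star r ⬝ᵥ (Gᴴ *ᵥ v) - star r ⬝ᵥ u := by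
      rw [← dotProduct_sub, ← hr]
    have e1 : star r ⬝ᵥ (Gᴴ *ᵥ v) = 0 := by
      rw [Matrix.star_dotProduct, Matrix.star_mulVec, Matrix.conjTranspose_conjTranspose,
        ← Matrix.dotProduct_mulVec, hG W' hW' _ hmem v hv, star_zero]
    have e2 : star r ⬝ᵥ u = 0 := by
      rw [Matrix.star_dotProduct, hmem u hu, star_zero]
    rw [e0, e1, e2, sub_zero]
  have h2 : r = 0 := dotProduct_star_self_eq_zero.1 h1
  rw [hr] at h2
  rw [sub_eq_zero.1 h2]
  exact hu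

end

lemma exp_ns (s : Matrix ι ι ℂ) : exp s * exp (-s) = 1 ∧ exp (-s) * exp s = 1 := by
  constructor
  · rw [← Matrix.exp_add_of_commute s (-s) (Commute.neg_right (Commute.refl s)),
      add_neg_cancel, exp_zero]
  · rw [← Matrix.exp_add_of_commute (-s) s (Commute.neg_left (Commute.refl s)),
      neg_add_cancel, exp_zero]

/-- **The decomposition theorem.** -/
theorem exists_dec (hh : IsLA h) (hS : IsGrp h St) {V : Submodule ℂ (ι → ℂ)}
    (hV : ∀ z ∈ h, ∀ v ∈ V, z *ᵥ v ∈ V) (hV0 : ∀ z ∈ h, (∀ v ∈ V, z *ᵥ v = 0) → z = 0)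
    {p p' : Matrix ι ι ℂ} (hp : p * p' = 1)
    (h1 : ∀ z ∈ h, p * z * p' ∈ h) (h2 : ∀ z ∈ h, p' * z * p ∈ h)
    (hT : ∀ k, ∃ (J : Type) (_ : Fintype J) (_ : DecidableEq J)
      (ρ : Matrix ι ι ℂ →ₗ[ℂ] Matrix J J ℂ) (Pi : V [⋀^Fin k]→ₗ[ℂ] (J → ℂ))
      (R : Matrix ι ι ℂ →* Matrix J J ℂ),
      (∀ a b, ρ (br a b) = br (ρ a) (ρ b)) ∧ (∀ a, ρ aᴴ = (ρ a)ᴴ) ∧ (∀ a, R aᴴ = (R a)ᴴ) ∧
      (∀ z (hz : z ∈ h) (v : Fin k → V), ρ z *ᵥ Pi v =
        ∑ j, Pi (Function.update v j ⟨z *ᵥ (v j : ι → ℂ), hV z hz _ (v j).2⟩)) ∧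
      (∀ v, LinearIndependent ℂ v → Pi v ≠ 0) ∧
      (∀ g g' z, g * g' = 1 → R g * ρ z = ρ (g * z * g') * R g) ∧
      (∀ (U : Matrix ι ι ℂ) (_ : Uᴴ * U = 1) (d : ι → ℝ) (_ : ∀ i, 0 < d i) (W : Submodule ℂ (J → ℂ)),
        (∀ v ∈ W, R (fn U (fun i => (d i : ℂ))) *ᵥ v ∈ W) →
        ∀ v ∈ W, R (fn U (fun i => (((Real.sqrt (d i))⁻¹ : ℝ) : ℂ))) *ᵥ v ∈ W) ∧
      (∀ q ∈ St, Pres h ρ (R q)) ∧ Pres h ρ (R p)) :
    ∃ q ∈ St, ∃ q' ∈ St, q * q' = 1 ∧ ∀ w ∈ h, (q' * p) * w = w * (q' * p) := by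
  have hp' : p' * p = 1 := mul_eq_one_comm.1 hp
  obtain ⟨U, d, s₁, s₂, hU, hd, hP, hs₁, hs₂, hE, hE'⟩ := polar hh hp h1 h2
  obtain ⟨x, hxh, hxH, hxr⟩ := exists_regular h
  have hx : IsReg h x := ⟨hxh, hxH, hxr⟩
  have hs12 : s₂ * s₁ = s₁ * s₂ := hs₂ s₁ hs₁
  have hU' : U * Uᴴ = 1 := mul_eq_one_comm.1 hU
  -- the exponentials
  obtain ⟨E, hEd⟩ : ∃ E, E = exp (-(s₁ + s₂)) := ⟨_, rfl⟩
  obtain ⟨F, hFd⟩ : ∃ F, F = exp (s₁ + s₂) := ⟨_, rfl⟩
  rw [← hEd] at hE'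
  rw [← hFd] at hE
  have hEF : E * F = 1 := by
    rw [hEd, hFd]
    exact (exp_ns _).2
  have hFE : F * E = 1 := mul_eq_one_comm.1 hEF
  have hEH : Eᴴ = E := by
    rw [hE', fn, Matrix.conjTranspose_mul, Matrix.conjTranspose_mul,
      Matrix.conjTranspose_conjTranspose, Matrix.diagonal_conjTranspose]
    have : star (fun i => (((Real.sqrt (d i))⁻¹ : ℝ) : ℂ)) =
        fun i => (((Real.sqrt (d i))⁻¹ : ℝ) : ℂ) := by
      funext i; simp
    rw [this]
    simp only [Matrix.mul_assoc]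
  obtain ⟨k, hk⟩ : ∃ k, k = p * E := ⟨_, rfl⟩
  have hkk : kᴴ * k = 1 := by
    rw [hk, Matrix.conjTranspose_mul, hEH]
    calc E * pᴴ * (p * E) = E * (pᴴ * p) * E := by simp only [Matrix.mul_assoc]
      _ = 1 := by
        rw [hP, hE', fn_mul hU, fn_mul hU, ← fn_one hU']
        congr 1
        funext i
        have h3 := Real.mul_self_sqrt (hd i).le
        have h4 := (Real.sqrt_pos.2 (hd i)).ne'
        rw [← Complex.ofReal_mul, ← Complex.ofReal_mul, ← Complex.ofReal_one]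
        congr 1
        obtain ⟨r, hr⟩ : ∃ r, r = Real.sqrt (d i) := ⟨_, rfl⟩
        rw [← hr] at h3 h4 ⊢
        rw [← h3]
        field_simp
  have hkk' : k * kᴴ = 1 := mul_eq_one_comm.1 hkk
  have hpk : p = k * F := by rw [hk, Matrix.mul_assoc, hEF, Matrix.mul_one]
  -- `E` and `F` normalise the Lie algebra
  have hexp : F = exp s₁ * exp s₂ := by
    rw [hFd, Matrix.exp_add_of_commute _ _ hs12.symm]
  have hexp' : E = exp (-s₁) * exp (-s₂) := by
    have hc12 : Commute s₁ s₂ := hs12.symm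
    rw [hEd, neg_add, Matrix.exp_add_of_commute _ _ hc12.neg_left.neg_right]
  have hns : ∀ s : Matrix ι ι ℂ, exp s * exp (-s) = 1 ∧ exp (-s) * exp s = 1 := exp_ns
  have hcs₂ : ∀ z ∈ h, exp s₂ * z = z * exp s₂ := fun z hz => exp_comm (hs₂ z hz)
  have hcs₂' : ∀ z ∈ h, exp (-s₂) * z = z * exp (-s₂) := fun z hz => exp_comm (by
    rw [Matrix.neg_mul, Matrix.mul_neg, hs₂ z hz])
  have hEad : ∀ z ∈ h, E * z * F ∈ h := by
    intro z hz
    have e1 : E * z * F = exp (-s₁) * z * exp s₁ := by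
      rw [hexp, hexp']
      calc exp (-s₁) * exp (-s₂) * z * (exp s₁ * exp s₂) =
          exp (-s₁) * (exp (-s₂) * z) * exp s₁ * exp s₂ := by simp only [Matrix.mul_assoc]
        _ = exp (-s₁) * z * (exp (-s₂) * exp s₁) * exp s₂ := by
            rw [hcs₂' z hz]; simp only [Matrix.mul_assoc]
        _ = exp (-s₁) * z * (exp s₁ * exp (-s₂)) * exp s₂ := by
            rw [exp_comm (a := -s₂) (b := exp s₁)]
            exact (exp_comm (a := s₁) (b := -s₂) (by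
              rw [Matrix.neg_mul, Matrix.mul_neg, hs12])).symm
        _ = exp (-s₁) * z * exp s₁ * (exp (-s₂) * exp s₂) := by simp only [Matrix.mul_assoc]
        _ = _ := by rw [(hns s₂).2, Matrix.mul_one]
    rw [e1]
    exact hS.ad _ (hS.exp _ (Submodule.neg_mem _ hs₁)) _ (hns s₁).2 z hz
  have hkad : ∀ z ∈ h, k * z * kᴴ ∈ h := by
    intro z hz
    have e1 : kᴴ = F * p' := by
      calc kᴴ = kᴴ * (p * p') := by rw [hp, Matrix.mul_one]
        _ = (kᴴ * k) * F * p' := by rw [hpk]; simp only [Matrix.mul_assoc]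
        _ = _ := by rw [hkk, Matrix.one_mul]
    have e2 : k * z * kᴴ = p * (E * z * F) * p' := by
      rw [e1, hk]; simp only [Matrix.mul_assoc]
    rw [e2]
    exact h1 _ (hEad z hz)
  obtain ⟨u, hu, y, hyh, hy, hyH, hxy, hpos⟩ := exists_max hh hx hS.isCG hkad
  obtain ⟨g, hg⟩ : ∃ g, g = u * k := ⟨_, rfl⟩
  rw [← hg] at hy
  have hgg : gᴴ * g = 1 := by
    rw [hg, Matrix.conjTranspose_mul]
    calc kᴴ * uᴴ * (u * k) = kᴴ * (uᴴ * u) * k := by simp only [Matrix.mul_assoc]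
      _ = 1 := by rw [hu.1, Matrix.mul_one, hkk]
  have hgg' : g * gᴴ = 1 := mul_eq_one_comm.1 hgg
  have hT' : ∀ k, ∃ (J : Type) (_ : Fintype J) (_ : DecidableEq J)
      (ρ : Matrix ι ι ℂ →ₗ[ℂ] Matrix J J ℂ) (Pi : V [⋀^Fin k]→ₗ[ℂ] (J → ℂ)) (G G' : Matrix J J ℂ),
      Test h V hV x y k ρ Pi G G' := by
    intro m
    obtain ⟨J, _, _, ρ, Pi, R, a1, a2, a3, a4, a5, a6, a7, a8, a9⟩ := hT m
    -- `R g` preserves the stable subspaces
    have b1 : Pres h ρ (R (pᴴ * p)) := by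
      rw [map_mul, a3]
      exact (Pres.adj hh a2 a9).mul a9
    have b2 : Pres h ρ (R E) := by
      intro W hW v hv
      rw [hE']
      refine a7 U hU d hd W ?_ v hv
      rw [← hP]
      exact b1 W hW
    have b3 : Pres h ρ (R g) := by
      rw [hg, hk, map_mul, map_mul]
      exact (a8 u hu.2).mul (a9.mul b2)
    have b4 : Pres h ρ (R gᴴ) := by
      rw [a3]
      exact Pres.adj hh a2 b3
    exact ⟨J, inferInstance, inferInstance, ρ, Pi, R g, R gᴴ,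
      { brk := a1
        act := a4
        ne := a5
        inv := by rw [← map_mul, hgg', map_one]
        stab := fun W hW => ⟨b3 W hW, b4 W hW⟩
        conj := by rw [a6 g gᴴ x hgg', hy] }⟩
  have hagree := fun (v : ι → ℂ) (hv : v ∈ V) => agree hh hx hyh hyH hxy hpos hV hT' hv
  have hyx : y = x := by
    have e1 := hV0 (y - x) (Submodule.sub_mem _ hyh hxh) (fun v hv => by
      rw [Matrix.sub_mulVec, hagree v hv, sub_self])
    exact sub_eq_zero.1 e1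
  have hxg : x * g = g * x := by
    rw [hyx] at hy
    calc x * g = (g * x * gᴴ) * g := by rw [← hy]
      _ = g * x * (gᴴ * g) := by simp only [Matrix.mul_assoc]
      _ = g * x := by rw [hgg, Matrix.mul_one]
  have hgad : ∀ z ∈ h, g * z * gᴴ ∈ h := by
    intro z hz
    have e1 : g * z * gᴴ = u * (k * z * kᴴ) * uᴴ := by
      rw [hg, Matrix.conjTranspose_mul]; simp only [Matrix.mul_assoc]
    rw [e1]
    exact hS.isCG.ad u hu _ (hkad z hz)
  obtain ⟨s, hs, hsH, hcomm⟩ := exists_inner hh hx hgg hxg hgad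
  obtain ⟨z, hz⟩ : ∃ z, z = exp (-s) * g := ⟨_, rfl⟩
  rw [← hz] at hcomm
  have huu' : u * uᴴ = 1 := mul_eq_one_comm.1 hu.1
  have huSt : uᴴ ∈ St := by
    obtain ⟨u', hu', huu⟩ := hS.inv u hu.2
    have : u' = uᴴ := by
      calc u' = (uᴴ * u) * u' := by rw [hu.1, Matrix.one_mul]
        _ = uᴴ := by rw [Matrix.mul_assoc, huu, Matrix.mul_one]
    rw [← this]
    exact hu'
  have hsneg : -s ∈ h := Submodule.neg_mem _ hs
  have hs₁neg : -s₁ ∈ h := Submodule.neg_mem _ hs₁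
  refine ⟨uᴴ * exp s * exp s₁, St.mul_mem (St.mul_mem huSt (hS.exp s hs)) (hS.exp s₁ hs₁),
    exp (-s₁) * (exp (-s) * u), St.mul_mem (hS.exp _ hs₁neg) (St.mul_mem (hS.exp _ hsneg) hu.2),
    ?_, ?_⟩
  · calc uᴴ * exp s * exp s₁ * (exp (-s₁) * (exp (-s) * u)) =
        uᴴ * exp s * (exp s₁ * exp (-s₁)) * exp (-s) * u := by simp only [Matrix.mul_assoc]
      _ = uᴴ * (exp s * exp (-s)) * u := by
          rw [(hns s₁).1, Matrix.mul_one]; simp only [Matrix.mul_assoc]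
      _ = 1 := by rw [(hns s).1, Matrix.mul_one, hu.1]
  · have e1 : exp (-s₁) * (exp (-s) * u) * p = z * exp s₂ := by
      calc exp (-s₁) * (exp (-s) * u) * p = exp (-s₁) * (exp (-s) * (u * k)) * F := by
            rw [hpk]; simp only [Matrix.mul_assoc]
        _ = exp (-s₁) * z * (exp s₁ * exp s₂) := by rw [← hg, ← hz, hexp]
        _ = (exp (-s₁) * z) * exp s₁ * exp s₂ := by simp only [Matrix.mul_assoc]
        _ = z * (exp (-s₁) * exp s₁) * exp s₂ := by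
            rw [exp_comm (a := -s₁) (b := z) (by
              rw [Matrix.neg_mul, Matrix.mul_neg, hcomm s₁ hs₁])]
            simp only [Matrix.mul_assoc]
        _ = z * exp s₂ := by rw [(hns s₁).2, Matrix.mul_one]
    intro w hw
    rw [e1]
    calc z * exp s₂ * w = z * (exp s₂ * w) := by rw [Matrix.mul_assoc]
      _ = (z * w) * exp s₂ := by rw [hcs₂ w hw, Matrix.mul_assoc]
      _ = w * (z * exp s₂) := by rw [hcomm w hw, Matrix.mul_assoc]

end Pool.Agent.N996.FP
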