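import Mathlib

/-!
# One-parameter groups of matrices
-/

set_option linter.unusedSectionVars false

namespace Pool.Agent.N996.FP

open Matrix NormedSpace

variable {ι : Type} [Fintype ι] [DecidableEq ι]

section

open scoped Matrix.Norms.Operator

lemma hasDerivAt_exp (z : Matrix ι ι ℂ) (t : ℝ) :
    HasDerivAt (fun u : ℝ => exp (u • z)) (exp (t • z) * z) t :=
  hasDerivAt_exp_smul_const z t

lemma hasDerivAt_exp' (z : Matrix ι ι ℂ) (t : ℝ) :
    HasDerivAt (fun u : ℝ => exp (u • z)) (z * exp (t • z)) t :=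
  hasDerivAt_exp_smul_const' z t

/-- The derivative of the conjugates. -/
lemma hasDerivAt_conj (z w : Matrix ι ι ℂ) (t : ℝ) :
    HasDerivAt (fun u : ℝ => exp (u • z) * w * exp (u • (-z)))
      (exp (t • z) * (z * w - w * z) * exp (t • (-z))) t := by
  have h1 := ((hasDerivAt_exp z t).mul_const w).mul (hasDerivAt_exp' (-z) t)
  refine h1.congr_deriv ?_
  rw [Matrix.mul_sub, Matrix.sub_mul]
  simp only [Matrix.mul_assoc, Matrix.neg_mul, Matrix.mul_neg]
  rw [sub_eq_add_neg]

/-- The trace form. -/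
noncomputable def trL (v : Matrix ι ι ℂ) : Matrix ι ι ℂ →ₗ[ℝ] ℝ :=
  Complex.reLm ∘ₗ ((Matrix.traceLinearMap ι ℝ ℂ) ∘ₗ (LinearMap.mulRight ℝ v))

lemma trL_apply (v w : Matrix ι ι ℂ) : trL v w = (w * v).trace.re := rfl

lemma hasDerivAt_trL (z w v : Matrix ι ι ℂ) (t : ℝ) :
    HasDerivAt (fun u : ℝ => (exp (u • z) * w * exp (u • (-z)) * v).trace.re)
      (exp (t • z) * (z * w - w * z) * exp (t • (-z)) * v).trace.re t := by
  have h1 : HasFDerivAt (fun m : Matrix ι ι ℂ => (m * v).trace.re)
      (LinearMap.toContinuousLinearMap (trL v)) (exp (t • z) * w * exp (t • (-z))) :=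
    (LinearMap.toContinuousLinearMap (trL v)).hasFDerivAt
  exact h1.comp_hasDerivAt t (hasDerivAt_conj z w t)

end

/-- **The conditions at a maximum.** -/
theorem max_cond {z w v : Matrix ι ι ℂ}
    (h : ∀ t : ℝ, (exp (t • z) * w * exp (t • (-z)) * v).trace.re ≤ (w * v).trace.re) :
    ((z * w - w * z) * v).trace.re = 0 ∧
    ((z * (z * w - w * z) - (z * w - w * z) * z) * v).trace.re ≤ 0 := by
  let f : ℝ → ℝ := fun t => (exp (t • z) * w * exp (t • (-z)) * v).trace.re
  have h0 : f 0 = (w * v).trace.re := by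
    simp only [f, zero_smul, exp_zero, Matrix.one_mul, Matrix.mul_one]
  have hmax : IsLocalMax f 0 := by
    refine Filter.Eventually.of_forall fun t => ?_
    rw [h0]
    exact h t
  have hd : ∀ t, HasDerivAt f (exp (t • z) * (z * w - w * z) * exp (t • (-z)) * v).trace.re t :=
    fun t => hasDerivAt_trL z w v t
  have hd' : deriv f = fun t => (exp (t • z) * (z * w - w * z) * exp (t • (-z)) * v).trace.re := by
    funext t
    exact (hd t).deriv
  have hdd : deriv (deriv f) 0 =
      ((z * (z * w - w * z) - (z * w - w * z) * z) * v).trace.re := by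
    rw [hd', (hasDerivAt_trL z (z * w - w * z) v 0).deriv]
    simp only [zero_smul, exp_zero, Matrix.one_mul, Matrix.mul_one]
  have hf0 : deriv f 0 = ((z * w - w * z) * v).trace.re := by
    rw [hd']
    simp only [zero_smul, exp_zero, Matrix.one_mul, Matrix.mul_one]
  have h1 : deriv f 0 = 0 := hmax.deriv_eq_zero
  refine ⟨by rw [← hf0, h1], ?_⟩
  rw [← hdd]
  by_contra hcon
  push Not at hcon
  have hmin : IsLocalMin f 0 := isLocalMin_of_deriv_deriv_pos hcon h1 (hd 0).continuousAt
  have heq : f =ᶠ[nhds 0] fun _ => f 0 := by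
    filter_upwards [hmax, hmin] with t h2 h3
    exact le_antisymm h2 h3
  have h4 : deriv f =ᶠ[nhds 0] deriv fun _ => f 0 := heq.deriv
  have h5 := h4.deriv_eq
  rw [h5] at hcon
  simp at hcon

end Pool.Agent.N996.FP
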