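import Pool.Agent.N996.BP.Kp
import Pool.Agent.N996.FP.Dec

/-!
# Kronecker powers and derivations
-/

set_option linter.unusedSectionVars false

namespace Pool.Agent.N996.FP

open Matrix Pool.Agent.N996.BP

variable {ι : Type} [Fintype ι] [DecidableEq ι] {κ : Type} [Fintype κ] [DecidableEq κ]
  {l : Type} [Fintype l] [DecidableEq l]

/-- The Kronecker product of a family of matrices. -/
def kpf (g : κ → Matrix ι ι ℂ) : Matrix (κ → ι) (κ → ι) ℂ :=
  Matrix.of fun i j => ∏ k, g k (i k) (j k)

lemma kpf_apply (g : κ → Matrix ι ι ℂ) (i j : κ → ι) : kpf g i j = ∏ k, g k (i k) (j k) := rfl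

lemma kpf_const (g : Matrix ι ι ℂ) : kpf (fun _ : κ => g) = kp κ g := rfl

lemma kpf_mul (g g' : κ → Matrix ι ι ℂ) : kpf g * kpf g' = kpf fun k => g k * g' k := by
  ext i j
  simp only [kpf_apply, Matrix.mul_apply]
  rw [Finset.prod_univ_sum]
  refine Finset.sum_congr (by ext; simp) fun a _ => ?_
  rw [Finset.prod_mul_distrib]

lemma kpf_conjTranspose (g : κ → Matrix ι ι ℂ) : (kpf g)ᴴ = kpf fun k => (g k)ᴴ := by
  ext i j
  simp [kpf_apply, Matrix.conjTranspose_apply]

/-- The matrix acting on one slot. -/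
def slot (k : κ) (x : Matrix ι ι ℂ) : Matrix (κ → ι) (κ → ι) ℂ :=
  kpf (Function.update (fun _ => 1) k x)

lemma slot_apply (k : κ) (x : Matrix ι ι ℂ) (i j : κ → ι) :
    slot k x i j = x (i k) (j k) * ∏ m ∈ Finset.univ.erase k, (1 : Matrix ι ι ℂ) (i m) (j m) := by
  rw [slot, kpf_apply, ← Finset.mul_prod_erase _ _ (Finset.mem_univ k), Function.update_self]
  congr 1
  refine Finset.prod_congr rfl fun m hm => ?_
  rw [Function.update_of_ne (Finset.ne_of_mem_erase hm)]

lemma slot_mul_self (k : κ) (x y : Matrix ι ι ℂ) : slot k x * slot k y = slot k (x * y) := by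
  rw [slot, slot, slot, kpf_mul]
  congr 1
  funext m
  by_cases h : m = k
  · subst h; simp
  · rw [Function.update_of_ne h, Function.update_of_ne h, Function.update_of_ne h, Matrix.one_mul]

lemma slot_comm {k m : κ} (h : k ≠ m) (x y : Matrix ι ι ℂ) :
    slot k x * slot m y = slot m y * slot k x := by
  rw [slot, slot, kpf_mul, kpf_mul]
  congr 1
  funext n
  by_cases h1 : n = k
  · subst h1
    rw [Function.update_self, Function.update_of_ne h, Matrix.one_mul, Matrix.mul_one]
  · rw [Function.update_of_ne h1, Matrix.one_mul, Matrix.mul_one]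

/-- The derivation given by a matrix. -/
def dk (κ : Type) [Fintype κ] [DecidableEq κ] (x : Matrix ι ι ℂ) : Matrix (κ → ι) (κ → ι) ℂ :=
  ∑ k, slot k x

lemma dk_def (x : Matrix ι ι ℂ) : dk κ x = ∑ k, slot k x := rfl

lemma slot_add (k : κ) (x y : Matrix ι ι ℂ) : slot k (x + y) = slot k x + slot k y := by
  ext i j
  rw [Matrix.add_apply, slot_apply, slot_apply, slot_apply, Matrix.add_apply, add_mul]

lemma slot_smul (k : κ) (c : ℂ) (x : Matrix ι ι ℂ) : slot k (c • x) = c • slot k x := by
  ext i j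
  rw [Matrix.smul_apply, slot_apply, slot_apply, Matrix.smul_apply, smul_eq_mul, smul_eq_mul,
    mul_assoc]

/-- The derivations as a linear map. -/
def dkL (κ : Type) [Fintype κ] [DecidableEq κ] :
    Matrix ι ι ℂ →ₗ[ℂ] Matrix (κ → ι) (κ → ι) ℂ where
  toFun x := dk κ x
  map_add' x y := by
    rw [dk, dk, dk, ← Finset.sum_add_distrib]
    exact Finset.sum_congr rfl fun k _ => slot_add k x y
  map_smul' c x := by
    rw [dk, dk, RingHom.id_apply, Finset.smul_sum]
    exact Finset.sum_congr rfl fun k _ => slot_smul k c x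

lemma dk_br (x y : Matrix ι ι ℂ) : dk κ (br x y) = br (dk κ x) (dk κ y) := by
  have h1 : dk κ (br x y) = ∑ k : κ, br (slot k x) (slot k y) := by
    have h2 := (dkL (ι := ι) κ).map_sub (x * y) (y * x)
    change dk κ (x * y - y * x) = dk κ (x * y) - dk κ (y * x) at h2
    rw [br, h2, dk, dk, ← Finset.sum_sub_distrib]
    refine Finset.sum_congr rfl fun k _ => ?_
    rw [br, slot_mul_self, slot_mul_self]
  rw [h1, br, dk, dk, Finset.sum_mul_sum, Finset.sum_mul_sum]
  rw [Finset.sum_comm (f := fun i j => slot i y * slot j x), ← Finset.sum_sub_distrib]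
  refine Finset.sum_congr rfl fun k _ => ?_
  rw [← Finset.sum_sub_distrib, Finset.sum_eq_single k]
  · rfl
  · intro m _ hm
    rw [slot_comm (Ne.symm hm), sub_self]
  · intro h; exact absurd (Finset.mem_univ k) h

lemma dk_conjTranspose (x : Matrix ι ι ℂ) : dk κ xᴴ = (dk κ x)ᴴ := by
  rw [dk, dk, Matrix.conjTranspose_sum]
  refine Finset.sum_congr rfl fun k _ => ?_
  rw [slot, slot, kpf_conjTranspose]
  congr 1
  funext m
  by_cases h : m = k
  · subst h; simp
  · rw [Function.update_of_ne h, Function.update_of_ne h, Matrix.conjTranspose_one]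

lemma kp_dk {g g' : Matrix ι ι ℂ} (h : g' * g = 1) (z : Matrix ι ι ℂ) :
    kp κ g * dk κ z = dk κ (g * z * g') * kp κ g := by
  rw [dk, dk, Finset.mul_sum, Finset.sum_mul]
  refine Finset.sum_congr rfl fun k _ => ?_
  rw [slot, slot, ← kpf_const, kpf_mul, kpf_mul]
  congr 1
  funext m
  by_cases h1 : m = k
  · subst h1
    rw [Function.update_self, Function.update_self, Matrix.mul_assoc (g * z), h, Matrix.mul_one]
  · rw [Function.update_of_ne h1, Function.update_of_ne h1, Matrix.mul_one, Matrix.one_mul]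

/-- Kronecker powers as a monoid homomorphism. -/
def kpH (κ : Type) [Fintype κ] [DecidableEq κ] : Matrix ι ι ℂ →* Matrix (κ → ι) (κ → ι) ℂ where
  toFun := kp κ
  map_one' := kp_one
  map_mul' := kp_mul

lemma kp_conjT (g : Matrix ι ι ℂ) : kp κ gᴴ = (kp κ g)ᴴ := by
  ext i j
  simp [kp_apply, Matrix.conjTranspose_apply]

/-- The derivative of the Kronecker power. -/
lemma hasDerivAt_kp {g : ℝ → Matrix ι ι ℂ} {g' : Matrix ι ι ℂ} {t : ℝ} (h1 : g t = 1)
    (hg : ∀ i j, HasDerivAt (fun s => g s i j) (g' i j) t) (i j : κ → ι) :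
    HasDerivAt (fun s => kp κ (g s) i j) (dk κ g' i j) t := by
  have h2 := HasDerivAt.fun_finsetProd (u := (Finset.univ : Finset κ))
    (f := fun k s => g s (i k) (j k)) (f' := fun k => g' (i k) (j k)) (x := t)
    fun k _ => hg (i k) (j k)
  refine h2.congr_deriv ?_
  rw [dk, Matrix.sum_apply]
  refine Finset.sum_congr rfl fun k _ => ?_
  rw [slot_apply, smul_eq_mul, mul_comm]
  congr 1
  refine Finset.prod_congr rfl fun m _ => ?_
  rw [h1]

lemma hasDerivAt_kpv {g : ℝ → Matrix ι ι ℂ} {g' : Matrix ι ι ℂ} {t : ℝ} (h1 : g t = 1)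
    (hg : ∀ i j, HasDerivAt (fun s => g s i j) (g' i j) t) (a : (κ → ι) → ℂ) (i : κ → ι) :
    HasDerivAt (fun s => (kp κ (g s) *ᵥ a) i) ((dk κ g' *ᵥ a) i) t := by
  have h2 : HasDerivAt (fun s => ∑ j, kp κ (g s) i j * a j) (∑ j, dk κ g' i j * a j) t := by
    have := HasDerivAt.fun_sum (u := (Finset.univ : Finset (κ → ι)))
      (A := fun j s => kp κ (g s) i j * a j) (A' := fun j => dk κ g' i j * a j) (x := t)
      fun j _ => (hasDerivAt_kp h1 hg i j).mul_const (a j)
    exact this
  exact h2

/-- The entries. -/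
def entL (i j : ι) : Matrix ι ι ℂ →ₗ[ℝ] ℂ where
  toFun m := m i j
  map_add' _ _ := rfl
  map_smul' _ _ := rfl

/-- An array killed by `x` is fixed by the exponential of `x`. -/
lemma kp_exp_fix {x : Matrix ι ι ℂ} {a : (κ → ι) → ℂ} (h : dk κ x *ᵥ a = 0) :
    kp κ (NormedSpace.exp x) *ᵥ a = a := by
  have hent : ∀ (t : ℝ) i j, HasDerivAt (fun s : ℝ => (NormedSpace.exp ((s - t) • x)) i j)
      (x i j) t := by
    intro t i j
    open scoped Matrix.Norms.Operator in
    have h1 : HasDerivAt (fun s : ℝ => NormedSpace.exp ((s - t) • x)) x t := by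
      have h0 : HasDerivAt (fun s : ℝ => s - t) 1 t := (hasDerivAt_id' t).sub_const t
      have h2 := HasDerivAt.scomp t (g₁ := fun u : ℝ => NormedSpace.exp (u • x))
        (h := fun s : ℝ => s - t) (hasDerivAt_exp' x (t - t)) h0
      rw [sub_self, zero_smul, NormedSpace.exp_zero, Matrix.mul_one, one_smul] at h2
      exact h2
    have h3 : HasFDerivAt (fun m : Matrix ι ι ℂ => m i j)
      (LinearMap.toContinuousLinearMap (entL i j)) (NormedSpace.exp ((t - t) • x)) :=
      (LinearMap.toContinuousLinearMap (entL i j)).hasFDerivAt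
    exact h3.comp_hasDerivAt t h1
  funext i
  let f : ℝ → ℂ := fun s => (kp κ (NormedSpace.exp (s • x)) *ᵥ a) i
  have hf : ∀ t, HasDerivAt f 0 t := by
    intro t
    have e1 : ∀ s : ℝ, NormedSpace.exp (s • x) =
        NormedSpace.exp (t • x) * NormedSpace.exp ((s - t) • x) := by
      intro s
      rw [← Matrix.exp_add_of_commute]
      · rw [← add_smul, add_sub_cancel]
      · exact (Commute.refl x).smul_left t |>.smul_right (s - t)
    have e2 : f = fun s => ∑ j, kp κ (NormedSpace.exp (t • x)) i j *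
        (kp κ (NormedSpace.exp ((s - t) • x)) *ᵥ a) j := by
      funext s
      simp only [f]
      rw [e1 s, kp_mul, ← Matrix.mulVec_mulVec]
      rfl
    rw [e2]
    have e3 : ∀ j, HasDerivAt (fun s => (kp κ (NormedSpace.exp ((s - t) • x)) *ᵥ a) j) 0 t := by
      intro j
      have := hasDerivAt_kpv (κ := κ) (g := fun s => NormedSpace.exp ((s - t) • x)) (t := t)
        (by rw [sub_self, zero_smul, NormedSpace.exp_zero]) (hent t) a j
      rw [h] at this
      exact this
    have e4 := HasDerivAt.fun_sum (u := (Finset.univ : Finset (κ → ι)))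
      (A := fun j s => kp κ (NormedSpace.exp (t • x)) i j *
        (kp κ (NormedSpace.exp ((s - t) • x)) *ᵥ a) j) (A' := fun j => 0) (x := t)
      fun j _ => by simpa using (e3 j).const_mul (kp κ (NormedSpace.exp (t • x)) i j)
    simpa using e4
  have h1 : f 1 = f 0 := by
    apply is_const_of_deriv_eq_zero
    · exact fun t => (hf t).differentiableAt
    · exact fun t => (hf t).deriv
  simp only [f, one_smul, zero_smul, NormedSpace.exp_zero, kp_one, Matrix.one_mulVec] at h1
  exact h1

end Pool.Agent.N996.FP
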