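import Pool.Agent.N996.BP.Ext2

/-!
# Endomorphisms of Hodge structures
-/

namespace Pool.Agent.N996.FP

open Pool.Agent.Y121.AHS Pool.Agent.N996.BP

/-- The linear map `F` has the same trace on the subspaces `p` and `q` (if they are stable). -/
def SameTraces {E : Type} [AddCommGroup E] [Module ℂ E] (F : E →ₗ[ℂ] E) (p q : Submodule ℂ E) :
    Prop :=
  ∀ (h : ∀ x ∈ p, F x ∈ p) (h' : ∀ x ∈ q, F x ∈ q),
    LinearMap.trace ℂ p (F.restrict h) = LinearMap.trace ℂ q (F.restrict h')

/-- The value of a linear map. -/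
def ap {K A B : Type} [Field K] [Ring A] [Algebra K A] [Ring B] [Algebra K B] (f : A →ₗ[K] B)
    (a : A) : B := f a

variable {K A : Type} [Field K] [Algebra K ℂ] [Ring A] [Algebra K A]

/-- The subspace `V` has dimension `d` and generates the algebra `A`. -/
def GenDim (V : Submodule K A) (d : ℕ) : Prop :=
  Algebra.adjoin K (V : Set A) = ⊤ ∧ Module.finrank K V = d

/-- The map `f` induces an endomorphism of the rational Hodge structure `V` of weight one with
decomposition `pq`: it maps `V` to itself and `pq p q` to itself for `p + q = 1`. -/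
def IsEnd (V : Submodule K A) (pq : ℤ → ℤ → Submodule ℂ (Ext K ℂ A)) (f : A →ₗ[K] A) : Prop :=
  (∀ c ∈ V, f c ∈ V) ∧ ∀ p q : ℤ, p + q = 1 → ∀ x ∈ pq p q, extMap K ℂ f x ∈ pq p q

/-- The map `f` induces an element of the centre of the algebra of the endomorphisms of the Hodge
structure `V`. -/
def IsCentral (V : Submodule K A) (pq : ℤ → ℤ → Submodule ℂ (Ext K ℂ A)) (f : A →ₗ[K] A) : Prop :=
  IsEnd V pq f ∧ ∀ g : A →ₗ[K] A, IsEnd V pq g → ∀ c ∈ V, f (g c) = g (f c)

/-- The elements of the centre are self-adjoint for the form `ψ`. -/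
def CentreSelfAdjoint (V : Submodule K A) (pq : ℤ → ℤ → Submodule ℂ (Ext K ℂ A)) (ψ : Bil K A) :
    Prop :=
  ∀ f : A →ₗ[K] A, IsCentral V pq f → ∀ c ∈ V, ∀ d ∈ V, ψ (f c) d = ψ c (f d)

/-- The extensions `F` of the elements `f` of the centre to complex coefficients have the same
traces on `pq 1 0` and on `pq 0 1`. -/
def CentreEqualTraces (V : Submodule K A) (pq : ℤ → ℤ → Submodule ℂ (Ext K ℂ A)) : Prop :=
  ∀ f : A →ₗ[K] A, IsCentral V pq f → ∀ F : Ext K ℂ A →ₗ[ℂ] Ext K ℂ A,
    (∀ x, F x = extMap K ℂ f x) → SameTraces F (pq 1 0) (pq 0 1)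

end Pool.Agent.N996.FP
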