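import Pool.Agent.N996.FP.Hw

/-!
# Tensors of weight zero
-/

set_option linter.unusedSectionVars false

namespace Pool.Agent.N996.FP

open Matrix Pool.Agent.N996.BP ComplexOrder

variable {ι : Type} [Fintype ι] [DecidableEq ι] {h : Submodule ℂ (Matrix ι ι ℂ)}
  {x z : Matrix ι ι ℂ} {n : ℕ} {A : Type} [Ring A] [Algebra ℂ A]

lemma tot_herm {V : Submodule ℂ (ι → ℂ)} (B : Bz h x z V n) (s : Multiset (Fin n)) :
    (B.tot s)ᴴ = B.tot s ∧ B.tot s ∈ ct h x := by
  induction s using Multiset.induction_on with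
  | empty =>
    rw [Bz.tot, Multiset.map_zero, Multiset.sum_zero]
    exact ⟨Matrix.conjTranspose_zero, (ct h x).zero_mem⟩
  | cons a s ih =>
    rw [B.tot_cons, Matrix.conjTranspose_add, ih.1, (B.wt a).herm]
    exact ⟨rfl, (ct h x).add_mem (B.wt a).mem ih.2⟩

lemma tot_trace {V : Submodule ℂ (ι → ℂ)} (B : Bz h x z V n) {κ : Type} [Fintype κ]
    {m : κ → ℕ} (f : ∀ k, Fin (m k) → Fin n) (t : Matrix ι ι ℂ) :
    ∑ k, ∑ j, (B.T (f k j) * t).trace =
      (B.tot (∑ k, Finset.univ.val.map (f k)) * t).trace := by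
  classical
  have h1 : ∀ u : Finset κ, ∑ k ∈ u, ∑ j, (B.T (f k j) * t).trace =
      (B.tot (∑ k ∈ u, Finset.univ.val.map (f k)) * t).trace := by
    intro u
    induction u using Finset.induction_on with
    | empty =>
      rw [Finset.sum_empty, Finset.sum_empty, Bz.tot, Multiset.map_zero, Multiset.sum_zero,
        Matrix.zero_mul, Matrix.trace_zero]
    | insert a u ha ih =>
      rw [Finset.sum_insert ha, Finset.sum_insert ha, ih, B.tot_add, Matrix.add_mul,
        Matrix.trace_add]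
      congr 1
      rw [Bz.tot, Multiset.map_map]
      change _ = ((∑ j, B.T (f a j)) * t).trace
      rw [Finset.sum_mul, Matrix.trace_sum]
  exact h1 _

lemma zt_prod {V : Submodule ℂ (ι → ℂ)} (B : Bz h x z V n) {κ : Type} [Fintype κ]
    {m : κ → ℕ} (f : ∀ k, Fin (m k) → Fin n) :
    ∏ k, ∏ j, B.ζ (f k j) = B.zt (∑ k, Finset.univ.val.map (f k)) := by
  classical
  have h1 : ∀ u : Finset κ, ∏ k ∈ u, ∏ j, B.ζ (f k j) =
      B.zt (∑ k ∈ u, Finset.univ.val.map (f k)) := by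
    intro u
    induction u using Finset.induction_on with
    | empty => rw [Finset.prod_empty, Finset.sum_empty, Bz.zt, Multiset.map_zero,
        Multiset.prod_zero]
    | insert a u ha ih =>
      rw [Finset.prod_insert ha, Finset.sum_insert ha, ih, B.zt_add]
      congr 1
      rw [Bz.zt, Multiset.map_map]
      rfl
  exact h1 _

/-- **Tensors of weight zero are fixed.** -/
theorem fix_zero (D : PD h z A) (B : Bz h x z D.V n)
    (hs : ∀ s : Multiset (Fin n), B.tot s ∈ QL h x → B.zt s = 1) {κ : Type} [Fintype κ]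
    [DecidableEq κ] {a : (κ → ι) → ℂ} (ha : ∀ t ∈ h, x * t = t * x → dk κ t *ᵥ a = 0) :
    kp κ z *ᵥ a = a := by
  classical
  let P : Set ((κ → ι) → ℂ) := {a | ∃ p : κ → ι → ℂ, (∀ k, p k ∈ {a : ι → ℂ | ∃ (k : ℕ)
    (f : Fin k → Fin n), a = D.pv (B.v ∘ f)}) ∧ a = pt p}
  have hP : Submodule.span ℂ P = ⊤ := span_pt (D.span_pv B.sp)
  -- the two kinds of pure tensors
  have hdata : ∀ y ∈ P, ∃ s : Multiset (Fin n), kp κ z *ᵥ y = B.zt s • y ∧
      ∀ t ∈ h, x * t = t * x → dk κ t *ᵥ y = (B.tot s * t).trace • y := by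
    rintro y ⟨p, hp, rfl⟩
    choose m f hf using hp
    refine ⟨∑ k, Finset.univ.val.map (f k), ?_, fun t ht htx => ?_⟩
    · rw [kp_pt, ← zt_prod, ← pt_smul]
      congr 1
      funext k
      rw [hf k]
      exact D.pv_mul fun j => B.ez _
    · rw [← tot_trace]
      refine dk_pt_eig fun k => ?_
      rw [hf k]
      exact D.pv_eig ht fun j => (B.wt _).val t ⟨ht, htx⟩
  let E0 : Submodule ℂ ((κ → ι) → ℂ) :=
    { carrier := {y | kp κ z *ᵥ y = y ∧ ∀ t ∈ h, x * t = t * x → dk κ t *ᵥ y = 0}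
      add_mem' := by
        rintro a b ⟨h1, h2⟩ ⟨h3, h4⟩
        refine ⟨by rw [Matrix.mulVec_add, h1, h3], fun t ht htx => ?_⟩
        rw [Matrix.mulVec_add, h2 t ht htx, h4 t ht htx, add_zero]
      zero_mem' := ⟨Matrix.mulVec_zero _, fun t _ _ => Matrix.mulVec_zero _⟩
      smul_mem' := by
        rintro c a ⟨h1, h2⟩
        refine ⟨by rw [Matrix.mulVec_smul, h1], fun t ht htx => ?_⟩
        rw [Matrix.mulVec_smul, h2 t ht htx, smul_zero] }
  let E1 : Submodule ℂ ((κ → ι) → ℂ) := Submodule.span ℂ {y | ∃ ν : Matrix ι ι ℂ, ν ≠ 0 ∧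
    νᴴ = ν ∧ ν ∈ h ∧ x * ν = ν * x ∧ dk κ ν *ᵥ y = (ip ν ν : ℂ) • y}
  have hE : (⊤ : Submodule ℂ ((κ → ι) → ℂ)) ≤ E0 ⊔ E1 := by
    rw [← hP]
    refine Submodule.span_le.2 fun y hy => ?_
    obtain ⟨s, hs1, hs2⟩ := hdata y hy
    by_cases h0 : B.tot s = 0
    · refine Submodule.mem_sup_left ⟨?_, fun t ht htx => ?_⟩
      · rw [hs1, hs s (by rw [h0]; exact (QL h x).zero_mem), one_smul]
      · rw [hs2 t ht htx, h0, Matrix.zero_mul, Matrix.trace_zero, zero_smul]
    · obtain ⟨h1, h2⟩ := tot_herm B s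
      refine Submodule.mem_sup_right (Submodule.subset_span ⟨B.tot s, h0, h1, h2.1, h2.2, ?_⟩)
      rw [hs2 _ h2.1 h2.2, tr_ip h1 h1]
  obtain ⟨a₀, h0, a₁, h1, hsum⟩ := Submodule.mem_sup.1 (hE (Submodule.mem_top (x := a)))
  have h2 : ∀ t ∈ h, x * t = t * x → dk κ t *ᵥ a₁ = 0 := by
    intro t ht htx
    have h3 := ha t ht htx
    rw [← hsum, Matrix.mulVec_add, h0.2 t ht htx, zero_add] at h3
    exact h3
  have h3 : ∀ y ∈ E1, star a₁ ⬝ᵥ y = 0 := by
    intro y hy
    induction hy using Submodule.span_induction with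
    | mem y hy =>
      obtain ⟨ν, hν0, hνH, hν1, hν2, hν3⟩ := hy
      have h4 : star a₁ ⬝ᵥ (dk κ ν *ᵥ y) = 0 := by
        rw [Matrix.dotProduct_mulVec]
        have h5 : star a₁ ᵥ* dk κ ν = star (dk κ ν *ᵥ a₁) := by
          rw [Matrix.star_mulVec, ← dk_conjTranspose, hνH]
        rw [h5, h2 ν hν1 hν2, star_zero, zero_dotProduct]
      rw [hν3, dotProduct_smul, smul_eq_mul] at h4
      rcases mul_eq_zero.1 h4 with h5 | h5
      · have := ip_self_pos hνH hν0
        exact absurd (by exact_mod_cast h5) this.ne'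
      · exact h5
    | zero => rw [dotProduct_zero]
    | add u v _ _ hu hv => rw [dotProduct_add, hu, hv, add_zero]
    | smul c u _ hu => rw [dotProduct_smul, hu, smul_zero]
  have h4 : a₁ = 0 := dotProduct_star_self_eq_zero.1 (h3 a₁ h1)
  rw [← hsum, h4, add_zero]
  exact h0.1

end Pool.Agent.N996.FP
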