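import Pool.Agent.N996.FP.Sh
import Pool.Agent.N996.FP.Fin2

/-!
# The square theorem: the final theorems
-/

set_option linter.unusedSectionVars false

open CategoryTheory AlgebraicGeometry TensorProduct

universe u

namespace Pool.Agent.N996.FP

open Module
open Pool.Agent.H914 Pool.Agent.H914.VarClass Pool.Agent.H914.VarClass.Obj
  Pool.Agent.H914.WeilCohomology
open Pool.Agent.Y121.AHS
open Pool.Agent.Y133.Half (pw ClassPred Sys)
open Pool.Agent.Y121.AH (hodgePred)
open Pool.Agent.N996.BP.Geo Pool.Agent.N996.FP.Geo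

variable {k : Type u} [Field k] {𝒱 : VarClass k} {ops : CycleOps 𝒱} {T : HodgeTheory ops}
  {X Y : 𝒱.Obj}

/-! ### The theorems -/

/-- The admissible exponents. -/
def AdmS (T : HodgeTheory ops) (X : 𝒱.Obj) (ψ : RForm T.W X) (N : ℕ) : Prop :=
  (SelfAdjointCentre T X ψ ∧ N = 2) ∨ (EqualTraces T X ∧ N = max 2 (2 * X.dim)) ∨
    N = max 4 (2 * X.dim ^ (2 * X.dim))

/-- **The theorem for families.** -/
theorem admS_c {ψ : RForm T.W X} (hψ : IsPolarisation T X ψ) (hX : OfAbelianType T X) {N : ℕ}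
    (hN : AdmS T X ψ N) (S : CSys (toH T).W X)
    (hle : ∀ n, S.C n ≤ (hodgePred (toH T)).sp (pw X n))
    (h : (hodgePred (toH T)).sp (pw X (N - 1)) ≤ S.C (N - 1)) :
    ∀ n, (hodgePred (toH T)).sp (pw X n) ≤ S.C n := by
  rcases hN with ⟨h1, rfl⟩ | ⟨h1, rfl⟩ | rfl
  · exact adjS_c hψ.toBP.isPHS hX.1 hX.2 S hle (fun f hf => h1 f (isCentral_iff.2 hf)) h
  · exact trS_c hψ.toBP.isPHS hX.1 hX.2 S hle
      (fun f hf h2 h3 => h1 f (isCentral_iff.2 hf) (f.baseChange ℂ) (fun _ => rfl)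
        (fun x hx => h2 hx) fun x hx => h3 hx) h
  · exact genS_c hψ.toBP.isPHS hX.1 hX.2 S hle h

/-- **Generation of the Hodge classes on the powers.** -/
theorem generated_admS {ψ : RForm T.W X} (hψ : IsPolarisation T X ψ) (hX : OfAbelianType T X)
    {N : ℕ} (hN : AdmS T X ψ N) {n j : ℕ} {c : T.W.H (pw X n)} (hc : IsHodge T (pw X n) j c) :
    Generated T X (N - 1) n c := by
  have h1 := admS_c hψ hX hN (gnrSys (toH T) X (N - 1)) (fun n c hc => gnr_le hc) (fun c hc => by
      refine ClassPred.sp_ind (Q := hodgePred (toH T)) (q := fun c =>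
        Gnr (toH T) X (N - 1) _ c) ?_ ?_ ?_ hc
      · intro j x hx; exact Gnr.hodge hx
      · exact Gnr.zero
      · intro a b ha hb; exact Gnr.add ha hb) n
  exact generated_iff.2 (BP.generated_of_gnr (h1 (ClassPred.sp_of (Q := hodgePred (toH T)) hc)))

/-- **The Hodge conjecture for the powers.** -/
theorem hodge_admS {ψ : RForm T.W X} (hψ : IsPolarisation T X ψ) (hX : OfAbelianType T X)
    {N : ℕ} (hN : AdmS T X ψ N) (h : HodgeConjecture T (pw X (N - 1))) (n : ℕ) :
    HodgeConjecture T (pw X n) := by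
  have h1 := admS_c hψ hX hN ((Pool.Agent.Y133.Half.algSys T.W).csys X)
    (fun n => ClassPred.alg_le (Q := hodgePred (toH T)))
    (BP.hodgeConjecture_iff.1 (hodgeConjecture_BP.1 h)) n
  exact hodgeConjecture_BP.2 (BP.hodgeConjecture_iff.2 h1)

end Pool.Agent.N996.FP
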