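import Pool.Agent.N996.FP.GAlg
import Pool.Agent.N996.FP.Hd
import Pool.Agent.N996.BP.Main2

/-!
# Cohomology algebras generated in degree one
-/

set_option linter.unusedSectionVars false

open CategoryTheory AlgebraicGeometry TensorProduct

universe u

namespace Pool.Agent.N996.FP.Geo

open Module
open Pool.Agent.H914 Pool.Agent.H914.VarClass Pool.Agent.H914.VarClass.Obj
  Pool.Agent.H914.WeilCohomology
open Pool.Agent.Y133.Half Pool.Agent.Y121.AH
open Pool.Agent.N996.BP Pool.Agent.N996.BP.Geo

variable {k : Type u} [Field k] {𝒱 : VarClass k} {ops : CycleOps 𝒱} {T : HodgeTheory ops}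
  {X Y : 𝒱.Obj}

/-- A product of classes of degree one of maximal degree which does not vanish. -/
lemma exists_topc {W : WeilCohomology.{u, 0} ops} {X : 𝒱.Obj} [Nontrivial (W.H X)]
    (hgen : Algebra.adjoin W.K (W.gr X 1 : Set (W.H X)) = ⊤) :
    ∃ v : Fin (2 * X.dim) → W.H X, (∀ i, v i ∈ W.gr X 1) ∧ (List.ofFn v).prod ≠ 0 := by
  by_contra hcon
  push Not at hcon
  have key : ∀ l : List (W.H X), (∀ x ∈ l, x ∈ W.gr X 1) → l.prod ∈ W.gr X l.length := by
    intro l
    induction l with
    | nil => intro _; rw [List.prod_nil]; exact W.one_mem X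
    | cons a l ih =>
      intro h
      rw [List.prod_cons, List.length_cons, add_comm]
      exact W.mul_mem (h a (List.mem_cons_self ..)) (ih fun x hx => h x (List.mem_cons_of_mem _ hx))
  have h0 : ∀ x : W.H X, W.tr X x = 0 := by
    intro x
    have hx : x ∈ Subalgebra.toSubmodule (Algebra.adjoin W.K (W.gr X 1 : Set (W.H X))) := by
      rw [hgen]; trivial
    rw [Algebra.adjoin_eq_span] at hx
    induction hx using Submodule.span_induction with
    | mem x hx =>
      obtain ⟨l, hl, rfl⟩ := Submonoid.exists_list_of_mem_closure hx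
      by_cases hd : l.length = 2 * X.dim
      · have h1 := hcon (fun i => l.get (Fin.cast hd.symm i)) (fun i => hl _ (List.get_mem _ _))
        have h2 : List.ofFn (fun i => l.get (Fin.cast hd.symm i)) = l := by
          have h3 := List.ofFn_get l
          rw [← List.ofFn_congr hd (fun i => l.get i)] 
          exact h3
        rw [h2] at h1
        rw [h1, map_zero]
      · exact W.tr_eq_zero (key l hl) hd
    | zero => exact map_zero _
    | add x y _ _ hx hy => rw [map_add, hx, hy, add_zero]
    | smul c x _ hx => rw [map_smul, hx, smul_zero]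
  exact one_ne_zero (W.nondeg (1 : W.H X) fun b => h0 _)

section Data

variable {ι : Type} [Fintype ι] [DecidableEq ι] (e : Basis ι T.W.K (T.W.H X)) {deg : ι → ℕ}
  {H : HData ι} {hF : DirectSum.IsInternal (Fx T X)}

/-- The data of the cohomology algebra. -/
noncomputable def gdata (hdeg : ∀ j, e j ∈ T.W.gr X (deg j)) (ho : e H.D.o = 1)
    (hH : ∀ t : ℂ, t ≠ 0 → H.l t = mG hF e (fun k => t ^ k))
    (hgen : Algebra.adjoin T.W.K (T.W.gr X 1 : Set (T.W.H X)) = ⊤) :
    GData T.W.K (T.W.H X) H where
  rat := T.rat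
  gr := T.W.gr X
  int := T.W.isInternal X
  e := e
  deg := deg
  hdeg := hdeg
  one := ho
  L := fun t => dG hF (fun k => t ^ k)
  hL t ht x := by rw [hH t ht]; exact crd_dG hF e _ x
  L_mul t ht x y := by
    have h1 := lop_mul (T := T) (X := X) ht x y
    rw [lop_eq hF, lop_eq hF, lop_eq hF] at h1
    exact h1
  L_gr t ht i c hc := lop_gr (T := T) (X := X) (t := t) hc
  gen := hgen
  anti x hx y hy := by
    have h1 := T.W.comm hx hy
    rw [h1]
    simp

end Data

end Pool.Agent.N996.FP.Geo
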