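import Pool.Agent.N996.FP.Geo1

/-!
# Endomorphisms of the Hodge structure in degree one
-/

set_option linter.unusedSectionVars false

open CategoryTheory AlgebraicGeometry TensorProduct

universe u

namespace Pool.Agent.N996.FP.Geo

open Module Matrix
open Pool.Agent.H914 Pool.Agent.H914.VarClass Pool.Agent.H914.VarClass.Obj
  Pool.Agent.H914.WeilCohomology
open Pool.Agent.Y133.Half Pool.Agent.Y121.AH
open Pool.Agent.N996.BP Pool.Agent.N996.BP.Geo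

variable {k : Type u} [Field k] {𝒱 : VarClass k} {ops : CycleOps 𝒱} {T : HodgeTheory ops}
  {X Y : 𝒱.Obj}

/-- Hodge endomorphisms of the classes of degree one. -/
def End1 (T : HodgeTheory ops) (X : 𝒱.Obj) (f : T.W.H X →ₗ[T.W.K] T.W.H X) : Prop :=
  (∀ c ∈ T.W.gr X 1, f c ∈ T.W.gr X 1) ∧
    ∀ p q : ℤ, p + q = 1 → ∀ x ∈ Fx T X (p, q), f.baseChange ℂ x ∈ Fx T X (p, q)

/-- The centre. -/
def Cen1 (T : HodgeTheory ops) (X : 𝒱.Obj) (f : T.W.H X →ₗ[T.W.K] T.W.H X) : Prop :=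
  End1 T X f ∧ ∀ g, End1 T X g → ∀ c ∈ T.W.gr X 1, f (g c) = g (f c)

section Coord

variable {K : Type} [Field K] [CharZero K] [Algebra K ℂ] {B : Type} [Ring B] [Algebra K B]
  {ι : Type} [Fintype ι] [DecidableEq ι] (e : Basis ι K B)

lemma crd_base (f : B →ₗ[K] B) (x : ℂ ⊗[K] B) :
    crd e (f.baseChange ℂ x) = (LinearMap.toMatrix e e f).map (algebraMap K ℂ) *ᵥ crd e x := by
  refine tmul_ind (P := fun x => crd e (f.baseChange ℂ x) =
    (LinearMap.toMatrix e e f).map (algebraMap K ℂ) *ᵥ crd e x) ?_ ?_ x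
  · intro z v
    funext i
    rw [LinearMap.baseChange_tmul, crd_tmul, Matrix.mulVec, dotProduct]
    have h1 := congrFun (LinearMap.toMatrix_mulVec_repr e e f v) i
    rw [← h1, Matrix.mulVec, dotProduct, map_sum, Finset.mul_sum]
    refine Finset.sum_congr rfl fun j _ => ?_
    rw [crd_tmul, Matrix.map_apply, map_mul]
    ring
  · intro a b ha hb
    rw [map_add, crd_add, crd_add, ha, hb, Matrix.mulVec_add]

/-- The linear map with a rational matrix. -/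
noncomputable def lmap (x : Matrix ι ι ℚ) : B →ₗ[K] B :=
  Matrix.toLin e e (x.map fun q : ℚ => (q : K))

lemma crd_lmap (x : Matrix ι ι ℚ) (y : ℂ ⊗[K] B) :
    crd e ((lmap e x).baseChange ℂ y) = cQ x *ᵥ crd e y := by
  rw [crd_base, lmap, LinearMap.toMatrix_toLin]
  congr 1
  ext i j
  simp [cQ]

lemma exists_mat (rat : ∀ r : K, ∃ q : ℚ, (q : K) = r) (f : B →ₗ[K] B) :
    ∃ x : Matrix ι ι ℚ, ∀ y, crd e (f.baseChange ℂ y) = cQ x *ᵥ crd e y := by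
  choose q hq using fun i j => rat (LinearMap.toMatrix e e f i j)
  refine ⟨Matrix.of q, fun y => ?_⟩
  rw [crd_base]
  congr 1
  ext i j
  rw [Matrix.map_apply, ← hq, cQ, Matrix.map_apply, Matrix.of_apply, map_ratCast]

lemma one_tmul_inj {b c : B} (h : (1 : ℂ) ⊗ₜ[K] b = (1 : ℂ) ⊗ₜ[K] c) : b = c :=
  Algebra.TensorProduct.includeRight_injective (R := K) (A := ℂ) (B := B)
    (algebraMap K ℂ).injective h

end Coord

variable {ψ : LinearMap.BilinForm T.W.K (T.W.H X)}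

lemma pr_gr (hψ : IsPHS (tauT T) (Fx T X) ψ X.dim) {i : ℕ} {w : ℂ ⊗[T.W.K] T.W.H X}
    (hw : w ∈ (T.W.gr X i).baseChange ℂ) {r : ℤ × ℤ} (hr : r.1 + r.2 ≠ i) : hψ.pr r w = 0 := by
  have key : ∀ x ∈ (⨆ s : {s : ℤ × ℤ // s.1 + s.2 = i}, Fx T X s.1), hψ.pr r x = 0 := by
    intro x hx
    refine Submodule.iSup_induction (fun s : {s : ℤ × ℤ // s.1 + s.2 = i} => Fx T X s.1)
      (motive := fun x => hψ.pr r x = 0) hx ?_ ?_ ?_
    · intro s x hx
      refine hψ.pr_ne hx ?_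
      intro h
      exact hr (h ▸ s.2)
    · exact map_zero _
    · intro x y hx hy; rw [map_add, hx, hy, add_zero]
  rw [Submodule.baseChange_eq_span] at hw
  induction hw using Submodule.span_induction with
  | mem x hx =>
    obtain ⟨c, hc, rfl⟩ := hx
    exact key _ (T.dec.span hc)
  | zero => exact map_zero _
  | add x y _ _ hx hy => rw [map_add, hx, hy, add_zero]
  | smul c x _ hx => rw [map_smul, hx, smul_zero]

lemma pr_dG (hψ : IsPHS (tauT T) (Fx T X) ψ X.dim) (g : ℤ → ℂ) (r : ℤ × ℤ)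
    (x : ℂ ⊗[T.W.K] T.W.H X) : hψ.pr r (dG hψ.int g x) = g (r.1 - r.2) • hψ.pr r x := by
  refine F_ind hψ.int (P := fun x => hψ.pr r (dG hψ.int g x) = g (r.1 - r.2) • hψ.pr r x)
    ?_ ?_ ?_ x
  · intro p q x hx
    rw [dG_apply hψ.int g hx, map_smul]
    by_cases h : (p, q) = r
    · subst h; rfl
    · rw [hψ.pr_ne hx h, smul_zero, smul_zero]
  · intro a b ha hb; rw [map_add, map_add, map_add, ha, hb, smul_add]
  · rw [map_zero, map_zero, smul_zero]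

/-- Classes of degree one which are eigenvectors. -/
lemma mem_F_of_eig (hψ : IsPHS (tauT T) (Fx T X) ψ X.dim) {p q : ℤ} (hpq : p + q = 1)
    {w : ℂ ⊗[T.W.K] T.W.H X} (hw : w ∈ (T.W.gr X 1).baseChange ℂ)
    (h2 : dG hψ.int (fun k => (2 : ℂ) ^ k) w = (2 : ℂ) ^ (p - q) • w) : w ∈ Fx T X (p, q) := by
  have h1 : ∀ r : ℤ × ℤ, r ≠ (p, q) → hψ.pr r w = 0 := by
    intro r hr
    by_cases hr1 : r.1 + r.2 = ((1 : ℕ) : ℤ)
    · have h3 := pr_dG hψ (fun k => (2 : ℂ) ^ k) r w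
      rw [h2, map_smul] at h3
      have h4 : ((2 : ℂ) ^ (p - q) - (2 : ℂ) ^ (r.1 - r.2)) • hψ.pr r w = 0 := by
        rw [sub_smul, h3, sub_self]
      rcases smul_eq_zero.1 h4 with h5 | h5
      · exfalso
        have h6 : (2 : ℂ) ^ (p - q) = (2 : ℂ) ^ (r.1 - r.2) := sub_eq_zero.1 h5
        have h7 : ((2 : ℝ) ^ (p - q)) = (2 : ℝ) ^ (r.1 - r.2) := by
          have h8 : (((2 : ℝ) ^ (p - q) : ℝ) : ℂ) = (((2 : ℝ) ^ (r.1 - r.2) : ℝ) : ℂ) := by
            push_cast; exact h6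
          exact_mod_cast h8
        have h8 : p - q = r.1 - r.2 := zpow_right_injective₀ (by norm_num) (by norm_num) h7
        apply hr
        rw [Nat.cast_one] at hr1
        ext
        · change r.1 = p
          omega
        · change r.2 = q
          omega
      · exact h5
    · exact pr_gr hψ hw hr1
  have h3 := hψ.sum_pr w
  by_cases hb : (p, q) ∈ IsPHS.box X.dim
  · rw [Finset.sum_eq_single (p, q) (fun r _ hr => h1 r hr) (fun h => absurd hb h)] at h3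
    rw [h3]
    exact hψ.pr_mem _ _
  · rw [Finset.sum_eq_zero fun r hr => h1 r fun h => hb (h ▸ hr)] at h3
    rw [h3]
    exact Submodule.zero_mem _

section Data

variable {ι : Type} [Fintype ι] [DecidableEq ι] {e : Basis ι T.W.K (T.W.H X)} {deg : ι → ℕ}
  {H : HData ι} (hψ : IsPHS (tauT T) (Fx T X) ψ X.dim)
  (hdeg : ∀ j, e j ∈ T.W.gr X (deg j)) (ho : e H.D.o = 1)
  (hH : ∀ t : ℂ, t ≠ 0 → H.l t = mG hψ.int e (fun k => t ^ k))
  (hgen : Algebra.adjoin T.W.K (T.W.gr X 1 : Set (T.W.H X)) = ⊤)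

/-- The coordinates of the cohomology algebra. -/
noncomputable abbrev DD : AData H (ℂ ⊗[T.W.K] T.W.H X) :=
  (gdata e hdeg ho hH hgen).toAData

lemma mem_VD {y : ℂ ⊗[T.W.K] T.W.H X} :
    crd e y ∈ (DD hψ hdeg ho hH hgen).V ↔ y ∈ (T.W.gr X 1).baseChange ℂ := by
  constructor
  · intro h
    exact gr_crd hdeg fun j hj => h j hj
  · intro h j hj
    exact crd_gr (T.W.isInternal X) hdeg h hj

include hH in
lemma dG_crd {t : ℂ} (ht : t ≠ 0) (y : ℂ ⊗[T.W.K] T.W.H X) :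
    crd e (dG hψ.int (fun k => t ^ k) y) = H.l t *ᵥ crd e y := by
  rw [hH t ht, crd_dG]

/-- Hodge endomorphisms in coordinates. -/
lemma end1_lmap {x : Matrix ι ι ℚ} (hx : (DD hψ hdeg ho hH hgen).IsHE1 x) :
    End1 T X (lmap e x) := by
  have hV : ∀ y : ℂ ⊗[T.W.K] T.W.H X, (lmap e x).baseChange ℂ y ∈ (T.W.gr X 1).baseChange ℂ := by
    intro y
    rw [← mem_VD hψ hdeg ho hH hgen, crd_lmap, AData.mem_V', Matrix.mulVec_mulVec, ← cQ_mul,
      hx.2.1]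
  constructor
  · intro c _
    have h1 := hV ((1 : ℂ) ⊗ₜ[T.W.K] c)
    rw [LinearMap.baseChange_tmul] at h1
    refine gr_repr hdeg fun j hj => ?_
    have h2 := crd_gr (T.W.isInternal X) hdeg h1 hj
    rw [crd_tmul, one_mul] at h2
    exact (map_eq_zero_iff _ (algebraMap T.W.K ℂ).injective).1 h2
  · intro p q hpq y hy
    refine mem_F_of_eig hψ hpq (hV y) ?_
    apply crd_inj e
    rw [dG_crd hψ hH two_ne_zero, crd_lmap, Matrix.mulVec_mulVec, hx.1 2 two_ne_zero,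
      ← Matrix.mulVec_mulVec, ← dG_crd hψ hH two_ne_zero, dG_apply hψ.int _ hy,
      ← ecr_apply, map_smul, ecr_apply, Matrix.mulVec_smul, ← crd_lmap, ← ecr_apply, ← ecr_apply,
      map_smul]

/-- Hodge endomorphisms commute with the operators. -/
lemma end1_comm {f : T.W.H X →ₗ[T.W.K] T.W.H X} (hf : End1 T X f) (g : ℤ → ℂ)
    {y : ℂ ⊗[T.W.K] T.W.H X} (hy : y ∈ (T.W.gr X 1).baseChange ℂ) :
    f.baseChange ℂ (dG hψ.int g y) = dG hψ.int g (f.baseChange ℂ y) := by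
  have key : ∀ x ∈ (⨆ s : {s : ℤ × ℤ // s.1 + s.2 = ((1 : ℕ) : ℤ)}, Fx T X s.1),
      f.baseChange ℂ (dG hψ.int g x) = dG hψ.int g (f.baseChange ℂ x) := by
    intro x hx
    refine Submodule.iSup_induction
      (fun s : {s : ℤ × ℤ // s.1 + s.2 = ((1 : ℕ) : ℤ)} => Fx T X s.1)
      (motive := fun x => f.baseChange ℂ (dG hψ.int g x) = dG hψ.int g (f.baseChange ℂ x))
      hx ?_ ?_ ?_
    · rintro ⟨⟨p, q⟩, hs⟩ x hx
      rw [dG_apply hψ.int g hx, map_smul, dG_apply hψ.int g (hf.2 p q (by simpa using hs) x hx)]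
    · simp only [map_zero]
    · intro x y hx hy; simp only [map_add, hx, hy]
  rw [Submodule.baseChange_eq_span] at hy
  induction hy using Submodule.span_induction with
  | mem x hx =>
    obtain ⟨c, hc, rfl⟩ := hx
    exact key _ (T.dec.span hc)
  | zero => simp only [map_zero]
  | add x y _ _ hx hy => simp only [map_add, hx, hy]
  | smul c x _ hx => simp only [map_smul, hx]

lemma end1_V {f : T.W.H X →ₗ[T.W.K] T.W.H X} (hf : End1 T X f)
    {y : ℂ ⊗[T.W.K] T.W.H X} (hy : y ∈ (T.W.gr X 1).baseChange ℂ) :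
    f.baseChange ℂ y ∈ (T.W.gr X 1).baseChange ℂ := by
  rw [Submodule.baseChange_eq_span] at hy
  induction hy using Submodule.span_induction with
  | mem x hx =>
    obtain ⟨c, hc, rfl⟩ := hx
    change f.baseChange ℂ ((1 : ℂ) ⊗ₜ[T.W.K] c) ∈ _
    rw [LinearMap.baseChange_tmul]
    exact Submodule.tmul_mem_baseChange_of_mem _ (hf.1 c hc)
  | zero => rw [map_zero]; exact Submodule.zero_mem _
  | add x y _ _ hx hy => rw [map_add]; exact Submodule.add_mem _ hx hy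
  | smul c x _ hx => rw [map_smul]; exact Submodule.smul_mem _ _ hx

/-- The matrices of Hodge endomorphisms. -/
lemma end1_mat {f : T.W.H X →ₗ[T.W.K] T.W.H X} (hf : End1 T X f) {x : Matrix ι ι ℚ}
    (hx : ∀ y, crd e (f.baseChange ℂ y) = cQ x *ᵥ crd e y) :
    (DD hψ hdeg ho hH hgen).IsHE1
      ((DD hψ hdeg ho hH hgen).pr1 * x * (DD hψ hdeg ho hH hgen).pr1) := by
  have hP : (DD hψ hdeg ho hH hgen).pr1 * (DD hψ hdeg ho hH hgen).pr1 =
      (DD hψ hdeg ho hH hgen).pr1 := by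
    rw [AData.pr1, Matrix.diagonal_mul_diagonal]
    congr 1
    funext i
    split_ifs <;> simp
  refine ⟨fun t ht => ?_, ?_, ?_⟩
  · have h0 := (DD hψ hdeg ho hH hgen).pr1_HE t ht
    apply Matrix.mulVec_injective
    funext v
    obtain ⟨y, rfl⟩ := crd_surj e v
    obtain ⟨w, hw⟩ := crd_surj e (cQ (DD hψ hdeg ho hH hgen).pr1 *ᵥ crd e y)
    have hwV : w ∈ (T.W.gr X 1).baseChange ℂ := by
      rw [← mem_VD hψ hdeg ho hH hgen, AData.mem_V', hw, Matrix.mulVec_mulVec, ← cQ_mul, hP]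
    have h1 : H.l t *ᵥ (cQ x *ᵥ crd e w) = cQ x *ᵥ (H.l t *ᵥ crd e w) := by
      rw [← hx, ← dG_crd hψ hH ht, ← dG_crd hψ hH ht, ← hx, end1_comm hψ hf _ hwV]
    rw [cQ_mul, cQ_mul]
    calc (H.l t * (cQ (DD hψ hdeg ho hH hgen).pr1 * cQ x * cQ (DD hψ hdeg ho hH hgen).pr1)) *ᵥ
          crd e y = (H.l t * cQ (DD hψ hdeg ho hH hgen).pr1) *ᵥ (cQ x *ᵥ crd e w) := by
            rw [hw, Matrix.mulVec_mulVec, Matrix.mulVec_mulVec]
            simp only [Matrix.mul_assoc]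
      _ = cQ (DD hψ hdeg ho hH hgen).pr1 *ᵥ (H.l t *ᵥ (cQ x *ᵥ crd e w)) := by
            rw [h0, ← Matrix.mulVec_mulVec]
      _ = cQ (DD hψ hdeg ho hH hgen).pr1 *ᵥ (cQ x *ᵥ (H.l t *ᵥ
            (cQ (DD hψ hdeg ho hH hgen).pr1 *ᵥ crd e y))) := by rw [h1, hw]
      _ = cQ (DD hψ hdeg ho hH hgen).pr1 *ᵥ (cQ x *ᵥ ((cQ (DD hψ hdeg ho hH hgen).pr1 * H.l t) *ᵥ
            crd e y)) := by rw [← h0, Matrix.mulVec_mulVec _ (H.l t)]
      _ = _ := by
            simp only [Matrix.mulVec_mulVec, Matrix.mul_assoc]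
  · rw [← Matrix.mul_assoc, ← Matrix.mul_assoc, hP]
  · rw [Matrix.mul_assoc, hP]

/-- The centre in coordinates. -/
lemma cen1_lmap {x : Matrix ι ι ℚ} (hx : (DD hψ hdeg ho hH hgen).IsCE x) :
    Cen1 T X (lmap e x) := by
  refine ⟨end1_lmap hψ hdeg ho hH hgen hx.1, fun g hg c hc => ?_⟩
  obtain ⟨y, hy⟩ := exists_mat e T.rat g
  have h1 := hx.2 _ (end1_mat hψ hdeg ho hH hgen hg hy)
  apply one_tmul_inj (K := T.W.K)
  apply crd_inj e
  have hc1 : (1 : ℂ) ⊗ₜ[T.W.K] c ∈ (T.W.gr X 1).baseChange ℂ :=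
    Submodule.tmul_mem_baseChange_of_mem _ hc
  have hxc : (1 : ℂ) ⊗ₜ[T.W.K] (lmap e x c) ∈ (T.W.gr X 1).baseChange ℂ :=
    Submodule.tmul_mem_baseChange_of_mem _ ((end1_lmap hψ hdeg ho hH hgen hx.1).1 c hc)
  have h2 : ∀ c : T.W.H X, crd e ((1 : ℂ) ⊗ₜ[T.W.K] (lmap e x c)) =
      cQ x *ᵥ crd e ((1 : ℂ) ⊗ₜ[T.W.K] c) := fun c => by
    rw [← crd_lmap, LinearMap.baseChange_tmul]
  have h3 : ∀ c : T.W.H X, crd e ((1 : ℂ) ⊗ₜ[T.W.K] (g c)) =
      cQ y *ᵥ crd e ((1 : ℂ) ⊗ₜ[T.W.K] c) := fun c => by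
    rw [← hy, LinearMap.baseChange_tmul]
  have h4 : cQ (DD hψ hdeg ho hH hgen).pr1 *ᵥ crd e ((1 : ℂ) ⊗ₜ[T.W.K] c) =
      crd e ((1 : ℂ) ⊗ₜ[T.W.K] c) := by
    rw [← AData.mem_V', mem_VD hψ hdeg ho hH hgen]
    exact hc1
  have h5 : cQ (DD hψ hdeg ho hH hgen).pr1 *ᵥ crd e ((1 : ℂ) ⊗ₜ[T.W.K] (g (lmap e x c))) =
      crd e ((1 : ℂ) ⊗ₜ[T.W.K] (g (lmap e x c))) := by
    rw [← AData.mem_V', mem_VD hψ hdeg ho hH hgen]
    exact Submodule.tmul_mem_baseChange_of_mem _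
      (hg.1 _ ((end1_lmap hψ hdeg ho hH hgen hx.1).1 c hc))
  have h6 := congrArg (fun M => cQ M *ᵥ crd e ((1 : ℂ) ⊗ₜ[T.W.K] c)) h1
  simp only [cQ_mul, ← Matrix.mulVec_mulVec] at h6
  rw [h4, ← h2, ← h3, h2] at h6
  have h7 : cQ (DD hψ hdeg ho hH hgen).pr1 *ᵥ (crd e ((1 : ℂ) ⊗ₜ[T.W.K] (lmap e x c))) =
      crd e ((1 : ℂ) ⊗ₜ[T.W.K] (lmap e x c)) := by
    rw [← AData.mem_V', mem_VD hψ hdeg ho hH hgen]
    exact hxc
  have h8 : cQ x *ᵥ (cQ (DD hψ hdeg ho hH hgen).pr1 *ᵥ crd e ((1 : ℂ) ⊗ₜ[T.W.K] (g c))) =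
      cQ x *ᵥ crd e ((1 : ℂ) ⊗ₜ[T.W.K] (g c)) := by
    rw [Matrix.mulVec_mulVec, ← cQ_mul, hx.1.2.2]
  rw [h8] at h6
  rw [h2, h6, ← h2, h7, ← h3, h5]

end Data

end Pool.Agent.N996.FP.Geo
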