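import Pool.Agent.N996.FP.Geo2

/-!
# Central isometries and their exterior powers
-/

set_option linter.unusedSectionVars false

open CategoryTheory AlgebraicGeometry TensorProduct

universe u

namespace Pool.Agent.N996.FP.Geo

open Module Matrix
open Pool.Agent.H914 Pool.Agent.H914.VarClass Pool.Agent.H914.VarClass.Obj
  Pool.Agent.H914.WeilCohomology
open Pool.Agent.Y133.Half Pool.Agent.Y121.AH
open Pool.Agent.N996.BP Pool.Agent.N996.BP.Geo

variable {k : Type u} [Field k] {𝒱 : VarClass k} {ops : CycleOps 𝒱} {T : HodgeTheory ops}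
  {X Y : 𝒱.Obj}

/-- Central isometries of the cohomology algebra. -/
def CI1 (T : HodgeTheory ops) (X : 𝒱.Obj) (ψ : LinearMap.BilinForm T.W.K (T.W.H X))
    (Z : Module.End ℂ (ℂ ⊗[T.W.K] T.W.H X)) : Prop :=
  (∀ x y, Z (x * y) = Z x * Z y) ∧ Z 1 = 1 ∧
  (∀ x y, ψ.baseChange ℂ (Z x) (Z y) = ψ.baseChange ℂ x y) ∧
  ∃ (m : ℕ) (f : Fin m → (T.W.H X →ₗ[T.W.K] T.W.H X)) (l : Fin m → ℂ),
    (∀ i, Cen1 T X (f i)) ∧
    ∀ c ∈ T.W.gr X 1, Z ((1 : ℂ) ⊗ₜ[T.W.K] c) = ∑ i, l i ⊗ₜ[T.W.K] f i c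

/-- The exterior products. -/
noncomputable def boxH (T : HodgeTheory ops) (X : 𝒱.Obj) :
    ∀ n : ℕ, (ℕ → (CW T).H X) → (CW T).H (pw X n)
  | 0, x => x 0
  | n + 1, x => (CW T).map (pfst X n) (boxH T X n x) * (CW T).map (psnd X n) (x (n + 1))

/-- The exterior power of an operator. -/
def IsPow (T : HodgeTheory ops) (X : 𝒱.Obj) (n : ℕ) (Z : Module.End ℂ (ℂ ⊗[T.W.K] T.W.H X))
    (F : Module.End ℂ (ℂ ⊗[T.W.K] T.W.H (pw X n))) : Prop :=
  ∀ x : ℕ → (CW T).H X, F (boxH T X n x) = boxH T X n fun i => Z (x i)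

section One

variable {K : Type} [Field K] [CharZero K] [Algebra K ℂ] {B : Type} [Ring B] [Algebra K B]
  {ι : Type} [Fintype ι] [DecidableEq ι] {e : Basis ι K B}

lemma crd_fun1 {b : Basis (Fin 1 → ι) K B} (hb : ∀ w, b w = e (w 0)) (y : ℂ ⊗[K] B)
    (w : Fin 1 → ι) : crd b y w = crd e y (w 0) := by
  refine tmul_ind (P := fun y => crd b y w = crd e y (w 0)) ?_ ?_ y
  · intro z c
    rw [crd_tmul, crd_tmul]
    congr 2
    have h1 : c = ∑ v : Fin 1 → ι, e.repr c (v 0) • b v := by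
      rw [← Equiv.sum_comp (Equiv.funUnique (Fin 1) ι).symm]
      conv_lhs => rw [← e.sum_repr c]
      refine Finset.sum_congr rfl fun i _ => ?_
      rw [hb]
      rfl
    conv_lhs => rw [h1]
    rw [Basis.repr_sum_self]
  · intro a b ha hb
    rw [crd_add, crd_add, Pi.add_apply, Pi.add_apply, ha, hb]

lemma aop_fun1 {b : Basis (Fin 1 → ι) K B} (hb : ∀ w, b w = e (w 0)) (z : Matrix ι ι ℂ)
    (y : ℂ ⊗[K] B) : aop (ecr b) (kp (Fin 1) z) y = aop (ecr e) z y := by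
  apply (ecr b).injective
  rw [ep_aop]
  funext w
  rw [ecr_apply, ecr_apply, crd_fun1 hb, ← ecr_apply e, ep_aop, Matrix.mulVec, dotProduct,
    Matrix.mulVec, dotProduct, ← Equiv.sum_comp (Equiv.funUnique (Fin 1) ι).symm]
  refine Finset.sum_congr rfl fun i _ => ?_
  rw [crd_fun1 hb, kp_apply, Fintype.prod_unique, ecr_apply]
  rfl

end One

section Data

variable {ι : Type} [Fintype ι] [DecidableEq ι] (e : Basis ι T.W.K (T.W.H X))

lemma repr_prod (n : ℕ) (a : T.W.H (pw X n)) (b : T.W.H X) (w : Fin (n + 1 + 1) → ι) :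
    (wb e (n + 1)).repr (T.W.map (pfst X n) a * T.W.map (psnd X n) b) w =
      (wb e n).repr a (fun i => w i.castSucc) * e.repr b (w (Fin.last _)) := by
  have h1 : T.W.map (pfst X n) a * T.W.map (psnd X n) b =
      ∑ w : Fin (n + 1 + 1) → ι, ((wb e n).repr a (fun i => w i.castSucc) *
        e.repr b (w (Fin.last _))) • wb e (n + 1) w := by
    conv_lhs => rw [← (wb e n).sum_repr a, ← e.sum_repr b]
    rw [map_sum, map_sum, Finset.sum_mul_sum, sum_snoc]
    refine Finset.sum_congr rfl fun v _ => Finset.sum_congr rfl fun x _ => ?_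
    rw [map_smul, map_smul, smul_mul_smul_comm, wb_snoc, Fin.snoc_last]
    congr 3
    funext i
    rw [Fin.snoc_castSucc]
  rw [h1, Basis.repr_sum_self]

lemma crd_prod (n : ℕ) (a : ℂ ⊗[T.W.K] T.W.H (pw X n)) (b : ℂ ⊗[T.W.K] T.W.H X)
    (w : Fin (n + 1 + 1) → ι) :
    crd (wb e (n + 1)) ((CW T).map (pfst X n) a * (CW T).map (psnd X n) b) w =
      crd (wb e n) a (fun i => w i.castSucc) * crd e b (w (Fin.last _)) := by
  refine tmul_ind (P := fun a => crd (wb e (n + 1)) ((CW T).map (pfst X n) a *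
    (CW T).map (psnd X n) b) w = crd (wb e n) a (fun i => w i.castSucc) *
      crd e b (w (Fin.last _))) ?_ ?_ a
  · intro z a
    refine tmul_ind (P := fun b => crd (wb e (n + 1)) ((CW T).map (pfst X n) (z ⊗ₜ[T.W.K] a) *
      (CW T).map (psnd X n) b) w = crd (wb e n) (z ⊗ₜ[T.W.K] a) (fun i => w i.castSucc) *
        crd e b (w (Fin.last _))) ?_ ?_ b
    · intro z' b
      have h1 : (CW T).map (pfst X n) (z ⊗ₜ[T.W.K] a) * (CW T).map (psnd X n) (z' ⊗ₜ[T.W.K] b) =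
          (z * z') ⊗ₜ[T.W.K] (T.W.map (pfst X n) a * T.W.map (psnd X n) b) := by
        have h2 : mapBase ℂ (T.W.map (pfst X n)) (z ⊗ₜ[T.W.K] a) =
            z ⊗ₜ[T.W.K] (T.W.map (pfst X n) a) := Algebra.TensorProduct.map_tmul _ _ _ _
        have h3 : mapBase ℂ (T.W.map (psnd X n)) (z' ⊗ₜ[T.W.K] b) =
            z' ⊗ₜ[T.W.K] (T.W.map (psnd X n) b) := Algebra.TensorProduct.map_tmul _ _ _ _
        have h4 : (z ⊗ₜ[T.W.K] (T.W.map (pfst X n) a)) * (z' ⊗ₜ[T.W.K] (T.W.map (psnd X n) b)) =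
            (z * z') ⊗ₜ[T.W.K] (T.W.map (pfst X n) a * T.W.map (psnd X n) b) :=
          Algebra.TensorProduct.tmul_mul_tmul _ _ _ _
        rw [← h2, ← h3] at h4
        exact h4
      rw [h1, crd_tmul, crd_tmul, crd_tmul, repr_prod, map_mul]
      ring
    · intro b b' hb hb'
      have h1 : (CW T).map (psnd X n) (b + b') = (CW T).map (psnd X n) b +
        (CW T).map (psnd X n) b' := map_add _ _ _
      rw [h1, mul_add, crd_add, Pi.add_apply]
      have h2 : ∀ u v : (CW T).H (pw X (n + 1)), crd (wb e (n + 1)) (u + v) =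
        crd (wb e (n + 1)) u + crd (wb e (n + 1)) v := fun u v => crd_add _ _ _
      rw [h2, Pi.add_apply, hb, hb']
      ring
  · intro a a' ha ha'
    have h1 : (CW T).map (pfst X n) (a + a') = (CW T).map (pfst X n) a +
      (CW T).map (pfst X n) a' := map_add _ _ _
    have h2 : ∀ u v : (CW T).H (pw X (n + 1)), crd (wb e (n + 1)) (u + v) =
      crd (wb e (n + 1)) u + crd (wb e (n + 1)) v := fun u v => crd_add _ _ _
    rw [h1, add_mul, h2, Pi.add_apply, ha, ha', crd_add, Pi.add_apply]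
    ring

/-- The exterior power of the operator given by a matrix. -/
lemma isPow_aop (z : Matrix ι ι ℂ) : ∀ n : ℕ,
    IsPow T X n (aop (ecr e) z) (aop (ecr (wb e n)) (kp (Fin (n + 1)) z))
  | 0 => by
    intro x
    exact aop_fun1 (e := e) (b := wb e 0) (fun w => wb_zero e w) z (x 0)
  | n + 1 => by
    intro x
    have ih := isPow_aop z n x
    change aop (ecr (wb e (n + 1))) (kp (Fin (n + 1 + 1)) z)
      ((CW T).map (pfst X n) (boxH T X n x) * (CW T).map (psnd X n) (x (n + 1))) =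
      (CW T).map (pfst X n) (boxH T X n fun i => aop (ecr e) z (x i)) *
        (CW T).map (psnd X n) (aop (ecr e) z (x (n + 1)))
    rw [← ih]
    apply (ecr (wb e (n + 1))).injective
    rw [ep_aop, ecr_apply, ecr_apply]
    funext w
    rw [crd_prod, Matrix.mulVec, dotProduct, sum_snoc, ← ecr_apply (wb e n), ep_aop,
      ← ecr_apply e, ep_aop, Matrix.mulVec, dotProduct, Matrix.mulVec, dotProduct,
      Finset.sum_mul_sum]
    refine Finset.sum_congr rfl fun v _ => Finset.sum_congr rfl fun y _ => ?_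
    rw [crd_prod, ecr_apply, ecr_apply, Fin.snoc_last]
    have h1 : kp (Fin (n + 1 + 1)) z w (Fin.snoc (α := fun _ => ι) v y) =
        kp (Fin (n + 1)) z (fun i => w i.castSucc) v * z (w (Fin.last _)) y := by
      rw [kp_apply, Fin.prod_univ_castSucc, kp_apply, Fin.snoc_last]
      congr 1
      refine Finset.prod_congr rfl fun i _ => ?_
      rw [Fin.snoc_castSucc]
    have h2 : (fun i => (Fin.snoc (α := fun _ => ι) v y : Fin (n + 1 + 1) → ι) i.castSucc) = v := by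
      funext i
      rw [Fin.snoc_castSucc]
    rw [h1, h2]
    ring

variable {e} {deg : ι → ℕ} {ψ : LinearMap.BilinForm T.W.K (T.W.H X)}
  {H : HData ι} (hψ : IsPHS (tauT T) (Fx T X) ψ X.dim)
  (hdeg : ∀ j, e j ∈ T.W.gr X (deg j)) (ho : e H.D.o = 1)
  (hH : ∀ t : ℂ, t ≠ 0 → H.l t = mG hψ.int e (fun k => t ^ k))
  (hgen : Algebra.adjoin T.W.K (T.W.gr X 1 : Set (T.W.H X)) = ⊤)

/-- Central isometries in coordinates. -/
lemma ci_CI1 {r : ℂ} (hr : r ≠ 0) (hQ : cQ H.Qr = r • (fM e ψ)ᵀ) {z : Matrix ι ι ℂ}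
    (hz : (DD hψ hdeg ho hH hgen).IsCI z) : CI1 T X ψ (aop (ecr e) z) := by
  refine ⟨hz.mul, hz.one, ?_, ?_⟩
  · have hQQ : cQ H.Qr * cQ H.Qir = 1 := by rw [← cQ_mul, H.Qr_Qir, cQ_one]
    have hQQ' : cQ H.Qir * cQ H.Qr = 1 := mul_eq_one_comm.1 hQQ
    have h1 : z * (cQ H.Qir * zᵀ * cQ H.Qr) = 1 := by
      calc z * (cQ H.Qir * zᵀ * cQ H.Qr) = (z * cQ H.Qir * zᵀ) * cQ H.Qr := by
            simp only [Matrix.mul_assoc]
        _ = 1 := by rw [hz.iso, hQQ']
    have h2 := mul_eq_one_comm.1 h1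
    have h3 : zᵀ * cQ H.Qr * z = cQ H.Qr := by
      calc zᵀ * cQ H.Qr * z = (cQ H.Qr * cQ H.Qir) * (zᵀ * cQ H.Qr * z) := by
            rw [hQQ, Matrix.one_mul]
        _ = cQ H.Qr * (cQ H.Qir * zᵀ * cQ H.Qr * z) := by simp only [Matrix.mul_assoc]
        _ = _ := by rw [h2, Matrix.mul_one]
    have h4 : zᵀ * fM e ψ * z = fM e ψ := by
      rw [hQ, Matrix.mul_smul, Matrix.smul_mul] at h3
      have h5 := smul_right_injective _ hr h3
      have h6 := congrArg Matrix.transpose h5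
      rw [Matrix.transpose_mul, Matrix.transpose_mul, Matrix.transpose_transpose,
        Matrix.transpose_transpose, ← Matrix.mul_assoc] at h6
      exact h6
    intro x y
    rw [form_crd e, form_crd e, ← ecr_apply, ← ecr_apply, ep_aop, ep_aop, ecr_apply, ecr_apply]
    conv_rhs => rw [← h4, ← Matrix.mulVec_mulVec, ← Matrix.mulVec_mulVec,
      Matrix.dotProduct_mulVec, Matrix.vecMul_transpose]
  · have h1 := (DD hψ hdeg ho hH hgen).ci_span hz
    obtain ⟨m, l, g, hg⟩ := Submodule.mem_span_set'.1 h1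
    choose x hx hxg using fun i => (g i).2
    refine ⟨m, fun i => lmap e (x i), l, fun i => cen1_lmap hψ hdeg ho hH hgen (hx i),
      fun c hc => ?_⟩
    apply crd_inj e
    have hc1 : cQ (DD hψ hdeg ho hH hgen).pr1 *ᵥ crd e ((1 : ℂ) ⊗ₜ[T.W.K] c) =
        crd e ((1 : ℂ) ⊗ₜ[T.W.K] c) := by
      rw [← AData.mem_V', mem_VD hψ hdeg ho hH hgen]
      exact Submodule.tmul_mem_baseChange_of_mem _ hc
    have h5 : crd e (∑ i, l i ⊗ₜ[T.W.K] ((fun i => lmap e (x i)) i) c) =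
        ∑ i, crd e (l i ⊗ₜ[T.W.K] ((fun i => lmap e (x i)) i) c) := by
      rw [← ecr_apply, map_sum]
      exact Finset.sum_congr rfl fun i _ => ecr_apply _ _
    rw [← ecr_apply e (aop (ecr e) z _), ep_aop, ecr_apply, ← hc1, Matrix.mulVec_mulVec, ← hg,
      Matrix.sum_mulVec, h5]
    refine Finset.sum_congr rfl fun i _ => ?_
    have h2 : l i ⊗ₜ[T.W.K] (lmap e (x i)) c =
        l i • ((1 : ℂ) ⊗ₜ[T.W.K] (lmap e (x i)) c) := by
      rw [TensorProduct.smul_tmul', smul_eq_mul, mul_one]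
    have h6 : crd e (l i • ((1 : ℂ) ⊗ₜ[T.W.K] (lmap e (x i)) c)) =
        l i • crd e ((1 : ℂ) ⊗ₜ[T.W.K] (lmap e (x i)) c) := by
      rw [← ecr_apply, map_smul, ecr_apply]
    change _ = crd e (l i ⊗ₜ[T.W.K] (lmap e (x i)) c)
    rw [h2, h6, Matrix.smul_mulVec, ← hxg]
    congr 1
    have h3 := crd_lmap e (x i) ((1 : ℂ) ⊗ₜ[T.W.K] c)
    rw [LinearMap.baseChange_tmul] at h3
    exact h3.symm

end Data

end Pool.Agent.N996.FP.Geo
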