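import Pool.Agent.N996.FP.Geo3

/-!
# The fourth power theorem
-/

set_option linter.unusedSectionVars false

open CategoryTheory AlgebraicGeometry TensorProduct

universe u

namespace Pool.Agent.N996.FP

open Module Matrix ComplexConjugate Pool.Agent.N996.BP

section Scalar

variable {ι : Type} [Fintype ι] [DecidableEq ι] {H : HData ι}
  {A : Type} [Ring A] [Algebra ℂ A]

open scoped ComplexOrder in
/-- Central isometries which are scalar in degree one. -/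
lemma AData.ci_scalar (D : AData H A) {z : Matrix ι ι ℂ} (hz : D.IsCI z) {c : ℂ}
    (hc : ∀ v ∈ D.V, z *ᵥ v = c • v) (hneg : ∀ v ∈ D.V, H.l (-1) *ᵥ v = -v) : z ∈ GG H := by
  have hone : ∀ x y : A, aop D.ε 1 (x * y) = aop D.ε 1 x * aop D.ε 1 y := by
    intro x y
    simp only [aop_apply, Matrix.one_mulVec, LinearEquiv.symm_apply_apply]
  have hone1 : aop D.ε 1 (1 : A) = 1 := by
    simp only [aop_apply, Matrix.one_mulVec, LinearEquiv.symm_apply_apply]
  by_cases hV : ∀ v ∈ D.V, v = 0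
  · have h1 : z = 1 := D.ext_mul hz.mul hone hz.one hone1 fun v hv => by
      rw [hV v hv, Matrix.mulVec_zero, Matrix.mulVec_zero]
    rw [h1]
    exact Submonoid.one_mem _
  push Not at hV
  obtain ⟨v, hv, hv0⟩ := hV
  have hQQ : cQ H.Qr * cQ H.Qir = 1 := by rw [← cQ_mul, H.Qr_Qir, cQ_one]
  have hQQ' : cQ H.Qir * cQ H.Qr = 1 := mul_eq_one_comm.1 hQQ
  have h1 : z * (cQ H.Qir * zᵀ * cQ H.Qr) = 1 := by
    calc z * (cQ H.Qir * zᵀ * cQ H.Qr) = (z * cQ H.Qir * zᵀ) * cQ H.Qr := by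
          simp only [Matrix.mul_assoc]
      _ = 1 := by rw [hz.iso, hQQ']
  have h2 := mul_eq_one_comm.1 h1
  have h3 : zᵀ * cQ H.Qr * z = cQ H.Qr := by
    calc zᵀ * cQ H.Qr * z = (cQ H.Qr * cQ H.Qir) * (zᵀ * cQ H.Qr * z) := by
          rw [hQQ, Matrix.one_mul]
      _ = cQ H.Qr * (cQ H.Qir * zᵀ * cQ H.Qr * z) := by simp only [Matrix.mul_assoc]
      _ = _ := by rw [h2, Matrix.mul_one]
  have hvs : star v ∈ D.V := by
    intro i hi
    rw [Pi.star_apply, hv i hi, star_zero]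
  have hvl : H.l Complex.I *ᵥ v ∈ D.V := D.V_stab (D.pr1_HE Complex.I Complex.I_ne_zero) hv
  have h4 : star v ⬝ᵥ (cQ H.Qr *ᵥ (H.l Complex.I *ᵥ v)) ≠ 0 := by
    have h5 : star v ⬝ᵥ (cQ H.Qr *ᵥ (H.l Complex.I *ᵥ v)) =
        star (Mm H *ᵥ v) ⬝ᵥ (Mm H *ᵥ v) := by
      rw [Matrix.mulVec_mulVec, Matrix.star_mulVec, ← Matrix.dotProduct_mulVec,
        Matrix.mulVec_mulVec, ← Sc_eq, Sc]
    rw [h5]
    intro h6
    rw [dotProduct_star_self_eq_zero] at h6
    apply hv0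
    have h7 := congrArg (fun w => Mi H *ᵥ w) h6
    simp only [Matrix.mulVec_mulVec, Mi_Mm, Matrix.one_mulVec, Matrix.mulVec_zero] at h7
    exact h7
  have h5 : c * c * (star v ⬝ᵥ (cQ H.Qr *ᵥ (H.l Complex.I *ᵥ v))) =
      star v ⬝ᵥ (cQ H.Qr *ᵥ (H.l Complex.I *ᵥ v)) := by
    conv_rhs => rw [← h3, ← Matrix.mulVec_mulVec, ← Matrix.mulVec_mulVec,
      Matrix.dotProduct_mulVec, Matrix.vecMul_transpose, hc _ hvs, hc _ hvl]
    rw [Matrix.mulVec_smul, smul_dotProduct, dotProduct_smul, smul_eq_mul, smul_eq_mul]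
    ring
  have h6 : c * c = 1 := mul_right_cancel₀ h4 (by rw [h5, one_mul])
  rcases mul_self_eq_one_iff.1 h6 with h7 | h7
  · have h8 : z = 1 := D.ext_mul hz.mul hone hz.one hone1 fun v hv => by
      rw [hc v hv, h7, one_smul, Matrix.one_mulVec]
    rw [h8]
    exact Submonoid.one_mem _
  · have hn : (-1 : ℂ) ≠ 0 := neg_ne_zero.2 one_ne_zero
    have h8 : z = H.l (-1) := D.ext_mul hz.mul (D.lm (-1) hn) hz.one
      (D.ucol_one (l_ucol hn)) fun v hv => by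
        rw [hc v hv, h7, hneg v hv, neg_smul, one_smul]
    rw [h8]
    exact Submonoid.subset_closure (l_mem_gens H hn)

end Scalar

namespace Geo

open Pool.Agent.H914 Pool.Agent.H914.VarClass Pool.Agent.H914.VarClass.Obj
  Pool.Agent.H914.WeilCohomology
open Pool.Agent.Y133.Half Pool.Agent.Y121.AH
open Pool.Agent.N996.BP.Geo

variable {k : Type u} [Field k] {𝒱 : VarClass k} {ops : CycleOps 𝒱} {T : HodgeTheory ops}
  {X Y : 𝒱.Obj}

lemma crd_cls {ι : Type} [Fintype ι] [DecidableEq ι] (e : Basis ι T.W.K (T.W.H X)) (n : ℕ)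
    (a : (Fin (n + 1) → ι) → ℚ) : crd (wb e n) ((1 : ℂ) ⊗ₜ[T.W.K] cls e n a) = ca a := by
  funext w
  rw [crd_tmul, one_mul, cls, Basis.repr_sum_self, map_ratCast]
  rfl

lemma lneg_gr {i : ℕ} (hi : i % 2 = 1) {y : ℂ ⊗[T.W.K] T.W.H X}
    (hy : y ∈ (T.W.gr X i).baseChange ℂ) (hF : DirectSum.IsInternal (Fx T X)) :
    dG hF (fun k => (-1 : ℂ) ^ k) y = -y := by
  rw [Submodule.baseChange_eq_span] at hy
  have key : ∀ x ∈ (⨆ s : {s : ℤ × ℤ // s.1 + s.2 = i}, Fx T X s.1),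
      dG hF (fun k => (-1 : ℂ) ^ k) x = -x := by
    intro x hx
    refine Submodule.iSup_induction (fun s : {s : ℤ × ℤ // s.1 + s.2 = i} => Fx T X s.1)
      (motive := fun x => dG hF (fun k => (-1 : ℂ) ^ k) x = -x) hx ?_ ?_ ?_
    · rintro ⟨⟨a, b⟩, hr⟩ x hx
      rw [dG_apply hF _ hx]
      have h3 : Odd (a - b) := by
        have hr' : a + b = i := hr
        rw [Int.odd_iff]
        omega
      rw [h3.neg_one_zpow, neg_smul, one_smul]
    · rw [map_zero, neg_zero]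
    · intro x y hx hy; rw [map_add, hx, hy, neg_add]
  induction hy using Submodule.span_induction with
  | mem x hx =>
    obtain ⟨c, hc, rfl⟩ := hx
    exact key _ (T.dec.span hc)
  | zero => rw [map_zero, neg_zero]
  | add x y _ _ hx hy => rw [map_add, hx, hy, neg_add]
  | smul c x _ hx => rw [map_smul, hx, smul_neg]

/-- **The fourth power theorem.** -/
theorem four_c {ψ : LinearMap.BilinForm T.W.K (T.W.H X)}
    (hψ : IsPHS (tauT T) (Fx T X) ψ X.dim)
    (hgen : Algebra.adjoin T.W.K (T.W.gr X 1 : Set (T.W.H X)) = ⊤)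
    (hb : finrank T.W.K (T.W.gr X 1) = 2 * X.dim) (S : CSys T.W X)
    (hle : ∀ n, S.C n ≤ (hodgePred T).sp (pw X n))
    (h : (hodgePred T).sp (pw X 3) ≤ S.C 3) (n : ℕ) (c : T.W.H (pw X n))
    (hc : c ∈ (hodgePred T).sp (pw X n))
    (hU : (∀ Z, CI1 T X ψ Z → ∀ F, IsPow T X n Z F →
      F ((1 : ℂ) ⊗ₜ[T.W.K] c) = (1 : ℂ) ⊗ₜ[T.W.K] c) ∨
      ∀ f, Cen1 T X f → ∃ r : T.W.K, ∀ c ∈ T.W.gr X 1, f c = r • c) :
    c ∈ S.C n := by
  classical
  rcases subsingleton_or_nontrivial (T.W.H X) with hs | hs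
  · have h1 : Subsingleton (T.W.H (pw X n)) := by
      have h2 : finrank T.W.K (T.W.H (pw X n)) = 0 := by
        rw [finrank_pw, finrank_zero_of_subsingleton, zero_pow (Nat.succ_ne_zero n)]
      exact finrank_zero_iff.1 h2
    rw [Subsingleton.elim c 0]
    exact Submodule.zero_mem _
  obtain ⟨ι, _, _, e, o, deg, heo, hdeg⟩ := exists_ubasis T.W X
  have ho : (1 : ℂ) ⊗ₜ[T.W.K] e o ∈ Fx T X (0, 0) := by
    rw [heo]
    have h1 := (isHodge_one (T := T) (X := X)).2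
    exact h1
  obtain ⟨H, hHo, hHw, hH, r, hr, hQ⟩ := hψ.exists_hdata2 e o ho
  have hsmall : ∀ n, n + 1 ≤ 4 → (hodgePred T).sp (pw X n) ≤ S.C n := fun n hn =>
    mono_cd (S' := (hodgePred T).sys.csys X) (show n ≤ 3 by omega) h
  have h1X : (hodgePred T).sp (pw X 1) ≤ S.C 1 := hsmall 1 (by omega)
  have hdp : dp T.W X ∈ S.C 1 := h1X (inv_iff.1 inv_dp)
  -- the parities
  let p : ι → Fin 2 := fun j => ⟨deg j % 2, Nat.mod_lt _ two_pos⟩
  have hp : ∀ j, e j ∈ PH T.W X (p j : ℕ) := fun j =>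
    PH.of' (by change deg j % 2 = (deg j % 2) % 2; omega) (hdeg j)
  -- the form
  obtain ⟨q, hq, hqQ⟩ : ∃ q : T.W.H (X.prod X), Inv T (X.prod X) q ∧
      ∀ w, T.W.tr (pw X 1) (wb e 1 w * (show T.W.H (pw X 1) from q)) =
        ((H.Qr (w 0) (w 1) : ℚ) : T.W.K) := exists_q e hH
  have hqS : (show T.W.H (pw X 1) from q) ∈ S.C 1 := h1X (inv_iff.1 hq)
  have hqE : q ∈ PH T.W (X.prod X) 0 := (hodgePred T).sys.even (inv_iff.1 hq)
  have hqQ' : ∀ i j, T.W.tr (X.prod X) (xp T.W (e i) (e j) * q) = ((H.Qr i j : ℚ) : T.W.K) := by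
    intro i j
    have h3 := hqQ (Fin.snoc (α := fun _ => ι) (fun _ : Fin (0 + 1) => i) j)
    have h4 : wb e (0 + 1) (Fin.snoc (α := fun _ => ι) (fun _ : Fin (0 + 1) => i) j) =
        xp T.W (e i) (e j) := by
      rw [wb_snoc]
      have h5 : wb e 0 (fun _ => i) = e i := wb_zero e _
      rw [h5]
      rfl
    have h6 : T.W.tr (pw X 1) (wb e 1 (Fin.snoc (α := fun _ => ι) (fun _ : Fin (0 + 1) => i) j) *
        (show T.W.H (pw X 1) from q)) = T.W.tr (X.prod X) (xp T.W (e i) (e j) * q) := by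
      rw [← h4]
      rfl
    rw [← h6, h3]
    rfl
  have hfam : RFam H (fun n => arrc e S n) :=
    { perm := fun n σ a ha => arrc_perm hp hdp n σ ha
      tens := fun n m a b ha hb => arrc_tens e n m ha hb
      contr := fun n a ha => arrc_contr (fun j => ⟨_, hp j⟩) hqS hqE hqQ' n ha
      le := fun n a ha => (inv_cls e hH n a).1 (inv_iff.2 (hle n ha)) }
  -- the algebra
  have ho1 : e H.D.o = 1 := by rw [hHo, heo]
  obtain ⟨D, hD⟩ : ∃ D, D = DD hψ hdeg ho1 hH hgen := ⟨_, rfl⟩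
  have htop : ∃ v : Fin (finrank ℂ D.V) → D.V, pL D.L v ≠ 0 := by
    subst hD
    obtain ⟨v, hv, hv0⟩ := exists_topc hgen
    have hfin : finrank T.W.K ((gdata e hdeg ho1 hH hgen).gr 1) = 2 * X.dim := hb
    have key : ∀ m, m = 2 * X.dim → ∃ v : Fin m → T.W.H X,
        (∀ i, v i ∈ (gdata e hdeg ho1 hH hgen).gr 1) ∧ (List.ofFn v).prod ≠ 0 := by
      rintro m rfl
      exact ⟨v, hv, hv0⟩
    obtain ⟨v, hv, hv0⟩ := key _ hfin
    exact (gdata e hdeg ho1 hH hgen).exists_top v hv hv0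
  obtain ⟨a, rfl⟩ := cls_surj e n c
  have ha : a ∈ BB H (Fin (n + 1)) := (inv_cls e hH n a).1 (inv_iff.2 hc)
  refine coreU D htop hfam
    (fun n hn a ha => hsmall n hn (inv_iff.1 ((inv_cls e hH n a).2 ha))) n a ha fun z hz => ?_
  subst hD
  rcases hU with hU | hU
  · have h1 := hU _ (ci_CI1 hψ hdeg ho1 hH hgen hr hQ hz) _ (isPow_aop e z n)
    have h2 := congrArg (ecr (wb e n)) h1
    rw [ep_aop, ecr_apply, crd_cls] at h2
    exact h2
  · obtain ⟨-, -, -, m, f, l, hf, hfl⟩ := ci_CI1 hψ hdeg ho1 hH hgen hr hQ hz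
    choose s hs using fun i => hU (f i) (hf i)
    obtain ⟨t, ht⟩ : ∃ t : ℂ, t = ∑ i, l i * algebraMap T.W.K ℂ (s i) := ⟨_, rfl⟩
    have h1 : ∀ y ∈ (T.W.gr X 1).baseChange ℂ, aop (ecr e) z y = t • y := by
      intro y hy
      rw [Submodule.baseChange_eq_span] at hy
      induction hy using Submodule.span_induction with
      | mem x hx =>
        obtain ⟨c, hc, rfl⟩ := hx
        change aop (ecr e) z ((1 : ℂ) ⊗ₜ[T.W.K] c) = t • ((1 : ℂ) ⊗ₜ[T.W.K] c)
        rw [hfl c hc, ht, Finset.sum_smul]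
        refine Finset.sum_congr rfl fun i _ => ?_
        rw [hs i c hc, ← TensorProduct.smul_tmul, TensorProduct.smul_tmul', smul_eq_mul, mul_one,
          Algebra.smul_def, mul_comm]
      | zero => rw [map_zero, smul_zero]
      | add x y _ _ hx hy => rw [map_add, hx, hy, smul_add]
      | smul c x _ hx => rw [map_smul, hx, smul_comm]
    have h2 : ∀ v ∈ (DD hψ hdeg ho1 hH hgen).V, z *ᵥ v = t • v := by
      intro v hv
      obtain ⟨y, rfl⟩ := crd_surj e v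
      have h3 := h1 y ((mem_VD hψ hdeg ho1 hH hgen).1 hv)
      have h4 := congrArg (ecr e) h3
      rw [ep_aop, map_smul, ecr_apply] at h4
      exact h4
    have h3 : ∀ v ∈ (DD hψ hdeg ho1 hH hgen).V, H.l (-1) *ᵥ v = -v := by
      intro v hv
      obtain ⟨y, rfl⟩ := crd_surj e v
      have h3 := lneg_gr (by norm_num) ((mem_VD hψ hdeg ho1 hH hgen).1 hv) hψ.int
      rw [← dG_crd hψ hH (neg_ne_zero.2 one_ne_zero), h3, ← ecr_apply, ← ecr_apply, map_neg]
    exact GG_fix H ha ((DD hψ hdeg ho1 hH hgen).ci_scalar hz h2 h3)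

end Geo

end Pool.Agent.N996.FP
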