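import Pool.Agent.N996.FP.Geo4
import Pool.Agent.N996.FP.Cor2

/-!
# The conditions on the central Hodge endomorphisms
-/

set_option linter.unusedSectionVars false

open CategoryTheory AlgebraicGeometry TensorProduct

universe u

namespace Pool.Agent.N996.FP

open Module Matrix ComplexConjugate Pool.Agent.N996.BP

section tr

variable {ι : Type} [Fintype ι] [DecidableEq ι] {H : HData ι}

/-- Symmetric traces. -/
lemma trace_Ng {x : Matrix ι ι ℚ}
    (h : ∀ t : ℂ, t ≠ 0 → (cQ x * H.l t).trace = (cQ x * H.l t⁻¹).trace) :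
    (cQ x * Ng H (RingEquiv.refl ℂ)).trace = 0 := by
  obtain ⟨a, ha⟩ : ∃ a : ℤ → ℂ, a = fun k => (cQ x * H.π k).trace := ⟨_, rfl⟩
  have h1 : ∀ t : ℂ, (cQ x * H.l t).trace = ∑ k ∈ wr H, t ^ k * a k := by
    intro t
    have h2 : H.l t = ∑ k ∈ wr H, t ^ k • H.π k := by
      ext i j
      rw [H.l_apply, Matrix.sum_apply, Matrix.sum_apply]
      rfl
    rw [h2, Finset.mul_sum, Matrix.trace_sum]
    refine Finset.sum_congr rfl fun k _ => ?_
    rw [Matrix.mul_smul, Matrix.trace_smul, smul_eq_mul, ha]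
  have h3 : (cQ x * Ng H (RingEquiv.refl ℂ)).trace = ∑ k ∈ wr H, (k : ℂ) * a k := by
    rw [Ng, Finset.mul_sum, Matrix.trace_sum]
    refine Finset.sum_congr rfl fun k _ => ?_
    have h4 : (H.π k).map (RingEquiv.refl ℂ) = H.π k := by ext i j; rfl
    rw [Matrix.mul_smul, Matrix.trace_smul, smul_eq_mul, ha, h4]
  have hd1 : HasDerivAt (fun t : ℂ => ∑ k ∈ wr H, t ^ k * a k) (∑ k ∈ wr H, (k : ℂ) * a k) 1 := by
    refine HasDerivAt.fun_sum fun k _ => ?_
    have h2 := (hasDerivAt_zpow k (1 : ℂ) (Or.inl one_ne_zero)).mul_const (a k)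
    simpa using h2
  have hd2 : HasDerivAt (fun t : ℂ => ∑ k ∈ wr H, t ^ (-k) * a k)
      (∑ k ∈ wr H, (-(k : ℂ)) * a k) 1 := by
    refine HasDerivAt.fun_sum fun k _ => ?_
    have h2 := (hasDerivAt_zpow (-k) (1 : ℂ) (Or.inl one_ne_zero)).mul_const (a k)
    simpa using h2
  have hd3 : HasDerivAt (fun t : ℂ => ∑ k ∈ wr H, t ^ k * a k)
      (∑ k ∈ wr H, (-(k : ℂ)) * a k) 1 := by
    refine hd2.congr_of_eventuallyEq ?_
    filter_upwards [isOpen_ne.mem_nhds (show (1 : ℂ) ≠ 0 from one_ne_zero)] with t ht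
    rw [← h1, h t ht, h1]
    refine Finset.sum_congr rfl fun k _ => ?_
    rw [_root_.inv_zpow, _root_.zpow_neg]
  have h5 := hd1.unique hd3
  rw [h3]
  have h6 : ∑ k ∈ wr H, (-(k : ℂ)) * a k = -∑ k ∈ wr H, (k : ℂ) * a k := by
    rw [← Finset.sum_neg_distrib]
    exact Finset.sum_congr rfl fun k _ => by ring
  rw [h6] at h5
  exact self_eq_neg.1 h5

end tr

namespace Geo

open Pool.Agent.H914 Pool.Agent.H914.VarClass Pool.Agent.H914.VarClass.Obj
  Pool.Agent.H914.WeilCohomology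
open Pool.Agent.Y133.Half Pool.Agent.Y121.AH
open Pool.Agent.N996.BP.Geo

variable {k : Type u} [Field k] {𝒱 : VarClass k} {ops : CycleOps 𝒱} {T : HodgeTheory ops}
  {X Y : 𝒱.Obj} {ψ : LinearMap.BilinForm T.W.K (T.W.H X)}

/-- Classes of different degrees are orthogonal. -/
lemma form_gr (hψ : IsPHS (tauT T) (Fx T X) ψ X.dim) {i j : ℕ} (hij : i ≠ j) {c d : T.W.H X}
    (hc : c ∈ T.W.gr X i) (hd : d ∈ T.W.gr X j) : ψ c d = 0 := by
  have key : ∀ x ∈ (⨆ s : {s : ℤ × ℤ // s.1 + s.2 = i}, Fx T X s.1),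
      ∀ y ∈ (⨆ s : {s : ℤ × ℤ // s.1 + s.2 = j}, Fx T X s.1), ψ.baseChange ℂ x y = 0 := by
    intro x hx y hy
    refine Submodule.iSup_induction (fun s : {s : ℤ × ℤ // s.1 + s.2 = i} => Fx T X s.1)
      (motive := fun x => ψ.baseChange ℂ x y = 0) hx ?_ ?_ ?_
    · rintro ⟨⟨p, q⟩, hs⟩ x hx
      refine Submodule.iSup_induction (fun s : {s : ℤ × ℤ // s.1 + s.2 = j} => Fx T X s.1)
        (motive := fun y => ψ.baseChange ℂ x y = 0) hy ?_ ?_ ?_
      · rintro ⟨⟨r, s⟩, hs'⟩ y hy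
        refine hψ.orth p q r s x hx y hy ?_
        by_contra hcon
        push Not at hcon
        apply hij
        have h1 : p + q = i := hs
        have h2 : r + s = j := hs'
        omega
      · exact map_zero _
      · intro a b ha hb; rw [map_add, ha, hb, add_zero]
    · rw [map_zero, LinearMap.zero_apply]
    · intro a b ha hb; rw [map_add, LinearMap.add_apply, ha, hb, add_zero]
  have h1 := key _ (T.dec.span hc) _ (T.dec.span hd)
  have h2 : ψ.baseChange ℂ ((1 : ℂ) ⊗ₜ[T.W.K] c) ((1 : ℂ) ⊗ₜ[T.W.K] d) = 0 := h1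
  rw [LinearMap.BilinForm.baseChange_tmul, one_mul, Algebra.smul_def, mul_one] at h2
  exact (map_eq_zero_iff _ (algebraMap T.W.K ℂ).injective).1 h2

section Data

variable {ι : Type} [Fintype ι] [DecidableEq ι] {e : Basis ι T.W.K (T.W.H X)} {deg : ι → ℕ}
  {H : HData ι} (hψ : IsPHS (tauT T) (Fx T X) ψ X.dim)
  (hdeg : ∀ j, e j ∈ T.W.gr X (deg j)) (ho : e H.D.o = 1)
  (hH : ∀ t : ℂ, t ≠ 0 → H.l t = mG hψ.int e (fun k => t ^ k))
  (hgen : Algebra.adjoin T.W.K (T.W.gr X 1 : Set (T.W.H X)) = ⊤)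

lemma adj_of_fM {r : ℂ} (hQ : cQ H.Qr = r • (fM e ψ)ᵀ) {Y : Matrix ι ι ℂ}
    (hY : fM e ψ * Y = Yᵀ * fM e ψ) : Y * cQ H.Qir = cQ H.Qir * Yᵀ := by
  have hQQ : cQ H.Qr * cQ H.Qir = 1 := by rw [← cQ_mul, H.Qr_Qir, cQ_one]
  have hQQ' : cQ H.Qir * cQ H.Qr = 1 := mul_eq_one_comm.1 hQQ
  have h1 : cQ H.Qr * Y = Yᵀ * cQ H.Qr := by
    have h2 := congrArg Matrix.transpose hY
    rw [Matrix.transpose_mul, Matrix.transpose_mul, Matrix.transpose_transpose] at h2
    rw [hQ, Matrix.smul_mul, Matrix.mul_smul, h2]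
  calc Y * cQ H.Qir = (cQ H.Qir * cQ H.Qr) * Y * cQ H.Qir := by rw [hQQ', Matrix.one_mul]
    _ = cQ H.Qir * (cQ H.Qr * Y) * cQ H.Qir := by simp only [Matrix.mul_assoc]
    _ = cQ H.Qir * Yᵀ * (cQ H.Qr * cQ H.Qir) := by rw [h1]; simp only [Matrix.mul_assoc]
    _ = _ := by rw [hQQ, Matrix.mul_one]

/-- The projector to the classes of degree one is self-adjoint. -/
lemma pr1_adj {r : ℂ} (hQ : cQ H.Qr = r • (fM e ψ)ᵀ) :
    cQ (DD hψ hdeg ho hH hgen).pr1 * cQ H.Qir =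
      cQ H.Qir * (cQ (DD hψ hdeg ho hH hgen).pr1)ᵀ := by
  refine adj_of_fM hQ ?_
  rw [AData.cQ_pr1, Matrix.diagonal_transpose]
  ext i j
  rw [Matrix.mul_diagonal, Matrix.diagonal_mul]
  by_cases hij : deg i = deg j
  · have h1 : ∀ i, (DD hψ hdeg ho hH hgen).deg i = deg i := fun _ => rfl
    rw [h1, h1, hij]
    ring
  · have h1 : fM e ψ i j = 0 := by
      rw [fM, Matrix.of_apply, form_gr hψ hij (hdeg i) (hdeg j), map_zero]
    rw [h1, zero_mul, mul_zero]

/-- Self-adjoint Hodge endomorphisms. -/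
lemma ce_adj {r : ℂ} (hQ : cQ H.Qr = r • (fM e ψ)ᵀ)
    (hadj : ∀ f, Cen1 T X f → ∀ c ∈ T.W.gr X 1, ∀ d ∈ T.W.gr X 1, ψ (f c) d = ψ c (f d))
    {x : Matrix ι ι ℚ} (hx : (DD hψ hdeg ho hH hgen).IsCE x) :
    cQ x * cQ H.Qir = cQ H.Qir * (cQ x)ᵀ := by
  refine adj_of_fM hQ ?_
  have hf := cen1_lmap hψ hdeg ho hH hgen hx
  -- values of the map
  have h0 : ∀ j, deg j ≠ 1 → lmap e x (e j) = 0 := by
    intro j hj
    apply one_tmul_inj (K := T.W.K)
    apply crd_inj e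
    have h1 := crd_lmap e x ((1 : ℂ) ⊗ₜ[T.W.K] e j)
    rw [LinearMap.baseChange_tmul] at h1
    rw [h1, TensorProduct.tmul_zero, crd_zero, ← hx.1.2.2, cQ_mul, ← Matrix.mulVec_mulVec]
    have h2 : cQ (DD hψ hdeg ho hH hgen).pr1 *ᵥ crd e ((1 : ℂ) ⊗ₜ[T.W.K] e j) = 0 := by
      rw [AData.cQ_pr1]
      funext i
      rw [Matrix.mulVec_diagonal]
      by_cases hi : (DD hψ hdeg ho hH hgen).deg i = 1
      · have hij : i ≠ j := by
          rintro rfl
          exact hj hi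
        rw [if_pos hi, one_mul, crd_tmul, Basis.repr_self, Finsupp.single_apply,
          if_neg (Ne.symm hij), map_zero, mul_zero]
        rfl
      · rw [if_neg hi, zero_mul]
        rfl
    rw [h2, Matrix.mulVec_zero]
  have h1 : ∀ j, lmap e x (e j) ∈ T.W.gr X 1 := by
    intro j
    by_cases hj : deg j = 1
    · exact hf.1.1 _ (hj ▸ hdeg j)
    · rw [h0 j hj]; exact Submodule.zero_mem _
  have h2 : ∀ i j, ψ (lmap e x (e i)) (e j) = ψ (e i) (lmap e x (e j)) := by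
    intro i j
    by_cases hi : deg i = 1
    · by_cases hj : deg j = 1
      · exact hadj _ hf _ (hi ▸ hdeg i) _ (hj ▸ hdeg j)
      · rw [h0 j hj, map_zero, form_gr hψ (Ne.symm hj) (h1 i) (hdeg j)]
    · rw [h0 i hi, map_zero, LinearMap.zero_apply, form_gr hψ hi (hdeg i) (h1 j)]
  -- the matrix
  have h3 : ∀ j, lmap e x (e j) = ∑ i, ((x i j : ℚ) : T.W.K) • e i := by
    intro j
    rw [lmap, Matrix.toLin_self]
    rfl
  ext i j
  rw [Matrix.mul_apply, Matrix.mul_apply]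
  have h4 := congrArg (algebraMap T.W.K ℂ) (h2 i j)
  rw [h3, h3, map_sum, LinearMap.sum_apply, map_sum, map_sum, map_sum] at h4
  simp only [map_smul, LinearMap.smul_apply, smul_eq_mul, map_mul, map_ratCast] at h4
  rw [eq_comm]
  calc ∑ m, (cQ x)ᵀ i m * fM e ψ m j =
      ∑ m, ((x m i : ℚ) : ℂ) * algebraMap T.W.K ℂ (ψ (e m) (e j)) := rfl
    _ = ∑ m, ((x m j : ℚ) : ℂ) * algebraMap T.W.K ℂ (ψ (e i) (e m)) := h4
    _ = ∑ m, fM e ψ i m * cQ x m j := Finset.sum_congr rfl fun m _ => mul_comm _ _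

end Data

/-- The trace of an endomorphism composed with a diagonal operator. -/
lemma trace_dG (hψ : IsPHS (tauT T) (Fx T X) ψ X.dim) {F : Module.End ℂ (ℂ ⊗[T.W.K] T.W.H X)}
    (hF : ∀ r, Set.MapsTo F (Fx T X r) (Fx T X r))
    (h0 : ∀ r : ℤ × ℤ, r.1 + r.2 ≠ 1 → ∀ y ∈ Fx T X r, F y = 0) (g : ℤ → ℂ) :
    LinearMap.trace ℂ _ (F ∘ₗ dG hψ.int g) =
      g 1 * LinearMap.trace ℂ _ (F.restrict (hF (1, 0))) +
        g (-1) * LinearMap.trace ℂ _ (F.restrict (hF (0, 1))) := by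
  classical
  have hFG : ∀ r, Set.MapsTo (F ∘ₗ dG hψ.int g) (Fx T X r) (Fx T X r) := by
    rintro ⟨p, q⟩ y hy
    change F (dG hψ.int g y) ∈ _
    rw [dG_apply hψ.int g hy, map_smul]
    exact Submodule.smul_mem _ _ (hF _ hy)
  have hfin : {r | Fx T X r ≠ ⊥}.Finite := by
    refine Set.Finite.subset (IsPHS.box X.dim).finite_toSet ?_
    rintro ⟨p, q⟩ hr
    obtain ⟨h1, h2, h3, h4⟩ := hψ.range p q hr
    rw [Finset.mem_coe, IsPHS.box, Finset.mem_product, Finset.mem_Icc, Finset.mem_Icc]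
    exact ⟨⟨h1, h2⟩, h3, h4⟩
  have hres : ∀ r : ℤ × ℤ, LinearMap.trace ℂ _ ((F ∘ₗ dG hψ.int g).restrict (hFG r)) =
      g (r.1 - r.2) * LinearMap.trace ℂ _ (F.restrict (hF r)) := by
    rintro ⟨p, q⟩
    have h1 : (F ∘ₗ dG hψ.int g).restrict (hFG (p, q)) =
        g (p - q) • F.restrict (hF (p, q)) := by
      apply LinearMap.ext
      rintro ⟨y, hy⟩
      apply Subtype.ext
      change F (dG hψ.int g y) = g (p - q) • F y
      rw [dG_apply hψ.int g hy, map_smul]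
    rw [h1, map_smul, smul_eq_mul]
  have hzero : ∀ r : ℤ × ℤ, r ≠ (1, 0) → r ≠ (0, 1) →
      LinearMap.trace ℂ _ (F.restrict (hF r)) = 0 := by
    rintro ⟨p, q⟩ h1 h2
    have h3 : F.restrict (hF (p, q)) = 0 := by
      apply LinearMap.ext
      rintro ⟨y, hy⟩
      apply Subtype.ext
      change F y = 0
      by_cases hpq : p + q = 1
      · by_cases hb : Fx T X (p, q) = ⊥
        · rw [hb, Submodule.mem_bot] at hy
          rw [hy, map_zero]
        · obtain ⟨h4, h5, h6, h7⟩ := hψ.range p q hb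
          exfalso
          rcases (show p = 0 ∨ p = 1 by omega) with h8 | h8
          · subst h8
            apply h2
            ext
            · rfl
            · change q = 1
              omega
          · subst h8
            apply h1
            ext
            · rfl
            · change q = 0
              omega
      · exact h0 (p, q) hpq y hy
    rw [h3, map_zero]
  have hbot : ∀ r : ℤ × ℤ, Fx T X r = ⊥ → LinearMap.trace ℂ _ (F.restrict (hF r)) = 0 := by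
    intro r hr
    have h3 : F.restrict (hF r) = 0 := by
      apply LinearMap.ext
      rintro ⟨y, hy⟩
      apply Subtype.ext
      change F y = 0
      rw [hr, Submodule.mem_bot] at hy
      rw [hy, map_zero]
    rw [h3, map_zero]
  rw [LinearMap.trace_eq_sum_trace_restrict' hψ.int hfin hFG]
  simp only [hres]
  have h10 : ((1, 0) : ℤ × ℤ) ≠ (0, 1) := by simp
  have h5 : ∑ r ∈ hfin.toFinset, g (r.1 - r.2) * LinearMap.trace ℂ _ (F.restrict (hF r)) =
      ∑ r ∈ hfin.toFinset ∪ {(1, 0), (0, 1)},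
        g (r.1 - r.2) * LinearMap.trace ℂ _ (F.restrict (hF r)) := by
    refine Finset.sum_subset Finset.subset_union_left fun r _ hr => ?_
    rw [hbot r (by
      by_contra hne
      exact hr (hfin.mem_toFinset.2 hne)), mul_zero]
  have h6 : ∑ r ∈ ({(1, 0), (0, 1)} : Finset (ℤ × ℤ)),
      g (r.1 - r.2) * LinearMap.trace ℂ _ (F.restrict (hF r)) =
      ∑ r ∈ hfin.toFinset ∪ {(1, 0), (0, 1)},
        g (r.1 - r.2) * LinearMap.trace ℂ _ (F.restrict (hF r)) := by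
    refine Finset.sum_subset Finset.subset_union_right fun r _ hr => ?_
    rw [hzero r (fun h => hr (by rw [h]; simp)) (fun h => hr (by rw [h]; simp)), mul_zero]
  rw [h5, ← h6, Finset.sum_pair h10]
  norm_num

end Geo

end Pool.Agent.N996.FP
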