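import Pool.Agent.N996.FP.Geo5

/-!
# The fourth power theorem: self-adjoint centres and traces
-/

set_option linter.unusedSectionVars false

open CategoryTheory AlgebraicGeometry TensorProduct

universe u

namespace Pool.Agent.N996.FP.Geo

open Module Matrix ComplexConjugate Pool.Agent.N996.BP
open Pool.Agent.H914 Pool.Agent.H914.VarClass Pool.Agent.H914.VarClass.Obj
  Pool.Agent.H914.WeilCohomology
open Pool.Agent.Y133.Half Pool.Agent.Y121.AH
open Pool.Agent.N996.BP.Geo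

variable {k : Type u} [Field k] {𝒱 : VarClass k} {ops : CycleOps 𝒱} {T : HodgeTheory ops}
  {X Y : 𝒱.Obj} {ψ : LinearMap.BilinForm T.W.K (T.W.H X)}

/-- The endomorphism has the same trace on the classes of types `(1, 0)` and `(0, 1)`. -/
def TrEq (T : HodgeTheory ops) (X : 𝒱.Obj) (f : T.W.H X →ₗ[T.W.K] T.W.H X) : Prop :=
  ∀ (h1 : Set.MapsTo (f.baseChange ℂ) (Fx T X (1, 0)) (Fx T X (1, 0)))
    (h2 : Set.MapsTo (f.baseChange ℂ) (Fx T X (0, 1)) (Fx T X (0, 1))),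
    LinearMap.trace ℂ _ ((f.baseChange ℂ).restrict h1) =
      LinearMap.trace ℂ _ ((f.baseChange ℂ).restrict h2)

section Data

variable {ι : Type} [Fintype ι] [DecidableEq ι] {e : Basis ι T.W.K (T.W.H X)} {deg : ι → ℕ}
  {H : HData ι} (hψ : IsPHS (tauT T) (Fx T X) ψ X.dim)
  (hdeg : ∀ j, e j ∈ T.W.gr X (deg j)) (ho : e H.D.o = 1)
  (hH : ∀ t : ℂ, t ≠ 0 → H.l t = mG hψ.int e (fun k => t ^ k))
  (hgen : Algebra.adjoin T.W.K (T.W.gr X 1 : Set (T.W.H X)) = ⊤)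

lemma ce_tr (htr : ∀ f, Cen1 T X f → TrEq T X f) {x : Matrix ι ι ℚ}
    (hx : (DD hψ hdeg ho hH hgen).IsCE x) : (cQ x * Ng H (RingEquiv.refl ℂ)).trace = 0 := by
  have hf := cen1_lmap hψ hdeg ho hH hgen hx
  obtain ⟨F, hFe⟩ : ∃ F, F = (lmap e x).baseChange ℂ := ⟨_, rfl⟩
  have h0 : ∀ r : ℤ × ℤ, r.1 + r.2 ≠ 1 → ∀ y ∈ Fx T X r, F y = 0 := by
    rintro ⟨p, q⟩ hpq y hy
    by_cases hb : Fx T X (p, q) = ⊥
    · rw [hb, Submodule.mem_bot] at hy
      rw [hy, map_zero]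
    · obtain ⟨h4, h5, h6, h7⟩ := hψ.range p q hb
      obtain ⟨i, hi⟩ : ∃ i : ℕ, p + q = i := ⟨(p + q).toNat, by omega⟩
      have h8 : y ∈ (T.W.gr X i).baseChange ℂ := T.dec.le X hi hy
      apply crd_inj e
      rw [hFe, crd_lmap, crd_zero, ← hx.1.2.2, cQ_mul, ← Matrix.mulVec_mulVec]
      have h2 : cQ (DD hψ hdeg ho hH hgen).pr1 *ᵥ crd e y = 0 := by
        rw [AData.cQ_pr1]
        funext j
        rw [Matrix.mulVec_diagonal]
        by_cases hj : (DD hψ hdeg ho hH hgen).deg j = 1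
        · have hj' : deg j ≠ i := by
            intro h9
            have h10 : deg j = 1 := hj
            apply hpq
            change p + q = 1
            omega
          rw [crd_gr (T.W.isInternal X) hdeg h8 hj', mul_zero]
          rfl
        · rw [if_neg hj, zero_mul]
          rfl
      rw [h2, Matrix.mulVec_zero]
  have hF : ∀ r, Set.MapsTo F (Fx T X r) (Fx T X r) := by
    rintro ⟨p, q⟩ y hy
    by_cases hpq : p + q = 1
    · rw [hFe]
      exact hf.1.2 p q hpq y hy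
    · rw [h0 (p, q) hpq y hy]
      exact Submodule.zero_mem _
  have hteq : LinearMap.trace ℂ _ (F.restrict (hF (1, 0))) =
      LinearMap.trace ℂ _ (F.restrict (hF (0, 1))) := by
    subst hFe
    exact htr _ hf _ _
  have key : ∀ t : ℂ, t ≠ 0 → (cQ x * H.l t).trace =
      t * LinearMap.trace ℂ _ (F.restrict (hF (0, 1))) +
        t⁻¹ * LinearMap.trace ℂ _ (F.restrict (hF (0, 1))) := by
    intro t ht
    have h1 := trace_dG hψ hF h0 (fun k => t ^ k)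
    have h2 : (ecr e).conj (F ∘ₗ dG hψ.int (fun k => t ^ k)) = Matrix.toLin' (cQ x * H.l t) := by
      apply LinearMap.ext
      intro v
      obtain ⟨y, rfl⟩ := crd_surj e v
      rw [Matrix.toLin'_apply, LinearEquiv.conj_apply, ← ecr_apply]
      change ecr e (F (dG hψ.int (fun k => t ^ k) ((ecr e).symm (ecr e y)))) = _
      rw [LinearEquiv.symm_apply_apply, ecr_apply, hFe, crd_lmap, dG_crd hψ hH ht,
        Matrix.mulVec_mulVec, ecr_apply]
    rw [← Matrix.trace_toLin'_eq, ← h2, LinearMap.trace_conj', h1, hteq]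
    simp
  refine trace_Ng fun t ht => ?_
  rw [key t ht, key _ (inv_ne_zero ht), inv_inv]
  ring

end Data

/-- The reduction to coordinates. -/
theorem geo_core (hψ : IsPHS (tauT T) (Fx T X) ψ X.dim)
    (hgen : Algebra.adjoin T.W.K (T.W.gr X 1 : Set (T.W.H X)) = ⊤)
    (hb : finrank T.W.K (T.W.gr X 1) = 2 * X.dim) (S : CSys T.W X)
    (hle : ∀ n, S.C n ≤ (hodgePred T).sp (pw X n)) {N : ℕ} (hN : 4 ≤ N)
    (h : (hodgePred T).sp (pw X (N - 1)) ≤ S.C (N - 1))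
    (key : ∀ (ι : Type) [Fintype ι] [DecidableEq ι] (e : Basis ι T.W.K (T.W.H X)) (deg : ι → ℕ)
      (H : HData ι) (hdeg : ∀ j, e j ∈ T.W.gr X (deg j)) (ho : e H.D.o = 1)
      (hH : ∀ t : ℂ, t ≠ 0 → H.l t = mG hψ.int e (fun k => t ^ k)) (r : ℂ)
      (_ : cQ H.Qr = r • (fM e ψ)ᵀ)
      (_ : ∃ v : Fin (finrank ℂ (DD hψ hdeg ho hH hgen).V) → (DD hψ hdeg ho hH hgen).V,
        pL (DD hψ hdeg ho hH hgen).L v ≠ 0)
      (B : ∀ n : ℕ, Submodule ℚ ((Fin (n + 1) → ι) → ℚ)) (_ : RFam H B)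
      (_ : ∀ n, n + 1 ≤ N → BB H (Fin (n + 1)) ≤ B n) (n : ℕ), BB H (Fin (n + 1)) ≤ B n) :
    ∀ n, (hodgePred T).sp (pw X n) ≤ S.C n := by
  classical
  intro n c hc
  rcases subsingleton_or_nontrivial (T.W.H X) with hs | hs
  · have h1 : Subsingleton (T.W.H (pw X n)) := by
      have h2 : finrank T.W.K (T.W.H (pw X n)) = 0 := by
        rw [finrank_pw, finrank_zero_of_subsingleton, zero_pow (Nat.succ_ne_zero n)]
      exact finrank_zero_iff.1 h2
    rw [Subsingleton.elim c 0]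
    exact Submodule.zero_mem _
  obtain ⟨ι, _, _, e, o, deg, heo, hdeg⟩ := exists_ubasis T.W X
  have ho : (1 : ℂ) ⊗ₜ[T.W.K] e o ∈ Fx T X (0, 0) := by
    rw [heo]
    have h1 := (isHodge_one (T := T) (X := X)).2
    exact h1
  obtain ⟨H, hHo, hHw, hH, r, hr, hQ⟩ := hψ.exists_hdata2 e o ho
  have hsmall : ∀ n, n + 1 ≤ N → (hodgePred T).sp (pw X n) ≤ S.C n := fun n hn =>
    mono_cd (S' := (hodgePred T).sys.csys X) (show n ≤ N - 1 by omega) h
  have h1X : (hodgePred T).sp (pw X 1) ≤ S.C 1 := hsmall 1 (by omega)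
  have hdp : dp T.W X ∈ S.C 1 := h1X (inv_iff.1 inv_dp)
  -- the parities
  let p : ι → Fin 2 := fun j => ⟨deg j % 2, Nat.mod_lt _ two_pos⟩
  have hp : ∀ j, e j ∈ PH T.W X (p j : ℕ) := fun j =>
    PH.of' (by change deg j % 2 = (deg j % 2) % 2; omega) (hdeg j)
  -- the form
  obtain ⟨q, hq, hqQ⟩ : ∃ q : T.W.H (X.prod X), Inv T (X.prod X) q ∧
      ∀ w, T.W.tr (pw X 1) (wb e 1 w * (show T.W.H (pw X 1) from q)) =
        ((H.Qr (w 0) (w 1) : ℚ) : T.W.K) := exists_q e hH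
  have hqS : (show T.W.H (pw X 1) from q) ∈ S.C 1 := h1X (inv_iff.1 hq)
  have hqE : q ∈ PH T.W (X.prod X) 0 := (hodgePred T).sys.even (inv_iff.1 hq)
  have hqQ' : ∀ i j, T.W.tr (X.prod X) (xp T.W (e i) (e j) * q) = ((H.Qr i j : ℚ) : T.W.K) := by
    intro i j
    have h3 := hqQ (Fin.snoc (α := fun _ => ι) (fun _ : Fin (0 + 1) => i) j)
    have h4 : wb e (0 + 1) (Fin.snoc (α := fun _ => ι) (fun _ : Fin (0 + 1) => i) j) =
        xp T.W (e i) (e j) := by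
      rw [wb_snoc]
      have h5 : wb e 0 (fun _ => i) = e i := wb_zero e _
      rw [h5]
      rfl
    have h6 : T.W.tr (pw X 1) (wb e 1 (Fin.snoc (α := fun _ => ι) (fun _ : Fin (0 + 1) => i) j) *
        (show T.W.H (pw X 1) from q)) = T.W.tr (X.prod X) (xp T.W (e i) (e j) * q) := by
      rw [← h4]
      rfl
    rw [← h6, h3]
    rfl
  have hfam : RFam H (fun n => arrc e S n) :=
    { perm := fun n σ a ha => arrc_perm hp hdp n σ ha
      tens := fun n m a b ha hb => arrc_tens e n m ha hb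
      contr := fun n a ha => arrc_contr (fun j => ⟨_, hp j⟩) hqS hqE hqQ' n ha
      le := fun n a ha => (inv_cls e hH n a).1 (inv_iff.2 (hle n ha)) }
  -- the algebra
  have ho1 : e H.D.o = 1 := by rw [hHo, heo]
  obtain ⟨D, hD⟩ : ∃ D, D = DD hψ hdeg ho1 hH hgen := ⟨_, rfl⟩
  have htop : ∃ v : Fin (finrank ℂ D.V) → D.V, pL D.L v ≠ 0 := by
    subst hD
    obtain ⟨v, hv, hv0⟩ := exists_topc hgen
    have hfin : finrank T.W.K ((gdata e hdeg ho1 hH hgen).gr 1) = 2 * X.dim := hb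
    have key : ∀ m, m = 2 * X.dim → ∃ v : Fin m → T.W.H X,
        (∀ i, v i ∈ (gdata e hdeg ho1 hH hgen).gr 1) ∧ (List.ofFn v).prod ≠ 0 := by
      rintro m rfl
      exact ⟨v, hv, hv0⟩
    obtain ⟨v, hv, hv0⟩ := key _ hfin
    exact (gdata e hdeg ho1 hH hgen).exists_top v hv hv0
  obtain ⟨a, rfl⟩ := cls_surj e n c
  have ha : a ∈ BB H (Fin (n + 1)) := (inv_cls e hH n a).1 (inv_iff.2 hc)
  subst hD
  exact key ι e deg H hdeg ho1 hH r hQ htop _ hfam
    (fun n hn a ha => hsmall n hn (inv_iff.1 ((inv_cls e hH n a).2 ha))) n ha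

/-- **Self-adjoint centres: the fourth power.** -/
theorem adj_c (hψ : IsPHS (tauT T) (Fx T X) ψ X.dim)
    (hgen : Algebra.adjoin T.W.K (T.W.gr X 1 : Set (T.W.H X)) = ⊤)
    (hb : finrank T.W.K (T.W.gr X 1) = 2 * X.dim) (S : CSys T.W X)
    (hle : ∀ n, S.C n ≤ (hodgePred T).sp (pw X n))
    (hadj : ∀ f, Cen1 T X f → ∀ c ∈ T.W.gr X 1, ∀ d ∈ T.W.gr X 1, ψ (f c) d = ψ c (f d))
    (h : (hodgePred T).sp (pw X 3) ≤ S.C 3) :
    ∀ n, (hodgePred T).sp (pw X n) ≤ S.C n :=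
  geo_core hψ hgen hb S hle (N := 4) le_rfl h
    fun _ _ _ _ _ _ hdeg ho hH _ hQ htop _ hB hN n a ha =>
      core_adj (DD hψ hdeg ho hH hgen) htop
        (fun _ hx => ce_adj hψ hdeg ho hH hgen hQ hadj hx) hB hN n a ha

/-- **Traces.** -/
theorem tr_c (hψ : IsPHS (tauT T) (Fx T X) ψ X.dim)
    (hgen : Algebra.adjoin T.W.K (T.W.gr X 1 : Set (T.W.H X)) = ⊤)
    (hb : finrank T.W.K (T.W.gr X 1) = 2 * X.dim) (S : CSys T.W X)
    (hle : ∀ n, S.C n ≤ (hodgePred T).sp (pw X n))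
    (htr : ∀ f, Cen1 T X f → TrEq T X f)
    (h : (hodgePred T).sp (pw X (max 4 (2 * X.dim) - 1)) ≤ S.C (max 4 (2 * X.dim) - 1)) :
    ∀ n, (hodgePred T).sp (pw X n) ≤ S.C n :=
  geo_core hψ hgen hb S hle (N := max 4 (2 * X.dim)) (le_max_left _ _) h
    fun _ _ _ e _ _ hdeg ho hH _ hQ htop _ hB hN n a ha =>
      core_tr (DD hψ hdeg ho hH hgen) htop (pr1_adj hψ hdeg ho hH hgen hQ)
        (fun _ hx => ce_tr hψ hdeg ho hH hgen htr hx)
        (((gdata e hdeg ho hH hgen).finrank_V).trans hb) hB hN n a ha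

end Pool.Agent.N996.FP.Geo
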