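import Pool.Agent.N996.FP.Geo6
import Pool.Agent.N996.FP.Cor3

/-!
# All structures of abelian type
-/

set_option linter.unusedSectionVars false

open CategoryTheory AlgebraicGeometry TensorProduct

universe u

namespace Pool.Agent.N996.FP

open Module Matrix ComplexConjugate Pool.Agent.N996.BP

section eig

variable {ι : Type} [Fintype ι] [DecidableEq ι] {H : HData ι}

/-- Eigenvectors of the circle are eigenvectors of the grading. -/
lemma Ng_eig {m : ℤ} {v : ι → ℂ} (h : ∀ t : ℂ, t ≠ 0 → H.l t *ᵥ v = t ^ m • v) :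
    Ng H (RingEquiv.refl ℂ) *ᵥ v = (m : ℂ) • v := by
  funext i
  obtain ⟨a, ha⟩ : ∃ a : ℤ → ℂ, a = fun k => (H.π k *ᵥ v) i := ⟨_, rfl⟩
  have h1 : ∀ t : ℂ, t ≠ 0 → ∑ k ∈ wr H, t ^ k * a k = t ^ m * v i := by
    intro t ht
    have h2 : H.l t = ∑ k ∈ wr H, t ^ k • H.π k := by
      ext i j
      rw [H.l_apply, Matrix.sum_apply, Matrix.sum_apply]
      rfl
    have h3 := congrFun (h t ht) i
    rw [h2, Matrix.sum_mulVec, Finset.sum_apply, Pi.smul_apply, smul_eq_mul] at h3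
    rw [← h3]
    refine Finset.sum_congr rfl fun k _ => ?_
    rw [Matrix.smul_mulVec, Pi.smul_apply, smul_eq_mul, ha]
  have h3 : (Ng H (RingEquiv.refl ℂ) *ᵥ v) i = ∑ k ∈ wr H, (k : ℂ) * a k := by
    rw [Ng, Matrix.sum_mulVec, Finset.sum_apply]
    refine Finset.sum_congr rfl fun k _ => ?_
    have h4 : (H.π k).map (RingEquiv.refl ℂ) = H.π k := by ext i j; rfl
    rw [Matrix.smul_mulVec, Pi.smul_apply, smul_eq_mul, ha, h4]
  have hd1 : HasDerivAt (fun t : ℂ => ∑ k ∈ wr H, t ^ k * a k) (∑ k ∈ wr H, (k : ℂ) * a k) 1 := by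
    refine HasDerivAt.fun_sum fun k _ => ?_
    have h2 := (hasDerivAt_zpow k (1 : ℂ) (Or.inl one_ne_zero)).mul_const (a k)
    simpa using h2
  have hd2 : HasDerivAt (fun t : ℂ => t ^ m * v i) ((m : ℂ) * v i) 1 := by
    have h2 := (hasDerivAt_zpow m (1 : ℂ) (Or.inl one_ne_zero)).mul_const (v i)
    simpa using h2
  have hd3 : HasDerivAt (fun t : ℂ => ∑ k ∈ wr H, t ^ k * a k) ((m : ℂ) * v i) 1 := by
    refine hd2.congr_of_eventuallyEq ?_
    filter_upwards [isOpen_ne.mem_nhds (show (1 : ℂ) ≠ 0 from one_ne_zero)] with t ht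
    exact h1 t ht
  rw [h3, hd1.unique hd3]
  rfl

end eig

namespace Geo

open Pool.Agent.H914 Pool.Agent.H914.VarClass Pool.Agent.H914.VarClass.Obj
  Pool.Agent.H914.WeilCohomology
open Pool.Agent.Y133.Half Pool.Agent.Y121.AH
open Pool.Agent.N996.BP.Geo

variable {k : Type u} [Field k] {𝒱 : VarClass k} {ops : CycleOps 𝒱} {T : HodgeTheory ops}
  {X Y : 𝒱.Obj} {ψ : LinearMap.BilinForm T.W.K (T.W.H X)}

section Data

variable {ι : Type} [Fintype ι] [DecidableEq ι] {e : Basis ι T.W.K (T.W.H X)} {deg : ι → ℕ}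
  {H : HData ι} (hψ : IsPHS (tauT T) (Fx T X) ψ X.dim)
  (hdeg : ∀ j, e j ∈ T.W.gr X (deg j)) (ho : e H.D.o = 1)
  (hH : ∀ t : ℂ, t ≠ 0 → H.l t = mG hψ.int e (fun k => t ^ k))
  (hgen : Algebra.adjoin T.W.K (T.W.gr X 1 : Set (T.W.H X)) = ⊤)

include hψ hH in
/-- The grading is an involution on the classes of degree one. -/
lemma Ng_sq {y : ℂ ⊗[T.W.K] T.W.H X} (hy : y ∈ (T.W.gr X 1).baseChange ℂ) :
    Ng H (RingEquiv.refl ℂ) *ᵥ (Ng H (RingEquiv.refl ℂ) *ᵥ crd e y) = crd e y := by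
  have key : ∀ x ∈ (⨆ s : {s : ℤ × ℤ // s.1 + s.2 = ((1 : ℕ) : ℤ)}, Fx T X s.1),
      Ng H (RingEquiv.refl ℂ) *ᵥ (Ng H (RingEquiv.refl ℂ) *ᵥ crd e x) = crd e x := by
    intro x hx
    refine Submodule.iSup_induction
      (fun s : {s : ℤ × ℤ // s.1 + s.2 = ((1 : ℕ) : ℤ)} => Fx T X s.1)
      (motive := fun x => Ng H (RingEquiv.refl ℂ) *ᵥ (Ng H (RingEquiv.refl ℂ) *ᵥ crd e x) =
        crd e x) hx ?_ ?_ ?_
    · rintro ⟨⟨p, q⟩, hs⟩ x hx
      have hpq : p + q = 1 := by simpa using hs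
      by_cases hb : Fx T X (p, q) = ⊥
      · have hx' : x ∈ Fx T X (p, q) := hx
        rw [hb, Submodule.mem_bot] at hx'
        rw [hx', crd_zero, Matrix.mulVec_zero, Matrix.mulVec_zero]
      · obtain ⟨h4, h5, h6, h7⟩ := hψ.range p q hb
        have h8 : Ng H (RingEquiv.refl ℂ) *ᵥ crd e x = ((p - q : ℤ) : ℂ) • crd e x := by
          refine Ng_eig fun t ht => ?_
          rw [← dG_crd hψ hH ht, dG_apply hψ.int _ hx, ← ecr_apply, ← ecr_apply, map_smul]
        rw [h8, Matrix.mulVec_smul, h8, smul_smul]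
        have h9 : ((p - q : ℤ) : ℂ) * ((p - q : ℤ) : ℂ) = 1 := by
          rcases (show p = 0 ∨ p = 1 by omega) with h10 | h10
          · subst h10
            have : q = 1 := by omega
            subst this
            norm_num
          · subst h10
            have : q = 0 := by omega
            subst this
            norm_num
        rw [h9, one_smul]
    · rw [crd_zero, Matrix.mulVec_zero, Matrix.mulVec_zero]
    · intro x y hx hy
      rw [crd_add, Matrix.mulVec_add, Matrix.mulVec_add, hx, hy]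
  rw [Submodule.baseChange_eq_span] at hy
  induction hy using Submodule.span_induction with
  | mem x hx =>
    obtain ⟨c, hc, rfl⟩ := hx
    exact key _ (T.dec.span hc)
  | zero => rw [crd_zero, Matrix.mulVec_zero, Matrix.mulVec_zero]
  | add x y _ _ hx hy => rw [crd_add, Matrix.mulVec_add, Matrix.mulVec_add, hx, hy]
  | smul c x _ hx =>
    rw [← ecr_apply, map_smul, Matrix.mulVec_smul, Matrix.mulVec_smul, ecr_apply, hx]

lemma Ng_pr1 : Ng H (RingEquiv.refl ℂ) * Ng H (RingEquiv.refl ℂ) *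
    cQ (DD hψ hdeg ho hH hgen).pr1 = cQ (DD hψ hdeg ho hH hgen).pr1 := by
  have hP : (DD hψ hdeg ho hH hgen).pr1 * (DD hψ hdeg ho hH hgen).pr1 =
      (DD hψ hdeg ho hH hgen).pr1 := by
    rw [AData.pr1, Matrix.diagonal_mul_diagonal]
    congr 1
    funext i
    split_ifs <;> simp
  apply Matrix.mulVec_injective
  funext v
  obtain ⟨w, hw⟩ := crd_surj e (cQ (DD hψ hdeg ho hH hgen).pr1 *ᵥ v)
  have hwV : w ∈ (T.W.gr X 1).baseChange ℂ := by
    rw [← mem_VD hψ hdeg ho hH hgen, AData.mem_V', hw, Matrix.mulVec_mulVec, ← cQ_mul, hP]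
  change (Ng H (RingEquiv.refl ℂ) * Ng H (RingEquiv.refl ℂ) *
    cQ (DD hψ hdeg ho hH hgen).pr1) *ᵥ v = cQ (DD hψ hdeg ho hH hgen).pr1 *ᵥ v
  rw [← Matrix.mulVec_mulVec, ← hw, ← Matrix.mulVec_mulVec, Ng_sq hψ hH hwV]

end Data

/-- **All structures of abelian type.** -/
theorem gen_c (hψ : IsPHS (tauT T) (Fx T X) ψ X.dim)
    (hgen : Algebra.adjoin T.W.K (T.W.gr X 1 : Set (T.W.H X)) = ⊤)
    (hb : finrank T.W.K (T.W.gr X 1) = 2 * X.dim) (S : CSys T.W X)
    (hle : ∀ n, S.C n ≤ (hodgePred T).sp (pw X n))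
    (h : (hodgePred T).sp (pw X (max 4 (2 * X.dim ^ (2 * X.dim)) - 1)) ≤
      S.C (max 4 (2 * X.dim ^ (2 * X.dim)) - 1)) :
    ∀ n, (hodgePred T).sp (pw X n) ≤ S.C n :=
  geo_core hψ hgen hb S hle (N := max 4 (2 * X.dim ^ (2 * X.dim))) (le_max_left _ _) h
    fun _ _ _ e _ _ hdeg ho hH _ hQ htop _ hB hN n a ha =>
      core_gen (DD hψ hdeg ho hH hgen) htop (pr1_adj hψ hdeg ho hH hgen hQ)
        (Ng_pr1 hψ hdeg ho hH hgen)
        (((gdata e hdeg ho hH hgen).finrank_V).trans hb) hB hN n a ha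

end Geo

end Pool.Agent.N996.FP
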