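import Pool.Agent.N996.FP.Prd
import Pool.Agent.N996.FP.Dec

/-!
# Highest weight vectors and sums of weights
-/

set_option linter.unusedSectionVars false

namespace Pool.Agent.N996.FP

open Matrix Pool.Agent.N996.BP

variable {ι : Type} [Fintype ι] [DecidableEq ι] {h : Submodule ℂ (Matrix ι ι ℂ)}
  {x z : Matrix ι ι ℂ} {n : ℕ} {A : Type} [Ring A] [Algebra ℂ A]

section sep

variable {J : Type} [Fintype J] [DecidableEq J]

/-- The span of the eigenvectors with real eigenvalues less than `c`. -/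
def TL (x : Matrix J J ℂ) (c : ℝ) : Submodule ℂ (J → ℂ) :=
  Submodule.span ℂ {v | ∃ d : ℝ, d < c ∧ x *ᵥ v = (d : ℂ) • v}

lemma TL_zero {x : Matrix J J ℂ} {d : ℝ} {v : J → ℂ} (hv : v ∈ TL x d)
    (hd : x *ᵥ v = (d : ℂ) • v) : v = 0 := by
  let f : Module.End ℂ (J → ℂ) := Matrix.mulVecLin x
  have h1 : TL x d ≤ ⨆ (μ : ℂ) (_ : μ ≠ (d : ℂ)), f.eigenspace μ := by
    refine Submodule.span_le.2 ?_
    rintro w ⟨e, he, hw⟩
    refine Submodule.mem_iSup_of_mem (e : ℂ) (Submodule.mem_iSup_of_mem ?_ ?_)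
    · intro h2
      have := Complex.ofReal_injective h2
      linarith
    · rw [Module.End.mem_eigenspace_iff]
      exact hw
  have h2 := (Module.End.eigenspaces_iSupIndep f) (d : ℂ)
  have h3 : v ∈ f.eigenspace (d : ℂ) := by
    rw [Module.End.mem_eigenspace_iff]; exact hd
  exact Submodule.disjoint_def.1 h2 v h3 (h1 hv)

/-- **Separation of highest weight vectors.** -/
theorem hw_sep (hh : IsLA h) (hx : IsReg h x) {ρ : Matrix ι ι ℂ →ₗ[ℂ] Matrix J J ℂ}
    (hρ : ∀ a b, ρ (br a b) = br (ρ a) (ρ b)) {w w' : J → ℂ} (hw : w ≠ 0) (hw' : w' ≠ 0)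
    (h0 : ∀ t ∈ h, x * t = t * x → ∃ c : ℂ, ρ t *ᵥ w = c • w ∧ ρ t *ᵥ w' = c • w')
    (hp : ∀ a : ℝ, 0 < a → ∀ e ∈ h, e ∈ EA x a → ρ e *ᵥ w = 0 ∧ ρ e *ᵥ w' = 0)
    {l : ℝ} (hl : ρ x *ᵥ w = (l : ℂ) • w) (hl' : ρ x *ᵥ w' = (l : ℂ) • w')
    {G : Matrix J J ℂ} (hG : Pres h ρ G) {α β : ℂ} (hα : G *ᵥ w = α • w)
    (hβ : G *ᵥ w' = β • w') : α = β := by
  obtain ⟨u, hu⟩ : ∃ u, u = w + w' := ⟨_, rfl⟩
  have hlu : ρ x *ᵥ u = (l : ℂ) • u := by rw [hu, Matrix.mulVec_add, hl, hl', smul_add]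
  have hst := low_h hh hx hρ (w := u) (fun t ht htx => by
    obtain ⟨c, hc, hc'⟩ := h0 t ht htx
    exact ⟨c, by rw [hu, Matrix.mulVec_add, hc, hc', smul_add]⟩) (fun a ha e he hea => by
      rw [hu, Matrix.mulVec_add, (hp a ha e he hea).1, (hp a ha e he hea).2, add_zero])
  have hX : low h x ρ u ≤ Submodule.span ℂ {u} ⊔ TL (ρ x) l := by
    refine low_le ρ u (Submodule.mem_sup_left (Submodule.mem_span_singleton_self u)) ?_
    intro a ha e he hea v hv
    have h1 : br x e = (a : ℂ) • e := hea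
    have key : ∀ (d : ℝ) (v : J → ℂ), d ≤ l → ρ x *ᵥ v = (d : ℂ) • v →
        ρ e *ᵥ v ∈ TL (ρ x) l := by
      intro d v hd hv
      refine Submodule.subset_span ⟨d + a, by linarith, ?_⟩
      rw [rho_mul hρ, hv, h1, map_smul, Matrix.smul_mulVec, Matrix.mulVec_smul, ← add_smul]
      push_cast
      rfl
    obtain ⟨v₁, hv₁, v₂, hv₂, rfl⟩ := Submodule.mem_sup.1 hv
    rw [Matrix.mulVec_add]
    refine Submodule.mem_sup_right (Submodule.add_mem _ ?_ ?_)
    · obtain ⟨r, rfl⟩ := Submodule.mem_span_singleton.1 hv₁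
      rw [Matrix.mulVec_smul]
      exact Submodule.smul_mem _ r (key l u le_rfl hlu)
    · clear hv
      induction hv₂ using Submodule.span_induction with
      | mem v hv =>
        obtain ⟨d, hd, hv⟩ := hv
        exact key d v hd.le hv
      | zero => rw [Matrix.mulVec_zero]; exact Submodule.zero_mem _
      | add u v _ _ hu hv => rw [Matrix.mulVec_add]; exact Submodule.add_mem _ hu hv
      | smul c u _ hu => rw [Matrix.mulVec_smul]; exact Submodule.smul_mem _ _ hu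
  have h1 := hX (hG _ hst u (low_mem ρ u))
  obtain ⟨v₁, hv₁, b, hb, hsum⟩ := Submodule.mem_sup.1 h1
  obtain ⟨a, rfl⟩ := Submodule.mem_span_singleton.1 hv₁
  have hGu : G *ᵥ u = α • w + β • w' := by rw [hu, Matrix.mulVec_add, hα, hβ]
  have hb2 : b = α • w + β • w' - a • u := by rw [← hGu, ← hsum]; abel
  have hb0 : b = 0 := by
    refine TL_zero hb ?_
    rw [hb2, Matrix.mulVec_sub, Matrix.mulVec_add, Matrix.mulVec_smul, Matrix.mulVec_smul,
      Matrix.mulVec_smul, hl, hl', hlu, smul_sub, smul_add, smul_comm α, smul_comm β,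
      smul_comm a]
  rw [hb0, hu] at hb2
  have h2 : (α - a) • w = (a - β) • w' := by
    rw [sub_smul, sub_smul, sub_eq_sub_iff_add_eq_add, add_comm (a • w'), ← smul_add]
    exact (sub_eq_zero.1 hb2.symm)
  by_contra hne
  have h3 := congrArg (fun v => G *ᵥ v) h2
  simp only [Matrix.mulVec_smul, hα, hβ] at h3
  have h4 : ((α - β) * (α - a)) • w = 0 := by
    have h5 : (a - β) • β • w' = β • ((α - a) • w) := by rw [h2, smul_comm]
    rw [h5, smul_smul, smul_smul, ← sub_eq_zero, ← sub_smul] at h3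
    rw [← h3]
    congr 1
    ring
  have h5 : α = a := by
    rcases smul_eq_zero.1 h4 with h6 | h6
    · rcases mul_eq_zero.1 h6 with h7 | h7
      · exact absurd (sub_eq_zero.1 h7) hne
      · exact sub_eq_zero.1 h7
    · exact absurd h6 hw
  rw [h5, sub_self, zero_smul] at h2
  rcases smul_eq_zero.1 h2.symm with h6 | h6
  · exact hne (h5.trans (sub_eq_zero.1 h6))
  · exact hw' h6

end sep

lemma sum_val {α M : Type*} [AddCommMonoid M] {R : Type*} [Fintype R] [DecidableEq R]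
    (F : R → Finset α) (f : α → M) :
    ((∑ r, (F r).val : Multiset α).map f).sum = ∑ r, ∑ i ∈ F r, f i := by
  have h1 : ∀ u : Finset R, ((∑ r ∈ u, (F r).val : Multiset α).map f).sum =
      ∑ r ∈ u, ∑ i ∈ F r, f i := by
    intro u
    induction u using Finset.induction_on with
    | empty => simp
    | insert a u ha ih =>
      rw [Finset.sum_insert ha, Finset.sum_insert ha, Multiset.map_add, Multiset.sum_add, ih]
      rfl
  exact h1 _

lemma prod_val {α M : Type*} [CommMonoid M] {R : Type*} [Fintype R] [DecidableEq R]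
    (F : R → Finset α) (f : α → M) :
    ((∑ r, (F r).val : Multiset α).map f).prod = ∏ r, ∏ i ∈ F r, f i := by
  have h1 : ∀ u : Finset R, ((∑ r ∈ u, (F r).val : Multiset α).map f).prod =
      ∏ r ∈ u, ∏ i ∈ F r, f i := by
    intro u
    induction u using Finset.induction_on with
    | empty => simp
    | insert a u ha ih =>
      rw [Finset.sum_insert ha, Finset.prod_insert ha, Multiset.map_add, Multiset.prod_add, ih]
      rfl
  exact h1 _

/-- Sets of basis vectors which are closed under the raising operators. -/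
lemma raise_pS (D : PD h z A) (hh : IsLA h) (hx : IsReg h x) (hz : ∀ w ∈ h, z * w = w * z)
    (B : Bz h x z D.V n) {S : Finset (Fin n)}
    (hS : ∀ j ∈ S, ∀ i, i < j → B.T i - B.T j ∈ QL h x → i ∈ S) {a : ℝ} (ha : 0 < a)
    {e : Matrix ι ι ℂ} (he : e ∈ h) (hea : e ∈ EA x a) : e *ᵥ D.pS B.v S = 0 := by
  refine D.pS_zero S he fun j hj => ?_
  refine Submodule.span_mono ?_ (B.root_span hh hx hz D.stab ha.ne' he hea j)
  rintro _ ⟨i, ⟨hi1, hi2⟩, rfl⟩
  have hij : i < j := by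
    by_contra hcon
    push Not at hcon
    have := B.anti hcon
    linarith
  exact ⟨i, ⟨hS j hj i hij hi2, hij.ne⟩, rfl⟩

/-- **The eigenvalues on the sums of weights.** -/
theorem no_bad (D : PD h z A) (hh : IsLA h) (hx : IsReg h x) (hz : ∀ w ∈ h, z * w = w * z)
    (B : Bz h x z D.V n) (hζ : ∀ i, B.ζ i ≠ 0) {M : ℕ}
    (hM : ∀ s : Multiset (Fin n), B.tot s = 0 →
      (∀ t ≤ s, B.tot t ∈ QL h x → t = 0 ∨ t = s) → ∀ (i : Fin n) (p : Fin n → Prop)
      [DecidablePred p], (∀ j, p j → B.T j - B.T i ∈ QL h x) → (s.filter p).card ≤ M)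
    (hpres : Pres h (dkL (Fin M)) (kp (Fin M) z)) {s : Multiset (Fin n)}
    (hs : B.tot s ∈ QL h x) : B.zt s = 1 := by
  classical
  by_contra hne
  obtain ⟨s, hs0, hs1, hirr⟩ := B.min_bad hh hx hz D.stab ⟨s, hs, hne⟩
  let f : Fin n → Matrix ι ι ℂ ⧸ QL h x := fun i => (B.T i : Matrix ι ι ℂ ⧸ QL h x)
  have hf : ∀ i j, f i = f j ↔ B.T i - B.T j ∈ QL h x := by
    intro i j
    simp only [f]
    rw [QuotientAddGroup.eq, ← neg_mem_iff]
    have : -(-B.T i + B.T j) = B.T i - B.T j := by abel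
    rw [this]
  obtain ⟨F, hF, hinj⟩ := exists_split f M s (by
    intro b
    by_cases hb : ∃ i ∈ s, f i = b
    · obtain ⟨i, _, rfl⟩ := hb
      exact hM s hs0 hirr i (fun j => f j = f i) fun j hj => (hf j i).1 hj
    · push Not at hb
      rw [Multiset.filter_eq_nil.2 hb, Multiset.card_zero]
      exact Nat.zero_le _)
  let S : Fin M → Finset (Fin n) := fun r =>
    Finset.univ.filter fun i => ∃ k ∈ F r, B.T i - B.T k ∈ QL h x ∧ i ≤ k
  let S' : Fin M → Finset (Fin n) := fun r =>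
    Finset.univ.filter fun i => ∃ k ∈ F r, B.T i - B.T k ∈ QL h x ∧ i < k
  have memS : ∀ r i, i ∈ S r ↔ ∃ k ∈ F r, B.T i - B.T k ∈ QL h x ∧ i ≤ k := fun r i => by
    simp [S]
  have memS' : ∀ r i, i ∈ S' r ↔ ∃ k ∈ F r, B.T i - B.T k ∈ QL h x ∧ i < k := fun r i => by
    simp [S']
  have hdisj : ∀ r, Disjoint (S' r) (F r) := by
    intro r
    rw [Finset.disjoint_left]
    intro i hi hi2
    obtain ⟨k, hk, hk2, hk3⟩ := (memS' r i).1 hi
    exact hk3.ne (hinj r i hi2 k hk ((hf i k).2 hk2))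
  have hun : ∀ r, S r = (S' r).disjUnion (F r) (hdisj r) := by
    intro r
    ext i
    rw [Finset.mem_disjUnion, memS, memS']
    constructor
    · rintro ⟨k, hk, hk2, hk3⟩
      rcases hk3.lt_or_eq with h1 | h1
      · exact Or.inl ⟨k, hk, hk2, h1⟩
      · exact Or.inr (h1 ▸ hk)
    · rintro (⟨k, hk, hk2, hk3⟩ | h1)
      · exact ⟨k, hk, hk2, hk3.le⟩
      · exact ⟨i, h1, by rw [sub_self]; exact (QL h x).zero_mem, le_rfl⟩
  have hSc : ∀ r, ∀ j ∈ S r, ∀ i, i < j → B.T i - B.T j ∈ QL h x → i ∈ S r := by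
    intro r j hj i hij hq
    obtain ⟨k, hk, hk2, hk3⟩ := (memS r j).1 hj
    refine (memS r i).2 ⟨k, hk, ?_, hij.le.trans hk3⟩
    have := (QL h x).add_mem hq hk2
    rwa [sub_add_sub_cancel] at this
  have hSc' : ∀ r, ∀ j ∈ S' r, ∀ i, i < j → B.T i - B.T j ∈ QL h x → i ∈ S' r := by
    intro r j hj i hij hq
    obtain ⟨k, hk, hk2, hk3⟩ := (memS' r j).1 hj
    refine (memS' r i).2 ⟨k, hk, ?_, hij.trans hk3⟩
    have := (QL h x).add_mem hq hk2
    rwa [sub_add_sub_cancel] at this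
  obtain ⟨w, hw⟩ : ∃ w, w = pt fun r => D.pS B.v (S r) := ⟨_, rfl⟩
  obtain ⟨w', hw'⟩ : ∃ w', w' = pt fun r => D.pS B.v (S' r) := ⟨_, rfl⟩
  -- the weights
  have hwt : ∀ (Q : Fin M → Finset (Fin n)) (t : Matrix ι ι ℂ), t ∈ h → x * t = t * x →
      dk (Fin M) t *ᵥ pt (fun r => D.pS B.v (Q r)) =
        (∑ r, ∑ i ∈ Q r, (B.T i * t).trace) • pt fun r => D.pS B.v (Q r) := by
    intro Q t ht htx
    exact dk_pt_eig fun r => D.pS_eig (Q r) ht fun j => (B.wt j).val t ⟨ht, htx⟩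
  have hsumT : ∑ r, ∑ i ∈ F r, B.T i = 0 := by rw [← sum_val, hF]; exact hs0
  have hsum : ∀ t : Matrix ι ι ℂ, ∑ r, ∑ i ∈ S r, (B.T i * t).trace =
      ∑ r, ∑ i ∈ S' r, (B.T i * t).trace := by
    intro t
    have h1 : ∑ r, ∑ i ∈ F r, (B.T i * t).trace = 0 := by
      have h2 : ∑ r, ∑ i ∈ F r, (B.T i * t).trace = ((∑ r, ∑ i ∈ F r, B.T i) * t).trace := by
        rw [Finset.sum_mul, Matrix.trace_sum]
        refine Finset.sum_congr rfl fun r _ => ?_
        rw [Finset.sum_mul, Matrix.trace_sum]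
      rw [h2, hsumT, Matrix.zero_mul, Matrix.trace_zero]
    have h3 : ∀ r, ∑ i ∈ S r, (B.T i * t).trace = ∑ i ∈ S' r, (B.T i * t).trace +
        ∑ i ∈ F r, (B.T i * t).trace := by
      intro r
      rw [hun r, Finset.sum_disjUnion]
    rw [Finset.sum_congr rfl fun r _ => h3 r, Finset.sum_add_distrib, h1, add_zero]
  have hprod : ∏ r, ∏ i ∈ S r, B.ζ i = (∏ r, ∏ i ∈ S' r, B.ζ i) * B.zt s := by
    have h3 : ∀ r, ∏ i ∈ S r, B.ζ i = (∏ i ∈ S' r, B.ζ i) * ∏ i ∈ F r, B.ζ i := by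
      intro r
      rw [hun r, Finset.prod_disjUnion]
    rw [Finset.prod_congr rfl fun r _ => h3 r, Finset.prod_mul_distrib, Bz.zt, ← hF, prod_val]
  have hkp : ∀ (Q : Fin M → Finset (Fin n)), kp (Fin M) z *ᵥ pt (fun r => D.pS B.v (Q r)) =
      (∏ r, ∏ i ∈ Q r, B.ζ i) • pt fun r => D.pS B.v (Q r) := by
    intro Q
    rw [kp_pt, ← pt_smul]
    congr 1
    funext r
    exact D.pS_mul (Q r) B.ez
  have hreal : ∀ (Q : Fin M → Finset (Fin n)), dk (Fin M) x *ᵥ pt (fun r => D.pS B.v (Q r)) =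
      ((∑ r, ∑ i ∈ Q r, B.c i : ℝ) : ℂ) • pt fun r => D.pS B.v (Q r) := by
    intro Q
    rw [hwt Q x hx.mem rfl]
    congr 1
    push_cast
    exact Finset.sum_congr rfl fun r _ => Finset.sum_congr rfl fun i _ => B.c_eq hx i
  have hrc : ∑ r, ∑ i ∈ S' r, B.c i = ∑ r, ∑ i ∈ S r, B.c i := by
    have h1 := hsum x
    have h2 : ∀ Q : Fin M → Finset (Fin n), ∑ r, ∑ i ∈ Q r, (B.T i * x).trace =
        ((∑ r, ∑ i ∈ Q r, B.c i : ℝ) : ℂ) := by
      intro Q
      push_cast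
      exact Finset.sum_congr rfl fun r _ => Finset.sum_congr rfl fun i _ => B.c_eq hx i
    rw [h2, h2] at h1
    exact (Complex.ofReal_injective h1).symm
  have h1 := hw_sep hh hx (ρ := dkL (Fin M)) (fun a b => dk_br (κ := Fin M) a b) (w := w) (w' := w')
    (by rw [hw]; exact pt_ne fun r => D.pS_ne B.li _)
    (by rw [hw']; exact pt_ne fun r => D.pS_ne B.li _)
    (fun t ht htx => ⟨∑ r, ∑ i ∈ S r, (B.T i * t).trace, by
      rw [hw]; exact hwt S t ht htx, by
      rw [hw', hsum]; exact hwt S' t ht htx⟩)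
    (fun a ha e he hea => ⟨by
      rw [hw]
      exact dk_pt_zero fun r => raise_pS D hh hx hz B (hSc r) ha he hea, by
      rw [hw']
      exact dk_pt_zero fun r => raise_pS D hh hx hz B (hSc' r) ha he hea⟩)
    (l := ∑ r, ∑ i ∈ S r, B.c i) (by rw [hw]; exact hreal S)
    (by rw [hw', ← hrc]; exact hreal S') hpres
    (α := ∏ r, ∏ i ∈ S r, B.ζ i) (β := ∏ r, ∏ i ∈ S' r, B.ζ i)
    (by rw [hw]; exact hkp S) (by rw [hw']; exact hkp S')
  rw [hprod] at h1
  have h2 : (∏ r, ∏ i ∈ S' r, B.ζ i) ≠ 0 :=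
    Finset.prod_ne_zero_iff.2 fun r _ => Finset.prod_ne_zero_iff.2 fun i _ => hζ i
  exact hs1 (mul_left_cancel₀ h2 (h1.trans (mul_one _).symm))

end Pool.Agent.N996.FP
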