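import Pool.Agent.N996.FP.Dk

/-!
# Gradings and Kronecker powers
-/

set_option linter.unusedSectionVars false

namespace Pool.Agent.N996.FP

open Matrix Pool.Agent.N996.BP

variable {ι : Type} [Fintype ι] [DecidableEq ι] {κ : Type} [Fintype κ] [DecidableEq κ]

/-- A finite grading by integers. -/
structure IsIdem (s : Finset ℤ) (π : ℤ → Matrix ι ι ℂ) : Prop where
  one : ∑ k ∈ s, π k = 1
  mul : ∀ k ∈ s, ∀ l ∈ s, π k * π l = if k = l then π k else 0

variable {s : Finset ℤ} {π : ℤ → Matrix ι ι ℂ}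

/-- The functions of the total degree. -/
noncomputable def Fd (κ : Type) [Fintype κ] [DecidableEq κ] (s : Finset ℤ)
    (π : ℤ → Matrix ι ι ℂ) (φ : ℤ → ℂ) : Matrix (κ → ι) (κ → ι) ℂ :=
  ∑ f ∈ Fintype.piFinset (fun _ : κ => s), φ (∑ k, f k) • kpf fun k => π (f k)

lemma kpf_sum (c : κ → ℤ → ℂ) (i j : κ → ι) :
    (kpf fun k => ∑ m ∈ s, c k m • π m) i j =
      ∑ f ∈ Fintype.piFinset (fun _ : κ => s), (∏ k, c k (f k)) * kpf (fun k => π (f k)) i j := by
  have h1 : (kpf fun k => ∑ m ∈ s, c k m • π m) i j =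
      ∏ k, ∑ m ∈ s, c k m * π m (i k) (j k) := by
    rw [kpf_apply]
    refine Finset.prod_congr rfl fun k _ => ?_
    rw [Matrix.sum_apply]
    rfl
  rw [h1, Finset.prod_univ_sum]
  refine Finset.sum_congr rfl fun f _ => ?_
  rw [Finset.prod_mul_distrib, kpf_apply]

lemma Fd_one (h : IsIdem s π) : Fd κ s π (fun _ => 1) = 1 := by
  ext i j
  have h1 := kpf_sum (s := s) (π := π) (fun (_ : κ) _ => 1) i j
  simp only [one_smul, Finset.prod_const_one, one_mul] at h1
  rw [Fd, Matrix.sum_apply]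
  simp only [one_smul]
  rw [← h1]
  have h2 : (kpf fun _ : κ => ∑ m ∈ s, π m) = 1 := by
    rw [kpf_const, h.one, kp_one]
  rw [h2]

lemma Fd_mul (h : IsIdem s π) (φ ψ : ℤ → ℂ) :
    Fd κ s π φ * Fd κ s π ψ = Fd κ s π fun m => φ m * ψ m := by
  rw [Fd, Fd, Fd, Finset.sum_mul_sum]
  refine Finset.sum_congr rfl fun f hf => ?_
  rw [Finset.sum_eq_single f]
  · rw [Matrix.smul_mul, Matrix.mul_smul, smul_smul, kpf_mul]
    congr 2
    funext k
    rw [h.mul _ (Fintype.mem_piFinset.1 hf k) _ (Fintype.mem_piFinset.1 hf k), if_pos rfl]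
  · intro g hg hne
    have h1 : (kpf fun k => π (f k)) * (kpf fun k => π (g k)) = 0 := by
      rw [kpf_mul]
      obtain ⟨k, hk⟩ := Function.ne_iff.1 hne
      ext i j
      rw [kpf_apply, Matrix.zero_apply]
      refine Finset.prod_eq_zero (Finset.mem_univ k) ?_
      rw [h.mul _ (Fintype.mem_piFinset.1 hf k) _ (Fintype.mem_piFinset.1 hg k),
        if_neg (Ne.symm hk), Matrix.zero_apply]
    rw [Matrix.smul_mul, Matrix.mul_smul, h1, smul_zero, smul_zero]
  · intro hn; exact absurd hf hn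

lemma Fd_add (φ ψ : ℤ → ℂ) : Fd κ s π (fun m => φ m + ψ m) = Fd κ s π φ + Fd κ s π ψ := by
  rw [Fd, Fd, Fd, ← Finset.sum_add_distrib]
  exact Finset.sum_congr rfl fun f _ => add_smul _ _ _

lemma Fd_smul (c : ℂ) (φ : ℤ → ℂ) : Fd κ s π (fun m => c * φ m) = c • Fd κ s π φ := by
  rw [Fd, Fd, Finset.smul_sum]
  exact Finset.sum_congr rfl fun f _ => mul_smul _ _ _

/-- The derivation. -/
lemma Fd_dk (h : IsIdem s π) :
    Fd κ s π (fun m => (m : ℂ)) = dk κ (∑ k ∈ s, (k : ℂ) • π k) := by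
  ext i j
  rw [dk, Matrix.sum_apply]
  have h1 : ∀ k : κ, slot k (∑ m ∈ s, (m : ℂ) • π m) i j =
      ∑ f ∈ Fintype.piFinset (fun _ : κ => s), (f k : ℂ) * kpf (fun k => π (f k)) i j := by
    intro k
    have h2 := kpf_sum (s := s) (π := π) (fun (l : κ) m => if l = k then (m : ℂ) else 1) i j
    have h3 : (kpf fun l : κ => ∑ m ∈ s, (if l = k then (m : ℂ) else 1) • π m) =
        slot k (∑ m ∈ s, (m : ℂ) • π m) := by
      rw [slot]
      congr 1
      funext l
      by_cases hl : l = k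
      · subst hl
        simp
      · rw [Function.update_of_ne hl]
        simp only [if_neg hl, one_smul]
        exact h.one
    rw [h3] at h2
    rw [h2]
    refine Finset.sum_congr rfl fun f _ => ?_
    congr 1
    rw [Finset.prod_ite_eq' Finset.univ k]
    simp
  simp only [h1]
  rw [Finset.sum_comm, Fd, Matrix.sum_apply]
  refine Finset.sum_congr rfl fun f _ => ?_
  rw [Matrix.smul_apply, smul_eq_mul, Int.cast_sum, Finset.sum_mul]

lemma prod_zpow' {t : ℂ} (ht : t ≠ 0) (u : Finset κ) (f : κ → ℤ) :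
    ∏ k ∈ u, t ^ f k = t ^ ∑ k ∈ u, f k := by
  induction u using Finset.induction_on with
  | empty => simp
  | insert a u ha ih => rw [Finset.prod_insert ha, Finset.sum_insert ha, zpow_add₀ ht, ih]

/-- The group elements. -/
lemma Fd_kp {t : ℂ} (ht : t ≠ 0) :
    Fd κ s π (fun m => t ^ m) = kp κ (∑ k ∈ s, t ^ k • π k) := by
  ext i j
  have h2 := kpf_sum (s := s) (π := π) (fun (_ : κ) m => t ^ m) i j
  rw [← kpf_const, h2, Fd, Matrix.sum_apply]
  refine Finset.sum_congr rfl fun f _ => ?_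
  rw [Matrix.smul_apply, smul_eq_mul, prod_zpow' ht]

/-- Functions of the derivation preserve the subspaces preserved by the derivation. -/
lemma Fd_mem (h : IsIdem s π) {W : Submodule ℂ ((κ → ι) → ℂ)}
    (hW : ∀ v ∈ W, dk κ (∑ k ∈ s, (k : ℂ) • π k) *ᵥ v ∈ W) (φ : ℤ → ℂ) {w : (κ → ι) → ℂ}
    (hw : w ∈ W) : Fd κ s π φ *ᵥ w ∈ W := by
  classical
  let S : Finset ℂ := (Fintype.piFinset fun _ : κ => s).image fun f => ((∑ k, f k : ℤ) : ℂ)
  have hex : ∃ g : ℂ → ℂ, ∀ m : ℤ, g (m : ℂ) = φ m := by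
    refine ⟨fun z => if hz : ∃ m : ℤ, (m : ℂ) = z then φ hz.choose else 0, fun m => ?_⟩
    have hz : ∃ m' : ℤ, (m' : ℂ) = (m : ℂ) := ⟨m, rfl⟩
    refine (dif_pos hz).trans ?_
    congr 1
    exact_mod_cast hz.choose_spec
  obtain ⟨g, hg⟩ := hex
  let P : Polynomial ℂ := Lagrange.interpolate S id g
  have hP : ∀ f ∈ Fintype.piFinset (fun _ : κ => s), P.eval (((∑ k, f k : ℤ) : ℂ)) =
      φ (∑ k, f k) := by
    intro f hf
    have := Lagrange.eval_interpolate_at_node (v := id) (s := S) g (Set.injOn_id _)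
      (i := ((∑ k, f k : ℤ) : ℂ)) (Finset.mem_image.2 ⟨f, hf, rfl⟩)
    rw [← hg]
    exact this
  have hpow : ∀ n : ℕ, Fd κ s π (fun m => (m : ℂ) ^ n) *ᵥ w ∈ W := by
    intro n
    induction n with
    | zero =>
      simp only [pow_zero]
      rw [Fd_one h, Matrix.one_mulVec]
      exact hw
    | succ n ih =>
      have h1 := hW _ ih
      rw [← Fd_dk h, Matrix.mulVec_mulVec, Fd_mul h] at h1
      simp only [pow_succ']
      exact h1
  have hpoly : ∀ Q : Polynomial ℂ, Fd κ s π (fun m => Q.eval (m : ℂ)) *ᵥ w ∈ W := by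
    intro Q
    induction Q using Polynomial.induction_on' with
    | add p q hp hq =>
      simp only [Polynomial.eval_add]
      rw [Fd_add, Matrix.add_mulVec]
      exact Submodule.add_mem _ hp hq
    | monomial n a =>
      simp only [Polynomial.eval_monomial]
      rw [Fd_smul, Matrix.smul_mulVec]
      exact Submodule.smul_mem _ _ (hpow n)
  have h1 := hpoly P
  have h2 : Fd κ s π (fun m => P.eval (m : ℂ)) = Fd κ s π φ := by
    rw [Fd, Fd]
    refine Finset.sum_congr rfl fun f hf => ?_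
    rw [hP f hf]
  rwa [h2] at h1

/-- Matrices commuting with the derivation commute with the projectors. -/
lemma comm_idem (h : IsIdem s π) {z : Matrix ι ι ℂ}
    (hz : z * (∑ k ∈ s, (k : ℂ) • π k) = (∑ k ∈ s, (k : ℂ) • π k) * z) {k : ℤ} (hk : k ∈ s) :
    z * π k = π k * z := by
  have hl : ∀ m ∈ s, π m * (∑ k ∈ s, (k : ℂ) • π k) = (m : ℂ) • π m := by
    intro m hm
    rw [Finset.mul_sum, Finset.sum_eq_single m]
    · rw [Matrix.mul_smul, h.mul m hm m hm, if_pos rfl]
    · intro b hb hne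
      rw [Matrix.mul_smul, h.mul m hm b hb, if_neg (Ne.symm hne), smul_zero]
    · intro hn; exact absurd hm hn
  have hr : ∀ m ∈ s, (∑ k ∈ s, (k : ℂ) • π k) * π m = (m : ℂ) • π m := by
    intro m hm
    rw [Finset.sum_mul, Finset.sum_eq_single m]
    · rw [Matrix.smul_mul, h.mul m hm m hm, if_pos rfl]
    · intro b hb hne
      rw [Matrix.smul_mul, h.mul b hb m hm, if_neg hne, smul_zero]
    · intro hn; exact absurd hm hn
  have hoff : ∀ m ∈ s, ∀ n ∈ s, m ≠ n → π m * z * π n = 0 := by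
    intro m hm n hn hmn
    have h1 : π m * (z * (∑ k ∈ s, (k : ℂ) • π k)) * π n =
        π m * ((∑ k ∈ s, (k : ℂ) • π k) * z) * π n := by rw [hz]
    have h2 : π m * (z * (∑ k ∈ s, (k : ℂ) • π k)) * π n = (n : ℂ) • (π m * z * π n) := by
      calc π m * (z * (∑ k ∈ s, (k : ℂ) • π k)) * π n =
          π m * z * ((∑ k ∈ s, (k : ℂ) • π k) * π n) := by simp only [Matrix.mul_assoc]
        _ = _ := by rw [hr n hn, Matrix.mul_smul]
    have h3 : π m * ((∑ k ∈ s, (k : ℂ) • π k) * z) * π n = (m : ℂ) • (π m * z * π n) := by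
      calc π m * ((∑ k ∈ s, (k : ℂ) • π k) * z) * π n =
          (π m * (∑ k ∈ s, (k : ℂ) • π k)) * z * π n := by simp only [Matrix.mul_assoc]
        _ = _ := by rw [hl m hm, Matrix.smul_mul, Matrix.smul_mul]
    rw [h2, h3, ← sub_eq_zero, ← sub_smul] at h1
    rcases smul_eq_zero.1 h1 with h4 | h4
    · exfalso
      apply hmn
      have : (n : ℂ) = (m : ℂ) := sub_eq_zero.1 h4
      exact_mod_cast this.symm
    · exact h4
  have h1 : z * π k = π k * z * π k := by
    calc z * π k = (∑ m ∈ s, π m) * (z * π k) := by rw [h.one, Matrix.one_mul]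
      _ = ∑ m ∈ s, π m * z * π k := by rw [Finset.sum_mul]; simp only [Matrix.mul_assoc]
      _ = _ := by
        rw [Finset.sum_eq_single k]
        · intro b hb hne; exact hoff b hb k hk hne
        · intro hn; exact absurd hk hn
  have h2 : π k * z = π k * z * π k := by
    calc π k * z = (π k * z) * (∑ m ∈ s, π m) := by rw [h.one, Matrix.mul_one]
      _ = ∑ m ∈ s, π k * z * π m := by rw [Finset.mul_sum]
      _ = _ := by
        rw [Finset.sum_eq_single k]
        · intro b hb hne; exact hoff k hk b hb (Ne.symm hne)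
        · intro hn; exact absurd hk hn
  rw [h1, ← h2]

end Pool.Agent.N996.FP
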