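import Pool.Agent.N996.FP.Lie

/-!
# The decomposition theorem for Hodge structures
-/

set_option linter.unusedSectionVars false

namespace Pool.Agent.N996.FP

open Matrix Pool.Agent.N996.BP ComplexConjugate

variable {ι : Type} [Fintype ι] [DecidableEq ι] (H : HData ι)

/-- The square root of the scalar product. -/
noncomputable def Mm : Matrix ι ι ℂ := cR H.D.M

/-- Its inverse. -/
noncomputable def Mi : Matrix ι ι ℂ := cR H.D.Mi

lemma Mm_Mi : Mm H * Mi H = 1 := by rw [Mm, Mi, ← cR_mul, H.D.hM, cR_one]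

lemma Mi_Mm : Mi H * Mm H = 1 := mul_eq_one_comm.1 (Mm_Mi H)

lemma Sc_eq : Sc H = (Mm H)ᴴ * Mm H := by
  rw [Sc, Mm, ← cR_Q, ← cR_C, ← cR_mul, ← H.D.S_eq, RData.S, cR_mul, cR_conjTranspose]

/-- Change of coordinates. -/
noncomputable def cj (x : Matrix ι ι ℂ) : Matrix ι ι ℂ := Mi H * x * Mm H

lemma cj_mul (x y : Matrix ι ι ℂ) : cj H (x * y) = cj H x * cj H y := by
  rw [cj, cj, cj]
  calc Mi H * (x * y) * Mm H = Mi H * x * 1 * y * Mm H := by
        rw [Matrix.mul_one]; simp only [Matrix.mul_assoc]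
    _ = _ := by rw [← Mm_Mi H]; simp only [Matrix.mul_assoc]

lemma cj_one : cj H 1 = 1 := by rw [cj, Matrix.mul_one, Mi_Mm]

lemma cj_sub (x y : Matrix ι ι ℂ) : cj H (x - y) = cj H x - cj H y := by
  rw [cj, cj, cj, Matrix.mul_sub, Matrix.sub_mul]

lemma cj_br (x y : Matrix ι ι ℂ) : cj H (br x y) = br (cj H x) (cj H y) := by
  rw [br, cj_sub, cj_mul, cj_mul, br]

/-- The inverse change of coordinates. -/
noncomputable def cji (x : Matrix ι ι ℂ) : Matrix ι ι ℂ := Mm H * x * Mi H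

lemma cj_cji (x : Matrix ι ι ℂ) : cj H (cji H x) = x := by
  rw [cj, cji]
  calc Mi H * (Mm H * x * Mi H) * Mm H = (Mi H * Mm H) * x * (Mi H * Mm H) := by
        simp only [Matrix.mul_assoc]
    _ = x := by rw [Mi_Mm, Matrix.one_mul, Matrix.mul_one]

lemma cji_cj (x : Matrix ι ι ℂ) : cji H (cj H x) = x := by
  rw [cj, cji]
  calc Mm H * (Mi H * x * Mm H) * Mi H = (Mm H * Mi H) * x * (Mm H * Mi H) := by
        simp only [Matrix.mul_assoc]
    _ = x := by rw [Mm_Mi, Matrix.one_mul, Matrix.mul_one]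

lemma cji_mul (x y : Matrix ι ι ℂ) : cji H (x * y) = cji H x * cji H y := by
  rw [← cji_cj H (cji H x * cji H y), cj_mul, cj_cji, cj_cji]

lemma cji_one : cji H 1 = 1 := by rw [cji, Matrix.mul_one, Mm_Mi]

/-- The Lie algebra in orthonormal coordinates. -/
noncomputable def hn : Submodule ℂ (Matrix ι ι ℂ) where
  carrier := {x | cj H x ∈ ho H}
  add_mem' {x y} hx hy := by
    change cj H (x + y) ∈ ho H
    rw [cj, Matrix.mul_add, Matrix.add_mul]
    exact Submodule.add_mem _ hx hy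
  zero_mem' := by
    change cj H 0 ∈ ho H
    rw [cj, Matrix.mul_zero, Matrix.zero_mul]
    exact Submodule.zero_mem _
  smul_mem' c x hx := by
    change cj H (c • x) ∈ ho H
    rw [cj, Matrix.mul_smul, Matrix.smul_mul]
    exact Submodule.smul_mem _ c hx

/-- The group in orthonormal coordinates. -/
noncomputable def Sn : Submonoid (Matrix ι ι ℂ) where
  carrier := {q | cj H q ∈ So H}
  mul_mem' {x y} hx hy := by
    change cj H (x * y) ∈ So H
    rw [cj_mul]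
    exact Submonoid.mul_mem _ hx hy
  one_mem' := by
    change cj H 1 ∈ So H
    rw [cj_one]
    exact Submonoid.one_mem _

lemma mem_hn {x : Matrix ι ι ℂ} : x ∈ hn H ↔ cj H x ∈ ho H := Iff.rfl

lemma mem_Sn {x : Matrix ι ι ℂ} : x ∈ Sn H ↔ cj H x ∈ So H := Iff.rfl

lemma cj_exp (x : Matrix ι ι ℂ) : cj H (NormedSpace.exp x) = NormedSpace.exp (cj H x) := by
  have h2 : IsUnit (Mi H) := ⟨⟨Mi H, Mm H, Mi_Mm H, Mm_Mi H⟩, rfl⟩
  have h3 := Matrix.exp_conj (Mi H) x h2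
  rw [Matrix.inv_eq_right_inv (Mi_Mm H)] at h3
  exact h3.symm

lemma isLA_hn : IsLA (hn H) where
  lie a ha b hb := by
    rw [mem_hn, cj_br]
    exact ho_br ha hb
  star a ha := by
    have h1 := ho_adj (mem_hn H |>.1 ha)
    have h2 : H.l Complex.I⁻¹ * cQ H.Qir * (cj H a)ᴴ * Sc H = cj H aᴴ := by
      have hSi : H.l Complex.I⁻¹ * cQ H.Qir = Mi H * (Mi H)ᴴ := by
        have e1 : (H.l Complex.I⁻¹ * cQ H.Qir) * Sc H = 1 := by
          have hQQ : cQ H.Qr * cQ H.Qir = 1 := by rw [← cQ_mul, H.Qr_Qir, cQ_one]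
          have hQQ' : cQ H.Qir * cQ H.Qr = 1 := mul_eq_one_comm.1 hQQ
          rw [Sc]
          calc H.l Complex.I⁻¹ * cQ H.Qir * (cQ H.Qr * H.l Complex.I) =
              H.l Complex.I⁻¹ * (cQ H.Qir * cQ H.Qr) * H.l Complex.I := by
                simp only [Matrix.mul_assoc]
            _ = 1 := by rw [hQQ', Matrix.mul_one, H.l_inv' Complex.I_ne_zero]
        have e2 : Sc H * (Mi H * (Mi H)ᴴ) = 1 := by
          rw [Sc_eq]
          calc (Mm H)ᴴ * Mm H * (Mi H * (Mi H)ᴴ) = (Mm H)ᴴ * (Mm H * Mi H) * (Mi H)ᴴ := by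
                simp only [Matrix.mul_assoc]
            _ = (Mi H * Mm H)ᴴ := by rw [Mm_Mi, Matrix.mul_one, Matrix.conjTranspose_mul]
            _ = 1 := by rw [Mi_Mm, Matrix.conjTranspose_one]
        calc H.l Complex.I⁻¹ * cQ H.Qir =
            (H.l Complex.I⁻¹ * cQ H.Qir) * (Sc H * (Mi H * (Mi H)ᴴ)) := by
              rw [e2, Matrix.mul_one]
          _ = ((H.l Complex.I⁻¹ * cQ H.Qir) * Sc H) * (Mi H * (Mi H)ᴴ) := by
              simp only [Matrix.mul_assoc]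
          _ = _ := by rw [e1, Matrix.one_mul]
      have e3 : (Mi H)ᴴ * (Mm H)ᴴ = 1 := by
        rw [← Matrix.conjTranspose_mul, Mm_Mi, Matrix.conjTranspose_one]
      rw [hSi, Sc_eq, cj, cj, Matrix.conjTranspose_mul, Matrix.conjTranspose_mul]
      calc Mi H * (Mi H)ᴴ * ((Mm H)ᴴ * (aᴴ * (Mi H)ᴴ)) * ((Mm H)ᴴ * Mm H) =
          Mi H * ((Mi H)ᴴ * (Mm H)ᴴ) * aᴴ * ((Mi H)ᴴ * (Mm H)ᴴ) * Mm H := by
            simp only [Matrix.mul_assoc]
        _ = _ := by rw [e3, Matrix.mul_one, Matrix.mul_one]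
    rw [mem_hn, ← h2]
    exact h1

lemma isGrp_Sn : IsGrp (hn H) (Sn H) where
  exp z hz := by
    rw [mem_Sn, cj_exp]
    exact So_exp hz
  closed := by
    have h1 : (Sn H : Set (Matrix ι ι ℂ)) = ⋂ (κ : Type) (_ : Fintype κ) (_ : DecidableEq κ)
        (a : (κ → ι) → ℚ) (_ : a ∈ BB H κ), {q | kp κ (cj H q) *ᵥ ca a = ca a} := by
      ext q
      simp only [Set.mem_iInter]
      exact ⟨fun h κ _ _ a ha => h κ a ha, fun h κ _ _ a ha => h κ _ _ a ha⟩
    rw [h1]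
    refine isClosed_iInter fun κ => isClosed_iInter fun _ => isClosed_iInter fun _ =>
      isClosed_iInter fun a => isClosed_iInter fun _ => isClosed_eq ?_ continuous_const
    have h2 : Continuous fun q : Matrix ι ι ℂ => cj H q :=
      (continuous_const.matrix_mul continuous_id).matrix_mul continuous_const
    have h3 : Continuous fun q : Matrix ι ι ℂ => kp κ (cj H q) := by
      refine continuous_matrix fun i j => ?_
      simp only [kp_apply]
      exact continuous_finsetProd _ fun k _ => h2.matrix_elem (i k) (j k)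
    exact h3.matrix_mulVec continuous_const
  inv q hq := by
    obtain ⟨q', h1, h2⟩ := So_ex_inv (mem_Sn H |>.1 hq)
    refine ⟨cji H q', by rw [mem_Sn, cj_cji]; exact h1, ?_⟩
    rw [← cji_cj H q, ← cji_mul, h2, cji_one]
  ad q hq q' hqq z hz := by
    rw [mem_hn, cj_mul, cj_mul]
    exact So_ad (by rw [← cj_mul, hqq, cj_one]) hq hz

/-! ### The adjoint action -/

/-- The array of a matrix. -/
noncomputable def Am : Matrix ι ι ℂ →ₗ[ℂ] ((Unit ⊕ Unit → ι) → ℂ) where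
  toFun z := fun i => (z * cQ H.Qir) (i (Sum.inl ())) (i (Sum.inr ()))
  map_add' x y := by
    funext i
    rw [Matrix.add_mul]
    rfl
  map_smul' c x := by
    funext i
    rw [Matrix.smul_mul]
    rfl

lemma Am_kp {g g' : Matrix ι ι ℂ} (h : g' * g = 1) (hQ : g * cQ H.Qir * gᵀ = cQ H.Qir)
    (z : Matrix ι ι ℂ) : kp (Unit ⊕ Unit) g *ᵥ Am H z = Am H (g * z * g') := by
  have h1 : Am H z = arr (Matrix.of fun i j : Unit → ι => (z * cQ H.Qir) (i ()) (j ())) := rfl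
  have h2 : Am H (g * z * g') =
      arr (Matrix.of fun i j : Unit → ι => (g * z * g' * cQ H.Qir) (i ()) (j ())) := rfl
  rw [h1, h2, kp_arr]
  congr 1
  have h3 : g' * cQ H.Qir = cQ H.Qir * gᵀ := by
    calc g' * cQ H.Qir = g' * (g * cQ H.Qir * gᵀ) := by rw [hQ]
      _ = (g' * g) * cQ H.Qir * gᵀ := by simp only [Matrix.mul_assoc]
      _ = _ := by rw [h, Matrix.one_mul]
  have h4 : g * z * g' * cQ H.Qir = g * (z * cQ H.Qir) * gᵀ := by
    rw [Matrix.mul_assoc (g * z), h3]; simp only [Matrix.mul_assoc]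
  rw [h4]
  have hof : ∀ A B : Matrix ι ι ℂ, (Matrix.of fun i j : Unit → ι => A (i ()) (j ())) *
      (Matrix.of fun i j : Unit → ι => B (i ()) (j ())) =
      Matrix.of fun i j : Unit → ι => (A * B) (i ()) (j ()) := by
    intro A B
    ext i j
    rw [Matrix.mul_apply, Matrix.of_apply, Matrix.mul_apply, ← (Equiv.funUnique Unit ι).sum_comp]
    rfl
  have hk : kp Unit g = Matrix.of fun i j : Unit → ι => g (i ()) (j ()) := by
    ext i j
    rw [kp_apply, Fintype.prod_unique]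
    rfl
  have hkt : (kp Unit g)ᵀ = Matrix.of fun i j : Unit → ι => gᵀ (i ()) (j ()) := by
    rw [hk]; rfl
  rw [hkt, hk, hof, hof]

lemma fix_Q {g : Matrix ι ι ℂ} (hg : Fixes H g (Unit ⊕ Unit)) :
    g * cQ H.Qir * gᵀ = cQ H.Qir := by
  have h1 := hg _ (arr_BB H (x := 1) fun t _ => by
    rw [cQ_one, Matrix.mul_one, Matrix.one_mul])
  have h0 : ca (arr ((1 : Matrix (Unit → ι) (Unit → ι) ℚ) * kp Unit H.Qir)) =
      arr (kp Unit (cQ H.Qir)) := by
    rw [Matrix.one_mul, kp_cQ]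
    rfl
  rw [h0, kp_arr, ← kp_transpose, ← kp_mul, ← kp_mul] at h1
  have h2 := congrArg mat h1
  rw [mat_arr, mat_arr] at h2
  ext i j
  have h4 := congrFun (congrFun h2 fun _ => i) fun _ => j
  rw [kp_apply, kp_apply, Fintype.prod_unique, Fintype.prod_unique] at h4
  exact h4

variable {H}

/-- The adjoint action preserves the Lie algebra. -/
lemma ad_fix {p p' : Matrix ι ι ℂ} (hp : p' * p = 1) (h2 : Fixes H p (Unit ⊕ Unit))
    (h4 : Fixes H p ((Unit ⊕ Unit) ⊕ (Unit ⊕ Unit))) {z : Matrix ι ι ℂ} (hz : z ∈ ho H) :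
    p * z * p' ∈ ho H := by
  have hGA := mem_GA h4
  have hst : ∀ x ∈ GA H (Unit ⊕ Unit), ∀ v ∈ (ho H).map (Am H), x *ᵥ v ∈ (ho H).map (Am H) := by
    intro x hx
    have hx' : x ∈ Subalgebra.toSubmodule (GA H (Unit ⊕ Unit)) := hx
    rw [GA_eq_span] at hx'
    clear hx
    intro v hv
    induction hx' using Submodule.span_induction with
    | mem x hx =>
      obtain ⟨g, hg, rfl⟩ := hx
      obtain ⟨z, hz, rfl⟩ := hv
      obtain ⟨g', hg', hgg⟩ := So_ex_inv (GG_So hg)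
      rw [Am_kp H (mul_eq_one_comm.1 hgg) (fix_Q H (GG_So hg (Unit ⊕ Unit)))]
      exact ⟨_, So_ad hgg (GG_So hg) hz, rfl⟩
    | zero => rw [Matrix.zero_mulVec]; exact Submodule.zero_mem _
    | add x y _ _ hx hy => rw [Matrix.add_mulVec]; exact Submodule.add_mem _ hx hy
    | smul c x _ hx => rw [Matrix.smul_mulVec]; exact Submodule.smul_mem _ _ hx
  obtain ⟨z', hz', heq⟩ := hst _ hGA (Am H z) ⟨z, hz, rfl⟩
  rw [Am_kp H hp (fix_Q H h2)] at heq
  have h5 : z' * cQ H.Qir = p * z * p' * cQ H.Qir := by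
    ext i j
    exact congrFun heq (Sum.elim (fun _ => i) fun _ => j)
  have hQQ : cQ H.Qir * cQ H.Qr = 1 := mul_eq_one_comm.1 (by
    rw [← cQ_mul, H.Qr_Qir, cQ_one])
  have h6 : z' = p * z * p' := by
    calc z' = z' * cQ H.Qir * cQ H.Qr := by rw [Matrix.mul_assoc, hQQ, Matrix.mul_one]
      _ = p * z * p' * (cQ H.Qir * cQ H.Qr) := by rw [h5, Matrix.mul_assoc]
      _ = _ := by rw [hQQ, Matrix.mul_one]
  rw [← h6]
  exact hz'

variable (H)

lemma kp_cj_Mm {κ : Type} [Fintype κ] [DecidableEq κ] (q : Matrix ι ι ℂ) :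
    kp κ q * kp κ (Mm H) = kp κ (Mm H) * kp κ (cj H q) := by
  rw [← kp_mul, ← kp_mul]
  congr 1
  rw [cj]
  calc q * Mm H = (Mm H * Mi H) * q * Mm H := by rw [Mm_Mi, Matrix.one_mul]
    _ = _ := by simp only [Matrix.mul_assoc]

lemma dk_cj_Mm {κ : Type} [Fintype κ] [DecidableEq κ] (z : Matrix ι ι ℂ) :
    dk κ z * kp κ (Mm H) = kp κ (Mm H) * dk κ (cj H z) := by
  rw [kp_dk (Mi_Mm H)]
  congr 2
  exact (cji_cj H z).symm

/-- Matrices fixing Hodge classes preserve the stable subspaces. -/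
lemma pres_fix {κ : Type} [Fintype κ] [DecidableEq κ] {q : Matrix ι ι ℂ}
    (hq : Fixes H (cj H q) (κ ⊕ κ)) : Pres (hn H) (dkL κ) (kp κ q) := by
  intro W hW v hv
  let W' : Submodule ℂ ((κ → ι) → ℂ) := W.comap (Matrix.mulVecLin (kp κ (Mm H)))
  have hW' : ∀ z ∈ ho H, ∀ v ∈ W', dk κ z *ᵥ v ∈ W' := by
    intro z hz v hv
    change kp κ (Mm H) *ᵥ (dk κ z *ᵥ v) ∈ W
    have h1 := dk_cj_Mm (κ := κ) H (cji H z)
    rw [cj_cji] at h1
    rw [Matrix.mulVec_mulVec, ← h1, ← Matrix.mulVec_mulVec]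
    exact hW _ (by rw [mem_hn, cj_cji]; exact hz) _ hv
  have hv' : kp κ (Mi H) *ᵥ v ∈ W' := by
    change kp κ (Mm H) *ᵥ (kp κ (Mi H) *ᵥ v) ∈ W
    rw [Matrix.mulVec_mulVec, ← kp_mul, Mm_Mi, kp_one, Matrix.one_mulVec]
    exact hv
  have h2 := GA_stable hW' (mem_GA hq) _ hv'
  have h3 : kp κ (Mm H) *ᵥ (kp κ (cj H q) *ᵥ (kp κ (Mi H) *ᵥ v)) = kp κ q *ᵥ v := by
    rw [Matrix.mulVec_mulVec, ← kp_cj_Mm, ← Matrix.mulVec_mulVec, Matrix.mulVec_mulVec _ _ (kp κ (Mi H)),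
      ← kp_mul, Mm_Mi, kp_one, Matrix.one_mulVec]
  rw [← h3]
  exact h2

lemma kp_diag {κ : Type} [Fintype κ] [DecidableEq κ] (φ : ι → ℂ) :
    kp κ (diagonal φ) = diagonal fun i => ∏ k, φ (i k) := by
  ext i j
  rw [kp_apply]
  by_cases h : i = j
  · subst h; simp
  · rw [Matrix.diagonal_apply_ne _ h]
    obtain ⟨k, hk⟩ := Function.ne_iff.1 h
    exact Finset.prod_eq_zero (Finset.mem_univ k) (Matrix.diagonal_apply_ne _ hk)

lemma kp_fn {κ : Type} [Fintype κ] [DecidableEq κ] (U : Matrix ι ι ℂ) (φ : ι → ℂ) :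
    kp κ (fn U φ) = fn (kp κ U) fun i => ∏ k, φ (i k) := by
  rw [fn, fn, kp_mul, kp_mul, kp_diag, kp_conjT]

lemma sqrt_mem {κ : Type} [Fintype κ] [DecidableEq κ] (U : Matrix ι ι ℂ) (hU : Uᴴ * U = 1)
    (d : ι → ℝ) (hd : ∀ i, 0 < d i) (W : Submodule ℂ ((κ → ι) → ℂ))
    (hW : ∀ v ∈ W, kp κ (fn U (fun i => (d i : ℂ))) *ᵥ v ∈ W) :
    ∀ v ∈ W, kp κ (fn U (fun i => (((Real.sqrt (d i))⁻¹ : ℝ) : ℂ))) *ᵥ v ∈ W := by
  intro v hv
  rw [kp_fn] at hW ⊢
  have hU1 : (kp κ U)ᴴ * kp κ U = 1 := by rw [← kp_conjT, ← kp_mul, hU, kp_one]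
  have h1 := fn_mem hU1 (mul_eq_one_comm.1 hU1) hW
    (fun z => (((Real.sqrt z.re)⁻¹ : ℝ) : ℂ)) hv
  convert h1 using 3
  funext i
  have h2 : (∏ k, (d (i k) : ℂ)) = ((∏ k, d (i k) : ℝ) : ℂ) := by push_cast; rfl
  rw [h2, Complex.ofReal_re]
  have h3 : Real.sqrt (∏ k, d (i k)) = ∏ k, Real.sqrt (d (i k)) := by
    have h4 : ∀ u : Finset κ, Real.sqrt (∏ k ∈ u, d (i k)) = ∏ k ∈ u, Real.sqrt (d (i k)) := by
      intro u
      induction u using Finset.induction_on with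
      | empty => simp
      | insert a u ha ih =>
        rw [Finset.prod_insert ha, Finset.prod_insert ha, Real.sqrt_mul (hd _).le, ih]
    exact h4 _
  rw [h3, ← Finset.prod_inv_distrib]
  push_cast
  rfl

/-- **The decomposition theorem for Hodge structures.** -/
theorem exists_decH {V : Submodule ℂ (ι → ℂ)} (hV : ∀ z ∈ ho H, ∀ v ∈ V, z *ᵥ v ∈ V)
    (hV0 : ∀ z ∈ ho H, (∀ v ∈ V, z *ᵥ v = 0) → z = 0) {p : Matrix ι ι ℂ}
    (hp2 : Fixes H p (Unit ⊕ Unit)) (hp4 : Fixes H p ((Unit ⊕ Unit) ⊕ (Unit ⊕ Unit)))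
    (hPi : ∀ k, ∃ (κ : Type) (_ : Fintype κ) (_ : DecidableEq κ)
      (Pi : V [⋀^Fin k]→ₗ[ℂ] ((κ → ι) → ℂ)),
      (∀ z (hz : z ∈ ho H) (v : Fin k → V), dk κ z *ᵥ Pi v =
        ∑ j, Pi (Function.update v j ⟨z *ᵥ (v j : ι → ℂ), hV z hz _ (v j).2⟩)) ∧
      (∀ v, LinearIndependent ℂ v → Pi v ≠ 0) ∧ Fixes H p (κ ⊕ κ)) :
    ∃ q ∈ So H, ∃ q' ∈ So H, q * q' = 1 ∧ ∀ w ∈ ho H, (q' * p) * w = w * (q' * p) := by
  obtain ⟨p', hp', hpp⟩ := Fixes.inv hp2
  have hp2' : Fixes H p' (Unit ⊕ Unit) := Fixes.of_inv hp' hp2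
  have hp4' : Fixes H p' ((Unit ⊕ Unit) ⊕ (Unit ⊕ Unit)) := Fixes.of_inv hp' hp4
  -- the subspace in orthonormal coordinates
  let Vn : Submodule ℂ (ι → ℂ) := V.comap (Matrix.mulVecLin (Mi H))
  have hVn : ∀ z ∈ hn H, ∀ v ∈ Vn, z *ᵥ v ∈ Vn := by
    intro z hz v hv
    change Mi H *ᵥ (z *ᵥ v) ∈ V
    have h1 : Mi H *ᵥ (z *ᵥ v) = cj H z *ᵥ (Mi H *ᵥ v) := by
      rw [Matrix.mulVec_mulVec, Matrix.mulVec_mulVec, cj]
      congr 1
      rw [Matrix.mul_assoc (Mi H * z), Mm_Mi, Matrix.mul_one]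
    rw [h1]
    exact hV _ hz _ hv
  have hVn0 : ∀ z ∈ hn H, (∀ v ∈ Vn, z *ᵥ v = 0) → z = 0 := by
    intro z hz h0
    have h1 := hV0 _ hz (fun v hv => by
      have h2 : Mm H *ᵥ v ∈ Vn := by
        change Mi H *ᵥ (Mm H *ᵥ v) ∈ V
        rw [Matrix.mulVec_mulVec, Mi_Mm, Matrix.one_mulVec]
        exact hv
      rw [cj, ← Matrix.mulVec_mulVec, ← Matrix.mulVec_mulVec, h0 _ h2, Matrix.mulVec_zero])
    rw [← cji_cj H z, h1, cji, Matrix.mul_zero, Matrix.zero_mul]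
  let L : Vn →ₗ[ℂ] V :=
    { toFun := fun v => ⟨Mi H *ᵥ (v : ι → ℂ), v.2⟩
      map_add' := fun a b => Subtype.ext (Matrix.mulVec_add _ _ _)
      map_smul' := fun c a => Subtype.ext (Matrix.mulVec_smul _ _ _) }
  have hL : Function.Injective L := by
    intro a b hab
    have h1 : Mi H *ᵥ (a : ι → ℂ) = Mi H *ᵥ (b : ι → ℂ) := congrArg Subtype.val hab
    have h2 := congrArg (fun w => Mm H *ᵥ w) h1
    simp only [Matrix.mulVec_mulVec, Mm_Mi, Matrix.one_mulVec] at h2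
    exact Subtype.ext h2
  obtain ⟨q, hq, q', hq', hqq, hc⟩ := exists_dec (isLA_hn H) (isGrp_Sn H) hVn hVn0
    (p := cji H p) (p' := cji H p') (by rw [← cji_mul, hpp, cji_one])
    (fun z hz => by
      rw [mem_hn, cj_mul, cj_mul, cj_cji, cj_cji]
      exact ad_fix hp' hp2 hp4 hz)
    (fun z hz => by
      rw [mem_hn, cj_mul, cj_mul, cj_cji, cj_cji]
      exact ad_fix hpp hp2' hp4' hz)
    (by
      intro k
      obtain ⟨κ, _, _, Pi, h1, h2, h3⟩ := hPi k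
      refine ⟨κ → ι, inferInstance, inferInstance, dkL κ,
        (Matrix.mulVecLin (kp κ (Mm H))).compAlternatingMap (Pi.compLinearMap L), kpH κ,
        fun a b => dk_br a b, fun a => dk_conjTranspose a, fun a => kp_conjT a, ?_, ?_, ?_, ?_,
        ?_, ?_⟩
      · intro z hz v
        change dk κ z *ᵥ (kp κ (Mm H) *ᵥ Pi (fun i => L (v i))) =
          ∑ j, kp κ (Mm H) *ᵥ Pi (fun i => L (Function.update v j ⟨z *ᵥ (v j : ι → ℂ), hVn z hz _ (v j).2⟩ i))
        rw [Matrix.mulVec_mulVec, dk_cj_Mm, ← Matrix.mulVec_mulVec, h1 _ hz, ← Matrix.mulVec_sum]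
        congr 1
        refine Finset.sum_congr rfl fun j _ => ?_
        congr 1
        funext i
        by_cases hij : i = j
        · subst hij
          rw [Function.update_self, Function.update_self]
          apply Subtype.ext
          change cj H z *ᵥ (Mi H *ᵥ (v i : ι → ℂ)) = Mi H *ᵥ (z *ᵥ (v i : ι → ℂ))
          rw [Matrix.mulVec_mulVec, Matrix.mulVec_mulVec, cj]
          congr 1
          rw [Matrix.mul_assoc (Mi H * z), Mm_Mi, Matrix.mul_one]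
        · rw [Function.update_of_ne hij, Function.update_of_ne hij]
      · intro v hv h0
        change kp κ (Mm H) *ᵥ Pi (fun i => L (v i)) = 0 at h0
        have h4 := congrArg (fun w => kp κ (Mi H) *ᵥ w) h0
        simp only [Matrix.mulVec_mulVec, ← kp_mul, Mi_Mm, kp_one, Matrix.one_mulVec,
          Matrix.mulVec_zero] at h4
        exact h2 _ (hv.map' L (LinearMap.ker_eq_bot.2 hL)) h4
      · intro g g' z hgg
        exact kp_dk (mul_eq_one_comm.1 hgg) z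
      · intro U hU d hd W hW
        exact sqrt_mem U hU d hd W hW
      · intro q hq
        exact pres_fix H (hq (κ ⊕ κ))
      · refine pres_fix H ?_
        rw [cj_cji]
        exact h3)
  refine ⟨cj H q, hq, cj H q', hq', by rw [← cj_mul, hqq, cj_one], fun w hw => ?_⟩
  have h1 := hc (cji H w) (by rw [mem_hn, cj_cji]; exact hw)
  have h2 := congrArg (cj H) h1
  rw [cj_mul, cj_mul, cj_mul, cj_mul, cj_cji, cj_cji] at h2
  exact h2

end Pool.Agent.N996.FP
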