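import Pool.Agent.N996.FP.Inst

/-!
# Intertwining operators
-/

set_option linter.unusedSectionVars false

namespace Pool.Agent.N996.FP

open Matrix Pool.Agent.N996.BP ComplexConjugate

variable {ι : Type} [Fintype ι] [DecidableEq ι] {H : HData ι}
  {κ : Type} [Fintype κ] [DecidableEq κ] {l : Type} [Fintype l] [DecidableEq l]

/-- Rational intertwining operators. -/
def IsItw (H : HData ι) (P : Matrix (l → ι) (κ → ι) ℚ) : Prop :=
  ∀ t : ℂ, t ≠ 0 → kp l (H.l t) * cQ P = cQ P * kp κ (H.l t)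

lemma arr_inv_BB (κ : Type) [Fintype κ] [DecidableEq κ] : arr (kp κ H.Qir) ∈ BB H (κ ⊕ κ) := by
  have h1 := arr_BB H (κ := κ) (x := 1) fun t _ => by
    rw [cQ_one, Matrix.mul_one, Matrix.one_mul]
  rwa [Matrix.one_mul] at h1

lemma kp_fix_inv {p : Matrix ι ι ℂ} (hp : Fixes H p (κ ⊕ κ)) :
    kp κ p * kp κ (cQ H.Qir) * (kp κ p)ᵀ = kp κ (cQ H.Qir) := by
  have h1 := hp _ (arr_inv_BB κ)
  have h0 : ca (arr (kp κ H.Qir)) = arr (kp κ (cQ H.Qir)) := by rw [kp_cQ]; rfl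
  rw [h0, kp_arr] at h1
  have h2 := congrArg mat h1
  rwa [mat_arr, mat_arr] at h2

lemma dk_inv {z : Matrix ι ι ℂ} (hz : z ∈ ho H) :
    dk κ z * kp κ (cQ H.Qir) + kp κ (cQ H.Qir) * (dk κ z)ᵀ = 0 := by
  have h1 := hz (κ ⊕ κ) _ (arr_inv_BB κ)
  have h0 : ca (arr (kp κ H.Qir)) = arr (kp κ (cQ H.Qir)) := by rw [kp_cQ]; rfl
  rw [h0] at h1
  have h2 := congrArg mat h1
  rw [mat_dk, mat_arr] at h2
  exact h2

lemma QiQ : kp κ (cQ H.Qir) * kp κ (cQ H.Qr) = 1 := by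
  rw [← kp_mul, ← cQ_mul, mul_eq_one_comm.1 H.Qr_Qir, cQ_one, kp_one]

lemma QQi : kp κ (cQ H.Qr) * kp κ (cQ H.Qir) = 1 := mul_eq_one_comm.1 QiQ

/-- The array of an intertwining operator. -/
lemma itw_BB {P : Matrix (l → ι) (κ → ι) ℚ} (hP : IsItw H P) :
    arr (P * kp κ H.Qir) ∈ BB H (l ⊕ κ) := by
  intro t ht
  have h0 : ca (arr (P * kp κ H.Qir)) = arr (cQ P * kp κ (cQ H.Qir)) := by
    rw [kp_cQ, ← cQ_mul]; rfl
  have h1 : kp κ (H.l t) * kp κ (cQ H.Qir) * (kp κ (H.l t))ᵀ = kp κ (cQ H.Qir) :=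
    kp_fix_inv (p := H.l t) (GG_So (Submonoid.subset_closure (l_mem_gens H ht)) _)
  rw [h0, kp_arr, ← Matrix.mul_assoc, hP t ht, Matrix.mul_assoc (cQ P), Matrix.mul_assoc (cQ P),
    h1]

lemma itw_arr (P : Matrix (l → ι) (κ → ι) ℚ) :
    ca (arr (P * kp κ H.Qir)) = arr (cQ P * kp κ (cQ H.Qir)) := by
  rw [kp_cQ, ← cQ_mul]; rfl

/-- Elements of the Lie algebra. -/
lemma itw_dk {P : Matrix (l → ι) (κ → ι) ℚ} (hP : IsItw H P) {z : Matrix ι ι ℂ} (hz : z ∈ ho H) :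
    dk l z * cQ P = cQ P * dk κ z := by
  have h1 := hz (l ⊕ κ) _ (itw_BB hP)
  rw [itw_arr] at h1
  have h2 := congrArg mat h1
  rw [mat_dk, mat_arr] at h2
  have h3 : kp κ (cQ H.Qir) * (dk κ z)ᵀ = -(dk κ z * kp κ (cQ H.Qir)) := by
    rw [eq_neg_iff_add_eq_zero, add_comm]; exact dk_inv hz
  have h4 : dk l z * (cQ P * kp κ (cQ H.Qir)) = cQ P * (dk κ z * kp κ (cQ H.Qir)) := by
    have h5 : mat (0 : (l ⊕ κ → ι) → ℂ) = 0 := rfl
    rw [h5, Matrix.mul_assoc (cQ P), h3, Matrix.mul_neg, add_neg_eq_zero] at h2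
    exact h2
  calc dk l z * cQ P = dk l z * (cQ P * kp κ (cQ H.Qir)) * kp κ (cQ H.Qr) := by
        rw [Matrix.mul_assoc, Matrix.mul_assoc (cQ P), QiQ, Matrix.mul_one]
    _ = cQ P * dk κ z * (kp κ (cQ H.Qir) * kp κ (cQ H.Qr)) := by
        rw [h4]; simp only [Matrix.mul_assoc]
    _ = _ := by rw [QiQ, Matrix.mul_one]

/-- Matrices which fix the Hodge classes. -/
lemma itw_kp {P : Matrix (l → ι) (κ → ι) ℚ} (hP : IsItw H P) {p : Matrix ι ι ℂ}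
    (h1 : Fixes H p (l ⊕ κ)) (h2 : Fixes H p (κ ⊕ κ)) : kp l p * cQ P = cQ P * kp κ p := by
  have h3 := h1 _ (itw_BB hP)
  rw [itw_arr, kp_arr] at h3
  have h4 := congrArg mat h3
  rw [mat_arr, mat_arr] at h4
  have h5 := kp_fix_inv h2
  -- the right inverse
  obtain ⟨R, hR⟩ : ∃ R, R = kp κ (cQ H.Qir) * (kp κ p)ᵀ * kp κ (cQ H.Qr) := ⟨_, rfl⟩
  have h6 : kp κ p * R = 1 := by
    rw [hR]
    calc kp κ p * (kp κ (cQ H.Qir) * (kp κ p)ᵀ * kp κ (cQ H.Qr)) =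
        (kp κ p * kp κ (cQ H.Qir) * (kp κ p)ᵀ) * kp κ (cQ H.Qr) := by simp only [Matrix.mul_assoc]
      _ = 1 := by rw [h5, QiQ]
  have h7 : kp l p * cQ P * R = cQ P := by
    rw [hR]
    calc kp l p * cQ P * (kp κ (cQ H.Qir) * (kp κ p)ᵀ * kp κ (cQ H.Qr)) =
        (kp l p * (cQ P * kp κ (cQ H.Qir)) * (kp κ p)ᵀ) * kp κ (cQ H.Qr) := by
          simp only [Matrix.mul_assoc]
      _ = cQ P * (kp κ (cQ H.Qir) * kp κ (cQ H.Qr)) := by rw [h4, Matrix.mul_assoc]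
      _ = _ := by rw [QiQ, Matrix.mul_one]
  calc kp l p * cQ P = kp l p * cQ P * (R * kp κ p) := by
        rw [mul_eq_one_comm.1 h6, Matrix.mul_one]
    _ = (kp l p * cQ P * R) * kp κ p := by simp only [Matrix.mul_assoc]
    _ = _ := by rw [h7]

/-- Change of the index type. -/
lemma Fixes.rei {κ l : Type} [Fintype κ] [DecidableEq κ] [Fintype l] [DecidableEq l] (e : κ ≃ l)
    {p : Matrix ι ι ℂ} (hp : Fixes H p κ) : Fixes H p l := by
  intro a ha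
  have h1 : BP.rei e.symm a ∈ BB H κ := by
    intro t ht
    have h2 : ca (BP.rei e.symm a) = BP.rei e.symm (ca a) := rfl
    rw [h2, kp_rei, ha t ht]
  have h2 := hp _ h1
  have h3 : ca (BP.rei e.symm a) = BP.rei e.symm (ca a) := rfl
  rw [h3, kp_rei] at h2
  have h4 := congrArg (BP.rei e) h2
  have h5 : ∀ x : (l → ι) → ℂ, BP.rei e (BP.rei e.symm x) = x := by
    intro x
    funext i
    simp only [BP.rei]
    congr 1
    funext j
    simp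
  rwa [h5, h5] at h4

/-! ### Hodge endomorphisms -/

/-- Hodge endomorphisms. -/
def IsHE (H : HData ι) (x : Matrix ι ι ℚ) : Prop :=
  ∀ t : ℂ, t ≠ 0 → H.l t * cQ x = cQ x * H.l t

lemma IsHE.itw {x : Matrix ι ι ℚ} (hx : IsHE H x) : IsItw H (κ := Unit) (l := Unit) (kp Unit x) := by
  intro t ht
  rw [← kp_cQ, ← kp_mul, ← kp_mul, hx t ht]

lemma kpU_inj {x y : Matrix ι ι ℂ} (h : kp Unit x = kp Unit y) : x = y := by
  ext i j
  have := congrFun (congrFun h fun _ => i) fun _ => j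
  rwa [kp_apply, kp_apply, Fintype.prod_unique, Fintype.prod_unique] at this

lemma dkU_eq (x : Matrix ι ι ℂ) : dk Unit x = kp Unit x := by
  ext i j
  rw [dk_unit, kp_apply, Fintype.prod_unique]

lemma IsHE.comm_ho {x : Matrix ι ι ℚ} (hx : IsHE H x) {z : Matrix ι ι ℂ} (hz : z ∈ ho H) :
    z * cQ x = cQ x * z := by
  have h1 := itw_dk hx.itw hz
  rw [dkU_eq, ← kp_cQ, ← kp_mul, ← kp_mul] at h1
  exact kpU_inj h1

lemma IsHE.comm_fix {x : Matrix ι ι ℚ} (hx : IsHE H x) {p : Matrix ι ι ℂ}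
    (hp : Fixes H p (Unit ⊕ Unit)) : p * cQ x = cQ x * p := by
  have h1 := itw_kp hx.itw hp hp
  rw [← kp_cQ, ← kp_mul, ← kp_mul] at h1
  exact kpU_inj h1

end Pool.Agent.N996.FP
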