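import Pool.Agent.N996.FP.Cm
import Pool.Agent.N996.BP.HData

/-!
# Laurent polynomials
-/

set_option linter.unusedSectionVars false

namespace Pool.Agent.N996.FP

open Matrix Pool.Agent.N996.BP

/-- The exponents. -/
noncomputable def ic (W : ℕ) : Finset ℤ := Finset.Icc (-(W : ℤ)) W

lemma mem_ic {W : ℕ} {k : ℤ} : k ∈ ic W ↔ -(W : ℤ) ≤ k ∧ k ≤ W := Finset.mem_Icc

/-- Laurent polynomials with exponents between `-W` and `W`, as functions. -/
def IsLau (W : ℕ) (F : ℂ → ℂ) : Prop :=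
  ∃ a : ℤ → ℂ, ∀ t : ℂ, t ≠ 0 → F t = ∑ k ∈ ic W, t ^ k * a k

/-- The coefficients are unique. -/
lemma lau_unique {s : Finset ℤ} {a b : ℤ → ℂ}
    (h : ∀ t : ℂ, t ≠ 0 → ∑ k ∈ s, t ^ k * a k = ∑ k ∈ s, t ^ k * b k) {k : ℤ} (hk : k ∈ s) :
    a k = b k := by
  let χ : ℤ → (ℂˣ →* ℂ) := fun k => (Units.coeHom ℂ).comp (zpowGroupHom k)
  have hχ : Function.Injective χ := by
    intro k l hkl
    have h1 := DFunLike.congr_fun hkl (Units.mk0 2 two_ne_zero)
    have h2 : (2 : ℂ) ^ k = (2 : ℂ) ^ l := by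
      simpa [χ, zpowGroupHom] using h1
    have h3 : ((2 : ℝ) ^ k) = (2 : ℝ) ^ l := by
      have h8 : (((2 : ℝ) ^ k : ℝ) : ℂ) = (((2 : ℝ) ^ l : ℝ) : ℂ) := by
        push_cast
        exact h2
      exact_mod_cast h8
    exact zpow_right_injective₀ (by norm_num) (by norm_num) h3
  have hli := (linearIndependent_monoidHom ℂˣ ℂ).comp χ hχ
  have h1 := linearIndependent_iff'.1 hli s (fun k => a k - b k) (by
    funext t
    rw [Finset.sum_apply]
    have h2 := h (t : ℂ) t.ne_zero
    have h3 : ∑ k ∈ s, (t : ℂ) ^ k * (a k - b k) = 0 := by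
      simp only [mul_sub, Finset.sum_sub_distrib, h2, sub_self]
    rw [Pi.zero_apply, ← h3]
    refine Finset.sum_congr rfl fun k _ => ?_
    simp [χ, zpowGroupHom, mul_comm]) k hk
  exact sub_eq_zero.1 h1

/-- The coefficients of Laurent polynomials with values in matrices are unique. -/
lemma lau_uniqueM {m n : Type*} {s : Finset ℤ} {a b : ℤ → Matrix m n ℂ}
    (h : ∀ t : ℂ, t ≠ 0 → ∑ k ∈ s, t ^ k • a k = ∑ k ∈ s, t ^ k • b k) {k : ℤ} (hk : k ∈ s) :
    a k = b k := by
  ext i j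
  refine lau_unique (s := s) (a := fun k => a k i j) (b := fun k => b k i j) (fun t ht => ?_) hk
  have h1 := congrFun (congrFun (h t ht) i) j
  rw [Matrix.sum_apply, Matrix.sum_apply] at h1
  exact h1

lemma IsLau.mono {W W' : ℕ} {F : ℂ → ℂ} (h : IsLau W F) (hW : W ≤ W') : IsLau W' F := by
  obtain ⟨a, ha⟩ := h
  refine ⟨fun k => if k ∈ ic W then a k else 0, fun t ht => ?_⟩
  rw [ha t ht]
  have hsub : ic W ⊆ ic W' := fun k hk => by
    rw [mem_ic] at hk ⊢; omega
  rw [← Finset.sum_subset hsub]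
  · exact Finset.sum_congr rfl fun k hk => by beta_reduce; rw [if_pos hk]
  · intro k _ hk
    beta_reduce
    rw [if_neg hk, mul_zero]

lemma IsLau.const (c : ℂ) : IsLau 0 fun _ => c :=
  ⟨fun _ => c, fun t _ => by simp [ic]⟩

lemma IsLau.zero (W : ℕ) : IsLau W fun _ => 0 := ⟨fun _ => 0, fun t _ => by simp⟩

lemma IsLau.add {W : ℕ} {F G : ℂ → ℂ} (hF : IsLau W F) (hG : IsLau W G) :
    IsLau W fun t => F t + G t := by
  obtain ⟨a, ha⟩ := hF
  obtain ⟨b, hb⟩ := hG
  refine ⟨fun k => a k + b k, fun t ht => ?_⟩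
  simp only [ha t ht, hb t ht, mul_add, Finset.sum_add_distrib]

lemma IsLau.sum {α : Type*} {W : ℕ} (s : Finset α) {F : α → ℂ → ℂ}
    (hF : ∀ i ∈ s, IsLau W (F i)) : IsLau W fun t => ∑ i ∈ s, F i t := by
  classical
  induction s using Finset.induction_on with
  | empty => simpa using IsLau.zero W
  | insert a s ha ih =>
    simp only [Finset.sum_insert ha]
    exact (hF a (Finset.mem_insert_self _ _)).add
      (ih fun i hi => hF i (Finset.mem_insert_of_mem hi))

lemma IsLau.mul {W W' : ℕ} {F G : ℂ → ℂ} (hF : IsLau W F) (hG : IsLau W' G) :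
    IsLau (W + W') fun t => F t * G t := by
  obtain ⟨a, ha⟩ := hF
  obtain ⟨b, hb⟩ := hG
  refine ⟨fun k => ∑ i ∈ ic W, ∑ j ∈ ic W', if i + j = k then a i * b j else 0, fun t ht => ?_⟩
  beta_reduce
  rw [ha t ht, hb t ht, Finset.sum_mul_sum]
  simp only [Finset.mul_sum]
  symm
  rw [Finset.sum_comm]
  refine Finset.sum_congr rfl fun i hi => ?_
  rw [Finset.sum_comm]
  refine Finset.sum_congr rfl fun j hj => ?_
  rw [Finset.sum_eq_single (i + j)]
  · rw [if_pos rfl, zpow_add₀ ht]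
    ring
  · intro k _ hk
    rw [if_neg (Ne.symm hk), mul_zero]
  · intro h
    exfalso
    apply h
    rw [mem_ic] at hi hj ⊢
    push_cast
    omega

lemma IsLau.prod {α : Type*} {W : ℕ} (s : Finset α) {F : α → ℂ → ℂ}
    (hF : ∀ i ∈ s, IsLau W (F i)) : IsLau (s.card * W) fun t => ∏ i ∈ s, F i t := by
  classical
  induction s using Finset.induction_on with
  | empty => simpa using IsLau.const 1
  | insert a s ha ih =>
    simp only [Finset.prod_insert ha, Finset.card_insert_of_notMem ha]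
    have h1 := (hF a (Finset.mem_insert_self _ _)).mul
      (ih fun i hi => hF i (Finset.mem_insert_of_mem hi))
    exact h1.mono (by ring_nf; rfl)

variable {ι : Type} [Fintype ι] [LinearOrder ι]

/-- The entries of the compound matrices. -/
lemma lau_cm {W : ℕ} {L : ℂ → Matrix ι ι ℂ} (hL : ∀ i j, IsLau W fun t => L t i j)
    (S T : Finset ι) : IsLau (Fintype.card ι * W) fun t => cm (L t) S T := by
  by_cases h : T.card = S.card
  · have h1 : (fun t => cm (L t) S T) = fun t => ∑ σ : Equiv.Perm (Fin S.card),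
        ((Equiv.Perm.sign σ : ℤ) : ℂ) *
          ∏ a : Fin S.card, L t (S.orderEmbOfFin rfl (σ a)) (T.orderEmbOfFin h a) := by
      funext t
      rw [cm_apply rfl h, Matrix.det_apply']
      rfl
    rw [h1]
    refine IsLau.sum _ fun σ _ => ?_
    have h2 := IsLau.prod (W := W) (Finset.univ : Finset (Fin S.card))
      (F := fun a t => L t (S.orderEmbOfFin rfl (σ a)) (T.orderEmbOfFin h a))
      fun a _ => hL _ _
    have h3 := (IsLau.const (((Equiv.Perm.sign σ : ℤ) : ℂ))).mul h2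
    refine h3.mono ?_
    rw [Finset.card_univ, Fintype.card_fin, zero_add]
    exact Nat.mul_le_mul_right _ (Finset.card_le_univ S)
  · have h1 : (fun t => cm (L t) S T) = fun _ => 0 := by
      funext t
      rw [cm_ne (Ne.symm h)]
    rw [h1]
    exact IsLau.zero _

end Pool.Agent.N996.FP
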