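import Pool.Agent.N996.FP.Root2
import Pool.Agent.N996.FP.Diff

/-!
# The maximum of the scalar product on a compact group
-/

set_option linter.unusedSectionVars false

namespace Pool.Agent.N996.FP

open Matrix ComplexOrder NormedSpace

variable {ι : Type} [Fintype ι] [DecidableEq ι] {h : Submodule ℂ (Matrix ι ι ℂ)}
  {x : Matrix ι ι ℂ}

/-- A compact group of unitary matrices with complexified Lie algebra `h`. -/
structure IsCG (h : Submodule ℂ (Matrix ι ι ℂ)) (K : Set (Matrix ι ι ℂ)) : Prop where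
  cpt : IsCompact K
  one : (1 : Matrix ι ι ℂ) ∈ K
  exp : ∀ z ∈ h, zᴴ = -z → ∀ u ∈ K, exp z * u ∈ K
  uni : ∀ u ∈ K, uᴴ * u = 1
  ad : ∀ u ∈ K, ∀ z ∈ h, u * z * uᴴ ∈ h

/-- The positivity condition. -/
def IsPosFor (h : Submodule ℂ (Matrix ι ι ℂ)) (x y : Matrix ι ι ℂ) : Prop :=
  ∀ (a b : ℝ) (e : Matrix ι ι ℂ), e ∈ h → e ≠ 0 → e ∈ EA x a → e ∈ EA y b → 0 ≤ a * b

/-- **The maximum.** -/
theorem exists_max (hh : IsLA h) (hx : IsReg h x) {K : Set (Matrix ι ι ℂ)} (hK : IsCG h K)
    {p : Matrix ι ι ℂ} (hph : ∀ z ∈ h, p * z * pᴴ ∈ h) :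
    ∃ u ∈ K, ∃ y ∈ h, y = (u * p) * x * (u * p)ᴴ ∧ yᴴ = y ∧ x * y = y * x ∧ IsPosFor h x y := by
  have hcont : ContinuousOn (fun u : Matrix ι ι ℂ => (u * (p * x * pᴴ) * uᴴ * x).trace.re) K := by
    apply Continuous.continuousOn
    have h1 : Continuous fun u : Matrix ι ι ℂ => u * (p * x * pᴴ) * uᴴ * x :=
      ((continuous_id.matrix_mul continuous_const).matrix_mul
        (continuous_id.matrix_conjTranspose)).matrix_mul continuous_const
    exact Complex.continuous_re.comp h1.matrix_trace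
  obtain ⟨u, hu, hmax⟩ := hK.cpt.exists_isMaxOn ⟨1, hK.one⟩ hcont
  obtain ⟨y, hy⟩ : ∃ y, y = u * (p * x * pᴴ) * uᴴ := ⟨_, rfl⟩
  have hyh : y ∈ h := by rw [hy]; exact hK.ad u hu _ (hph x hx.mem)
  have hyH : yᴴ = y := by
    rw [hy, Matrix.conjTranspose_mul, Matrix.conjTranspose_mul, Matrix.conjTranspose_mul,
      Matrix.conjTranspose_mul, Matrix.conjTranspose_conjTranspose,
      Matrix.conjTranspose_conjTranspose, hx.herm]
    simp only [Matrix.mul_assoc]
  have hcond : ∀ z ∈ h, zᴴ = -z → ((z * y - y * z) * x).trace.re = 0 ∧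
      ((z * (z * y - y * z) - (z * y - y * z) * z) * x).trace.re ≤ 0 := by
    intro z hz hzH
    refine max_cond fun t => ?_
    have h1 : (t • z)ᴴ = -(t • z) := by
      rw [Matrix.conjTranspose_smul, hzH]; simp
    have hth : t • z ∈ h := by
      have : t • z = (t : ℂ) • z := by
        ext i j; simp
      rw [this]
      exact Submodule.smul_mem _ _ hz
    have h2 := hmax (hK.exp _ hth h1 u hu)
    simp only [Set.mem_ofPred_eq] at h2
    have h3 : exp (t • z) * u * (p * x * pᴴ) * (exp (t • z) * u)ᴴ * x =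
        exp (t • z) * y * exp (t • (-z)) * x := by
      have h4 : exp (t • (-z)) = (exp (t • z))ᴴ := by
        rw [← Matrix.exp_conjTranspose, h1, smul_neg]
      rw [Matrix.conjTranspose_mul, h4, hy]
      simp only [Matrix.mul_assoc]
    rw [h3] at h2
    rw [← hy] at h2
    exact h2
  -- `x` and `y` commute
  have hcomm : x * y = y * x := by
    obtain ⟨z, hz⟩ : ∃ z, z = br y x := ⟨_, rfl⟩
    have hzh : z ∈ h := by rw [hz]; exact hh.lie _ hyh _ hx.mem
    have hzH : zᴴ = -z := by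
      rw [hz, br_star, hyH, hx.herm, br_swap]
    have h1 := (hcond z hzh hzH).1
    have h2 : ((z * y - y * z) * x).trace = -nsq z := by
      have h3 := tr_br z y x
      rw [← hz] at h3
      rw [← br_def, h3, nsq, hzH, Matrix.neg_mul, Matrix.trace_neg, neg_neg]
    rw [h2, Complex.neg_re, neg_eq_zero] at h1
    have h3 : nsq z = 0 := by rw [← nsq_real, h1, Complex.ofReal_zero]
    have h4 := nsq_eq_zero h3
    rw [hz, br, sub_eq_zero] at h4
    exact h4.symm
  refine ⟨u, hu, y, hyh, by rw [hy, Matrix.conjTranspose_mul]; simp only [Matrix.mul_assoc], hyH,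
    hcomm, ?_⟩
  intro a b e he he0 hea heb
  rcases eq_or_ne a 0 with ha0 | ha0
  · rw [ha0, zero_mul]
  have hsx : eᴴ ∈ EA x ((-a : ℝ) : ℂ) := EA_star hx.herm hea
  have hsy : eᴴ ∈ EA y ((-b : ℝ) : ℂ) := EA_star hyH heb
  obtain ⟨z, hz⟩ : ∃ z, z = e - eᴴ := ⟨_, rfl⟩
  have hzh : z ∈ h := by rw [hz]; exact Submodule.sub_mem _ he (hh.star _ he)
  have hzH : zᴴ = -z := by
    rw [hz, Matrix.conjTranspose_sub, Matrix.conjTranspose_conjTranspose, neg_sub]
  have h1 := (hcond z hzh hzH).2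
  have hxz : br z x = (-(a : ℂ)) • (e + eᴴ) := by
    have e1 : br x e = (a : ℂ) • e := hea
    have e2 : br x eᴴ = ((-a : ℝ) : ℂ) • eᴴ := hsx
    have e3 : br z x = -(br x e - br x eᴴ) := by
      rw [hz]; simp only [br, Matrix.sub_mul, Matrix.mul_sub]; abel
    rw [e3, e1, e2]
    push_cast
    rw [neg_smul, neg_smul, smul_add]
    abel
  have hyz : br z y = (-(b : ℂ)) • (e + eᴴ) := by
    have e1 : br y e = (b : ℂ) • e := heb
    have e2 : br y eᴴ = ((-b : ℝ) : ℂ) • eᴴ := hsy
    have e3 : br z y = -(br y e - br y eᴴ) := by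
      rw [hz]; simp only [br, Matrix.sub_mul, Matrix.mul_sub]; abel
    rw [e3, e1, e2]
    push_cast
    rw [neg_smul, neg_smul, smul_add]
    abel
  have hn : (e + eᴴ)ᴴ = e + eᴴ := by
    rw [Matrix.conjTranspose_add, Matrix.conjTranspose_conjTranspose, add_comm]
  have h2 : ((z * (z * y - y * z) - (z * y - y * z) * z) * x).trace =
      -((a * b : ℝ) : ℂ) * nsq (e + eᴴ) := by
    have h3 : ((z * (z * y - y * z) - (z * y - y * z) * z) * x).trace =
        -(br (br z y) z * x).trace := by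
      have : z * (z * y - y * z) - (z * y - y * z) * z = -br (br z y) z := by
        simp only [br]; abel
      rw [this, Matrix.neg_mul, Matrix.trace_neg]
    rw [h3, tr_br, hxz, hyz, Matrix.smul_mul, Matrix.mul_smul, smul_smul, Matrix.trace_smul,
      smul_eq_mul, nsq, hn]
    push_cast
    ring
  rw [h2, ← nsq_real] at h1
  have h3 : (-((a * b : ℝ) : ℂ) * (((nsq (e + eᴴ)).re : ℝ) : ℂ)).re =
      -(a * b * (nsq (e + eᴴ)).re) := by
    rw [neg_mul, ← Complex.ofReal_mul, ← Complex.ofReal_neg, Complex.ofReal_re]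
  rw [h3] at h1
  have h4 : e + eᴴ ≠ 0 := by
    intro h0
    have h5 : eᴴ = -e := by rw [← sub_eq_zero, sub_neg_eq_add, add_comm]; exact h0
    rw [h5, mem_EA] at hsx
    have h6 : br x e = (a : ℂ) • e := hea
    have h7 : x * -e - -e * x = -(br x e) := by simp only [br, Matrix.mul_neg, Matrix.neg_mul]; abel
    rw [h7, h6, smul_neg] at hsx
    have h8 : ((2 * a : ℝ) : ℂ) • e = 0 := by
      have h9 : (a : ℂ) • e + (a : ℂ) • e = 0 := by
        have h10 := neg_injective hsx
        nth_rewrite 1 [h10]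
        push_cast
        rw [neg_smul, neg_add_cancel]
      rw [← two_smul ℂ, smul_smul] at h9
      push_cast
      exact h9
    rcases smul_eq_zero.1 h8 with h9 | h9
    · have : (2 * a : ℝ) = 0 := by exact_mod_cast h9
      exact ha0 (by linarith)
    · exact he0 h9
  have h5 : 0 < (nsq (e + eᴴ)).re := by
    have := nsq_pos h4
    rw [Complex.lt_def] at this
    exact this.1
  by_contra hneg
  push Not at hneg
  nlinarith [mul_neg_of_neg_of_pos hneg h5]

end Pool.Agent.N996.FP
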