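import Pool.Agent.N996.FP.Cos

/-!
# The orders of the weights modulo the root lattice
-/

set_option linter.unusedSectionVars false

namespace Pool.Agent.N996.FP

open Matrix Pool.Agent.N996.BP ComplexConjugate

section gen

variable {ι : Type} [Fintype ι] [DecidableEq ι]

/-- The trace of a matrix with range in a subspace. -/
lemma trace_basis {V : Submodule ℂ (ι → ℂ)} {n : ℕ} (b : Module.Basis (Fin n) ℂ V)
    (g : Matrix ι ι ℂ) (hg : ∀ v, g *ᵥ v ∈ V) :
    g.trace = ∑ j, b.repr ⟨g *ᵥ (b j : ι → ℂ), hg _⟩ j := by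
  rw [← Matrix.trace_toLin'_eq g,
    ← LinearMap.trace_restrict_eq_of_forall_mem V (Matrix.toLin' g) (fun v => by
      rw [Matrix.toLin'_apply]; exact hg v), LinearMap.trace_eq_matrix_trace ℂ b, Matrix.trace]
  refine Finset.sum_congr rfl fun j _ => ?_
  rw [Matrix.diag_apply, LinearMap.toMatrix_apply]
  congr 2

variable {h : Submodule ℂ (Matrix ι ι ℂ)} {x z : Matrix ι ι ℂ} {n : ℕ} {A : Type} [Ring A]
  [Algebra ℂ A]

/-- The action on the top exterior power of a stable subspace. -/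
lemma pS_tr (D : PD h z A) (B : Bz h x z D.V n) (S : Finset (Fin n)) {w : Matrix ι ι ℂ}
    (hw : w ∈ h) (hS : ∀ j ∈ S, ∀ i, i ∉ S →
      B.bas.repr ⟨w *ᵥ (B.v j : ι → ℂ), D.stab w hw _ (B.v j).2⟩ i = 0) :
    w *ᵥ D.pS B.v S =
      (∑ j ∈ S, B.bas.repr ⟨w *ᵥ (B.v j : ι → ℂ), D.stab w hw _ (B.v j).2⟩ j) • D.pS B.v S := by
  rw [← PD.sum_emb, PD.pS, D.pv_der _ hw, Finset.sum_smul]
  refine Finset.sum_congr rfl fun j _ => ?_
  have hjS := Finset.orderEmbOfFin_mem S rfl j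
  obtain ⟨u, hu⟩ : ∃ u : D.V, u = ⟨w *ᵥ (B.v (S.orderEmbOfFin rfl j) : ι → ℂ),
    D.stab w hw _ (B.v (S.orderEmbOfFin rfl j)).2⟩ := ⟨_, rfl⟩
  have hS' : ∀ i, i ∉ S → B.bas.repr u i = 0 := by
    intro i hi
    rw [hu]
    exact hS _ hjS i hi
  change D.pv (Function.update (B.v ∘ S.orderEmbOfFin rfl) j ⟨w *ᵥ
    (B.v (S.orderEmbOfFin rfl j) : ι → ℂ), D.stab w hw _ (B.v (S.orderEmbOfFin rfl j)).2⟩) =
    B.bas.repr ⟨w *ᵥ (B.v (S.orderEmbOfFin rfl j) : ι → ℂ),
      D.stab w hw _ (B.v (S.orderEmbOfFin rfl j)).2⟩ (S.orderEmbOfFin rfl j) •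
      D.pv (B.v ∘ S.orderEmbOfFin rfl)
  rw [← hu]
  let Φ : D.V →ₗ[ℂ] (ι → ℂ) := D.ε.toLinearMap ∘ₗ
    (pA (iL D.ε D.V) D.sq S.card).toMultilinearMap.toLinearMap (B.v ∘ S.orderEmbOfFin rfl) j
  have hΦ : ∀ u, Φ u = D.pv (Function.update (B.v ∘ S.orderEmbOfFin rfl) j u) := by
    intro u
    rw [PD.pv, ← pA_apply _ D.sq]
    rfl
  rw [← hΦ]
  conv_lhs => rw [← B.bas.sum_repr u]
  rw [map_sum, Finset.sum_eq_single (S.orderEmbOfFin rfl j)]
  · rw [map_smul, B.bas_apply, hΦ]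
    congr 2
    exact Function.update_eq_self _ _
  · intro i _ hij
    rw [map_smul, B.bas_apply]
    by_cases hi : i ∈ S
    · have h2 : i ∈ Set.range (S.orderEmbOfFin rfl) := by
        rw [Finset.range_orderEmbOfFin]; exact hi
      obtain ⟨k, rfl⟩ := h2
      have hkj : k ≠ j := fun hk => hij (by rw [hk])
      have h3 : Φ (B.v (S.orderEmbOfFin rfl k)) = 0 := by
        rw [hΦ, PD.pv, ← pA_apply _ D.sq,
          AlternatingMap.map_eq_zero_of_eq _ _ (i := k) (j := j) ?_ hkj, map_zero]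
        rw [Function.update_self, Function.update_of_ne hkj]
        rfl
      rw [h3, smul_zero]
    · rw [hS' i hi, zero_smul]
  · intro hn; exact absurd (Finset.mem_univ _) hn

end gen

variable {ι : Type} [Fintype ι] [DecidableEq ι] {H : HData ι}
  {A : Type} [Ring A] [Algebra ℂ A]

/-- Vectors killed by the generators of the Lie algebra are fixed by the group. -/
lemma fix_of_Ng {d : ι → ℂ} (hd : ∀ σ : ℂ ≃+* ℂ, Ng H σ *ᵥ d = 0) {g : Matrix ι ι ℂ}
    (hg : g ∈ GG H) : g *ᵥ d = d := by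
  induction hg using Submonoid.closure_induction with
  | mem y hy =>
    obtain ⟨σ, t, ht, rfl⟩ := hy
    have hI := isIdem_map (H := H) σ
    have h1 : ∀ k ∈ wr H, k ≠ 0 → (H.π k).map σ *ᵥ d = 0 := by
      intro k hk hk0
      have h2 : (H.π k).map σ * Ng H σ = (k : ℂ) • (H.π k).map σ := by
        rw [Ng, Finset.mul_sum, Finset.sum_eq_single k]
        · rw [Matrix.mul_smul, hI.mul k hk k hk, if_pos rfl]
        · intro l hl hlk
          rw [Matrix.mul_smul, hI.mul k hk l hl, if_neg (Ne.symm hlk), smul_zero]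
        · intro hn; exact absurd hk hn
      have h3 : ((H.π k).map σ * Ng H σ) *ᵥ d = 0 := by
        rw [← Matrix.mulVec_mulVec, hd σ, Matrix.mulVec_zero]
      rw [h2, Matrix.smul_mulVec] at h3
      rcases smul_eq_zero.1 h3 with h4 | h4
      · exact absurd (by exact_mod_cast h4) hk0
      · exact h4
    rw [gen_eq, Matrix.sum_mulVec]
    conv_rhs => rw [← Matrix.one_mulVec d, ← hI.one, Matrix.sum_mulVec]
    refine Finset.sum_congr rfl fun k hk => ?_
    rw [Matrix.smul_mulVec]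
    by_cases hk0 : k = 0
    · rw [hk0, _root_.zpow_zero, one_smul]
    · rw [h1 k hk hk0, smul_zero]
  | one => rw [Matrix.one_mulVec]
  | mul x y _ _ hx hy => rw [← Matrix.mulVec_mulVec, hy, hx]

/-- Vectors fixed by the group are killed by the Lie algebra. -/
lemma ho_of_fix {d : ι → ℂ} (hd : ∀ g ∈ GG H, g *ᵥ d = d) {w : Matrix ι ι ℂ} (hw : w ∈ ho H) :
    w *ᵥ d = 0 := by
  let C : Submodule ℂ (ι → ℂ) :=
    { carrier := {v | ∀ g ∈ GG H, g *ᵥ v = v}
      add_mem' := fun {a b} ha hb g hg => by rw [Matrix.mulVec_add, ha g hg, hb g hg]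
      zero_mem' := fun g _ => Matrix.mulVec_zero _
      smul_mem' := fun c a ha g hg => by rw [Matrix.mulVec_smul, ha g hg] }
  have hC : ∀ (σ : ℂ ≃+* ℂ), ∀ v ∈ C, (fun i => σ (v i)) ∈ C := by
    intro σ v h1 g hg
    have e1 : (⇑σ ∘ ⇑σ.symm) = id := by ext; simp
    have h5 := h1 (g.map σ.symm) (GG_map H σ.symm hg)
    funext i
    have h6 := congrArg σ (congrFun h5 i)
    rw [Matrix.mulVec, dotProduct, map_sum] at h6
    rw [Matrix.mulVec, dotProduct, ← h6]
    refine Finset.sum_congr rfl fun j _ => ?_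
    rw [map_mul, Matrix.map_apply, RingEquiv.apply_symm_apply]
  have hdC : d ∈ C := hd
  rw [Pool.Agent.W437.HD.span_rational C hC] at hdC
  have key : ∀ v ∈ Submodule.span ℂ {w | w ∈ C ∧ ∃ u : ι → ℚ, w = fun i => (u i : ℂ)},
      w *ᵥ v = 0 := by
    intro v hv
    induction hv using Submodule.span_induction with
    | mem v hv =>
      obtain ⟨h1, u, rfl⟩ := hv
      have h0 : ca (un u) = un (fun i => (u i : ℂ)) := rfl
      have h2 : un u ∈ BB H Unit := by
        intro t ht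
        rw [h0, kp_un, h1 _ (Submonoid.subset_closure (l_mem_gens H ht))]
      have h3 := hw Unit _ h2
      rw [h0, dk_un] at h3
      exact un_inj h3
    | zero => exact Matrix.mulVec_zero _
    | add a b _ _ ha hb => rw [Matrix.mulVec_add, ha, hb, add_zero]
    | smul c a _ ha => rw [Matrix.mulVec_smul, ha, smul_zero]
  exact key d hdC

namespace AData

variable (D : AData H A)

lemma pr1_mul : D.pr1 * D.pr1 = D.pr1 := by
  rw [pr1, Matrix.diagonal_mul_diagonal]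
  congr 1
  funext i
  split_ifs <;> simp

lemma pr1_CE : D.IsCE D.pr1 :=
  ⟨⟨D.pr1_HE, D.pr1_mul, D.pr1_mul⟩, fun y hy => by rw [hy.2.1, hy.2.2]⟩

lemma pr1n_Vn {v : ι → ℂ} (hv : v ∈ D.Vn) : cji H (cQ D.pr1) *ᵥ v = v := by
  have h1 : Mi H *ᵥ (cji H (cQ D.pr1) *ᵥ v) = Mi H *ᵥ v := by
    rw [Mi_mulVec, cj_cji]
    exact D.mem_V'.1 hv
  have h2 := congrArg (fun w => Mm H *ᵥ w) h1
  simp only [Matrix.mulVec_mulVec _ (Mm H) (Mi H), Mm_Mi, Matrix.one_mulVec] at h2
  exact h2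

lemma pr1n_mem (v : ι → ℂ) : cji H (cQ D.pr1) *ᵥ v ∈ D.Vn := by
  rw [mem_Vn, Mi_mulVec, cj_cji, mem_V', Matrix.mulVec_mulVec, ← cQ_mul, D.pr1_mul]

/-- The projector to a coset. -/
lemma exists_proj {x : Matrix ι ι ℂ} (hx : IsReg (hn H) x) (T₀ : Matrix ι ι ℂ) :
    ∃ y : Matrix ι ι ℂ, (∀ w ∈ hn H, y * w = w * y) ∧
      cj H y * cQ D.pr1 ∈ Submodule.span ℂ (cQ '' {x | D.IsCE x}) ∧
      ∀ (v : ι → ℂ) (T : Matrix ι ι ℂ), v ≠ 0 → IsWt (hn H) x v T →
        (T - T₀ ∈ QL (hn H) x → y *ᵥ v = v) ∧ (T - T₀ ∉ QL (hn H) x → y *ᵥ v = 0) := by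
  obtain ⟨y, hy1, hy2, hy3⟩ := exists_coset (isLA_hn H) hx T₀
  have hZ : IsZ H y := ⟨hy2, fun y' hy' => hy1 y' (hy' x hx.mem).symm⟩
  exact ⟨y, hy2, D.ce_span hZ.comm_GG fun x hx => hZ.comm_HE hx, hy3⟩

variable {x z : Matrix ι ι ℂ} {n : ℕ}

/-- The pairing of weight vectors. -/
lemma exists_pair (hP : cQ D.pr1 * cQ H.Qir = cQ H.Qir * (cQ D.pr1)ᵀ)
    (B : Bz (hn H) x z D.Vn n) {u : ι → ℂ} (hu : u ∈ D.Vn) (hu0 : u ≠ 0) :
    ∃ j, qf H (B.v j : ι → ℂ) u ≠ 0 := by
  by_contra hcon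
  push Not at hcon
  apply hu0
  refine qf_nondeg (H := H) fun w => ?_
  have h1 : qf H w u = qf H (cji H (cQ D.pr1) *ᵥ w) u := by
    rw [qf_adj (by rw [cj_cji]; exact hP), D.pr1n_Vn hu]
  rw [h1]
  obtain ⟨v, hv⟩ : ∃ v : D.Vn, (v : ι → ℂ) = cji H (cQ D.pr1) *ᵥ w := ⟨⟨_, D.pr1n_mem w⟩, rfl⟩
  rw [← hv]
  have hvs : v ∈ Submodule.span ℂ (Set.range B.v) := by rw [B.sp]; exact Submodule.mem_top
  clear hv
  induction hvs using Submodule.span_induction with
  | mem v hv =>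
    obtain ⟨j, rfl⟩ := hv
    exact hcon j
  | zero => exact qf_zero_left _
  | add a b _ _ ha hb => rw [Submodule.coe_add, qf_add_left, ha, hb, add_zero]
  | smul c a _ ha => rw [Submodule.coe_smul, qf_smul_left, ha, mul_zero]

lemma pair_wt (hx : IsReg (hn H) x) (B : Bz (hn H) x z D.Vn n) {i j : Fin n}
    (hij : qf H (B.v i : ι → ℂ) (B.v j : ι → ℂ) ≠ 0) : B.T i + B.T j = 0 := by
  refine ct_nondeg (isLA_hn H) hx.herm ((ct _ x).add_mem (B.wt i).mem (B.wt j).mem) fun t ht => ?_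
  have h1 := qf_skew ht.1 (B.v i : ι → ℂ) (B.v j : ι → ℂ)
  rw [(B.wt i).val t ht, (B.wt j).val t ht, qf_smul_left, qf_smul_right,
    eq_neg_iff_add_eq_zero, ← add_mul] at h1
  rw [Matrix.add_mul, Matrix.trace_add]
  exact (mul_eq_zero.1 h1).resolve_right hij

/-- **Self-adjoint centres.** -/
theorem two_mem (hR : ∀ x, D.IsCE x → cQ x * cQ H.Qir = cQ H.Qir * (cQ x)ᵀ)
    (hx : IsReg (hn H) x) (B : Bz (hn H) x z D.Vn n) (k : Fin n) :
    2 • B.T k ∈ QL (hn H) x := by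
  obtain ⟨y, hy1, hy2, hy3⟩ := D.exists_proj hx (B.T k)
  have key : ∀ Y ∈ Submodule.span ℂ (cQ '' {x | D.IsCE x}),
      Y * cQ H.Qir = cQ H.Qir * Yᵀ := by
    intro Y hY
    induction hY using Submodule.span_induction with
    | mem x hx =>
      obtain ⟨x, hx, rfl⟩ := hx
      exact hR x hx
    | zero => rw [Matrix.zero_mul, Matrix.transpose_zero, Matrix.mul_zero]
    | add a b _ _ ha hb => rw [Matrix.add_mul, Matrix.transpose_add, Matrix.mul_add, ha, hb]
    | smul c a _ ha => rw [Matrix.smul_mul, Matrix.transpose_smul, Matrix.mul_smul, ha]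
  have hadj := key _ hy2
  have hP := hR _ D.pr1_CE
  obtain ⟨j, hj⟩ := D.exists_pair hP B (B.v k).2 (B.v_ne k)
  have h1 := D.pair_wt hx B hj
  have h2 : qf H (y *ᵥ (B.v j : ι → ℂ)) (B.v k : ι → ℂ) =
      qf H (B.v j : ι → ℂ) (y *ᵥ (B.v k : ι → ℂ)) := by
    have h3 : ∀ v ∈ D.Vn, cji H (cj H y * cQ D.pr1) *ᵥ v = y *ᵥ v := by
      intro v hv
      rw [cji_mul, cji_cj, ← Matrix.mulVec_mulVec, D.pr1n_Vn hv]
    rw [← h3 _ (B.v j).2, ← h3 _ (B.v k).2, qf_adj (by rw [cj_cji]; exact hadj)]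
  have h3 : y *ᵥ (B.v k : ι → ℂ) = B.v k :=
    (hy3 _ _ (B.v_ne k) (B.wt k)).1 (by rw [sub_self]; exact (QL _ x).zero_mem)
  have h4 : B.T j - B.T k ∈ QL (hn H) x := by
    by_contra hcon
    rw [(hy3 _ _ (B.v_ne j) (B.wt j)).2 hcon, qf_zero_left, h3] at h2
    exact hj h2.symm
  have h5 : 2 • B.T k = -(B.T j - B.T k) := by
    rw [eq_neg_of_add_eq_zero_left h1, two_nsmul]
    abel
  rw [h5]
  exact (QL _ x).neg_mem h4

/-- Half of the dimension bounds the isotropic sets. -/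
theorem half_of (hP : cQ D.pr1 * cQ H.Qir = cQ H.Qir * (cQ D.pr1)ᵀ)
    (hx : IsReg (hn H) x) (B : Bz (hn H) x z D.Vn n) (S : Finset (Fin n))
    (hS : ∀ i ∈ S, ∀ j ∈ S, B.T i + B.T j ≠ 0) : 2 * S.card ≤ n := by
  classical
  have hiso : ∀ i ∈ S, ∀ j ∈ S, qf H (B.v i : ι → ℂ) (B.v j : ι → ℂ) = 0 := by
    intro i hi j hj
    by_contra hne
    exact hS i hi j hj (D.pair_wt hx B hne)
  have hli : LinearIndependent ℂ
      (fun (j : S) => fun (i : {i : Fin n // i ∉ S}) => qf H (B.v i : ι → ℂ) (B.v j : ι → ℂ)) := by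
    rw [Fintype.linearIndependent_iff]
    intro a ha
    obtain ⟨u, hu⟩ : ∃ u : D.Vn, u = ∑ j : S, a j • B.v j := ⟨_, rfl⟩
    have hq : ∀ w : ι → ℂ, qf H w (u : ι → ℂ) = ∑ j : S, a j * qf H w (B.v j : ι → ℂ) := by
      intro w
      have h1 : ∀ s : Finset S, qf H w ((∑ j ∈ s, a j • B.v j : D.Vn) : ι → ℂ) =
          ∑ j ∈ s, a j * qf H w (B.v j : ι → ℂ) := by
        intro s
        induction s using Finset.induction_on with
        | empty => rw [Finset.sum_empty, Finset.sum_empty]; exact qf_zero_right _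
        | insert b s hb ih =>
          rw [Finset.sum_insert hb, Finset.sum_insert hb, Submodule.coe_add, qf_add_right, ih,
            Submodule.coe_smul, qf_smul_right]
      rw [hu]
      exact h1 _
    have hu0 : (u : ι → ℂ) = 0 := by
      by_contra hne
      obtain ⟨i, hi⟩ := D.exists_pair hP B u.2 hne
      apply hi
      rw [hq]
      by_cases hiS : i ∈ S
      · exact Finset.sum_eq_zero fun j _ => by rw [hiso i hiS j j.2, mul_zero]
      · have h2 := congrFun ha ⟨i, hiS⟩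
        rw [Finset.sum_apply] at h2
        exact h2
    have hu1 : ∑ j : S, a j • B.v j = 0 := by rw [← hu]; exact Subtype.ext hu0
    exact Fintype.linearIndependent_iff.1
      (B.li.comp (fun j : S => (j : Fin n)) Subtype.val_injective) a hu1
  have h1 := hli.fintype_card_le_finrank
  rw [Fintype.card_coe, Module.finrank_fintype_fun_eq_card, Fintype.card_subtype_compl,
    Fintype.card_fin] at h1
  have h2 : Fintype.card {i // i ∈ S} = S.card := Fintype.card_coe S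
  omega

/-- Half of the dimension bounds the isotropic cosets. -/
theorem half (hP : cQ D.pr1 * cQ H.Qir = cQ H.Qir * (cQ D.pr1)ᵀ)
    (hx : IsReg (hn H) x) (B : Bz (hn H) x z D.Vn n) (k : Fin n)
    (hk : 2 • B.T k ∉ QL (hn H) x) (S : Finset (Fin n))
    (hS : ∀ i ∈ S, B.T i - B.T k ∈ QL (hn H) x) : 2 * S.card ≤ n := by
  refine D.half_of hP hx B S fun i hi j hj h1 => hk ?_
  have h2 := (QL _ x).neg_mem ((QL _ x).add_mem (hS i hi) (hS j hj))
  have h3 : 2 • B.T k = -(B.T i - B.T k + (B.T j - B.T k)) := by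
    rw [eq_neg_of_add_eq_zero_left h1, two_nsmul]
    abel
  rw [h3]
  exact h2

/-- **Traces.** The sum of the weights of a coset vanishes. -/
theorem tot_coset (htop : ∃ v : Fin (Module.finrank ℂ D.V) → D.V, pL D.L v ≠ 0)
    {z : Matrix ι ι ℂ} (hz : D.IsCI z) (B : Bz (hn H) x (cji H z) D.Vn n)
    (hT : ∀ x, D.IsCE x → (cQ x * Ng H (RingEquiv.refl ℂ)).trace = 0)
    (hx : IsReg (hn H) x) (k : Fin n) (S : Finset (Fin n))
    (hS : ∀ i, i ∈ S ↔ B.T i - B.T k ∈ QL (hn H) x) : ∑ i ∈ S, B.T i = 0 := by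
  classical
  obtain ⟨y, hy1, hy2, hy3⟩ := D.exists_proj hx (B.T k)
  have hyS : ∀ i ∈ S, y *ᵥ (B.v i : ι → ℂ) = B.v i := fun i hi =>
    (hy3 _ _ (B.v_ne i) (B.wt i)).1 ((hS i).1 hi)
  have hyS' : ∀ i, i ∉ S → y *ᵥ (B.v i : ι → ℂ) = 0 := fun i hi =>
    (hy3 _ _ (B.v_ne i) (B.wt i)).2 fun h => hi ((hS i).2 h)
  -- the traces
  have hNg : ∀ σ : ℂ ≃+* ℂ, Ng H σ = (Ng H (RingEquiv.refl ℂ)).map σ := by
    intro σ
    ext i j
    rw [Ng, Ng, Matrix.sum_apply, Matrix.map_apply, Matrix.sum_apply, map_sum]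
    refine Finset.sum_congr rfl fun k _ => ?_
    rw [Matrix.smul_apply, Matrix.smul_apply, smul_eq_mul, smul_eq_mul, map_mul, map_intCast]
    rfl
  have htr : ∀ σ : ℂ ≃+* ℂ, (cj H y * cQ D.pr1 * Ng H σ).trace = 0 := by
    intro σ
    have key : ∀ Y ∈ Submodule.span ℂ (cQ '' {x | D.IsCE x}), (Y * Ng H σ).trace = 0 := by
      intro Y hY
      induction hY using Submodule.span_induction with
      | mem x hx =>
        obtain ⟨x, hx, rfl⟩ := hx
        have h1 := congrArg σ (hT x hx)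
        rw [map_zero] at h1
        rw [← h1, hNg, Matrix.trace, Matrix.trace, map_sum]
        refine Finset.sum_congr rfl fun i _ => ?_
        rw [Matrix.diag_apply, Matrix.diag_apply, Matrix.mul_apply, Matrix.mul_apply, map_sum]
        refine Finset.sum_congr rfl fun j _ => ?_
        rw [map_mul, Matrix.map_apply, cQ, Matrix.map_apply, map_ratCast]
      | zero => rw [Matrix.zero_mul, Matrix.trace_zero]
      | add a b _ _ ha hb => rw [Matrix.add_mul, Matrix.trace_add, ha, hb, add_zero]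
      | smul c a _ ha => rw [Matrix.smul_mul, Matrix.trace_smul, ha, smul_zero]
    exact key _ hy2
  obtain ⟨PDt, hPD⟩ : ∃ P : PD (hn H) (cji H z) A, P = D.toPD htop hz := ⟨_, rfl⟩
  have hδ0 : (D.toPD htop hz).pS B.v S ≠ 0 := (D.toPD htop hz).pS_ne B.li S
  have hkill : ∀ σ : ℂ ≃+* ℂ, cji H (Ng H σ) *ᵥ (D.toPD htop hz).pS B.v S = 0 := by
    intro σ
    have hw : cji H (Ng H σ) ∈ hn H := by rw [mem_hn, cj_cji]; exact Ng_mem σ
    have hstab : ∀ j ∈ S, ∀ i, i ∉ S → B.bas.repr ⟨cji H (Ng H σ) *ᵥ (B.v j : ι → ℂ),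
        (D.toPD htop hz).stab _ hw _ (B.v j).2⟩ i = 0 := by
      intro j hj i hi
      by_contra hne
      have h1 := B.coef (y := y) (c' := fun i => if i ∈ S then 1 else 0) (fun i => by
        by_cases hi : i ∈ S
        · rw [if_pos hi, one_smul, hyS i hi]
        · rw [if_neg hi, zero_smul, hyS' i hi])
        (u := ⟨cji H (Ng H σ) *ᵥ (B.v j : ι → ℂ), (D.toPD htop hz).stab _ hw _ (B.v j).2⟩)
        (d := 1) (by
          change y *ᵥ (cji H (Ng H σ) *ᵥ (B.v j : ι → ℂ)) = _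
          rw [Matrix.mulVec_mulVec, hy1 _ hw, ← Matrix.mulVec_mulVec, hyS j hj, one_smul]) i hne
      rw [if_neg hi] at h1
      exact zero_ne_one h1
    rw [pS_tr (D.toPD htop hz) B S hw hstab]
    have h2 : ∑ j ∈ S, B.bas.repr ⟨cji H (Ng H σ) *ᵥ (B.v j : ι → ℂ),
        (D.toPD htop hz).stab _ hw _ (B.v j).2⟩ j = 0 := by
      have hg : ∀ v, (y * (cji H (cQ D.pr1) * cji H (Ng H σ))) *ᵥ v ∈ D.Vn := by
        intro v
        rw [← Matrix.mulVec_mulVec, ← Matrix.mulVec_mulVec]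
        have hyV : ∀ w ∈ D.Vn, y *ᵥ w ∈ D.Vn := by
          intro w hw
          obtain ⟨w', rfl⟩ : ∃ w' : D.Vn, (w' : ι → ℂ) = w := ⟨⟨w, hw⟩, rfl⟩
          have hws : w' ∈ Submodule.span ℂ (Set.range B.v) := by
            rw [B.sp]; exact Submodule.mem_top
          clear hw
          induction hws using Submodule.span_induction with
          | mem v hv =>
            obtain ⟨j, rfl⟩ := hv
            by_cases hj : j ∈ S
            · rw [hyS j hj]; exact (B.v j).2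
            · rw [hyS' j hj]; exact Submodule.zero_mem _
          | zero =>
            rw [Submodule.coe_zero, Matrix.mulVec_zero]
            exact Submodule.zero_mem _
          | add a b _ _ ha hb =>
            rw [Submodule.coe_add, Matrix.mulVec_add]
            exact Submodule.add_mem _ ha hb
          | smul c a _ ha =>
            rw [Submodule.coe_smul, Matrix.mulVec_smul]
            exact Submodule.smul_mem _ c ha
        exact hyV _ (D.pr1n_mem _)
      have h3 := trace_basis B.bas _ hg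
      have h4 : (y * (cji H (cQ D.pr1) * cji H (Ng H σ))).trace = 0 := by
        rw [← htr σ, ← cji_mul]
        have h5 : cj H (y * cji H (cQ D.pr1 * Ng H σ)) = cj H y * cQ D.pr1 * Ng H σ := by
          rw [cj_mul, cj_cji, Matrix.mul_assoc]
        have h7 : ∀ X : Matrix ι ι ℂ, (cj H X).trace = X.trace := by
          intro X
          rw [cj, Matrix.trace_mul_comm, ← Matrix.mul_assoc, Mm_Mi, Matrix.one_mul]
        rw [← h5, h7]
      rw [h4] at h3
      rw [h3, ← Finset.sum_subset (Finset.subset_univ S)]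
      · refine Finset.sum_congr rfl fun j hj => ?_
        congr 2
        apply Subtype.ext
        change _ = (y * (cji H (cQ D.pr1) * cji H (Ng H σ))) *ᵥ (B.bas j : ι → ℂ)
        rw [B.bas_apply, ← Matrix.mulVec_mulVec, ← Matrix.mulVec_mulVec,
          D.pr1n_Vn (D.Vn_hn hw (B.v j).2), Matrix.mulVec_mulVec, hy1 _ hw,
          ← Matrix.mulVec_mulVec, hyS j hj]
      · intro j _ hj
        have h6 : (y * (cji H (cQ D.pr1) * cji H (Ng H σ))) *ᵥ (B.bas j : ι → ℂ) = 0 := by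
          rw [B.bas_apply, ← Matrix.mulVec_mulVec, ← Matrix.mulVec_mulVec,
            D.pr1n_Vn (D.Vn_hn hw (B.v j).2), Matrix.mulVec_mulVec, hy1 _ hw,
            ← Matrix.mulVec_mulVec, hyS' j hj, Matrix.mulVec_zero]
        have h7 : (⟨(y * (cji H (cQ D.pr1) * cji H (Ng H σ))) *ᵥ (B.bas j : ι → ℂ), hg _⟩ :
            D.Vn) = 0 := Subtype.ext h6
        rw [h7, map_zero]
        rfl
    exact (congrArg (fun c : ℂ => c • (D.toPD htop hz).pS B.v S) h2).trans (zero_smul _ _)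
  have hho : ∀ w ∈ ho H, w *ᵥ (Mi H *ᵥ (D.toPD htop hz).pS B.v S) = 0 := fun w hw =>
    ho_of_fix (fun g hg => fix_of_Ng (fun σ => by
      have h1 := congrArg (fun v => Mi H *ᵥ v) (hkill σ)
      simp only [Matrix.mulVec_zero] at h1
      rwa [Mi_mulVec, cj_cji] at h1) hg) hw
  refine ct_nondeg (isLA_hn H) hx.herm (Submodule.sum_mem _ fun i _ => (B.wt i).mem)
    fun t ht => ?_
  have h1 := (D.toPD htop hz).pS_eig S ht.1 (s := fun i => (B.T i * t).trace) fun j =>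
    (B.wt j).val t ht
  have h2 := hho (cj H t) ht.1
  rw [← Mi_mulVec, h1] at h2
  have h3 := congrArg (fun v => Mm H *ᵥ v) h2
  simp only [Matrix.mulVec_mulVec _ (Mm H) (Mi H), Mm_Mi, Matrix.one_mulVec,
    Matrix.mulVec_zero] at h3
  rw [Finset.sum_mul, Matrix.trace_sum]
  exact (smul_eq_zero.1 h3).resolve_right hδ0

end AData

end Pool.Agent.N996.FP
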