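import Pool.Agent.N996.FP.Wedge
import Pool.Agent.N996.BP.DC

/-!
# The polar decomposition
-/

set_option linter.unusedSectionVars false

namespace Pool.Agent.N996.FP

open Matrix ComplexOrder NormedSpace

variable {ι : Type} [Fintype ι] [DecidableEq ι] {h : Submodule ℂ (Matrix ι ι ℂ)}

/-- Orthogonal projection. -/
lemma exists_orthM (h : Submodule ℂ (Matrix ι ι ℂ)) (s : Matrix ι ι ℂ) :
    ∃ s₁ ∈ h, ∀ w ∈ h, (wᴴ * (s - s₁)).trace = 0 := by
  let e : Matrix ι ι ℂ ≃ₗ[ℂ] (ι × ι → ℂ) :=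
    { toFun := fun m p => m p.1 p.2
      invFun := fun f => Matrix.of fun i j => f (i, j)
      map_add' := fun _ _ => rfl
      map_smul' := fun _ _ => rfl
      left_inv := fun _ => rfl
      right_inv := fun _ => rfl }
  obtain ⟨u, hu, hw⟩ := Pool.Agent.N996.BP.exists_orth (1 : Matrix (ι × ι) (ι × ι) ℂ)
    (h.map e.toLinearMap) (e s)
  obtain ⟨s₁, hs₁, rfl⟩ := hu
  refine ⟨s₁, hs₁, fun w hwh => ?_⟩
  have h1 := hw (e w) ⟨w, hwh, rfl⟩
  rw [Matrix.one_mulVec, Matrix.one_mulVec] at h1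
  have h2 : (wᴴ * (s - s₁)).trace = ∑ j, ∑ i, star (w i j) * (s - s₁) i j := by
    rw [Matrix.trace]
    refine Finset.sum_congr rfl fun j _ => ?_
    rw [Matrix.diag_apply, Matrix.mul_apply]
    rfl
  rw [h2, Finset.sum_comm, ← Fintype.sum_prod_type' (fun i j => star (w i j) * (s - s₁) i j)]
  exact h1

lemma exp_fn {U : Matrix ι ι ℂ} (hU : Uᴴ * U = 1) (φ : ι → ℂ) :
    exp (fn U φ) = fn U (fun i => Complex.exp (φ i)) := by
  have hU' : U * Uᴴ = 1 := mul_eq_one_comm.1 hU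
  have h1 : U⁻¹ = Uᴴ := Matrix.inv_eq_right_inv hU'
  have h2 : IsUnit U := ⟨⟨U, Uᴴ, hU', hU⟩, rfl⟩
  have h3 := Matrix.exp_conj U (diagonal φ) h2
  rw [h1] at h3
  rw [fn, fn, h3, Matrix.exp_diagonal]
  congr 3
  funext i
  rw [Pi.coe_exp, Complex.exp_eq_exp_ℂ]

/-- **The polar decomposition.** -/
theorem polar (hh : IsLA h) {p p' : Matrix ι ι ℂ} (hp : p * p' = 1)
    (h1 : ∀ z ∈ h, p * z * p' ∈ h) (h2 : ∀ z ∈ h, p' * z * p ∈ h) :
    ∃ (U : Matrix ι ι ℂ) (d : ι → ℝ) (s₁ s₂ : Matrix ι ι ℂ), Uᴴ * U = 1 ∧ (∀ i, 0 < d i) ∧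
      pᴴ * p = fn U (fun i => (d i : ℂ)) ∧ s₁ ∈ h ∧ (∀ z ∈ h, s₂ * z = z * s₂) ∧
      exp (s₁ + s₂) = fn U (fun i => ((Real.sqrt (d i) : ℝ) : ℂ)) ∧
      exp (-(s₁ + s₂)) = fn U (fun i => (((Real.sqrt (d i))⁻¹ : ℝ) : ℂ)) := by
  have hp' : p' * p = 1 := mul_eq_one_comm.1 hp
  have hPH : (pᴴ * p)ᴴ = pᴴ * p := by
    rw [Matrix.conjTranspose_mul, Matrix.conjTranspose_conjTranspose]
  obtain ⟨U, d, hU, hU', hP⟩ := exists_diag hPH
  -- positivity
  have hdpos : ∀ i, 0 < d i := by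
    intro i
    have e1 : (p * U)ᴴ * (p * U) = diagonal fun i => (d i : ℂ) := by
      calc (p * U)ᴴ * (p * U) = Uᴴ * (pᴴ * p) * U := by
            rw [Matrix.conjTranspose_mul]; simp only [Matrix.mul_assoc]
        _ = (Uᴴ * U) * (diagonal fun i => (d i : ℂ)) * (Uᴴ * U) := by
            rw [hP]; simp only [Matrix.mul_assoc]
        _ = _ := by rw [hU, Matrix.one_mul, Matrix.mul_one]
    have e2 : (d i : ℂ) = ∑ j, star ((p * U) j i) * (p * U) j i := by
      have := congrFun (congrFun e1 i) i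
      rw [Matrix.diagonal_apply_eq, Matrix.mul_apply] at this
      exact this.symm
    have e3 : d i = ∑ j, Complex.normSq ((p * U) j i) := by
      have : (d i : ℂ) = ((∑ j, Complex.normSq ((p * U) j i) : ℝ) : ℂ) := by
        rw [e2]
        push_cast
        refine Finset.sum_congr rfl fun j _ => ?_
        rw [Complex.normSq_eq_conj_mul_self]
        rfl
      exact_mod_cast this
    rw [e3]
    refine lt_of_le_of_ne (Finset.sum_nonneg fun j _ => Complex.normSq_nonneg _) fun h0 => ?_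
    have e4 := (Finset.sum_eq_zero_iff_of_nonneg
      (fun j _ => Complex.normSq_nonneg ((p * U) j i))).1 h0.symm
    have e5 : (Uᴴ * p') * (p * U) = 1 := by
      calc (Uᴴ * p') * (p * U) = Uᴴ * (p' * p) * U := by simp only [Matrix.mul_assoc]
        _ = 1 := by rw [hp', Matrix.mul_one, hU]
    have e6 := congrFun (congrFun e5 i) i
    rw [Matrix.one_apply_eq, Matrix.mul_apply, Finset.sum_eq_zero] at e6
    · exact zero_ne_one e6
    · intro j hj
      rw [Complex.normSq_eq_zero.1 (e4 j hj), mul_zero]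
  let l : ι → ℝ := fun i => Real.log (Real.sqrt (d i))
  obtain ⟨s, hs⟩ : ∃ s, s = fn U fun i => (l i : ℂ) := ⟨_, rfl⟩
  have hsH : sᴴ = s := by
    rw [hs, fn, Matrix.conjTranspose_mul, Matrix.conjTranspose_mul,
      Matrix.conjTranspose_conjTranspose, Matrix.diagonal_conjTranspose]
    have : star (fun i => (l i : ℂ)) = fun i => (l i : ℂ) := by
      funext i; simp
    rw [this]
    simp only [Matrix.mul_assoc]
  have hsqrt : ∀ i, 0 < Real.sqrt (d i) := fun i => Real.sqrt_pos.2 (hdpos i)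
  have hexp : exp s = fn U (fun i => ((Real.sqrt (d i) : ℝ) : ℂ)) := by
    rw [hs, exp_fn hU]
    congr 1
    funext i
    rw [← Complex.ofReal_exp, Real.exp_log (hsqrt i)]
  have hexp' : exp (-s) = fn U (fun i => (((Real.sqrt (d i))⁻¹ : ℝ) : ℂ)) := by
    have : -s = fn U fun i => ((-l i : ℝ) : ℂ) := by
      have := fn_smul (U := U) (-1) (fun i => (l i : ℂ))
      rw [neg_one_smul, ← hs] at this
      rw [← this]
      congr 1
      funext i
      push_cast
      ring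
    rw [this, exp_fn hU]
    congr 1
    funext i
    rw [← Complex.ofReal_exp, Real.exp_neg, Real.exp_log (hsqrt i)]
  -- the adjoint action of `s`
  have hAd : ∀ z ∈ h, had U (fun i j => (d i : ℂ) * ((d j : ℂ))⁻¹) z ∈ h := by
    intro z hz
    rw [had_Ad]
    have e1 : U * diagonal (fun i => ((d i : ℂ))⁻¹) * Uᴴ = p' * p'ᴴ := by
      have e2 : (U * diagonal (fun i => (d i : ℂ)) * Uᴴ) *
          (U * diagonal (fun i => ((d i : ℂ))⁻¹) * Uᴴ) = 1 := by
        have := fn_mul hU (fun i => (d i : ℂ)) (fun i => ((d i : ℂ))⁻¹)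
        rw [fn, fn] at this
        rw [this]
        have h3 : (fun i => (d i : ℂ) * ((d i : ℂ))⁻¹) = fun _ => 1 := by
          funext i
          exact mul_inv_cancel₀ (by exact_mod_cast (hdpos i).ne')
        rw [h3, fn_one hU']
      have e3 : (p' * p'ᴴ) * (pᴴ * p) = 1 := by
        calc (p' * p'ᴴ) * (pᴴ * p) = p' * (p * p')ᴴ * p := by
              rw [Matrix.conjTranspose_mul]; simp only [Matrix.mul_assoc]
          _ = 1 := by rw [hp, Matrix.conjTranspose_one, Matrix.mul_one, hp']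
      calc U * diagonal (fun i => ((d i : ℂ))⁻¹) * Uᴴ =
          ((p' * p'ᴴ) * (pᴴ * p)) * (U * diagonal (fun i => ((d i : ℂ))⁻¹) * Uᴴ) := by
            rw [e3, Matrix.one_mul]
        _ = (p' * p'ᴴ) * ((U * diagonal (fun i => (d i : ℂ)) * Uᴴ) *
          (U * diagonal (fun i => ((d i : ℂ))⁻¹) * Uᴴ)) := by
            rw [Matrix.mul_assoc (p' * p'ᴴ)]
            congr 1
            rw [← hP]
        _ = _ := by rw [e2, Matrix.mul_one]
    rw [e1, ← hP]
    have e2 := hh.star _ (h2 _ (hh.star _ (h1 z hz)))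
    have e3 : (p' * (p * z * p')ᴴ * p)ᴴ = pᴴ * p * z * (p' * p'ᴴ) := by
      rw [Matrix.conjTranspose_mul, Matrix.conjTranspose_mul, Matrix.conjTranspose_conjTranspose]
      simp only [Matrix.mul_assoc]
    rw [← e3]
    exact e2
  have hads : ∀ z ∈ h, br s z ∈ h := by
    intro z hz
    have e1 := had_mem hU hU' hAd (fun w => ((Real.log (Real.sqrt w.re) : ℝ) : ℂ)) hz
    have e2 : (fun i j => ((Real.log (Real.sqrt ((d i : ℂ) * ((d j : ℂ))⁻¹).re) : ℝ) : ℂ)) =
        fun i j => (l i : ℂ) - (l j : ℂ) := by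
      funext i j
      have e3 : ((d i : ℂ) * ((d j : ℂ))⁻¹).re = d i / d j := by
        rw [← Complex.ofReal_inv, ← Complex.ofReal_mul, Complex.ofReal_re]; rfl
      rw [e3, Real.sqrt_div (hdpos i).le, Real.log_div (hsqrt i).ne' (hsqrt j).ne']
      push_cast
      rfl
    rw [e2, had_ad hU hU'] at e1
    rw [br, hs]
    exact e1
  obtain ⟨s₁, hs₁, hort⟩ := exists_orthM h s
  obtain ⟨s₂, hs₂⟩ : ∃ s₂, s₂ = s - s₁ := ⟨_, rfl⟩
  rw [← hs₂] at hort
  have hcom : ∀ z ∈ h, br s₂ z = 0 := by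
    intro z hz
    have e1 : br s₂ z ∈ h := by
      have : br s₂ z = br s z - br s₁ z := by
        rw [hs₂]; simp only [br, Matrix.sub_mul, Matrix.mul_sub]; abel
      rw [this]
      exact Submodule.sub_mem _ (hads z hz) (hh.lie _ hs₁ _ hz)
    apply nsq_eq_zero
    rw [nsq]
    obtain ⟨w, hw⟩ : ∃ w, w = br s₂ z := ⟨_, rfl⟩
    rw [← hw] at e1
    rw [← hw]
    nth_rewrite 2 [hw]
    rw [br_swap, Matrix.mul_neg, Matrix.trace_neg, ← tr_br]
    have e2 : br wᴴ z = (br zᴴ w)ᴴ := by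
      rw [br_star, Matrix.conjTranspose_conjTranspose]
    rw [e2, hort _ (hh.lie _ (hh.star _ hz) _ e1), neg_zero]
  have hsum : s₁ + s₂ = s := by rw [hs₂]; abel
  refine ⟨U, d, s₁, s₂, hU, hdpos, hP, hs₁, fun z hz => ?_, by rw [hsum, hexp],
    by rw [hsum, hexp']⟩
  have := hcom z hz
  rw [br, sub_eq_zero] at this
  exact this

end Pool.Agent.N996.FP
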