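import Pool.Agent.N996.FP.Zs
import Pool.Agent.N996.FP.Alg2

/-!
# Products of joint eigenvectors and pure tensors
-/

set_option linter.unusedSectionVars false

namespace Pool.Agent.N996.FP

open Matrix Pool.Agent.N996.BP

variable {ι : Type} [Fintype ι] [DecidableEq ι] {h : Submodule ℂ (Matrix ι ι ℂ)}
  {x z : Matrix ι ι ℂ} {n : ℕ} {A : Type} [Ring A] [Algebra ℂ A]

/-- The inclusion of the degree one part. -/
noncomputable def iL (ε : A ≃ₗ[ℂ] (ι → ℂ)) (V : Submodule ℂ (ι → ℂ)) : V →ₗ[ℂ] A :=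
  ε.symm.toLinearMap ∘ₗ V.subtype

/-- An algebra of derivations. -/
structure PD (h : Submodule ℂ (Matrix ι ι ℂ)) (z : Matrix ι ι ℂ) (A : Type) [Ring A]
    [Algebra ℂ A] where
  /-- the coordinates -/
  ε : A ≃ₗ[ℂ] (ι → ℂ)
  /-- the degree one part -/
  V : Submodule ℂ (ι → ℂ)
  der : ∀ w ∈ h, ∀ a b : A, aop ε w (a * b) = aop ε w a * b + a * aop ε w b
  stab : ∀ w ∈ h, ∀ v ∈ V, w *ᵥ v ∈ V
  mul : ∀ a b : A, aop ε z (a * b) = aop ε z a * aop ε z b
  one : aop ε z 1 = 1
  sq : ∀ v : V, iL ε V v * iL ε V v = 0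
  top : ∃ v : Fin (Module.finrank ℂ V) → V, pL (iL ε V) v ≠ 0
  gen : Algebra.adjoin ℂ {a : A | ε a ∈ V} = ⊤

namespace PD

variable (D : PD h z A)

lemma iL_apply (v : D.V) : iL D.ε D.V v = D.ε.symm (v : ι → ℂ) := rfl

/-- The product of a sequence. -/
noncomputable def pv {k : ℕ} (v : Fin k → D.V) : ι → ℂ := D.ε (pL (iL D.ε D.V) v)

lemma pv_ne {k : ℕ} {v : Fin k → D.V} (hv : LinearIndependent ℂ v) : D.pv v ≠ 0 := by
  intro h0
  refine pL_ne' (iL D.ε D.V) D.sq D.top v hv ?_
  apply D.ε.injective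
  rw [map_zero]
  exact h0

lemma pv_der {k : ℕ} (v : Fin k → D.V) {w : Matrix ι ι ℂ} (hw : w ∈ h) :
    w *ᵥ D.pv v = ∑ j, D.pv (Function.update v j ⟨w *ᵥ (v j : ι → ℂ), D.stab w hw _ (v j).2⟩) := by
  rw [pv, ← ep_aop, der_pL (iL D.ε D.V) (aop D.ε w) (D.der w hw)
    (fun v => ⟨w *ᵥ (v : ι → ℂ), D.stab w hw _ v.2⟩) (fun v => by
      rw [aop_apply, iL_apply, LinearEquiv.apply_symm_apply, iL_apply]), map_sum]
  rfl

lemma pv_eig {k : ℕ} {v : Fin k → D.V} {w : Matrix ι ι ℂ} (hw : w ∈ h) {s : Fin k → ℂ}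
    (hs : ∀ j, w *ᵥ (v j : ι → ℂ) = s j • (v j : ι → ℂ)) : w *ᵥ D.pv v = (∑ j, s j) • D.pv v := by
  rw [D.pv_der v hw, Finset.sum_smul]
  refine Finset.sum_congr rfl fun j _ => ?_
  have h1 : (⟨w *ᵥ (v j : ι → ℂ), D.stab w hw _ (v j).2⟩ : D.V) = s j • v j := Subtype.ext (hs j)
  rw [h1, pv, ← pA_apply _ D.sq, AlternatingMap.map_update_smul, Function.update_eq_self, map_smul,
    pA_apply]
  rfl

lemma pv_mul {k : ℕ} {v : Fin k → D.V} {s : Fin k → ℂ}
    (hs : ∀ j, z *ᵥ (v j : ι → ℂ) = s j • (v j : ι → ℂ)) : z *ᵥ D.pv v = (∏ j, s j) • D.pv v := by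
  rw [pv, ← ep_aop, ← map_smul]
  congr 1
  rw [pL, ← List.prod_ofFn]
  have h1 : ∀ l : List (ℂ × A), (∀ p ∈ l, aop D.ε z p.2 = p.1 • p.2) →
      aop D.ε z (l.map Prod.snd).prod = (l.map Prod.fst).prod • (l.map Prod.snd).prod := by
    intro l
    induction l with
    | nil =>
      intro _
      simp only [List.map_nil, List.prod_nil, one_smul]
      exact D.one
    | cons p l ih =>
      intro hl
      rw [List.map_cons, List.prod_cons, List.map_cons, List.prod_cons, D.mul,
        hl p (List.mem_cons_self ..), ih fun q hq => hl q (List.mem_cons_of_mem _ hq),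
        smul_mul_smul_comm]
  have h2 := h1 (List.ofFn fun j => (s j, iL D.ε D.V (v j))) fun p hp => by
    obtain ⟨j, rfl⟩ := (List.mem_ofFn' _ _).1 hp
    change aop D.ε z (iL D.ε D.V (v j)) = s j • iL D.ε D.V (v j)
    rw [aop_apply, iL_apply, LinearEquiv.apply_symm_apply, hs, map_smul]
  rw [List.map_ofFn, List.map_ofFn] at h2
  exact h2

/-- Products killed by an operator. -/
lemma pv_zero {k : ℕ} {v : Fin k → D.V} {w : Matrix ι ι ℂ} (hw : w ∈ h)
    (hs : ∀ j, (⟨w *ᵥ (v j : ι → ℂ), D.stab w hw _ (v j).2⟩ : D.V) ∈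
      Submodule.span ℂ (v '' {i | i ≠ j})) : w *ᵥ D.pv v = 0 := by
  rw [D.pv_der v hw]
  refine Finset.sum_eq_zero fun j _ => ?_
  have h1 := hs j
  obtain ⟨u, hu⟩ : ∃ u : D.V, u = ⟨w *ᵥ (v j : ι → ℂ), D.stab w hw _ (v j).2⟩ := ⟨_, rfl⟩
  rw [← hu] at h1 ⊢
  clear hu
  rw [pv, ← pA_apply _ D.sq]
  induction h1 using Submodule.span_induction with
  | mem w hw =>
    obtain ⟨i, hi, rfl⟩ := hw
    have hij : i ≠ j := hi
    rw [AlternatingMap.map_eq_zero_of_eq _ _ (i := i) (j := j) ?_ hij, map_zero]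
    rw [Function.update_self, Function.update_of_ne hij]
  | zero => rw [AlternatingMap.map_update_zero, map_zero]
  | add a b _ _ ha hb => rw [AlternatingMap.map_update_add, map_add, ha, hb, add_zero]
  | smul r a _ ha => rw [AlternatingMap.map_update_smul, map_smul, ha, smul_zero]

/-- The product over a finite set. -/
noncomputable def pS (v : Fin n → D.V) (S : Finset (Fin n)) : ι → ℂ :=
  D.pv (v ∘ S.orderEmbOfFin rfl)

lemma pS_ne {v : Fin n → D.V} (hv : LinearIndependent ℂ v) (S : Finset (Fin n)) :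
    D.pS v S ≠ 0 :=
  D.pv_ne (hv.comp _ (S.orderEmbOfFin rfl).injective)

lemma sum_emb {M : Type*} [AddCommMonoid M] (S : Finset (Fin n)) (f : Fin n → M) :
    ∑ j, f (S.orderEmbOfFin rfl j) = ∑ i ∈ S, f i := by
  rw [← Finset.sum_coe_sort S f, ← (S.orderIsoOfFin rfl).toEquiv.sum_comp]
  rfl

lemma prod_emb {M : Type*} [CommMonoid M] (S : Finset (Fin n)) (f : Fin n → M) :
    ∏ j, f (S.orderEmbOfFin rfl j) = ∏ i ∈ S, f i := by
  rw [← Finset.prod_coe_sort S f, ← (S.orderIsoOfFin rfl).toEquiv.prod_comp]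
  rfl

lemma pS_eig {v : Fin n → D.V} (S : Finset (Fin n)) {w : Matrix ι ι ℂ} (hw : w ∈ h)
    {s : Fin n → ℂ} (hs : ∀ j, w *ᵥ (v j : ι → ℂ) = s j • (v j : ι → ℂ)) :
    w *ᵥ D.pS v S = (∑ i ∈ S, s i) • D.pS v S := by
  rw [pS, D.pv_eig (v := v ∘ S.orderEmbOfFin rfl) hw (s := s ∘ S.orderEmbOfFin rfl)
    fun j => hs _]
  congr 1
  exact sum_emb S s

lemma pS_mul {v : Fin n → D.V} (S : Finset (Fin n)) {s : Fin n → ℂ}
    (hs : ∀ j, z *ᵥ (v j : ι → ℂ) = s j • (v j : ι → ℂ)) :
    z *ᵥ D.pS v S = (∏ i ∈ S, s i) • D.pS v S := by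
  rw [pS, D.pv_mul (v := v ∘ S.orderEmbOfFin rfl) (s := s ∘ S.orderEmbOfFin rfl)
    fun j => hs _]
  congr 1
  exact prod_emb S s

lemma pS_zero {v : Fin n → D.V} (S : Finset (Fin n)) {w : Matrix ι ι ℂ} (hw : w ∈ h)
    (hs : ∀ j ∈ S, (⟨w *ᵥ (v j : ι → ℂ), D.stab w hw _ (v j).2⟩ : D.V) ∈
      Submodule.span ℂ (v '' {i | i ∈ S ∧ i ≠ j})) : w *ᵥ D.pS v S = 0 := by
  rw [pS]
  refine D.pv_zero hw fun j => ?_
  have h1 := hs (S.orderEmbOfFin rfl j) (Finset.orderEmbOfFin_mem S rfl j)
  refine Submodule.span_mono ?_ h1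
  rintro _ ⟨i, ⟨hi1, hi2⟩, rfl⟩
  have h2 : i ∈ Set.range (S.orderEmbOfFin rfl) := by
    rw [Finset.range_orderEmbOfFin]; exact hi1
  obtain ⟨k, rfl⟩ := h2
  exact ⟨k, fun hk => hi2 (by rw [hk]), rfl⟩

/-- The products of basis vectors span. -/
lemma span_pv {v : Fin n → D.V} (hv : Submodule.span ℂ (Set.range v) = ⊤) :
    Submodule.span ℂ {a : ι → ℂ | ∃ (k : ℕ) (f : Fin k → Fin n), a = D.pv (v ∘ f)} = ⊤ := by
  let S : Submodule ℂ A := (Submodule.span ℂ
    {a : ι → ℂ | ∃ (k : ℕ) (f : Fin k → Fin n), a = D.pv (v ∘ f)}).comap D.ε.toLinearMap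
  have hmul : ∀ a ∈ S, ∀ u : D.V, iL D.ε D.V u * a ∈ S := by
    intro a ha u
    obtain ⟨b, hb⟩ : ∃ b, b = D.ε a := ⟨_, rfl⟩
    have ha' : b ∈ Submodule.span ℂ {a : ι → ℂ | ∃ (k : ℕ) (f : Fin k → Fin n),
        a = D.pv (v ∘ f)} := by rw [hb]; exact ha
    obtain rfl : a = D.ε.symm b := by rw [hb, LinearEquiv.symm_apply_apply]
    clear hb ha
    induction ha' using Submodule.span_induction with
    | mem b hb =>
      obtain ⟨k, f, rfl⟩ := hb
      have hu : u ∈ Submodule.span ℂ (Set.range v) := by rw [hv]; exact Submodule.mem_top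
      induction hu using Submodule.span_induction with
      | mem u hu =>
        obtain ⟨i, rfl⟩ := hu
        refine Submodule.subset_span ⟨k + 1, Fin.cons i f, ?_⟩
        change D.ε _ = D.ε _
        congr 1
        rw [pL_cons, pv, LinearEquiv.symm_apply_apply]
        rfl
      | zero => rw [map_zero, zero_mul]; exact Submodule.zero_mem _
      | add a b _ _ ha hb => rw [map_add, add_mul]; exact Submodule.add_mem _ ha hb
      | smul c a _ ha => rw [map_smul, smul_mul_assoc]; exact Submodule.smul_mem _ c ha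
    | zero => rw [map_zero, mul_zero]; exact Submodule.zero_mem _
    | add a b _ _ ha hb => rw [map_add, mul_add]; exact Submodule.add_mem _ ha hb
    | smul c a _ ha => rw [map_smul, mul_smul_comm]; exact Submodule.smul_mem _ c ha
  have hone : (1 : A) ∈ S := by
    refine Submodule.subset_span ⟨0, Fin.elim0, ?_⟩
    change D.ε 1 = D.ε _
    rw [pL, List.ofFn_zero, List.prod_nil]
  have hall : ∀ b : A, ∀ a ∈ S, b * a ∈ S := by
    intro b
    have hb : b ∈ Algebra.adjoin ℂ {a : A | D.ε a ∈ D.V} := by rw [D.gen]; trivial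
    induction hb using Algebra.adjoin_induction with
    | mem b hb =>
      intro a ha
      have h1 := hmul a ha ⟨D.ε b, hb⟩
      rwa [D.iL_apply, LinearEquiv.symm_apply_apply] at h1
    | algebraMap r =>
      intro a ha
      rw [← Algebra.smul_def]
      exact Submodule.smul_mem _ r ha
    | add b c _ _ hb hc =>
      intro a ha
      rw [add_mul]
      exact Submodule.add_mem _ (hb a ha) (hc a ha)
    | mul b c _ _ hb hc =>
      intro a ha
      rw [mul_assoc]
      exact hb _ (hc a ha)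
  rw [eq_top_iff]
  rintro w -
  have h1 := hall (D.ε.symm w) 1 hone
  rw [mul_one] at h1
  have h2 : D.ε (D.ε.symm w) ∈ Submodule.span ℂ
    {a : ι → ℂ | ∃ (k : ℕ) (f : Fin k → Fin n), a = D.pv (v ∘ f)} := h1
  rwa [LinearEquiv.apply_symm_apply] at h2

end PD

/-! ### Pure tensors -/

section pt

variable {κ : Type} [Fintype κ] [DecidableEq κ]

/-- The pure tensor. -/
def pt (p : κ → ι → ℂ) : (κ → ι) → ℂ := fun i => ∏ k, p k (i k)

lemma kpf_pt (g : κ → Matrix ι ι ℂ) (p : κ → ι → ℂ) :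
    kpf g *ᵥ pt p = pt fun k => g k *ᵥ p k := by
  funext i
  rw [Matrix.mulVec, dotProduct, pt]
  simp only [kpf_apply, pt, ← Finset.prod_mul_distrib, Matrix.mulVec, dotProduct]
  rw [Finset.prod_univ_sum]
  rw [Fintype.piFinset_univ]

lemma kp_pt (g : Matrix ι ι ℂ) (p : κ → ι → ℂ) : kp κ g *ᵥ pt p = pt fun k => g *ᵥ p k := by
  rw [← kpf_const, kpf_pt]

lemma pt_smul (c : κ → ℂ) (p : κ → ι → ℂ) : pt (fun k => c k • p k) = (∏ k, c k) • pt p := by
  funext i
  rw [pt, Pi.smul_apply, pt, smul_eq_mul, ← Finset.prod_mul_distrib]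
  rfl

lemma slot_pt (k : κ) (w : Matrix ι ι ℂ) (p : κ → ι → ℂ) :
    slot k w *ᵥ pt p = pt (Function.update p k (w *ᵥ p k)) := by
  rw [slot, kpf_pt]
  congr 1
  funext m
  by_cases hm : m = k
  · subst hm
    rw [Function.update_self, Function.update_self]
  · rw [Function.update_of_ne hm, Function.update_of_ne hm, Matrix.one_mulVec]

lemma dk_pt (w : Matrix ι ι ℂ) (p : κ → ι → ℂ) :
    dk κ w *ᵥ pt p = ∑ k, pt (Function.update p k (w *ᵥ p k)) := by
  rw [dk_def, Matrix.sum_mulVec]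
  exact Finset.sum_congr rfl fun k _ => slot_pt k w p

lemma dk_pt_eig {w : Matrix ι ι ℂ} {p : κ → ι → ℂ} {s : κ → ℂ}
    (hs : ∀ k, w *ᵥ p k = s k • p k) : dk κ w *ᵥ pt p = (∑ k, s k) • pt p := by
  rw [dk_pt, Finset.sum_smul]
  refine Finset.sum_congr rfl fun k _ => ?_
  rw [hs]
  have h1 : Function.update p k (s k • p k) =
      fun m => (Function.update (fun _ => (1 : ℂ)) k (s k) m) • p m := by
    funext m
    by_cases hm : m = k
    · subst hm
      rw [Function.update_self, Function.update_self]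
    · rw [Function.update_of_ne hm, Function.update_of_ne hm, one_smul]
  rw [h1, pt_smul, Finset.prod_update_of_mem (Finset.mem_univ k), Finset.prod_const_one, mul_one]

lemma pt_zero {p : κ → ι → ℂ} {k : κ} (hk : p k = 0) : pt p = 0 := by
  funext i
  rw [pt]
  exact Finset.prod_eq_zero (Finset.mem_univ k) (by rw [hk]; rfl)

lemma dk_pt_zero {w : Matrix ι ι ℂ} {p : κ → ι → ℂ}
    (hs : ∀ k, w *ᵥ p k = 0) : dk κ w *ᵥ pt p = 0 := by
  have h1 := dk_pt_eig (κ := κ) (w := w) (p := p) (s := fun _ => 0) fun k => by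
    rw [hs k, zero_smul]
  rw [h1, Finset.sum_const_zero, zero_smul]

lemma pt_ne {p : κ → ι → ℂ} (hp : ∀ k, p k ≠ 0) : pt p ≠ 0 := by
  have h1 : ∀ k, ∃ i, p k i ≠ 0 := fun k => by
    by_contra hcon
    push Not at hcon
    exact hp k (funext hcon)
  choose i hi using h1
  intro h0
  have h2 := congrFun h0 i
  rw [pt] at h2
  obtain ⟨k, _, hk⟩ := Finset.prod_eq_zero_iff.1 h2
  exact hi k hk

/-- The pure tensors of elements of a spanning set span. -/
lemma span_pt {S : Set (ι → ℂ)} (hS : Submodule.span ℂ S = ⊤) :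
    Submodule.span ℂ {a : (κ → ι) → ℂ | ∃ p : κ → ι → ℂ, (∀ k, p k ∈ S) ∧ a = pt p} = ⊤ := by
  classical
  -- the statement for tensors with some factors from the spanning set
  have key : ∀ u : Finset κ, ∀ p : κ → ι → ℂ, (∀ k, k ∉ u → p k ∈ S) →
      pt p ∈ Submodule.span ℂ {a : (κ → ι) → ℂ | ∃ p : κ → ι → ℂ, (∀ k, p k ∈ S) ∧ a = pt p} := by
    intro u
    induction u using Finset.induction_on with
    | empty =>
      intro p hp
      exact Submodule.subset_span ⟨p, fun k => hp k (Finset.notMem_empty k), rfl⟩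
    | insert m u hm ih =>
      intro p hp
      have h1 : ∀ y ∈ Submodule.span ℂ S, pt (Function.update p m y) ∈ Submodule.span ℂ
          {a : (κ → ι) → ℂ | ∃ p : κ → ι → ℂ, (∀ k, p k ∈ S) ∧ a = pt p} := by
        have hprod : ∀ (y : ι → ℂ) (i : κ → ι), pt (Function.update p m y) i =
            y (i m) * ∏ k ∈ Finset.univ.erase m, p k (i k) := by
          intro y i
          rw [pt, ← Finset.mul_prod_erase _ _ (Finset.mem_univ m), Function.update_self]
          congr 1
          refine Finset.prod_congr rfl fun k hk => ?_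
          rw [Function.update_of_ne (Finset.ne_of_mem_erase hk)]
        intro y hy
        induction hy using Submodule.span_induction with
        | mem y hy =>
          refine ih _ fun k hk => ?_
          by_cases hkm : k = m
          · rw [hkm, Function.update_self]; exact hy
          · rw [Function.update_of_ne hkm]
            refine hp k fun hk2 => ?_
            rcases Finset.mem_insert.1 hk2 with h3 | h3
            · exact hkm h3
            · exact hk h3
        | zero =>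
          rw [pt_zero (k := m) (Function.update_self ..)]
          exact Submodule.zero_mem _
        | add a b _ _ ha hb =>
          have h2 : pt (Function.update p m (a + b)) = pt (Function.update p m a) +
              pt (Function.update p m b) := by
            funext i
            rw [Pi.add_apply, hprod, hprod, hprod, Pi.add_apply, add_mul]
          rw [h2]
          exact Submodule.add_mem _ ha hb
        | smul c a _ ha =>
          have h2 : pt (Function.update p m (c • a)) = c • pt (Function.update p m a) := by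
            funext i
            rw [Pi.smul_apply, hprod, hprod, Pi.smul_apply, smul_eq_mul, smul_eq_mul, mul_assoc]
          rw [h2]
          exact Submodule.smul_mem _ c ha
      have h2 := h1 (p m) (by rw [hS]; exact Submodule.mem_top)
      rwa [Function.update_eq_self] at h2
  rw [eq_top_iff]
  rintro a -
  have h1 : a = ∑ i : κ → ι, a i • pt fun k => Pi.single (i k) 1 := by
    funext j
    rw [Finset.sum_apply, Finset.sum_eq_single j]
    · rw [Pi.smul_apply, pt, smul_eq_mul]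
      simp
    · intro i _ hij
      rw [Pi.smul_apply, pt, smul_eq_mul]
      obtain ⟨k, hk⟩ := Function.ne_iff.1 hij
      rw [Finset.prod_eq_zero (Finset.mem_univ k), mul_zero]
      rw [Pi.single_apply, if_neg (Ne.symm hk)]
    · intro hn; exact absurd (Finset.mem_univ _) hn
  rw [h1]
  exact Submodule.sum_mem _ fun i _ => Submodule.smul_mem _ _
    (key Finset.univ _ fun k hk => absurd (Finset.mem_univ k) hk)

end pt

end Pool.Agent.N996.FP
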