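import Pool.Agent.N996.FP.Spec

/-!
# Regular elements
-/

set_option linter.unusedSectionVars false

namespace Pool.Agent.N996.FP

open Matrix ComplexOrder

variable {ι : Type} [Fintype ι] [DecidableEq ι]

/-- The eigenvalues of the adjoint action. -/
def SA (x : Matrix ι ι ℂ) : Set ℝ := {d | ∃ z : Matrix ι ι ℂ, z ≠ 0 ∧ x * z - z * x = (d : ℂ) • z}

/-- The eigenspaces of the adjoint action. -/
def EA (x : Matrix ι ι ℂ) (d : ℂ) : Submodule ℂ (Matrix ι ι ℂ) where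
  carrier := {z | x * z - z * x = d • z}
  add_mem' {a b} ha hb := by
    change x * (a + b) - (a + b) * x = d • (a + b)
    rw [smul_add, ← show x * a - a * x = d • a from ha, ← show x * b - b * x = d • b from hb,
      Matrix.mul_add, Matrix.add_mul]
    abel
  zero_mem' := by
    change x * 0 - 0 * x = d • 0
    simp
  smul_mem' c a ha := by
    change x * (c • a) - (c • a) * x = d • (c • a)
    rw [smul_comm, ← show x * a - a * x = d • a from ha, Matrix.mul_smul, Matrix.smul_mul, smul_sub]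

lemma mem_EA {x : Matrix ι ι ℂ} {d : ℂ} {z : Matrix ι ι ℂ} :
    z ∈ EA x d ↔ x * z - z * x = d • z := Iff.rfl

lemma EA_stable {x t : Matrix ι ι ℂ} (h : x * t = t * x) (d : ℂ) :
    ∀ z ∈ EA x d, t * z - z * t ∈ EA x d := by
  intro z hz
  rw [mem_EA] at hz ⊢
  have h1 : x * (t * z - z * t) - (t * z - z * t) * x =
      t * (x * z - z * x) - (x * z - z * x) * t := by
    have e1 : x * (t * z) = t * (x * z) := by rw [← Matrix.mul_assoc, h, Matrix.mul_assoc]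
    have e2 : z * t * x = z * x * t := by rw [Matrix.mul_assoc, ← h, ← Matrix.mul_assoc]
    rw [Matrix.mul_sub, Matrix.sub_mul, Matrix.mul_sub, Matrix.sub_mul, e1, e2]
    simp only [Matrix.mul_assoc]
    abel
  rw [h1, hz, Matrix.mul_smul, Matrix.smul_mul, smul_sub]

/-- Eigenvectors of a commuting Hermitian matrix. -/
lemma exists_eig {x t : Matrix ι ι ℂ} (ht : tᴴ = t) (h : x * t = t * x) {d : ℂ}
    {w : Matrix ι ι ℂ} (hw : w ∈ EA x d) (hw0 : w ≠ 0) :
    ∃ (m : ℝ) (z : Matrix ι ι ℂ), z ≠ 0 ∧ z ∈ EA x d ∧ z ∈ EA t m := by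
  by_contra hcon
  push Not at hcon
  apply hw0
  refine ad_ind ht (EA_stable h d) (P := fun z => z = 0) rfl (fun z w hz hw => by
    rw [hz, hw, add_zero]) ?_ hw
  intro m z hz hm
  by_contra h0
  exact hcon m z h0 hz hm

lemma card_le {x : Matrix ι ι ℂ} {D : Finset ℝ} (hD : ∀ d ∈ D, d ∈ SA x) :
    D.card ≤ Module.finrank ℂ (Matrix ι ι ℂ) := by
  classical
  let f : Module.End ℂ (Matrix ι ι ℂ) := LinearMap.mulLeft ℂ x - LinearMap.mulRight ℂ x
  choose! v hv0 hv using hD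
  have h1 : LinearIndependent ℂ (fun d : D => v d) := by
    refine Module.End.eigenvectors_linearIndependent' f (fun d : D => ((d : ℝ) : ℂ)) ?_ _ ?_
    · intro a b hab
      exact Subtype.ext (Complex.ofReal_injective hab)
    · intro d
      refine ⟨?_, hv0 d d.2⟩
      rw [Module.End.mem_eigenspace_iff]
      exact hv d d.2
  have h2 := h1.fintype_card_le_finrank
  rwa [Fintype.card_coe] at h2

/-- **Existence of regular elements.** -/
theorem exists_regular (h : Submodule ℂ (Matrix ι ι ℂ)) :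
    ∃ x ∈ h, xᴴ = x ∧ ∀ t ∈ h, tᴴ = t → x * t = t * x → ∀ d : ℝ, ∃ c : ℝ,
      ∀ z, z ∈ EA x d → z ∈ EA t c := by
  classical
  let P : ℕ → Prop := fun m => ∃ x ∈ h, xᴴ = x ∧ ∃ D : Finset ℝ, D.card = m ∧ ∀ d ∈ D, d ∈ SA x
  obtain ⟨m, ⟨x, hxh, hx, D, hDm, hD⟩, hmax⟩ : ∃ m, P m ∧ ¬ P (m + 1) := by
    by_contra hcon
    push Not at hcon
    have hall : ∀ m, P m := by
      intro m
      induction m with
      | zero => exact ⟨0, h.zero_mem, by simp, ∅, rfl, by simp⟩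
      | succ m ih => exact hcon m ih
    obtain ⟨x, _, _, D, h1, h2⟩ := hall (Module.finrank ℂ (Matrix ι ι ℂ) + 1)
    have := card_le h2
    omega
  refine ⟨x, hxh, hx, fun t hth ht hc d => ?_⟩
  by_contra hcon
  push Not at hcon
  -- two eigenvalues
  have hmax' : ∀ (x : Matrix ι ι ℂ) (_ : x ∈ h) (_ : xᴴ = x) (D : Finset ℝ),
      (∀ d ∈ D, d ∈ SA x) → D.card ≠ m + 1 := fun x h1 h2 D h3 h4 => hmax ⟨x, h1, h2, D, h4, h3⟩
  obtain ⟨w, hw, hw'⟩ := hcon 0
  have hw0 : w ≠ 0 := by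
    rintro rfl
    exact hw' (Submodule.zero_mem _)
  obtain ⟨m₁, z₁, h1, h2, h3⟩ := exists_eig ht hc hw hw0
  obtain ⟨m₂, z₂, hm, h4, h5, h6⟩ : ∃ (m₂ : ℝ) (z₂ : Matrix ι ι ℂ), m₂ ≠ m₁ ∧ z₂ ≠ 0 ∧
      z₂ ∈ EA x d ∧ z₂ ∈ EA t m₂ := by
    by_contra hcon2
    push Not at hcon2
    obtain ⟨w, hw, hw'⟩ := hcon m₁
    apply hw'
    refine ad_ind ht (EA_stable hc d) (P := fun z => z ∈ EA t m₁) (Submodule.zero_mem _)
      (fun z w hz hw => Submodule.add_mem _ hz hw) ?_ hw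
    intro m z hz hm
    by_cases hz0 : z = 0
    · rw [hz0]; exact Submodule.zero_mem _
    · by_cases hmm : m = m₁
      · rw [← hmm]; exact hm
      · exact absurd hm (hcon2 m z hmm hz0 hz)
  have hdS : d ∈ SA x := ⟨z₁, h1, h2⟩
  have hdD : d ∈ D := by
    by_contra hn
    exact hmax' x hxh hx (insert d D) (fun a ha => by
      rcases Finset.mem_insert.1 ha with rfl | ha
      · exact hdS
      · exact hD a ha) (by rw [Finset.card_insert_of_notMem hn, hDm])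
  -- the eigenvectors
  have hex : ∀ a ∈ D, ∃ (μ : ℝ) (z : Matrix ι ι ℂ), z ≠ 0 ∧ z ∈ EA x a ∧ z ∈ EA t μ := by
    intro a ha
    obtain ⟨w, hw0, hw⟩ := hD a ha
    exact exists_eig ht hc hw hw0
  choose! μ v hv0 hvx hvt using hex
  obtain ⟨m₃, z₃, hm3, h7, h8, h9⟩ : ∃ (m₃ : ℝ) (z₃ : Matrix ι ι ℂ), m₃ ≠ μ d ∧ z₃ ≠ 0 ∧
      z₃ ∈ EA x d ∧ z₃ ∈ EA t m₃ := by
    by_cases hh : m₁ = μ d
    · exact ⟨m₂, z₂, fun h' => hm (h'.trans hh.symm), h4, h5, h6⟩
    · exact ⟨m₁, z₁, hh, h1, h2, h3⟩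
  let A : Finset (ℝ × ℝ) := insert (d, m₃) (D.image fun a => (a, μ a))
  have hA : A.card = m + 1 := by
    rw [Finset.card_insert_of_notMem, Finset.card_image_of_injective, hDm]
    · intro a b hab
      exact (Prod.ext_iff.1 hab).1
    · intro hmem
      obtain ⟨a, _, hab⟩ := Finset.mem_image.1 hmem
      obtain ⟨e1, e2⟩ := Prod.ext_iff.1 hab
      simp only at e1 e2
      subst e1
      exact hm3 e2.symm
  let B : Finset ℝ := (A ×ˢ A).image fun p => (p.2.1 - p.1.1) / (p.1.2 - p.2.2)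
  obtain ⟨ε, hε⟩ := Infinite.exists_notMem_finset B
  have hinj : Set.InjOn (fun p : ℝ × ℝ => p.1 + ε * p.2) A := by
    intro p hp q hq hpq
    simp only at hpq
    by_cases h10 : p.2 = q.2
    · refine Prod.ext ?_ h10
      rw [h10] at hpq
      linarith
    · exfalso
      apply hε
      refine Finset.mem_image.2 ⟨(p, q), Finset.mem_product.2 ⟨hp, hq⟩, ?_⟩
      simp only
      rw [div_eq_iff (sub_ne_zero.2 h10)]
      linarith
  refine hmax' (x + (ε : ℂ) • t) (Submodule.add_mem _ hxh (Submodule.smul_mem _ _ hth)) ?_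
    (A.image fun p => p.1 + ε * p.2) ?_ ?_
  · rw [Matrix.conjTranspose_add, Matrix.conjTranspose_smul, hx, ht]
    simp
  · have hmem : ∀ (a μ : ℝ) (z : Matrix ι ι ℂ), z ≠ 0 → z ∈ EA x a → z ∈ EA t μ →
        a + ε * μ ∈ SA (x + (ε : ℂ) • t) := by
      intro a μ z hz0 hz1 hz2
      refine ⟨z, hz0, ?_⟩
      rw [mem_EA] at hz1 hz2
      rw [Matrix.add_mul, Matrix.mul_add, Matrix.smul_mul, Matrix.mul_smul]
      have h11 : x * z + (ε : ℂ) • (t * z) - (z * x + (ε : ℂ) • (z * t)) =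
          (x * z - z * x) + (ε : ℂ) • (t * z - z * t) := by
        rw [smul_sub]; abel
      rw [h11, hz1, hz2, smul_smul, ← add_smul]
      push_cast
      rfl
    intro a ha
    obtain ⟨p, hp, rfl⟩ := Finset.mem_image.1 ha
    rcases Finset.mem_insert.1 hp with rfl | hp
    · exact hmem _ _ z₃ h7 h8 h9
    · obtain ⟨b, hb, rfl⟩ := Finset.mem_image.1 hp
      exact hmem _ _ (v b) (hv0 b hb) (hvx b hb) (hvt b hb)
  · rw [Finset.card_image_of_injOn hinj, hA]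

/-- The regular elements. -/
structure IsReg (h : Submodule ℂ (Matrix ι ι ℂ)) (x : Matrix ι ι ℂ) : Prop where
  mem : x ∈ h
  herm : xᴴ = x
  reg : ∀ t ∈ h, tᴴ = t → x * t = t * x → ∀ d : ℝ, ∃ c : ℝ, ∀ z, z ∈ EA x d → z ∈ EA t c

/-- Elements of the centraliser act by scalars. -/
lemma IsReg.scal {h : Submodule ℂ (Matrix ι ι ℂ)} (hstar : ∀ x ∈ h, xᴴ ∈ h) {x : Matrix ι ι ℂ}
    (hx : IsReg h x) {t : Matrix ι ι ℂ} (ht : t ∈ h) (hc : x * t = t * x) (d : ℝ) :
    ∃ c : ℂ, ∀ z, z ∈ EA x d → z ∈ EA t c := by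
  have hc' : x * tᴴ = tᴴ * x := by
    have h1 := congrArg conjTranspose hc
    rw [Matrix.conjTranspose_mul, Matrix.conjTranspose_mul, hx.herm] at h1
    exact h1.symm
  obtain ⟨t₁, h1⟩ : ∃ t₁, t₁ = (2⁻¹ : ℂ) • (t + tᴴ) := ⟨_, rfl⟩
  obtain ⟨t₂, h2⟩ : ∃ t₂, t₂ = (2⁻¹ * Complex.I) • (tᴴ - t) := ⟨_, rfl⟩
  have e1 : t₁ᴴ = t₁ := by
    rw [h1, Matrix.conjTranspose_smul, Matrix.conjTranspose_add,
      Matrix.conjTranspose_conjTranspose, add_comm]
    simp
  have e2 : t₂ᴴ = t₂ := by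
    rw [h2, Matrix.conjTranspose_smul, Matrix.conjTranspose_sub,
      Matrix.conjTranspose_conjTranspose]
    have : star (2⁻¹ * Complex.I) = -(2⁻¹ * Complex.I) := by
      simp
    rw [this, neg_smul, ← smul_neg, neg_sub]
  have e3 : t = t₁ + Complex.I • t₂ := by
    rw [h1, h2, smul_smul]
    have : Complex.I * (2⁻¹ * Complex.I) = -2⁻¹ := by
      rw [mul_left_comm, Complex.I_mul_I]; ring
    rw [this, neg_smul, ← smul_neg, neg_sub, ← smul_add]
    have : t + tᴴ + (t - tᴴ) = (2 : ℂ) • t := by rw [two_smul]; abel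
    rw [this, smul_smul, inv_mul_cancel₀ two_ne_zero, one_smul]
  have m1 : t₁ ∈ h := by
    rw [h1]; exact Submodule.smul_mem _ _ (Submodule.add_mem _ ht (hstar t ht))
  have m2 : t₂ ∈ h := by
    rw [h2]; exact Submodule.smul_mem _ _ (Submodule.sub_mem _ (hstar t ht) ht)
  have c1 : x * t₁ = t₁ * x := by
    rw [h1, Matrix.mul_smul, Matrix.smul_mul, Matrix.mul_add, Matrix.add_mul, hc, hc']
  have c2 : x * t₂ = t₂ * x := by
    rw [h2, Matrix.mul_smul, Matrix.smul_mul, Matrix.mul_sub, Matrix.sub_mul, hc, hc']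
  obtain ⟨a₁, ha₁⟩ := hx.reg t₁ m1 e1 c1 d
  obtain ⟨a₂, ha₂⟩ := hx.reg t₂ m2 e2 c2 d
  refine ⟨a₁ + Complex.I * a₂, fun z hz => ?_⟩
  have b1 := mem_EA.1 (ha₁ z hz)
  have b2 := mem_EA.1 (ha₂ z hz)
  rw [mem_EA, e3, Matrix.add_mul, Matrix.mul_add, Matrix.smul_mul, Matrix.mul_smul]
  have h11 : t₁ * z + Complex.I • (t₂ * z) - (z * t₁ + Complex.I • (z * t₂)) =
      (t₁ * z - z * t₁) + Complex.I • (t₂ * z - z * t₂) := by
    rw [smul_sub]; abel
  rw [h11, b1, b2, smul_smul, ← add_smul]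

/-- Elements of the centraliser commute with all matrices commuting with the regular element. -/
lemma IsReg.comm {h : Submodule ℂ (Matrix ι ι ℂ)} (hstar : ∀ x ∈ h, xᴴ ∈ h) {x : Matrix ι ι ℂ}
    (hx : IsReg h x) {t : Matrix ι ι ℂ} (ht : t ∈ h) (hc : x * t = t * x) {g : Matrix ι ι ℂ}
    (hg : x * g = g * x) : t * g = g * t := by
  obtain ⟨c, hcc⟩ := hx.scal hstar ht hc 0
  have h1 := mem_EA.1 (hcc 1 (by rw [mem_EA]; simp))
  have h2 := mem_EA.1 (hcc g (by rw [mem_EA, hg]; simp))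
  rw [Matrix.mul_one, Matrix.one_mul, sub_self] at h1
  have h3 : c • g = 0 := by
    have : c • g = (c • (1 : Matrix ι ι ℂ)) * g := by rw [Matrix.smul_mul, Matrix.one_mul]
    rw [this, ← h1, Matrix.zero_mul]
  rw [h3, sub_eq_zero] at h2
  exact h2

/-- Elements of the centraliser act by scalars on the eigenspaces of the regular element. -/
lemma IsReg.vec {h : Submodule ℂ (Matrix ι ι ℂ)} (hstar : ∀ x ∈ h, xᴴ ∈ h) {x : Matrix ι ι ℂ}
    (hx : IsReg h x) {t : Matrix ι ι ℂ} (ht : t ∈ h) (hc : x * t = t * x) (d : ℝ) :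
    ∃ c : ℂ, ∀ v : ι → ℂ, x *ᵥ v = (d : ℂ) • v → t *ᵥ v = c • v := by
  by_cases hex : ∃ w : ι → ℂ, w ≠ 0 ∧ x *ᵥ w = (d : ℂ) • w
  · obtain ⟨w, hw0, hw⟩ := hex
    have hww : star w ⬝ᵥ w ≠ 0 := fun h0 => hw0 (dotProduct_star_self_eq_zero.1 h0)
    have hwx : star w ᵥ* x = (d : ℂ) • star w := by
      have h1 := congrArg star hw
      rw [Matrix.star_mulVec, hx.herm, star_smul] at h1
      rw [h1]
      simp
    refine ⟨(star w ⬝ᵥ w)⁻¹ * ((star w ᵥ* t) ⬝ᵥ w), fun v hv => ?_⟩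
    have hg : x * vecMulVec v (star w) = vecMulVec v (star w) * x := by
      rw [Matrix.mul_vecMulVec, Matrix.vecMulVec_mul, hv, hwx]
      ext i j
      simp only [Matrix.vecMulVec_apply, Pi.smul_apply, smul_eq_mul]
      ring
    have h1 := hx.comm hstar ht hc hg
    rw [Matrix.mul_vecMulVec, Matrix.vecMulVec_mul] at h1
    have h2 := congrArg (fun M => M *ᵥ w) h1
    simp only [Matrix.vecMulVec_mulVec] at h2
    have h3 : (star w ⬝ᵥ w) • (t *ᵥ v) = ((star w ᵥ* t) ⬝ᵥ w) • v := by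
      ext i
      have := congrFun h2 i
      simp only [Pi.smul_apply, MulOpposite.smul_eq_mul_unop, MulOpposite.unop_op,
        smul_eq_mul] at this ⊢
      rw [mul_comm, this, mul_comm]
    rw [mul_smul, ← h3, smul_smul, inv_mul_cancel₀ hww, one_smul]
  · push Not at hex
    refine ⟨0, fun v hv => ?_⟩
    by_cases hv0 : v = 0
    · rw [hv0, Matrix.mulVec_zero, smul_zero]
    · exact absurd hv (hex v hv0)

end Pool.Agent.N996.FP
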