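import Pool.Agent.N996.FP.Regular

/-!
# Root vectors
-/

set_option linter.unusedSectionVars false

namespace Pool.Agent.N996.FP

open Matrix ComplexOrder

variable {ι : Type} [Fintype ι] [DecidableEq ι]

/-- The commutator. -/
def br (a b : Matrix ι ι ℂ) : Matrix ι ι ℂ := a * b - b * a

lemma br_def (a b : Matrix ι ι ℂ) : br a b = a * b - b * a := rfl

lemma br_star (a b : Matrix ι ι ℂ) : (br a b)ᴴ = br bᴴ aᴴ := by
  rw [br, br, Matrix.conjTranspose_sub, Matrix.conjTranspose_mul, Matrix.conjTranspose_mul]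

lemma br_swap (a b : Matrix ι ι ℂ) : br a b = -br b a := by rw [br, br]; abel

lemma br_jac (a b c : Matrix ι ι ℂ) : br a (br b c) = br (br a b) c + br b (br a c) := by
  simp only [br, Matrix.mul_sub, Matrix.sub_mul, Matrix.mul_assoc]
  abel

/-- Invariance of the trace. -/
lemma tr_br (a b c : Matrix ι ι ℂ) : (br a b * c).trace = (a * br b c).trace := by
  rw [br, br, Matrix.sub_mul, Matrix.mul_sub, Matrix.trace_sub, Matrix.trace_sub]
  congr 1
  · rw [Matrix.mul_assoc]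
  · rw [Matrix.mul_assoc b a c, Matrix.trace_mul_comm b, Matrix.mul_assoc]

/-- The squared norm. -/
noncomputable def nsq (a : Matrix ι ι ℂ) : ℂ := (aᴴ * a).trace

lemma nsq_eq_zero {a : Matrix ι ι ℂ} (h : nsq a = 0) : a = 0 :=
  Matrix.trace_conjTranspose_mul_self_eq_zero_iff.1 h

lemma nsq_nonneg (a : Matrix ι ι ℂ) : 0 ≤ nsq a :=
  (Matrix.posSemidef_conjTranspose_mul_self a).trace_nonneg

lemma nsq_pos {a : Matrix ι ι ℂ} (h : a ≠ 0) : 0 < nsq a :=
  lt_of_le_of_ne (nsq_nonneg a) fun h0 => h (nsq_eq_zero h0.symm)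

lemma nsq_star (a : Matrix ι ι ℂ) : nsq aᴴ = nsq a := by
  rw [nsq, nsq, Matrix.conjTranspose_conjTranspose, Matrix.trace_mul_comm]

/-- The basic identity. -/
lemma nsq_br (e z : Matrix ι ι ℂ) :
    nsq (br e z) - nsq (br eᴴ z) = -(zᴴ * br (br e eᴴ) z).trace := by
  have h1 : nsq (br e z) = (zᴴ * br eᴴ (br e z)).trace := by
    rw [nsq, br_star, tr_br]
  have h2 : nsq (br eᴴ z) = (zᴴ * br e (br eᴴ z)).trace := by
    rw [nsq, br_star, tr_br, Matrix.conjTranspose_conjTranspose]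
  have h3 : br (br e eᴴ) z = br e (br eᴴ z) - br eᴴ (br e z) := by
    rw [br_jac e eᴴ z]; abel
  rw [h1, h2, h3, Matrix.mul_sub, Matrix.trace_sub]
  ring

lemma tr_h (e t : Matrix ι ι ℂ) : (br e eᴴ * t).trace = (eᴴ * br t e).trace := by
  rw [br, br, Matrix.sub_mul, Matrix.mul_sub, Matrix.trace_sub, Matrix.trace_sub]
  congr 1
  · rw [Matrix.mul_assoc, Matrix.trace_mul_comm e, Matrix.mul_assoc]
  · rw [Matrix.mul_assoc]

/-- A Lie algebra of matrices stable under adjoints. -/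
structure IsLA (h : Submodule ℂ (Matrix ι ι ℂ)) : Prop where
  lie : ∀ a ∈ h, ∀ b ∈ h, br a b ∈ h
  star : ∀ a ∈ h, aᴴ ∈ h

variable {h : Submodule ℂ (Matrix ι ι ℂ)} {x : Matrix ι ι ℂ}

lemma EA_star (hx : xᴴ = x) {a : ℝ} {e : Matrix ι ι ℂ} (he : e ∈ EA x a) :
    eᴴ ∈ EA x ((-a : ℝ) : ℂ) := by
  rw [mem_EA] at he ⊢
  have h1 := congrArg conjTranspose he
  rw [Matrix.conjTranspose_sub, Matrix.conjTranspose_mul, Matrix.conjTranspose_mul, hx,
    Matrix.conjTranspose_smul] at h1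
  rw [← neg_sub, h1]
  simp

lemma EA_br {a b : ℂ} {e f : Matrix ι ι ℂ} (he : e ∈ EA x a) (hf : f ∈ EA x b) :
    br e f ∈ EA x (a + b) := by
  have he' : br x e = a • e := he
  have hf' : br x f = b • f := hf
  change br x (br e f) = (a + b) • br e f
  rw [br_jac, he', hf', add_smul]
  simp only [br, Matrix.smul_mul, Matrix.mul_smul, smul_sub]

lemma EA_zero {t : Matrix ι ι ℂ} (ht : t ∈ EA x 0) : x * t = t * x := by
  rw [mem_EA, zero_smul, sub_eq_zero] at ht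
  exact ht

/-- The matrix `[e, eᴴ]`. -/
lemma h_mem (hh : IsLA h) (hx : IsReg h x) {a : ℝ} {e : Matrix ι ι ℂ} (he : e ∈ h)
    (hea : e ∈ EA x a) : br e eᴴ ∈ h ∧ x * br e eᴴ = br e eᴴ * x ∧ (br e eᴴ)ᴴ = br e eᴴ := by
  refine ⟨hh.lie _ he _ (hh.star _ he), ?_, ?_⟩
  · have h1 := EA_br hea (EA_star hx.herm hea)
    have h2 : (a : ℂ) + ((-a : ℝ) : ℂ) = 0 := by push_cast; ring
    rw [h2] at h1
    exact EA_zero h1
  · rw [br_star, Matrix.conjTranspose_conjTranspose]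

/-- The functional of a root vector. -/
lemma root_val (hh : IsLA h) (hx : IsReg h x) {a : ℝ} {e : Matrix ι ι ℂ}
    (hea : e ∈ EA x a) (he0 : e ≠ 0) {t : Matrix ι ι ℂ} (ht : t ∈ h) (htx : x * t = t * x)
    {f : Matrix ι ι ℂ} (hf : f ∈ EA x a) : br t f = ((br e eᴴ * t).trace / nsq e) • f := by
  obtain ⟨c, hc⟩ := hx.scal hh.star ht htx a
  have h1 : br t e = c • e := hc e hea
  have h2 : br t f = c • f := hc f hf
  have h3 : (br e eᴴ * t).trace = c * nsq e := by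
    rw [tr_h, h1, Matrix.mul_smul, Matrix.trace_smul, smul_eq_mul, nsq]
  rw [h3, mul_div_assoc, div_self (nsq_pos he0).ne', mul_one, h2]

/-- The root vectors are unique up to scalars. -/
lemma root_unique (hh : IsLA h) (hx : IsReg h x) {a : ℝ} (ha : a ≠ 0) {e f : Matrix ι ι ℂ}
    (he : e ∈ h) (hea : e ∈ EA x a) (he0 : e ≠ 0) (hf : f ∈ h) (hfa : f ∈ EA x a) :
    ∃ c : ℂ, f = c • e := by
  refine ⟨(eᴴ * f).trace / nsq e, ?_⟩
  obtain ⟨z, hz⟩ : ∃ z, z = f - ((eᴴ * f).trace / nsq e) • e := ⟨_, rfl⟩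
  suffices hz0 : z = 0 by rw [hz, sub_eq_zero] at hz0; exact hz0
  have hzh : z ∈ h := by rw [hz]; exact Submodule.sub_mem _ hf (Submodule.smul_mem _ _ he)
  have hza : z ∈ EA x a := by rw [hz]; exact Submodule.sub_mem _ hfa (Submodule.smul_mem _ _ hea)
  have hort : (eᴴ * z).trace = 0 := by
    rw [hz, Matrix.mul_sub, Matrix.mul_smul, Matrix.trace_sub, Matrix.trace_smul, smul_eq_mul]
    change (eᴴ * f).trace - (eᴴ * f).trace / nsq e * nsq e = 0
    rw [div_mul_cancel₀ _ (nsq_pos he0).ne', sub_self]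
  -- `[z, eᴴ] = 0`
  obtain ⟨k, hk⟩ : ∃ k, k = br z eᴴ := ⟨_, rfl⟩
  have hkh : k ∈ h := by rw [hk]; exact hh.lie _ hzh _ (hh.star _ he)
  have hkx : x * k = k * x := by
    rw [hk]
    have h1 := EA_br hza (EA_star hx.herm hea)
    have h2 : (a : ℂ) + ((-a : ℝ) : ℂ) = 0 := by push_cast; ring
    rw [h2] at h1
    exact EA_zero h1
  have hkx' : x * kᴴ = kᴴ * x := by
    have h1 := congrArg conjTranspose hkx
    rw [Matrix.conjTranspose_mul, Matrix.conjTranspose_mul, hx.herm] at h1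
    exact h1.symm
  have hk0 : k = 0 := by
    have h1 := root_val hh hx hea he0 (hh.star _ hkh) hkx' hza
    have h2 : nsq kᴴ = 0 := by
      rw [nsq, Matrix.conjTranspose_conjTranspose]
      nth_rewrite 1 [hk]
      have h3 : (br z eᴴ * kᴴ).trace = (eᴴ * br kᴴ z).trace := by
        rw [br, br, Matrix.sub_mul, Matrix.mul_sub, Matrix.trace_sub, Matrix.trace_sub]
        congr 1
        · rw [Matrix.mul_assoc, Matrix.trace_mul_comm z, Matrix.mul_assoc]
        · rw [Matrix.mul_assoc]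
      rw [h3, h1, Matrix.mul_smul, Matrix.trace_smul, hort, smul_zero]
    rw [nsq_star] at h2
    exact nsq_eq_zero h2
  obtain ⟨m1, m2, m3⟩ := h_mem hh hx he hea
  have hh0 : br e eᴴ ≠ 0 := by
    intro h0
    have h1 := tr_h e x
    rw [h0, Matrix.zero_mul, Matrix.trace_zero] at h1
    have h2 : br x e = (a : ℂ) • e := hea
    rw [h2, Matrix.mul_smul, Matrix.trace_smul, smul_eq_mul] at h1
    rcases mul_eq_zero.1 h1.symm with h3 | h3
    · exact ha (by exact_mod_cast h3)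
    · exact he0 (nsq_eq_zero h3)
  have h1 := nsq_br e z
  have h2 : br eᴴ z = 0 := by rw [br_swap, ← hk, hk0, neg_zero]
  have h3 : nsq (0 : Matrix ι ι ℂ) = 0 := by rw [nsq, Matrix.mul_zero, Matrix.trace_zero]
  rw [h2, h3, sub_zero, root_val hh hx hea he0 m1 m2 hza, Matrix.mul_smul, Matrix.trace_smul,
    smul_eq_mul] at h1
  have h4 : (br e eᴴ * br e eᴴ).trace = nsq (br e eᴴ) := by rw [nsq, m3]
  rw [h4] at h1
  by_contra hz0
  have h5 := nsq_pos hz0
  have h6 := nsq_pos hh0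
  have h7 := nsq_pos he0
  have h8 : 0 < nsq (br e eᴴ) / nsq e * (zᴴ * z).trace := mul_pos (div_pos h6 h7) h5
  have h9 := nsq_nonneg (br e z)
  rw [h1] at h9
  have h10 := add_pos_of_pos_of_nonneg h8 h9
  rw [add_neg_cancel] at h10
  exact lt_irrefl _ h10

/-- The simple roots. -/
structure IsSimple (h : Submodule ℂ (Matrix ι ι ℂ)) (x : Matrix ι ι ℂ) (a : ℝ) : Prop where
  pos : 0 < a
  ex : ∃ e ∈ h, e ∈ EA x a ∧ e ≠ 0
  ind : ∀ b c : ℝ, 0 < b → 0 < c → b + c = a → ∀ e ∈ h, e ∈ EA x b → ∀ f ∈ h, f ∈ EA x c →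
    br e f = 0

/-- Simple roots form obtuse angles. -/
lemma obtuse (hh : IsLA h) (hx : IsReg h x) {a b : ℝ} (ha : IsSimple h x a) (hb : IsSimple h x b)
    (hab : a ≠ b) {e f : Matrix ι ι ℂ} (he : e ∈ h) (hea : e ∈ EA x a) (hf : f ∈ h)
    (hfb : f ∈ EA x b) (hf0 : f ≠ 0) : ((br f fᴴ * br e eᴴ).trace).re ≤ 0 := by
  by_contra hcon
  push Not at hcon
  obtain ⟨m1, m2, m3⟩ := h_mem hh hx he hea
  obtain ⟨n1, n2, n3⟩ := h_mem hh hx hf hfb
  obtain ⟨k, hk⟩ : ∃ k, k = br eᴴ f := ⟨_, rfl⟩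
  have hkh : k ∈ h := by rw [hk]; exact hh.lie _ (hh.star _ he) _ hf
  have hkx : k ∈ EA x ((b - a : ℝ) : ℂ) := by
    have h1 := EA_br (EA_star hx.herm hea) hfb
    have h2 : ((-a : ℝ) : ℂ) + (b : ℂ) = ((b - a : ℝ) : ℂ) := by push_cast; ring
    rw [h2] at h1
    rw [hk]
    exact h1
  have hk0 : k ≠ 0 := by
    intro hk0
    have h1 := nsq_br e f
    have h3 : nsq (0 : Matrix ι ι ℂ) = 0 := by rw [nsq, Matrix.mul_zero, Matrix.trace_zero]
    rw [← hk, hk0, h3, sub_zero, root_val hh hx hfb hf0 m1 m2 hfb, Matrix.mul_smul,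
      Matrix.trace_smul, smul_eq_mul] at h1
    change _ = -((br f fᴴ * br e eᴴ).trace / nsq f * nsq f) at h1
    rw [div_mul_cancel₀ _ (nsq_pos hf0).ne'] at h1
    have h4 := nsq_nonneg (br e f)
    rw [h1, Complex.le_def] at h4
    simp only [Complex.zero_re, Complex.neg_re] at h4
    linarith [h4.1]
  rcases lt_or_gt_of_ne hab with hlt | hlt
  · -- `b = a + (b - a)`
    have h1 : br e k = 0 := hb.ind a (b - a) ha.pos (sub_pos.2 hlt) (by ring) e he hea k hkh hkx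
    have h2 : ((br e k)ᴴ * f).trace = nsq k := by
      rw [br_star, tr_br, ← hk, nsq]
    rw [h1, Matrix.conjTranspose_zero, Matrix.zero_mul, Matrix.trace_zero] at h2
    exact hk0 (nsq_eq_zero h2.symm)
  · have hks : kᴴ ∈ EA x ((a - b : ℝ) : ℂ) := by
      have := EA_star hx.herm hkx
      rwa [neg_sub] at this
    have h1 : br f kᴴ = 0 := ha.ind b (a - b) hb.pos (sub_pos.2 hlt) (by ring) f hf hfb kᴴ
      (hh.star _ hkh) hks
    have h2 : ((br f kᴴ)ᴴ * e).trace = nsq kᴴ := by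
      rw [br_star, tr_br, Matrix.conjTranspose_conjTranspose, nsq,
        Matrix.conjTranspose_conjTranspose]
      congr 2
      rw [hk, br_star, Matrix.conjTranspose_conjTranspose]
    rw [h1, Matrix.conjTranspose_zero, Matrix.zero_mul, Matrix.trace_zero, nsq_star] at h2
    exact hk0 (nsq_eq_zero h2.symm)

end Pool.Agent.N996.FP
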