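import Pool.Agent.N996.FP.Root

/-!
# Automorphisms which fix the centraliser of a regular element are inner
-/

set_option linter.unusedSectionVars false

namespace Pool.Agent.N996.FP

open Matrix ComplexOrder NormedSpace

variable {ι : Type} [Fintype ι] [DecidableEq ι] {h : Submodule ℂ (Matrix ι ι ℂ)}
  {x : Matrix ι ι ℂ}

/-- The matrix `[e, eᴴ]`. -/
noncomputable def hm (e : Matrix ι ι ℂ) : Matrix ι ι ℂ := br e eᴴ

lemma hm_herm (e : Matrix ι ι ℂ) : (hm e)ᴴ = hm e := by
  rw [hm, br_star, Matrix.conjTranspose_conjTranspose]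

lemma tr_real {a b : Matrix ι ι ℂ} (ha : aᴴ = a) (hb : bᴴ = b) :
    (((a * b).trace.re : ℝ) : ℂ) = (a * b).trace := by
  have h1 : (starRingEnd ℂ) (a * b).trace = (a * b).trace := by
    have h2 := Matrix.trace_conjTranspose (a * b)
    rw [Matrix.conjTranspose_mul, ha, hb, Matrix.trace_mul_comm] at h2
    exact h2.symm
  exact Complex.conj_eq_iff_re.1 h1

lemma nsq_real (a : Matrix ι ι ℂ) : (((nsq a).re : ℝ) : ℂ) = nsq a := by
  have h1 := nsq_nonneg a
  rw [Complex.le_def] at h1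
  apply Complex.ext
  · simp
  · simp [← h1.2]

section

variable {J : Type} [Fintype J] {r : J → ℝ} {e : J → Matrix ι ι ℂ}

/-- The combination. -/
noncomputable def cmb (e : J → Matrix ι ι ℂ) (y : J → ℝ) : Matrix ι ι ℂ :=
  ∑ j, (y j : ℂ) • hm (e j)

lemma cmb_herm (y : J → ℝ) : (cmb e y)ᴴ = cmb e y := by
  rw [cmb, Matrix.conjTranspose_sum]
  refine Finset.sum_congr rfl fun j _ => ?_
  rw [Matrix.conjTranspose_smul, hm_herm]
  simp

lemma tr_cmb_right (a : Matrix ι ι ℂ) (y : J → ℝ) :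
    (a * cmb e y).trace = ∑ j, (y j : ℂ) * (a * hm (e j)).trace := by
  rw [cmb, Finset.mul_sum, Matrix.trace_sum]
  refine Finset.sum_congr rfl fun j _ => ?_
  rw [Matrix.mul_smul, Matrix.trace_smul, smul_eq_mul]

lemma tr_cmb_left (a : Matrix ι ι ℂ) (y : J → ℝ) :
    (cmb e y * a).trace = ∑ j, (y j : ℂ) * (hm (e j) * a).trace := by
  rw [cmb, Finset.sum_mul, Matrix.trace_sum]
  refine Finset.sum_congr rfl fun j _ => ?_
  rw [Matrix.smul_mul, Matrix.trace_smul, smul_eq_mul]

lemma cmb_sub (y z : J → ℝ) : cmb e (fun j => y j - z j) = cmb e y - cmb e z := by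
  rw [cmb, cmb, cmb, ← Finset.sum_sub_distrib]
  refine Finset.sum_congr rfl fun j _ => ?_
  rw [← sub_smul]
  push_cast
  rfl

/-- A nonnegative combination which vanishes is trivial. -/
lemma cmb_pos (hs : ∀ j, IsSimple h x (r j)) (hea : ∀ j, e j ∈ EA x (r j))
    (he0 : ∀ j, e j ≠ 0) {y : J → ℝ} (hy : ∀ j, 0 ≤ y j) (h0 : cmb e y = 0) (j : J) : y j = 0 := by
  have h1 := tr_cmb_left (e := e) x y
  rw [h0, Matrix.zero_mul, Matrix.trace_zero] at h1
  have h2 : ∀ i, (hm (e i) * x).trace = (r i : ℂ) * nsq (e i) := by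
    intro i
    rw [hm, tr_h]
    have h3 : br x (e i) = (r i : ℂ) • e i := hea i
    rw [h3, Matrix.mul_smul, Matrix.trace_smul, smul_eq_mul, nsq]
  simp only [h2] at h1
  have h3 : ∑ j, y j * (r j * (nsq (e j)).re) = 0 := by
    have h4 : ((∑ j, y j * (r j * (nsq (e j)).re) : ℝ) : ℂ) = 0 := by
      rw [h1]
      push_cast
      refine Finset.sum_congr rfl fun j _ => ?_
      rw [nsq_real]
    exact_mod_cast h4
  have hn : ∀ i, 0 < (nsq (e i)).re := by
    intro i
    have := nsq_pos (he0 i)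
    rw [Complex.lt_def] at this
    exact this.1
  have h4 := (Finset.sum_eq_zero_iff_of_nonneg (fun i _ => mul_nonneg (hy i)
    (mul_nonneg (hs i).pos.le (hn i).le))).1 h3 j (Finset.mem_univ j)
  rcases mul_eq_zero.1 h4 with h5 | h5
  · exact h5
  · exact absurd h5 (mul_pos (hs j).pos (hn j)).ne'

/-- The equations for the roots. -/
lemma solve (hh : IsLA h) (hx : IsReg h x) (hr : Function.Injective r)
    (hs : ∀ j, IsSimple h x (r j)) (he : ∀ j, e j ∈ h) (hea : ∀ j, e j ∈ EA x (r j))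
    (he0 : ∀ j, e j ≠ 0) (θ : J → ℝ) :
    ∃ y : J → ℝ, ∀ i, (hm (e i) * cmb e y).trace = (θ i : ℂ) := by
  classical
  let L : (J → ℝ) →ₗ[ℝ] (J → ℝ) :=
    { toFun := fun y i => ∑ j, y j * (hm (e i) * hm (e j)).trace.re
      map_add' := by
        intro y z
        ext i
        simp only [Pi.add_apply, add_mul, Finset.sum_add_distrib]
      map_smul' := by
        intro c y
        ext i
        simp only [Pi.smul_apply, smul_eq_mul, RingHom.id_apply, Finset.mul_sum, mul_assoc] }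
  have hL : ∀ (y : J → ℝ) i, ((L y i : ℝ) : ℂ) = (hm (e i) * cmb e y).trace := by
    intro y i
    rw [tr_cmb_right]
    change ((∑ j, y j * (hm (e i) * hm (e j)).trace.re : ℝ) : ℂ) = _
    push_cast
    refine Finset.sum_congr rfl fun j _ => ?_
    rw [tr_real (hm_herm _) (hm_herm _)]
  have hinj : Function.Injective L := by
    rw [← LinearMap.ker_eq_bot, LinearMap.ker_eq_bot']
    intro y hy
    -- the combination vanishes
    have h1 : cmb e y = 0 := by
      apply nsq_eq_zero
      rw [nsq, cmb_herm, tr_cmb_left]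
      refine Finset.sum_eq_zero fun i _ => ?_
      rw [← hL, hy]
      simp
    let yp : J → ℝ := fun j => max (y j) 0
    let ym : J → ℝ := fun j => max (-y j) 0
    have hpm : ∀ j, y j = yp j - ym j := by
      intro j
      simp only [yp, ym]
      rcases le_total 0 (y j) with h2 | h2
      · rw [max_eq_left h2, max_eq_right (by linarith)]; ring
      · rw [max_eq_right h2, max_eq_left (by linarith)]; ring
    have hdis : ∀ j, yp j * ym j = 0 := by
      intro j
      simp only [yp, ym]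
      rcases le_total 0 (y j) with h2 | h2
      · rw [max_eq_right (show -y j ≤ 0 by linarith), mul_zero]
      · rw [max_eq_right h2, zero_mul]
    have hp0 : ∀ j, 0 ≤ yp j := fun j => le_max_right _ _
    have hm0 : ∀ j, 0 ≤ ym j := fun j => le_max_right _ _
    have h2 : cmb e yp = cmb e ym := by
      rw [← sub_eq_zero, ← cmb_sub]
      have : (fun j => yp j - ym j) = y := by funext j; rw [hpm]
      rw [this, h1]
    have h3 : nsq (cmb e yp) = 0 := by
      have h4 : (nsq (cmb e yp)).re ≤ 0 := by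
        rw [nsq, cmb_herm]
        nth_rewrite 2 [h2]
        rw [tr_cmb_left, Complex.re_sum]
        refine Finset.sum_nonpos fun i _ => ?_
        rw [tr_cmb_right, Finset.mul_sum, Complex.re_sum]
        refine Finset.sum_nonpos fun j _ => ?_
        rw [← tr_real (hm_herm (e i)) (hm_herm (e j))]
        have h5 : ((yp i : ℂ) * ((ym j : ℂ) * (((hm (e i) * hm (e j)).trace.re : ℝ) : ℂ))).re =
            yp i * ym j * (hm (e i) * hm (e j)).trace.re := by
          rw [← Complex.ofReal_mul, ← Complex.ofReal_mul, Complex.ofReal_re]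
          ring
        rw [h5]
        by_cases hij : i = j
        · subst hij
          rw [hdis, zero_mul]
        · refine mul_nonpos_of_nonneg_of_nonpos (mul_nonneg (hp0 i) (hm0 j)) ?_
          exact obtuse hh hx (hs j) (hs i) (fun h' => hij (hr h').symm) (he j) (hea j) (he i)
            (hea i) (he0 i)
      have h5 := nsq_nonneg (cmb e yp)
      rw [← nsq_real] at h5 ⊢
      have h6 : 0 ≤ (nsq (cmb e yp)).re := by exact_mod_cast h5
      rw [le_antisymm h4 h6, Complex.ofReal_zero]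
    have h4 : cmb e yp = 0 := nsq_eq_zero h3
    have h5 : cmb e ym = 0 := by rw [← h2, h4]
    ext j
    rw [hpm, cmb_pos hs hea he0 hp0 h4 j, cmb_pos hs hea he0 hm0 h5 j]
    simp
  obtain ⟨y, hy⟩ := (LinearMap.injective_iff_surjective.1 hinj) θ
  exact ⟨y, fun i => by rw [← hL, hy]⟩

end

section

open scoped Matrix.Norms.Operator

lemma exp_comm {a b : Matrix ι ι ℂ} (hab : a * b = b * a) : exp a * b = b * exp a :=
  (Commute.exp_left (x := a) (y := b) hab)

lemma exp_skew {s : Matrix ι ι ℂ} (hs : sᴴ = -s) : (exp s)ᴴ * exp s = 1 ∧ exp s * (exp s)ᴴ = 1 := by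
  rw [← Matrix.exp_conjTranspose, hs]
  constructor
  · rw [← Matrix.exp_add_of_commute _ _ (Commute.neg_left (Commute.refl s)), neg_add_cancel, exp_zero]
  · rw [← Matrix.exp_add_of_commute _ _ (Commute.neg_right (Commute.refl s)), add_neg_cancel, exp_zero]

/-- Exponentials and eigenvectors. -/
lemma exp_eig {s e : Matrix ι ι ℂ} {c : ℂ} (h1 : br s e = c • e) :
    exp s * e = Complex.exp c • (e * exp s) := by
  have h2 : SemiconjBy e (s + c • 1) s := by
    change e * (s + c • 1) = s * e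
    rw [Matrix.mul_add, Matrix.mul_smul, Matrix.mul_one, ← h1, br]
    abel
  have h3 : e * exp (s + c • 1) = exp s * e := h2.exp_right
  have h4 : exp (s + c • (1 : Matrix ι ι ℂ)) = Complex.exp c • exp s := by
    have hc : Commute s (c • (1 : Matrix ι ι ℂ)) := by
      change s * (c • 1) = (c • 1) * s
      rw [Matrix.mul_smul, Matrix.smul_mul, Matrix.mul_one, Matrix.one_mul]
    rw [Matrix.exp_add_of_commute _ _ hc]
    have h5 : exp (c • (1 : Matrix ι ι ℂ)) = Complex.exp c • 1 := by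
      have h6 : c • (1 : Matrix ι ι ℂ) = diagonal fun _ => c := by
        ext i j
        by_cases hij : i = j
        · subst hij; simp
        · simp [Matrix.diagonal_apply_ne _ hij, Matrix.one_apply_ne hij]
      have h7 : Complex.exp c • (1 : Matrix ι ι ℂ) = diagonal fun _ => Complex.exp c := by
        ext i j
        by_cases hij : i = j
        · subst hij; simp
        · simp [Matrix.diagonal_apply_ne _ hij, Matrix.one_apply_ne hij]
      rw [h6, h7, Matrix.exp_diagonal]
      congr 1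
      funext i
      rw [Pi.coe_exp, Complex.exp_eq_exp_ℂ]
    rw [h5, Matrix.mul_smul, Matrix.mul_one]
  rw [← h3, h4, Matrix.mul_smul]

end

/-- **Automorphisms fixing the centraliser of a regular element are inner.** -/
theorem exists_inner (hh : IsLA h) (hx : IsReg h x) {g : Matrix ι ι ℂ} (hg : gᴴ * g = 1)
    (hxg : x * g = g * x) (hgh : ∀ z ∈ h, g * z * gᴴ ∈ h) :
    ∃ s ∈ h, sᴴ = -s ∧ ∀ w ∈ h, (exp (-s) * g) * w = w * (exp (-s) * g) := by
  classical
  have hg' : g * gᴴ = 1 := mul_eq_one_comm.1 hg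
  have hxg' : x * gᴴ = gᴴ * x := by
    calc x * gᴴ = (gᴴ * g) * x * gᴴ := by rw [hg, Matrix.one_mul]
      _ = gᴴ * (g * x) * gᴴ := by simp only [Matrix.mul_assoc]
      _ = gᴴ * x * (g * gᴴ) := by rw [← hxg]; simp only [Matrix.mul_assoc]
      _ = gᴴ * x := by rw [hg', Matrix.mul_one]
  -- the set of positive roots
  have hfin : {a : ℝ | 0 < a ∧ ∃ e ∈ h, e ∈ EA x a ∧ e ≠ 0}.Finite := by
    by_contra hinf
    obtain ⟨D, hD, hDc⟩ := Set.Infinite.exists_subset_card_eq hinf
      (Module.finrank ℂ (Matrix ι ι ℂ) + 1)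
    have := card_le (x := x) (D := D) fun d hd => by
      obtain ⟨_, e, _, he, he0⟩ := hD hd
      exact ⟨e, he0, he⟩
    omega
  let Φ := hfin.toFinset
  have hΦ : ∀ a, a ∈ Φ ↔ 0 < a ∧ ∃ e ∈ h, e ∈ EA x a ∧ e ≠ 0 := fun a => by
    rw [Set.Finite.mem_toFinset]; rfl
  let Δ := Φ.filter fun a => IsSimple h x a
  have hΔ : ∀ j : Δ, IsSimple h x j := fun j => (Finset.mem_filter.1 j.2).2
  have hex : ∀ j : Δ, ∃ e ∈ h, e ∈ EA x ((j : ℝ) : ℂ) ∧ e ≠ 0 := fun j => (hΔ j).ex
  choose e he hea he0 using hex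
  -- the action of `g`
  have hact : ∀ (a : ℝ) (z : Matrix ι ι ℂ), z ∈ EA x a → g * z * gᴴ ∈ EA x a := by
    intro a z hz
    rw [mem_EA] at hz ⊢
    have e1 : x * (g * z * gᴴ) = g * (x * z) * gᴴ := by
      rw [← Matrix.mul_assoc, ← Matrix.mul_assoc, hxg]; simp only [Matrix.mul_assoc]
    have e2 : g * z * gᴴ * x = g * (z * x) * gᴴ := by
      rw [Matrix.mul_assoc, ← hxg']; simp only [Matrix.mul_assoc]
    rw [e1, e2, ← Matrix.sub_mul, ← Matrix.mul_sub, hz, Matrix.mul_smul, Matrix.smul_mul]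
  have hc : ∀ j : Δ, ∃ θ : ℝ, g * e j = Complex.exp (θ * Complex.I) • (e j * g) := by
    intro j
    obtain ⟨c, hc⟩ := root_unique hh hx (hΔ j).pos.ne' (he j) (hea j) (he0 j) (hgh _ (he j))
      (hact _ _ (hea j))
    have h1 : nsq (g * e j * gᴴ) = nsq (e j) := by
      rw [nsq, nsq]
      have : (g * e j * gᴴ)ᴴ * (g * e j * gᴴ) = g * ((e j)ᴴ * e j) * gᴴ := by
        rw [Matrix.conjTranspose_mul, Matrix.conjTranspose_mul, Matrix.conjTranspose_conjTranspose]
        calc g * ((e j)ᴴ * gᴴ) * (g * e j * gᴴ) = g * ((e j)ᴴ * (gᴴ * g) * e j) * gᴴ := by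
              simp only [Matrix.mul_assoc]
          _ = _ := by rw [hg, Matrix.mul_one]
      rw [this, Matrix.mul_assoc, Matrix.trace_mul_comm, Matrix.mul_assoc, hg, Matrix.mul_one]
    have h2 : (star c * c) = 1 := by
      have h3 : nsq (c • e j) = (star c * c) * nsq (e j) := by
        rw [nsq, Matrix.conjTranspose_smul, Matrix.smul_mul, Matrix.mul_smul, smul_smul,
          Matrix.trace_smul, smul_eq_mul, nsq]
      rw [hc, h3] at h1
      have h4 := (nsq_pos (he0 j)).ne'
      field_simp at h1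
      exact h1
    have h5 : ‖c‖ = 1 := by
      have h6 : (Complex.normSq c : ℂ) = 1 := by
        rw [Complex.normSq_eq_conj_mul_self]; exact h2
      have h7 : Complex.normSq c = 1 := by exact_mod_cast h6
      rw [Complex.normSq_eq_norm_sq] at h7
      nlinarith [norm_nonneg c]
    refine ⟨c.arg, ?_⟩
    have h6 := Complex.norm_mul_exp_arg_mul_I c
    rw [h5, Complex.ofReal_one, one_mul] at h6
    rw [h6, ← Matrix.smul_mul, ← hc, Matrix.mul_assoc, hg, Matrix.mul_one]
  choose θ hθ using hc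
  obtain ⟨y, hy⟩ := solve hh hx (r := fun j : Δ => (j : ℝ)) Subtype.val_injective hΔ he hea he0
    (fun j => θ j * (nsq (e j)).re)
  obtain ⟨t, ht⟩ : ∃ t, t = cmb e y := ⟨_, rfl⟩
  have hth : t ∈ h := by
    rw [ht, cmb]
    exact Submodule.sum_mem _ fun j _ => Submodule.smul_mem _ _ (h_mem hh hx (he j) (hea j)).1
  have htx : x * t = t * x := by
    rw [ht, cmb, Finset.mul_sum, Finset.sum_mul]
    refine Finset.sum_congr rfl fun j _ => ?_
    rw [Matrix.mul_smul, Matrix.smul_mul]
    congr 1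
    exact (h_mem hh hx (he j) (hea j)).2.1
  have htH : tᴴ = t := by rw [ht, cmb_herm]
  have hte : ∀ j, br t (e j) = (θ j : ℂ) • e j := by
    intro j
    rw [root_val hh hx (hea j) (he0 j) hth htx (hea j)]
    congr 1
    have h1 := hy j
    rw [← ht] at h1
    change (hm (e j) * t).trace / _ = _
    rw [h1]
    push_cast
    rw [nsq_real, mul_div_assoc, div_self (nsq_pos (he0 j)).ne', mul_one]
  obtain ⟨s, hs⟩ : ∃ s, s = Complex.I • t := ⟨_, rfl⟩
  have hsH : sᴴ = -s := by
    rw [hs, Matrix.conjTranspose_smul, htH]; simp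
  have hsh : s ∈ h := by rw [hs]; exact Submodule.smul_mem _ _ hth
  refine ⟨s, hsh, hsH, ?_⟩
  obtain ⟨z, hz⟩ : ∃ z, z = exp (-s) * g := ⟨_, rfl⟩
  rw [← hz]
  have hzz : zᴴ * z = 1 := by
    have h1 : (-s)ᴴ = -(-s) := by rw [Matrix.conjTranspose_neg, hsH]
    rw [hz, Matrix.conjTranspose_mul]
    calc gᴴ * (exp (-s))ᴴ * (exp (-s) * g) = gᴴ * ((exp (-s))ᴴ * exp (-s)) * g := by
          simp only [Matrix.mul_assoc]
      _ = 1 := by rw [(exp_skew h1).1, Matrix.mul_one, hg]
  have hzz' : z * zᴴ = 1 := mul_eq_one_comm.1 hzz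
  -- simple roots
  have hsimple : ∀ j, z * e j = e j * z := by
    intro j
    have h1 : br (-s) (e j) = (-(θ j * Complex.I)) • e j := by
      rw [hs]
      have : br (-(Complex.I • t)) (e j) = (-Complex.I) • br t (e j) := by
        rw [br, br, smul_sub, Matrix.neg_mul, Matrix.mul_neg, Matrix.smul_mul, Matrix.mul_smul,
          neg_smul, neg_smul]
      rw [this, hte, smul_smul]
      congr 1
      ring
    rw [hz, Matrix.mul_assoc, hθ, Matrix.mul_smul, ← Matrix.mul_assoc, exp_eig h1,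
      Matrix.smul_mul, smul_smul, ← Complex.exp_add, add_neg_cancel, Complex.exp_zero, one_smul,
      Matrix.mul_assoc]
  have hbr : ∀ a b : Matrix ι ι ℂ, z * a = a * z → z * b = b * z → z * br a b = br a b * z := by
    intro a b ha hb
    rw [br, Matrix.mul_sub, Matrix.sub_mul, ← Matrix.mul_assoc, ha, Matrix.mul_assoc, hb,
      ← Matrix.mul_assoc, ← Matrix.mul_assoc, hb, Matrix.mul_assoc b z a, ha]
    simp only [Matrix.mul_assoc]
  -- positive roots
  have hpos : ∀ a : ℝ, 0 < a → ∀ f ∈ h, f ∈ EA x a → z * f = f * z := by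
    by_contra hcon
    push Not at hcon
    obtain ⟨a₀, ha₀, f₀, hf₀, hfa₀, hne₀⟩ := hcon
    let Bad : Finset ℝ := Φ.filter fun a : ℝ => ∃ f ∈ h, f ∈ EA x (a : ℂ) ∧ z * f ≠ f * z
    have hBad : Bad.Nonempty := ⟨a₀, Finset.mem_filter.2 ⟨(hΦ a₀).2 ⟨ha₀, f₀, hf₀, hfa₀, by
      rintro rfl
      exact hne₀ (by rw [Matrix.mul_zero, Matrix.zero_mul])⟩, f₀, hf₀, hfa₀, hne₀⟩⟩
    obtain ⟨a, ha, hmin⟩ := Finset.exists_min_image Bad id hBad
    obtain ⟨haΦ, f, hf, hfa, hne⟩ := Finset.mem_filter.1 ha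
    have hapos := ((hΦ a).1 haΦ).1
    have hf0 : f ≠ 0 := by
      rintro rfl
      exact hne (by rw [Matrix.mul_zero, Matrix.zero_mul])
    by_cases hsim : IsSimple h x a
    · let j : Δ := ⟨a, Finset.mem_filter.2 ⟨haΦ, hsim⟩⟩
      obtain ⟨c, hc⟩ := root_unique hh hx hapos.ne' (he j) (hea j) (he0 j) hf hfa
      apply hne
      rw [hc, Matrix.mul_smul, Matrix.smul_mul, hsimple j]
    · have hdec : ∃ b c : ℝ, 0 < b ∧ 0 < c ∧ b + c = a ∧ ∃ e₁ ∈ h, e₁ ∈ EA x b ∧ ∃ e₂ ∈ h,
          e₂ ∈ EA x c ∧ br e₁ e₂ ≠ 0 := by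
        by_contra hcon
        push Not at hcon
        exact hsim ⟨hapos, ⟨f, hf, hfa, hf0⟩, fun b c hb hc hbc e₁ h1 h2 e₂ h3 h4 =>
          hcon b c hb hc hbc e₁ h1 h2 e₂ h3 h4⟩
      obtain ⟨b, c, hb, hc, hbc, e₁, h1, h2, e₂, h3, h4, h5⟩ := hdec
      have key : ∀ d : ℝ, 0 < d → d < a → ∀ u ∈ h, u ∈ EA x d → z * u = u * z := by
        intro d hd hda u hu hud
        by_contra hun
        have hmem : d ∈ Bad := Finset.mem_filter.2 ⟨(hΦ d).2 ⟨hd, u, hu, hud, by
          rintro rfl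
          exact hun (by rw [Matrix.mul_zero, Matrix.zero_mul])⟩, u, hu, hud, hun⟩
        have := hmin d hmem
        simp only [id] at this
        linarith
      have h6 := hbr e₁ e₂ (key b hb (by linarith) e₁ h1 h2) (key c hc (by linarith) e₂ h3 h4)
      have h7 : br e₁ e₂ ∈ EA x a := by
        have := EA_br h2 h4
        rw [← Complex.ofReal_add, hbc] at this
        exact this
      obtain ⟨m, hm⟩ := root_unique hh hx hapos.ne' (hh.lie _ h1 _ h3) h7 h5 hf hfa
      apply hne
      rw [hm, Matrix.mul_smul, Matrix.smul_mul, h6]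
  -- the centraliser
  have hzero : ∀ f ∈ h, x * f = f * x → z * f = f * z := by
    intro f hf hfx
    have h1 : f * g = g * f := hx.comm hh.star hf hfx hxg
    have h2 : f * t = t * f := hx.comm hh.star hf hfx htx
    have h3 : exp (-s) * f = f * exp (-s) := by
      apply exp_comm
      rw [hs, Matrix.neg_mul, Matrix.mul_neg, Matrix.smul_mul, Matrix.mul_smul, h2]
    rw [hz, Matrix.mul_assoc, ← h1, ← Matrix.mul_assoc, h3, Matrix.mul_assoc]
  intro w hw
  refine ad_ind hx.herm (h := h) (fun z hz => hh.lie x hx.mem z hz)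
    (P := fun w => z * w = w * z) (by rw [Matrix.mul_zero, Matrix.zero_mul])
    (fun a b ha hb => by rw [Matrix.mul_add, Matrix.add_mul, ha, hb]) ?_ hw
  intro d f hf hfd
  rcases lt_trichotomy d 0 with hd | hd | hd
  · have h1 : fᴴ ∈ EA x ((-d : ℝ) : ℂ) := EA_star hx.herm hfd
    have h2 := hpos (-d) (by linarith) _ (hh.star _ hf) h1
    have h3 := congrArg conjTranspose h2
    rw [Matrix.conjTranspose_mul, Matrix.conjTranspose_mul, Matrix.conjTranspose_conjTranspose]
      at h3
    -- `f zᴴ = zᴴ f`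
    calc z * f = z * (f * zᴴ) * z := by rw [Matrix.mul_assoc, Matrix.mul_assoc f, hzz, Matrix.mul_one]
      _ = (z * zᴴ) * f * z := by rw [h3]; simp only [Matrix.mul_assoc]
      _ = f * z := by rw [hzz', Matrix.one_mul]
  · subst hd
    refine hzero f hf ?_
    rw [Complex.ofReal_zero, zero_smul, sub_eq_zero] at hfd
    exact hfd
  · exact hpos d hd f hf hfd

end Pool.Agent.N996.FP
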