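import Pool.Agent.N996.FP.Wsp

/-!
# Derivations which commute with the Hodge endomorphisms
-/

set_option linter.unusedSectionVars false

namespace Pool.Agent.N996.FP

open Matrix Pool.Agent.N996.BP ComplexConjugate

variable {ι : Type} [Fintype ι] [DecidableEq ι] {H : HData ι}

/-- The adjoint in the original coordinates. -/
lemma cj_star (a : Matrix ι ι ℂ) :
    H.l Complex.I⁻¹ * cQ H.Qir * (cj H a)ᴴ * Sc H = cj H aᴴ := by
  have hSi : H.l Complex.I⁻¹ * cQ H.Qir = Mi H * (Mi H)ᴴ := by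
    have e1 : (H.l Complex.I⁻¹ * cQ H.Qir) * Sc H = 1 := by
      have hQQ : cQ H.Qr * cQ H.Qir = 1 := by rw [← cQ_mul, H.Qr_Qir, cQ_one]
      have hQQ' : cQ H.Qir * cQ H.Qr = 1 := mul_eq_one_comm.1 hQQ
      rw [Sc]
      calc H.l Complex.I⁻¹ * cQ H.Qir * (cQ H.Qr * H.l Complex.I) =
          H.l Complex.I⁻¹ * (cQ H.Qir * cQ H.Qr) * H.l Complex.I := by
            simp only [Matrix.mul_assoc]
        _ = 1 := by rw [hQQ', Matrix.mul_one, H.l_inv' Complex.I_ne_zero]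
    have e2 : Sc H * (Mi H * (Mi H)ᴴ) = 1 := by
      rw [Sc_eq]
      calc (Mm H)ᴴ * Mm H * (Mi H * (Mi H)ᴴ) = (Mm H)ᴴ * (Mm H * Mi H) * (Mi H)ᴴ := by
            simp only [Matrix.mul_assoc]
        _ = (Mi H * Mm H)ᴴ := by rw [Mm_Mi, Matrix.mul_one, Matrix.conjTranspose_mul]
        _ = 1 := by rw [Mi_Mm, Matrix.conjTranspose_one]
    calc H.l Complex.I⁻¹ * cQ H.Qir =
        (H.l Complex.I⁻¹ * cQ H.Qir) * (Sc H * (Mi H * (Mi H)ᴴ)) := by
          rw [e2, Matrix.mul_one]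
      _ = ((H.l Complex.I⁻¹ * cQ H.Qir) * Sc H) * (Mi H * (Mi H)ᴴ) := by
          simp only [Matrix.mul_assoc]
      _ = _ := by rw [e1, Matrix.one_mul]
  have e3 : (Mi H)ᴴ * (Mm H)ᴴ = 1 := by
    rw [← Matrix.conjTranspose_mul, Mm_Mi, Matrix.conjTranspose_one]
  rw [hSi, Sc_eq, cj, cj, Matrix.conjTranspose_mul, Matrix.conjTranspose_mul]
  calc Mi H * (Mi H)ᴴ * ((Mm H)ᴴ * (aᴴ * (Mi H)ᴴ)) * ((Mm H)ᴴ * Mm H) =
      Mi H * ((Mi H)ᴴ * (Mm H)ᴴ) * aᴴ * ((Mi H)ᴴ * (Mm H)ᴴ) * Mm H := by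
        simp only [Matrix.mul_assoc]
    _ = _ := by rw [e3, Matrix.mul_one, Matrix.mul_one]

/-- The adjoint of a skew matrix. -/
lemma adj_skew {z : Matrix ι ι ℂ}
    (h2 : (z.map conj) * cQ H.Qir + cQ H.Qir * (z.map conj)ᵀ = 0) :
    H.l Complex.I⁻¹ * cQ H.Qir * zᴴ * Sc H =
      -(H.l Complex.I⁻¹ * (z.map conj) * H.l Complex.I) := by
  have hQQ : cQ H.Qr * cQ H.Qir = 1 := by rw [← cQ_mul, H.Qr_Qir, cQ_one]
  have hQQ' : cQ H.Qir * cQ H.Qr = 1 := mul_eq_one_comm.1 hQQ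
  have h3 : zᴴ = (z.map conj)ᵀ := by
    ext i j; simp [Matrix.conjTranspose_apply]
  have h4 : cQ H.Qir * (z.map conj)ᵀ * cQ H.Qr = -(z.map conj) := by
    have h5 : cQ H.Qir * (z.map conj)ᵀ = -((z.map conj) * cQ H.Qir) := by
      rw [eq_neg_iff_add_eq_zero, add_comm]; exact h2
    rw [h5, Matrix.neg_mul, Matrix.mul_assoc, hQQ', Matrix.mul_one]
  rw [h3, Sc]
  calc H.l Complex.I⁻¹ * cQ H.Qir * (z.map conj)ᵀ * (cQ H.Qr * H.l Complex.I) =
      H.l Complex.I⁻¹ * (cQ H.Qir * (z.map conj)ᵀ * cQ H.Qr) * H.l Complex.I := by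
        simp only [Matrix.mul_assoc]
    _ = _ := by rw [h4, Matrix.mul_neg, Matrix.neg_mul]

/-- The grading is self-adjoint. -/
lemma Ng_herm : (cji H (Ng H (RingEquiv.refl ℂ)))ᴴ = cji H (Ng H (RingEquiv.refl ℂ)) := by
  obtain ⟨N, hN⟩ : ∃ N, N = Ng H (RingEquiv.refl ℂ) := ⟨_, rfl⟩
  rw [← hN]
  have h0 : N ∈ ho H := by rw [hN]; exact Ng_mem _
  have h1 : N.map conj = -N := by
    rw [hN]
    ext i j
    rw [Matrix.map_apply, Ng, Matrix.sum_apply, map_sum, Matrix.neg_apply, Matrix.sum_apply,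
      wr, ← H.sum_neg fun k => ((k : ℂ) • (H.π k).map (RingEquiv.refl ℂ)) i j,
      ← Finset.sum_neg_distrib]
    refine Finset.sum_congr rfl fun k hk => ?_
    rw [Matrix.smul_apply, Matrix.smul_apply, smul_eq_mul, smul_eq_mul, map_mul, map_intCast,
      ← H.hconj k hk]
    push_cast
    change (k : ℂ) * conj (H.π k i j) = -(-(k : ℂ) * conj (H.π k i j))
    ring
  have h2 : cj H (cji H N)ᴴ = N := by
    rw [← cj_star, cj_cji, adj_skew (ho_skew (ho_conj h0)), h1, Matrix.mul_neg, Matrix.neg_mul,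
      neg_neg]
    have h3 : H.l Complex.I⁻¹ * N = N * H.l Complex.I⁻¹ := by
      have e1 : ∀ k, (H.π k).map (RingEquiv.refl ℂ) = H.π k := fun k => by ext i j; rfl
      rw [hN, Ng, H.l_apply, Finset.sum_mul, Finset.mul_sum]
      refine Finset.sum_congr rfl fun k hk => ?_
      rw [Finset.mul_sum, Finset.sum_mul, Finset.sum_eq_single k, Finset.sum_eq_single k]
      · rw [e1, Matrix.smul_mul, Matrix.mul_smul, Matrix.smul_mul, Matrix.mul_smul, smul_comm]
      · intro m hm hne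
        rw [e1, Matrix.smul_mul, Matrix.mul_smul, H.hmul m hm k hk, if_neg hne, smul_zero,
          smul_zero]
      · intro hn; exact absurd hk hn
      · intro m hm hne
        rw [e1, Matrix.smul_mul, Matrix.mul_smul, H.hmul k hk m hm, if_neg (Ne.symm hne),
          smul_zero, smul_zero]
      · intro hn; exact absurd hk hn
    rw [h3, Matrix.mul_assoc, H.l_inv' Complex.I_ne_zero, Matrix.mul_one]
  have h3 := congrArg (cji H) h2
  rwa [cji_cj] at h3

lemma dk_map {κ : Type} [Fintype κ] [DecidableEq κ] (σ : ℂ ≃+* ℂ) (z : Matrix ι ι ℂ) :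
    dk κ (z.map σ) = (dk κ z).map σ := by
  ext i j
  rw [dk, dk, Matrix.sum_apply, Matrix.map_apply, Matrix.sum_apply, map_sum]
  refine Finset.sum_congr rfl fun k _ => ?_
  rw [slot_apply, slot_apply, map_mul, map_prod, Matrix.map_apply]
  congr 1
  refine Finset.prod_congr rfl fun m _ => ?_
  rw [Matrix.one_apply]
  split_ifs <;> simp

/-- The Lie algebra is stable under the automorphisms of the field. -/
lemma ho_map (σ : ℂ ≃+* ℂ) {z : Matrix ι ι ℂ} (hz : z ∈ ho H) : z.map σ ∈ ho H := by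
  intro κ _ _ a ha
  rw [dk_map]
  funext i
  have h2 := congrArg σ (congrFun (hz κ a ha) i)
  rw [Matrix.mulVec, dotProduct, map_sum] at h2
  rw [Matrix.mulVec, dotProduct]
  simp only [map_mul, ca, map_ratCast, Matrix.map_apply, Pi.zero_apply, map_zero] at h2 ⊢
  exact h2

namespace AData

variable {A : Type} [Ring A] [Algebra ℂ A] (D : AData H A)

/-- The derivations which commute with the Hodge endomorphisms and preserve the form. -/
def dl : Submodule ℂ (Matrix ι ι ℂ) where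
  carrier := {w | dk Unit w * cQ D.mu = cQ D.mu * dk (Unit ⊕ Unit) w ∧
    (∀ x : Matrix ι ι ℚ, IsHE H x → w * cQ x = cQ x * w) ∧
    w * cQ H.Qir + cQ H.Qir * wᵀ = 0}
  add_mem' {u v} := by
    rintro ⟨h1, h2, h3⟩ ⟨h1', h2', h3'⟩
    have e : ∀ (κ : Type) [Fintype κ] [DecidableEq κ], dk κ (u + v) = dk κ u + dk κ v :=
      fun κ _ _ => (dkL κ).map_add u v
    refine ⟨by rw [e, e, Matrix.add_mul, Matrix.mul_add, h1, h1'], fun x hx => ?_, ?_⟩
    · rw [Matrix.add_mul, Matrix.mul_add, h2 x hx, h2' x hx]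
    · rw [Matrix.add_mul, Matrix.transpose_add, Matrix.mul_add]
      calc u * cQ H.Qir + v * cQ H.Qir + (cQ H.Qir * uᵀ + cQ H.Qir * vᵀ) =
          (u * cQ H.Qir + cQ H.Qir * uᵀ) + (v * cQ H.Qir + cQ H.Qir * vᵀ) := by abel
        _ = 0 := by rw [h3, h3', add_zero]
  zero_mem' := by
    have e : ∀ (κ : Type) [Fintype κ] [DecidableEq κ], dk κ (0 : Matrix ι ι ℂ) = 0 :=
      fun κ _ _ => (dkL κ).map_zero
    refine ⟨by rw [e, e, Matrix.zero_mul, Matrix.mul_zero], fun x hx => ?_, ?_⟩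
    · rw [Matrix.zero_mul, Matrix.mul_zero]
    · rw [Matrix.zero_mul, Matrix.transpose_zero, Matrix.mul_zero, add_zero]
  smul_mem' c u := by
    rintro ⟨h1, h2, h3⟩
    have e : ∀ (κ : Type) [Fintype κ] [DecidableEq κ], dk κ (c • u) = c • dk κ u :=
      fun κ _ _ => (dkL κ).map_smul c u
    refine ⟨by rw [e, e, Matrix.smul_mul, Matrix.mul_smul, h1], fun x hx => ?_, ?_⟩
    · rw [Matrix.smul_mul, Matrix.mul_smul, h2 x hx]
    · rw [Matrix.smul_mul, Matrix.transpose_smul, Matrix.mul_smul, ← smul_add, h3, smul_zero]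

lemma mem_dl {w : Matrix ι ι ℂ} : w ∈ D.dl ↔
    dk Unit w * cQ D.mu = cQ D.mu * dk (Unit ⊕ Unit) w ∧
    (∀ x : Matrix ι ι ℚ, IsHE H x → w * cQ x = cQ x * w) ∧
    w * cQ H.Qir + cQ H.Qir * wᵀ = 0 := Iff.rfl

lemma ho_le_dl : ho H ≤ D.dl := fun _ hz =>
  ⟨itw_dk D.isItw_mu hz, fun _ hx => hx.comm_ho hz, ho_skew hz⟩

lemma der_dl {z : Matrix ι ι ℂ} (hz : z ∈ D.dl) (x y : A) :
    aop D.ε z (x * y) = aop D.ε z x * y + x * aop D.ε z y := by
  have h1 := congrArg (fun M => M *ᵥ tens (un (D.ε x)) (un (D.ε y))) hz.1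
  simp only [← Matrix.mulVec_mulVec] at h1
  rw [dk_tens, dk_un, dk_un, D.mu_tens, dk_un, ← ep_aop, ← ep_aop, ← ep_aop, Matrix.mulVec_add,
    D.mu_tens, D.mu_tens] at h1
  have h2 : ∀ a b : A, un (D.ε a) + un (D.ε b) = un (D.ε (a + b)) := by
    intro a b
    rw [map_add]
    rfl
  rw [h2] at h1
  exact D.ε.injective (un_inj h1)

lemma V_dl {z : Matrix ι ι ℂ} (hz : z ∈ D.dl) {v : ι → ℂ} (hv : v ∈ D.V) : z *ᵥ v ∈ D.V :=
  D.V_stab (hz.2.1 _ D.pr1_HE) hv

/-- The elements are determined by the degree one part. -/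
lemma dl_zero {z : Matrix ι ι ℂ} (hz : z ∈ D.dl) (h0 : ∀ v ∈ D.V, z *ᵥ v = 0) : z = 0 := by
  have hd := D.der_dl hz
  have h1 : aop D.ε z 1 = 0 := by
    have h2 := hd 1 1
    rw [mul_one, mul_one, one_mul] at h2
    exact left_eq_add.1 h2
  refine aop_inj (ε := D.ε) fun x => ?_
  have hx : x ∈ Algebra.adjoin ℂ {x | ∀ i, D.deg i ≠ 1 → D.ε x i = 0} := by
    rw [D.gen]; trivial
  have h3 : ∀ x, aop D.ε (0 : Matrix ι ι ℂ) x = 0 := fun x => by
    rw [aop_apply, Matrix.zero_mulVec, map_zero]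
  rw [h3]
  induction hx using Algebra.adjoin_induction with
  | mem x hx => rw [aop_apply, h0 _ hx, map_zero]
  | algebraMap r => rw [Algebra.algebraMap_eq_smul_one, map_smul, h1, smul_zero]
  | add x y _ _ hx hy => rw [map_add, hx, hy, add_zero]
  | mul x y _ _ hx hy => rw [hd, hx, hy, zero_mul, mul_zero, add_zero]

lemma dl_zero' {z : Matrix ι ι ℂ} (hz : z ∈ D.dl) (h0 : z * cQ D.pr1 = 0) : z = 0 :=
  D.dl_zero hz fun v hv => by
    rw [← D.mem_V'.1 hv, Matrix.mulVec_mulVec, h0, Matrix.zero_mulVec]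

lemma dl_br {u v : Matrix ι ι ℂ} (hu : u ∈ D.dl) (hv : v ∈ D.dl) : br u v ∈ D.dl := by
  refine ⟨?_, fun x hx => ?_, ?_⟩
  · rw [dk_br, dk_br, br, br, Matrix.sub_mul, Matrix.mul_sub, Matrix.mul_assoc, Matrix.mul_assoc,
      hv.1, hu.1, ← Matrix.mul_assoc, hu.1, ← Matrix.mul_assoc, hv.1, Matrix.mul_assoc,
      Matrix.mul_assoc]
  · rw [br, Matrix.sub_mul, Matrix.mul_sub, Matrix.mul_assoc, Matrix.mul_assoc, hv.2.1 x hx,
      hu.2.1 x hx, ← Matrix.mul_assoc, hu.2.1 x hx, ← Matrix.mul_assoc, hv.2.1 x hx,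
      Matrix.mul_assoc, Matrix.mul_assoc]
  · have e1 : cQ H.Qir * uᵀ = -(u * cQ H.Qir) := by
      rw [eq_neg_iff_add_eq_zero, add_comm]; exact hu.2.2
    have e2 : cQ H.Qir * vᵀ = -(v * cQ H.Qir) := by
      rw [eq_neg_iff_add_eq_zero, add_comm]; exact hv.2.2
    rw [br, Matrix.transpose_sub, Matrix.transpose_mul, Matrix.transpose_mul, Matrix.mul_sub,
      ← Matrix.mul_assoc, ← Matrix.mul_assoc, e1, e2, Matrix.neg_mul, Matrix.neg_mul,
      Matrix.mul_assoc, Matrix.mul_assoc, e1, e2, Matrix.mul_neg, Matrix.mul_neg,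
      ← Matrix.mul_assoc, ← Matrix.mul_assoc, Matrix.sub_mul]
    abel

/-- The conjugation by automorphisms. -/
lemma dl_ad {g g' : Matrix ι ι ℂ} (h : g' * g = 1)
    (hm : ∀ x y, aop D.ε g (x * y) = aop D.ε g x * aop D.ε g y)
    (hc : ∀ x : Matrix ι ι ℚ, IsHE H x → g * cQ x = cQ x * g)
    (hQ : g * cQ H.Qir * gᵀ = cQ H.Qir) {w : Matrix ι ι ℂ} (hw : w ∈ D.dl) :
    g * w * g' ∈ D.dl := by
  have h' : g * g' = 1 := mul_eq_one_comm.1 h
  refine ⟨?_, fun x hx => ?_, ?_⟩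
  · have h1 := D.itw_of_mul hm
    have h2 := kp_dk (κ := Unit) h w
    have h3 := kp_dk (κ := Unit ⊕ Unit) h w
    have h4 : kp (Unit ⊕ Unit) g * kp (Unit ⊕ Unit) g' = 1 := by rw [← kp_mul, h', kp_one]
    calc dk Unit (g * w * g') * cQ D.mu =
        dk Unit (g * w * g') * (cQ D.mu * kp (Unit ⊕ Unit) g) * kp (Unit ⊕ Unit) g' := by
          rw [Matrix.mul_assoc (dk Unit (g * w * g')), Matrix.mul_assoc (cQ D.mu), h4,
            Matrix.mul_one]
      _ = (dk Unit (g * w * g') * kp Unit g) * cQ D.mu * kp (Unit ⊕ Unit) g' := by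
          rw [← h1]; simp only [Matrix.mul_assoc]
      _ = kp Unit g * (dk Unit w * cQ D.mu) * kp (Unit ⊕ Unit) g' := by
          rw [← h2]; simp only [Matrix.mul_assoc]
      _ = (kp Unit g * cQ D.mu) * dk (Unit ⊕ Unit) w * kp (Unit ⊕ Unit) g' := by
          rw [hw.1]; simp only [Matrix.mul_assoc]
      _ = cQ D.mu * (kp (Unit ⊕ Unit) g * dk (Unit ⊕ Unit) w) * kp (Unit ⊕ Unit) g' := by
          rw [h1]; simp only [Matrix.mul_assoc]
      _ = cQ D.mu * dk (Unit ⊕ Unit) (g * w * g') *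
          (kp (Unit ⊕ Unit) g * kp (Unit ⊕ Unit) g') := by
          rw [h3]; simp only [Matrix.mul_assoc]
      _ = _ := by rw [h4, Matrix.mul_one]
  · have h5 : g' * cQ x = cQ x * g' := by
      calc g' * cQ x = g' * (cQ x * g) * g' := by
            rw [Matrix.mul_assoc, Matrix.mul_assoc, h', Matrix.mul_one]
        _ = (g' * g) * cQ x * g' := by rw [← hc x hx]; simp only [Matrix.mul_assoc]
        _ = _ := by rw [h, Matrix.one_mul]
    calc g * w * g' * cQ x = g * (w * cQ x) * g' := by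
          rw [Matrix.mul_assoc, h5]; simp only [Matrix.mul_assoc]
      _ = (g * cQ x) * w * g' := by rw [hw.2.1 x hx]; simp only [Matrix.mul_assoc]
      _ = _ := by rw [hc x hx]; simp only [Matrix.mul_assoc]
  · have h6 : g' * cQ H.Qir = cQ H.Qir * gᵀ := by
      calc g' * cQ H.Qir = g' * (g * cQ H.Qir * gᵀ) := by rw [hQ]
        _ = (g' * g) * cQ H.Qir * gᵀ := by simp only [Matrix.mul_assoc]
        _ = _ := by rw [h, Matrix.one_mul]
    have h7 : cQ H.Qir * g'ᵀ = g * cQ H.Qir := by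
      have e2 : gᵀ * g'ᵀ = 1 := by
        rw [← Matrix.transpose_mul, h, Matrix.transpose_one]
      calc cQ H.Qir * g'ᵀ = (g * cQ H.Qir * gᵀ) * g'ᵀ := by rw [hQ]
        _ = g * cQ H.Qir * (gᵀ * g'ᵀ) := by simp only [Matrix.mul_assoc]
        _ = _ := by rw [e2, Matrix.mul_one]
    calc g * w * g' * cQ H.Qir + cQ H.Qir * (g * w * g')ᵀ =
        g * w * (g' * cQ H.Qir) + (cQ H.Qir * g'ᵀ) * wᵀ * gᵀ := by
          rw [Matrix.transpose_mul, Matrix.transpose_mul]; simp only [Matrix.mul_assoc]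
      _ = g * (w * cQ H.Qir + cQ H.Qir * wᵀ) * gᵀ := by
          rw [h6, h7, Matrix.mul_add, Matrix.add_mul]; simp only [Matrix.mul_assoc]
      _ = 0 := by rw [hw.2.2, Matrix.mul_zero, Matrix.zero_mul]

lemma dl_map (σ : ℂ ≃+* ℂ) {w : Matrix ι ι ℂ} (hw : w ∈ D.dl) : w.map σ ∈ D.dl := by
  refine ⟨?_, fun x hx => ?_, ?_⟩
  · have h1 := congrArg (fun M => M.map σ) hw.1
    have hm : ∀ {a b c : Type} [Fintype b] (x : Matrix a b ℂ) (y : Matrix b c ℂ),
        (x * y).map σ = x.map σ * y.map σ := by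
      intro a b c _ x y
      exact Matrix.map_mul (L := x) (M := y) (f := σ.toRingHom)
    simp only [hm, cQ_map] at h1
    rw [dk_map, dk_map]
    exact h1
  · have h1 := congrArg (fun M => M.map σ) (hw.2.1 x hx)
    simp only [map_mul', cQ_map] at h1
    exact h1
  · have h1 := congrArg (fun M => M.map σ) hw.2.2
    have h2 : (w * cQ H.Qir + cQ H.Qir * wᵀ).map σ =
        w.map σ * cQ H.Qir + cQ H.Qir * (w.map σ)ᵀ := by
      have e1 : ∀ x y : Matrix ι ι ℂ, (x + y).map σ = x.map σ + y.map σ := by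
        intro x y
        ext i j
        simp
      rw [e1, map_mul', map_mul', cQ_map, Matrix.transpose_map]
    rw [← h2]
    refine h1.trans ?_
    ext i j
    simp

lemma dl_conj {w : Matrix ι ι ℂ} (hw : w ∈ D.dl) : w.map conj ∈ D.dl :=
  D.dl_map (starRingAut : ℂ ≃+* ℂ) hw

lemma dl_adj {w : Matrix ι ι ℂ} (hw : w ∈ D.dl) :
    H.l Complex.I⁻¹ * cQ H.Qir * wᴴ * Sc H ∈ D.dl := by
  have h1 := D.dl_conj hw
  rw [adj_skew h1.2.2]
  have hI : Complex.I⁻¹ ≠ 0 := inv_ne_zero Complex.I_ne_zero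
  have hl : H.l Complex.I⁻¹ ∈ So H :=
    GG_So (Submonoid.subset_closure (l_mem_gens H hI))
  refine Submodule.neg_mem _ (D.dl_ad (H.l_inv Complex.I_ne_zero) (D.lm _ hI)
    (fun x hx => hx _ hI) (fix_Q H (hl _)) h1)

/-- The Lie algebra in orthonormal coordinates. -/
noncomputable def dn : Submodule ℂ (Matrix ι ι ℂ) where
  carrier := {x | cj H x ∈ D.dl}
  add_mem' {x y} hx hy := by
    change cj H (x + y) ∈ D.dl
    rw [cj, Matrix.mul_add, Matrix.add_mul]
    exact Submodule.add_mem _ hx hy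
  zero_mem' := by
    change cj H 0 ∈ D.dl
    rw [cj, Matrix.mul_zero, Matrix.zero_mul]
    exact Submodule.zero_mem _
  smul_mem' c x hx := by
    change cj H (c • x) ∈ D.dl
    rw [cj, Matrix.mul_smul, Matrix.smul_mul]
    exact Submodule.smul_mem _ c hx

lemma mem_dn {x : Matrix ι ι ℂ} : x ∈ D.dn ↔ cj H x ∈ D.dl := Iff.rfl

lemma isLA_dn : IsLA D.dn where
  lie a ha b hb := by
    rw [mem_dn, cj_br]
    exact D.dl_br ha hb
  star a ha := by
    rw [mem_dn, ← cj_star]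
    exact D.dl_adj ha

lemma hn_le_dn : hn H ≤ D.dn := fun _ hx => D.ho_le_dl hx

/-- The elements commute with the commutant of the Lie algebra. -/
lemma dn_cc {w : Matrix ι ι ℂ} (hw : w ∈ D.dn) {y : Matrix ι ι ℂ}
    (hy : ∀ a ∈ hn H, y * a = a * y) : w * y = y * w := by
  have h3 : ∀ w ∈ ho H, cj H y * w = w * cj H y := by
    intro w hw
    have h4 := hy (cji H w) (by rw [mem_hn, cj_cji]; exact hw)
    have h5 := congrArg (cj H) h4
    rwa [cj_mul, cj_mul, cj_cji] at h5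
  have h4 := comm_span fun g hg => comm_GG h3 hg
  have h5 : cj H w * cj H y = cj H y * cj H w := by
    have key : ∀ u ∈ Submodule.span ℂ (cQ '' {x | IsHE H x}), cj H w * u = u * cj H w := by
      intro u hu
      induction hu using Submodule.span_induction with
      | mem x hx =>
        obtain ⟨y, hy, rfl⟩ := hx
        exact hw.2.1 y hy
      | zero => rw [Matrix.zero_mul, Matrix.mul_zero]
      | add a b _ _ ha hb => rw [Matrix.add_mul, Matrix.mul_add, ha, hb]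
      | smul c a _ ha => rw [Matrix.smul_mul, Matrix.mul_smul, ha]
    exact key _ h4
  have h6 := congrArg (cji H) h5
  rwa [cji_mul, cji_mul, cji_cj, cji_cj] at h6

end AData

end Pool.Agent.N996.FP
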