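import Pool.Agent.N996.FP.Sa

/-!
# The product of the vectors of type (1,0)
-/

set_option linter.unusedSectionVars false

namespace Pool.Agent.N996.FP

open Matrix Pool.Agent.N996.BP ComplexConjugate ComplexOrder

variable {ι : Type} [Fintype ι] [DecidableEq ι] {h h' : Submodule ℂ (Matrix ι ι ℂ)}
  {A : Type} [Ring A] [Algebra ℂ A] {N P z : Matrix ι ι ℂ}

/-- Derivations which stabilise the span of the factors of a product. -/
lemma pv_tr (D : PD h' z A) {W : Submodule ℂ (ι → ℂ)} (hW : W ≤ D.V) {m : ℕ}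
    (b : Module.Basis (Fin m) ℂ W) {w : Matrix ι ι ℂ} (hw : w ∈ h')
    (hst : ∀ v ∈ W, w *ᵥ v ∈ W) :
    w *ᵥ D.pv (fun j => ⟨(b j : ι → ℂ), hW (b j).2⟩) =
      (∑ j, b.repr ⟨w *ᵥ (b j : ι → ℂ), hst _ (b j).2⟩ j) •
        D.pv (fun j => ⟨(b j : ι → ℂ), hW (b j).2⟩) := by
  obtain ⟨v, hv⟩ : ∃ v : Fin m → D.V, v = fun j => ⟨(b j : ι → ℂ), hW (b j).2⟩ := ⟨_, rfl⟩
  have hvb : ∀ j, (v j : ι → ℂ) = b j := fun j => by rw [hv]
  rw [← hv, D.pv_der v hw, Finset.sum_smul]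
  refine Finset.sum_congr rfl fun j _ => ?_
  obtain ⟨u, hu⟩ : ∃ u : D.V, u = ⟨w *ᵥ (v j : ι → ℂ), D.stab w hw _ (v j).2⟩ := ⟨_, rfl⟩
  obtain ⟨u', hu'⟩ : ∃ u' : W, u' = ⟨w *ᵥ (b j : ι → ℂ), hst _ (b j).2⟩ := ⟨_, rfl⟩
  rw [← hu, ← hu']
  have huu : u = ∑ i, b.repr u' i • v i := by
    apply Subtype.ext
    have h1 := congrArg (fun x : W => (x : ι → ℂ)) (b.sum_repr u')
    simp only [Submodule.coe_sum, Submodule.coe_smul] at h1 ⊢
    rw [hu]
    change w *ᵥ (v j : ι → ℂ) = _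
    rw [hvb]
    have h2 : (u' : ι → ℂ) = w *ᵥ (b j : ι → ℂ) := by rw [hu']
    rw [← h2, ← h1]
    exact Finset.sum_congr rfl fun i _ => by rw [hvb]
  let Φ : D.V →ₗ[ℂ] (ι → ℂ) := D.ε.toLinearMap ∘ₗ
    (pA (iL D.ε D.V) D.sq m).toMultilinearMap.toLinearMap v j
  have hΦ : ∀ u, Φ u = D.pv (Function.update v j u) := by
    intro u
    rw [PD.pv, ← pA_apply _ D.sq]
    rfl
  rw [← hΦ, huu, map_sum, Finset.sum_eq_single j]
  · rw [map_smul, hΦ, Function.update_eq_self]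
  · intro i _ hij
    rw [map_smul]
    have h3 : Φ (v i) = 0 := by
      rw [hΦ, PD.pv, ← pA_apply _ D.sq,
        AlternatingMap.map_eq_zero_of_eq _ _ (i := i) (j := j) ?_ hij, map_zero]
      rw [Function.update_self, Function.update_of_ne hij]
    rw [h3, smul_zero]
  · intro hn; exact absurd (Finset.mem_univ _) hn

/-- **The product of the vectors of type (1,0).** -/
theorem exists_evec (D : PD h' z A) (hN : N ∈ h') (hPV : ∀ v, P *ᵥ v ∈ D.V)
    (hPv : ∀ v ∈ D.V, P *ᵥ v = v) (hPc : ∀ w ∈ h', P * w = w * P) (hPP : P * P = P)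
    (hNN : N * N * P = P) :
    ∃ e : ι → ℂ, e ≠ 0 ∧ (∃ m : ℝ, N *ᵥ e = (m : ℂ) • e) ∧
      (∀ w ∈ h', br N w = (2 : ℂ) • w → w *ᵥ e = 0) ∧
      ∀ w ∈ h', br N w = 0 → w *ᵥ e = (w * ((2⁻¹ : ℂ) • (P + N * P))).trace • e := by
  obtain ⟨Q, hQ⟩ : ∃ Q, Q = (2⁻¹ : ℂ) • (P + N * P) := ⟨_, rfl⟩
  have hPN := hPc N hN
  have hNQ : N * Q = Q := by
    rw [hQ, Matrix.mul_smul, Matrix.mul_add, ← Matrix.mul_assoc, hNN, add_comm]
  have hPQ : P * Q = Q := by
    rw [hQ, Matrix.mul_smul, Matrix.mul_add, ← Matrix.mul_assoc, hPP, hPN, Matrix.mul_assoc, hPP]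
  let W : Submodule ℂ (ι → ℂ) :=
    { carrier := {v | v ∈ D.V ∧ N *ᵥ v = v}
      add_mem' := by
        rintro a b ⟨h1, h2⟩ ⟨h3, h4⟩
        exact ⟨Submodule.add_mem _ h1 h3, by rw [Matrix.mulVec_add, h2, h4]⟩
      zero_mem' := ⟨Submodule.zero_mem _, Matrix.mulVec_zero _⟩
      smul_mem' := by
        rintro c a ⟨h1, h2⟩
        exact ⟨Submodule.smul_mem _ _ h1, by rw [Matrix.mulVec_smul, h2]⟩ }
  have hWV : W ≤ D.V := fun v hv => hv.1
  have hQW : ∀ v, Q *ᵥ v ∈ W := by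
    intro v
    refine ⟨?_, by rw [Matrix.mulVec_mulVec, hNQ]⟩
    rw [← hPQ, ← Matrix.mulVec_mulVec]
    exact hPV _
  have hQv : ∀ v ∈ W, Q *ᵥ v = v := by
    rintro v ⟨h1, h2⟩
    rw [hQ, Matrix.smul_mulVec, Matrix.add_mulVec, ← Matrix.mulVec_mulVec, hPv v h1, h2, ← two_smul ℂ,
      smul_smul]
    norm_num
  let b := Module.finBasis ℂ W
  obtain ⟨v, hv⟩ : ∃ v : Fin (Module.finrank ℂ W) → D.V,
    v = fun j => ⟨(b j : ι → ℂ), hWV (b j).2⟩ := ⟨_, rfl⟩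
  have hvb : ∀ j, (v j : ι → ℂ) = b j := fun j => by rw [hv]
  have hli : LinearIndependent ℂ v := by
    have h1 : LinearIndependent ℂ (fun j => (v j : ι → ℂ)) := by
      simp only [hvb]
      exact b.linearIndependent.map' W.subtype (Submodule.ker_subtype W)
    exact LinearIndependent.of_comp D.V.subtype h1
  refine ⟨D.pv v, D.pv_ne hli, ⟨Module.finrank ℂ W, ?_⟩, fun w hw hw2 => ?_, fun w hw hw0 => ?_⟩
  · rw [D.pv_eig hN (s := fun _ => 1) fun j => by rw [hvb, one_smul]; exact (b j).2.2]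
    rw [Finset.sum_const, Finset.card_univ, Fintype.card_fin, nsmul_eq_mul, mul_one]
    push_cast
    rfl
  · have h1 : ∀ j, w *ᵥ (v j : ι → ℂ) = (0 : ℂ) • (v j : ι → ℂ) := by
      intro j
      rw [zero_smul, hvb]
      have h2 := (b j).2
      obtain ⟨y, hy⟩ : ∃ y, y = w *ᵥ (b j : ι → ℂ) := ⟨_, rfl⟩
      have hyV : y ∈ D.V := by rw [hy]; exact D.stab w hw _ h2.1
      have h3 : N *ᵥ y = (3 : ℂ) • y := by
        have h4 : N * w = w * N + (2 : ℂ) • w := by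
          rw [← hw2, br]; abel
        rw [hy, Matrix.mulVec_mulVec, h4, Matrix.add_mulVec, ← Matrix.mulVec_mulVec, h2.2,
          Matrix.smul_mulVec]
        module
      have h5 : y = (9 : ℂ) • y := by
        conv_lhs => rw [← hPv y hyV, ← hNN, ← Matrix.mulVec_mulVec, ← Matrix.mulVec_mulVec,
          hPv y hyV, h3, Matrix.mulVec_smul, h3, smul_smul]
        norm_num
      have h6 : (8 : ℂ) • y = 0 := by
        have h7 : (8 : ℂ) • y = (9 : ℂ) • y - y := by module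
        rw [h7, ← h5, sub_self]
      rw [← hy]
      exact (smul_eq_zero.1 h6).resolve_left (by norm_num)
    rw [D.pv_eig hw (s := fun _ => 0) h1, Finset.sum_const_zero, zero_smul]
  · have hst : ∀ v ∈ W, w *ᵥ v ∈ W := by
      rintro v ⟨h1, h2⟩
      refine ⟨D.stab w hw _ h1, ?_⟩
      have h4 : N * w = w * N := by
        rw [br, sub_eq_zero] at hw0
        exact hw0
      rw [Matrix.mulVec_mulVec, h4, ← Matrix.mulVec_mulVec, h2]
    have h1 := pv_tr D hWV b hw hst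
    rw [← hv] at h1
    rw [h1]
    congr 1
    rw [← hQ]
    have hg : ∀ v, (w * Q) *ᵥ v ∈ W := fun v => by
      rw [← Matrix.mulVec_mulVec]
      exact hst _ (hQW v)
    rw [trace_basis b _ hg]
    refine Finset.sum_congr rfl fun j _ => ?_
    congr 2
    apply Subtype.ext
    change w *ᵥ (b j : ι → ℂ) = (w * Q) *ᵥ (b j : ι → ℂ)
    rw [← Matrix.mulVec_mulVec, hQv _ (b j).2]

end Pool.Agent.N996.FP
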