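import Pool.Agent.N996.FP.Sb

/-!
# Elements of degree two of the double commutant
-/

set_option linter.unusedSectionVars false

namespace Pool.Agent.N996.FP

open Matrix Pool.Agent.N996.BP ComplexConjugate ComplexOrder

variable {ι : Type} [Fintype ι] [DecidableEq ι] {h h' : Submodule ℂ (Matrix ι ι ℂ)}
  {A : Type} [Ring A] [Algebra ℂ A] {N P z : Matrix ι ι ℂ}

/-- The bracket with `N`. -/
def aN (N : Matrix ι ι ℂ) : Matrix ι ι ℂ →ₗ[ℂ] Matrix ι ι ℂ where
  toFun y := br N y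
  map_add' a b := by
    rw [br, br, br, Matrix.mul_add, Matrix.add_mul]; abel
  map_smul' c a := by
    rw [br, br, Matrix.mul_smul, Matrix.smul_mul, RingHom.id_apply, smul_sub]

lemma aN_apply (y : Matrix ι ι ℂ) : aN N y = br N y := rfl

/-- The third power of the adjoint operator. -/
lemma ad_cube (hlie : ∀ a ∈ h', ∀ b ∈ h', br a b ∈ h') (hN : N ∈ h')
    (hPc : ∀ w ∈ h', P * w = w * P) (hNN : N * N * P = P)
    (hf : ∀ w ∈ h', w * P = 0 → w = 0) {y : Matrix ι ι ℂ} (hy : y ∈ h') :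
    br N (br N (br N y)) = (4 : ℂ) • br N y := by
  have h1 := hlie N hN y hy
  have h2 := hlie N hN _ h1
  have h3 := hlie N hN _ h2
  rw [← sub_eq_zero]
  refine hf _ (Submodule.sub_mem _ h3 (Submodule.smul_mem _ _ h1)) ?_
  have hPy := hPc y hy
  have hPN := hPc N hN
  have c1 : ∀ a, P * a = a * P → N * N * a * P = a * P := fun a ha => by
    rw [Matrix.mul_assoc, ← ha, ← Matrix.mul_assoc, hNN, ha]
  have c2 : ∀ a, a * N * N * P = a * P := fun a => by
    rw [Matrix.mul_assoc a, Matrix.mul_assoc a, hNN]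
  have p1 : P * (N * y) = N * y * P := by
    rw [← Matrix.mul_assoc, hPN, Matrix.mul_assoc, hPy, Matrix.mul_assoc]
  have p2 : P * (y * N) = y * N * P := by
    rw [← Matrix.mul_assoc, hPy, Matrix.mul_assoc, hPN, Matrix.mul_assoc]
  have e1 : (br N (br N (br N y)) - (4 : ℂ) • br N y) * P =
      N * N * (N * y) * P - N * N * (y * N) * P - N * N * (y * N) * P - N * N * (y * N) * P +
        N * y * N * N * P + N * y * N * N * P + N * y * N * N * P - y * N * N * N * P -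
        (4 : ℂ) • (N * y * P - y * N * P) := by
    simp only [br, Matrix.sub_mul, Matrix.mul_sub, Matrix.smul_mul, Matrix.mul_assoc]
    abel
  rw [e1, c1 _ p1, c1 _ p2, c2, c2]
  have e2 : y * N * N * N * P = y * N * P := c2 (y * N)
  module

/-- The decomposition for the adjoint operator. -/
lemma exists_ad (hle : h ≤ h') (hl : ∀ a ∈ h, ∀ b ∈ h, br a b ∈ h)
    (hlie : ∀ a ∈ h', ∀ b ∈ h', br a b ∈ h') (hN : N ∈ h)
    (hPc : ∀ w ∈ h', P * w = w * P) (hNN : N * N * P = P)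
    (hf : ∀ w ∈ h', w * P = 0 → w = 0) {y : Matrix ι ι ℂ} (hy : y ∈ h) :
    ∃ a ∈ h, ∃ b ∈ h, ∃ c ∈ h, y = a + b + c ∧ br N a = (-2 : ℂ) • a ∧ br N b = 0 ∧
      br N c = (2 : ℂ) • c ∧ br N y = (2 : ℂ) • c - (2 : ℂ) • a := by
  have h3 := ad_cube hlie (hle hN) hPc hNN hf (hle hy)
  obtain ⟨d1, hd1⟩ : ∃ d1, d1 = br N y := ⟨_, rfl⟩
  obtain ⟨d2, hd2⟩ : ∃ d2, d2 = br N d1 := ⟨_, rfl⟩
  rw [← hd1, ← hd2] at h3
  have m1 : d1 ∈ h := by rw [hd1]; exact hl _ hN _ hy
  have m2 : d2 ∈ h := by rw [hd2]; exact hl _ hN _ m1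
  have a1 : aN N y = d1 := hd1.symm
  have a2 : aN N d1 = d2 := hd2.symm
  have a3 : aN N d2 = (4 : ℂ) • d1 := h3
  refine ⟨(8⁻¹ : ℂ) • d2 - (4⁻¹ : ℂ) • d1, Submodule.sub_mem _ (Submodule.smul_mem _ _ m2)
    (Submodule.smul_mem _ _ m1), y - (4⁻¹ : ℂ) • d2, Submodule.sub_mem _ hy
    (Submodule.smul_mem _ _ m2), (8⁻¹ : ℂ) • d2 + (4⁻¹ : ℂ) • d1, Submodule.add_mem _
    (Submodule.smul_mem _ _ m2) (Submodule.smul_mem _ _ m1), ?_, ?_, ?_, ?_, ?_⟩
  · module
  · rw [← aN_apply, map_sub, map_smul, map_smul, a2, a3]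
    module
  · rw [← aN_apply, map_sub, map_smul, a1, a3]
    module
  · rw [← aN_apply, map_add, map_smul, map_smul, a2, a3]
    module
  · rw [← hd1]
    module

/-- Products which vanish. -/
lemma kill (hNN : N * N * P = P) {Y R : Matrix ι ι ℂ} (hPY : P * Y = Y * P)
    (hPR : P * R = R) {c : ℂ} (hc : c * c ≠ 1) (h1 : N * (Y * R) = c • (Y * R)) :
    Y * R = 0 := by
  have h2 : N * (N * (Y * R)) = (c * c) • (Y * R) := by
    rw [h1, Matrix.mul_smul, h1, smul_smul]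
  have h3 : N * (N * (Y * R)) = Y * R := by
    calc N * (N * (Y * R)) = N * N * (Y * (P * R)) := by rw [hPR, Matrix.mul_assoc]
      _ = N * N * P * (Y * R) := by
        rw [← Matrix.mul_assoc Y, ← hPY]; simp only [Matrix.mul_assoc]
      _ = P * Y * R := by rw [hNN, Matrix.mul_assoc]
      _ = Y * (P * R) := by rw [hPY, Matrix.mul_assoc]
      _ = _ := by rw [hPR]
  rw [h3] at h2
  have h4 : (c * c - 1) • (Y * R) = 0 := by rw [sub_smul, ← h2, one_smul, sub_self]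
  exact (smul_eq_zero.1 h4).resolve_left (sub_ne_zero.2 hc)

/-- **Elements of degree minus two of the double commutant.** -/
theorem mem_top (hh : IsLA h) (hh' : IsLA h') (hle : h ≤ h') (D : PD h' z A) (hN : N ∈ h)
    (hNH : Nᴴ = N) (hPH : Pᴴ = P) (hPV : ∀ v, P *ᵥ v ∈ D.V) (hPv : ∀ v ∈ D.V, P *ᵥ v = v)
    (hPc : ∀ w ∈ h', P * w = w * P) (hPP : P * P = P) (hNN : N * N * P = P)
    (hcc : ∀ w ∈ h', ∀ y : Matrix ι ι ℂ, (∀ a ∈ h, y * a = a * y) → w * y = y * w)
    (hf : ∀ w ∈ h', w * P = 0 → w = 0) {X : Matrix ι ι ℂ} (hX : X ∈ h')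
    (hXN : br N X = (-2 : ℂ) • X) : X ∈ h := by
  obtain ⟨e, he0, ⟨m, hm⟩, he2, hetr⟩ := exists_evec D (hle hN) hPV hPv hPc hPP hNN
  obtain ⟨Q, hQ⟩ : ∃ Q, Q = (2⁻¹ : ℂ) • (P + N * P) := ⟨_, rfl⟩
  have hPN := hPc N (hle hN)
  have hNQ : N * Q = Q := by
    rw [hQ, Matrix.mul_smul, Matrix.mul_add, ← Matrix.mul_assoc, hNN, add_comm]
  have hPQ : P * Q = Q := by
    rw [hQ, Matrix.mul_smul, Matrix.mul_add, ← Matrix.mul_assoc, hPP, hPN, Matrix.mul_assoc, hPP]
  have hNR : N * (P - Q) = -(P - Q) := by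
    rw [Matrix.mul_sub, hNQ, hQ]
    module
  have hPR : P * (P - Q) = P - Q := by rw [Matrix.mul_sub, hPQ, hPP]
  -- the trace formula
  have htr : ∀ Z ∈ h', br N Z = (2 : ℂ) • Z → ∀ Y ∈ h', br N Y = (-2 : ℂ) • Y →
      Z *ᵥ (Y *ᵥ e) = (Z * Y * P).trace • e := by
    intro Z hZ hZN Y hY hYN
    have hZN' : N * Z = Z * N + (2 : ℂ) • Z := by rw [← hZN, br]; abel
    have hYN' : N * Y = Y * N + (-2 : ℂ) • Y := by rw [← hYN, br]; abel
    have h1 : br N (br Z Y) = 0 := by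
      have e1 : br N (br Z Y) = (N * Z) * Y - Z * (Y * N) - (N * Y) * Z + Y * (Z * N) := by
        simp only [br, Matrix.sub_mul, Matrix.mul_sub, Matrix.mul_assoc]
        abel
      rw [e1, hZN', hYN', Matrix.add_mul, Matrix.add_mul]
      have e2 : Z * N * Y = Z * (Y * N) + (-2 : ℂ) • (Z * Y) := by
        rw [Matrix.mul_assoc, hYN', Matrix.mul_add, Matrix.mul_smul]
      have e3 : Y * N * Z = Y * (Z * N) + (2 : ℂ) • (Y * Z) := by
        rw [Matrix.mul_assoc, hZN', Matrix.mul_add, Matrix.mul_smul]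
      rw [e2, e3, Matrix.smul_mul, Matrix.smul_mul]
      module
    have h2 : Z *ᵥ (Y *ᵥ e) = br Z Y *ᵥ e := by
      rw [br, Matrix.sub_mulVec, ← Matrix.mulVec_mulVec, ← Matrix.mulVec_mulVec, he2 Z hZ hZN,
        Matrix.mulVec_zero, sub_zero]
    rw [h2, hetr _ (hh'.lie _ hZ _ hY) h1]
    congr 1
    rw [← hQ]
    have h3 : Z * Q = 0 := kill hNN (hPc Z hZ) hPQ (c := 3) (by norm_num) (by
      rw [← Matrix.mul_assoc, hZN', Matrix.add_mul, Matrix.mul_assoc, hNQ, Matrix.smul_mul]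
      module)
    have h4 : Y * (P - Q) = 0 := kill hNN (hPc Y hY) hPR (c := -3) (by norm_num) (by
      rw [← Matrix.mul_assoc, hYN', Matrix.add_mul, Matrix.mul_assoc, hNR, Matrix.smul_mul,
        Matrix.mul_neg]
      module)
    have h5 : Y * P = Y * Q := by
      rw [Matrix.mul_sub, sub_eq_zero] at h4
      exact h4
    rw [br, Matrix.sub_mul, Matrix.mul_assoc Y, h3, Matrix.mul_zero, sub_zero, Matrix.mul_assoc,
      Matrix.mul_assoc, h5]
  -- the orthogonal projection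
  let Hm : Submodule ℂ (Matrix ι ι ℂ) :=
    { carrier := {w | w ∈ h ∧ br N w = (-2 : ℂ) • w}
      add_mem' := by
        rintro a b ⟨h1, h2⟩ ⟨h3, h4⟩
        refine ⟨Submodule.add_mem _ h1 h3, ?_⟩
        rw [← aN_apply, map_add, aN_apply, aN_apply, h2, h4, smul_add]
      zero_mem' := ⟨Submodule.zero_mem _, by rw [← aN_apply, map_zero, smul_zero]⟩
      smul_mem' := by
        rintro c a ⟨h1, h2⟩
        refine ⟨Submodule.smul_mem _ _ h1, ?_⟩
        rw [← aN_apply, map_smul, aN_apply, h2, smul_comm] }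
  obtain ⟨s₁, ⟨X₁, hX₁, rfl⟩, hort⟩ := exists_orthM (Hm.map (LinearMap.mulRight ℂ P)) (X * P)
  obtain ⟨Y, hY⟩ : ∃ Y, Y = X - X₁ := ⟨_, rfl⟩
  have hYh : Y ∈ h' := by rw [hY]; exact Submodule.sub_mem _ hX (hle hX₁.1)
  have hYN : br N Y = (-2 : ℂ) • Y := by
    rw [hY, ← aN_apply, map_sub, aN_apply, aN_apply, hXN, hX₁.2, smul_sub]
  have hYN' : N * Y = Y * N + (-2 : ℂ) • Y := by rw [← hYN, br]; abel
  have hort' : ∀ w ∈ h, br N w = (-2 : ℂ) • w → (wᴴ * Y * P).trace = 0 := by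
    intro w hw hwN
    have h1 := hort (w * P) ⟨w, ⟨hw, hwN⟩, rfl⟩
    have h2 : (w * P)ᴴ * (X * P - LinearMap.mulRight ℂ P X₁) = P * (wᴴ * Y * P) := by
      rw [LinearMap.mulRight_apply, ← Matrix.sub_mul, ← hY, Matrix.conjTranspose_mul, hPH]
      simp only [Matrix.mul_assoc]
    rw [h2, Matrix.trace_mul_comm, Matrix.mul_assoc, hPP] at h1
    exact h1
  have hstar : ∀ w, br N w = (2 : ℂ) • w → br N wᴴ = (-2 : ℂ) • wᴴ := by
    intro w hw
    have h1 := congrArg conjTranspose hw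
    rw [br, Matrix.conjTranspose_sub, Matrix.conjTranspose_mul, Matrix.conjTranspose_mul, hNH,
      Matrix.conjTranspose_smul] at h1
    have h2 : star (2 : ℂ) = 2 := by simp
    rw [h2] at h1
    rw [br, neg_smul, ← h1, neg_sub]
  have hstar' : ∀ w, br N w = (-2 : ℂ) • w → br N wᴴ = (2 : ℂ) • wᴴ := by
    intro w hw
    have h1 := congrArg conjTranspose hw
    rw [br, Matrix.conjTranspose_sub, Matrix.conjTranspose_mul, Matrix.conjTranspose_mul, hNH,
      Matrix.conjTranspose_smul] at h1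
    have h2 : star (-2 : ℂ) = -2 := by simp
    rw [h2, neg_smul] at h1
    rw [br, ← neg_sub, h1, neg_neg]
  -- the vector
  obtain ⟨u, hu⟩ : ∃ u, u = Y *ᵥ e := ⟨_, rfl⟩
  have hNu : N *ᵥ u = ((m - 2 : ℝ) : ℂ) • u := by
    rw [hu, Matrix.mulVec_mulVec, hYN', Matrix.add_mulVec, ← Matrix.mulVec_mulVec, hm,
      Matrix.mulVec_smul, Matrix.smul_mulVec]
    push_cast
    module
  have hkill : ∀ Z ∈ h, br N Z = (2 : ℂ) • Z → Z *ᵥ u = 0 := by
    intro Z hZ hZN
    rw [hu, htr Z (hle hZ) hZN Y hYh hYN]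
    have h1 := hort' Zᴴ (hh.star _ hZ) (hstar _ hZN)
    rw [Matrix.conjTranspose_conjTranspose] at h1
    rw [h1, zero_smul]
  -- the module
  let W : Submodule ℂ (ι → ℂ) := sInf {S | u ∈ S ∧ ∀ y ∈ h, (br N y = 0 ∨
    br N y = (-2 : ℂ) • y) → ∀ v ∈ S, y *ᵥ v ∈ S}
  have hWu : u ∈ W := by
    rw [Submodule.mem_sInf]
    intro S hS
    exact hS.1
  have hWst : ∀ y ∈ h, (br N y = 0 ∨ br N y = (-2 : ℂ) • y) → ∀ v ∈ W, y *ᵥ v ∈ W := by
    intro y hy hyN v hv
    rw [Submodule.mem_sInf] at hv ⊢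
    intro S hS
    exact hS.2 y hy hyN v (hv S hS)
  have hWle : ∀ S : Submodule ℂ (ι → ℂ), u ∈ S → (∀ y ∈ h, (br N y = 0 ∨
    br N y = (-2 : ℂ) • y) → ∀ v ∈ S, y *ᵥ v ∈ S) → W ≤ S := fun S h1 h2 => sInf_le ⟨h1, h2⟩
  have hWTL : W ≤ TL N m := by
    refine hWle _ (Submodule.subset_span ⟨m - 2, by linarith, hNu⟩) fun y hy hyN v hv => ?_
    induction hv using Submodule.span_induction with
    | mem v hv =>
      obtain ⟨d, hd, hv⟩ := hv
      rcases hyN with hyN | hyN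
      · refine Submodule.subset_span ⟨d, hd, ?_⟩
        have h4 : N * y = y * N := by
          rw [br, sub_eq_zero] at hyN
          exact hyN
        rw [Matrix.mulVec_mulVec, h4, ← Matrix.mulVec_mulVec, hv, Matrix.mulVec_smul]
      · refine Submodule.subset_span ⟨d - 2, by linarith, ?_⟩
        have h4 : N * y = y * N + (-2 : ℂ) • y := by rw [← hyN, br]; abel
        rw [Matrix.mulVec_mulVec, h4, Matrix.add_mulVec, ← Matrix.mulVec_mulVec, hv,
          Matrix.mulVec_smul, Matrix.smul_mulVec]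
        push_cast
        module
    | zero => rw [Matrix.mulVec_zero]; exact Submodule.zero_mem _
    | add u v _ _ hu hv => rw [Matrix.mulVec_add]; exact Submodule.add_mem _ hu hv
    | smul c u _ hu => rw [Matrix.mulVec_smul]; exact Submodule.smul_mem _ _ hu
  have hW2 : ∀ z ∈ h, br N z = (2 : ℂ) • z → ∀ v ∈ W, z *ᵥ v ∈ W := by
    let S : Submodule ℂ (ι → ℂ) :=
      { carrier := {v | v ∈ W ∧ ∀ z ∈ h, br N z = (2 : ℂ) • z → z *ᵥ v ∈ W}
        add_mem' := by
          rintro a b ⟨h1, h2⟩ ⟨h3, h4⟩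
          refine ⟨Submodule.add_mem _ h1 h3, fun z hz hzN => ?_⟩
          rw [Matrix.mulVec_add]
          exact Submodule.add_mem _ (h2 z hz hzN) (h4 z hz hzN)
        zero_mem' := ⟨Submodule.zero_mem _, fun z _ _ => by
          rw [Matrix.mulVec_zero]; exact Submodule.zero_mem _⟩
        smul_mem' := by
          rintro c a ⟨h1, h2⟩
          refine ⟨Submodule.smul_mem _ _ h1, fun z hz hzN => ?_⟩
          rw [Matrix.mulVec_smul]
          exact Submodule.smul_mem _ _ (h2 z hz hzN) }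
    have h1 : W ≤ S := by
      refine hWle S ⟨hWu, fun z hz hzN => by rw [hkill z hz hzN]; exact Submodule.zero_mem _⟩ ?_
      rintro y hy hyN v ⟨hv1, hv2⟩
      refine ⟨hWst y hy hyN v hv1, fun z hz hzN => ?_⟩
      have h2 : z *ᵥ (y *ᵥ v) = br z y *ᵥ v + y *ᵥ (z *ᵥ v) := by
        rw [br, Matrix.sub_mulVec, Matrix.mulVec_mulVec, Matrix.mulVec_mulVec]
        abel
      rw [h2]
      refine Submodule.add_mem _ ?_ (hWst y hy hyN _ (hv2 z hz hzN))
      have hzN' : N * z = z * N + (2 : ℂ) • z := by rw [← hzN, br]; abel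
      have e1 : br N (br z y) = (N * z) * y - z * (y * N) - (N * y) * z + y * (z * N) := by
        simp only [br, Matrix.sub_mul, Matrix.mul_sub, Matrix.mul_assoc]
        abel
      rcases hyN with hyN | hyN
      · have hyN' : N * y = y * N := by
          rw [br, sub_eq_zero] at hyN
          exact hyN
        refine hv2 _ (hh.lie z hz y hy) ?_
        rw [e1, hzN', hyN', Matrix.add_mul]
        have e2 : z * N * y = z * (y * N) := by rw [Matrix.mul_assoc, hyN']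
        have e3 : y * N * z = y * (z * N) + (2 : ℂ) • (y * z) := by
          rw [Matrix.mul_assoc, hzN', Matrix.mul_add, Matrix.mul_smul]
        rw [e2, e3, Matrix.smul_mul, br]
        module
      · have hyN' : N * y = y * N + (-2 : ℂ) • y := by rw [← hyN, br]; abel
        refine hWst _ (hh.lie z hz y hy) (Or.inl ?_) _ hv1
        rw [e1, hzN', hyN', Matrix.add_mul, Matrix.add_mul]
        have e2 : z * N * y = z * (y * N) + (-2 : ℂ) • (z * y) := by
          rw [Matrix.mul_assoc, hyN', Matrix.mul_add, Matrix.mul_smul]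
        have e3 : y * N * z = y * (z * N) + (2 : ℂ) • (y * z) := by
          rw [Matrix.mul_assoc, hzN', Matrix.mul_add, Matrix.mul_smul]
        rw [e2, e3, Matrix.smul_mul, Matrix.smul_mul]
        module
    intro z hz hzN v hv
    exact (h1 hv).2 z hz hzN
  have hWh : ∀ y ∈ h, ∀ v ∈ W, y *ᵥ v ∈ W := by
    intro y hy v hv
    obtain ⟨a, ha, b, hb, c, hc, rfl, ha', hb', hc', -⟩ := exists_ad hle hh.lie hh'.lie hN hPc
      hNN hf hy
    rw [Matrix.add_mulVec, Matrix.add_mulVec]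
    exact Submodule.add_mem _ (Submodule.add_mem _ (hWst a ha (Or.inr ha') v hv)
      (hWst b hb (Or.inl hb') v hv)) (hW2 c hc hc' v hv)
  obtain ⟨E, hE1, hE2, hE3⟩ := exists_projector W {a | a ∈ h} (fun a ha => hh.star a ha) hWh
  have hEu : E *ᵥ u = u := by
    have h1 : u - E *ᵥ u ∈ W := Submodule.sub_mem _ hWu (hE1 u)
    exact (sub_eq_zero.1 (dotProduct_star_self_eq_zero.1 (hE2 u _ h1))).symm
  have hEe : E *ᵥ e = 0 := by
    refine TL_zero (hWTL (hE1 e)) ?_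
    rw [Matrix.mulVec_mulVec, hE3 N hN, ← Matrix.mulVec_mulVec, hm, Matrix.mulVec_smul]
  have hu0 : u = 0 := by
    have h1 := hcc Y hYh E fun a ha => (hE3 a ha).symm
    rw [← hEu, hu, Matrix.mulVec_mulVec, ← h1, ← Matrix.mulVec_mulVec, hEe, Matrix.mulVec_zero]
  have h1 := htr Yᴴ (hh'.star _ hYh) (hstar' _ hYN) Y hYh hYN
  rw [← hu, hu0, Matrix.mulVec_zero] at h1
  have h2 : (Yᴴ * Y * P).trace = 0 := (smul_eq_zero.1 h1.symm).resolve_right he0
  have h3 : ((Y * P)ᴴ * (Y * P)).trace = 0 := by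
    rw [Matrix.conjTranspose_mul, hPH, Matrix.mul_assoc, Matrix.trace_mul_comm]
    calc (Yᴴ * (Y * P) * P).trace = (Yᴴ * Y * (P * P)).trace := by
          simp only [Matrix.mul_assoc]
      _ = 0 := by rw [hPP, h2]
  have h4 : Y * P = 0 := Matrix.trace_conjTranspose_mul_self_eq_zero_iff.1 h3
  have h5 := hf Y hYh h4
  rw [hY, sub_eq_zero] at h5
  rw [h5]
  exact hX₁.1

end Pool.Agent.N996.FP
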