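import Pool.Agent.N996.FP.Sc

/-!
# The normaliser of the Lie algebra
-/

set_option linter.unusedSectionVars false

namespace Pool.Agent.N996.FP

open Matrix Pool.Agent.N996.BP ComplexConjugate ComplexOrder

variable {ι : Type} [Fintype ι] [DecidableEq ι] {H : HData ι}
  {A : Type} [Ring A] [Algebra ℂ A]

lemma aop_one' (ε : A ≃ₗ[ℂ] (ι → ℂ)) (x : A) : aop ε 1 x = x := by
  rw [aop_apply, Matrix.one_mulVec, LinearEquiv.symm_apply_apply]

lemma cji_br (x y : Matrix ι ι ℂ) : cji H (br x y) = br (cji H x) (cji H y) := by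
  rw [← cji_cj H (br (cji H x) (cji H y)), cj_br, cj_cji, cj_cji]

lemma cji_smul (c : ℂ) (x : Matrix ι ι ℂ) : cji H (c • x) = c • cji H x := by
  rw [cji, cji, Matrix.mul_smul, Matrix.smul_mul]

lemma cj_trace (x : Matrix ι ι ℂ) : (cj H x).trace = x.trace := by
  rw [cj, Matrix.trace_mul_comm, ← Matrix.mul_assoc, Mm_Mi, Matrix.one_mul]

/-- Matrices commuting with the gradings commute with the group. -/
lemma comm_GG' {z : Matrix ι ι ℂ} (hz : ∀ σ : ℂ ≃+* ℂ, z * Ng H σ = Ng H σ * z)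
    {g : Matrix ι ι ℂ} (hg : g ∈ GG H) : z * g = g * z := by
  induction hg using Submonoid.closure_induction with
  | mem x hx =>
    obtain ⟨σ, t, ht, rfl⟩ := hx
    rw [gen_eq, Finset.mul_sum, Finset.sum_mul]
    refine Finset.sum_congr rfl fun k hk => ?_
    rw [Matrix.mul_smul, Matrix.smul_mul]
    congr 1
    exact comm_idem (isIdem_map (H := H) σ) (hz σ) hk
  | one => rw [Matrix.mul_one, Matrix.one_mul]
  | mul x y _ _ hx hy => rw [← Matrix.mul_assoc, hx, Matrix.mul_assoc, hy, Matrix.mul_assoc]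

namespace AData

variable (D : AData H A)

lemma ci_one : D.IsCI 1 where
  comm g _ := by rw [Matrix.one_mul, Matrix.mul_one]
  commE x _ := by rw [Matrix.one_mul, Matrix.mul_one]
  mul x y := by simp only [aop_one']
  one := aop_one' _ _
  iso := by rw [Matrix.one_mul, Matrix.transpose_one, Matrix.mul_one]

/-- The derivations in orthonormal coordinates. -/
noncomputable def toPDl (htop : ∃ v : Fin (Module.finrank ℂ D.V) → D.V, pL D.L v ≠ 0) :
    PD D.dn 1 A where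
  ε := D.εn
  V := D.Vn
  der w hw a b := by
    rw [aop_εn, aop_εn, aop_εn]
    exact D.der_dl hw a b
  stab w hw v hv := by
    rw [mem_Vn, Mi_mulVec]
    exact D.V_dl hw hv
  mul a b := by simp only [aop_one']
  one := aop_one' _ _
  sq := (D.toPD htop D.ci_one).sq
  top := (D.toPD htop D.ci_one).top
  gen := (D.toPD htop D.ci_one).gen

lemma pr1n_herm (hP : cQ D.pr1 * cQ H.Qir = cQ H.Qir * (cQ D.pr1)ᵀ) :
    (cji H (cQ D.pr1))ᴴ = cji H (cQ D.pr1) := by
  have hQQ : cQ H.Qr * cQ H.Qir = 1 := by rw [← cQ_mul, H.Qr_Qir, cQ_one]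
  have hQQ' : cQ H.Qir * cQ H.Qr = 1 := mul_eq_one_comm.1 hQQ
  have h1 : (cQ D.pr1)ᴴ = (cQ D.pr1)ᵀ := by
    ext i j
    rw [Matrix.conjTranspose_apply, Matrix.transpose_apply, D.cQ_pr1, Matrix.diagonal_apply]
    split_ifs <;> simp
  have h2 : cj H (cji H (cQ D.pr1))ᴴ = cQ D.pr1 := by
    rw [← cj_star, cj_cji, h1, Sc]
    have h3 := D.pr1_HE Complex.I⁻¹ (inv_ne_zero Complex.I_ne_zero)
    calc H.l Complex.I⁻¹ * cQ H.Qir * (cQ D.pr1)ᵀ * (cQ H.Qr * H.l Complex.I) =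
        H.l Complex.I⁻¹ * (cQ H.Qir * (cQ D.pr1)ᵀ) * cQ H.Qr * H.l Complex.I := by
          simp only [Matrix.mul_assoc]
      _ = H.l Complex.I⁻¹ * cQ D.pr1 * (cQ H.Qir * cQ H.Qr) * H.l Complex.I := by
          rw [← hP]; simp only [Matrix.mul_assoc]
      _ = cQ D.pr1 * (H.l Complex.I⁻¹ * H.l Complex.I) := by
          rw [hQQ', Matrix.mul_one, h3, Matrix.mul_assoc]
      _ = _ := by rw [H.l_inv' Complex.I_ne_zero, Matrix.mul_one]
  have h3 := congrArg (cji H) h2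
  rwa [cji_cj] at h3

section two

variable (htop : ∃ v : Fin (Module.finrank ℂ D.V) → D.V, pL D.L v ≠ 0)
  (hP : cQ D.pr1 * cQ H.Qir = cQ H.Qir * (cQ D.pr1)ᵀ)
  (hNN : Ng H (RingEquiv.refl ℂ) * Ng H (RingEquiv.refl ℂ) * cQ D.pr1 = cQ D.pr1)

lemma pr1n_dn {w : Matrix ι ι ℂ} (hw : w ∈ D.dn) :
    cji H (cQ D.pr1) * w = w * cji H (cQ D.pr1) := by
  have h1 := hw.2.1 _ D.pr1_HE
  have h2 := congrArg (cji H) h1
  rw [cji_mul, cji_mul, cji_cj] at h2
  exact h2.symm

lemma pr1n_mul : cji H (cQ D.pr1) * cji H (cQ D.pr1) = cji H (cQ D.pr1) := by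
  rw [← cji_mul, ← cQ_mul, D.pr1_mul]

include hNN in
lemma Nn_pr1 : cji H (Ng H (RingEquiv.refl ℂ)) * cji H (Ng H (RingEquiv.refl ℂ)) *
    cji H (cQ D.pr1) = cji H (cQ D.pr1) := by
  rw [← cji_mul, ← cji_mul, hNN]

lemma dn_zero {w : Matrix ι ι ℂ} (hw : w ∈ D.dn) (h0 : w * cji H (cQ D.pr1) = 0) : w = 0 := by
  have h1 : cj H w * cQ D.pr1 = 0 := by
    rw [← cj_cji H (cQ D.pr1), ← cj_mul, h0, cj, Matrix.mul_zero, Matrix.zero_mul]
  rw [← cji_cj H w, D.dl_zero' hw h1, cji, Matrix.mul_zero, Matrix.zero_mul]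

include htop hP hNN in
/-- Elements of degree minus two. -/
lemma dn_two {Y : Matrix ι ι ℂ} (hY : Y ∈ D.dn)
    (hYN : br (cji H (Ng H (RingEquiv.refl ℂ))) Y = (-2 : ℂ) • Y) : Y ∈ hn H :=
  mem_top (isLA_hn H) D.isLA_dn D.hn_le_dn (D.toPDl htop)
    (N := cji H (Ng H (RingEquiv.refl ℂ))) (P := cji H (cQ D.pr1))
    (by rw [mem_hn, cj_cji]; exact Ng_mem _) Ng_herm (D.pr1n_herm hP) D.pr1n_mem
    (fun v hv => D.pr1n_Vn hv) (fun w hw => D.pr1n_dn hw) D.pr1n_mul (D.Nn_pr1 hNN)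
    (fun w hw y hy => D.dn_cc hw hy) (fun w hw h0 => D.dn_zero hw h0) hY hYN

include htop hP hNN in
/-- The bracket with the grading. -/
lemma dn_brN {Y : Matrix ι ι ℂ} (hY : Y ∈ D.dn) :
    br (cji H (Ng H (RingEquiv.refl ℂ))) Y ∈ hn H := by
  have hN : cji H (Ng H (RingEquiv.refl ℂ)) ∈ hn H := by
    rw [mem_hn, cj_cji]; exact Ng_mem _
  obtain ⟨a, ha, b, hb, c, hc, -, ha', hb', hc', h1⟩ := exists_ad (h := D.dn) (h' := D.dn) le_rfl
    D.isLA_dn.lie D.isLA_dn.lie (D.hn_le_dn hN) (fun w hw => D.pr1n_dn hw) (D.Nn_pr1 hNN)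
    (fun w hw h0 => D.dn_zero hw h0) hY
  have h2 : c ∈ hn H := by
    have h3 : br (cji H (Ng H (RingEquiv.refl ℂ))) cᴴ = (-2 : ℂ) • cᴴ := by
      have h1 := congrArg conjTranspose hc'
      rw [br, Matrix.conjTranspose_sub, Matrix.conjTranspose_mul, Matrix.conjTranspose_mul,
        Ng_herm, Matrix.conjTranspose_smul] at h1
      have h2 : star (2 : ℂ) = 2 := by simp
      rw [h2] at h1
      rw [br, neg_smul, ← h1, neg_sub]
    have h4 := D.dn_two htop hP hNN (D.isLA_dn.star _ hc) h3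
    have h5 := (isLA_hn H).star _ h4
    rwa [Matrix.conjTranspose_conjTranspose] at h5
  rw [h1]
  exact Submodule.sub_mem _ (Submodule.smul_mem _ _ h2)
    (Submodule.smul_mem _ _ (D.dn_two htop hP hNN ha ha'))

include htop hP hNN in
lemma dl_brN (σ : ℂ ≃+* ℂ) {Y : Matrix ι ι ℂ} (hY : Y ∈ D.dl) : br (Ng H σ) Y ∈ ho H := by
  have h1 : Y.map σ.symm ∈ D.dl := D.dl_map σ.symm hY
  have h2 : cji H (Y.map σ.symm) ∈ D.dn := by rw [mem_dn, cj_cji]; exact h1
  have h3 := D.dn_brN htop hP hNN h2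
  rw [mem_hn, cj_br, cj_cji, cj_cji] at h3
  have h4 := ho_map σ h3
  have h5 : (br (Ng H (RingEquiv.refl ℂ)) (Y.map σ.symm)).map σ = br (Ng H σ) Y := by
    have e0 : (Y.map σ.symm).map σ = Y := by ext i j; simp
    have e1 : ∀ x y : Matrix ι ι ℂ, (x - y).map σ = x.map σ - y.map σ := by
      intro x y
      ext i j
      simp
    rw [br, e1, map_mul', map_mul', e0, ← Ng_map, br]
  rwa [h5] at h4

lemma dn_brNn (htop : ∃ v : Fin (Module.finrank ℂ D.V) → D.V, pL D.L v ≠ 0)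
    (hP : cQ D.pr1 * cQ H.Qir = cQ H.Qir * (cQ D.pr1)ᵀ)
    (hNN : Ng H (RingEquiv.refl ℂ) * Ng H (RingEquiv.refl ℂ) * cQ D.pr1 = cQ D.pr1)
    (σ : ℂ ≃+* ℂ) {Y : Matrix ι ι ℂ} (hY : Y ∈ D.dn) : br (cji H (Ng H σ)) Y ∈ hn H := by
  rw [mem_hn, cj_br, cj_cji]
  exact D.dl_brN htop hP hNN σ hY

include htop hP hNN in
/-- The orthogonal complement of the Lie algebra is central. -/
lemma comm_orth {b : Matrix ι ι ℂ} (hb : b ∈ D.dn)
    (hort : ∀ w ∈ hn H, (w * b * cji H (cQ D.pr1)).trace = 0) (σ : ℂ ≃+* ℂ) :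
    cj H b * Ng H σ = Ng H σ * cj H b := by
  obtain ⟨P, hPd⟩ : ∃ P, P = cji H (cQ D.pr1) := ⟨_, rfl⟩
  obtain ⟨N, hN⟩ : ∃ N, N = cji H (Ng H σ) := ⟨_, rfl⟩
  have hPP : P * P = P := by rw [hPd]; exact D.pr1n_mul
  have hPH : Pᴴ = P := by rw [hPd]; exact D.pr1n_herm hP
  have hNh : N ∈ hn H := by rw [hN, mem_hn, cj_cji]; exact Ng_mem _
  have hPN : P * N = N * P := by rw [hPd]; exact D.pr1n_dn (D.hn_le_dn hNh)
  obtain ⟨c, hc⟩ : ∃ c, c = br N b := ⟨_, rfl⟩
  have hcn : c ∈ hn H := by rw [hc, hN]; exact D.dn_brNn htop hP hNN σ hb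
  have h1 : (cᴴ * c * P).trace = 0 := by
    have h2 := hort _ ((isLA_hn H).lie _ ((isLA_hn H).star _ hcn) _ hNh)
    rw [← hPd] at h2
    rw [← h2]
    nth_rewrite 2 [hc]
    rw [br, br, Matrix.mul_sub, Matrix.sub_mul, Matrix.sub_mul, Matrix.sub_mul,
      Matrix.trace_sub, Matrix.trace_sub]
    congr 1
    · simp only [Matrix.mul_assoc]
    · calc (cᴴ * (b * N) * P).trace = (cᴴ * b * (P * N)).trace := by
            rw [hPN]; simp only [Matrix.mul_assoc]
        _ = (N * (cᴴ * b * P)).trace := by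
            rw [← Matrix.mul_assoc, Matrix.trace_mul_comm]
        _ = _ := by simp only [Matrix.mul_assoc]
  have h3 : ((c * P)ᴴ * (c * P)).trace = 0 := by
    rw [Matrix.conjTranspose_mul, hPH, Matrix.mul_assoc, Matrix.trace_mul_comm]
    calc (cᴴ * (c * P) * P).trace = (cᴴ * c * (P * P)).trace := by
          simp only [Matrix.mul_assoc]
      _ = 0 := by rw [hPP, h1]
  have h4 : c * P = 0 := Matrix.trace_conjTranspose_mul_self_eq_zero_iff.1 h3
  have h5 : c = 0 := D.dn_zero (D.hn_le_dn hcn) (by rw [← hPd]; exact h4)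
  rw [hc, br, sub_eq_zero, hN] at h5
  have h6 := congrArg (cj H) h5
  rw [cj_mul, cj_mul, cj_cji] at h6
  exact h6.symm

include htop hP hNN in
/-- **The normaliser of the Lie algebra.** -/
theorem ad_two {p p' : Matrix ι ι ℂ} (hpp : p' * p = 1) (hp2 : Fixes H p (Unit ⊕ Unit))
    (hmul : ∀ x y, aop D.ε p (x * y) = aop D.ε p x * aop D.ε p y) {z : Matrix ι ι ℂ}
    (hz : z ∈ ho H) : p * z * p' ∈ ho H := by
  have hpp' : p * p' = 1 := mul_eq_one_comm.1 hpp
  have had : ∀ w ∈ D.dl, p * w * p' ∈ D.dl := fun w hw =>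
    D.dl_ad hpp hmul (fun x hx => hx.comm_fix hp2) (fix_Q H hp2) hw
  have key : ∀ σ : ℂ ≃+* ℂ, p * Ng H σ * p' ∈ ho H := by
    intro σ
    obtain ⟨P, hPd⟩ : ∃ P, P = cji H (cQ D.pr1) := ⟨_, rfl⟩
    have hPP : P * P = P := by rw [hPd]; exact D.pr1n_mul
    have hPH : Pᴴ = P := by rw [hPd]; exact D.pr1n_herm hP
    have hPc : ∀ w ∈ D.dn, P * w = w * P := fun w hw => by rw [hPd]; exact D.pr1n_dn hw
    obtain ⟨M, hM⟩ : ∃ M, M = cji H (p * Ng H σ * p') := ⟨_, rfl⟩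
    have hMd : M ∈ D.dn := by
      rw [hM, mem_dn, cj_cji]
      exact had _ (D.ho_le_dl (Ng_mem σ))
    obtain ⟨s₁, ⟨M₁, hM₁, rfl⟩, hort⟩ :=
      exists_orthM ((hn H).map (LinearMap.mulRight ℂ P)) (M * P)
    obtain ⟨Y, hY⟩ : ∃ Y, Y = M - M₁ := ⟨_, rfl⟩
    have hYd : Y ∈ D.dn := by
      rw [hY]
      exact Submodule.sub_mem _ hMd (D.hn_le_dn hM₁)
    have hYs : Yᴴ ∈ D.dn := D.isLA_dn.star _ hYd
    have hort' : ∀ w ∈ hn H, (wᴴ * Y * P).trace = 0 := by
      intro w hw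
      have h1 := hort (w * P) ⟨w, hw, rfl⟩
      have h2 : (w * P)ᴴ * (M * P - LinearMap.mulRight ℂ P M₁) = P * (wᴴ * Y * P) := by
        rw [LinearMap.mulRight_apply, ← Matrix.sub_mul, ← hY, Matrix.conjTranspose_mul, hPH]
        simp only [Matrix.mul_assoc]
      rw [h2, Matrix.trace_mul_comm, Matrix.mul_assoc, hPP] at h1
      exact h1
    have hort2 : ∀ w ∈ hn H, (w * Yᴴ * P).trace = 0 := by
      intro w hw
      have h1 := hort' w hw
      have h2 : (w * Yᴴ * P).trace = star (wᴴ * Y * P).trace := by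
        rw [← Matrix.trace_conjTranspose, Matrix.conjTranspose_mul, Matrix.conjTranspose_mul,
          hPH, Matrix.conjTranspose_conjTranspose]
        calc (w * Yᴴ * P).trace = (P * (w * Yᴴ)).trace := Matrix.trace_mul_comm _ _
          _ = (w * (P * Yᴴ)).trace := by
              rw [← Matrix.mul_assoc, hPc w (D.hn_le_dn hw), Matrix.mul_assoc]
          _ = _ := by rw [Matrix.trace_mul_comm, Matrix.mul_assoc]
      rw [h2, h1, star_zero]
    -- the complement commutes with `p`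
    have hbc : p * cj H Yᴴ = cj H Yᴴ * p := by
      have h1 := comm_span fun g hg => comm_GG' (fun τ =>
        D.comm_orth htop hP hNN hYs (fun w hw => by rw [← hPd]; exact hort2 w hw) τ) hg
      clear hort2 hYs
      generalize cj H Yᴴ = y at h1 ⊢
      induction h1 using Submodule.span_induction with
      | mem x hx =>
        obtain ⟨y, hy, rfl⟩ := hx
        exact hy.comm_fix hp2
      | zero => rw [Matrix.zero_mul, Matrix.mul_zero]
      | add a b _ _ ha hb => rw [Matrix.add_mul, Matrix.mul_add, ha, hb]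
      | smul c a _ ha => rw [Matrix.smul_mul, Matrix.mul_smul, ha]
    have hPp : p * cQ D.pr1 = cQ D.pr1 * p := D.pr1_HE.comm_fix hp2
    have h1 : (M * Yᴴ * P).trace = 0 := by
      have h2 : (M * Yᴴ * P).trace = (cji H (Ng H σ) * Yᴴ * P).trace := by
        rw [← cj_trace (M * Yᴴ * P), ← cj_trace (cji H (Ng H σ) * Yᴴ * P), cj_mul, cj_mul,
          cj_mul, cj_mul, hM, hPd, cj_cji, cj_cji, cj_cji]
        have e1 : p' * cj H Yᴴ = cj H Yᴴ * p' := by
          calc p' * cj H Yᴴ = p' * (cj H Yᴴ * p) * p' := by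
                rw [Matrix.mul_assoc, Matrix.mul_assoc, hpp', Matrix.mul_one]
            _ = (p' * p) * cj H Yᴴ * p' := by rw [← hbc]; simp only [Matrix.mul_assoc]
            _ = _ := by rw [hpp, Matrix.one_mul]
        have e2 : p' * cQ D.pr1 = cQ D.pr1 * p' := by
          calc p' * cQ D.pr1 = p' * (cQ D.pr1 * p) * p' := by
                rw [Matrix.mul_assoc, Matrix.mul_assoc, hpp', Matrix.mul_one]
            _ = (p' * p) * cQ D.pr1 * p' := by rw [← hPp]; simp only [Matrix.mul_assoc]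
            _ = _ := by rw [hpp, Matrix.one_mul]
        calc (p * Ng H σ * p' * cj H Yᴴ * cQ D.pr1).trace =
            (p * (Ng H σ * cj H Yᴴ * cQ D.pr1 * p')).trace := by
              congr 1
              calc p * Ng H σ * p' * cj H Yᴴ * cQ D.pr1 =
                  p * Ng H σ * (p' * cj H Yᴴ) * cQ D.pr1 := by simp only [Matrix.mul_assoc]
                _ = p * Ng H σ * cj H Yᴴ * (p' * cQ D.pr1) := by
                    rw [e1]; simp only [Matrix.mul_assoc]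
                _ = _ := by rw [e2]; simp only [Matrix.mul_assoc]
          _ = (Ng H σ * cj H Yᴴ * cQ D.pr1 * (p' * p)).trace := by
              rw [Matrix.trace_mul_comm]; simp only [Matrix.mul_assoc]
          _ = _ := by rw [hpp, Matrix.mul_one]
      rw [h2]
      exact hort2 _ (by rw [mem_hn, cj_cji]; exact Ng_mem _)
    have h2 : (Y * Yᴴ * P).trace = 0 := by
      have h3 : (M * Yᴴ * P).trace = (M₁ * Yᴴ * P).trace + (Y * Yᴴ * P).trace := by
        rw [← Matrix.trace_add, ← Matrix.add_mul, ← Matrix.add_mul]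
        congr 3
        rw [hY]; abel
      rw [h1, hort2 _ hM₁, zero_add] at h3
      exact h3.symm
    have h3 : ((Yᴴ * P)ᴴ * (Yᴴ * P)).trace = 0 := by
      rw [Matrix.conjTranspose_mul, hPH, Matrix.conjTranspose_conjTranspose, Matrix.mul_assoc,
        Matrix.trace_mul_comm]
      calc (Y * (Yᴴ * P) * P).trace = (Y * Yᴴ * (P * P)).trace := by
            simp only [Matrix.mul_assoc]
        _ = 0 := by rw [hPP, h2]
    have h4 : Yᴴ * P = 0 := Matrix.trace_conjTranspose_mul_self_eq_zero_iff.1 h3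
    have h5 : Yᴴ = 0 := D.dn_zero hYs (by rw [← hPd]; exact h4)
    have h6 : Y = 0 := by rw [← Matrix.conjTranspose_conjTranspose Y, h5,
      Matrix.conjTranspose_zero]
    rw [hY, sub_eq_zero] at h6
    have h7 : M ∈ hn H := by rw [h6]; exact hM₁
    rw [hM, mem_hn, cj_cji] at h7
    exact h7
  intro κ _ _ a ha
  have e1 := kp_dk (κ := κ) hpp z
  obtain ⟨d, hd⟩ : ∃ d, d = kp κ p' *ᵥ ca a := ⟨_, rfl⟩
  have hda : kp κ p *ᵥ d = ca a := by
    rw [hd, Matrix.mulVec_mulVec, ← kp_mul, hpp', kp_one, Matrix.one_mulVec]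
  have hinj : ∀ v, kp κ p *ᵥ v = 0 → v = 0 := by
    intro v hv
    have h1 := congrArg (fun w => kp κ p' *ᵥ w) hv
    simp only [Matrix.mulVec_mulVec, ← kp_mul, hpp, kp_one, Matrix.one_mulVec,
      Matrix.mulVec_zero] at h1
    exact h1
  have hdz : dk κ z *ᵥ d = 0 := by
    refine ho_of_fixT (fun g hg => fix_of_NgT (fun σ => ?_) hg) hz
    apply hinj
    rw [Matrix.mulVec_mulVec, kp_dk (κ := κ) hpp (Ng H σ), ← Matrix.mulVec_mulVec, hda]
    exact key σ κ a ha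
  rw [← hda, Matrix.mulVec_mulVec, ← e1, ← Matrix.mulVec_mulVec, hdz, Matrix.mulVec_zero]

end two

end AData

end Pool.Agent.N996.FP
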