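import Pool.Agent.N996.FP.Sd

/-!
# The decomposition theorem for two factors
-/

set_option linter.unusedSectionVars false

namespace Pool.Agent.N996.FP

open Matrix Pool.Agent.N996.BP ComplexConjugate

section dec

variable {ι : Type} [Fintype ι] [DecidableEq ι] (H : HData ι)

/-- **The decomposition theorem for Hodge structures.** -/
theorem exists_decS {V : Submodule ℂ (ι → ℂ)} (hV : ∀ z ∈ ho H, ∀ v ∈ V, z *ᵥ v ∈ V)
    (hV0 : ∀ z ∈ ho H, (∀ v ∈ V, z *ᵥ v = 0) → z = 0) {p : Matrix ι ι ℂ}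
    (hp2 : Fixes H p (Unit ⊕ Unit))
    (had : ∀ p', p' * p = 1 → (∀ z ∈ ho H, p * z * p' ∈ ho H) ∧ ∀ z ∈ ho H, p' * z * p ∈ ho H)
    (hPi : ∀ k, ∃ (κ : Type) (_ : Fintype κ) (_ : DecidableEq κ)
      (Pi : V [⋀^Fin k]→ₗ[ℂ] ((κ → ι) → ℂ)),
      (∀ z (hz : z ∈ ho H) (v : Fin k → V), dk κ z *ᵥ Pi v =
        ∑ j, Pi (Function.update v j ⟨z *ᵥ (v j : ι → ℂ), hV z hz _ (v j).2⟩)) ∧
      (∀ v, LinearIndependent ℂ v → Pi v ≠ 0) ∧ Fixes H p (κ ⊕ κ)) :
    ∃ q ∈ So H, ∃ q' ∈ So H, q * q' = 1 ∧ ∀ w ∈ ho H, (q' * p) * w = w * (q' * p) := by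
  obtain ⟨p', hp', hpp⟩ := Fixes.inv hp2
  obtain ⟨had1, had2⟩ := had p' hp'
  -- the subspace in orthonormal coordinates
  let Vn : Submodule ℂ (ι → ℂ) := V.comap (Matrix.mulVecLin (Mi H))
  have hVn : ∀ z ∈ hn H, ∀ v ∈ Vn, z *ᵥ v ∈ Vn := by
    intro z hz v hv
    change Mi H *ᵥ (z *ᵥ v) ∈ V
    have h1 : Mi H *ᵥ (z *ᵥ v) = cj H z *ᵥ (Mi H *ᵥ v) := by
      rw [Matrix.mulVec_mulVec, Matrix.mulVec_mulVec, cj]
      congr 1
      rw [Matrix.mul_assoc (Mi H * z), Mm_Mi, Matrix.mul_one]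
    rw [h1]
    exact hV _ hz _ hv
  have hVn0 : ∀ z ∈ hn H, (∀ v ∈ Vn, z *ᵥ v = 0) → z = 0 := by
    intro z hz h0
    have h1 := hV0 _ hz (fun v hv => by
      have h2 : Mm H *ᵥ v ∈ Vn := by
        change Mi H *ᵥ (Mm H *ᵥ v) ∈ V
        rw [Matrix.mulVec_mulVec, Mi_Mm, Matrix.one_mulVec]
        exact hv
      rw [cj, ← Matrix.mulVec_mulVec, ← Matrix.mulVec_mulVec, h0 _ h2, Matrix.mulVec_zero])
    rw [← cji_cj H z, h1, cji, Matrix.mul_zero, Matrix.zero_mul]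
  let L : Vn →ₗ[ℂ] V :=
    { toFun := fun v => ⟨Mi H *ᵥ (v : ι → ℂ), v.2⟩
      map_add' := fun a b => Subtype.ext (Matrix.mulVec_add _ _ _)
      map_smul' := fun c a => Subtype.ext (Matrix.mulVec_smul _ _ _) }
  have hL : Function.Injective L := by
    intro a b hab
    have h1 : Mi H *ᵥ (a : ι → ℂ) = Mi H *ᵥ (b : ι → ℂ) := congrArg Subtype.val hab
    have h2 := congrArg (fun w => Mm H *ᵥ w) h1
    simp only [Matrix.mulVec_mulVec, Mm_Mi, Matrix.one_mulVec] at h2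
    exact Subtype.ext h2
  obtain ⟨q, hq, q', hq', hqq, hc⟩ := exists_dec (isLA_hn H) (isGrp_Sn H) hVn hVn0
    (p := cji H p) (p' := cji H p') (by rw [← cji_mul, hpp, cji_one])
    (fun z hz => by
      rw [mem_hn, cj_mul, cj_mul, cj_cji, cj_cji]
      exact had1 _ hz)
    (fun z hz => by
      rw [mem_hn, cj_mul, cj_mul, cj_cji, cj_cji]
      exact had2 _ hz)
    (by
      intro k
      obtain ⟨κ, _, _, Pi, h1, h2, h3⟩ := hPi k
      refine ⟨κ → ι, inferInstance, inferInstance, dkL κ,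
        (Matrix.mulVecLin (kp κ (Mm H))).compAlternatingMap (Pi.compLinearMap L), kpH κ,
        fun a b => dk_br a b, fun a => dk_conjTranspose a, fun a => kp_conjT a, ?_, ?_, ?_, ?_,
        ?_, ?_⟩
      · intro z hz v
        change dk κ z *ᵥ (kp κ (Mm H) *ᵥ Pi (fun i => L (v i))) =
          ∑ j, kp κ (Mm H) *ᵥ Pi (fun i => L (Function.update v j ⟨z *ᵥ (v j : ι → ℂ), hVn z hz _ (v j).2⟩ i))
        rw [Matrix.mulVec_mulVec, dk_cj_Mm, ← Matrix.mulVec_mulVec, h1 _ hz, ← Matrix.mulVec_sum]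
        congr 1
        refine Finset.sum_congr rfl fun j _ => ?_
        congr 1
        funext i
        by_cases hij : i = j
        · subst hij
          rw [Function.update_self, Function.update_self]
          apply Subtype.ext
          change cj H z *ᵥ (Mi H *ᵥ (v i : ι → ℂ)) = Mi H *ᵥ (z *ᵥ (v i : ι → ℂ))
          rw [Matrix.mulVec_mulVec, Matrix.mulVec_mulVec, cj]
          congr 1
          rw [Matrix.mul_assoc (Mi H * z), Mm_Mi, Matrix.mul_one]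
        · rw [Function.update_of_ne hij, Function.update_of_ne hij]
      · intro v hv h0
        change kp κ (Mm H) *ᵥ Pi (fun i => L (v i)) = 0 at h0
        have h4 := congrArg (fun w => kp κ (Mi H) *ᵥ w) h0
        simp only [Matrix.mulVec_mulVec, ← kp_mul, Mi_Mm, kp_one, Matrix.one_mulVec,
          Matrix.mulVec_zero] at h4
        exact h2 _ (hv.map' L (LinearMap.ker_eq_bot.2 hL)) h4
      · intro g g' z hgg
        exact kp_dk (mul_eq_one_comm.1 hgg) z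
      · intro U hU d hd W hW
        exact sqrt_mem U hU d hd W hW
      · intro q hq
        exact pres_fix H (hq (κ ⊕ κ))
      · refine pres_fix H ?_
        rw [cj_cji]
        exact h3)
  refine ⟨cj H q, hq, cj H q', hq', by rw [← cj_mul, hqq, cj_one], fun w hw => ?_⟩
  have h1 := hc (cji H w) (by rw [mem_hn, cj_cji]; exact hw)
  have h2 := congrArg (cj H) h1
  rw [cj_mul, cj_mul, cj_mul, cj_mul, cj_cji, cj_cji] at h2
  exact h2

end dec

namespace AData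

variable {ι : Type} [Fintype ι] [DecidableEq ι] {H : HData ι}
  {A : Type} [Ring A] [Algebra ℂ A] (D : AData H A)

/-- **Decomposition of the matrices which fix the Hodge classes of degree at most two.** -/
theorem exists_qzS (htop : ∃ v : Fin (Module.finrank ℂ D.V) → D.V, pL D.L v ≠ 0)
    (hP : cQ D.pr1 * cQ H.Qir = cQ H.Qir * (cQ D.pr1)ᵀ)
    (hNN : Ng H (RingEquiv.refl ℂ) * Ng H (RingEquiv.refl ℂ) * cQ D.pr1 = cQ D.pr1)
    {p : Matrix ι ι ℂ} (hp1 : Fixes H p Unit) (hp2 : Fixes H p (Unit ⊕ Unit))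
    (hmul : ∀ x y, aop D.ε p (x * y) = aop D.ε p x * aop D.ε p y) :
    ∃ q ∈ So H, ∃ z, D.IsCI z ∧ p = q * z := by
  obtain ⟨q, hq, q', hq', hqq, hc⟩ := exists_decS H (V := D.V) (fun z hz v hv => D.V_ho hz hv)
    (fun z hz h0 => D.der_zero hz h0) hp2 (fun p' hpp => ⟨fun z hz =>
      D.ad_two htop hP hNN hpp hp2 hmul hz, fun z hz => D.ad_two htop hP hNN
        (mul_eq_one_comm.1 hpp) (Fixes.of_inv hpp hp2) (fun x y => by
          have h1 : ∀ x, aop D.ε p' (aop D.ε p x) = x := fun x => by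
            rw [← aop_mul, hpp, aop_one']
          have h2 : ∀ x, aop D.ε p (aop D.ε p' x) = x := fun x => by
            rw [← aop_mul, mul_eq_one_comm.1 hpp, aop_one']
          rw [← h1 (aop D.ε p' x * aop D.ε p' y), hmul, h2, h2]) hz⟩) (D.tests htop hp2)
  have hq2 : Fixes H q' (Unit ⊕ Unit) := hq' _
  have hq4 : Fixes H q' ((Unit ⊕ Unit) ⊕ (Unit ⊕ Unit)) := hq' _
  refine ⟨q, hq, q' * p, ⟨fun g hg => comm_GG hc hg, fun x hx => ?_, fun x y => ?_, ?_, ?_⟩, ?_⟩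
  · rw [Matrix.mul_assoc, hx.comm_fix hp2, ← Matrix.mul_assoc, hx.comm_fix hq2,
      Matrix.mul_assoc]
  · rw [aop_mul, hmul, D.mul_fix (hq' _) hq4, aop_mul, aop_mul]
  · rw [aop_mul, D.ucol_one (Fixes.ucol hp1), D.ucol_one (Fixes.ucol (hq' Unit))]
  · have h1 := fix_Q H hp2
    have h2 := fix_Q H hq2
    calc q' * p * cQ H.Qir * (q' * p)ᵀ = q' * (p * cQ H.Qir * pᵀ) * q'ᵀ := by
          rw [Matrix.transpose_mul]; simp only [Matrix.mul_assoc]
      _ = _ := by rw [h1, h2]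
  · rw [← Matrix.mul_assoc, hqq, Matrix.one_mul]

/-- Matrices which fix the array of the multiplication. -/
lemma mul_arr {p : Matrix ι ι ℂ} (hp2 : Fixes H p (Unit ⊕ Unit))
    (h : kp (Unit ⊕ (Unit ⊕ Unit)) p *ᵥ ca (arr (D.mu * kp (Unit ⊕ Unit) H.Qir)) =
      ca (arr (D.mu * kp (Unit ⊕ Unit) H.Qir))) (x y : A) :
    aop D.ε p (x * y) = aop D.ε p x * aop D.ε p y := by
  refine D.mul_of_itw ?_ x y
  have h3 := h
  rw [itw_arr, kp_arr] at h3
  have h4 := congrArg mat h3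
  rw [mat_arr, mat_arr] at h4
  have h5 : kp (Unit ⊕ Unit) p * kp (Unit ⊕ Unit) (cQ H.Qir) * (kp (Unit ⊕ Unit) p)ᵀ =
      kp (Unit ⊕ Unit) (cQ H.Qir) := by
    rw [← kp_transpose, ← kp_mul, ← kp_mul, fix_Q H hp2]
  obtain ⟨p', -, hpp⟩ := Fixes.inv hp2
  have hpp' : p' * p = 1 := mul_eq_one_comm.1 hpp
  have h6 : kp (Unit ⊕ Unit) (cQ H.Qir) * (kp (Unit ⊕ Unit) p)ᵀ =
      kp (Unit ⊕ Unit) p' * kp (Unit ⊕ Unit) (cQ H.Qir) := by
    calc kp (Unit ⊕ Unit) (cQ H.Qir) * (kp (Unit ⊕ Unit) p)ᵀ =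
        (kp (Unit ⊕ Unit) p' * kp (Unit ⊕ Unit) p) * kp (Unit ⊕ Unit) (cQ H.Qir) *
          (kp (Unit ⊕ Unit) p)ᵀ := by rw [← kp_mul, hpp', kp_one, Matrix.one_mul]
      _ = kp (Unit ⊕ Unit) p' * (kp (Unit ⊕ Unit) p * kp (Unit ⊕ Unit) (cQ H.Qir) *
          (kp (Unit ⊕ Unit) p)ᵀ) := by simp only [Matrix.mul_assoc]
      _ = _ := by rw [h5]
  have h7 : (kp Unit p * cQ D.mu * kp (Unit ⊕ Unit) p') * kp (Unit ⊕ Unit) (cQ H.Qir) =
      cQ D.mu * kp (Unit ⊕ Unit) (cQ H.Qir) := by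
    rw [← h4, Matrix.mul_assoc (kp Unit p) (cQ D.mu * _), Matrix.mul_assoc (cQ D.mu), h6]
    simp only [Matrix.mul_assoc]
  have h8 : kp Unit p * cQ D.mu * kp (Unit ⊕ Unit) p' = cQ D.mu := by
    have h9 := congrArg (fun M => M * kp (Unit ⊕ Unit) (cQ H.Qr)) h7
    simp only [Matrix.mul_assoc, QiQ, Matrix.mul_one] at h9
    rw [Matrix.mul_assoc, h9]
  calc kp Unit p * cQ D.mu = kp Unit p * cQ D.mu * (kp (Unit ⊕ Unit) p' *
        kp (Unit ⊕ Unit) p) := by rw [← kp_mul, hpp', kp_one, Matrix.mul_one]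
    _ = (kp Unit p * cQ D.mu * kp (Unit ⊕ Unit) p') * kp (Unit ⊕ Unit) p := by
        simp only [Matrix.mul_assoc]
    _ = _ := by rw [h8]

end AData

end Pool.Agent.N996.FP
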