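import Pool.Agent.N996.FP.Se
import Pool.Agent.N996.FP.Cor3

/-!
# Pairs of opposite weights
-/

set_option linter.unusedSectionVars false

namespace Pool.Agent.N996.FP

open Matrix Pool.Agent.N996.BP ComplexConjugate

lemma two_le_card {α : Type*} {s : Multiset α} (h : 1 < s.card) :
    ∃ a b, ({a, b} : Multiset α) ≤ s := by
  obtain ⟨a, ha⟩ := Multiset.card_pos_iff_exists_mem.1 (show 0 < s.card by omega)
  obtain ⟨t, rfl⟩ := Multiset.exists_cons_of_mem ha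
  rw [Multiset.card_cons] at h
  obtain ⟨b, hb⟩ := Multiset.card_pos_iff_exists_mem.1 (show 0 < t.card by omega)
  obtain ⟨u, rfl⟩ := Multiset.exists_cons_of_mem hb
  refine ⟨a, b, ?_⟩
  rw [Multiset.insert_eq_cons]
  exact Multiset.cons_le_cons _ (Multiset.singleton_le.2 (Multiset.mem_cons_self _ _))

section gen

variable {ι : Type} [Fintype ι] [DecidableEq ι] {h : Submodule ℂ (Matrix ι ι ℂ)}
  {x z : Matrix ι ι ℂ} {n : ℕ} {A : Type} [Ring A] [Algebra ℂ A]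

/-- **The eigenvalues on the sums of weights.** -/
theorem no_badS (D : PD h z A) (hh : IsLA h) (hx : IsReg h x) (hz : ∀ w ∈ h, z * w = w * z)
    (B : Bz h x z D.V n) (hζ : ∀ i, B.ζ i ≠ 0) {M : ℕ}
    (hM : ∀ s : Multiset (Fin n), B.tot s = 0 → B.zt s ≠ 1 →
      (∀ t ≤ s, B.tot t ∈ QL h x → t = 0 ∨ t = s) → ∀ (i : Fin n) (p : Fin n → Prop)
      [DecidablePred p], (∀ j, p j → B.T j - B.T i ∈ QL h x) → (s.filter p).card ≤ M)
    (hpres : Pres h (dkL (Fin M)) (kp (Fin M) z)) {s : Multiset (Fin n)}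
    (hs : B.tot s ∈ QL h x) : B.zt s = 1 := by
  classical
  by_contra hne
  obtain ⟨s, hs0, hs1, hirr⟩ := B.min_bad hh hx hz D.stab ⟨s, hs, hne⟩
  let f : Fin n → Matrix ι ι ℂ ⧸ QL h x := fun i => (B.T i : Matrix ι ι ℂ ⧸ QL h x)
  have hf : ∀ i j, f i = f j ↔ B.T i - B.T j ∈ QL h x := by
    intro i j
    simp only [f]
    rw [QuotientAddGroup.eq, ← neg_mem_iff]
    have : -(-B.T i + B.T j) = B.T i - B.T j := by abel
    rw [this]
  obtain ⟨F, hF, hinj⟩ := exists_split f M s (by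
    intro b
    by_cases hb : ∃ i ∈ s, f i = b
    · obtain ⟨i, _, rfl⟩ := hb
      exact hM s hs0 hs1 hirr i (fun j => f j = f i) fun j hj => (hf j i).1 hj
    · push Not at hb
      rw [Multiset.filter_eq_nil.2 hb, Multiset.card_zero]
      exact Nat.zero_le _)
  let S : Fin M → Finset (Fin n) := fun r =>
    Finset.univ.filter fun i => ∃ k ∈ F r, B.T i - B.T k ∈ QL h x ∧ i ≤ k
  let S' : Fin M → Finset (Fin n) := fun r =>
    Finset.univ.filter fun i => ∃ k ∈ F r, B.T i - B.T k ∈ QL h x ∧ i < k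
  have memS : ∀ r i, i ∈ S r ↔ ∃ k ∈ F r, B.T i - B.T k ∈ QL h x ∧ i ≤ k := fun r i => by
    simp [S]
  have memS' : ∀ r i, i ∈ S' r ↔ ∃ k ∈ F r, B.T i - B.T k ∈ QL h x ∧ i < k := fun r i => by
    simp [S']
  have hdisj : ∀ r, Disjoint (S' r) (F r) := by
    intro r
    rw [Finset.disjoint_left]
    intro i hi hi2
    obtain ⟨k, hk, hk2, hk3⟩ := (memS' r i).1 hi
    exact hk3.ne (hinj r i hi2 k hk ((hf i k).2 hk2))
  have hun : ∀ r, S r = (S' r).disjUnion (F r) (hdisj r) := by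
    intro r
    ext i
    rw [Finset.mem_disjUnion, memS, memS']
    constructor
    · rintro ⟨k, hk, hk2, hk3⟩
      rcases hk3.lt_or_eq with h1 | h1
      · exact Or.inl ⟨k, hk, hk2, h1⟩
      · exact Or.inr (h1 ▸ hk)
    · rintro (⟨k, hk, hk2, hk3⟩ | h1)
      · exact ⟨k, hk, hk2, hk3.le⟩
      · exact ⟨i, h1, by rw [sub_self]; exact (QL h x).zero_mem, le_rfl⟩
  have hSc : ∀ r, ∀ j ∈ S r, ∀ i, i < j → B.T i - B.T j ∈ QL h x → i ∈ S r := by
    intro r j hj i hij hq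
    obtain ⟨k, hk, hk2, hk3⟩ := (memS r j).1 hj
    refine (memS r i).2 ⟨k, hk, ?_, hij.le.trans hk3⟩
    have := (QL h x).add_mem hq hk2
    rwa [sub_add_sub_cancel] at this
  have hSc' : ∀ r, ∀ j ∈ S' r, ∀ i, i < j → B.T i - B.T j ∈ QL h x → i ∈ S' r := by
    intro r j hj i hij hq
    obtain ⟨k, hk, hk2, hk3⟩ := (memS' r j).1 hj
    refine (memS' r i).2 ⟨k, hk, ?_, hij.trans hk3⟩
    have := (QL h x).add_mem hq hk2
    rwa [sub_add_sub_cancel] at this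
  obtain ⟨w, hw⟩ : ∃ w, w = pt fun r => D.pS B.v (S r) := ⟨_, rfl⟩
  obtain ⟨w', hw'⟩ : ∃ w', w' = pt fun r => D.pS B.v (S' r) := ⟨_, rfl⟩
  -- the weights
  have hwt : ∀ (Q : Fin M → Finset (Fin n)) (t : Matrix ι ι ℂ), t ∈ h → x * t = t * x →
      dk (Fin M) t *ᵥ pt (fun r => D.pS B.v (Q r)) =
        (∑ r, ∑ i ∈ Q r, (B.T i * t).trace) • pt fun r => D.pS B.v (Q r) := by
    intro Q t ht htx
    exact dk_pt_eig fun r => D.pS_eig (Q r) ht fun j => (B.wt j).val t ⟨ht, htx⟩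
  have hsumT : ∑ r, ∑ i ∈ F r, B.T i = 0 := by rw [← sum_val, hF]; exact hs0
  have hsum : ∀ t : Matrix ι ι ℂ, ∑ r, ∑ i ∈ S r, (B.T i * t).trace =
      ∑ r, ∑ i ∈ S' r, (B.T i * t).trace := by
    intro t
    have h1 : ∑ r, ∑ i ∈ F r, (B.T i * t).trace = 0 := by
      have h2 : ∑ r, ∑ i ∈ F r, (B.T i * t).trace = ((∑ r, ∑ i ∈ F r, B.T i) * t).trace := by
        rw [Finset.sum_mul, Matrix.trace_sum]
        refine Finset.sum_congr rfl fun r _ => ?_
        rw [Finset.sum_mul, Matrix.trace_sum]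
      rw [h2, hsumT, Matrix.zero_mul, Matrix.trace_zero]
    have h3 : ∀ r, ∑ i ∈ S r, (B.T i * t).trace = ∑ i ∈ S' r, (B.T i * t).trace +
        ∑ i ∈ F r, (B.T i * t).trace := by
      intro r
      rw [hun r, Finset.sum_disjUnion]
    rw [Finset.sum_congr rfl fun r _ => h3 r, Finset.sum_add_distrib, h1, add_zero]
  have hprod : ∏ r, ∏ i ∈ S r, B.ζ i = (∏ r, ∏ i ∈ S' r, B.ζ i) * B.zt s := by
    have h3 : ∀ r, ∏ i ∈ S r, B.ζ i = (∏ i ∈ S' r, B.ζ i) * ∏ i ∈ F r, B.ζ i := by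
      intro r
      rw [hun r, Finset.prod_disjUnion]
    rw [Finset.prod_congr rfl fun r _ => h3 r, Finset.prod_mul_distrib, Bz.zt, ← hF, prod_val]
  have hkp : ∀ (Q : Fin M → Finset (Fin n)), kp (Fin M) z *ᵥ pt (fun r => D.pS B.v (Q r)) =
      (∏ r, ∏ i ∈ Q r, B.ζ i) • pt fun r => D.pS B.v (Q r) := by
    intro Q
    rw [kp_pt, ← pt_smul]
    congr 1
    funext r
    exact D.pS_mul (Q r) B.ez
  have hreal : ∀ (Q : Fin M → Finset (Fin n)), dk (Fin M) x *ᵥ pt (fun r => D.pS B.v (Q r)) =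
      ((∑ r, ∑ i ∈ Q r, B.c i : ℝ) : ℂ) • pt fun r => D.pS B.v (Q r) := by
    intro Q
    rw [hwt Q x hx.mem rfl]
    congr 1
    push_cast
    exact Finset.sum_congr rfl fun r _ => Finset.sum_congr rfl fun i _ => B.c_eq hx i
  have hrc : ∑ r, ∑ i ∈ S' r, B.c i = ∑ r, ∑ i ∈ S r, B.c i := by
    have h1 := hsum x
    have h2 : ∀ Q : Fin M → Finset (Fin n), ∑ r, ∑ i ∈ Q r, (B.T i * x).trace =
        ((∑ r, ∑ i ∈ Q r, B.c i : ℝ) : ℂ) := by
      intro Q
      push_cast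
      exact Finset.sum_congr rfl fun r _ => Finset.sum_congr rfl fun i _ => B.c_eq hx i
    rw [h2, h2] at h1
    exact (Complex.ofReal_injective h1).symm
  have h1 := hw_sep hh hx (ρ := dkL (Fin M)) (fun a b => dk_br (κ := Fin M) a b) (w := w) (w' := w')
    (by rw [hw]; exact pt_ne fun r => D.pS_ne B.li _)
    (by rw [hw']; exact pt_ne fun r => D.pS_ne B.li _)
    (fun t ht htx => ⟨∑ r, ∑ i ∈ S r, (B.T i * t).trace, by
      rw [hw]; exact hwt S t ht htx, by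
      rw [hw', hsum]; exact hwt S' t ht htx⟩)
    (fun a ha e he hea => ⟨by
      rw [hw]
      exact dk_pt_zero fun r => raise_pS D hh hx hz B (hSc r) ha he hea, by
      rw [hw']
      exact dk_pt_zero fun r => raise_pS D hh hx hz B (hSc' r) ha he hea⟩)
    (l := ∑ r, ∑ i ∈ S r, B.c i) (by rw [hw]; exact hreal S)
    (by rw [hw', ← hrc]; exact hreal S') hpres
    (α := ∏ r, ∏ i ∈ S r, B.ζ i) (β := ∏ r, ∏ i ∈ S' r, B.ζ i)
    (by rw [hw]; exact hkp S) (by rw [hw']; exact hkp S')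
  rw [hprod] at h1
  have h2 : (∏ r, ∏ i ∈ S' r, B.ζ i) ≠ 0 :=
    Finset.prod_ne_zero_iff.2 fun r _ => Finset.prod_ne_zero_iff.2 fun i _ => hζ i
  exact hs1 (mul_left_cancel₀ h2 (h1.trans (mul_one _).symm))

/-- The eigenvalue depends only on the weight. -/
theorem zeta_eq (D : PD h z A) (hh : IsLA h) (hx : IsReg h x) (hz : ∀ w ∈ h, z * w = w * z)
    (B : Bz h x z D.V n) (hζ : ∀ i, B.ζ i ≠ 0)
    (hpres : Pres h (dkL (Fin 1)) (kp (Fin 1) z)) {j k : Fin n} (hjk : B.T j = B.T k) :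
    B.ζ j = B.ζ k := by
  classical
  have hcc : B.c j = B.c k := by
    have h1 := B.c_eq hx j
    have h2 := B.c_eq hx k
    rw [hjk] at h1
    exact Complex.ofReal_injective (h1.symm.trans h2)
  obtain ⟨F, hF⟩ : ∃ F : Finset (Fin n), F = Finset.univ.filter fun i => B.c j < B.c i :=
    ⟨_, rfl⟩
  have memF : ∀ i, i ∈ F ↔ B.c j < B.c i := fun i => by rw [hF]; simp
  have hS : ∀ l, B.c l = B.c j → l ∉ F := fun l hl h1 => by
    rw [memF, hl] at h1
    exact lt_irrefl _ h1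
  have hjF : j ∉ F := hS j rfl
  have hkF : k ∉ F := hS k hcc.symm
  have hraise : ∀ l, B.c l = B.c j → ∀ a : ℝ, 0 < a → ∀ e ∈ h, e ∈ EA x a →
      e *ᵥ D.pS B.v (insert l F) = 0 := by
    intro l hl a ha e he hea
    refine D.pS_zero (insert l F) he fun i hi => ?_
    refine Submodule.span_mono ?_ (B.root_span hh hx hz D.stab ha.ne' he hea i)
    rintro _ ⟨m, ⟨hm1, hm2⟩, rfl⟩
    have hci : B.c j ≤ B.c i := by
      rcases Finset.mem_insert.1 hi with h1 | h1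
      · rw [h1, hl]
      · exact ((memF i).1 h1).le
    refine ⟨m, ⟨Finset.mem_insert_of_mem ((memF m).2 (by linarith)), ?_⟩, rfl⟩
    rintro rfl
    linarith
  have hwt : ∀ l (t : Matrix ι ι ℂ), t ∈ h → x * t = t * x →
      dk (Fin 1) t *ᵥ pt (fun _ => D.pS B.v (insert l F)) =
        (∑ i ∈ insert l F, (B.T i * t).trace) • pt fun _ => D.pS B.v (insert l F) := by
    intro l t ht htx
    have h1 := dk_pt_eig (κ := Fin 1) (w := t) (p := fun _ => D.pS B.v (insert l F))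
      (s := fun _ => ∑ i ∈ insert l F, (B.T i * t).trace) fun _ =>
        D.pS_eig (insert l F) ht fun j => (B.wt j).val t ⟨ht, htx⟩
    rw [Fin.sum_univ_one] at h1
    exact h1
  have hsum : ∀ t : Matrix ι ι ℂ, ∑ i ∈ insert j F, (B.T i * t).trace =
      ∑ i ∈ insert k F, (B.T i * t).trace := by
    intro t
    rw [Finset.sum_insert hjF, Finset.sum_insert hkF, hjk]
  have hreal : ∀ l, l ∉ F → B.c l = B.c j →
      dk (Fin 1) x *ᵥ pt (fun _ => D.pS B.v (insert l F)) =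
        ((B.c j + ∑ i ∈ F, B.c i : ℝ) : ℂ) • pt fun _ => D.pS B.v (insert l F) := by
    intro l hlF hl
    rw [hwt l x hx.mem rfl]
    congr 1
    rw [Finset.sum_insert hlF]
    push_cast
    rw [B.c_eq hx l, hl]
    congr 1
    exact Finset.sum_congr rfl fun i _ => B.c_eq hx i
  have hkp : ∀ l, l ∉ F → kp (Fin 1) z *ᵥ pt (fun _ => D.pS B.v (insert l F)) =
      (B.ζ l * ∏ i ∈ F, B.ζ i) • pt fun _ => D.pS B.v (insert l F) := by
    intro l hlF
    rw [kp_pt]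
    have h1 := pt_smul (fun _ : Fin 1 => B.ζ l * ∏ i ∈ F, B.ζ i)
      fun _ => D.pS B.v (insert l F)
    rw [Fin.prod_univ_one] at h1
    rw [← h1]
    congr 1
    funext _
    rw [D.pS_mul (insert l F) B.ez, Finset.prod_insert hlF]
  have h1 := hw_sep hh hx (ρ := dkL (Fin 1)) (fun a b => dk_br (κ := Fin 1) a b)
    (w := pt fun _ => D.pS B.v (insert j F)) (w' := pt fun _ => D.pS B.v (insert k F))
    (pt_ne fun _ => D.pS_ne B.li _) (pt_ne fun _ => D.pS_ne B.li _)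
    (fun t ht htx => ⟨∑ i ∈ insert j F, (B.T i * t).trace, hwt j t ht htx, by
      rw [hsum]; exact hwt k t ht htx⟩)
    (fun a ha e he hea => ⟨dk_pt_zero fun _ => hraise j rfl a ha e he hea,
      dk_pt_zero fun _ => hraise k hcc.symm a ha e he hea⟩)
    (l := B.c j + ∑ i ∈ F, B.c i) (hreal j hjF rfl) (hreal k hkF hcc.symm) hpres
    (α := B.ζ j * ∏ i ∈ F, B.ζ i) (β := B.ζ k * ∏ i ∈ F, B.ζ i) (hkp j hjF) (hkp k hkF)
  exact mul_right_cancel₀ (Finset.prod_ne_zero_iff.2 fun i _ => hζ i) h1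

end gen

variable {ι : Type} [Fintype ι] [DecidableEq ι] {H : HData ι}
  {A : Type} [Ring A] [Algebra ℂ A]

namespace AData

variable (D : AData H A)

/-- **Central isometries which fix the Hodge classes of bounded degree.** -/
theorem ci_SoS (htop : ∃ v : Fin (Module.finrank ℂ D.V) → D.V, pL D.L v ≠ 0)
    {z z' : Matrix ι ι ℂ} (hz : D.IsCI z) (hinv : z' * z = 1) {M : ℕ}
    (hfix : Fixes H z (Fin M ⊕ Fin M))
    (hM : ∀ (x : Matrix ι ι ℂ) (n : ℕ) (B : Bz (hn H) x (cji H z) D.Vn n), IsReg (hn H) x →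
      (∀ i, B.ζ i ≠ 0) → ∀ s : Multiset (Fin n), B.tot s = 0 → B.zt s ≠ 1 →
      (∀ t ≤ s, B.tot t ∈ QL (hn H) x → t = 0 ∨ t = s) → ∀ (i : Fin n) (p : Fin n → Prop)
      [DecidablePred p], (∀ j, p j → B.T j - B.T i ∈ QL (hn H) x) → (s.filter p).card ≤ M) :
    z ∈ So H := by
  obtain ⟨x, hxh, hxH, hxr⟩ := exists_regular (hn H)
  have hx : IsReg (hn H) x := ⟨hxh, hxH, hxr⟩
  have hZ := isZ_of hz.comm hz.commE
  obtain ⟨n, ⟨B⟩⟩ := exists_Bz (V := D.Vn) (isLA_hn H) hx (hZ.comm x hxh).symm hZ.normal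
    (fun v hv => D.Vn_hn hxh hv) (fun v hv => D.Vn_Z hZ hv) (fun v hv => D.Vn_Z hZ.star hv)
  have hζ : ∀ i, B.ζ i ≠ 0 := by
    intro i h0
    have h1 := B.ez i
    rw [h0, zero_smul] at h1
    have h2 : cji H z' *ᵥ (cji H z *ᵥ (B.v i : ι → ℂ)) = 0 := by rw [h1, Matrix.mulVec_zero]
    rw [Matrix.mulVec_mulVec, ← cji_mul, hinv, cji_one, Matrix.one_mulVec] at h2
    exact B.v_ne i h2
  have hs : ∀ s : Multiset (Fin n), B.tot s ∈ QL (hn H) x → B.zt s = 1 := fun s hs =>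
    no_badS (D.toPD htop hz) (isLA_hn H) hx hZ.comm B hζ (hM x n B hx hζ)
      (pres_fix H (by rw [cj_cji]; exact hfix)) hs
  intro κ _ _ a ha
  have h1 := fix_zero (D.toPD htop hz) B hs (κ := κ) (a := kp κ (Mm H) *ᵥ ca a)
    fun t ht _ => by
      rw [Matrix.mulVec_mulVec, dk_cj_Mm, ← Matrix.mulVec_mulVec, ht κ a ha, Matrix.mulVec_zero]
  rw [Matrix.mulVec_mulVec, kp_cj_Mm, cj_cji, ← Matrix.mulVec_mulVec] at h1
  have h2 := congrArg (fun w => kp κ (Mi H) *ᵥ w) h1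
  simp only [Matrix.mulVec_mulVec, ← Matrix.mul_assoc, ← kp_mul, Mi_Mm, kp_one, Matrix.one_mul,
    Matrix.one_mulVec] at h2
  exact h2

variable {x z : Matrix ι ι ℂ} {n : ℕ}

lemma qf_iso (hz : D.IsCI z) (u v : ι → ℂ) :
    qf H (cji H z *ᵥ u) (cji H z *ᵥ v) = qf H u v := by
  have hQQ : cQ H.Qr * cQ H.Qir = 1 := by rw [← cQ_mul, H.Qr_Qir, cQ_one]
  have hQQ' : cQ H.Qir * cQ H.Qr = 1 := mul_eq_one_comm.1 hQQ
  have h1 : z * (cQ H.Qir * zᵀ * cQ H.Qr) = 1 := by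
    calc z * (cQ H.Qir * zᵀ * cQ H.Qr) = (z * cQ H.Qir * zᵀ) * cQ H.Qr := by
          simp only [Matrix.mul_assoc]
      _ = 1 := by rw [hz.iso, hQQ']
  have h2 := mul_eq_one_comm.1 h1
  have h3 : zᵀ * (cQ H.Qr * z) = cQ H.Qr := by
    calc zᵀ * (cQ H.Qr * z) = (cQ H.Qr * cQ H.Qir) * (zᵀ * (cQ H.Qr * z)) := by
          rw [hQQ, Matrix.one_mul]
      _ = cQ H.Qr * (cQ H.Qir * zᵀ * cQ H.Qr * z) := by simp only [Matrix.mul_assoc]
      _ = _ := by rw [h2, Matrix.mul_one]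
  rw [qf, qf, Mi_mulVec, Mi_mulVec, cj_cji]
  obtain ⟨a, ha⟩ : ∃ a, a = Mi H *ᵥ u := ⟨_, rfl⟩
  obtain ⟨b, hb⟩ : ∃ b, b = Mi H *ᵥ v := ⟨_, rfl⟩
  rw [← ha, ← hb, ← Matrix.vecMul_transpose, ← Matrix.dotProduct_mulVec, Matrix.mulVec_mulVec,
    Matrix.mulVec_mulVec, Matrix.mul_assoc, h3]

/-- Opposite weights. -/
theorem zeta_pair (hz : D.IsCI z) (hP : cQ D.pr1 * cQ H.Qir = cQ H.Qir * (cQ D.pr1)ᵀ)
    (hx : IsReg (hn H) x) (B : Bz (hn H) x (cji H z) D.Vn n)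
    (heq : ∀ j k, B.T j = B.T k → B.ζ j = B.ζ k) {i j : Fin n} (hij : B.T i + B.T j = 0) :
    B.ζ i * B.ζ j = 1 := by
  obtain ⟨k, hk⟩ := D.exists_pair hP B (B.v i).2 (B.v_ne i)
  have h1 := D.pair_wt hx B hk
  have h2 : B.T j = B.T k := by
    rw [add_comm] at h1
    exact add_left_cancel (hij.trans h1.symm)
  have h3 := D.qf_iso hz (B.v k : ι → ℂ) (B.v i : ι → ℂ)
  rw [B.ez, B.ez, qf_smul_left, qf_smul_right, ← mul_assoc] at h3
  have h4 : B.ζ k * B.ζ i = 1 := mul_right_cancel₀ hk (h3.trans (one_mul _).symm)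
  rw [heq j k h2, mul_comm]
  exact h4

/-- Bad irreducible multisets contain at most one element of a coset with double in the root
lattice. -/
theorem count_one (hz : D.IsCI z) (hP : cQ D.pr1 * cQ H.Qir = cQ H.Qir * (cQ D.pr1)ᵀ)
    (hx : IsReg (hn H) x) (B : Bz (hn H) x (cji H z) D.Vn n)
    (heq : ∀ j k, B.T j = B.T k → B.ζ j = B.ζ k) {s : Multiset (Fin n)} (hs : B.tot s = 0)
    (hbad : B.zt s ≠ 1) (hirr : ∀ t ≤ s, B.tot t ∈ QL (hn H) x → t = 0 ∨ t = s) {i : Fin n}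
    (h2 : 2 • B.T i ∈ QL (hn H) x) (p : Fin n → Prop) [DecidablePred p]
    (hp : ∀ j, p j → B.T j - B.T i ∈ QL (hn H) x) : (s.filter p).card ≤ 1 := by
  classical
  by_contra hcon
  push Not at hcon
  obtain ⟨a, b, ht⟩ := two_le_card hcon
  have ha : p a := Multiset.of_mem_filter (Multiset.mem_of_le ht (by simp))
  have hb : p b := Multiset.of_mem_filter (Multiset.mem_of_le ht (by simp))
  have hts : ({a, b} : Multiset (Fin n)) ≤ s := ht.trans (Multiset.filter_le p s)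
  have htot : B.tot {a, b} = B.T a + B.T b := by
    rw [Bz.tot, Multiset.insert_eq_cons, Multiset.map_cons, Multiset.sum_cons,
      Multiset.map_singleton, Multiset.sum_singleton]
  have hzt : B.zt {a, b} = B.ζ a * B.ζ b := by
    rw [Bz.zt, Multiset.insert_eq_cons, Multiset.map_cons, Multiset.prod_cons,
      Multiset.map_singleton, Multiset.prod_singleton]
  rcases hirr _ hts (by
    rw [htot]
    have h1 := (QL _ x).add_mem ((QL _ x).add_mem (hp a ha) (hp b hb)) h2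
    have h3 : B.T a - B.T i + (B.T b - B.T i) + 2 • B.T i = B.T a + B.T b := by
      rw [two_nsmul]; abel
    rwa [h3] at h1) with h3 | h3
  · have := congrArg Multiset.card h3
    rw [Multiset.card_zero, Multiset.insert_eq_cons, Multiset.card_cons] at this
    omega
  · rw [← h3, htot] at hs
    rw [← h3, hzt] at hbad
    exact hbad (D.zeta_pair hz hP hx B heq hs)

end AData

end Pool.Agent.N996.FP
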