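import Pool.Agent.N996.FP.Sf

/-!
# The core theorem for two factors
-/

set_option linter.unusedSectionVars false

namespace Pool.Agent.N996.FP

open Matrix Pool.Agent.N996.BP ComplexConjugate

variable {ι : Type} [Fintype ι] [DecidableEq ι] {H : HData ι}
  {A : Type} [Ring A] [Algebra ℂ A]
  {B : ∀ n : ℕ, Submodule ℚ ((Fin (n + 1) → ι) → ℚ)}

/-- **The core theorem.** -/
theorem coreS (D : AData H A) (htop : ∃ v : Fin (Module.finrank ℂ D.V) → D.V, pL D.L v ≠ 0)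
    (hP : cQ D.pr1 * cQ H.Qir = cQ H.Qir * (cQ D.pr1)ᵀ)
    (hNN : Ng H (RingEquiv.refl ℂ) * Ng H (RingEquiv.refl ℂ) * cQ D.pr1 = cQ D.pr1)
    {N M : ℕ} (h2 : 2 ≤ N) (hMN : 2 * M ≤ N)
    (hMM : ∀ (z : Matrix ι ι ℂ), D.IsCI z → (∀ (κ : Type) [Fintype κ] [DecidableEq κ],
      Fintype.card κ ≤ N → Fixes H z κ) → ∀ (x : Matrix ι ι ℂ) (n : ℕ)
      (B : Bz (hn H) x (cji H z) D.Vn n), IsReg (hn H) x →
      (∀ j k, B.T j = B.T k → B.ζ j = B.ζ k) → ∀ s : Multiset (Fin n), B.tot s = 0 →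
      B.zt s ≠ 1 → (∀ t ≤ s, B.tot t ∈ QL (hn H) x → t = 0 ∨ t = s) → ∀ (i : Fin n)
      (p : Fin n → Prop) [DecidablePred p], (∀ j, p j → B.T j - B.T i ∈ QL (hn H) x) →
      (s.filter p).card ≤ M)
    (hA : RFam H B) (hN : ∀ n, n + 1 ≤ N → BB H (Fin (n + 1)) ≤ B n)
    (hmu : arr (D.mu * kp (Unit ⊕ Unit) H.Qir) ∈ AQ B (Unit ⊕ (Unit ⊕ Unit))) (n : ℕ)
    (h : (Fin (n + 1) → ι) → ℚ) (hh : h ∈ BB H (Fin (n + 1))) : h ∈ B n := by
  classical
  have hfam := hA.isFam hN h2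
  have h1 : (fun i => (h i : ℝ)) ∈ AR B (Fin (n + 1)) := by
    refine mem_of_fixed (κ := Fin (n + 1)) hfam _ ?_ ?_
    · have h1 := hh Complex.I Complex.I_ne_zero
      rw [← cR_C, kp_cR] at h1
      ext i
      have h2 := congrFun h1 i
      rw [Matrix.mulVec, dotProduct] at h2 ⊢
      have h3 : ((∑ j, kp (Fin (n + 1)) H.D.C i j * (h j : ℝ) : ℝ) : ℂ) = (((h i : ℝ)) : ℂ) := by
        push_cast
        exact h2
      exact_mod_cast h3
    · intro g hg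
      have hfix : ∀ (κ : Type) [Fintype κ] [DecidableEq κ], Fintype.card κ ≤ N →
          Fixes H g κ := fun κ _ _ hκ a ha => by
        have h4 := hg κ _ (AR_of (hA.of_small hN hκ ha))
        simp only [Complex.ofReal_ratCast] at h4
        exact h4
      have hfmu : kp (Unit ⊕ (Unit ⊕ Unit)) g *ᵥ ca (arr (D.mu * kp (Unit ⊕ Unit) H.Qir)) =
          ca (arr (D.mu * kp (Unit ⊕ Unit) H.Qir)) := by
        have h4 := hg _ _ (AR_of hmu)
        simp only [Complex.ofReal_ratCast] at h4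
        exact h4
      have hf2 : Fixes H g (Unit ⊕ Unit) := hfix _ (by simpa using h2)
      obtain ⟨q, hq, z, hz, hgq⟩ := D.exists_qzS htop hP hNN (p := g)
        (hfix _ (by simp; omega)) hf2 (D.mul_arr hf2 hfmu)
      obtain ⟨q', hq', hqq⟩ := So_ex_inv hq
      have hzg : z = q' * g := by
        rw [hgq, ← Matrix.mul_assoc, mul_eq_one_comm.1 hqq, Matrix.one_mul]
      have hfixz : ∀ (κ : Type) [Fintype κ] [DecidableEq κ], Fintype.card κ ≤ N →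
          Fixes H z κ := fun κ _ _ hκ a ha => by
        rw [hzg, kp_mul, ← Matrix.mulVec_mulVec, hfix κ hκ a ha, hq' κ a ha]
      obtain ⟨z', -, hzz⟩ := Fixes.inv (hfixz (Unit ⊕ Unit) (by simpa using h2))
      have hzS : z ∈ So H := D.ci_SoS htop hz (mul_eq_one_comm.1 hzz) (M := M)
        (hfixz _ (by rw [Fintype.card_sum, Fintype.card_fin]; omega)) fun x n B hx hζ =>
          hMM z hz hfixz x n B hx fun j k hjk =>
            zeta_eq (D.toPD htop hz) (isLA_hn H) hx (isZ_of hz.comm hz.commE).comm B hζ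
              (pres_fix H (κ := Fin 1) (by rw [cj_cji]; exact hfixz _ (by simpa using h2))) hjk
      simp only [Complex.ofReal_ratCast]
      change kp (Fin (n + 1)) g *ᵥ ca h = ca h
      rw [hgq, kp_mul, ← Matrix.mulVec_mulVec, hzS _ h hh, hq _ h hh]
  rw [← hA.mem_iff]
  exact BP.descent _ h1

/-- Self-adjoint centres. -/
theorem core_adjS (D : AData H A) (htop : ∃ v : Fin (Module.finrank ℂ D.V) → D.V, pL D.L v ≠ 0)
    (hNN : Ng H (RingEquiv.refl ℂ) * Ng H (RingEquiv.refl ℂ) * cQ D.pr1 = cQ D.pr1)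
    (hR : ∀ x, D.IsCE x → cQ x * cQ H.Qir = cQ H.Qir * (cQ x)ᵀ)
    (hA : RFam H B) (hN : ∀ n, n + 1 ≤ 2 → BB H (Fin (n + 1)) ≤ B n)
    (hmu : arr (D.mu * kp (Unit ⊕ Unit) H.Qir) ∈ AQ B (Unit ⊕ (Unit ⊕ Unit))) (n : ℕ)
    (h : (Fin (n + 1) → ι) → ℚ) (hh : h ∈ BB H (Fin (n + 1))) : h ∈ B n :=
  coreS D htop (hR _ D.pr1_CE) hNN (N := 2) (M := 1) le_rfl le_rfl
    (fun _ hz _ _ _ B hx heq s hs hbad hirr i p _ hp =>
      D.count_one hz (hR _ D.pr1_CE) hx B heq hs hbad hirr (D.two_mem hR hx B i) p hp)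
    hA hN hmu n h hh

/-- The trace condition. -/
theorem core_trS (D : AData H A) (htop : ∃ v : Fin (Module.finrank ℂ D.V) → D.V, pL D.L v ≠ 0)
    (hP : cQ D.pr1 * cQ H.Qir = cQ H.Qir * (cQ D.pr1)ᵀ)
    (hNN : Ng H (RingEquiv.refl ℂ) * Ng H (RingEquiv.refl ℂ) * cQ D.pr1 = cQ D.pr1)
    (hT : ∀ x, D.IsCE x → (cQ x * Ng H (RingEquiv.refl ℂ)).trace = 0) {g : ℕ}
    (hg : Module.finrank ℂ D.V = 2 * g)
    (hA : RFam H B) (hN : ∀ n, n + 1 ≤ max 2 (2 * g) → BB H (Fin (n + 1)) ≤ B n)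
    (hmu : arr (D.mu * kp (Unit ⊕ Unit) H.Qir) ∈ AQ B (Unit ⊕ (Unit ⊕ Unit))) (n : ℕ)
    (h : (Fin (n + 1) → ι) → ℚ) (hh : h ∈ BB H (Fin (n + 1))) : h ∈ B n := by
  classical
  refine coreS D htop hP hNN (N := max 2 (2 * g)) (M := max 1 g) (le_max_left _ _) (by omega)
    (fun z hz _ x m B hx heq s hs hbad hirr i p _ hp => ?_) hA hN hmu n h hh
  by_cases h2 : 2 • B.T i ∈ QL (hn H) x
  · exact (D.count_one hz hP hx B heq hs hbad hirr h2 p hp).trans (le_max_left _ _)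
  let S : Finset (Fin m) := Finset.univ.filter fun j => B.T j - B.T i ∈ QL (hn H) x
  have hS : ∀ j, j ∈ S ↔ B.T j - B.T i ∈ QL (hn H) x := fun j => by simp [S]
  have hi : i ∈ S := (hS i).2 (by rw [sub_self]; exact (QL _ x).zero_mem)
  have hm : m = 2 * g := by
    have h3 := Module.finrank_eq_card_basis B.bas
    rw [Fintype.card_fin] at h3
    rw [← h3, ← hg]
    exact D.eV.finrank_eq.symm
  have hc := D.half hP hx B i h2 S fun j hj => (hS j).1 hj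
  have h3 := D.tot_coset htop hz B hT hx i S hS
  have h4 : ∑ j ∈ S, (B.T j - B.T i) ∈ QL (hn H) x :=
    (QL (hn H) x).sum_mem fun j hj => (hS j).1 hj
  rw [Finset.sum_sub_distrib, h3, Finset.sum_const, zero_sub] at h4
  exact (B.count_le hirr (Finset.card_pos.2 ⟨i, hi⟩) (by omega : S.card ≤ g)
    ((QL (hn H) x).neg_mem_iff.1 h4) p hp).trans (le_max_right _ _)

/-- **All structures of abelian type.** -/
theorem core_genS (D : AData H A) (htop : ∃ v : Fin (Module.finrank ℂ D.V) → D.V, pL D.L v ≠ 0)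
    (hP : cQ D.pr1 * cQ H.Qir = cQ H.Qir * (cQ D.pr1)ᵀ)
    (hNN : Ng H (RingEquiv.refl ℂ) * Ng H (RingEquiv.refl ℂ) * cQ D.pr1 = cQ D.pr1) {g : ℕ}
    (hg : Module.finrank ℂ D.V = 2 * g)
    (hA : RFam H B) (hN : ∀ n, n + 1 ≤ max 4 (2 * g ^ (2 * g)) → BB H (Fin (n + 1)) ≤ B n)
    (hmu : arr (D.mu * kp (Unit ⊕ Unit) H.Qir) ∈ AQ B (Unit ⊕ (Unit ⊕ Unit))) (n : ℕ)
    (h : (Fin (n + 1) → ι) → ℚ) (hh : h ∈ BB H (Fin (n + 1))) : h ∈ B n :=
  coreS D htop hP hNN (N := max 4 (2 * g ^ (2 * g))) (M := max 2 (g ^ (2 * g))) (by omega)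
    (by omega) (fun _ hz _ _ _ B hx _ _ hs _ hirr i p _ hp =>
      D.irr_count htop hz hP hNN hg hx B hs hirr i p hp) hA hN hmu n h hh

end Pool.Agent.N996.FP
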