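import Pool.Agent.N996.FP.Geo7
import Pool.Agent.N996.FP.Sg

/-!
# The square theorem: the class of the multiplication
-/

set_option linter.unusedSectionVars false

open CategoryTheory AlgebraicGeometry TensorProduct

universe u

namespace Pool.Agent.N996.FP.Geo

open Module Matrix ComplexConjugate Pool.Agent.N996.BP
open Pool.Agent.H914 Pool.Agent.H914.VarClass Pool.Agent.H914.VarClass.Obj
  Pool.Agent.H914.WeilCohomology
open Pool.Agent.Y133.Half Pool.Agent.Y121.AH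
open Pool.Agent.N996.BP.Geo

variable {k : Type u} [Field k] {𝒱 : VarClass k} {ops : CycleOps 𝒱} {T : HodgeTheory ops}
  {X Y : 𝒱.Obj} {ψ : LinearMap.BilinForm T.W.K (T.W.H X)}

section Sums

variable {ι : Type} [Fintype ι] {M : Type*} [AddCommMonoid M]

lemma sum_fcons (n : ℕ) (f : (Fin (n + 1) → ι) → M) :
    ∑ w, f w = ∑ x : ι, ∑ w : Fin n → ι, f (Fin.cons (α := fun _ => ι) x w) := by
  rw [← Equiv.sum_comp (Fin.consEquiv fun _ => ι), Fintype.sum_prod_type]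
  rfl

lemma sum_fin1 (f : (Fin 1 → ι) → M) : ∑ w, f w = ∑ x : ι, f ![x] := by
  rw [sum_fcons]
  refine Finset.sum_congr rfl fun x _ => ?_
  rw [Fintype.sum_unique]
  congr 1

lemma sum_fin2 (f : (Fin 2 → ι) → M) : ∑ w, f w = ∑ x : ι, ∑ y : ι, f ![x, y] := by
  rw [sum_fcons]
  refine Finset.sum_congr rfl fun x _ => ?_
  rw [sum_fin1]
  rfl

lemma sum_fin3 (f : (Fin 3 → ι) → M) : ∑ w, f w = ∑ x : ι, ∑ y : ι, ∑ z : ι, f ![x, y, z] := by
  rw [sum_fcons]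
  refine Finset.sum_congr rfl fun x _ => ?_
  rw [sum_fin2]
  rfl

lemma sum_tri (g : ι → ι → ι → M) : ∑ c, ∑ d, ∑ k, g c d k = ∑ k, ∑ d, ∑ c, g c d k := by
  rw [Finset.sum_comm]
  have h1 : ∀ d, ∑ c, ∑ k, g c d k = ∑ k, ∑ c, g c d k := fun d => Finset.sum_comm
  rw [Finset.sum_congr rfl fun d _ => h1 d, Finset.sum_comm]

lemma sum_five (f : ι → ι → ι → ι → ι → M) :
    ∑ a, ∑ b, ∑ c, ∑ d, ∑ k, f a b c d k = ∑ k, ∑ d, ∑ b, ∑ a, ∑ c, f a b c d k := by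
  have h1 : ∑ a, ∑ b, ∑ c, ∑ d, ∑ k, f a b c d k = ∑ a, ∑ b, ∑ k, ∑ d, ∑ c, f a b c d k :=
    Finset.sum_congr rfl fun a _ => Finset.sum_congr rfl fun b _ => sum_tri _
  rw [h1, sum_tri fun a b k => ∑ d, ∑ c, f a b c d k]
  refine Finset.sum_congr rfl fun k _ => ?_
  rw [sum_tri fun b a d => ∑ c, f a b c d k]
  exact Finset.sum_congr rfl fun d _ => Finset.sum_comm

end Sums

section Words

variable {W : WeilCohomology.{u, 0} ops} {ι : Type} [Fintype ι] [DecidableEq ι]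
  (e : Basis ι W.K (W.H X))

lemma wb_one' (w : Fin (1 + 1) → ι) : wb e 1 w =
    W.map (prj X 1 0) (e (w 0)) * W.map (prj X 1 1) (e (w 1)) := by
  rw [wb_eq]
  simp [List.ofFn_succ]

lemma wb_two' (w : Fin (2 + 1) → ι) : wb e 2 w =
    W.map (prj X 2 0) (e (w 0)) * (W.map (prj X 2 1) (e (w 1)) *
      W.map (prj X 2 2) (e (w 2))) := by
  rw [wb_eq]
  simp [List.ofFn_succ]

/-- The projection to two of three factors. -/
noncomputable def rab (X : 𝒱.Obj) (a b : Fin (2 + 1)) : pw X 2 ⟶ pw X 1 :=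
  liftN X 1 fun i => prj X 2 ((![a, b] : Fin (1 + 1) → Fin (2 + 1)) i)

lemma isCd_rab (a b : Fin (2 + 1)) : IsCd (rab X a b) := isCd_liftN _

lemma map_rab (a b : Fin (2 + 1)) (w : Fin (1 + 1) → ι) : W.map (rab X a b) (wb e 1 w) =
    W.map (prj X 2 a) (e (w 0)) * W.map (prj X 2 b) (e (w 1)) := by
  rw [wb_one', map_mul, ← W.map_comp, ← W.map_comp, rab, liftN_prj, liftN_prj]
  rfl

/-- The array of a matrix as a class on the square. -/
noncomputable def cQ2 (M : Matrix ι ι ℚ) : W.H (pw X 1) := clw e 1 fun w => M (w 0) (w 1)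

lemma map_cQ2 (M : Matrix ι ι ℚ) (a b : Fin (2 + 1)) : W.map (rab X a b) (cQ2 e M) =
    ∑ x, ∑ y, ((M x y : ℚ) : W.K) • (W.map (prj X 2 a) (e x) * W.map (prj X 2 b) (e y)) := by
  rw [cQ2, clw, map_sum]
  refine (sum_fin2 _).trans ?_
  refine Finset.sum_congr rfl fun x _ => Finset.sum_congr rfl fun y _ => ?_
  rw [map_smul, map_rab]
  rfl

/-- The class of the multiplication. -/
lemma mu_clw {M : Matrix ι ι ℚ} {c : ι → ι → ι → ℚ}
    (hc : ∀ i j, e i * e j = ∑ k, ((c k i j : ℚ) : W.K) • e k)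
    (hev : W.map (rab X 0 1) (cQ2 e M) ∈ PH W (pw X 2) 0) :
    W.map (rab X 0 2) (cQ2 e M) * W.map (rab X 0 1) (cQ2 e M) =
      clw e 2 fun w => ∑ x, ∑ y, c (w 0) x y * (M x (w 2) * M y (w 1)) := by
  obtain ⟨F, hF⟩ : ∃ F : ι → ι → ι → W.H (pw X 2), F = fun k j i =>
    W.map (prj X 2 0) (e k) * (W.map (prj X 2 1) (e j) * W.map (prj X 2 2) (e i)) := ⟨_, rfl⟩
  have hR : clw e 2 (fun w => ∑ x, ∑ y, c (w 0) x y * (M x (w 2) * M y (w 1))) =
      ∑ k, ∑ j, ∑ i, ∑ x, ∑ y,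
        ((c k x y : ℚ) : W.K) • (((M x i : ℚ) : W.K) * ((M y j : ℚ) : W.K)) • F k j i := by
    rw [clw]
    refine (sum_fin3 _).trans ?_
    refine Finset.sum_congr rfl fun k _ => Finset.sum_congr rfl fun j _ =>
      Finset.sum_congr rfl fun i _ => ?_
    rw [wb_two', Rat.cast_sum, Finset.sum_smul]
    refine Finset.sum_congr rfl fun x _ => ?_
    rw [Rat.cast_sum, Finset.sum_smul]
    refine Finset.sum_congr rfl fun y _ => ?_
    rw [Rat.cast_mul, Rat.cast_mul, mul_smul, hF]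
    rfl
  have hL : W.map (rab X 0 2) (cQ2 e M) * W.map (rab X 0 1) (cQ2 e M) =
      ∑ x, ∑ i, ∑ y, ∑ j, ∑ k,
        ((c k x y : ℚ) : W.K) • (((M x i : ℚ) : W.K) * ((M y j : ℚ) : W.K)) • F k j i := by
    have h2 : ∀ x i, W.map (prj X 2 0) (e x) * W.map (prj X 2 2) (e i) *
        W.map (rab X 0 1) (cQ2 e M) = ∑ y, ∑ j, ∑ k,
          ((c k x y : ℚ) : W.K) • ((M y j : ℚ) : W.K) • F k j i := by
      intro x i
      rw [mul_assoc, ← PH.even_comm hev, map_cQ2, Finset.sum_mul, Finset.mul_sum]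
      refine Finset.sum_congr rfl fun y _ => ?_
      rw [Finset.sum_mul, Finset.mul_sum]
      refine Finset.sum_congr rfl fun j _ => ?_
      rw [smul_mul_assoc, mul_smul_comm, mul_assoc, ← mul_assoc, ← map_mul, hc, map_sum,
        Finset.sum_mul, Finset.smul_sum]
      refine Finset.sum_congr rfl fun k _ => ?_
      rw [map_smul, smul_mul_assoc, smul_comm, hF]
    rw [map_cQ2 e M 0 2, Finset.sum_mul]
    refine Finset.sum_congr rfl fun x _ => ?_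
    rw [Finset.sum_mul]
    refine Finset.sum_congr rfl fun i _ => ?_
    rw [smul_mul_assoc, h2, Finset.smul_sum]
    refine Finset.sum_congr rfl fun y _ => ?_
    rw [Finset.smul_sum]
    refine Finset.sum_congr rfl fun j _ => ?_
    rw [Finset.smul_sum]
    refine Finset.sum_congr rfl fun k _ => ?_
    rw [smul_comm, mul_smul]
  rw [hR, hL]
  exact sum_five fun x i y j k =>
    ((c k x y : ℚ) : W.K) • (((M x i : ℚ) : W.K) * ((M y j : ℚ) : W.K)) • F k j i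

end Words

/-- The three indices of the multiplication. -/
def e3 : Unit ⊕ (Unit ⊕ Unit) ≃ Fin (2 + 1) where
  toFun := Sum.elim (fun _ => 0) (Sum.elim (fun _ => 2) fun _ => 1)
  invFun := ![Sum.inl (), Sum.inr (Sum.inr ()), Sum.inr (Sum.inl ())]
  left_inv := by rintro (_ | _ | _) <;> rfl
  right_inv := by intro i; fin_cases i <;> rfl

/-- Two indices. -/
def e2 : Unit ⊕ Unit ≃ Fin (1 + 1) where
  toFun := Sum.elim (fun _ => 0) fun _ => 1
  invFun := ![Sum.inl (), Sum.inr ()]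
  left_inv := by rintro (_ | _) <;> rfl
  right_inv := by intro i; fin_cases i <;> rfl

section Data

variable {ι : Type} [Fintype ι] [DecidableEq ι] {e : Basis ι T.W.K (T.W.H X)} {deg : ι → ℕ}
  {H : HData ι} (hψ : IsPHS (tauT T) (Fx T X) ψ X.dim)
  (hdeg : ∀ j, e j ∈ T.W.gr X (deg j)) (ho : e H.D.o = 1)
  (hH : ∀ t : ℂ, t ≠ 0 → H.l t = mG hψ.int e (fun k => t ^ k))
  (hgen : Algebra.adjoin T.W.K (T.W.gr X 1 : Set (T.W.H X)) = ⊤)

/-- The multiplication belongs to the family. -/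
lemma mu_mem {S : CSys T.W X} (hle : ∀ n, S.C n ≤ (hodgePred T).sp (pw X n))
    (hfam : RFam H (fun n => arrc e S n)) {N : ℕ} (h2 : 2 ≤ N)
    (hN : ∀ n, n + 1 ≤ N → BB H (Fin (n + 1)) ≤ arrc e S n) :
    arr ((DD hψ hdeg ho hH hgen).mu * kp (Unit ⊕ Unit) H.Qir) ∈
      AQ (fun n => arrc e S n) (Unit ⊕ (Unit ⊕ Unit)) := by
  have hq : cQ2 e H.Qir ∈ S.C 1 := by
    have h1 := hfam.invQ hN h2 Unit 1 e2
    have h3 : rei e2 (arr (kp Unit H.Qir)) = fun w : Fin (1 + 1) → ι => H.Qir (w 0) (w 1) := by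
      funext w
      rw [rei, arr, kp_apply, Fintype.prod_unique]
      rfl
    rw [h3] at h1
    exact h1
  have hev : T.W.map (rab X 0 1) (cQ2 e H.Qir) ∈ PH T.W (pw X 2) 0 :=
    PH.map _ ((hodgePred T).sys.even (hle 1 hq))
  refine hfam.of (n := 2) e3 ?_
  rw [mem_arrc]
  have hc : ∀ i j, e i * e j = ∑ k,
      (((DD hψ hdeg ho hH hgen).c k i j : ℚ) : T.W.K) • e k := by
    intro i j
    conv_lhs => rw [← e.sum_repr (e i * e j)]
    refine Finset.sum_congr rfl fun k _ => ?_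
    congr 1
    exact ((gdata e hdeg ho hH hgen).rq_spec _).symm
  have h4 := mu_clw e hc hev
  have h5 : (rei e3 (arr ((DD hψ hdeg ho hH hgen).mu * kp (Unit ⊕ Unit) H.Qir))) =
      fun w : Fin (2 + 1) → ι => ∑ x, ∑ y, (DD hψ hdeg ho hH hgen).c (w 0) x y *
        (H.Qir x (w 2) * H.Qir y (w 1)) := by
    funext w
    rw [rei, arr, Matrix.mul_apply, sum_sumElim, sum_unit]
    refine Finset.sum_congr rfl fun x _ => ?_
    rw [sum_unit]
    refine Finset.sum_congr rfl fun y _ => ?_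
    rw [kp_apply, Fintype.prod_sum_type, Fintype.prod_unique, Fintype.prod_unique]
    rfl
  rw [h5, ← h4]
  exact S.mul (S.map _ (isCd_rab 0 2) hq) (S.map _ (isCd_rab 0 1) hq)

end Data

/-- The reduction to coordinates. -/
theorem geo_coreS (hψ : IsPHS (tauT T) (Fx T X) ψ X.dim)
    (hgen : Algebra.adjoin T.W.K (T.W.gr X 1 : Set (T.W.H X)) = ⊤)
    (hb : finrank T.W.K (T.W.gr X 1) = 2 * X.dim) (S : CSys T.W X)
    (hle : ∀ n, S.C n ≤ (hodgePred T).sp (pw X n)) {N : ℕ} (hN : 2 ≤ N)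
    (h : (hodgePred T).sp (pw X (N - 1)) ≤ S.C (N - 1))
    (key : ∀ (ι : Type) [Fintype ι] [DecidableEq ι] (e : Basis ι T.W.K (T.W.H X)) (deg : ι → ℕ)
      (H : HData ι) (hdeg : ∀ j, e j ∈ T.W.gr X (deg j)) (ho : e H.D.o = 1)
      (hH : ∀ t : ℂ, t ≠ 0 → H.l t = mG hψ.int e (fun k => t ^ k)) (r : ℂ)
      (_ : cQ H.Qr = r • (fM e ψ)ᵀ)
      (_ : ∃ v : Fin (finrank ℂ (DD hψ hdeg ho hH hgen).V) → (DD hψ hdeg ho hH hgen).V,
        pL (DD hψ hdeg ho hH hgen).L v ≠ 0)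
      (B : ∀ n : ℕ, Submodule ℚ ((Fin (n + 1) → ι) → ℚ)) (_ : RFam H B)
      (_ : ∀ n, n + 1 ≤ N → BB H (Fin (n + 1)) ≤ B n)
      (_ : arr ((DD hψ hdeg ho hH hgen).mu * kp (Unit ⊕ Unit) H.Qir) ∈
        AQ B (Unit ⊕ (Unit ⊕ Unit))) (n : ℕ), BB H (Fin (n + 1)) ≤ B n) :
    ∀ n, (hodgePred T).sp (pw X n) ≤ S.C n := by
  classical
  intro n c hc
  rcases subsingleton_or_nontrivial (T.W.H X) with hs | hs
  · have h1 : Subsingleton (T.W.H (pw X n)) := by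
      have h2 : finrank T.W.K (T.W.H (pw X n)) = 0 := by
        rw [finrank_pw, finrank_zero_of_subsingleton, zero_pow (Nat.succ_ne_zero n)]
      exact finrank_zero_iff.1 h2
    rw [Subsingleton.elim c 0]
    exact Submodule.zero_mem _
  obtain ⟨ι, _, _, e, o, deg, heo, hdeg⟩ := exists_ubasis T.W X
  have ho : (1 : ℂ) ⊗ₜ[T.W.K] e o ∈ Fx T X (0, 0) := by
    rw [heo]
    have h1 := (isHodge_one (T := T) (X := X)).2
    exact h1
  obtain ⟨H, hHo, hHw, hH, r, hr, hQ⟩ := hψ.exists_hdata2 e o ho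
  have hsmall : ∀ n, n + 1 ≤ N → (hodgePred T).sp (pw X n) ≤ S.C n := fun n hn =>
    mono_cd (S' := (hodgePred T).sys.csys X) (show n ≤ N - 1 by omega) h
  have h1X : (hodgePred T).sp (pw X 1) ≤ S.C 1 := hsmall 1 (by omega)
  have hdp : dp T.W X ∈ S.C 1 := h1X (inv_iff.1 inv_dp)
  -- the parities
  let p : ι → Fin 2 := fun j => ⟨deg j % 2, Nat.mod_lt _ two_pos⟩
  have hp : ∀ j, e j ∈ PH T.W X (p j : ℕ) := fun j =>
    PH.of' (by change deg j % 2 = (deg j % 2) % 2; omega) (hdeg j)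
  -- the form
  obtain ⟨q, hq, hqQ⟩ : ∃ q : T.W.H (X.prod X), Inv T (X.prod X) q ∧
      ∀ w, T.W.tr (pw X 1) (wb e 1 w * (show T.W.H (pw X 1) from q)) =
        ((H.Qr (w 0) (w 1) : ℚ) : T.W.K) := exists_q e hH
  have hqS : (show T.W.H (pw X 1) from q) ∈ S.C 1 := h1X (inv_iff.1 hq)
  have hqE : q ∈ PH T.W (X.prod X) 0 := (hodgePred T).sys.even (inv_iff.1 hq)
  have hqQ' : ∀ i j, T.W.tr (X.prod X) (xp T.W (e i) (e j) * q) = ((H.Qr i j : ℚ) : T.W.K) := by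
    intro i j
    have h3 := hqQ (Fin.snoc (α := fun _ => ι) (fun _ : Fin (0 + 1) => i) j)
    have h4 : wb e (0 + 1) (Fin.snoc (α := fun _ => ι) (fun _ : Fin (0 + 1) => i) j) =
        xp T.W (e i) (e j) := by
      rw [wb_snoc]
      have h5 : wb e 0 (fun _ => i) = e i := wb_zero e _
      rw [h5]
      rfl
    have h6 : T.W.tr (pw X 1) (wb e 1 (Fin.snoc (α := fun _ => ι) (fun _ : Fin (0 + 1) => i) j) *
        (show T.W.H (pw X 1) from q)) = T.W.tr (X.prod X) (xp T.W (e i) (e j) * q) := by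
      rw [← h4]
      rfl
    rw [← h6, h3]
    rfl
  have hfam : RFam H (fun n => arrc e S n) :=
    { perm := fun n σ a ha => arrc_perm hp hdp n σ ha
      tens := fun n m a b ha hb => arrc_tens e n m ha hb
      contr := fun n a ha => arrc_contr (fun j => ⟨_, hp j⟩) hqS hqE hqQ' n ha
      le := fun n a ha => (inv_cls e hH n a).1 (inv_iff.2 (hle n ha)) }
  -- the algebra
  have ho1 : e H.D.o = 1 := by rw [hHo, heo]
  obtain ⟨D, hD⟩ : ∃ D, D = DD hψ hdeg ho1 hH hgen := ⟨_, rfl⟩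
  have htop : ∃ v : Fin (finrank ℂ D.V) → D.V, pL D.L v ≠ 0 := by
    subst hD
    obtain ⟨v, hv, hv0⟩ := exists_topc hgen
    have hfin : finrank T.W.K ((gdata e hdeg ho1 hH hgen).gr 1) = 2 * X.dim := hb
    have key : ∀ m, m = 2 * X.dim → ∃ v : Fin m → T.W.H X,
        (∀ i, v i ∈ (gdata e hdeg ho1 hH hgen).gr 1) ∧ (List.ofFn v).prod ≠ 0 := by
      rintro m rfl
      exact ⟨v, hv, hv0⟩
    obtain ⟨v, hv, hv0⟩ := key _ hfin
    exact (gdata e hdeg ho1 hH hgen).exists_top v hv hv0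
  obtain ⟨a, rfl⟩ := cls_surj e n c
  have ha : a ∈ BB H (Fin (n + 1)) := (inv_cls e hH n a).1 (inv_iff.2 hc)
  subst hD
  have hNB : ∀ n, n + 1 ≤ N → BB H (Fin (n + 1)) ≤ arrc e S n :=
    fun n hn a ha => hsmall n hn (inv_iff.1 ((inv_cls e hH n a).2 ha))
  exact key ι e deg H hdeg ho1 hH r hQ htop _ hfam hNB
    (mu_mem hψ hdeg ho1 hH hgen hle hfam hN hNB) n ha

/-- **Self-adjoint centres: the square.** -/
theorem adjS_c (hψ : IsPHS (tauT T) (Fx T X) ψ X.dim)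
    (hgen : Algebra.adjoin T.W.K (T.W.gr X 1 : Set (T.W.H X)) = ⊤)
    (hb : finrank T.W.K (T.W.gr X 1) = 2 * X.dim) (S : CSys T.W X)
    (hle : ∀ n, S.C n ≤ (hodgePred T).sp (pw X n))
    (hadj : ∀ f, Cen1 T X f → ∀ c ∈ T.W.gr X 1, ∀ d ∈ T.W.gr X 1, ψ (f c) d = ψ c (f d))
    (h : (hodgePred T).sp (pw X 1) ≤ S.C 1) :
    ∀ n, (hodgePred T).sp (pw X n) ≤ S.C n :=
  geo_coreS hψ hgen hb S hle (N := 2) le_rfl h
    fun _ _ _ _ _ _ hdeg ho hH _ hQ htop _ hB hN hmu n a ha =>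
      core_adjS (DD hψ hdeg ho hH hgen) htop (Ng_pr1 hψ hdeg ho hH hgen)
        (fun _ hx => ce_adj hψ hdeg ho hH hgen hQ hadj hx) hB hN hmu n a ha

/-- **Traces.** -/
theorem trS_c (hψ : IsPHS (tauT T) (Fx T X) ψ X.dim)
    (hgen : Algebra.adjoin T.W.K (T.W.gr X 1 : Set (T.W.H X)) = ⊤)
    (hb : finrank T.W.K (T.W.gr X 1) = 2 * X.dim) (S : CSys T.W X)
    (hle : ∀ n, S.C n ≤ (hodgePred T).sp (pw X n))
    (htr : ∀ f, Cen1 T X f → TrEq T X f)
    (h : (hodgePred T).sp (pw X (max 2 (2 * X.dim) - 1)) ≤ S.C (max 2 (2 * X.dim) - 1)) :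
    ∀ n, (hodgePred T).sp (pw X n) ≤ S.C n :=
  geo_coreS hψ hgen hb S hle (N := max 2 (2 * X.dim)) (le_max_left _ _) h
    fun _ _ _ e _ _ hdeg ho hH _ hQ htop _ hB hN hmu n a ha =>
      core_trS (DD hψ hdeg ho hH hgen) htop (pr1_adj hψ hdeg ho hH hgen hQ)
        (Ng_pr1 hψ hdeg ho hH hgen)
        (fun _ hx => ce_tr hψ hdeg ho hH hgen htr hx)
        (((gdata e hdeg ho hH hgen).finrank_V).trans hb) hB hN hmu n a ha

/-- **All structures of abelian type.** -/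
theorem genS_c (hψ : IsPHS (tauT T) (Fx T X) ψ X.dim)
    (hgen : Algebra.adjoin T.W.K (T.W.gr X 1 : Set (T.W.H X)) = ⊤)
    (hb : finrank T.W.K (T.W.gr X 1) = 2 * X.dim) (S : CSys T.W X)
    (hle : ∀ n, S.C n ≤ (hodgePred T).sp (pw X n))
    (h : (hodgePred T).sp (pw X (max 4 (2 * X.dim ^ (2 * X.dim)) - 1)) ≤
      S.C (max 4 (2 * X.dim ^ (2 * X.dim)) - 1)) :
    ∀ n, (hodgePred T).sp (pw X n) ≤ S.C n :=
  geo_coreS hψ hgen hb S hle (N := max 4 (2 * X.dim ^ (2 * X.dim)))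
    (le_trans (by norm_num) (le_max_left _ _)) h
    fun _ _ _ e _ _ hdeg ho hH _ hQ htop _ hB hN hmu n a ha =>
      core_genS (DD hψ hdeg ho hH hgen) htop (pr1_adj hψ hdeg ho hH hgen hQ)
        (Ng_pr1 hψ hdeg ho hH hgen)
        (((gdata e hdeg ho hH hgen).finrank_V).trans hb) hB hN hmu n a ha

end Pool.Agent.N996.FP.Geo
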