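import Mathlib

/-!
# Functions of Hermitian matrices and of their adjoint action
-/

set_option linter.unusedSectionVars false

namespace Pool.Agent.N996.FP

open Matrix

variable {ι : Type} [Fintype ι] [DecidableEq ι]

/-- The spectral theorem. -/
lemma exists_diag {x : Matrix ι ι ℂ} (hx : xᴴ = x) :
    ∃ (U : Matrix ι ι ℂ) (c : ι → ℝ), Uᴴ * U = 1 ∧ U * Uᴴ = 1 ∧
      x = U * diagonal (fun i => (c i : ℂ)) * Uᴴ := by
  have h : x.IsHermitian := hx
  refine ⟨(h.eigenvectorUnitary : Matrix ι ι ℂ), h.eigenvalues, ?_, ?_, ?_⟩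
  · exact Unitary.coe_star_mul_self h.eigenvectorUnitary
  · exact Unitary.coe_mul_star_self h.eigenvectorUnitary
  · have h1 := h.spectral_theorem
    rw [Unitary.conjStarAlgAut_apply] at h1
    exact h1

/-- The Hadamard multiplication with the matrix `θ` in the basis `U`. -/
def had (U : Matrix ι ι ℂ) (θ : ι → ι → ℂ) (z : Matrix ι ι ℂ) : Matrix ι ι ℂ :=
  U * (Matrix.of fun i j => θ i j * (Uᴴ * z * U) i j) * Uᴴ

variable {U : Matrix ι ι ℂ}

lemma had_had (hU : Uᴴ * U = 1) (θ θ' : ι → ι → ℂ) (z : Matrix ι ι ℂ) :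
    had U θ (had U θ' z) = had U (fun i j => θ i j * θ' i j) z := by
  rw [had, had, had]
  have h1 : Uᴴ * (U * (Matrix.of fun i j => θ' i j * (Uᴴ * z * U) i j) * Uᴴ) * U =
      Matrix.of fun i j => θ' i j * (Uᴴ * z * U) i j := by
    calc Uᴴ * (U * (Matrix.of fun i j => θ' i j * (Uᴴ * z * U) i j) * Uᴴ) * U =
        (Uᴴ * U) * (Matrix.of fun i j => θ' i j * (Uᴴ * z * U) i j) * (Uᴴ * U) := by
          simp only [Matrix.mul_assoc]
      _ = _ := by rw [hU, Matrix.one_mul, Matrix.mul_one]
  rw [h1]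
  congr 2
  ext i j
  simp only [Matrix.of_apply]
  ring

lemma had_add (θ θ' : ι → ι → ℂ) (z : Matrix ι ι ℂ) :
    had U (fun i j => θ i j + θ' i j) z = had U θ z + had U θ' z := by
  rw [had, had, had, ← Matrix.add_mul, ← Matrix.mul_add]
  congr 2
  ext i j
  simp only [Matrix.of_apply, Matrix.add_apply]
  ring

lemma had_smul (c : ℂ) (θ : ι → ι → ℂ) (z : Matrix ι ι ℂ) :
    had U (fun i j => c * θ i j) z = c • had U θ z := by
  rw [had, had, ← Matrix.smul_mul, ← Matrix.mul_smul]
  congr 2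
  ext i j
  simp only [Matrix.of_apply, Matrix.smul_apply, smul_eq_mul]
  ring

lemma had_sum {α : Type*} (s : Finset α) (θ : α → ι → ι → ℂ) (z : Matrix ι ι ℂ) :
    had U (fun i j => ∑ a ∈ s, θ a i j) z = ∑ a ∈ s, had U (θ a) z := by
  classical
  induction s using Finset.induction_on with
  | empty =>
    simp only [Finset.sum_empty, had, zero_mul]
    have : (Matrix.of fun _ _ => (0 : ℂ) : Matrix ι ι ℂ) = 0 := rfl
    rw [this, Matrix.mul_zero, Matrix.zero_mul]
  | insert a s ha ih =>
    rw [Finset.sum_insert ha, ← ih, ← had_add]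
    congr 1
    ext i j
    rw [Finset.sum_insert ha]

lemma had_one (hU : U * Uᴴ = 1) (z : Matrix ι ι ℂ) : had U (fun _ _ => 1) z = z := by
  have h1 : (Matrix.of fun i j => (1 : ℂ) * (Uᴴ * z * U) i j) = Uᴴ * z * U := by
    ext i j; simp
  rw [had, h1]
  calc U * (Uᴴ * z * U) * Uᴴ = (U * Uᴴ) * z * (U * Uᴴ) := by simp only [Matrix.mul_assoc]
    _ = z := by rw [hU, Matrix.one_mul, Matrix.mul_one]

/-- Functions of an operator preserving a subspace preserve the subspace. -/
lemma had_mem {h : Submodule ℂ (Matrix ι ι ℂ)} (hU : Uᴴ * U = 1) (hU' : U * Uᴴ = 1)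
    {θ : ι → ι → ℂ} (hθ : ∀ z ∈ h, had U θ z ∈ h) (f : ℂ → ℂ) {z : Matrix ι ι ℂ} (hz : z ∈ h) :
    had U (fun i j => f (θ i j)) z ∈ h := by
  classical
  let s : Finset ℂ := Finset.univ.image fun p : ι × ι => θ p.1 p.2
  let P : Polynomial ℂ := Lagrange.interpolate s id f
  have hP : ∀ i j, P.eval (θ i j) = f (θ i j) := by
    intro i j
    have := Lagrange.eval_interpolate_at_node (v := id) (s := s) f (Set.injOn_id _)
      (i := θ i j) (Finset.mem_image.2 ⟨(i, j), Finset.mem_univ _, rfl⟩)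
    exact this
  have hpow : ∀ n : ℕ, had U (fun i j => θ i j ^ n) z ∈ h := by
    intro n
    induction n with
    | zero =>
      simp only [pow_zero]
      rw [had_one hU']
      exact hz
    | succ n ih =>
      have h1 := hθ _ ih
      rw [had_had hU] at h1
      simp only [pow_succ']
      exact h1
  have hpoly : ∀ Q : Polynomial ℂ, had U (fun i j => Q.eval (θ i j)) z ∈ h := by
    intro Q
    induction Q using Polynomial.induction_on' with
    | add p q hp hq =>
      simp only [Polynomial.eval_add]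
      rw [had_add]
      exact Submodule.add_mem _ hp hq
    | monomial n a =>
      simp only [Polynomial.eval_monomial]
      rw [had_smul]
      exact Submodule.smul_mem _ _ (hpow n)
  have h1 := hpoly P
  simp only [hP] at h1
  exact h1

/-- The adjoint action. -/
lemma had_ad (hU : Uᴴ * U = 1) (hU' : U * Uᴴ = 1) (c : ι → ℂ) (z : Matrix ι ι ℂ) :
    had U (fun i j => c i - c j) z =
      (U * diagonal c * Uᴴ) * z - z * (U * diagonal c * Uᴴ) := by
  have h1 : (Matrix.of fun i j => (c i - c j) * (Uᴴ * z * U) i j) =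
      diagonal c * (Uᴴ * z * U) - (Uᴴ * z * U) * diagonal c := by
    ext i j
    rw [Matrix.sub_apply, Matrix.diagonal_mul, Matrix.mul_diagonal, Matrix.of_apply]
    ring
  rw [had, h1, Matrix.mul_sub, Matrix.sub_mul]
  congr 1
  · calc U * (diagonal c * (Uᴴ * z * U)) * Uᴴ = U * diagonal c * Uᴴ * z * (U * Uᴴ) := by
          simp only [Matrix.mul_assoc]
      _ = _ := by rw [hU', Matrix.mul_one]
  · calc U * (Uᴴ * z * U * diagonal c) * Uᴴ = (U * Uᴴ) * z * (U * diagonal c * Uᴴ) := by
          simp only [Matrix.mul_assoc]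
      _ = _ := by rw [hU', Matrix.one_mul]

/-- The action by conjugation. -/
lemma had_Ad (c d : ι → ℂ) (z : Matrix ι ι ℂ) :
    had U (fun i j => c i * d j) z =
      (U * diagonal c * Uᴴ) * z * (U * diagonal d * Uᴴ) := by
  have h1 : (Matrix.of fun i j => (c i * d j) * (Uᴴ * z * U) i j) =
      diagonal c * (Uᴴ * z * U) * diagonal d := by
    ext i j
    rw [Matrix.mul_diagonal, Matrix.diagonal_mul, Matrix.of_apply]
    ring
  rw [had, h1]
  simp only [Matrix.mul_assoc]

/-- Every element of a subspace stable under the adjoint action of a Hermitian matrix is a sum of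
eigenvectors in the subspace with real eigenvalues. -/
lemma ad_ind {x : Matrix ι ι ℂ} (hx : xᴴ = x) {h : Submodule ℂ (Matrix ι ι ℂ)}
    (hh : ∀ z ∈ h, x * z - z * x ∈ h) {P : Matrix ι ι ℂ → Prop} (h0 : P 0)
    (hadd : ∀ z w, P z → P w → P (z + w))
    (he : ∀ (d : ℝ) (z : Matrix ι ι ℂ), z ∈ h → x * z - z * x = (d : ℂ) • z → P z)
    {z : Matrix ι ι ℂ} (hz : z ∈ h) : P z := by
  classical
  obtain ⟨U, c, hU, hU', rfl⟩ := exists_diag hx
  let D : Finset ℝ := Finset.univ.image fun p : ι × ι => c p.1 - c p.2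
  let χ : ℝ → ℂ → ℂ := fun d w => if w = d then 1 else 0
  have h1 : z = ∑ d ∈ D, had U (fun i j => χ d ((c i : ℂ) - c j)) z := by
    rw [← had_sum]
    conv_lhs => rw [← had_one hU' z]
    congr 1
    ext i j
    rw [Finset.sum_eq_single (c i - c j)]
    · simp [χ]
    · intro b _ hb
      simp only [χ]
      rw [if_neg]
      intro h2
      apply hb
      have h3 : ((c i - c j : ℝ) : ℂ) = (b : ℂ) := by rw [← h2]; push_cast; rfl
      exact (Complex.ofReal_injective h3).symm
    · intro hn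
      exact absurd (Finset.mem_image.2 ⟨(i, j), Finset.mem_univ _, rfl⟩) hn
  rw [h1]
  have h2 : ∀ s : Finset ℝ, P (∑ d ∈ s, had U (fun i j => χ d ((c i : ℂ) - c j)) z) := by
    intro s
    induction s using Finset.induction_on with
    | empty => rw [Finset.sum_empty]; exact h0
    | insert a s ha ih =>
      rw [Finset.sum_insert ha]
      refine hadd _ _ ?_ ih
      refine he a _ ?_ ?_
      · refine had_mem hU hU' (θ := fun i j => (c i : ℂ) - c j) ?_ (χ a) hz
        intro z hz
        rw [had_ad hU hU']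
        exact hh z hz
      · rw [← had_ad hU hU', had_had hU, ← had_smul]
        congr 1
        ext i j
        simp only [χ]
        split_ifs with h3
        · rw [h3]
        · ring
  exact h2 D

/-- Functions of a Hermitian matrix. -/
def fn (U : Matrix ι ι ℂ) (φ : ι → ℂ) : Matrix ι ι ℂ := U * diagonal φ * Uᴴ

lemma fn_mul (hU : Uᴴ * U = 1) (φ φ' : ι → ℂ) : fn U φ * fn U φ' = fn U (fun i => φ i * φ' i) := by
  rw [fn, fn, fn]
  calc U * diagonal φ * Uᴴ * (U * diagonal φ' * Uᴴ) =
      U * (diagonal φ * (Uᴴ * U) * diagonal φ') * Uᴴ := by simp only [Matrix.mul_assoc]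
    _ = _ := by rw [hU, Matrix.mul_one, Matrix.diagonal_mul_diagonal]

lemma fn_one (hU' : U * Uᴴ = 1) : fn U (fun _ => 1) = 1 := by
  rw [fn, Matrix.diagonal_one, Matrix.mul_one, hU']

lemma fn_add (φ φ' : ι → ℂ) : fn U (fun i => φ i + φ' i) = fn U φ + fn U φ' := by
  rw [fn, fn, fn, ← Matrix.add_mul, ← Matrix.mul_add, Matrix.diagonal_add]

lemma fn_smul (c : ℂ) (φ : ι → ℂ) : fn U (fun i => c * φ i) = c • fn U φ := by
  rw [fn, fn, ← Matrix.smul_mul, ← Matrix.mul_smul]
  congr 2
  ext i j
  by_cases h : i = j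
  · subst h; simp
  · simp [Matrix.diagonal_apply_ne _ h]

lemma fn_sum {α : Type*} (s : Finset α) (φ : α → ι → ℂ) :
    fn U (fun i => ∑ a ∈ s, φ a i) = ∑ a ∈ s, fn U (φ a) := by
  classical
  induction s using Finset.induction_on with
  | empty =>
    simp only [Finset.sum_empty, fn]
    have : (diagonal fun _ => (0 : ℂ) : Matrix ι ι ℂ) = 0 := Matrix.diagonal_zero
    rw [this, Matrix.mul_zero, Matrix.zero_mul]
  | insert a s ha ih =>
    rw [Finset.sum_insert ha, ← ih, ← fn_add]
    congr 1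
    ext i
    rw [Finset.sum_insert ha]

/-- Functions of a Hermitian matrix preserve the subspaces preserved by the matrix. -/
lemma fn_mem {W : Submodule ℂ (ι → ℂ)} (hU : Uᴴ * U = 1) (hU' : U * Uᴴ = 1) {φ : ι → ℂ}
    (hφ : ∀ w ∈ W, fn U φ *ᵥ w ∈ W) (f : ℂ → ℂ) {w : ι → ℂ} (hw : w ∈ W) :
    fn U (fun i => f (φ i)) *ᵥ w ∈ W := by
  classical
  let s : Finset ℂ := Finset.univ.image fun p : ι => φ p
  let P : Polynomial ℂ := Lagrange.interpolate s id f
  have hP : ∀ i, P.eval (φ i) = f (φ i) := by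
    intro i
    have := Lagrange.eval_interpolate_at_node (v := id) (s := s) f (Set.injOn_id _)
      (i := φ i) (Finset.mem_image.2 ⟨i, Finset.mem_univ _, rfl⟩)
    exact this
  have hpow : ∀ n : ℕ, fn U (fun i => φ i ^ n) *ᵥ w ∈ W := by
    intro n
    induction n with
    | zero =>
      simp only [pow_zero]
      rw [fn_one hU', Matrix.one_mulVec]
      exact hw
    | succ n ih =>
      have h1 := hφ _ ih
      rw [Matrix.mulVec_mulVec, fn_mul hU] at h1
      simp only [pow_succ']
      exact h1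
  have hpoly : ∀ Q : Polynomial ℂ, fn U (fun i => Q.eval (φ i)) *ᵥ w ∈ W := by
    intro Q
    induction Q using Polynomial.induction_on' with
    | add p q hp hq =>
      simp only [Polynomial.eval_add]
      rw [fn_add, Matrix.add_mulVec]
      exact Submodule.add_mem _ hp hq
    | monomial n a =>
      simp only [Polynomial.eval_monomial]
      rw [fn_smul, Matrix.smul_mulVec]
      exact Submodule.smul_mem _ _ (hpow n)
  have h1 := hpoly P
  simp only [hP] at h1
  exact h1

/-- Every element of a subspace stable under a Hermitian matrix is a sum of eigenvectors in the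
subspace with real eigenvalues. -/
lemma vec_ind {x : Matrix ι ι ℂ} (hx : xᴴ = x) {W : Submodule ℂ (ι → ℂ)}
    (hh : ∀ z ∈ W, x *ᵥ z ∈ W) {P : (ι → ℂ) → Prop} (h0 : P 0)
    (hadd : ∀ z w, P z → P w → P (z + w))
    (he : ∀ (d : ℝ) (z : ι → ℂ), z ∈ W → x *ᵥ z = (d : ℂ) • z → P z)
    {z : ι → ℂ} (hz : z ∈ W) : P z := by
  classical
  obtain ⟨U, c, hU, hU', hxe⟩ := exists_diag hx
  have hxe' : x = fn U fun i => (c i : ℂ) := hxe
  subst hxe'
  clear hxe
  let D : Finset ℝ := Finset.univ.image c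
  let χ : ℝ → ℂ → ℂ := fun d w => if w = d then 1 else 0
  have h1 : z = ∑ d ∈ D, fn U (fun i => χ d (c i : ℂ)) *ᵥ z := by
    rw [← Matrix.sum_mulVec, ← fn_sum]
    conv_lhs => rw [← Matrix.one_mulVec z, ← fn_one hU']
    congr 2
    ext i
    rw [Finset.sum_eq_single (c i)]
    · simp [χ]
    · intro b _ hb
      simp only [χ]
      rw [if_neg]
      intro h2
      exact hb (Complex.ofReal_injective h2).symm
    · intro hn
      exact absurd (Finset.mem_image.2 ⟨i, Finset.mem_univ _, rfl⟩) hn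
  rw [h1]
  have h2 : ∀ s : Finset ℝ, P (∑ d ∈ s, fn U (fun i => χ d (c i : ℂ)) *ᵥ z) := by
    intro s
    induction s using Finset.induction_on with
    | empty => rw [Finset.sum_empty]; exact h0
    | insert a s ha ih =>
      rw [Finset.sum_insert ha]
      refine hadd _ _ ?_ ih
      refine he a _ (fn_mem hU hU' hh (χ a) hz) ?_
      rw [Matrix.mulVec_mulVec, fn_mul hU, ← Matrix.smul_mulVec, ← fn_smul]
      congr 2
      ext i
      simp only [χ]
      split_ifs with h3
      · rw [h3]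
      · ring
  exact h2 D

end Pool.Agent.N996.FP
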