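import Pool.Agent.N996.FP.Maxi

/-!
# Highest weight vectors
-/

set_option linter.unusedSectionVars false

namespace Pool.Agent.N996.FP

open Matrix ComplexOrder

variable {ι : Type} [Fintype ι] [DecidableEq ι] {h : Submodule ℂ (Matrix ι ι ℂ)}
  {x y : Matrix ι ι ℂ} {J : Type} [Fintype J] [DecidableEq J]

/-- The span of the eigenvectors with real eigenvalues at most `c`. -/
def TE (x : Matrix J J ℂ) (c : ℝ) : Submodule ℂ (J → ℂ) :=
  Submodule.span ℂ {v | ∃ d : ℝ, d ≤ c ∧ x *ᵥ v = (d : ℂ) • v}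

lemma le_of_TE {x : Matrix J J ℂ} {c d : ℝ} {v : J → ℂ} (hv : v ∈ TE x c) (hv0 : v ≠ 0)
    (hd : x *ᵥ v = (d : ℂ) • v) : d ≤ c := by
  by_contra hcon
  push Not at hcon
  let f : Module.End ℂ (J → ℂ) := Matrix.mulVecLin x
  have h1 : TE x c ≤ ⨆ (μ : ℂ) (_ : μ ≠ (d : ℂ)), f.eigenspace μ := by
    refine Submodule.span_le.2 ?_
    rintro w ⟨e, he, hw⟩
    refine Submodule.mem_iSup_of_mem (e : ℂ) (Submodule.mem_iSup_of_mem ?_ ?_)
    · intro h2
      have := Complex.ofReal_injective h2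
      linarith
    · rw [Module.End.mem_eigenspace_iff]
      exact hw
  have h2 := (Module.End.eigenspaces_iSupIndep f) (d : ℂ)
  have h3 : v ∈ f.eigenspace (d : ℂ) := by
    rw [Module.End.mem_eigenspace_iff]; exact hd
  have h4 := Submodule.disjoint_def.1 h2 v h3 (h1 hv)
  exact hv0 h4

/-- The smallest subspace containing `w` and stable under the lowering operators. -/
def low (h : Submodule ℂ (Matrix ι ι ℂ)) (x : Matrix ι ι ℂ) (ρ : Matrix ι ι ℂ →ₗ[ℂ] Matrix J J ℂ)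
    (w : J → ℂ) : Submodule ℂ (J → ℂ) :=
  sInf {W | w ∈ W ∧ ∀ a : ℝ, a < 0 → ∀ e ∈ h, e ∈ EA x a → ∀ v ∈ W, ρ e *ᵥ v ∈ W}

lemma low_mem (ρ : Matrix ι ι ℂ →ₗ[ℂ] Matrix J J ℂ) (w : J → ℂ) : w ∈ low h x ρ w := by
  rw [low, Submodule.mem_sInf]
  intro W hW
  exact hW.1

lemma low_stable (ρ : Matrix ι ι ℂ →ₗ[ℂ] Matrix J J ℂ) (w : J → ℂ) {a : ℝ} (ha : a < 0)
    {e : Matrix ι ι ℂ} (he : e ∈ h) (hea : e ∈ EA x a) {v : J → ℂ} (hv : v ∈ low h x ρ w) :
    ρ e *ᵥ v ∈ low h x ρ w := by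
  rw [low, Submodule.mem_sInf] at hv ⊢
  intro W hW
  exact hW.2 a ha e he hea v (hv W hW)

lemma low_le (ρ : Matrix ι ι ℂ →ₗ[ℂ] Matrix J J ℂ) (w : J → ℂ) {W : Submodule ℂ (J → ℂ)}
    (h1 : w ∈ W) (h2 : ∀ a : ℝ, a < 0 → ∀ e ∈ h, e ∈ EA x a → ∀ v ∈ W, ρ e *ᵥ v ∈ W) :
    low h x ρ w ≤ W := sInf_le ⟨h1, h2⟩

lemma rho_mul {ρ : Matrix ι ι ℂ →ₗ[ℂ] Matrix J J ℂ} (hρ : ∀ a b, ρ (br a b) = br (ρ a) (ρ b))
    (a b : Matrix ι ι ℂ) (v : J → ℂ) :
    ρ a *ᵥ (ρ b *ᵥ v) = ρ b *ᵥ (ρ a *ᵥ v) + ρ (br a b) *ᵥ v := by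
  rw [hρ, br, Matrix.sub_mulVec, Matrix.mulVec_mulVec, Matrix.mulVec_mulVec]
  abel

/-- The subspace generated by a highest weight vector is stable. -/
lemma low_h (hh : IsLA h) (hx : IsReg h x) {ρ : Matrix ι ι ℂ →ₗ[ℂ] Matrix J J ℂ}
    (hρ : ∀ a b, ρ (br a b) = br (ρ a) (ρ b)) {w : J → ℂ}
    (h0 : ∀ t ∈ h, x * t = t * x → ∃ c : ℂ, ρ t *ᵥ w = c • w)
    (hp : ∀ a : ℝ, 0 < a → ∀ e ∈ h, e ∈ EA x a → ρ e *ᵥ w = 0) :
    ∀ z ∈ h, ∀ v ∈ low h x ρ w, ρ z *ᵥ v ∈ low h x ρ w := by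
  let S' : Submodule ℂ (J → ℂ) :=
    { carrier := {v | v ∈ low h x ρ w ∧ ∀ z ∈ h, ρ z *ᵥ v ∈ low h x ρ w}
      add_mem' := by
        rintro a b ⟨ha, ha'⟩ ⟨hb, hb'⟩
        refine ⟨Submodule.add_mem _ ha hb, fun z hz => ?_⟩
        rw [Matrix.mulVec_add]
        exact Submodule.add_mem _ (ha' z hz) (hb' z hz)
      zero_mem' := ⟨Submodule.zero_mem _, fun z hz => by
        rw [Matrix.mulVec_zero]; exact Submodule.zero_mem _⟩
      smul_mem' := by
        rintro c a ⟨ha, ha'⟩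
        refine ⟨Submodule.smul_mem _ _ ha, fun z hz => ?_⟩
        rw [Matrix.mulVec_smul]
        exact Submodule.smul_mem _ _ (ha' z hz) }
  have h1 : low h x ρ w ≤ S' := by
    refine low_le ρ w ⟨low_mem ρ w, fun z hz => ?_⟩ ?_
    · refine ad_ind hx.herm (h := h) (fun z hz => hh.lie x hx.mem z hz)
        (P := fun z => ρ z *ᵥ w ∈ low h x ρ w) ?_ ?_ ?_ hz
      · rw [map_zero, Matrix.zero_mulVec]; exact Submodule.zero_mem _
      · intro a b ha hb
        rw [map_add, Matrix.add_mulVec]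
        exact Submodule.add_mem _ ha hb
      · intro d z hz hzd
        rcases lt_trichotomy d 0 with hd | hd | hd
        · exact low_stable ρ w hd hz hzd (low_mem ρ w)
        · subst hd
          obtain ⟨c, hc⟩ := h0 z hz (by
            rw [Complex.ofReal_zero, zero_smul, sub_eq_zero] at hzd
            exact hzd)
          rw [hc]
          exact Submodule.smul_mem _ _ (low_mem ρ w)
        · rw [hp d hd z hz hzd]
          exact Submodule.zero_mem _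
    · rintro a ha e he hea v ⟨hv, hv'⟩
      refine ⟨low_stable ρ w ha he hea hv, fun z hz => ?_⟩
      rw [rho_mul hρ]
      exact Submodule.add_mem _ (low_stable ρ w ha he hea (hv' z hz))
        (hv' _ (hh.lie z hz e he))
  intro z hz v hv
  exact (h1 hv).2 z hz

/-- **The values of the highest weight.** -/
theorem top_eq (hh : IsLA h) (hx : IsReg h x) (hy : y ∈ h) (hyH : yᴴ = y)
    (hxy : x * y = y * x) (hpos : IsPosFor h x y) {ρ : Matrix ι ι ℂ →ₗ[ℂ] Matrix J J ℂ}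
    (hρ : ∀ a b, ρ (br a b) = br (ρ a) (ρ b)) {w : J → ℂ} (hw : w ≠ 0)
    (h0 : ∀ t ∈ h, x * t = t * x → ∃ c : ℂ, ρ t *ᵥ w = c • w)
    (hp : ∀ a : ℝ, 0 < a → ∀ e ∈ h, e ∈ EA x a → ρ e *ᵥ w = 0)
    {l m : ℝ} (hl : ρ x *ᵥ w = (l : ℂ) • w) (hm : ρ y *ᵥ w = (m : ℂ) • w)
    {G G' : Matrix J J ℂ} (hG : G * G' = 1)
    (hGW : ∀ W : Submodule ℂ (J → ℂ), (∀ z ∈ h, ∀ v ∈ W, ρ z *ᵥ v ∈ W) →
      (∀ v ∈ W, G *ᵥ v ∈ W) ∧ (∀ v ∈ W, G' *ᵥ v ∈ W))
    (hGx : G * ρ x = ρ y * G) : l = m := by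
  have hG' : G' * G = 1 := mul_eq_one_comm.1 hG
  have hst := low_h hh hx hρ h0 hp
  obtain ⟨g1, g2⟩ := hGW _ hst
  -- eigenvalues of `x`
  have hX : low h x ρ w ≤ TE (ρ x) l := by
    refine low_le ρ w (Submodule.subset_span ⟨l, le_refl l, hl⟩) ?_
    intro a ha e he hea v hv
    induction hv using Submodule.span_induction with
    | mem v hv =>
      obtain ⟨d, hd, hv⟩ := hv
      refine Submodule.subset_span ⟨d + a, by linarith, ?_⟩
      have h1 : br x e = (a : ℂ) • e := hea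
      rw [rho_mul hρ, hv, h1, map_smul, Matrix.smul_mulVec, Matrix.mulVec_smul, ← add_smul]
      push_cast
      rfl
    | zero => rw [Matrix.mulVec_zero]; exact Submodule.zero_mem _
    | add u v _ _ hu hv => rw [Matrix.mulVec_add]; exact Submodule.add_mem _ hu hv
    | smul c u _ hu => rw [Matrix.mulVec_smul]; exact Submodule.smul_mem _ _ hu
  have hY : low h x ρ w ≤ TE (ρ y) m := by
    refine low_le ρ w (Submodule.subset_span ⟨m, le_refl m, hm⟩) ?_
    intro a ha e he hea v hv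
    by_cases he0 : e = 0
    · rw [he0, map_zero, Matrix.zero_mulVec]; exact Submodule.zero_mem _
    obtain ⟨b, hb⟩ := hx.reg y hy hyH hxy a
    have heb := hb e hea
    have hb0 : b ≤ 0 := by
      have h1 := hpos a b e he he0 hea heb
      by_contra hcon
      push Not at hcon
      nlinarith [mul_neg_of_neg_of_pos ha hcon]
    induction hv using Submodule.span_induction with
    | mem v hv =>
      obtain ⟨d, hd, hv⟩ := hv
      refine Submodule.subset_span ⟨d + b, by linarith, ?_⟩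
      have h1 : br y e = (b : ℂ) • e := heb
      rw [rho_mul hρ, hv, h1, map_smul, Matrix.smul_mulVec, Matrix.mulVec_smul, ← add_smul]
      push_cast
      rfl
    | zero => rw [Matrix.mulVec_zero]; exact Submodule.zero_mem _
    | add u v _ _ hu hv => rw [Matrix.mulVec_add]; exact Submodule.add_mem _ hu hv
    | smul c u _ hu => rw [Matrix.mulVec_smul]; exact Submodule.smul_mem _ _ hu
  apply le_antisymm
  · refine le_of_TE (hY (g1 w (low_mem ρ w))) ?_ ?_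
    · intro h1
      apply hw
      have h2 : G' *ᵥ (G *ᵥ w) = 0 := by rw [h1, Matrix.mulVec_zero]
      rwa [Matrix.mulVec_mulVec, hG', Matrix.one_mulVec] at h2
    · rw [Matrix.mulVec_mulVec, ← hGx, ← Matrix.mulVec_mulVec, hl, Matrix.mulVec_smul]
  · refine le_of_TE (hX (g2 w (low_mem ρ w))) ?_ ?_
    · intro h1
      apply hw
      have h2 : G *ᵥ (G' *ᵥ w) = 0 := by rw [h1, Matrix.mulVec_zero]
      rwa [Matrix.mulVec_mulVec, hG, Matrix.one_mulVec] at h2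
    · have h3 : ρ x * G' = G' * ρ y := by
        calc ρ x * G' = G' * (G * ρ x) * G' := by
              rw [← Matrix.mul_assoc, hG', Matrix.one_mul]
          _ = G' * ρ y * (G * G') := by rw [hGx]; simp only [Matrix.mul_assoc]
          _ = _ := by rw [hG, Matrix.mul_one]
      rw [Matrix.mulVec_mulVec, h3, ← Matrix.mulVec_mulVec, hm, Matrix.mulVec_smul]

end Pool.Agent.N996.FP
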