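import Pool.Agent.N996.FP.Wnd
import Pool.Agent.N996.FP.Ccn

/-!
# The centre and the cosets for arbitrary Hodge structures
-/

set_option linter.unusedSectionVars false

namespace Pool.Agent.N996.FP

open Matrix Pool.Agent.N996.BP ComplexConjugate ComplexOrder

variable {ι : Type} [Fintype ι] [DecidableEq ι] {H : HData ι}

/-- The centre of the commutant is spanned by central Hodge endomorphisms. -/
lemma c_span {z : Matrix ι ι ℂ} (hzc : ∀ g ∈ GG H, z * g = g * z)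
    (hze : ∀ x : Matrix ι ι ℚ, IsHE H x → z * cQ x = cQ x * z) :
    z ∈ Submodule.span ℂ (cQ '' {x | IsC H x}) := by
  let C : Submodule ℂ (ι × ι → ℂ) :=
    { carrier := {v | (∀ g ∈ GG H, (Matrix.of fun i j => v (i, j)) * g =
        g * (Matrix.of fun i j => v (i, j))) ∧
        (∀ x, IsHE H x → (Matrix.of fun i j => v (i, j)) * cQ x =
          cQ x * (Matrix.of fun i j => v (i, j)))}
      add_mem' := by
        rintro a b ⟨h1, h2⟩ ⟨h1', h2'⟩
        have e : (Matrix.of fun i j => (a + b) (i, j)) =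
          (Matrix.of fun i j => a (i, j)) + (Matrix.of fun i j => b (i, j)) := rfl
        refine ⟨fun g hg => ?_, fun x hx => ?_⟩
        · rw [e, Matrix.mul_add, Matrix.add_mul, h1 g hg, h1' g hg]
        · rw [e, Matrix.mul_add, Matrix.add_mul, h2 x hx, h2' x hx]
      zero_mem' := by
        have e : (Matrix.of fun i j => (0 : ι × ι → ℂ) (i, j)) = 0 := rfl
        refine ⟨fun g hg => ?_, fun x hx => ?_⟩ <;>
          rw [e] <;> simp only [Matrix.mul_zero, Matrix.zero_mul]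
      smul_mem' := by
        rintro c a ⟨h1, h2⟩
        have e : (Matrix.of fun i j => (c • a) (i, j)) =
          c • (Matrix.of fun i j => a (i, j)) := rfl
        refine ⟨fun g hg => ?_, fun x hx => ?_⟩
        · rw [e, Matrix.mul_smul, Matrix.smul_mul, h1 g hg]
        · rw [e, Matrix.mul_smul, Matrix.smul_mul, h2 x hx] }
  have hC : ∀ (σ : ℂ ≃+* ℂ), ∀ v ∈ C, (fun i => σ (v i)) ∈ C := by
    rintro σ v ⟨h1, h2⟩
    have e0 : (Matrix.of fun i j => (fun i => σ (v i)) (i, j)) =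
        (Matrix.of fun i j => v (i, j)).map σ := rfl
    have e1 : (⇑σ ∘ ⇑σ.symm) = id := by ext; simp
    refine ⟨fun g hg => ?_, fun x hx => ?_⟩
    · have h5 := congrArg (fun M => M.map σ) (h1 (g.map σ.symm) (GG_map H σ.symm hg))
      simp only [map_mul', Matrix.map_map, e1, Matrix.map_id] at h5
      exact h5
    · have h5 := congrArg (fun M => M.map σ) (h2 x hx)
      simp only [map_mul', cQ_map] at h5
      exact h5
  have hzC : (fun v : ι × ι => z v.1 v.2) ∈ C := ⟨hzc, hze⟩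
  rw [Pool.Agent.W437.HD.span_rational C hC] at hzC
  have key : ∀ v ∈ Submodule.span ℂ {w | w ∈ C ∧ ∃ u : ι × ι → ℚ, w = fun i => (u i : ℂ)},
      (Matrix.of fun i j => v (i, j)) ∈ Submodule.span ℂ (cQ '' {x | IsC H x}) := by
    intro v hv
    induction hv using Submodule.span_induction with
    | mem v hv =>
      obtain ⟨⟨h1, h2⟩, u, rfl⟩ := hv
      refine Submodule.subset_span ⟨Matrix.of fun i j => u (i, j), ?_, rfl⟩
      have e0 : (Matrix.of fun i j => (fun i => (u i : ℂ)) (i, j)) =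
          cQ (Matrix.of fun i j => u (i, j)) := rfl
      rw [e0] at h1 h2
      refine ⟨fun t ht => ?_, fun y hy => ?_⟩
      · exact (h1 _ (Submonoid.subset_closure (l_mem_gens H ht))).symm
      · apply AData.cQ_inj
        rw [cQ_mul, cQ_mul, h2 y hy]
    | zero => exact Submodule.zero_mem _
    | add a b _ _ ha hb => exact Submodule.add_mem _ ha hb
    | smul c a _ ha => exact Submodule.smul_mem _ c ha
  exact key _ hzC

/-- The projector to a coset. -/
lemma exists_projH {x : Matrix ι ι ℂ} (hx : IsReg (hn H) x) (T₀ : Matrix ι ι ℂ) :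
    ∃ y : Matrix ι ι ℂ, (∀ w ∈ hn H, y * w = w * y) ∧
      cj H y ∈ Submodule.span ℂ (cQ '' {x | IsC H x}) ∧
      ∀ (v : ι → ℂ) (T : Matrix ι ι ℂ), v ≠ 0 → IsWt (hn H) x v T →
        (T - T₀ ∈ QL (hn H) x → y *ᵥ v = v) ∧ (T - T₀ ∉ QL (hn H) x → y *ᵥ v = 0) := by
  obtain ⟨y, hy1, hy2, hy3⟩ := exists_coset (isLA_hn H) hx T₀
  have hZ : IsZ H y := ⟨hy2, fun y' hy' => hy1 y' (hy' x hx.mem).symm⟩
  exact ⟨y, hy2, c_span hZ.comm_GG fun x hx => hZ.comm_HE hx, hy3⟩

variable {x z : Matrix ι ι ℂ} {n : ℕ}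

/-- **Self-adjoint centres.** -/
theorem two_memH (hR : ∀ y, IsC H y → cQ y * cQ H.Qir = cQ H.Qir * (cQ y)ᵀ)
    (hx : IsReg (hn H) x) (B : Bz (hn H) x z ⊤ n) (k : Fin n) :
    2 • B.T k ∈ QL (hn H) x := by
  obtain ⟨y, hy1, hy2, hy3⟩ := exists_projH hx (B.T k)
  have key : ∀ Y ∈ Submodule.span ℂ (cQ '' {x | IsC H x}),
      Y * cQ H.Qir = cQ H.Qir * Yᵀ := by
    intro Y hY
    induction hY using Submodule.span_induction with
    | mem x hx =>
      obtain ⟨x, hx, rfl⟩ := hx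
      exact hR x hx
    | zero => rw [Matrix.zero_mul, Matrix.transpose_zero, Matrix.mul_zero]
    | add a b _ _ ha hb => rw [Matrix.add_mul, Matrix.transpose_add, Matrix.mul_add, ha, hb]
    | smul c a _ ha => rw [Matrix.smul_mul, Matrix.transpose_smul, Matrix.mul_smul, ha]
  have hadj := key _ hy2
  obtain ⟨σ, hσ⟩ := exists_perm B
  have hj := hσ k
  have h1 := pair_wt2 hx B hj
  have h2 := qf_adj (H := H) hadj (B.v (σ k) : ι → ℂ) (B.v k : ι → ℂ)
  have h3 : y *ᵥ (B.v k : ι → ℂ) = B.v k :=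
    (hy3 _ _ (B.v_ne k) (B.wt k)).1 (by rw [sub_self]; exact (QL _ x).zero_mem)
  have h4 : B.T (σ k) - B.T k ∈ QL (hn H) x := by
    by_contra hcon
    rw [(hy3 _ _ (B.v_ne (σ k)) (B.wt (σ k))).2 hcon, qf_zero_left, h3] at h2
    exact hj h2.symm
  have h5 : 2 • B.T k = -(B.T (σ k) - B.T k) := by
    rw [eq_neg_of_add_eq_zero_left h1, two_nsmul]
    abel
  rw [h5]
  exact (QL _ x).neg_mem h4

/-! ### The characters of the cosets -/

lemma memTop {w : Matrix ι ι ℂ} : ∀ v ∈ (⊤ : Submodule ℂ (ι → ℂ)), w *ᵥ v ∈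
    (⊤ : Submodule ℂ (ι → ℂ)) := fun _ _ => trivial

/-- The cosets are stable. -/
lemma stab_cosetH (hx : IsReg (hn H) x) (B : Bz (hn H) x z ⊤ n) {k : Fin n}
    {S : Finset (Fin n)} (hS : ∀ i, i ∈ S ↔ B.T i - B.T k ∈ QL (hn H) x) {w : Matrix ι ι ℂ}
    (hw : w ∈ hn H) {j : Fin n} (hj : j ∈ S) {i : Fin n} (hi : i ∉ S) :
    B.bas.repr ⟨w *ᵥ (B.v j : ι → ℂ), memTop _ (B.v j).2⟩ i = 0 := by
  classical
  obtain ⟨y, hy1, -, hy3⟩ := exists_projH hx (B.T k)
  have hyS : ∀ i ∈ S, y *ᵥ (B.v i : ι → ℂ) = B.v i := fun i hi =>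
    (hy3 _ _ (B.v_ne i) (B.wt i)).1 ((hS i).1 hi)
  have hyS' : ∀ i, i ∉ S → y *ᵥ (B.v i : ι → ℂ) = 0 := fun i hi =>
    (hy3 _ _ (B.v_ne i) (B.wt i)).2 fun h => hi ((hS i).2 h)
  by_contra hne
  have h1 := B.coef (y := y) (c' := fun i => if i ∈ S then 1 else 0) (fun i => by
    by_cases hi : i ∈ S
    · rw [if_pos hi, one_smul, hyS i hi]
    · rw [if_neg hi, zero_smul, hyS' i hi])
    (u := ⟨w *ᵥ (B.v j : ι → ℂ), memTop _ (B.v j).2⟩)
    (d := 1) (by
      change y *ᵥ (w *ᵥ (B.v j : ι → ℂ)) = _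
      rw [Matrix.mulVec_mulVec, hy1 _ hw, ← Matrix.mulVec_mulVec, hyS j hj, one_smul]) i hne
  rw [if_neg hi] at h1
  exact zero_ne_one h1

/-- The Lie algebra acts on the top exterior power of a coset by a character. -/
lemma delta_actH (hz : ∀ w ∈ hn H, z * w = w * z)
    (hx : IsReg (hn H) x) (B : Bz (hn H) x z ⊤ n) {k : Fin n}
    {S : Finset (Fin n)} (hS : ∀ i, i ∈ S ↔ B.T i - B.T k ∈ QL (hn H) x) {w : Matrix ι ι ℂ}
    (hw : w ∈ hn H) : dk (Fin S.card) w *ᵥ wS B.v S =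
      ((∑ j ∈ S, B.T j) * w).trace • wS B.v S := by
  have hcomm : x * (∑ j ∈ S, B.T j) = (∑ j ∈ S, B.T j) * x := by
    rw [Finset.mul_sum, Finset.sum_mul]
    exact Finset.sum_congr rfl fun j _ => (B.wt j).mem.2
  refine ad_ind hx.herm (h := hn H) (fun z hz => (isLA_hn H).lie x hx.mem z hz)
    (P := fun w => dk (Fin S.card) w *ᵥ wS B.v S =
      ((∑ j ∈ S, B.T j) * w).trace • wS B.v S) ?_ ?_ ?_ hw
  · have h0 : dk (Fin S.card) (0 : Matrix ι ι ℂ) = 0 := (dkL (Fin S.card)).map_zero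
    rw [h0, Matrix.zero_mulVec, Matrix.mul_zero, Matrix.trace_zero, zero_smul]
  · intro a b ha hb
    have h0 : dk (Fin S.card) (a + b) = dk (Fin S.card) a + dk (Fin S.card) b :=
      (dkL (Fin S.card)).map_add a b
    rw [h0, Matrix.add_mulVec, ha, hb, Matrix.mul_add, Matrix.trace_add, add_smul]
  · intro a w hw hwa
    by_cases ha : a = 0
    · subst ha
      rw [Complex.ofReal_zero, zero_smul, sub_eq_zero] at hwa
      rw [wS_eig S memTop (s := fun i => (B.T i * w).trace) fun j =>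
        (B.wt j).val w ⟨hw, hwa⟩, Finset.sum_mul, Matrix.trace_sum]
    · have h1 : ((∑ j ∈ S, B.T j) * w).trace = 0 := by
        have h2 : ((∑ j ∈ S, B.T j) * (x * w - w * x)).trace = 0 := by
          rw [Matrix.mul_sub, Matrix.trace_sub, ← Matrix.mul_assoc, ← hcomm, Matrix.mul_assoc,
            Matrix.trace_mul_comm x, Matrix.mul_assoc, sub_self]
        rw [hwa, Matrix.mul_smul, Matrix.trace_smul, smul_eq_mul] at h2
        exact (mul_eq_zero.1 h2).resolve_left (by exact_mod_cast ha)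
      rw [h1, zero_smul]
      refine wS_zero S memTop fun j hj => ?_
      refine Submodule.span_mono ?_
        (B.root_span (isLA_hn H) hx hz (fun w hw v hv => trivial) ha hw hwa j)
      rintro _ ⟨i, ⟨hi1, hi2⟩, rfl⟩
      refine ⟨i, ⟨(hS i).2 ?_, ?_⟩, rfl⟩
      · have := (QL _ x).add_mem hi2 ((hS j).1 hj)
        rwa [sub_add_sub_cancel] at this
      · rintro rfl
        apply ha
        linarith

/-- The characters are orthogonal to the roots. -/
lemma char_rootH (hz : ∀ w ∈ hn H, z * w = w * z)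
    (hx : IsReg (hn H) x) (B : Bz (hn H) x z ⊤ n) {k : Fin n}
    {S : Finset (Fin n)} (hS : ∀ i, i ∈ S ↔ B.T i - B.T k ∈ QL (hn H) x) {q : Matrix ι ι ℂ}
    (hq : q ∈ QL (hn H) x) : ((∑ j ∈ S, B.T j) * q).trace = 0 := by
  induction hq using AddSubgroup.closure_induction with
  | mem q hq =>
    obtain ⟨e, he, rfl⟩ := hq
    have heH := (isLA_hn H).star _ he.mem
    have hhe : br e eᴴ = nsq e • Rt e := by
      rw [Rt, smul_smul, mul_inv_cancel₀ (nsq_pos he.ne).ne', one_smul]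
    have hbr : dk (Fin S.card) (br e eᴴ) = br (dk (Fin S.card) e) (dk (Fin S.card) eᴴ) :=
      dk_br (κ := Fin S.card) e eᴴ
    have h1 : dk (Fin S.card) (br e eᴴ) *ᵥ wS B.v S = 0 := by
      rw [hbr, br, Matrix.sub_mulVec, ← Matrix.mulVec_mulVec, ← Matrix.mulVec_mulVec,
        delta_actH hz hx B hS he.mem, delta_actH hz hx B hS heH,
        Matrix.mulVec_smul, Matrix.mulVec_smul, delta_actH hz hx B hS he.mem,
        delta_actH hz hx B hS heH, smul_smul, smul_smul, mul_comm, sub_self]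
    have hsm : dk (Fin S.card) (nsq e • Rt e) = nsq e • dk (Fin S.card) (Rt e) :=
      (dkL (Fin S.card)).map_smul _ _
    rw [hhe, hsm, Matrix.smul_mulVec, delta_actH hz hx B hS (he.ct (isLA_hn H) hx).1,
      smul_smul] at h1
    rcases smul_eq_zero.1 h1 with h2 | h2
    · exact (mul_eq_zero.1 h2).resolve_left (nsq_pos he.ne).ne'
    · exact absurd h2 (wS_ne B.li S)
  | zero => rw [Matrix.mul_zero, Matrix.trace_zero]
  | add a b _ _ ha hb => rw [Matrix.mul_add, Matrix.trace_add, ha, hb, add_zero]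
  | neg a _ ha => rw [Matrix.mul_neg, Matrix.trace_neg, ha, neg_zero]

/-- **Relations between the characters.** -/
lemma char_relH (hz : ∀ w ∈ hn H, z * w = w * z)
    (hx : IsReg (hn H) x) (B : Bz (hn H) x z ⊤ n)
    {S : Fin n → Finset (Fin n)} (hS : ∀ k i, i ∈ S k ↔ B.T i - B.T k ∈ QL (hn H) x)
    (y : Fin n → ℕ) (hy : ∀ σ : ℂ ≃+* ℂ, ∑ k, (y k : ℂ) *
      ((∑ j ∈ S k, B.T j) * cji H (Ng H σ)).trace = 0) :
    ∑ k, (y k : ℂ) • ∑ j ∈ S k, B.T j = 0 := by
  let R := Σ k : Fin n, Fin (y k)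
  let κ := Σ r : R, Fin (S r.1).card
  obtain ⟨δ, hδ⟩ : ∃ δ : (κ → ι) → ℂ, δ = bt fun r : R => wS B.v (S r.1) := ⟨_, rfl⟩
  have hδ0 : δ ≠ 0 := by
    rw [hδ]
    exact bt_ne fun r => wS_ne B.li _
  have hact : ∀ w ∈ hn H, dk κ w *ᵥ δ =
      (∑ k, (y k : ℂ) * ((∑ j ∈ S k, B.T j) * w).trace) • δ := by
    intro w hw
    have h1 := dk_bt_eig (w := w) (p := fun r : R => wS B.v (S r.1))
      (s := fun r => ((∑ j ∈ S r.1, B.T j) * w).trace) fun r =>
        delta_actH hz hx B (hS r.1) hw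
    rw [hδ, h1]
    congr 1
    rw [Fintype.sum_sigma]
    refine Finset.sum_congr rfl fun k _ => ?_
    change ∑ _ : Fin (y k), ((∑ j ∈ S k, B.T j) * w).trace = _
    rw [Finset.sum_const, Finset.card_univ, Fintype.card_fin, nsmul_eq_mul]
  have hker : ∀ w ∈ ho H, dk κ w *ᵥ (kp κ (Mi H) *ᵥ δ) = 0 := by
    intro w hw
    refine ho_of_fixT (fun g hg => fix_of_NgT (fun σ => ?_) hg) hw
    have hN : cji H (Ng H σ) ∈ hn H := by rw [mem_hn, cj_cji]; exact Ng_mem σ
    have h2 := hact _ hN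
    rw [hy σ, zero_smul] at h2
    have h3 : dk κ (Ng H σ) * kp κ (Mi H) = kp κ (Mi H) * dk κ (cji H (Ng H σ)) := by
      have h4 := dk_cj_Mm (κ := κ) H (cji H (Ng H σ))
      have h5 : dk κ (cji H (Ng H σ)) * kp κ (Mm H) = kp κ (Mm H) * dk κ (Ng H σ) := by
        rw [h4, cj_cji]
      calc dk κ (Ng H σ) * kp κ (Mi H) =
          (kp κ (Mi H) * kp κ (Mm H)) * dk κ (Ng H σ) * kp κ (Mi H) := by
            rw [← kp_mul, Mi_Mm, kp_one, Matrix.one_mul]
        _ = kp κ (Mi H) * (kp κ (Mm H) * dk κ (Ng H σ)) * kp κ (Mi H) := by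
            simp only [Matrix.mul_assoc]
        _ = kp κ (Mi H) * dk κ (cji H (Ng H σ)) * (kp κ (Mm H) * kp κ (Mi H)) := by
            rw [← h5]; simp only [Matrix.mul_assoc]
        _ = _ := by rw [← kp_mul, Mm_Mi, kp_one, Matrix.mul_one]
    rw [Matrix.mulVec_mulVec, h3, ← Matrix.mulVec_mulVec, h2, Matrix.mulVec_zero]
  refine ct_nondeg (isLA_hn H) hx.herm (Submodule.sum_mem _ fun k _ => Submodule.smul_mem _ _
    (Submodule.sum_mem _ fun i _ => (B.wt i).mem)) fun t ht => ?_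
  have h1 := hact t ht.1
  have h2 := hker (cj H t) ht.1
  have h3 : dk κ t *ᵥ δ = 0 := by
    have h4 := dk_cj_Mm (κ := κ) H t
    have h5 : δ = kp κ (Mm H) *ᵥ (kp κ (Mi H) *ᵥ δ) := by
      rw [Matrix.mulVec_mulVec, ← kp_mul, Mm_Mi, kp_one, Matrix.one_mulVec]
    rw [h5, Matrix.mulVec_mulVec, h4, ← Matrix.mulVec_mulVec, h2, Matrix.mulVec_zero]
  rw [h3] at h1
  have h6 := (smul_eq_zero.1 h1.symm).resolve_right hδ0
  rw [← h6, Finset.sum_mul, Matrix.trace_sum]
  refine Finset.sum_congr rfl fun k _ => ?_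
  rw [Matrix.smul_mul, Matrix.trace_smul, smul_eq_mul]

end Pool.Agent.N996.FP
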