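import Pool.Agent.N996.FP.Wct

/-!
# The values of the characters for arbitrary Hodge structures
-/

set_option linter.unusedSectionVars false

namespace Pool.Agent.N996.FP

open Matrix Pool.Agent.N996.BP ComplexConjugate ComplexOrder

variable {ι : Type} [Fintype ι] [DecidableEq ι] {H : HData ι} {x z : Matrix ι ι ℂ} {n : ℕ}

/-- The values of the characters are traces. -/
lemma char_valH (hz : ∀ w ∈ hn H, z * w = w * z)
    (hx : IsReg (hn H) x) (B : Bz (hn H) x z ⊤ n) {k : Fin n}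
    {S : Finset (Fin n)} (hS : ∀ i, i ∈ S ↔ B.T i - B.T k ∈ QL (hn H) x) {w : Matrix ι ι ℂ}
    (hw : w ∈ hn H) : ((∑ j ∈ S, B.T j) * w).trace =
      ∑ j ∈ S, B.bas.repr ⟨w *ᵥ (B.v j : ι → ℂ), memTop _ (B.v j).2⟩ j := by
  have htr := wS_tr B S (w := w) memTop fun j hj i hi => stab_cosetH hx B hS hw hj hi
  rw [delta_actH hz hx B hS hw] at htr
  exact smul_left_injective ℂ (wS_ne B.li S) htr

/-- **Traces.** The sum of the weights of a coset vanishes. -/
theorem tot_cosetH (hz : ∀ w ∈ hn H, z * w = w * z)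
    (hT : ∀ y, IsC H y → (cQ y * Ng H (RingEquiv.refl ℂ)).trace = 0)
    (hx : IsReg (hn H) x) (B : Bz (hn H) x z ⊤ n) (k : Fin n) (S : Finset (Fin n))
    (hS : ∀ i, i ∈ S ↔ B.T i - B.T k ∈ QL (hn H) x) : ∑ i ∈ S, B.T i = 0 := by
  classical
  obtain ⟨y, hy1, hy2, hy3⟩ := exists_projH hx (B.T k)
  have hyS : ∀ i ∈ S, y *ᵥ (B.v i : ι → ℂ) = B.v i := fun i hi =>
    (hy3 _ _ (B.v_ne i) (B.wt i)).1 ((hS i).1 hi)
  have hyS' : ∀ i, i ∉ S → y *ᵥ (B.v i : ι → ℂ) = 0 := fun i hi =>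
    (hy3 _ _ (B.v_ne i) (B.wt i)).2 fun h => hi ((hS i).2 h)
  have htr : ∀ σ : ℂ ≃+* ℂ, (cj H y * Ng H σ).trace = 0 := by
    intro σ
    have key : ∀ Y ∈ Submodule.span ℂ (cQ '' {x | IsC H x}), (Y * Ng H σ).trace = 0 := by
      intro Y hY
      induction hY using Submodule.span_induction with
      | mem x hx =>
        obtain ⟨x, hx, rfl⟩ := hx
        have h1 := congrArg σ (hT x hx)
        rw [map_zero] at h1
        rw [← h1, Ng_map, Matrix.trace, Matrix.trace, map_sum]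
        refine Finset.sum_congr rfl fun i _ => ?_
        rw [Matrix.diag_apply, Matrix.diag_apply, Matrix.mul_apply, Matrix.mul_apply, map_sum]
        refine Finset.sum_congr rfl fun j _ => ?_
        rw [map_mul, Matrix.map_apply, cQ, Matrix.map_apply, map_ratCast]
      | zero => rw [Matrix.zero_mul, Matrix.trace_zero]
      | add a b _ _ ha hb => rw [Matrix.add_mul, Matrix.trace_add, ha, hb, add_zero]
      | smul c a _ ha => rw [Matrix.smul_mul, Matrix.trace_smul, ha, smul_zero]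
    exact key _ hy2
  have hval : ∀ σ : ℂ ≃+* ℂ, ((∑ j ∈ S, B.T j) * cji H (Ng H σ)).trace = 0 := by
    intro σ
    have hw : cji H (Ng H σ) ∈ hn H := by rw [mem_hn, cj_cji]; exact Ng_mem σ
    rw [char_valH hz hx B hS hw]
    have h3 := trace_basis B.bas (y * cji H (Ng H σ)) fun v => trivial
    have h4 : (y * cji H (Ng H σ)).trace = 0 := by
      rw [← htr σ]
      have h5 : cj H (y * cji H (Ng H σ)) = cj H y * Ng H σ := by
        rw [cj_mul, cj_cji]
      have h7 : ∀ X : Matrix ι ι ℂ, (cj H X).trace = X.trace := by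
        intro X
        rw [cj, Matrix.trace_mul_comm, ← Matrix.mul_assoc, Mm_Mi, Matrix.one_mul]
      rw [← h5, h7]
    rw [h4] at h3
    rw [h3, ← Finset.sum_subset (Finset.subset_univ S)]
    · refine Finset.sum_congr rfl fun j hj => ?_
      congr 2
      apply Subtype.ext
      change _ = (y * cji H (Ng H σ)) *ᵥ (B.bas j : ι → ℂ)
      rw [B.bas_apply, hy1 _ hw, ← Matrix.mulVec_mulVec, hyS j hj]
    · intro j _ hj
      have h6 : (y * cji H (Ng H σ)) *ᵥ (B.bas j : ι → ℂ) = 0 := by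
        rw [B.bas_apply, hy1 _ hw, ← Matrix.mulVec_mulVec, hyS' j hj, Matrix.mulVec_zero]
      have h7 : (⟨(y * cji H (Ng H σ)) *ᵥ (B.bas j : ι → ℂ), trivial⟩ :
          (⊤ : Submodule ℂ (ι → ℂ))) = 0 := Subtype.ext h6
      rw [h7, map_zero]
      rfl
  let Sf : Fin n → Finset (Fin n) := fun k => Finset.univ.filter fun i =>
    B.T i - B.T k ∈ QL (hn H) x
  have hSf : ∀ k i, i ∈ Sf k ↔ B.T i - B.T k ∈ QL (hn H) x := fun k i => by simp [Sf]
  have hSk : Sf k = S := by
    ext i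
    rw [hSf, hS]
  have h8 := char_relH hz hx B hSf (fun k' => if k' = k then 1 else 0) fun σ => by
    rw [Finset.sum_eq_single k]
    · rw [hSk, hval σ, mul_zero]
    · intro k' _ hk'
      rw [if_neg hk', Nat.cast_zero, zero_mul]
    · intro h; exact absurd (Finset.mem_univ _) h
  rw [Finset.sum_eq_single k] at h8
  · rwa [if_pos rfl, Nat.cast_one, one_smul, hSk] at h8
  · intro k' _ hk'
    rw [if_neg hk', Nat.cast_zero, zero_smul]
  · intro h; exact absurd (Finset.mem_univ _) h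

/-- The characters have small integral values on the generators. -/
lemma char_intH {w : ℕ} (hE : ∀ u : ι → ℂ, u ≠ 0 → ∀ μ : ℂ,
      Ng H (RingEquiv.refl ℂ) *ᵥ u = μ • u → ∃ a : ℤ, |a| ≤ w ∧ μ = a)
    (hz : ∀ w ∈ hn H, z * w = w * z)
    (hx : IsReg (hn H) x) (B : Bz (hn H) x z ⊤ n) {k : Fin n}
    {S : Finset (Fin n)} (hS : ∀ i, i ∈ S ↔ B.T i - B.T k ∈ QL (hn H) x) (σ : ℂ ≃+* ℂ) :
    ∃ a : ℤ, |a| ≤ (w : ℤ) * S.card ∧ ((∑ j ∈ S, B.T j) * cji H (Ng H σ)).trace = a := by
  classical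
  have hw : cji H (Ng H σ) ∈ hn H := by rw [mem_hn, cj_cji]; exact Ng_mem σ
  obtain ⟨w', hwe⟩ : ∃ w', w' = cji H (Ng H σ) := ⟨_, rfl⟩
  rw [← hwe] at hw ⊢
  -- the eigenvalues
  have heig : ∀ v : ι → ℂ, v ≠ 0 → ∀ μ : ℂ, w' *ᵥ v = μ • v → ∃ a : ℤ, |a| ≤ w ∧ μ = a := by
    intro v hv0 μ hμ
    obtain ⟨v', hv'⟩ : ∃ v', v' = Mi H *ᵥ v := ⟨_, rfl⟩
    have h0 : v = Mm H *ᵥ v' := by
      rw [hv', Matrix.mulVec_mulVec, Mm_Mi, Matrix.one_mulVec]
    have h1 : Ng H σ *ᵥ v' = μ • v' := by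
      have h2 : Ng H σ = Mi H * w' * Mm H := by
        rw [hwe]; exact (cj_cji H (Ng H σ)).symm
      rw [h2, ← Matrix.mulVec_mulVec, ← h0, ← Matrix.mulVec_mulVec, hμ, Matrix.mulVec_smul, ← hv']
    have hv'0 : v' ≠ 0 := by
      rintro h4
      apply hv0
      rw [h0, h4, Matrix.mulVec_zero]
    obtain ⟨v'', hv''⟩ : ∃ v'' : ι → ℂ, v'' = fun i => σ.symm (v' i) := ⟨_, rfl⟩
    have hb : v' = fun i => σ (v'' i) := by
      funext i
      rw [hv'', RingEquiv.apply_symm_apply]
    have hmul : ∀ (M : Matrix ι ι ℂ) (u : ι → ℂ), (M.map σ) *ᵥ (fun i => σ (u i)) =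
        fun i => σ ((M *ᵥ u) i) := by
      intro M u
      funext i
      rw [Matrix.mulVec, dotProduct, Matrix.mulVec, dotProduct, map_sum]
      refine Finset.sum_congr rfl fun j _ => ?_
      rw [Matrix.map_apply, map_mul]
    obtain ⟨a, ha1, ha2⟩ := hE v'' (fun h4 => by
        apply hv'0
        rw [hb, h4]
        funext i
        exact map_zero σ) (σ.symm μ) (by
        rw [Ng_map, hb, hmul] at h1
        funext i
        apply σ.injective
        have h5 := congrFun h1 i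
        beta_reduce at h5
        rw [h5, Pi.smul_apply, Pi.smul_apply, smul_eq_mul, smul_eq_mul, map_mul,
          RingEquiv.apply_symm_apply])
    refine ⟨a, ha1, ?_⟩
    have h4 := congrArg σ ha2
    rwa [RingEquiv.apply_symm_apply, map_intCast] at h4
  rw [char_valH hz hx B hS hw]
  let u : Fin n → (⊤ : Submodule ℂ (ι → ℂ)) := fun j => ⟨w' *ᵥ (B.v j : ι → ℂ),
    memTop _ (B.v j).2⟩
  let E : Matrix S S ℂ := Matrix.of fun i j => B.bas.repr (u j) i
  obtain ⟨a, ha1, ha2⟩ := int_traceW (w := w) E fun c hc μ hμ => by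
    let v : (⊤ : Submodule ℂ (ι → ℂ)) := ∑ j : S, c j • B.v j
    have hv0 : v ≠ 0 := by
      intro h0
      apply hc
      funext j
      have h1 := congrArg (fun v => B.bas.repr v j) h0
      simp only [v, map_sum, map_smul, Finsupp.finsetSum_apply, Finsupp.smul_apply,
        smul_eq_mul, map_zero, Finsupp.zero_apply] at h1
      rw [Finset.sum_eq_single j] at h1
      · rw [← B.bas_apply, Module.Basis.repr_self, Finsupp.single_eq_same, mul_one] at h1
        exact h1
      · intro b _ hb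
        rw [← B.bas_apply, Module.Basis.repr_self, Finsupp.single_apply,
          if_neg (fun h => hb (Subtype.ext h)), mul_zero]
      · intro h; exact absurd (Finset.mem_univ _) h
    refine heig v (fun h => hv0 (Subtype.ext h)) μ ?_
    have h1 : (⟨w' *ᵥ (v : ι → ℂ), memTop _ v.2⟩ : (⊤ : Submodule ℂ (ι → ℂ))) =
        ∑ j : S, c j • u j := by
      apply Subtype.ext
      simp only [v, Submodule.coe_sum, Submodule.coe_smul, Matrix.mulVec_sum,
        Matrix.mulVec_smul, u]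
    have h2 : (⟨w' *ᵥ (v : ι → ℂ), memTop _ v.2⟩ : (⊤ : Submodule ℂ (ι → ℂ))) = μ • v := by
      rw [h1]
      apply B.bas.repr.injective
      ext i
      rw [map_sum, Finsupp.finsetSum_apply, map_smul, Finsupp.smul_apply]
      simp only [map_smul, Finsupp.smul_apply, smul_eq_mul, v, map_sum,
        Finsupp.finsetSum_apply]
      by_cases hi : i ∈ S
      · have h3 := congrFun hμ ⟨i, hi⟩
        rw [Matrix.mulVec, dotProduct, Pi.smul_apply, smul_eq_mul] at h3
        rw [Finset.sum_congr rfl fun (j : S) _ => mul_comm (c j) (B.bas.repr (u j) i)]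
        change ∑ j : S, B.bas.repr (u j) i * c j = _
        change ∑ j : S, B.bas.repr (u j) i * c j = _ at h3
        rw [h3, Finset.sum_eq_single (⟨i, hi⟩ : S)]
        · rw [← B.bas_apply, Module.Basis.repr_self, Finsupp.single_eq_same, mul_one]
        · intro b _ hb
          rw [← B.bas_apply, Module.Basis.repr_self, Finsupp.single_apply,
            if_neg (fun h => hb (Subtype.ext h)), mul_zero]
        · intro h; exact absurd (Finset.mem_univ _) h
      · rw [Finset.sum_eq_zero, Finset.sum_eq_zero, mul_zero]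
        · intro j _
          rw [← B.bas_apply, Module.Basis.repr_self, Finsupp.single_apply,
            if_neg (fun h : (j : Fin n) = i => hi (h ▸ j.2)), mul_zero]
        · intro j _
          have h3 : B.bas.repr (u j) i = 0 := stab_cosetH hx B hS hw j.2 hi
          rw [h3, mul_zero]
    exact congrArg Subtype.val h2
  refine ⟨a, ?_, ?_⟩
  · rwa [Fintype.card_coe] at ha1
  · rw [← ha2, Matrix.trace, ← Finset.sum_coe_sort S]
    rfl

/-- Isotropic sets of weights. -/
lemma half_ofH {t : ℕ} (ht : Fintype.card ι ≤ t + Module.finrank ℂ (Z0 H))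
    (hx : IsReg (hn H) x) (hz : ∀ v ∈ Z0 H, z *ᵥ v = v) (B : Bz (hn H) x z ⊤ n)
    (S : Finset (Fin n)) (hS : ∀ i ∈ S, ∀ j ∈ S, B.T i + B.T j ≠ 0) : 2 * S.card ≤ t := by
  classical
  obtain ⟨σ, hσ, -⟩ := exists_permT hx B
  let T₀ : Finset (Fin n) := Finset.univ.filter fun i => B.T i = 0
  have hmT₀ : ∀ i, i ∈ T₀ ↔ B.T i = 0 := fun i => by simp [T₀]
  have hT₀ : Module.finrank ℂ (Z0 H) ≤ T₀.card := by
    by_cases hZ : Module.finrank ℂ (Z0 H) = 0
    · rw [hZ]; exact Nat.zero_le _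
    refine Z0_le hx B hz T₀ fun i h3 h4 => (hmT₀ i).2 ?_
    have hbot : Z0 H ≠ ⊥ := by
      intro h5
      rw [h5, finrank_bot] at hZ
      exact hZ rfl
    obtain ⟨v, hv, hv0⟩ := Submodule.exists_mem_ne_zero_of_ne_bot hbot
    refine wt_eq (isLA_hn H) hx (B.v_ne i) hv0 (B.wt i) ⟨(ct _ x).zero_mem,
      Matrix.conjTranspose_zero, fun w hw => ?_⟩ ?_
    · rw [hv w hw.1, Matrix.zero_mul, Matrix.trace_zero, zero_smul]
    · rw [B.c_eq hx, h3, Matrix.zero_mul, Matrix.trace_zero, Complex.ofReal_zero]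
  have hd1 : Disjoint S (S.map σ.toEmbedding) := by
    rw [Finset.disjoint_left]
    intro i hi hi2
    obtain ⟨j, hj, rfl⟩ := Finset.mem_map.1 hi2
    refine hS _ hi j hj ?_
    change B.T (σ j) + B.T j = 0
    rw [hσ, neg_add_cancel]
  have hd2 : Disjoint (S ∪ S.map σ.toEmbedding) T₀ := by
    rw [Finset.disjoint_left]
    intro i hi hi2
    have h0 := (hmT₀ i).1 hi2
    rcases Finset.mem_union.1 hi with h1 | h1
    · exact hS i h1 i h1 (by rw [h0, add_zero])
    · obtain ⟨j, hj, rfl⟩ := Finset.mem_map.1 h1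
      have h2 : B.T (σ j) = 0 := h0
      rw [hσ, neg_eq_zero] at h2
      exact hS j hj j hj (by rw [h2, add_zero])
  have h1 : ((S ∪ S.map σ.toEmbedding) ∪ T₀).card ≤ n := by
    have := Finset.card_le_univ ((S ∪ S.map σ.toEmbedding) ∪ T₀)
    rwa [Fintype.card_fin] at this
  rw [Finset.card_union_of_disjoint hd2, Finset.card_union_of_disjoint hd1,
    Finset.card_map] at h1
  have h2 := card_Bz B
  omega

/-- Half of the dimension bounds the isotropic cosets. -/
lemma halfH {t : ℕ} (ht : Fintype.card ι ≤ t + Module.finrank ℂ (Z0 H))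
    (hx : IsReg (hn H) x) (hz : ∀ v ∈ Z0 H, z *ᵥ v = v) (B : Bz (hn H) x z ⊤ n) (k : Fin n)
    (hk : 2 • B.T k ∉ QL (hn H) x) (S : Finset (Fin n))
    (hS : ∀ i ∈ S, B.T i - B.T k ∈ QL (hn H) x) : 2 * S.card ≤ t := by
  refine half_ofH ht hx hz B S fun i hi j hj h1 => hk ?_
  have h2 := (QL _ x).neg_mem ((QL _ x).add_mem (hS i hi) (hS j hj))
  have h3 : 2 • B.T k = -(B.T i - B.T k + (B.T j - B.T k)) := by
    rw [eq_neg_of_add_eq_zero_left h1, two_nsmul]
    abel
  rw [h3]
  exact h2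

end Pool.Agent.N996.FP
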