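import Pool.Agent.N996.FP.Wds

/-!
# The decomposition theorem with fewer tests
-/

set_option linter.unusedSectionVars false

namespace Pool.Agent.N996.FP

open Matrix ComplexOrder NormedSpace

section

variable {ι : Type} [Fintype ι] [DecidableEq ι] {h : Submodule ℂ (Matrix ι ι ℂ)}
  {x y : Matrix ι ι ℂ} {V : Submodule ℂ (ι → ℂ)}

/-- **The element `y` acts as `x` on the vectors with positive eigenvalues.** -/
theorem agree2 (hh : IsLA h) (hx : IsReg h x) (hy : y ∈ h) (hyH : yᴴ = y)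
    (hxy : x * y = y * x) (hpos : IsPosFor h x y) (hV : ∀ z ∈ h, ∀ v ∈ V, z *ᵥ v ∈ V)
    {K : ℕ} (hK : ∀ (k : ℕ) (u : Fin k → V), LinearIndependent ℂ u →
      (∀ j, ∃ d : ℝ, 0 < d ∧ x *ᵥ (u j : ι → ℂ) = (d : ℂ) • (u j : ι → ℂ)) → k ≤ K)
    (hT : ∀ k ≤ K, ∃ (J : Type) (_ : Fintype J) (_ : DecidableEq J)
      (ρ : Matrix ι ι ℂ →ₗ[ℂ] Matrix J J ℂ) (Pi : V [⋀^Fin k]→ₗ[ℂ] (J → ℂ)) (G G' : Matrix J J ℂ),
      Test h V hV x y k ρ Pi G G') {v : ι → ℂ} (hv : v ∈ V) {d : ℝ} (hd : 0 < d)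
    (hvd : x *ᵥ v = (d : ℂ) • v) : y *ᵥ v = x *ᵥ v := by
  obtain ⟨n, v', c, hli, hsp, hc, hanti⟩ := exists_sorted hx.herm (fun v hv => hV x hx.mem v hv)
  have hex : ∀ j, ∃ m : ℝ, y *ᵥ (v' j : ι → ℂ) = (m : ℂ) • (v' j : ι → ℂ) := by
    intro j
    obtain ⟨s, hs⟩ := hx.vec hh.star hy hxy (c j)
    have h1 := hs _ (hc j)
    have h2 : (v' j : ι → ℂ) ≠ 0 := fun h0 => hli.ne_zero j (Subtype.ext h0)
    obtain ⟨r, hr⟩ := herm_real hyH h2 h1
    exact ⟨r, by rw [hr]; exact h1⟩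
  choose m hm using hex
  -- the raising operators
  have hraise : ∀ a : ℝ, 0 < a → ∀ e (he : e ∈ h), e ∈ EA x a → ∀ j,
      (⟨e *ᵥ (v' j : ι → ℂ), hV e he _ (v' j).2⟩ : V) ∈ Submodule.span ℂ (v' '' {i | i < j}) := by
    intro a ha e he hea j
    let B := Module.Basis.mk hli hsp.ge
    have hB : ∀ i, B i = v' i := fun i => by simp [B]
    obtain ⟨u, hu⟩ : ∃ u : V, u = ⟨e *ᵥ (v' j : ι → ℂ), hV e he _ (v' j).2⟩ := ⟨_, rfl⟩
    rw [← hu]
    have hu1 : x *ᵥ (u : ι → ℂ) = ((c j : ℂ) + a) • (u : ι → ℂ) := by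
      have h1 : x * e = (a : ℂ) • e + e * x := by rw [← mem_EA.1 hea]; abel
      rw [hu]
      change x *ᵥ (e *ᵥ (v' j : ι → ℂ)) = ((c j : ℂ) + a) • (e *ᵥ (v' j : ι → ℂ))
      rw [Matrix.mulVec_mulVec, h1, Matrix.add_mulVec, Matrix.smul_mulVec, ← Matrix.mulVec_mulVec,
        hc, Matrix.mulVec_smul, add_smul, add_comm]
    have hcoef : ∀ i, (c i : ℂ) * B.repr u i = ((c j : ℂ) + a) * B.repr u i := by
      let f : V →ₗ[ℂ] V :=
        { toFun := fun w => ⟨x *ᵥ (w : ι → ℂ), hV x hx.mem _ w.2⟩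
          map_add' := fun a b => Subtype.ext (Matrix.mulVec_add _ _ _)
          map_smul' := fun c a => Subtype.ext (Matrix.mulVec_smul _ _ _) }
      have hf : ∀ i, f (B i) = (c i : ℂ) • B i := by
        intro i
        rw [hB]
        exact Subtype.ext (hc i)
      intro i
      have h1 : f u = ((c j : ℂ) + a) • u := Subtype.ext hu1
      have h2 : f u = ∑ l, (B.repr u l * (c l : ℂ)) • B l := by
        conv_lhs => rw [← B.sum_repr u]
        rw [map_sum]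
        refine Finset.sum_congr rfl fun l _ => ?_
        rw [map_smul, hf, smul_smul]
      have h3 := congrArg (fun w => B.repr w i) h1
      simp only [map_smul, Finsupp.smul_apply, smul_eq_mul] at h3
      rw [h2, B.repr_sum_self] at h3
      rw [mul_comm, h3]
    rw [← B.sum_repr u]
    refine Submodule.sum_mem _ fun i _ => ?_
    by_cases hi : B.repr u i = 0
    · rw [hi, zero_smul]; exact Submodule.zero_mem _
    · refine Submodule.smul_mem _ _ (Submodule.subset_span ⟨i, ?_, (hB i).symm⟩)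
      have h1 := mul_right_cancel₀ hi (hcoef i)
      have h2 : c i = c j + a := by exact_mod_cast h1
      change i < j
      by_contra hij
      push Not at hij
      have := hanti hij
      linarith
  -- the partial sums
  have hsum : ∀ (k : ℕ) (hk : k ≤ n) (_ : k ≤ K), ∑ j : Fin k, c (Fin.castLE hk j) =
      ∑ j : Fin k, m (Fin.castLE hk j) := by
    intro k hk hkK
    obtain ⟨J, _, _, ρ, Pi, G, G', T⟩ := hT k hkK
    refine T.sum_eq hh hx hy hyH hxy hpos (v := v' ∘ Fin.castLE hk)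
      (hli.comp _ (Fin.castLE_injective hk)) (fun j => hc _) (fun j => hm _) ?_
    intro a ha e he hea j
    have h1 := hraise a ha e he hea (Fin.castLE hk j)
    refine Submodule.span_mono ?_ h1
    rintro _ ⟨i, hi, rfl⟩
    have hi' : (i : ℕ) < j := hi
    exact ⟨⟨i, lt_trans hi' j.2⟩, hi', rfl⟩
  have hcm : ∀ i, 0 < c i → c i = m i := by
    intro i hi
    have hiK : (i : ℕ) + 1 ≤ K := by
      refine hK ((i : ℕ) + 1) (v' ∘ Fin.castLE i.2) (hli.comp _ (Fin.castLE_injective _))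
        fun j => ⟨c (Fin.castLE i.2 j), lt_of_lt_of_le hi (hanti ?_), hc _⟩
      have := j.2
      rw [Fin.le_def]
      change (j : ℕ) ≤ i
      omega
    have h1 := hsum (i + 1) i.2 hiK
    have h2 := hsum i i.2.le (by omega)
    rw [Fin.sum_univ_castSucc, Fin.sum_univ_castSucc] at h1
    have e1 : ∀ f : Fin n → ℝ, ∑ j : Fin (i : ℕ), f (Fin.castLE i.2 j.castSucc) =
        ∑ j : Fin (i : ℕ), f (Fin.castLE i.2.le j) := fun f => rfl
    have e2 : Fin.castLE i.2 (Fin.last (i : ℕ)) = i := Fin.ext rfl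
    rw [e1, e1, e2, h2] at h1
    exact add_left_cancel h1
  by_cases hv0 : v = 0
  · rw [hv0, Matrix.mulVec_zero, Matrix.mulVec_zero]
  -- the eigenvalue occurs
  have hex : ∃ i, c i = d := by
    by_contra hcon
    push Not at hcon
    let B := Module.Basis.mk hli hsp.ge
    have hB : ∀ i, B i = v' i := fun i => by simp [B]
    let f : V →ₗ[ℂ] V :=
      { toFun := fun w => ⟨x *ᵥ (w : ι → ℂ), hV x hx.mem _ w.2⟩
        map_add' := fun a b => Subtype.ext (Matrix.mulVec_add _ _ _)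
        map_smul' := fun c a => Subtype.ext (Matrix.mulVec_smul _ _ _) }
    have hf : ∀ i, f (B i) = (c i : ℂ) • B i := by
      intro i
      rw [hB]
      exact Subtype.ext (hc i)
    have h1 : f ⟨v, hv⟩ = (d : ℂ) • ⟨v, hv⟩ := Subtype.ext hvd
    obtain ⟨u, hu⟩ : ∃ u : V, u = ⟨v, hv⟩ := ⟨_, rfl⟩
    rw [← hu] at h1
    have h2 : f u = ∑ l, (B.repr u l * (c l : ℂ)) • B l := by
      conv_lhs => rw [← B.sum_repr u]
      rw [map_sum]
      refine Finset.sum_congr rfl fun l _ => ?_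
      rw [map_smul, hf, smul_smul]
    have h3 : u = 0 := by
      apply B.repr.injective
      ext i
      have h4 := congrArg (fun w => B.repr w i) h1
      simp only [map_smul, Finsupp.smul_apply, smul_eq_mul] at h4
      rw [h2, B.repr_sum_self] at h4
      by_contra hne
      rw [map_zero, Finsupp.zero_apply] at hne
      rw [mul_comm] at h4
      exact hcon i (by exact_mod_cast mul_right_cancel₀ hne h4)
    rw [h3] at hu
    exact hv0 (congrArg Subtype.val hu).symm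
  obtain ⟨i, hi⟩ := hex
  obtain ⟨s, hs⟩ := hx.vec hh.star hy hxy d
  have h1 := hs _ hvd
  have h2 := hs (v' i : ι → ℂ) (by rw [hc, hi])
  have h3 : s = (m i : ℂ) := by
    have h4 := h2.symm.trans (hm i)
    rw [← sub_eq_zero, ← sub_smul] at h4
    rcases smul_eq_zero.1 h4 with h5 | h5
    · exact sub_eq_zero.1 h5
    · exact absurd h5 fun h0 => hli.ne_zero i (Subtype.ext h0)
  rw [h1, hvd, h3, ← hcm i (by rw [hi]; exact hd), hi]

end

section

variable {ι : Type} [Fintype ι] [DecidableEq ι] {h : Submodule ℂ (Matrix ι ι ℂ)}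
  {St : Submonoid (Matrix ι ι ℂ)}

/-- **The decomposition theorem.** -/
theorem exists_dec2 (hh : IsLA h) (hS : IsGrp h St) {V : Submodule ℂ (ι → ℂ)}
    (hV : ∀ z ∈ h, ∀ v ∈ V, z *ᵥ v ∈ V) {K : ℕ}
    (hK : ∀ x : Matrix ι ι ℂ, IsReg h x → ∀ (k : ℕ) (u : Fin k → V), LinearIndependent ℂ u →
      (∀ j, ∃ d : ℝ, 0 < d ∧ x *ᵥ (u j : ι → ℂ) = (d : ℂ) • (u j : ι → ℂ)) → k ≤ K)
    (hfin : ∀ x y : Matrix ι ι ℂ, IsReg h x → y ∈ h → yᴴ = y → x * y = y * x →
      (∀ v ∈ V, ∀ d : ℝ, 0 < d → x *ᵥ v = (d : ℂ) • v → y *ᵥ v = x *ᵥ v) → y = x)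
    {p p' : Matrix ι ι ℂ} (hp : p * p' = 1)
    (h1 : ∀ z ∈ h, p * z * p' ∈ h) (h2 : ∀ z ∈ h, p' * z * p ∈ h)
    (hT : ∀ k ≤ K, ∃ (J : Type) (_ : Fintype J) (_ : DecidableEq J)
      (ρ : Matrix ι ι ℂ →ₗ[ℂ] Matrix J J ℂ) (Pi : V [⋀^Fin k]→ₗ[ℂ] (J → ℂ))
      (R : Matrix ι ι ℂ →* Matrix J J ℂ),
      (∀ a b, ρ (br a b) = br (ρ a) (ρ b)) ∧ (∀ a, ρ aᴴ = (ρ a)ᴴ) ∧ (∀ a, R aᴴ = (R a)ᴴ) ∧
      (∀ z (hz : z ∈ h) (v : Fin k → V), ρ z *ᵥ Pi v =
        ∑ j, Pi (Function.update v j ⟨z *ᵥ (v j : ι → ℂ), hV z hz _ (v j).2⟩)) ∧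
      (∀ v, LinearIndependent ℂ v → Pi v ≠ 0) ∧
      (∀ g g' z, g * g' = 1 → R g * ρ z = ρ (g * z * g') * R g) ∧
      (∀ (U : Matrix ι ι ℂ) (_ : Uᴴ * U = 1) (d : ι → ℝ) (_ : ∀ i, 0 < d i) (W : Submodule ℂ (J → ℂ)),
        (∀ v ∈ W, R (fn U (fun i => (d i : ℂ))) *ᵥ v ∈ W) →
        ∀ v ∈ W, R (fn U (fun i => (((Real.sqrt (d i))⁻¹ : ℝ) : ℂ))) *ᵥ v ∈ W) ∧
      (∀ q ∈ St, Pres h ρ (R q)) ∧ Pres h ρ (R p)) :
    ∃ q ∈ St, ∃ q' ∈ St, q * q' = 1 ∧ ∀ w ∈ h, (q' * p) * w = w * (q' * p) := by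
  have hp' : p' * p = 1 := mul_eq_one_comm.1 hp
  obtain ⟨U, d, s₁, s₂, hU, hd, hP, hs₁, hs₂, hE, hE'⟩ := polar hh hp h1 h2
  obtain ⟨x, hxh, hxH, hxr⟩ := exists_regular h
  have hx : IsReg h x := ⟨hxh, hxH, hxr⟩
  have hs12 : s₂ * s₁ = s₁ * s₂ := hs₂ s₁ hs₁
  have hU' : U * Uᴴ = 1 := mul_eq_one_comm.1 hU
  -- the exponentials
  obtain ⟨E, hEd⟩ : ∃ E, E = exp (-(s₁ + s₂)) := ⟨_, rfl⟩
  obtain ⟨F, hFd⟩ : ∃ F, F = exp (s₁ + s₂) := ⟨_, rfl⟩
  rw [← hEd] at hE'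
  rw [← hFd] at hE
  have hEF : E * F = 1 := by
    rw [hEd, hFd]
    exact (exp_ns _).2
  have hFE : F * E = 1 := mul_eq_one_comm.1 hEF
  have hEH : Eᴴ = E := by
    rw [hE', fn, Matrix.conjTranspose_mul, Matrix.conjTranspose_mul,
      Matrix.conjTranspose_conjTranspose, Matrix.diagonal_conjTranspose]
    have : star (fun i => (((Real.sqrt (d i))⁻¹ : ℝ) : ℂ)) =
        fun i => (((Real.sqrt (d i))⁻¹ : ℝ) : ℂ) := by
      funext i; simp
    rw [this]
    simp only [Matrix.mul_assoc]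
  obtain ⟨k, hk⟩ : ∃ k, k = p * E := ⟨_, rfl⟩
  have hkk : kᴴ * k = 1 := by
    rw [hk, Matrix.conjTranspose_mul, hEH]
    calc E * pᴴ * (p * E) = E * (pᴴ * p) * E := by simp only [Matrix.mul_assoc]
      _ = 1 := by
        rw [hP, hE', fn_mul hU, fn_mul hU, ← fn_one hU']
        congr 1
        funext i
        have h3 := Real.mul_self_sqrt (hd i).le
        have h4 := (Real.sqrt_pos.2 (hd i)).ne'
        rw [← Complex.ofReal_mul, ← Complex.ofReal_mul, ← Complex.ofReal_one]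
        congr 1
        obtain ⟨r, hr⟩ : ∃ r, r = Real.sqrt (d i) := ⟨_, rfl⟩
        rw [← hr] at h3 h4 ⊢
        rw [← h3]
        field_simp
  have hkk' : k * kᴴ = 1 := mul_eq_one_comm.1 hkk
  have hpk : p = k * F := by rw [hk, Matrix.mul_assoc, hEF, Matrix.mul_one]
  -- `E` and `F` normalise the Lie algebra
  have hexp : F = exp s₁ * exp s₂ := by
    rw [hFd, Matrix.exp_add_of_commute _ _ hs12.symm]
  have hexp' : E = exp (-s₁) * exp (-s₂) := by
    have hc12 : Commute s₁ s₂ := hs12.symm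
    rw [hEd, neg_add, Matrix.exp_add_of_commute _ _ hc12.neg_left.neg_right]
  have hns : ∀ s : Matrix ι ι ℂ, exp s * exp (-s) = 1 ∧ exp (-s) * exp s = 1 := exp_ns
  have hcs₂ : ∀ z ∈ h, exp s₂ * z = z * exp s₂ := fun z hz => exp_comm (hs₂ z hz)
  have hcs₂' : ∀ z ∈ h, exp (-s₂) * z = z * exp (-s₂) := fun z hz => exp_comm (by
    rw [Matrix.neg_mul, Matrix.mul_neg, hs₂ z hz])
  have hEad : ∀ z ∈ h, E * z * F ∈ h := by
    intro z hz
    have e1 : E * z * F = exp (-s₁) * z * exp s₁ := by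
      rw [hexp, hexp']
      calc exp (-s₁) * exp (-s₂) * z * (exp s₁ * exp s₂) =
          exp (-s₁) * (exp (-s₂) * z) * exp s₁ * exp s₂ := by simp only [Matrix.mul_assoc]
        _ = exp (-s₁) * z * (exp (-s₂) * exp s₁) * exp s₂ := by
            rw [hcs₂' z hz]; simp only [Matrix.mul_assoc]
        _ = exp (-s₁) * z * (exp s₁ * exp (-s₂)) * exp s₂ := by
            rw [exp_comm (a := -s₂) (b := exp s₁)]
            exact (exp_comm (a := s₁) (b := -s₂) (by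
              rw [Matrix.neg_mul, Matrix.mul_neg, hs12])).symm
        _ = exp (-s₁) * z * exp s₁ * (exp (-s₂) * exp s₂) := by simp only [Matrix.mul_assoc]
        _ = _ := by rw [(hns s₂).2, Matrix.mul_one]
    rw [e1]
    exact hS.ad _ (hS.exp _ (Submodule.neg_mem _ hs₁)) _ (hns s₁).2 z hz
  have hkad : ∀ z ∈ h, k * z * kᴴ ∈ h := by
    intro z hz
    have e1 : kᴴ = F * p' := by
      calc kᴴ = kᴴ * (p * p') := by rw [hp, Matrix.mul_one]
        _ = (kᴴ * k) * F * p' := by rw [hpk]; simp only [Matrix.mul_assoc]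
        _ = _ := by rw [hkk, Matrix.one_mul]
    have e2 : k * z * kᴴ = p * (E * z * F) * p' := by
      rw [e1, hk]; simp only [Matrix.mul_assoc]
    rw [e2]
    exact h1 _ (hEad z hz)
  obtain ⟨u, hu, y, hyh, hy, hyH, hxy, hpos⟩ := exists_max hh hx hS.isCG hkad
  obtain ⟨g, hg⟩ : ∃ g, g = u * k := ⟨_, rfl⟩
  rw [← hg] at hy
  have hgg : gᴴ * g = 1 := by
    rw [hg, Matrix.conjTranspose_mul]
    calc kᴴ * uᴴ * (u * k) = kᴴ * (uᴴ * u) * k := by simp only [Matrix.mul_assoc]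
      _ = 1 := by rw [hu.1, Matrix.mul_one, hkk]
  have hgg' : g * gᴴ = 1 := mul_eq_one_comm.1 hgg
  have hT' : ∀ k ≤ K, ∃ (J : Type) (_ : Fintype J) (_ : DecidableEq J)
      (ρ : Matrix ι ι ℂ →ₗ[ℂ] Matrix J J ℂ) (Pi : V [⋀^Fin k]→ₗ[ℂ] (J → ℂ)) (G G' : Matrix J J ℂ),
      Test h V hV x y k ρ Pi G G' := by
    intro m hmK
    obtain ⟨J, _, _, ρ, Pi, R, a1, a2, a3, a4, a5, a6, a7, a8, a9⟩ := hT m hmK
    -- `R g` preserves the stable subspaces
    have b1 : Pres h ρ (R (pᴴ * p)) := by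
      rw [map_mul, a3]
      exact (Pres.adj hh a2 a9).mul a9
    have b2 : Pres h ρ (R E) := by
      intro W hW v hv
      rw [hE']
      refine a7 U hU d hd W ?_ v hv
      rw [← hP]
      exact b1 W hW
    have b3 : Pres h ρ (R g) := by
      rw [hg, hk, map_mul, map_mul]
      exact (a8 u hu.2).mul (a9.mul b2)
    have b4 : Pres h ρ (R gᴴ) := by
      rw [a3]
      exact Pres.adj hh a2 b3
    exact ⟨J, inferInstance, inferInstance, ρ, Pi, R g, R gᴴ,
      { brk := a1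
        act := a4
        ne := a5
        inv := by rw [← map_mul, hgg', map_one]
        stab := fun W hW => ⟨b3 W hW, b4 W hW⟩
        conj := by rw [a6 g gᴴ x hgg', hy] }⟩
  have hyx : y = x := hfin x y hx hyh hyH hxy fun v hv d hd hvd =>
    agree2 hh hx hyh hyH hxy hpos hV (hK x hx) hT' hv hd hvd
  have hxg : x * g = g * x := by
    rw [hyx] at hy
    calc x * g = (g * x * gᴴ) * g := by rw [← hy]
      _ = g * x * (gᴴ * g) := by simp only [Matrix.mul_assoc]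
      _ = g * x := by rw [hgg, Matrix.mul_one]
  have hgad : ∀ z ∈ h, g * z * gᴴ ∈ h := by
    intro z hz
    have e1 : g * z * gᴴ = u * (k * z * kᴴ) * uᴴ := by
      rw [hg, Matrix.conjTranspose_mul]; simp only [Matrix.mul_assoc]
    rw [e1]
    exact hS.isCG.ad u hu _ (hkad z hz)
  obtain ⟨s, hs, hsH, hcomm⟩ := exists_inner hh hx hgg hxg hgad
  obtain ⟨z, hz⟩ : ∃ z, z = exp (-s) * g := ⟨_, rfl⟩
  rw [← hz] at hcomm
  have huu' : u * uᴴ = 1 := mul_eq_one_comm.1 hu.1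
  have huSt : uᴴ ∈ St := by
    obtain ⟨u', hu', huu⟩ := hS.inv u hu.2
    have : u' = uᴴ := by
      calc u' = (uᴴ * u) * u' := by rw [hu.1, Matrix.one_mul]
        _ = uᴴ := by rw [Matrix.mul_assoc, huu, Matrix.mul_one]
    rw [← this]
    exact hu'
  have hsneg : -s ∈ h := Submodule.neg_mem _ hs
  have hs₁neg : -s₁ ∈ h := Submodule.neg_mem _ hs₁
  refine ⟨uᴴ * exp s * exp s₁, St.mul_mem (St.mul_mem huSt (hS.exp s hs)) (hS.exp s₁ hs₁),
    exp (-s₁) * (exp (-s) * u), St.mul_mem (hS.exp _ hs₁neg) (St.mul_mem (hS.exp _ hsneg) hu.2),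
    ?_, ?_⟩
  · calc uᴴ * exp s * exp s₁ * (exp (-s₁) * (exp (-s) * u)) =
        uᴴ * exp s * (exp s₁ * exp (-s₁)) * exp (-s) * u := by simp only [Matrix.mul_assoc]
      _ = uᴴ * (exp s * exp (-s)) * u := by
          rw [(hns s₁).1, Matrix.mul_one]; simp only [Matrix.mul_assoc]
      _ = 1 := by rw [(hns s).1, Matrix.mul_one, hu.1]
  · have e1 : exp (-s₁) * (exp (-s) * u) * p = z * exp s₂ := by
      calc exp (-s₁) * (exp (-s) * u) * p = exp (-s₁) * (exp (-s) * (u * k)) * F := by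
            rw [hpk]; simp only [Matrix.mul_assoc]
        _ = exp (-s₁) * z * (exp s₁ * exp s₂) := by rw [← hg, ← hz, hexp]
        _ = (exp (-s₁) * z) * exp s₁ * exp s₂ := by simp only [Matrix.mul_assoc]
        _ = z * (exp (-s₁) * exp s₁) * exp s₂ := by
            rw [exp_comm (a := -s₁) (b := z) (by
              rw [Matrix.neg_mul, Matrix.mul_neg, hcomm s₁ hs₁])]
            simp only [Matrix.mul_assoc]
        _ = z * exp s₂ := by rw [(hns s₁).2, Matrix.mul_one]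
    intro w hw
    rw [e1]
    calc z * exp s₂ * w = z * (exp s₂ * w) := by rw [Matrix.mul_assoc]
      _ = (z * w) * exp s₂ := by rw [hcs₂ w hw, Matrix.mul_assoc]
      _ = w * (z * exp s₂) := by rw [hcomm w hw, Matrix.mul_assoc]

end

end Pool.Agent.N996.FP
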