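import Pool.Agent.N996.FP.Cha

/-!
# Antisymmetric tensors and products of tensors
-/

set_option linter.unusedSectionVars false

namespace Pool.Agent.N996.FP

open Matrix Pool.Agent.N996.BP

variable {ι : Type} [Fintype ι] [DecidableEq ι]

section wedge

variable {V : Submodule ℂ (ι → ℂ)}

/-- The antisymmetric tensors. -/
noncomputable def wA (V : Submodule ℂ (ι → ℂ)) (k : ℕ) :
    V [⋀^Fin k]→ₗ[ℂ] ((Fin k → ι) → ℂ) :=
  AlternatingMap.pi fun w =>
    (Matrix.detRowAlternating (R := ℂ) (n := Fin k)).compLinearMap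
      ((LinearMap.funLeft ℂ ℂ w) ∘ₗ V.subtype)

lemma wA_apply {k : ℕ} (v : Fin k → V) (w : Fin k → ι) :
    wA V k v w = Matrix.det (Matrix.of fun i c => (v i : ι → ℂ) (w c)) := rfl

lemma wA_kpf {k : ℕ} (G : Fin k → Matrix ι ι ℂ) (v : Fin k → V) (w : Fin k → ι) :
    (kpf G *ᵥ wA V k v) w = Matrix.det (Matrix.of fun i c => (G c *ᵥ (v i : ι → ℂ)) (w c)) := by
  rw [Matrix.mulVec, dotProduct]
  have h1 : ∀ u : Fin k → ι, kpf G w u * wA V k v u =
      ∑ σ : Equiv.Perm (Fin k), ((Equiv.Perm.sign σ : ℤ) : ℂ) *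
        ∏ c, (G c (w c) (u c) * (v (σ c) : ι → ℂ) (u c)) := by
    intro u
    rw [wA_apply, Matrix.det_apply', Finset.mul_sum]
    refine Finset.sum_congr rfl fun σ _ => ?_
    rw [Finset.prod_mul_distrib, kpf_apply]
    simp only [Matrix.of_apply]
    ring
  simp only [h1]
  rw [Finset.sum_comm, Matrix.det_apply']
  refine Finset.sum_congr rfl fun σ _ => ?_
  rw [← Finset.mul_sum]
  congr 1
  have h2 := Finset.prod_univ_sum (fun _ : Fin k => (Finset.univ : Finset ι))
    (fun c e => G c (w c) e * (v (σ c) : ι → ℂ) e)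
  rw [Fintype.piFinset_univ] at h2
  rw [← h2]
  rfl

/-- The sums over the rows and the columns. -/
lemma row_col {k : ℕ} (M N : Matrix (Fin k) (Fin k) ℂ) :
    ∑ c, Matrix.det (M.updateCol c fun i => N i c) = ∑ i, Matrix.det (M.updateRow i (N i)) := by
  have h1 : ∀ c, Matrix.det (M.updateCol c fun i => N i c) =
      ∑ i, M.adjugate c i * N i c := by
    intro c
    rw [← Matrix.cramer_apply, Matrix.cramer_eq_adjugate_mulVec]
    rfl
  have h2 : ∀ i, Matrix.det (M.updateRow i (N i)) = ∑ c, M.adjugate c i * N i c := by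
    intro i
    rw [← Matrix.cramer_transpose_apply, Matrix.cramer_eq_adjugate_mulVec,
      ← Matrix.adjugate_transpose]
    rfl
  simp only [h1, h2]
  exact Finset.sum_comm

/-- The action of matrices. -/
lemma wA_dk {k : ℕ} (z : Matrix ι ι ℂ) (hz : ∀ v ∈ V, z *ᵥ v ∈ V) (v : Fin k → V) :
    dk (Fin k) z *ᵥ wA V k v =
      ∑ j, wA V k (Function.update v j ⟨z *ᵥ (v j : ι → ℂ), hz _ (v j).2⟩) := by
  funext w
  rw [dk_def, Matrix.sum_mulVec, Finset.sum_apply, Finset.sum_apply]
  have h1 : ∀ c, (slot c z *ᵥ wA V k v) w = Matrix.det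
      ((Matrix.of fun i c => (v i : ι → ℂ) (w c)).updateCol c
        fun i => (Matrix.of fun i c => (z *ᵥ (v i : ι → ℂ)) (w c)) i c) := by
    intro c
    rw [slot, wA_kpf]
    congr 1
    ext i c'
    rw [Matrix.of_apply, Matrix.updateCol_apply]
    by_cases h : c' = c
    · subst h
      rw [if_pos rfl, Function.update_self]
      rfl
    · rw [if_neg h, Function.update_of_ne h, Matrix.one_mulVec]
      rfl
  simp only [h1]
  rw [row_col]
  refine Finset.sum_congr rfl fun j _ => ?_
  rw [wA_apply]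
  congr 1
  ext i c
  rw [Matrix.of_apply, Matrix.updateRow_apply]
  by_cases h : i = j
  · subst h
    rw [if_pos rfl, Function.update_self]
    rfl
  · rw [if_neg h, Function.update_of_ne h]
    rfl

lemma wA_kp {k : ℕ} (g : Matrix ι ι ℂ) (hg : ∀ v ∈ V, g *ᵥ v ∈ V) (v : Fin k → V) :
    kp (Fin k) g *ᵥ wA V k v = wA V k fun i => ⟨g *ᵥ (v i : ι → ℂ), hg _ (v i).2⟩ := by
  funext w
  rw [← kpf_const, wA_kpf, wA_apply]

/-- Antisymmetric tensors of linearly independent vectors. -/
lemma wA_ne {k : ℕ} (v : Fin k → V) (hv : LinearIndependent ℂ v) : wA V k v ≠ 0 := by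
  classical
  intro h0
  let col : ι → (Fin k → ℂ) := fun e i => (v i : ι → ℂ) e
  have hspan : Submodule.span ℂ (Set.range col) = ⊤ := by
    by_contra hne
    obtain ⟨f, hf0, hf⟩ := Submodule.exists_le_ker_of_lt_top _ (lt_top_iff_ne_top.2 hne)
    apply hf0
    have hf1 : ∀ e, f (col e) = 0 := fun e =>
      hf (Submodule.subset_span ⟨e, rfl⟩)
    have hf2 : ∀ u : Fin k → ℂ, f u = ∑ i, u i * f (Pi.single i 1) := by
      intro u
      conv_lhs => rw [← LinearMap.sum_single_apply (fun _ => ℂ) u]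
      rw [map_sum]
      refine Finset.sum_congr rfl fun i _ => ?_
      have h1 : (Pi.single i (u i) : Fin k → ℂ) = u i • Pi.single i (1 : ℂ) := by
        rw [← Pi.single_smul, smul_eq_mul, mul_one]
      change f (Pi.single i (u i)) = _
      rw [h1, map_smul, smul_eq_mul]
    have hf3 : ∑ i, f (Pi.single i 1) • v i = 0 := by
      apply Subtype.ext
      funext e
      have h1 := hf1 e
      rw [hf2] at h1
      rw [Submodule.coe_sum, Finset.sum_apply]
      change _ = (0 : ℂ)
      rw [← h1]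
      refine Finset.sum_congr rfl fun i _ => ?_
      rw [Submodule.coe_smul, Pi.smul_apply, smul_eq_mul, mul_comm]
    have hf4 := Fintype.linearIndependent_iff.1 hv _ hf3
    refine LinearMap.ext fun u => ?_
    rw [hf2, LinearMap.zero_apply]
    exact Finset.sum_eq_zero fun i _ => by rw [hf4 i, mul_zero]
  obtain ⟨f, hf, hsp, hli⟩ := Submodule.exists_fun_fin_finrank_span_eq ℂ (Set.range col)
  have hk : Module.finrank ℂ (Submodule.span ℂ (Set.range col)) = k := by
    rw [hspan, finrank_top, Module.finrank_fintype_fun_eq_card, Fintype.card_fin]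
  choose w hw using hf
  have key : ∀ (m : ℕ) (_ : m = k) (f : Fin m → Fin k → ℂ) (w : Fin m → ι),
      (∀ i, col (w i) = f i) → LinearIndependent ℂ f → False := by
    rintro m rfl f w hw hli
    have h1 : wA V m v w = 0 := by rw [h0]; rfl
    rw [wA_apply] at h1
    have h2 : (Matrix.of fun i c => (v i : ι → ℂ) (w c)) = (Matrix.of f)ᵀ := by
      ext i c
      rw [Matrix.transpose_apply, Matrix.of_apply, Matrix.of_apply, ← hw]
    rw [h2, Matrix.det_transpose] at h1
    have h3 : LinearIndependent ℂ (Matrix.of f).row := hli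
    rw [Matrix.linearIndependent_rows_iff_isUnit, Matrix.isUnit_iff_isUnit_det, h1] at h3
    exact not_isUnit_zero h3
  exact key _ hk f w hw hli

end wedge

/-! ### Products of tensors -/

section block

variable {R : Type} [Fintype R] [DecidableEq R] {d : R → ℕ}

/-- The product of tensors. -/
def bt (p : ∀ r, (Fin (d r) → ι) → ℂ) : ((Σ r, Fin (d r)) → ι) → ℂ :=
  fun m => ∏ r, p r fun c => m ⟨r, c⟩

lemma kpf_bt (G : (Σ r, Fin (d r)) → Matrix ι ι ℂ) (p : ∀ r, (Fin (d r) → ι) → ℂ) :
    kpf G *ᵥ bt p = bt fun r => kpf (fun c => G ⟨r, c⟩) *ᵥ p r := by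
  funext m
  rw [Matrix.mulVec, dotProduct, ← (Equiv.piCurry fun (r : R) (_ : Fin (d r)) => ι).symm.sum_comp]
  have h1 : ∀ u : (r : R) → Fin (d r) → ι,
      kpf G m ((Equiv.piCurry fun (r : R) (_ : Fin (d r)) => ι).symm u) *
        bt p ((Equiv.piCurry fun (r : R) (_ : Fin (d r)) => ι).symm u) =
      ∏ r, (kpf (fun c => G ⟨r, c⟩) (fun c => m ⟨r, c⟩) (u r) * p r (u r)) := by
    intro u
    rw [Finset.prod_mul_distrib, kpf_apply, Fintype.prod_sigma]
    rfl
  simp only [h1]
  have h2 := Finset.prod_univ_sum (fun r : R => (Finset.univ : Finset (Fin (d r) → ι)))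
    (fun r u => kpf (fun c => G ⟨r, c⟩) (fun c => m ⟨r, c⟩) u * p r u)
  rw [Fintype.piFinset_univ] at h2
  rw [← h2]
  rfl

lemma kp_bt (g : Matrix ι ι ℂ) (p : ∀ r, (Fin (d r) → ι) → ℂ) :
    kp (Σ r, Fin (d r)) g *ᵥ bt p = bt fun r => kp (Fin (d r)) g *ᵥ p r := by
  rw [← kpf_const, kpf_bt]
  rfl

lemma bt_smul (c : R → ℂ) (p : ∀ r, (Fin (d r) → ι) → ℂ) :
    bt (fun r => c r • p r) = (∏ r, c r) • bt p := by
  funext m
  rw [bt, Pi.smul_apply, bt, smul_eq_mul, ← Finset.prod_mul_distrib]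
  rfl

lemma bt_zero {p : ∀ r, (Fin (d r) → ι) → ℂ} {r : R} (hr : p r = 0) : bt p = 0 := by
  funext m
  rw [bt]
  exact Finset.prod_eq_zero (Finset.mem_univ r) (by rw [hr]; rfl)

lemma bt_ne {p : ∀ r, (Fin (d r) → ι) → ℂ} (hp : ∀ r, p r ≠ 0) : bt p ≠ 0 := by
  have h1 : ∀ r, ∃ m, p r m ≠ 0 := fun r => by
    by_contra hcon
    push Not at hcon
    exact hp r (funext hcon)
  choose m hm using h1
  intro h0
  have h2 := congrFun h0 fun x => m x.1 x.2
  rw [bt] at h2
  obtain ⟨r, _, hr⟩ := Finset.prod_eq_zero_iff.1 h2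
  exact hm r hr

lemma bt_update_add (p : ∀ r, (Fin (d r) → ι) → ℂ) (r : R) (a b : (Fin (d r) → ι) → ℂ) :
    bt (Function.update p r (a + b)) = bt (Function.update p r a) + bt (Function.update p r b) := by
  funext m
  have h1 : ∀ y : (Fin (d r) → ι) → ℂ, bt (Function.update p r y) m =
      y (fun c => m ⟨r, c⟩) * ∏ r' ∈ Finset.univ.erase r, p r' fun c => m ⟨r', c⟩ := by
    intro y
    rw [bt, ← Finset.mul_prod_erase _ _ (Finset.mem_univ r), Function.update_self]
    congr 1
    refine Finset.prod_congr rfl fun r' hr' => ?_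
    rw [Function.update_of_ne (Finset.ne_of_mem_erase hr')]
  rw [Pi.add_apply, h1, h1, h1, Pi.add_apply, add_mul]

lemma bt_update_sum {α : Type*} (p : ∀ r, (Fin (d r) → ι) → ℂ) (r : R) (s : Finset α)
    (f : α → (Fin (d r) → ι) → ℂ) :
    bt (Function.update p r (∑ a ∈ s, f a)) = ∑ a ∈ s, bt (Function.update p r (f a)) := by
  classical
  induction s using Finset.induction_on with
  | empty =>
    rw [Finset.sum_empty, Finset.sum_empty]
    exact bt_zero (r := r) (Function.update_self ..)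
  | insert a s ha ih => rw [Finset.sum_insert ha, Finset.sum_insert ha, bt_update_add, ih]

lemma dk_bt (w : Matrix ι ι ℂ) (p : ∀ r, (Fin (d r) → ι) → ℂ) :
    dk (Σ r, Fin (d r)) w *ᵥ bt p =
      ∑ r, bt (Function.update p r (dk (Fin (d r)) w *ᵥ p r)) := by
  rw [dk_def, Matrix.sum_mulVec, Fintype.sum_sigma]
  refine Finset.sum_congr rfl fun r _ => ?_
  rw [dk_def, Matrix.sum_mulVec, bt_update_sum]
  refine Finset.sum_congr rfl fun c _ => ?_
  rw [slot, kpf_bt]
  congr 1
  funext r'
  by_cases h : r' = r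
  · subst h
    rw [Function.update_self, slot]
    congr 2
    funext c'
    by_cases hc : c' = c
    · subst hc
      rw [Function.update_self, Function.update_self]
    · rw [Function.update_of_ne hc, Function.update_of_ne]
      intro h1
      apply hc
      simpa using h1
  · rw [Function.update_of_ne h]
    have h1 : (fun c' : Fin (d r') =>
        Function.update (fun _ => (1 : Matrix ι ι ℂ)) (⟨r, c⟩ : Σ r, Fin (d r)) w ⟨r', c'⟩) =
        fun _ => 1 := by
      funext c'
      rw [Function.update_of_ne]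
      intro h1
      exact h (congrArg Sigma.fst h1)
    rw [h1, kpf_const, kp_one, Matrix.one_mulVec]

lemma dk_bt_eig {w : Matrix ι ι ℂ} {p : ∀ r, (Fin (d r) → ι) → ℂ} {s : R → ℂ}
    (hs : ∀ r, dk (Fin (d r)) w *ᵥ p r = s r • p r) :
    dk (Σ r, Fin (d r)) w *ᵥ bt p = (∑ r, s r) • bt p := by
  rw [dk_bt, Finset.sum_smul]
  refine Finset.sum_congr rfl fun r _ => ?_
  rw [hs]
  have h1 : Function.update p r (s r • p r) =
      fun r' => (Function.update (fun _ => (1 : ℂ)) r (s r) r') • p r' := by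
    funext r'
    by_cases h : r' = r
    · subst h
      rw [Function.update_self, Function.update_self]
    · rw [Function.update_of_ne h, Function.update_of_ne h, one_smul]
  rw [h1, bt_smul, Finset.prod_update_of_mem (Finset.mem_univ r), Finset.prod_const_one, mul_one]

lemma dk_bt_zero {w : Matrix ι ι ℂ} {p : ∀ r, (Fin (d r) → ι) → ℂ}
    (hs : ∀ r, dk (Fin (d r)) w *ᵥ p r = 0) : dk (Σ r, Fin (d r)) w *ᵥ bt p = 0 := by
  have h1 := dk_bt_eig (w := w) (p := p) (s := fun _ => 0) fun r => by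
    rw [hs r, zero_smul]
  rw [h1, Finset.sum_const_zero, zero_smul]

end block

end Pool.Agent.N996.FP
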