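import Pool.Agent.N996.FP.Wdd

/-!
# The decomposition theorem for Hodge structures with fewer tests
-/

set_option linter.unusedSectionVars false

namespace Pool.Agent.N996.FP

open Matrix Pool.Agent.N996.BP ComplexConjugate

variable {ι : Type} [Fintype ι] [DecidableEq ι]

/-- Independent vectors in the span of a finite set. -/
lemma card_le_of_span {V : Submodule ℂ (ι → ℂ)} {n k : ℕ} {u : Fin k → V}
    (hu : LinearIndependent ℂ u) (S : Finset (Fin n)) (v : Fin n → V)
    (h : ∀ j, u j ∈ Submodule.span ℂ (v '' S)) : k ≤ S.card := by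
  classical
  have h1 := finrank_span_eq_card hu
  rw [Fintype.card_fin] at h1
  have h2 : Submodule.span ℂ (Set.range u) ≤ Submodule.span ℂ (v '' S) := by
    refine Submodule.span_le.2 ?_
    rintro _ ⟨j, rfl⟩
    exact h j
  have h3 := Submodule.finrank_mono h2
  have h4 : Module.finrank ℂ (Submodule.span ℂ (v '' (S : Set (Fin n)))) ≤ S.card := by
    have h5 := finrank_span_finset_le_card (R := ℂ) (S.image v)
    rw [Finset.coe_image] at h5
    exact h5.trans Finset.card_image_le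
  omega

variable {H : HData ι}

/-- The vectors killed by the Lie algebra. -/
noncomputable def Z0 (H : HData ι) : Submodule ℂ (ι → ℂ) where
  carrier := {v | ∀ w ∈ hn H, w *ᵥ v = 0}
  add_mem' {a b} ha hb w hw := by rw [Matrix.mulVec_add, ha w hw, hb w hw, add_zero]
  zero_mem' w _ := Matrix.mulVec_zero _
  smul_mem' c a ha w hw := by rw [Matrix.mulVec_smul, ha w hw, smul_zero]

lemma mem_Z0 {v : ι → ℂ} : v ∈ Z0 H ↔ ∀ w ∈ hn H, w *ᵥ v = 0 := Iff.rfl

variable {x z : Matrix ι ι ℂ} {n : ℕ}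

lemma pair_wt2 {V : Submodule ℂ (ι → ℂ)} (hx : IsReg (hn H) x) (B : Bz (hn H) x z V n)
    {i j : Fin n} (hij : qf H (B.v i : ι → ℂ) (B.v j : ι → ℂ) ≠ 0) : B.T i + B.T j = 0 := by
  refine ct_nondeg (isLA_hn H) hx.herm ((ct _ x).add_mem (B.wt i).mem (B.wt j).mem) fun t ht => ?_
  have h1 := qf_skew ht.1 (B.v i : ι → ℂ) (B.v j : ι → ℂ)
  rw [(B.wt i).val t ht, (B.wt j).val t ht, qf_smul_left, qf_smul_right,
    eq_neg_iff_add_eq_zero, ← add_mul] at h1
  rw [Matrix.add_mul, Matrix.trace_add]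
  exact (mul_eq_zero.1 h1).resolve_right hij

/-- The Gram matrix is invertible. -/
lemma exists_perm (B : Bz (hn H) x z ⊤ n) :
    ∃ σ : Equiv.Perm (Fin n), ∀ i, qf H (B.v (σ i) : ι → ℂ) (B.v i : ι → ℂ) ≠ 0 := by
  classical
  let G : Matrix (Fin n) (Fin n) ℂ := Matrix.of fun i j =>
    qf H (B.v i : ι → ℂ) (B.v j : ι → ℂ)
  have hG : G.det ≠ 0 := by
    intro h0
    obtain ⟨a, ha0, ha⟩ := Matrix.exists_mulVec_eq_zero_iff.2 h0
    apply ha0
    obtain ⟨u, hu⟩ : ∃ u : (⊤ : Submodule ℂ (ι → ℂ)), u = ∑ j, a j • B.v j := ⟨_, rfl⟩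
    have hq : ∀ w : ι → ℂ, qf H w (u : ι → ℂ) = ∑ j, a j * qf H w (B.v j : ι → ℂ) := by
      intro w
      have h1 : ∀ s : Finset (Fin n),
          qf H w ((∑ j ∈ s, a j • B.v j : (⊤ : Submodule ℂ (ι → ℂ))) : ι → ℂ) =
          ∑ j ∈ s, a j * qf H w (B.v j : ι → ℂ) := by
        intro s
        induction s using Finset.induction_on with
        | empty => rw [Finset.sum_empty, Finset.sum_empty]; exact qf_zero_right _
        | insert b s hb ih =>
          rw [Finset.sum_insert hb, Finset.sum_insert hb, Submodule.coe_add, qf_add_right, ih,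
            Submodule.coe_smul, qf_smul_right]
      rw [hu]
      exact h1 _
    have hv : ∀ i, qf H (B.v i : ι → ℂ) (u : ι → ℂ) = 0 := by
      intro i
      rw [hq]
      have h1 := congrFun ha i
      rw [Matrix.mulVec, dotProduct] at h1
      rw [Pi.zero_apply] at h1
      rw [← h1]
      exact Finset.sum_congr rfl fun j _ => mul_comm _ _
    have hu0 : (u : ι → ℂ) = 0 := by
      refine qf_nondeg (H := H) fun w => ?_
      obtain ⟨w', hw'⟩ : ∃ w' : (⊤ : Submodule ℂ (ι → ℂ)), (w' : ι → ℂ) = w :=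
        ⟨⟨w, trivial⟩, rfl⟩
      rw [← hw']
      have hws : w' ∈ Submodule.span ℂ (Set.range B.v) := by rw [B.sp]; exact Submodule.mem_top
      clear hw'
      induction hws using Submodule.span_induction with
      | mem v hv' =>
        obtain ⟨j, rfl⟩ := hv'
        exact hv j
      | zero => exact qf_zero_left _
      | add a b _ _ ha hb => rw [Submodule.coe_add, qf_add_left, ha, hb, add_zero]
      | smul c a _ ha => rw [Submodule.coe_smul, qf_smul_left, ha, mul_zero]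
    have hu1 : ∑ j, a j • B.v j = 0 := by rw [← hu]; exact Subtype.ext hu0
    funext j
    exact Fintype.linearIndependent_iff.1 B.li a hu1 j
  rw [Matrix.det_apply'] at hG
  obtain ⟨σ, -, hσ⟩ := Finset.exists_ne_zero_of_sum_ne_zero hG
  refine ⟨σ, fun i => ?_⟩
  have h1 := Finset.prod_ne_zero_iff.1 (right_ne_zero_of_mul hσ) i (Finset.mem_univ i)
  exact h1

/-- The weights are symmetric. -/
lemma exists_permT (hx : IsReg (hn H) x) (B : Bz (hn H) x z ⊤ n) :
    ∃ σ : Equiv.Perm (Fin n), (∀ i, B.T (σ i) = -B.T i) ∧ ∀ i, B.c (σ i) = -B.c i := by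
  obtain ⟨σ, hσ⟩ := exists_perm B
  have h1 : ∀ i, B.T (σ i) = -B.T i := fun i => eq_neg_of_add_eq_zero_left (pair_wt2 hx B (hσ i))
  refine ⟨σ, h1, fun i => ?_⟩
  have h2 := B.c_eq hx (σ i)
  rw [h1, Matrix.neg_mul, Matrix.trace_neg, B.c_eq hx] at h2
  exact_mod_cast h2.symm

lemma card_Bz (B : Bz (hn H) x z ⊤ n) : n = Fintype.card ι := by
  have h3 := Module.finrank_eq_card_basis B.bas
  rw [Fintype.card_fin, finrank_top, Module.finrank_fintype_fun_eq_card] at h3
  exact h3.symm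

/-- The trivial part. -/
lemma Z0_le (hx : IsReg (hn H) x) (B : Bz (hn H) x z ⊤ n)
    (hz : ∀ v ∈ Z0 H, z *ᵥ v = v) (S : Finset (Fin n))
    (hS : ∀ i, B.c i = 0 → B.ζ i = 1 → i ∈ S) : Module.finrank ℂ (Z0 H) ≤ S.card := by
  let b := Module.finBasis ℂ (Z0 H)
  let u : Fin (Module.finrank ℂ (Z0 H)) → (⊤ : Submodule ℂ (ι → ℂ)) := fun j =>
    ⟨(b j : ι → ℂ), trivial⟩
  have hu : LinearIndependent ℂ u := by
    rw [Fintype.linearIndependent_iff]
    intro a ha j
    refine Fintype.linearIndependent_iff.1 b.linearIndependent a ?_ j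
    apply Subtype.ext
    have h1 := congrArg Subtype.val ha
    rw [Submodule.coe_sum] at h1 ⊢
    exact h1
  refine card_le_of_span hu S B.v fun j => ?_
  have h1 : x *ᵥ (u j : ι → ℂ) = ((0 : ℝ) : ℂ) • (u j : ι → ℂ) := by
    rw [Complex.ofReal_zero, zero_smul]
    exact (b j).2 x hx.mem
  have h2 : z *ᵥ (u j : ι → ℂ) = (1 : ℂ) • (u j : ι → ℂ) := by
    rw [one_smul]
    exact hz _ (b j).2
  refine Submodule.span_mono ?_ (B.mem_span h1 h2)
  rintro _ ⟨i, ⟨hi1, hi2⟩, rfl⟩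
  exact ⟨i, hS i hi1 hi2, rfl⟩

/-- The number of positive eigenvalues. -/
lemma pos_le (hx : IsReg (hn H) x) {k : ℕ} {u : Fin k → (⊤ : Submodule ℂ (ι → ℂ))}
    (hu : LinearIndependent ℂ u)
    (hpos : ∀ j, ∃ d : ℝ, 0 < d ∧ x *ᵥ (u j : ι → ℂ) = (d : ℂ) • (u j : ι → ℂ)) :
    2 * k + Module.finrank ℂ (Z0 H) ≤ Fintype.card ι := by
  classical
  obtain ⟨n, ⟨B⟩⟩ := exists_Bz (V := ⊤) (z := 1) (isLA_hn H) hx
    (by rw [Matrix.mul_one, Matrix.one_mul])
    (by rw [Matrix.conjTranspose_one]) (fun _ _ => trivial) (fun _ _ => trivial)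
    (fun _ _ => trivial)
  have hζ : ∀ i, B.ζ i = 1 := by
    intro i
    have h1 := B.ez i
    rw [Matrix.one_mulVec] at h1
    have h2 : ((1 : ℂ) - B.ζ i) • (B.v i : ι → ℂ) = 0 := by
      rw [sub_smul, one_smul, ← h1, sub_self]
    rcases smul_eq_zero.1 h2 with h3 | h3
    · exact (sub_eq_zero.1 h3).symm
    · exact absurd h3 (B.v_ne i)
  let P : Finset (Fin n) := Finset.univ.filter fun i => 0 < B.c i
  let N : Finset (Fin n) := Finset.univ.filter fun i => B.c i < 0
  let Z : Finset (Fin n) := Finset.univ.filter fun i => B.c i = 0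
  have hP : k ≤ P.card := by
    refine card_le_of_span hu P B.v fun j => ?_
    obtain ⟨d, hd, hdu⟩ := hpos j
    refine Submodule.span_mono ?_ (B.mem_span hdu (ξ := 1) (by
      rw [Matrix.one_mulVec, one_smul]))
    rintro _ ⟨i, ⟨hi1, -⟩, rfl⟩
    exact ⟨i, by simp [P, hi1, hd], rfl⟩
  have hZ : Module.finrank ℂ (Z0 H) ≤ Z.card :=
    Z0_le hx B (fun v _ => Matrix.one_mulVec v) Z fun i hi _ => by simp [Z, hi]
  obtain ⟨σ, -, hσ⟩ := exists_permT hx B
  have hPN : P.card ≤ N.card := by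
    refine Finset.card_le_card_of_injOn σ (fun i hi => ?_) (σ.injective.injOn)
    have h1 : 0 < B.c i := by simpa [P] using hi
    have h2 := hσ i
    simp only [N, Finset.coe_filter, Finset.mem_univ, true_and, Set.mem_ofPred_eq]
    linarith
  have hd1 : Disjoint P N := by
    rw [Finset.disjoint_left]
    intro i hi hi2
    have h1 : 0 < B.c i := by simpa [P] using hi
    have h2 : B.c i < 0 := by simpa [N] using hi2
    linarith
  have hd2 : Disjoint (P ∪ N) Z := by
    rw [Finset.disjoint_left]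
    intro i hi hi2
    have h2 : B.c i = 0 := by simpa [Z] using hi2
    rcases Finset.mem_union.1 hi with h1 | h1
    · have h3 : 0 < B.c i := by simpa [P] using h1
      linarith
    · have h3 : B.c i < 0 := by simpa [N] using h1
      linarith
  have h1 : ((P ∪ N) ∪ Z).card ≤ n := by
    have := Finset.card_le_univ ((P ∪ N) ∪ Z)
    rwa [Fintype.card_fin] at this
  rw [Finset.card_union_of_disjoint hd2, Finset.card_union_of_disjoint hd1] at h1
  have h2 := card_Bz B
  omega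

/-- An element which agrees with the regular element on the positive eigenvectors. -/
lemma eq_of_pos {y : Matrix ι ι ℂ} (hx : IsReg (hn H) x) (hy : y ∈ hn H) (hyH : yᴴ = y)
    (hxy : x * y = y * x) (hpos : ∀ v ∈ (⊤ : Submodule ℂ (ι → ℂ)), ∀ d : ℝ, 0 < d →
      x *ᵥ v = (d : ℂ) • v → y *ᵥ v = x *ᵥ v) : y = x := by
  obtain ⟨n, ⟨B⟩⟩ := exists_Bz (V := ⊤) (z := y) (isLA_hn H) hx hxy
    (by rw [hyH]) (fun _ _ => trivial) (fun _ _ => trivial)
    (fun _ _ => trivial)
  have hyc : y ∈ ct (hn H) x := ⟨hy, hxy⟩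
  obtain ⟨σ, hσT, hσc⟩ := exists_permT hx B
  have hζ : ∀ i, (B.T i * y).trace = B.ζ i := by
    intro i
    have h1 := (B.wt i).val y hyc
    rw [B.ez, ← sub_eq_zero, ← sub_smul] at h1
    rcases smul_eq_zero.1 h1 with h2 | h2
    · exact (sub_eq_zero.1 h2).symm
    · exact absurd h2 (B.v_ne i)
  have hp : ∀ i, 0 < B.c i → B.ζ i = (B.c i : ℂ) := by
    intro i hi
    have h1 := hpos _ (B.v i).2 _ hi (B.ex i)
    rw [B.ez, B.ex, ← sub_eq_zero, ← sub_smul] at h1
    rcases smul_eq_zero.1 h1 with h2 | h2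
    · exact sub_eq_zero.1 h2
    · exact absurd h2 (B.v_ne i)
  have hall : ∀ i, B.ζ i = (B.c i : ℂ) := by
    intro i
    have hs : B.ζ (σ i) = -B.ζ i := by
      rw [← hζ, hσT, Matrix.neg_mul, Matrix.trace_neg, hζ]
    rcases lt_trichotomy (B.c i) 0 with hi | hi | hi
    · have h1 := hp (σ i) (by rw [hσc]; linarith)
      rw [hs, hσc] at h1
      push_cast at h1
      exact neg_injective h1
    · have h1 : B.T i = B.T (σ i) := by
        refine wt_eq (isLA_hn H) hx (B.v_ne i) (B.v_ne (σ i)) (B.wt i) (B.wt (σ i)) ?_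
        rw [B.c_eq hx, B.c_eq hx, hσc, hi, neg_zero]
      rw [hσT, eq_neg_iff_add_eq_zero, ← two_smul ℂ, smul_eq_zero,
        or_iff_right two_ne_zero] at h1
      rw [← hζ, h1, Matrix.zero_mul, Matrix.trace_zero, hi, Complex.ofReal_zero]
    · exact hp i hi
  apply Matrix.mulVec_injective
  funext v
  obtain ⟨w', hw'⟩ : ∃ w' : (⊤ : Submodule ℂ (ι → ℂ)), (w' : ι → ℂ) = v :=
    ⟨⟨v, trivial⟩, rfl⟩
  rw [← hw']
  have hws : w' ∈ Submodule.span ℂ (Set.range B.v) := by rw [B.sp]; exact Submodule.mem_top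
  clear hw'
  induction hws using Submodule.span_induction with
  | mem v hv' =>
    obtain ⟨j, rfl⟩ := hv'
    rw [B.ez, B.ex, hall]
  | zero => rw [Submodule.coe_zero, Matrix.mulVec_zero, Matrix.mulVec_zero]
  | add a b _ _ ha hb => rw [Submodule.coe_add, Matrix.mulVec_add, Matrix.mulVec_add, ha, hb]
  | smul c a _ ha => rw [Submodule.coe_smul, Matrix.mulVec_smul, Matrix.mulVec_smul, ha]

variable (H)

/-- **The decomposition theorem for Hodge structures.** -/
theorem exists_decH2 {K : ℕ} (hK : Fintype.card ι ≤ 2 * K + 1 + Module.finrank ℂ (Z0 H))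
    {p : Matrix ι ι ℂ} (hp2 : Fixes H p (Unit ⊕ Unit))
    (hp4 : Fixes H p ((Unit ⊕ Unit) ⊕ (Unit ⊕ Unit)))
    (hpk : ∀ k ≤ K, Fixes H p (Fin k ⊕ Fin k)) :
    ∃ q ∈ So H, ∃ q' ∈ So H, q * q' = 1 ∧ ∀ w ∈ ho H, (q' * p) * w = w * (q' * p) := by
  obtain ⟨p', hp', hpp⟩ := Fixes.inv hp2
  have hp2' : Fixes H p' (Unit ⊕ Unit) := Fixes.of_inv hp' hp2
  have hp4' : Fixes H p' ((Unit ⊕ Unit) ⊕ (Unit ⊕ Unit)) := Fixes.of_inv hp' hp4
  have hV : ∀ z ∈ hn H, ∀ v ∈ (⊤ : Submodule ℂ (ι → ℂ)), z *ᵥ v ∈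
    (⊤ : Submodule ℂ (ι → ℂ)) := fun _ _ _ _ => trivial
  obtain ⟨q, hq, q', hq', hqq, hc⟩ := exists_dec2 (isLA_hn H) (isGrp_Sn H) hV (K := K)
    (fun x hx k u hu hpos => by
      have := pos_le hx hu hpos
      omega)
    (fun x y hx hy hyH hxy hpos => eq_of_pos hx hy hyH hxy hpos)
    (p := cji H p) (p' := cji H p') (by rw [← cji_mul, hpp, cji_one])
    (fun z hz => by
      rw [mem_hn, cj_mul, cj_mul, cj_cji, cj_cji]
      exact ad_fix hp' hp2 hp4 hz)
    (fun z hz => by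
      rw [mem_hn, cj_mul, cj_mul, cj_cji, cj_cji]
      exact ad_fix hpp hp2' hp4' hz)
    (by
      intro k hk
      refine ⟨Fin k → ι, inferInstance, inferInstance, dkL (Fin k), wA ⊤ k, kpH (Fin k),
        fun a b => dk_br (κ := Fin k) a b, fun a => dk_conjTranspose (κ := Fin k) a,
        fun a => kp_conjT (κ := Fin k) a, ?_, ?_, ?_, ?_, ?_, ?_⟩
      · intro z hz v
        exact wA_dk z (hV z hz) v
      · intro v hv
        exact wA_ne v hv
      · intro g g' z hgg
        exact kp_dk (mul_eq_one_comm.1 hgg) z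
      · intro U hU d hd W hW
        exact sqrt_mem U hU d hd W hW
      · intro q hq
        exact pres_fix H (hq (Fin k ⊕ Fin k))
      · refine pres_fix H ?_
        rw [cj_cji]
        exact hpk k hk)
  refine ⟨cj H q, hq, cj H q', hq', by rw [← cj_mul, hqq, cj_one], fun w hw => ?_⟩
  have h1 := hc (cji H w) (by rw [mem_hn, cj_cji]; exact hw)
  have h2 := congrArg (cj H) h1
  rw [cj_mul, cj_mul, cj_mul, cj_mul, cj_cji, cj_cji] at h2
  exact h2

end Pool.Agent.N996.FP
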