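import Pool.Agent.N996.FP.Wdg

/-!
# Antisymmetric tensors of joint eigenvectors
-/

set_option linter.unusedSectionVars false

namespace Pool.Agent.N996.FP

open Matrix Pool.Agent.N996.BP

variable {ι : Type} [Fintype ι] [DecidableEq ι] {V : Submodule ℂ (ι → ℂ)} {n : ℕ}

lemma wA_eig {k : ℕ} {v : Fin k → V} {w : Matrix ι ι ℂ} (hV : ∀ v ∈ V, w *ᵥ v ∈ V)
    {s : Fin k → ℂ} (hs : ∀ j, w *ᵥ (v j : ι → ℂ) = s j • (v j : ι → ℂ)) :
    dk (Fin k) w *ᵥ wA V k v = (∑ j, s j) • wA V k v := by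
  rw [wA_dk w hV, Finset.sum_smul]
  refine Finset.sum_congr rfl fun j _ => ?_
  have h1 : (⟨w *ᵥ (v j : ι → ℂ), hV _ (v j).2⟩ : V) = s j • v j := Subtype.ext (hs j)
  rw [h1, AlternatingMap.map_update_smul, Function.update_eq_self]

lemma wA_mul {k : ℕ} {v : Fin k → V} {g : Matrix ι ι ℂ} {s : Fin k → ℂ}
    (hs : ∀ j, g *ᵥ (v j : ι → ℂ) = s j • (v j : ι → ℂ)) :
    kp (Fin k) g *ᵥ wA V k v = (∏ j, s j) • wA V k v := by
  rw [← AlternatingMap.map_smul_univ]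
  funext w
  rw [← kpf_const, wA_kpf, wA_apply]
  congr 1
  ext i c
  rw [Matrix.of_apply, Matrix.of_apply, hs]
  rfl

lemma wA_zero {k : ℕ} {v : Fin k → V} {w : Matrix ι ι ℂ} (hV : ∀ v ∈ V, w *ᵥ v ∈ V)
    (hs : ∀ j, (⟨w *ᵥ (v j : ι → ℂ), hV _ (v j).2⟩ : V) ∈
      Submodule.span ℂ (v '' {i | i ≠ j})) : dk (Fin k) w *ᵥ wA V k v = 0 := by
  rw [wA_dk w hV]
  refine Finset.sum_eq_zero fun j _ => ?_
  have h1 := hs j
  obtain ⟨u, hu⟩ : ∃ u : V, u = ⟨w *ᵥ (v j : ι → ℂ), hV _ (v j).2⟩ := ⟨_, rfl⟩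
  rw [← hu] at h1 ⊢
  clear hu
  induction h1 using Submodule.span_induction with
  | mem w hw =>
    obtain ⟨i, hi, rfl⟩ := hw
    have hij : i ≠ j := hi
    refine AlternatingMap.map_eq_zero_of_eq _ _ (i := i) (j := j) ?_ hij
    rw [Function.update_self, Function.update_of_ne hij]
  | zero => exact AlternatingMap.map_update_zero _ _ _
  | add a b _ _ ha hb => rw [AlternatingMap.map_update_add, ha, hb, add_zero]
  | smul r a _ ha => rw [AlternatingMap.map_update_smul, ha, smul_zero]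

/-- The antisymmetric tensor of a finite set. -/
noncomputable def wS (v : Fin n → V) (S : Finset (Fin n)) : (Fin S.card → ι) → ℂ :=
  wA V S.card (v ∘ S.orderEmbOfFin rfl)

lemma wS_ne {v : Fin n → V} (hv : LinearIndependent ℂ v) (S : Finset (Fin n)) :
    wS v S ≠ 0 :=
  wA_ne _ (hv.comp _ (S.orderEmbOfFin rfl).injective)

lemma wS_eig {v : Fin n → V} (S : Finset (Fin n)) {w : Matrix ι ι ℂ}
    (hV : ∀ v ∈ V, w *ᵥ v ∈ V)
    {s : Fin n → ℂ} (hs : ∀ j, w *ᵥ (v j : ι → ℂ) = s j • (v j : ι → ℂ)) :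
    dk (Fin S.card) w *ᵥ wS v S = (∑ i ∈ S, s i) • wS v S := by
  rw [wS, wA_eig (v := v ∘ S.orderEmbOfFin rfl) hV (s := s ∘ S.orderEmbOfFin rfl)
    fun j => hs _]
  congr 1
  exact PD.sum_emb S s

lemma wS_mul {v : Fin n → V} (S : Finset (Fin n)) {g : Matrix ι ι ℂ} {s : Fin n → ℂ}
    (hs : ∀ j, g *ᵥ (v j : ι → ℂ) = s j • (v j : ι → ℂ)) :
    kp (Fin S.card) g *ᵥ wS v S = (∏ i ∈ S, s i) • wS v S := by
  rw [wS, wA_mul (v := v ∘ S.orderEmbOfFin rfl) (s := s ∘ S.orderEmbOfFin rfl)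
    fun j => hs _]
  congr 1
  exact PD.prod_emb S s

lemma wS_zero {v : Fin n → V} (S : Finset (Fin n)) {w : Matrix ι ι ℂ}
    (hV : ∀ v ∈ V, w *ᵥ v ∈ V)
    (hs : ∀ j ∈ S, (⟨w *ᵥ (v j : ι → ℂ), hV _ (v j).2⟩ : V) ∈
      Submodule.span ℂ (v '' {i | i ∈ S ∧ i ≠ j})) : dk (Fin S.card) w *ᵥ wS v S = 0 := by
  rw [wS]
  refine wA_zero hV fun j => ?_
  have h1 := hs (S.orderEmbOfFin rfl j) (Finset.orderEmbOfFin_mem S rfl j)
  refine Submodule.span_mono ?_ h1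
  rintro _ ⟨i, ⟨hi1, hi2⟩, rfl⟩
  have h2 : i ∈ Set.range (S.orderEmbOfFin rfl) := by
    rw [Finset.range_orderEmbOfFin]; exact hi1
  obtain ⟨k, rfl⟩ := h2
  exact ⟨k, fun hk => hi2 (by rw [hk]), rfl⟩

variable {h : Submodule ℂ (Matrix ι ι ℂ)} {x z : Matrix ι ι ℂ}

/-- The action on the determinant of a stable subspace. -/
lemma wS_tr (B : Bz h x z V n) (S : Finset (Fin n)) {w : Matrix ι ι ℂ}
    (hV : ∀ v ∈ V, w *ᵥ v ∈ V) (hS : ∀ j ∈ S, ∀ i, i ∉ S →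
      B.bas.repr ⟨w *ᵥ (B.v j : ι → ℂ), hV _ (B.v j).2⟩ i = 0) :
    dk (Fin S.card) w *ᵥ wS B.v S =
      (∑ j ∈ S, B.bas.repr ⟨w *ᵥ (B.v j : ι → ℂ), hV _ (B.v j).2⟩ j) • wS B.v S := by
  rw [← PD.sum_emb, wS, wA_dk w hV, Finset.sum_smul]
  refine Finset.sum_congr rfl fun j _ => ?_
  have hjS := Finset.orderEmbOfFin_mem S rfl j
  obtain ⟨u, hu⟩ : ∃ u : V, u = ⟨w *ᵥ (B.v (S.orderEmbOfFin rfl j) : ι → ℂ),
    hV _ (B.v (S.orderEmbOfFin rfl j)).2⟩ := ⟨_, rfl⟩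
  have hS' : ∀ i, i ∉ S → B.bas.repr u i = 0 := by
    intro i hi
    rw [hu]
    exact hS _ hjS i hi
  change wA V S.card (Function.update (B.v ∘ S.orderEmbOfFin rfl) j ⟨w *ᵥ
    (B.v (S.orderEmbOfFin rfl j) : ι → ℂ), hV _ (B.v (S.orderEmbOfFin rfl j)).2⟩) =
    B.bas.repr ⟨w *ᵥ (B.v (S.orderEmbOfFin rfl j) : ι → ℂ),
      hV _ (B.v (S.orderEmbOfFin rfl j)).2⟩ (S.orderEmbOfFin rfl j) •
      wA V S.card (B.v ∘ S.orderEmbOfFin rfl)
  rw [← hu]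
  let Φ : V →ₗ[ℂ] ((Fin S.card → ι) → ℂ) :=
    (wA V S.card).toMultilinearMap.toLinearMap (B.v ∘ S.orderEmbOfFin rfl) j
  have hΦ : ∀ u, Φ u = wA V S.card (Function.update (B.v ∘ S.orderEmbOfFin rfl) j u) := by
    intro u
    rfl
  rw [← hΦ]
  conv_lhs => rw [← B.bas.sum_repr u]
  rw [map_sum, Finset.sum_eq_single (S.orderEmbOfFin rfl j)]
  · rw [map_smul, B.bas_apply, hΦ]
    congr 2
    exact Function.update_eq_self _ _
  · intro i _ hij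
    rw [map_smul, B.bas_apply]
    by_cases hi : i ∈ S
    · have h2 : i ∈ Set.range (S.orderEmbOfFin rfl) := by
        rw [Finset.range_orderEmbOfFin]; exact hi
      obtain ⟨k, rfl⟩ := h2
      have hkj : k ≠ j := fun hk => hij (by rw [hk])
      have h3 : Φ (B.v (S.orderEmbOfFin rfl k)) = 0 := by
        rw [hΦ, AlternatingMap.map_eq_zero_of_eq _ _ (i := k) (j := j) ?_ hkj]
        rw [Function.update_self, Function.update_of_ne hkj]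
        rfl
      rw [h3, smul_zero]
    · rw [hS' i hi, zero_smul]
  · intro hn; exact absurd (Finset.mem_univ _) hn

end Pool.Agent.N996.FP
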