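import Pool.Agent.N996.FP.Top

/-!
# The highest weights of the exterior powers determine an element of the torus
-/

set_option linter.unusedSectionVars false

namespace Pool.Agent.N996.FP

open Matrix ComplexOrder

variable {ι : Type} [Fintype ι] [DecidableEq ι] {h : Submodule ℂ (Matrix ι ι ℂ)}
  {x y : Matrix ι ι ℂ} {V : Submodule ℂ (ι → ℂ)}

/-- A sorted basis of eigenvectors. -/
lemma exists_sorted (hx : xᴴ = x) (hV : ∀ v ∈ V, x *ᵥ v ∈ V) :
    ∃ (n : ℕ) (v : Fin n → V) (c : Fin n → ℝ), LinearIndependent ℂ v ∧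
      Submodule.span ℂ (Set.range v) = ⊤ ∧ (∀ i, x *ᵥ (v i : ι → ℂ) = (c i : ℂ) • (v i : ι → ℂ)) ∧
      Antitone c := by
  let s : Set V := {v | ∃ d : ℝ, x *ᵥ (v : ι → ℂ) = (d : ℂ) • (v : ι → ℂ)}
  have hs : Submodule.span ℂ s = ⊤ := by
    have h1 : V ≤ (Submodule.span ℂ s).map V.subtype := by
      intro v hv
      refine vec_ind hx hV (P := fun v => v ∈ (Submodule.span ℂ s).map V.subtype)
        (Submodule.zero_mem _) (fun z w hz hw => Submodule.add_mem _ hz hw) ?_ hv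
      intro d z hz hzd
      exact ⟨⟨z, hz⟩, Submodule.subset_span ⟨d, hzd⟩, rfl⟩
    rw [eq_top_iff]
    rintro v -
    obtain ⟨w, hw, hwv⟩ := h1 v.2
    have : w = v := Subtype.ext hwv
    rwa [← this]
  obtain ⟨v, hv, hsp, hli⟩ := Submodule.exists_fun_fin_finrank_span_eq ℂ s
  choose c hc using hv
  let σ := Tuple.sort fun i => -c i
  have hmono : Monotone ((fun i => -c i) ∘ σ) := Tuple.monotone_sort _
  refine ⟨_, v ∘ σ, c ∘ σ, hli.comp σ σ.injective, ?_, fun i => hc (σ i), ?_⟩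
  · rw [Set.range_comp, Set.range_eq_univ.2 σ.surjective, Set.image_univ, hsp, hs]
  · intro i j hij
    have := hmono hij
    simp only [Function.comp_apply] at this ⊢
    linarith

/-- The data of a test representation. -/
structure Test (h : Submodule ℂ (Matrix ι ι ℂ)) (V : Submodule ℂ (ι → ℂ))
    (hV : ∀ z ∈ h, ∀ v ∈ V, z *ᵥ v ∈ V) (x y : Matrix ι ι ℂ) (k : ℕ) {J : Type} [Fintype J]
    [DecidableEq J] (ρ : Matrix ι ι ℂ →ₗ[ℂ] Matrix J J ℂ) (Pi : V [⋀^Fin k]→ₗ[ℂ] (J → ℂ))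
    (G G' : Matrix J J ℂ) : Prop where
  brk : ∀ a b, ρ (br a b) = br (ρ a) (ρ b)
  act : ∀ z (hz : z ∈ h) (v : Fin k → V), ρ z *ᵥ Pi v =
    ∑ j, Pi (Function.update v j ⟨z *ᵥ (v j : ι → ℂ), hV z hz _ (v j).2⟩)
  ne : ∀ v, LinearIndependent ℂ v → Pi v ≠ 0
  inv : G * G' = 1
  stab : ∀ W : Submodule ℂ (J → ℂ), (∀ z ∈ h, ∀ v ∈ W, ρ z *ᵥ v ∈ W) →
      (∀ v ∈ W, G *ᵥ v ∈ W) ∧ (∀ v ∈ W, G' *ᵥ v ∈ W)
  conj : G * ρ x = ρ y * G

section

variable {hV : ∀ z ∈ h, ∀ v ∈ V, z *ᵥ v ∈ V} {k : ℕ} {J : Type} [Fintype J] [DecidableEq J]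
  {ρ : Matrix ι ι ℂ →ₗ[ℂ] Matrix J J ℂ} {Pi : V [⋀^Fin k]→ₗ[ℂ] (J → ℂ)} {G G' : Matrix J J ℂ}

lemma Test.eig (T : Test h V hV x y k ρ Pi G G') {z : Matrix ι ι ℂ} (hz : z ∈ h)
    {v : Fin k → V} {s : Fin k → ℂ} (hs : ∀ j, z *ᵥ (v j : ι → ℂ) = s j • (v j : ι → ℂ)) :
    ρ z *ᵥ Pi v = (∑ j, s j) • Pi v := by
  rw [T.act z hz, Finset.sum_smul]
  refine Finset.sum_congr rfl fun j _ => ?_
  have h1 : (⟨z *ᵥ (v j : ι → ℂ), hV z hz _ (v j).2⟩ : V) = s j • v j := Subtype.ext (hs j)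
  rw [h1, AlternatingMap.map_update_smul, Function.update_eq_self]

lemma Test.sum_eq (T : Test h V hV x y k ρ Pi G G') (hh : IsLA h) (hx : IsReg h x) (hy : y ∈ h)
    (hyH : yᴴ = y) (hxy : x * y = y * x) (hpos : IsPosFor h x y) {v : Fin k → V}
    (hv : LinearIndependent ℂ v) {c m : Fin k → ℝ}
    (hc : ∀ j, x *ᵥ (v j : ι → ℂ) = (c j : ℂ) • (v j : ι → ℂ))
    (hm : ∀ j, y *ᵥ (v j : ι → ℂ) = (m j : ℂ) • (v j : ι → ℂ))
    (hr : ∀ a : ℝ, 0 < a → ∀ e (he : e ∈ h), e ∈ EA x a → ∀ j,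
      (⟨e *ᵥ (v j : ι → ℂ), hV e he _ (v j).2⟩ : V) ∈ Submodule.span ℂ (v '' {i | i < j})) :
    ∑ j, c j = ∑ j, m j := by
  refine top_eq hh hx hy hyH hxy hpos T.brk (T.ne v hv) ?_ ?_ (l := ∑ j, c j) (m := ∑ j, m j)
    ?_ ?_ T.inv T.stab T.conj
  · intro t ht htx
    have hex : ∀ j, ∃ s : ℂ, t *ᵥ (v j : ι → ℂ) = s • (v j : ι → ℂ) := by
      intro j
      obtain ⟨s, hs⟩ := hx.vec hh.star ht htx (c j)
      exact ⟨s, hs _ (hc j)⟩
    choose s hs using hex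
    exact ⟨_, T.eig ht hs⟩
  · intro a ha e he hea
    rw [T.act e he]
    refine Finset.sum_eq_zero fun j _ => ?_
    have h1 := hr a ha e he hea j
    obtain ⟨u, hu⟩ : ∃ u : V, u = ⟨e *ᵥ (v j : ι → ℂ), hV e he _ (v j).2⟩ := ⟨_, rfl⟩
    rw [← hu] at h1 ⊢
    clear hu
    induction h1 using Submodule.span_induction with
    | mem w hw =>
      obtain ⟨i, hi, rfl⟩ := hw
      have hij : i ≠ j := ne_of_lt hi
      refine AlternatingMap.map_eq_zero_of_eq _ _ (i := i) (j := j) ?_ hij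
      rw [Function.update_self, Function.update_of_ne hij]
    | zero => exact AlternatingMap.map_update_zero _ _ _
    | add a b _ _ ha hb => rw [AlternatingMap.map_update_add, ha, hb, add_zero]
    | smul r a _ ha => rw [AlternatingMap.map_update_smul, ha, smul_zero]
  · rw [T.eig hx.mem hc]
    push_cast
    rfl
  · rw [T.eig hy hm]
    push_cast
    rfl

end

lemma herm_real (hy : yᴴ = y) {v : ι → ℂ} (hv : v ≠ 0) {c : ℂ} (hc : y *ᵥ v = c • v) :
    ∃ r : ℝ, (r : ℂ) = c := by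
  have h1 : star v ⬝ᵥ (y *ᵥ v) = c * (star v ⬝ᵥ v) := by rw [hc, dotProduct_smul, smul_eq_mul]
  have h2 : star v ⬝ᵥ (y *ᵥ v) = star c * (star v ⬝ᵥ v) := by
    rw [Matrix.dotProduct_mulVec]
    have h3 : star v ᵥ* y = star (y *ᵥ v) := by rw [Matrix.star_mulVec, hy]
    rw [h3, hc, star_smul, smul_dotProduct, smul_eq_mul]
  have h3 : star v ⬝ᵥ v ≠ 0 := fun h0 => hv (dotProduct_star_self_eq_zero.1 h0)
  have h4 : c = star c := by
    have := h1.symm.trans h2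
    exact mul_right_cancel₀ h3 this
  exact ⟨c.re, Complex.conj_eq_iff_re.1 h4.symm⟩

/-- **The element `y` acts as `x`.** -/
theorem agree (hh : IsLA h) (hx : IsReg h x) (hy : y ∈ h) (hyH : yᴴ = y)
    (hxy : x * y = y * x) (hpos : IsPosFor h x y) (hV : ∀ z ∈ h, ∀ v ∈ V, z *ᵥ v ∈ V)
    (hT : ∀ k, ∃ (J : Type) (_ : Fintype J) (_ : DecidableEq J)
      (ρ : Matrix ι ι ℂ →ₗ[ℂ] Matrix J J ℂ) (Pi : V [⋀^Fin k]→ₗ[ℂ] (J → ℂ)) (G G' : Matrix J J ℂ),
      Test h V hV x y k ρ Pi G G') {v : ι → ℂ} (hv : v ∈ V) : y *ᵥ v = x *ᵥ v := by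
  obtain ⟨n, v', c, hli, hsp, hc, hanti⟩ := exists_sorted hx.herm (fun v hv => hV x hx.mem v hv)
  have hex : ∀ j, ∃ m : ℝ, y *ᵥ (v' j : ι → ℂ) = (m : ℂ) • (v' j : ι → ℂ) := by
    intro j
    obtain ⟨s, hs⟩ := hx.vec hh.star hy hxy (c j)
    have h1 := hs _ (hc j)
    have h2 : (v' j : ι → ℂ) ≠ 0 := fun h0 => hli.ne_zero j (Subtype.ext h0)
    obtain ⟨r, hr⟩ := herm_real hyH h2 h1
    exact ⟨r, by rw [hr]; exact h1⟩
  choose m hm using hex
  -- the raising operators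
  have hraise : ∀ a : ℝ, 0 < a → ∀ e (he : e ∈ h), e ∈ EA x a → ∀ j,
      (⟨e *ᵥ (v' j : ι → ℂ), hV e he _ (v' j).2⟩ : V) ∈ Submodule.span ℂ (v' '' {i | i < j}) := by
    intro a ha e he hea j
    let B := Module.Basis.mk hli hsp.ge
    have hB : ∀ i, B i = v' i := fun i => by simp [B]
    obtain ⟨u, hu⟩ : ∃ u : V, u = ⟨e *ᵥ (v' j : ι → ℂ), hV e he _ (v' j).2⟩ := ⟨_, rfl⟩
    rw [← hu]
    have hu1 : x *ᵥ (u : ι → ℂ) = ((c j : ℂ) + a) • (u : ι → ℂ) := by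
      have h1 : x * e = (a : ℂ) • e + e * x := by rw [← mem_EA.1 hea]; abel
      rw [hu]
      change x *ᵥ (e *ᵥ (v' j : ι → ℂ)) = ((c j : ℂ) + a) • (e *ᵥ (v' j : ι → ℂ))
      rw [Matrix.mulVec_mulVec, h1, Matrix.add_mulVec, Matrix.smul_mulVec, ← Matrix.mulVec_mulVec,
        hc, Matrix.mulVec_smul, add_smul, add_comm]
    have hcoef : ∀ i, (c i : ℂ) * B.repr u i = ((c j : ℂ) + a) * B.repr u i := by
      let f : V →ₗ[ℂ] V :=
        { toFun := fun w => ⟨x *ᵥ (w : ι → ℂ), hV x hx.mem _ w.2⟩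
          map_add' := fun a b => Subtype.ext (Matrix.mulVec_add _ _ _)
          map_smul' := fun c a => Subtype.ext (Matrix.mulVec_smul _ _ _) }
      have hf : ∀ i, f (B i) = (c i : ℂ) • B i := by
        intro i
        rw [hB]
        exact Subtype.ext (hc i)
      intro i
      have h1 : f u = ((c j : ℂ) + a) • u := Subtype.ext hu1
      have h2 : f u = ∑ l, (B.repr u l * (c l : ℂ)) • B l := by
        conv_lhs => rw [← B.sum_repr u]
        rw [map_sum]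
        refine Finset.sum_congr rfl fun l _ => ?_
        rw [map_smul, hf, smul_smul]
      have h3 := congrArg (fun w => B.repr w i) h1
      simp only [map_smul, Finsupp.smul_apply, smul_eq_mul] at h3
      rw [h2, B.repr_sum_self] at h3
      rw [mul_comm, h3]
    rw [← B.sum_repr u]
    refine Submodule.sum_mem _ fun i _ => ?_
    by_cases hi : B.repr u i = 0
    · rw [hi, zero_smul]; exact Submodule.zero_mem _
    · refine Submodule.smul_mem _ _ (Submodule.subset_span ⟨i, ?_, (hB i).symm⟩)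
      have h1 := mul_right_cancel₀ hi (hcoef i)
      have h2 : c i = c j + a := by exact_mod_cast h1
      change i < j
      by_contra hij
      push Not at hij
      have := hanti hij
      linarith
  -- the partial sums
  have hsum : ∀ (k : ℕ) (hk : k ≤ n), ∑ j : Fin k, c (Fin.castLE hk j) =
      ∑ j : Fin k, m (Fin.castLE hk j) := by
    intro k hk
    obtain ⟨J, _, _, ρ, Pi, G, G', T⟩ := hT k
    refine T.sum_eq hh hx hy hyH hxy hpos (v := v' ∘ Fin.castLE hk)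
      (hli.comp _ (Fin.castLE_injective hk)) (fun j => hc _) (fun j => hm _) ?_
    intro a ha e he hea j
    have h1 := hraise a ha e he hea (Fin.castLE hk j)
    refine Submodule.span_mono ?_ h1
    rintro _ ⟨i, hi, rfl⟩
    have hi' : (i : ℕ) < j := hi
    exact ⟨⟨i, lt_trans hi' j.2⟩, hi', rfl⟩
  have hcm : ∀ i, c i = m i := by
    intro i
    have h1 := hsum (i + 1) i.2
    have h2 := hsum i i.2.le
    rw [Fin.sum_univ_castSucc, Fin.sum_univ_castSucc] at h1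
    have e1 : ∀ f : Fin n → ℝ, ∑ j : Fin (i : ℕ), f (Fin.castLE i.2 j.castSucc) =
        ∑ j : Fin (i : ℕ), f (Fin.castLE i.2.le j) := fun f => rfl
    have e2 : Fin.castLE i.2 (Fin.last (i : ℕ)) = i := Fin.ext rfl
    rw [e1, e1, e2, h2] at h1
    exact add_left_cancel h1
  have hfin : ∀ w : V, y *ᵥ (w : ι → ℂ) = x *ᵥ (w : ι → ℂ) := by
    intro w
    have hw : w ∈ Submodule.span ℂ (Set.range v') := by rw [hsp]; exact Submodule.mem_top
    induction hw using Submodule.span_induction with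
    | mem w hw =>
      obtain ⟨i, rfl⟩ := hw
      rw [hc, hm, hcm]
    | zero => simp
    | add a b _ _ ha hb =>
      rw [Submodule.coe_add, Matrix.mulVec_add, Matrix.mulVec_add, ha, hb]
    | smul r a _ ha => rw [Submodule.coe_smul, Matrix.mulVec_smul, Matrix.mulVec_smul, ha]
  exact hfin ⟨v, hv⟩

end Pool.Agent.N996.FP
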