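import Pool.Agent.N996.FP.Wsp

/-!
# The eigenvalues on sums of weights for arbitrary representations
-/

set_option linter.unusedSectionVars false

namespace Pool.Agent.N996.FP

open Matrix Pool.Agent.N996.BP ComplexConjugate ComplexOrder

section gen

variable {ι : Type} [Fintype ι] [DecidableEq ι] {h : Submodule ℂ (Matrix ι ι ℂ)}
  {x z : Matrix ι ι ℂ} {n : ℕ}

lemma EA_neg {a : ℝ} {e : Matrix ι ι ℂ} : e ∈ EA (-x) (a : ℂ) ↔ e ∈ EA x ((-a : ℝ) : ℂ) := by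
  rw [mem_EA, mem_EA]
  have h1 : -x * e - e * -x = -(x * e - e * x) := by
    rw [Matrix.neg_mul, Matrix.mul_neg]; abel
  rw [h1, neg_eq_iff_eq_neg, Complex.ofReal_neg, neg_smul]

lemma IsReg.neg (hx : IsReg h x) : IsReg h (-x) where
  mem := h.neg_mem hx.mem
  herm := by rw [Matrix.conjTranspose_neg, hx.herm]
  reg t ht htH htx d := by
    obtain ⟨c, hc⟩ := hx.reg t ht htH (by
      rw [Matrix.neg_mul, Matrix.mul_neg, neg_inj] at htx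
      exact htx) (-d)
    exact ⟨c, fun e he => hc e (EA_neg.1 he)⟩

/-- **The separation argument.** -/
lemma sep_raw (hh : IsLA h) {x₁ : Matrix ι ι ℂ} (hx₁ : IsReg h x₁)
    (v : Fin n → (⊤ : Submodule ℂ (ι → ℂ))) (hli : LinearIndependent ℂ v)
    (T : Fin n → Matrix ι ι ℂ) (ζ : Fin n → ℂ) (c : Fin n → ℝ)
    (hwt : ∀ t ∈ h, x₁ * t = t * x₁ → ∀ i, t *ᵥ (v i : ι → ℂ) = (T i * t).trace • (v i : ι → ℂ))
    (hc : ∀ i, (T i * x₁).trace = c i) (hz : ∀ i, z *ᵥ (v i : ι → ℂ) = ζ i • (v i : ι → ℂ))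
    (P : Fin n → Fin n → Prop)
    (hroot : ∀ a : ℝ, 0 < a → ∀ e ∈ h, e ∈ EA x₁ a → ∀ j,
      (⟨e *ᵥ (v j : ι → ℂ), trivial⟩ : (⊤ : Submodule ℂ (ι → ℂ))) ∈
        Submodule.span ℂ (v '' {i | P i j}))
    {M : ℕ} (S S' : Fin M → Finset (Fin n)) (hS : ∀ r, ∀ j ∈ S r, ∀ i, P i j → i ∈ S r ∧ i ≠ j)
    (hS' : ∀ r, ∀ j ∈ S' r, ∀ i, P i j → i ∈ S' r ∧ i ≠ j)
    (hsum : ∑ r, ∑ i ∈ S r, T i = ∑ r, ∑ i ∈ S' r, T i)
    (hcomm : ∀ F : Matrix ((Σ r, Fin (S' r).card) → ι) ((Σ r, Fin (S r).card) → ι) ℂ,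
      (∀ w ∈ h, dk (Σ r, Fin (S' r).card) w * F = F * dk (Σ r, Fin (S r).card) w) →
        kp (Σ r, Fin (S' r).card) z * F = F * kp (Σ r, Fin (S r).card) z) :
    ∏ r, ∏ i ∈ S r, ζ i = ∏ r, ∏ i ∈ S' r, ζ i := by
  have hT : ∀ a : Matrix ι ι ℂ, ∀ v ∈ (⊤ : Submodule ℂ (ι → ℂ)), a *ᵥ v ∈
    (⊤ : Submodule ℂ (ι → ℂ)) := fun _ _ _ => trivial
  have htr : ∀ (Q : Fin M → Finset (Fin n)) (t : Matrix ι ι ℂ),
      ∑ r, ∑ i ∈ Q r, (T i * t).trace = ((∑ r, ∑ i ∈ Q r, T i) * t).trace := by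
    intro Q t
    rw [Finset.sum_mul, Matrix.trace_sum]
    refine Finset.sum_congr rfl fun r _ => ?_
    rw [Finset.sum_mul, Matrix.trace_sum]
  have hw : ∀ (Q : Fin M → Finset (Fin n)) (t : Matrix ι ι ℂ), t ∈ h → x₁ * t = t * x₁ →
      dk (Σ r, Fin (Q r).card) t *ᵥ bt (fun r => wS v (Q r)) =
        ((∑ r, ∑ i ∈ Q r, T i) * t).trace • bt (fun r => wS v (Q r)) := by
    intro Q t ht htx
    rw [← htr]
    exact dk_bt_eig fun r => wS_eig (Q r) (hT t) fun j => hwt t ht htx j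
  have hk : ∀ (Q : Fin M → Finset (Fin n)),
      kp (Σ r, Fin (Q r).card) z *ᵥ bt (fun r => wS v (Q r)) =
        (∏ r, ∏ i ∈ Q r, ζ i) • bt (fun r => wS v (Q r)) := by
    intro Q
    rw [kp_bt, ← bt_smul]
    congr 1
    funext r
    exact wS_mul (Q r) hz
  have h0 : ∀ (Q : Fin M → Finset (Fin n)), (∀ r, ∀ j ∈ Q r, ∀ i, P i j → i ∈ Q r ∧ i ≠ j) →
      ∀ a : ℝ, 0 < a → ∀ e ∈ h, e ∈ EA x₁ a →
        dk (Σ r, Fin (Q r).card) e *ᵥ bt (fun r => wS v (Q r)) = 0 := by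
    intro Q hQ a ha e he hea
    refine dk_bt_zero fun r => wS_zero (Q r) (hT e) fun j hj => ?_
    refine Submodule.span_mono ?_ (hroot a ha e he hea j)
    rintro _ ⟨i, hi, rfl⟩
    exact ⟨i, hQ r j hj i hi, rfl⟩
  have hne : ∀ (Q : Fin M → Finset (Fin n)), bt (fun r => wS v (Q r)) ≠ 0 := fun Q =>
    bt_ne fun r => wS_ne hli (Q r)
  have hreal : ((∑ r, ∑ i ∈ S r, T i) * x₁).trace = ((∑ r, ∑ i ∈ S r, c i : ℝ) : ℂ) := by
    rw [← htr]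
    push_cast
    exact Finset.sum_congr rfl fun r _ => Finset.sum_congr rfl fun i _ => hc i
  obtain ⟨F, c', hc', hF1, hF2⟩ := sep2 hh hx₁ (ρ := dkL (Σ r, Fin (S r).card))
    (ρ' := dkL (Σ r, Fin (S' r).card)) (fun a b => dk_br (κ := Σ r, Fin (S r).card) a b)
    (fun a b => dk_br (κ := Σ r, Fin (S' r).card) a b)
    (fun a => dk_conjTranspose (κ := Σ r, Fin (S r).card) a)
    (fun a => dk_conjTranspose (κ := Σ r, Fin (S' r).card) a)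
    (w := bt (fun r => wS v (S r))) (w' := bt (fun r => wS v (S' r))) (hne S)
    (fun t ht htx => ⟨_, hw S t ht htx, by rw [hsum]; exact hw S' t ht htx⟩)
    (fun a ha e he hea => ⟨h0 S hS a ha e he hea, h0 S' hS' a ha e he hea⟩)
    (l := ∑ r, ∑ i ∈ S r, c i) (by rw [← hreal]; exact hw S x₁ hx₁.mem rfl)
    (by rw [← hreal, hsum]; exact hw S' x₁ hx₁.mem rfl)
  have h1 := hcomm F hF1
  have h2 := congrArg (fun X => X *ᵥ bt (fun r => wS v (S r))) h1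
  beta_reduce at h2
  rw [← Matrix.mulVec_mulVec, ← Matrix.mulVec_mulVec, hF2, hk S, Matrix.mulVec_smul,
    Matrix.mulVec_smul, hF2, hk S', smul_comm, ← sub_eq_zero, ← sub_smul, smul_smul] at h2
  rcases smul_eq_zero.1 h2 with h3 | h3
  · rcases mul_eq_zero.1 h3 with h4 | h4
    · exact (sub_eq_zero.1 h4).symm
    · exact absurd h4 hc'
  · exact absurd h3 (hne S')

namespace Bz

/-- The classes: the same coset and the same eigenvalue. -/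
def Cl {V : Submodule ℂ (ι → ℂ)} (B : Bz h x z V n) (i j : Fin n) : Prop :=
  B.T i - B.T j ∈ QL h x ∧ B.ζ i = B.ζ j

variable {V : Submodule ℂ (ι → ℂ)} (B : Bz h x z V n)

lemma Cl_refl (i : Fin n) : B.Cl i i := ⟨by rw [sub_self]; exact (QL h x).zero_mem, rfl⟩

lemma Cl_symm {i j : Fin n} (hij : B.Cl i j) : B.Cl j i :=
  ⟨by have := (QL h x).neg_mem hij.1; rwa [neg_sub] at this, hij.2.symm⟩

lemma Cl_trans {i j k : Fin n} (hij : B.Cl i j) (hjk : B.Cl j k) : B.Cl i k :=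
  ⟨by have := (QL h x).add_mem hij.1 hjk.1; rwa [sub_add_sub_cancel] at this,
    hij.2.trans hjk.2⟩

/-- The root vectors on the basis. -/
lemma root_spanC (hh : IsLA h) (hx : IsReg h x) (hz : ∀ w ∈ h, z * w = w * z)
    (hV : ∀ w ∈ h, ∀ v ∈ V, w *ᵥ v ∈ V) {a : ℝ} (ha : a ≠ 0) {e : Matrix ι ι ℂ} (he : e ∈ h)
    (hea : e ∈ EA x a) (i : Fin n) : (⟨e *ᵥ (B.v i : ι → ℂ), hV _ he _ (B.v i).2⟩ : V) ∈
      Submodule.span ℂ (B.v '' {j | B.c j = B.c i + a ∧ B.Cl j i}) := by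
  have h1 := B.root_span hh hx hz hV ha he hea i
  have h4 : z *ᵥ (e *ᵥ (B.v i : ι → ℂ)) = B.ζ i • (e *ᵥ (B.v i : ι → ℂ)) := by
    rw [Matrix.mulVec_mulVec, hz _ he, ← Matrix.mulVec_mulVec, B.ez, Matrix.mulVec_smul]
  obtain ⟨u, hu⟩ : ∃ u : V, u = ⟨e *ᵥ (B.v i : ι → ℂ), hV _ he _ (B.v i).2⟩ := ⟨_, rfl⟩
  have h5 : z *ᵥ (u : ι → ℂ) = B.ζ i • (u : ι → ℂ) := by rw [hu]; exact h4
  rw [← hu] at h1 ⊢
  have h6 : ∀ j, B.bas.repr u j ≠ 0 → B.c j = B.c i + a ∧ B.T j - B.T i ∈ QL h x := by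
    intro j hj
    have h7 : u ∈ Submodule.span ℂ (B.bas '' {j | B.c j = B.c i + a ∧ B.T j - B.T i ∈ QL h x}) := by
      have h8 : (B.bas : Fin n → V) = B.v := funext B.bas_apply
      rw [h8]
      exact h1
    rw [Module.Basis.mem_span_image] at h7
    exact h7 (Finsupp.mem_support_iff.2 hj)
  rw [← B.bas.sum_repr u]
  refine Submodule.sum_mem _ fun j _ => ?_
  by_cases hj : B.bas.repr u j = 0
  · rw [hj, zero_smul]; exact Submodule.zero_mem _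
  · refine Submodule.smul_mem _ _ (Submodule.subset_span ⟨j, ⟨(h6 j hj).1, (h6 j hj).2, ?_⟩,
      (B.bas_apply j).symm⟩)
    exact B.coef B.ez h5 j hj

end Bz

end gen

end Pool.Agent.N996.FP
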