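import Pool.Agent.N996.FP.Wnb

/-!
# The eigenvalues on sums of weights: the two directions
-/

set_option linter.unusedSectionVars false

namespace Pool.Agent.N996.FP

open Matrix Pool.Agent.N996.BP ComplexConjugate ComplexOrder

variable {ι : Type} [Fintype ι] [DecidableEq ι] {H : HData ι} {x z : Matrix ι ι ℂ} {n : ℕ}

/-- One direction. -/
lemma dir_one (B : Bz (hn H) x z ⊤ n) (hζ : ∀ i, B.ζ i ≠ 0) {N : ℕ}
    (hcomm : ∀ (κ l : Type) [Fintype κ] [DecidableEq κ] [Fintype l] [DecidableEq l],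
      Fintype.card l + Fintype.card κ ≤ N → ∀ F : Matrix (l → ι) (κ → ι) ℂ,
      (∀ w ∈ hn H, dk l w * F = F * dk κ w) → kp l z * F = F * kp κ z) {M : ℕ}
    (F : Fin M → Finset (Fin n)) (hinj : ∀ r, ∀ a ∈ F r, ∀ b ∈ F r, B.Cl a b → a = b)
    {s : Multiset (Fin n)} (hF : ∑ r, (F r).val = s) (hs0 : B.tot s = 0)
    {x₁ : Matrix ι ι ℂ} (hx₁ : IsReg (hn H) x₁) (hct : ∀ t, x₁ * t = t * x₁ → x * t = t * x)
    (c₁ : Fin n → ℝ) (hc₁ : ∀ i, (B.T i * x₁).trace = c₁ i)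
    (R : Fin n → Fin n → Prop) (hRi : ∀ i, ¬ R i i) (hRt : ∀ i j k, R i j → R j k → R i k)
    (hroot : ∀ a : ℝ, 0 < a → ∀ e ∈ hn H, e ∈ EA x₁ a → ∀ j,
      (⟨e *ᵥ (B.v j : ι → ℂ), trivial⟩ : (⊤ : Submodule ℂ (ι → ℂ))) ∈
        Submodule.span ℂ (B.v '' {i | B.Cl i j ∧ R i j}))
    (S S' : Fin M → Finset (Fin n))
    (hS : ∀ r i, i ∈ S r ↔ ∃ k ∈ F r, B.Cl i k ∧ (R i k ∨ i = k))
    (hS' : ∀ r i, i ∈ S' r ↔ ∃ k ∈ F r, B.Cl i k ∧ R i k)
    (hN : ∑ r, (S' r).card + ∑ r, (S r).card ≤ N) : B.zt s = 1 := by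
  have hdisj : ∀ r, Disjoint (S' r) (F r) := by
    intro r
    rw [Finset.disjoint_left]
    intro i hi hi2
    obtain ⟨k, hk, hk2, hk3⟩ := (hS' r i).1 hi
    rw [hinj r i hi2 k hk hk2] at hk3
    exact hRi k hk3
  have hun : ∀ r, S r = (S' r).disjUnion (F r) (hdisj r) := by
    intro r
    ext i
    rw [Finset.mem_disjUnion, hS, hS']
    constructor
    · rintro ⟨k, hk, hk2, hk3 | hk3⟩
      · exact Or.inl ⟨k, hk, hk2, hk3⟩
      · exact Or.inr (hk3 ▸ hk)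
    · rintro (⟨k, hk, hk2, hk3⟩ | h1)
      · exact ⟨k, hk, hk2, Or.inl hk3⟩
      · exact ⟨i, h1, B.Cl_refl i, Or.inr rfl⟩
  have hSc : ∀ r, ∀ j ∈ S r, ∀ i, B.Cl i j ∧ R i j → i ∈ S r ∧ i ≠ j := by
    rintro r j hj i ⟨h1, h2⟩
    obtain ⟨k, hk, hk2, hk3⟩ := (hS r j).1 hj
    refine ⟨(hS r i).2 ⟨k, hk, B.Cl_trans h1 hk2, Or.inl ?_⟩, ?_⟩
    · rcases hk3 with h3 | h3
      · exact hRt _ _ _ h2 h3
      · rw [← h3]; exact h2
    · rintro rfl
      exact hRi i h2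
  have hSc' : ∀ r, ∀ j ∈ S' r, ∀ i, B.Cl i j ∧ R i j → i ∈ S' r ∧ i ≠ j := by
    rintro r j hj i ⟨h1, h2⟩
    obtain ⟨k, hk, hk2, hk3⟩ := (hS' r j).1 hj
    refine ⟨(hS' r i).2 ⟨k, hk, B.Cl_trans h1 hk2, hRt _ _ _ h2 hk3⟩, ?_⟩
    rintro rfl
    exact hRi i h2
  have hsumT : ∑ r, ∑ i ∈ F r, B.T i = 0 := by rw [← sum_val, hF]; exact hs0
  have hsum : ∑ r, ∑ i ∈ S r, B.T i = ∑ r, ∑ i ∈ S' r, B.T i := by
    have h3 : ∀ r, ∑ i ∈ S r, B.T i = ∑ i ∈ S' r, B.T i + ∑ i ∈ F r, B.T i := by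
      intro r
      rw [hun r, Finset.sum_disjUnion]
    rw [Finset.sum_congr rfl fun r _ => h3 r, Finset.sum_add_distrib, hsumT, add_zero]
  have hprod : ∏ r, ∏ i ∈ S r, B.ζ i = (∏ r, ∏ i ∈ S' r, B.ζ i) * B.zt s := by
    have h3 : ∀ r, ∏ i ∈ S r, B.ζ i = (∏ i ∈ S' r, B.ζ i) * ∏ i ∈ F r, B.ζ i := by
      intro r
      rw [hun r, Finset.prod_disjUnion]
    rw [Finset.prod_congr rfl fun r _ => h3 r, Finset.prod_mul_distrib, Bz.zt, ← hF, prod_val]
  have h1 := sep_raw (isLA_hn H) hx₁ B.v B.li B.T B.ζ c₁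
    (fun t ht htx i => (B.wt i).val t ⟨ht, hct t htx⟩) hc₁ B.ez
    (fun i j => B.Cl i j ∧ R i j) hroot S S' hSc hSc' hsum
    (hcomm _ _ (by
      rw [Fintype.card_sigma, Fintype.card_sigma]
      simp only [Fintype.card_fin]
      exact hN))
  rw [hprod] at h1
  have h2 : (∏ r, ∏ i ∈ S' r, B.ζ i) ≠ 0 :=
    Finset.prod_ne_zero_iff.2 fun r _ => Finset.prod_ne_zero_iff.2 fun i _ => hζ i
  exact mul_left_cancel₀ h2 (h1.trans (mul_one _).symm)

/-- The trivial part is fixed. -/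
lemma Z0_fix {z₀ : Matrix ι ι ℂ} (h1 : Fixes H z₀ Unit) {v : ι → ℂ} (hv : v ∈ Z0 H) :
    cji H z₀ *ᵥ v = v := by
  obtain ⟨u, hu⟩ : ∃ u, u = Mi H *ᵥ v := ⟨_, rfl⟩
  have hvu : v = Mm H *ᵥ u := by rw [hu, Matrix.mulVec_mulVec, Mm_Mi, Matrix.one_mulVec]
  have h2 : ∀ w ∈ ho H, w *ᵥ u = 0 := by
    intro w hw
    have h3 := hv (cji H w) (by rw [mem_hn, cj_cji]; exact hw)
    rw [hvu, cji, ← Matrix.mulVec_mulVec, Matrix.mulVec_mulVec _ (Mi H), Mi_Mm,
      Matrix.one_mulVec, ← Matrix.mulVec_mulVec] at h3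
    have h4 := congrArg (fun y => Mi H *ᵥ y) h3
    beta_reduce at h4
    rwa [Matrix.mulVec_mulVec, Mi_Mm, Matrix.one_mulVec, Matrix.mulVec_zero] at h4
  have h3 : z₀ *ᵥ u = u := by
    have h4 := fix_inv h1 (d := un u) fun g hg => by
      rw [kp_un, fix_of_Ng (fun σ => h2 _ (Ng_mem σ)) hg]
    rw [kp_un] at h4
    exact un_inj h4
  rw [hvu, cji, ← Matrix.mulVec_mulVec, Matrix.mulVec_mulVec _ (Mi H), Mi_Mm,
    Matrix.one_mulVec, ← Matrix.mulVec_mulVec, h3]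

/-- **The eigenvalues on the sums of weights.** -/
theorem no_bad3 {z₀ : Matrix ι ι ℂ} (hx : IsReg (hn H) x)
    (hz : ∀ w ∈ hn H, cji H z₀ * w = w * cji H z₀) {N : ℕ} (h2 : 2 ≤ N)
    (hfix : ∀ (κ : Type) [Fintype κ] [DecidableEq κ], Fintype.card κ ≤ N → Fixes H z₀ κ)
    (B : Bz (hn H) x (cji H z₀) ⊤ n) (hζ : ∀ i, B.ζ i ≠ 0) {M t : ℕ} (hMt : M * t ≤ N)
    (ht : Fintype.card ι ≤ t + Module.finrank ℂ (Z0 H))
    (hM : ∀ s : Multiset (Fin n), B.tot s = 0 → B.zt s ≠ 1 →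
      (∀ t ≤ s, B.tot t ∈ QL (hn H) x → t = 0 ∨ t = s) → ∀ (i : Fin n) (p : Fin n → Prop)
      [DecidablePred p], (∀ j, p j → B.Cl j i) → (s.filter p).card ≤ M)
    {s : Multiset (Fin n)} (hs : B.tot s ∈ QL (hn H) x) : B.zt s = 1 := by
  classical
  by_contra hne
  obtain ⟨s, hs0, hs1, hirr⟩ := B.min_bad (isLA_hn H) hx hz (fun _ _ _ _ => trivial)
    ⟨s, hs, hne⟩
  have hcomm : ∀ (κ l : Type) [Fintype κ] [DecidableEq κ] [Fintype l] [DecidableEq l],
      Fintype.card l + Fintype.card κ ≤ N → ∀ F : Matrix (l → ι) (κ → ι) ℂ,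
      (∀ w ∈ hn H, dk l w * F = F * dk κ w) →
        kp l (cji H z₀) * F = F * kp κ (cji H z₀) := by
    intro κ l _ _ _ _ hc F hF
    exact itw_fixn (hfix _ (by simpa using h2)) (hfix _ (by rw [Fintype.card_sum]; exact hc)) hF
  -- the classes
  let f : Fin n → (Matrix ι ι ℂ ⧸ QL (hn H) x) × ℂ := fun i =>
    ((B.T i : Matrix ι ι ℂ ⧸ QL (hn H) x), B.ζ i)
  have hf : ∀ i j, f i = f j ↔ B.Cl i j := by
    intro i j
    simp only [f, Prod.mk.injEq, Bz.Cl]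
    rw [QuotientAddGroup.eq, ← neg_mem_iff]
    have : -(-B.T i + B.T j) = B.T i - B.T j := by abel
    rw [this]
  obtain ⟨F, hF, hinj⟩ := exists_split f M s (by
    intro b
    by_cases hb : ∃ i ∈ s, f i = b
    · obtain ⟨i, _, rfl⟩ := hb
      exact hM s hs0 hs1 hirr i (fun j => f j = f i) fun j hj => (hf j i).1 hj
    · push Not at hb
      rw [Multiset.filter_eq_nil.2 hb, Multiset.card_zero]
      exact Nat.zero_le _)
  have hinj' : ∀ r, ∀ a ∈ F r, ∀ b ∈ F r, B.Cl a b → a = b := fun r a ha b hb hab =>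
    hinj r a ha b hb ((hf a b).2 hab)
  have hmemF : ∀ r, ∀ k ∈ F r, k ∈ s := by
    intro r k hk
    rw [← hF]
    rw [Multiset.mem_sum]
    exact ⟨r, Finset.mem_univ r, hk⟩
  -- the sets
  let S₁ : Fin M → Finset (Fin n) := fun r =>
    Finset.univ.filter fun i => ∃ k ∈ F r, B.Cl i k ∧ (i < k ∨ i = k)
  let S₁' : Fin M → Finset (Fin n) := fun r =>
    Finset.univ.filter fun i => ∃ k ∈ F r, B.Cl i k ∧ i < k
  let S₂ : Fin M → Finset (Fin n) := fun r =>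
    Finset.univ.filter fun i => ∃ k ∈ F r, B.Cl i k ∧ (k < i ∨ i = k)
  let S₂' : Fin M → Finset (Fin n) := fun r =>
    Finset.univ.filter fun i => ∃ k ∈ F r, B.Cl i k ∧ k < i
  have m₁ : ∀ r i, i ∈ S₁ r ↔ ∃ k ∈ F r, B.Cl i k ∧ (i < k ∨ i = k) := fun r i => by simp [S₁]
  have m₁' : ∀ r i, i ∈ S₁' r ↔ ∃ k ∈ F r, B.Cl i k ∧ i < k := fun r i => by simp [S₁']
  have m₂ : ∀ r i, i ∈ S₂ r ↔ ∃ k ∈ F r, B.Cl i k ∧ (k < i ∨ i = k) := fun r i => by simp [S₂]
  have m₂' : ∀ r i, i ∈ S₂' r ↔ ∃ k ∈ F r, B.Cl i k ∧ k < i := fun r i => by simp [S₂']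
  -- the trivial class
  let T₀ : Finset (Fin n) := Finset.univ.filter fun i => B.c i = 0 ∧ B.ζ i = 1
  have hT₀ : Module.finrank ℂ (Z0 H) ≤ T₀.card :=
    Z0_le hx B (fun v hv => Z0_fix (hfix Unit (by simp; omega)) hv) T₀ fun i h3 h4 => by
      simp [T₀, h3, h4]
  have hn' : n ≤ t + Module.finrank ℂ (Z0 H) := (card_Bz B).le.trans ht
  have hCt : ∀ r (C : Finset (Fin n)), (∀ i ∈ C, ∃ k ∈ F r, B.Cl i k) → C.card ≤ t := by
    intro r C hC
    by_cases hZ : Module.finrank ℂ (Z0 H) = 0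
    · have h3 := Finset.card_le_univ C
      rw [Fintype.card_fin] at h3
      omega
    have hd : Disjoint C T₀ := by
      rw [Finset.disjoint_left]
      intro i hi hi2
      obtain ⟨hi3, hi4⟩ : B.c i = 0 ∧ B.ζ i = 1 := by simpa [T₀] using hi2
      obtain ⟨k, hk, hk2, hk3⟩ := hC i hi
      -- the weight of `i` is zero
      have hTi : B.T i = 0 := by
        have hbot : Z0 H ≠ ⊥ := by
          intro h5
          rw [h5, finrank_bot] at hZ
          exact hZ rfl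
        obtain ⟨v, hv, hv0⟩ := Submodule.exists_mem_ne_zero_of_ne_bot hbot
        refine wt_eq (isLA_hn H) hx (B.v_ne i) hv0 (B.wt i) ⟨(ct _ x).zero_mem,
          Matrix.conjTranspose_zero, fun w hw => ?_⟩ ?_
        · rw [hv w hw.1, Matrix.zero_mul, Matrix.trace_zero, zero_smul]
        · rw [B.c_eq hx, hi3, Matrix.zero_mul, Matrix.trace_zero, Complex.ofReal_zero]
      have hTk : B.T k ∈ QL (hn H) x := by
        rw [hTi, zero_sub] at hk2
        exact (QL (hn H) x).neg_mem_iff.1 hk2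
      have hks : ({k} : Multiset (Fin n)) ≤ s := Multiset.singleton_le.2 (hmemF r k hk)
      have htk : B.tot {k} = B.T k := by
        rw [Bz.tot, Multiset.map_singleton, Multiset.sum_singleton]
      rcases hirr _ hks (by rw [htk]; exact hTk) with h5 | h5
      · exact Multiset.singleton_ne_zero k h5
      · apply hs1
        rw [← h5, Bz.zt, Multiset.map_singleton, Multiset.prod_singleton, ← hk3, hi4]
    have h3 := Finset.card_le_univ (C ∪ T₀)
    rw [Finset.card_union_of_disjoint hd, Fintype.card_fin] at h3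
    omega
  -- the numbers
  have hnum : ∀ r, (S₁ r).card + (S₂' r).card ≤ t := by
    intro r
    have hd : Disjoint (S₁ r) (S₂' r) := by
      rw [Finset.disjoint_left]
      intro i hi hi2
      obtain ⟨k, hk, hk2, hk3⟩ := (m₁ r i).1 hi
      obtain ⟨k', hk', hk2', hk3'⟩ := (m₂' r i).1 hi2
      rw [hinj' r k' hk' k hk (B.Cl_trans (B.Cl_symm hk2') hk2)] at hk3'
      rcases hk3 with h3 | h3
      · exact lt_asymm h3 hk3'
      · exact hk3'.ne h3.symm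
    rw [← Finset.card_union_of_disjoint hd]
    refine hCt r _ fun i hi => ?_
    rcases Finset.mem_union.1 hi with h3 | h3
    · obtain ⟨k, hk, hk2, -⟩ := (m₁ r i).1 h3
      exact ⟨k, hk, hk2⟩
    · obtain ⟨k, hk, hk2, -⟩ := (m₂' r i).1 h3
      exact ⟨k, hk, hk2⟩
  have hnum' : ∀ r, (S₂ r).card + (S₁' r).card ≤ t := by
    intro r
    have hd : Disjoint (S₂ r) (S₁' r) := by
      rw [Finset.disjoint_left]
      intro i hi hi2
      obtain ⟨k, hk, hk2, hk3⟩ := (m₂ r i).1 hi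
      obtain ⟨k', hk', hk2', hk3'⟩ := (m₁' r i).1 hi2
      rw [hinj' r k' hk' k hk (B.Cl_trans (B.Cl_symm hk2') hk2)] at hk3'
      rcases hk3 with h3 | h3
      · exact lt_asymm h3 hk3'
      · exact hk3'.ne h3
    rw [← Finset.card_union_of_disjoint hd]
    refine hCt r _ fun i hi => ?_
    rcases Finset.mem_union.1 hi with h3 | h3
    · obtain ⟨k, hk, hk2, -⟩ := (m₂ r i).1 h3
      exact ⟨k, hk, hk2⟩
    · obtain ⟨k, hk, hk2, -⟩ := (m₁' r i).1 h3
      exact ⟨k, hk, hk2⟩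
  have htot : (∑ r, (S₁' r).card + ∑ r, (S₁ r).card) +
      (∑ r, (S₂' r).card + ∑ r, (S₂ r).card) ≤ 2 * N := by
    have h3 : ∑ r, ((S₁ r).card + (S₂' r).card) ≤ M * t := by
      have := Finset.sum_le_sum fun r (_ : r ∈ (Finset.univ : Finset (Fin M))) => hnum r
      rwa [Finset.sum_const, Finset.card_univ, Fintype.card_fin, smul_eq_mul] at this
    have h4 : ∑ r, ((S₂ r).card + (S₁' r).card) ≤ M * t := by
      have := Finset.sum_le_sum fun r (_ : r ∈ (Finset.univ : Finset (Fin M))) => hnum' r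
      rwa [Finset.sum_const, Finset.card_univ, Fintype.card_fin, smul_eq_mul] at this
    rw [Finset.sum_add_distrib] at h3 h4
    omega
  by_cases hd : ∑ r, (S₁' r).card + ∑ r, (S₁ r).card ≤ N
  · refine hs1 (dir_one B hζ hcomm F hinj' hF hs0 hx (fun _ h => h) B.c (B.c_eq hx)
      (fun i j => i < j) (fun i => lt_irrefl i) (fun _ _ _ h h' => lt_trans h h')
      (fun a ha e he hea j => ?_) S₁ S₁' m₁ m₁' hd)
    refine Submodule.span_mono ?_ (B.root_spanC (isLA_hn H) hx hz (fun _ _ _ _ => trivial)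
      ha.ne' he hea j)
    rintro _ ⟨i, ⟨hi1, hi2⟩, rfl⟩
    refine ⟨i, ⟨hi2, ?_⟩, rfl⟩
    by_contra hcon
    push Not at hcon
    have := B.anti hcon
    linarith
  · refine hs1 (dir_one B hζ hcomm F hinj' hF hs0 hx.neg (fun t h => ?_) (fun i => -B.c i)
      (fun i => ?_) (fun i j => j < i) (fun i => lt_irrefl i) (fun _ _ _ h h' => lt_trans h' h)
      (fun a ha e he hea j => ?_) S₂ S₂' m₂ m₂' (by omega))
    · rw [Matrix.neg_mul, Matrix.mul_neg, neg_inj] at h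
      exact h
    · rw [Matrix.mul_neg, Matrix.trace_neg, B.c_eq hx, Complex.ofReal_neg]
    · refine Submodule.span_mono ?_ (B.root_spanC (isLA_hn H) hx hz (fun _ _ _ _ => trivial)
        (neg_ne_zero.2 ha.ne') he (EA_neg.1 hea) j)
      rintro _ ⟨i, ⟨hi1, hi2⟩, rfl⟩
      refine ⟨i, ⟨hi2, ?_⟩, rfl⟩
      by_contra hcon
      push Not at hcon
      have := B.anti hcon
      linarith

/-- **Tensors of weight zero are fixed.** -/
theorem fix_zero3 {h : Submodule ℂ (Matrix ι ι ℂ)} (B : Bz h x z ⊤ n)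
    (hs : ∀ s : Multiset (Fin n), B.tot s ∈ QL h x → B.zt s = 1) {κ : Type} [Fintype κ]
    [DecidableEq κ] {a : (κ → ι) → ℂ} (ha : ∀ t ∈ h, x * t = t * x → dk κ t *ᵥ a = 0) :
    kp κ z *ᵥ a = a := by
  classical
  have hsp : Submodule.span ℂ {v : ι → ℂ | ∃ i, v = (B.v i : ι → ℂ)} = ⊤ := by
    rw [eq_top_iff]
    rintro w -
    obtain ⟨w', hw'⟩ : ∃ w' : (⊤ : Submodule ℂ (ι → ℂ)), (w' : ι → ℂ) = w :=
      ⟨⟨w, trivial⟩, rfl⟩
    rw [← hw']
    have hws : w' ∈ Submodule.span ℂ (Set.range B.v) := by rw [B.sp]; exact Submodule.mem_top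
    clear hw'
    induction hws using Submodule.span_induction with
    | mem v hv' =>
      obtain ⟨j, rfl⟩ := hv'
      exact Submodule.subset_span ⟨j, rfl⟩
    | zero => exact Submodule.zero_mem _
    | add a b _ _ ha hb => rw [Submodule.coe_add]; exact Submodule.add_mem _ ha hb
    | smul c a _ ha => rw [Submodule.coe_smul]; exact Submodule.smul_mem _ c ha
  let P : Set ((κ → ι) → ℂ) := {a | ∃ p : κ → ι → ℂ, (∀ k, p k ∈
    {v : ι → ℂ | ∃ i, v = (B.v i : ι → ℂ)}) ∧ a = pt p}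
  have hP : Submodule.span ℂ P = ⊤ := span_pt hsp
  have hdata : ∀ y ∈ P, ∃ s : Multiset (Fin n), kp κ z *ᵥ y = B.zt s • y ∧
      ∀ t ∈ h, x * t = t * x → dk κ t *ᵥ y = (B.tot s * t).trace • y := by
    rintro y ⟨p, hp, rfl⟩
    choose f hf using hp
    refine ⟨Finset.univ.val.map f, ?_, fun t ht htx => ?_⟩
    · have h1 : B.zt (Finset.univ.val.map f) = ∏ k, B.ζ (f k) := by
        rw [Bz.zt, Multiset.map_map]
        rfl
      rw [kp_pt, h1, ← pt_smul]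
      congr 1
      funext k
      rw [hf k]
      exact B.ez _
    · have h1 : (B.tot (Finset.univ.val.map f) * t).trace = ∑ k, (B.T (f k) * t).trace := by
        rw [Bz.tot, Multiset.map_map]
        change ((∑ k, B.T (f k)) * t).trace = _
        rw [Finset.sum_mul, Matrix.trace_sum]
      rw [h1]
      refine dk_pt_eig fun k => ?_
      rw [hf k]
      exact (B.wt _).val t ⟨ht, htx⟩
  let E0 : Submodule ℂ ((κ → ι) → ℂ) :=
    { carrier := {y | kp κ z *ᵥ y = y ∧ ∀ t ∈ h, x * t = t * x → dk κ t *ᵥ y = 0}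
      add_mem' := by
        rintro a b ⟨h1, h2⟩ ⟨h3, h4⟩
        refine ⟨by rw [Matrix.mulVec_add, h1, h3], fun t ht htx => ?_⟩
        rw [Matrix.mulVec_add, h2 t ht htx, h4 t ht htx, add_zero]
      zero_mem' := ⟨Matrix.mulVec_zero _, fun t _ _ => Matrix.mulVec_zero _⟩
      smul_mem' := by
        rintro c a ⟨h1, h2⟩
        refine ⟨by rw [Matrix.mulVec_smul, h1], fun t ht htx => ?_⟩
        rw [Matrix.mulVec_smul, h2 t ht htx, smul_zero] }
  let E1 : Submodule ℂ ((κ → ι) → ℂ) := Submodule.span ℂ {y | ∃ ν : Matrix ι ι ℂ, ν ≠ 0 ∧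
    νᴴ = ν ∧ ν ∈ h ∧ x * ν = ν * x ∧ dk κ ν *ᵥ y = (ip ν ν : ℂ) • y}
  have hE : (⊤ : Submodule ℂ ((κ → ι) → ℂ)) ≤ E0 ⊔ E1 := by
    rw [← hP]
    refine Submodule.span_le.2 fun y hy => ?_
    obtain ⟨s, hs1, hs2⟩ := hdata y hy
    by_cases h0 : B.tot s = 0
    · refine Submodule.mem_sup_left ⟨?_, fun t ht htx => ?_⟩
      · rw [hs1, hs s (by rw [h0]; exact (QL h x).zero_mem), one_smul]
      · rw [hs2 t ht htx, h0, Matrix.zero_mul, Matrix.trace_zero, zero_smul]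
    · obtain ⟨h1, h2⟩ := tot_herm B s
      refine Submodule.mem_sup_right (Submodule.subset_span ⟨B.tot s, h0, h1, h2.1, h2.2, ?_⟩)
      rw [hs2 _ h2.1 h2.2, tr_ip h1 h1]
  obtain ⟨a₀, h0, a₁, h1, hsum⟩ := Submodule.mem_sup.1 (hE (Submodule.mem_top (x := a)))
  have h2 : ∀ t ∈ h, x * t = t * x → dk κ t *ᵥ a₁ = 0 := by
    intro t ht htx
    have h3 := ha t ht htx
    rw [← hsum, Matrix.mulVec_add, h0.2 t ht htx, zero_add] at h3
    exact h3
  have h3 : ∀ y ∈ E1, star a₁ ⬝ᵥ y = 0 := by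
    intro y hy
    induction hy using Submodule.span_induction with
    | mem y hy =>
      obtain ⟨ν, hν0, hνH, hν1, hν2, hν3⟩ := hy
      have h4 : star a₁ ⬝ᵥ (dk κ ν *ᵥ y) = 0 := by
        rw [Matrix.dotProduct_mulVec]
        have h5 : star a₁ ᵥ* dk κ ν = star (dk κ ν *ᵥ a₁) := by
          rw [Matrix.star_mulVec, ← dk_conjTranspose, hνH]
        rw [h5, h2 ν hν1 hν2, star_zero, zero_dotProduct]
      rw [hν3, dotProduct_smul, smul_eq_mul] at h4
      rcases mul_eq_zero.1 h4 with h5 | h5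
      · have := ip_self_pos hνH hν0
        exact absurd (by exact_mod_cast h5) this.ne'
      · exact h5
    | zero => rw [dotProduct_zero]
    | add u v _ _ hu hv => rw [dotProduct_add, hu, hv, add_zero]
    | smul c u _ hu => rw [dotProduct_smul, hu, smul_zero]
  have h4 : a₁ = 0 := dotProduct_star_self_eq_zero.1 (h3 a₁ h1)
  rw [← hsum, h4, add_zero]
  exact h0.1

end Pool.Agent.N996.FP
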