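import Pool.Agent.N996.FP.Wnc

/-!
# The eigenvalues on sums of weights: the number of tests
-/

set_option linter.unusedSectionVars false

namespace Pool.Agent.N996.FP

open Matrix Pool.Agent.N996.BP ComplexConjugate ComplexOrder

variable {ι : Type} [Fintype ι] [DecidableEq ι] {H : HData ι} {x z : Matrix ι ι ℂ} {n : ℕ}

/-- Isometries. -/
lemma qf_iso {z₀ : Matrix ι ι ℂ} (h2 : Fixes H z₀ (Unit ⊕ Unit)) (u v : ι → ℂ) :
    qf H (cji H z₀ *ᵥ u) (cji H z₀ *ᵥ v) = qf H u v := by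
  have hQQ : cQ H.Qr * cQ H.Qir = 1 := by rw [← cQ_mul, H.Qr_Qir, cQ_one]
  have h3 := fix_Q H h2
  have h5 : z₀ * (cQ H.Qir * z₀ᵀ * cQ H.Qr) = 1 := by
    calc z₀ * (cQ H.Qir * z₀ᵀ * cQ H.Qr) = (z₀ * cQ H.Qir * z₀ᵀ) * cQ H.Qr := by
          simp only [Matrix.mul_assoc]
      _ = 1 := by rw [h3]; exact mul_eq_one_comm.1 hQQ
  have h6 : z₀ᵀ * cQ H.Qr * z₀ = cQ H.Qr := by
    have h7 := mul_eq_one_comm.1 h5
    calc z₀ᵀ * cQ H.Qr * z₀ = (cQ H.Qr * cQ H.Qir) * z₀ᵀ * cQ H.Qr * z₀ := by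
          rw [hQQ, Matrix.one_mul]
      _ = cQ H.Qr * (cQ H.Qir * z₀ᵀ * cQ H.Qr * z₀) := by simp only [Matrix.mul_assoc]
      _ = cQ H.Qr := by rw [h7, Matrix.mul_one]
  rw [qf, qf, AData.Mi_mulVec, AData.Mi_mulVec, cj_cji]
  rw [← Matrix.vecMul_transpose z₀ (Mi H *ᵥ u), ← Matrix.dotProduct_mulVec,
    Matrix.mulVec_mulVec, Matrix.mulVec_mulVec, h6]

/-- The symmetry of the weights and the eigenvalues. -/
lemma exists_permZ {z₀ : Matrix ι ι ℂ} (h2 : Fixes H z₀ (Unit ⊕ Unit)) (hx : IsReg (hn H) x)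
    (B : Bz (hn H) x (cji H z₀) ⊤ n) :
    ∃ σ : Equiv.Perm (Fin n), (∀ i, B.T (σ i) = -B.T i) ∧ ∀ i, B.ζ (σ i) * B.ζ i = 1 := by
  obtain ⟨σ, hσ⟩ := exists_perm B
  refine ⟨σ, fun i => eq_neg_of_add_eq_zero_left (pair_wt2 hx B (hσ i)), fun i => ?_⟩
  have h1 := qf_iso h2 (B.v (σ i) : ι → ℂ) (B.v i : ι → ℂ)
  rw [B.ez, B.ez, qf_smul_left, qf_smul_right, ← mul_assoc] at h1
  have h3 : (B.ζ (σ i) * B.ζ i - 1) * qf H (B.v (σ i) : ι → ℂ) (B.v i : ι → ℂ) = 0 := by
    rw [sub_mul, one_mul, h1, sub_self]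
  exact sub_eq_zero.1 ((mul_eq_zero.1 h3).resolve_right (hσ i))

namespace Bz

variable {h : Submodule ℂ (Matrix ι ι ℂ)} {V : Submodule ℂ (ι → ℂ)}

/-- Opposite classes. -/
lemma count_opp (B : Bz h x z V n) {i j : Fin n} (hT : B.T i + B.T j = 0)
    (hζ : B.ζ i * B.ζ j = 1) {s : Multiset (Fin n)} (hs1 : B.zt s ≠ 1)
    (hirr : ∀ t ≤ s, B.tot t ∈ QL h x → t = 0 ∨ t = s) (p q : Fin n → Prop)
    [DecidablePred p] [DecidablePred q] (hp : ∀ k, p k → B.Cl k i) (hq : ∀ k, q k → B.Cl k j)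
    (hq0 : (s.filter q) ≠ 0) : (s.filter p).card ≤ 1 := by
  classical
  by_contra hcon
  push Not at hcon
  obtain ⟨b, hb⟩ := Multiset.exists_mem_of_ne_zero hq0
  have hbs := Multiset.mem_of_mem_filter hb
  have hbq := Multiset.of_mem_filter hb
  have h1 : 0 < ((s.filter p).erase b).card := by
    have h2 := Multiset.card_erase_add_one (s := s.filter p) (a := b)
    by_cases hbm : b ∈ s.filter p
    · have h3 := h2 hbm
      omega
    · rw [Multiset.erase_of_notMem hbm]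
      omega
  obtain ⟨a, ha⟩ := Multiset.card_pos_iff_exists_mem.1 h1
  have hap : p a := Multiset.of_mem_filter (Multiset.mem_of_mem_erase ha)
  have has : a ∈ s.erase b :=
    Multiset.mem_of_le (Multiset.erase_le_erase b (Multiset.filter_le p s)) ha
  have h2 : b ::ₘ ({a} : Multiset (Fin n)) ≤ s := by
    calc b ::ₘ ({a} : Multiset (Fin n)) ≤ b ::ₘ s.erase b :=
          (Multiset.cons_le_cons_iff b).2 (Multiset.singleton_le.2 has)
      _ = s := Multiset.cons_erase hbs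
  have h3 : B.tot (b ::ₘ ({a} : Multiset (Fin n))) ∈ QL h x := by
    rw [B.tot_cons, Bz.tot, Multiset.map_singleton, Multiset.sum_singleton]
    have h4 := (QL h x).add_mem (hp a hap).1 (hq b hbq).1
    have h5 : B.T a - B.T i + (B.T b - B.T j) = B.T b + B.T a - (B.T i + B.T j) := by abel
    rwa [h5, hT, sub_zero] at h4
  rcases hirr _ h2 h3 with h4 | h4
  · exact Multiset.cons_ne_zero h4
  · apply hs1
    rw [← h4, B.zt_cons, Bz.zt, Multiset.map_singleton, Multiset.prod_singleton,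
      (hp a hap).2, (hq b hbq).2, mul_comm, hζ]

/-- The number of the elements of opposite classes. -/
lemma count_two (B : Bz h x z V n) {i j : Fin n} (hT : B.T i + B.T j = 0)
    (hζ : B.ζ i * B.ζ j = 1) {s : Multiset (Fin n)} (hs1 : B.zt s ≠ 1)
    (hirr : ∀ t ≤ s, B.tot t ∈ QL h x → t = 0 ∨ t = s) {M : ℕ}
    (hM : ∀ (i : Fin n), 2 • B.T i ∉ QL h x → ∀ (p : Fin n → Prop) [DecidablePred p],
      (∀ k, p k → B.Cl k i) → (s.filter p).card ≤ M) (p q : Fin n → Prop)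
    [DecidablePred p] [DecidablePred q] (hp : ∀ k, p k → B.Cl k i) (hq : ∀ k, q k → B.Cl k j) :
    (s.filter p).card + (s.filter q).card ≤ max 2 M := by
  have hone : ∀ (i : Fin n) (p : Fin n → Prop) [DecidablePred p], (∀ k, p k → B.Cl k i) →
      (s.filter p).card ≤ max 2 M := by
    intro i p _ hp
    by_cases h2 : 2 • B.T i ∈ QL h x
    · exact (B.count_le hirr two_pos le_rfl h2 p fun j hj => (hp j hj).1).trans (le_max_left _ _)
    · exact (hM i h2 p hp).trans (le_max_right _ _)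
  by_cases hq0 : s.filter q = 0
  · rw [hq0, Multiset.card_zero, add_zero]
    exact hone i p hp
  by_cases hp0 : s.filter p = 0
  · rw [hp0, Multiset.card_zero, zero_add]
    exact hone j q hq
  have h1 := B.count_opp hT hζ hs1 hirr p q hp hq hq0
  have h2 := B.count_opp (i := j) (j := i) (by rw [add_comm]; exact hT)
    (by rw [mul_comm]; exact hζ) hs1 hirr q p hq hp hp0
  exact (by omega : (s.filter p).card + (s.filter q).card ≤ 2).trans (le_max_left _ _)

end Bz

/-- Double counting. -/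
lemma sum_count {α : Type} [Fintype α] [DecidableEq α] (R : α → α → Prop)
    [∀ i k, Decidable (R i k)] (s : Multiset α) :
    (s.map fun k => (Finset.univ.filter fun i => R i k).card).sum =
      ∑ i, (s.filter fun k => R i k).card := by
  induction s using Multiset.induction_on with
  | empty => simp
  | cons a s ih =>
    rw [Multiset.map_cons, Multiset.sum_cons, ih, Finset.card_eq_sum_ones, Finset.sum_filter,
      ← Finset.sum_add_distrib]
    refine Finset.sum_congr rfl fun i _ => ?_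
    by_cases h : R i a
    · rw [if_pos h, Multiset.filter_cons_of_pos (p := fun k => R i k) _ h, Multiset.card_cons,
        add_comm]
    · rw [if_neg h, Multiset.filter_cons_of_neg (p := fun k => R i k) _ h, zero_add]

/-- **The eigenvalues on the sums of weights.** -/
theorem no_bad4 {z₀ : Matrix ι ι ℂ} (hx : IsReg (hn H) x)
    (hz : ∀ w ∈ hn H, cji H z₀ * w = w * cji H z₀) {N : ℕ} (h2 : 2 ≤ N)
    (hfix : ∀ (κ : Type) [Fintype κ] [DecidableEq κ], Fintype.card κ ≤ N → Fixes H z₀ κ)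
    (B : Bz (hn H) x (cji H z₀) ⊤ n) (hζ : ∀ i, B.ζ i ≠ 0) {M t : ℕ} (hMt : max 2 M * t ≤ 2 * N)
    (ht : Fintype.card ι ≤ t + Module.finrank ℂ (Z0 H))
    (hM : ∀ s : Multiset (Fin n), B.tot s = 0 → B.zt s ≠ 1 →
      (∀ t ≤ s, B.tot t ∈ QL (hn H) x → t = 0 ∨ t = s) → ∀ (i : Fin n),
      2 • B.T i ∉ QL (hn H) x → ∀ (p : Fin n → Prop)
      [DecidablePred p], (∀ j, p j → B.Cl j i) → (s.filter p).card ≤ M)
    {s : Multiset (Fin n)} (hs : B.tot s ∈ QL (hn H) x) : B.zt s = 1 := by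
  classical
  by_contra hne
  obtain ⟨s, hs0, hs1, hirr⟩ := B.min_bad (isLA_hn H) hx hz (fun _ _ _ _ => trivial)
    ⟨s, hs, hne⟩
  have hcomm : ∀ (κ l : Type) [Fintype κ] [DecidableEq κ] [Fintype l] [DecidableEq l],
      Fintype.card l + Fintype.card κ ≤ N → ∀ F : Matrix (l → ι) (κ → ι) ℂ,
      (∀ w ∈ hn H, dk l w * F = F * dk κ w) →
        kp l (cji H z₀) * F = F * kp κ (cji H z₀) := by
    intro κ l _ _ _ _ hc F hF
    exact itw_fixn (hfix _ (by simpa using h2)) (hfix _ (by rw [Fintype.card_sum]; exact hc)) hF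
  obtain ⟨σ, hσT, hσζ⟩ := exists_permZ (hfix (Unit ⊕ Unit) (by simpa using h2)) hx B
  -- the trivial class
  let T₀ : Finset (Fin n) := Finset.univ.filter fun i => B.T i = 0 ∧ B.ζ i = 1
  have hmT₀ : ∀ i, i ∈ T₀ ↔ B.T i = 0 ∧ B.ζ i = 1 := fun i => by simp [T₀]
  have hT₀ : Module.finrank ℂ (Z0 H) ≤ T₀.card := by
    by_cases hZ : Module.finrank ℂ (Z0 H) = 0
    · rw [hZ]; exact Nat.zero_le _
    refine Z0_le hx B (fun v hv => Z0_fix (hfix Unit (by simp; omega)) hv) T₀ fun i h3 h4 =>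
      (hmT₀ i).2 ⟨?_, h4⟩
    have hbot : Z0 H ≠ ⊥ := by
      intro h5
      rw [h5, finrank_bot] at hZ
      exact hZ rfl
    obtain ⟨v, hv, hv0⟩ := Submodule.exists_mem_ne_zero_of_ne_bot hbot
    refine wt_eq (isLA_hn H) hx (B.v_ne i) hv0 (B.wt i) ⟨(ct _ x).zero_mem,
      Matrix.conjTranspose_zero, fun w hw => ?_⟩ ?_
    · rw [hv w hw.1, Matrix.zero_mul, Matrix.trace_zero, zero_smul]
    · rw [B.c_eq hx, h3, Matrix.zero_mul, Matrix.trace_zero, Complex.ofReal_zero]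
  have hn' : n ≤ t + Module.finrank ℂ (Z0 H) := (card_Bz B).le.trans ht
  have hnu0 : ∀ i ∈ T₀, s.filter (fun k => B.Cl i k) = 0 := by
    intro i hi
    obtain ⟨hi1, hi2⟩ := (hmT₀ i).1 hi
    rw [Multiset.filter_eq_nil]
    intro k hk hik
    have hTk : B.T k ∈ QL (hn H) x := by
      have h3 := hik.1
      rw [hi1, zero_sub] at h3
      exact (QL (hn H) x).neg_mem_iff.1 h3
    rcases hirr {k} (Multiset.singleton_le.2 hk) (by
      rw [Bz.tot, Multiset.map_singleton, Multiset.sum_singleton]; exact hTk) with h5 | h5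
    · exact Multiset.singleton_ne_zero k h5
    · apply hs1
      rw [← h5, Bz.zt, Multiset.map_singleton, Multiset.prod_singleton, ← hik.2, hi2]
  -- the number of tests
  have hcount : 2 * ∑ i, (s.filter fun k => B.Cl i k).card ≤ max 2 M * t := by
    have h3 : 2 * ∑ i, (s.filter fun k => B.Cl i k).card =
        ∑ i, ((s.filter fun k => B.Cl i k).card + (s.filter fun k => B.Cl (σ i) k).card) := by
      rw [Finset.sum_add_distrib, Equiv.sum_comp σ fun i => (s.filter fun k => B.Cl i k).card,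
        two_mul]
    have h4 : ∀ i, ((s.filter fun k => B.Cl i k).card + (s.filter fun k => B.Cl (σ i) k).card) ≤
        if i ∈ T₀ then 0 else max 2 M := by
      intro i
      by_cases hi : i ∈ T₀
      · have hσi : σ i ∈ T₀ := by
          obtain ⟨h5, h6⟩ := (hmT₀ i).1 hi
          refine (hmT₀ _).2 ⟨by rw [hσT, h5, neg_zero], ?_⟩
          have h7 := hσζ i
          rwa [h6, mul_one] at h7
        rw [if_pos hi, hnu0 i hi, hnu0 _ hσi, Multiset.card_zero]
      · rw [if_neg hi]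
        exact B.count_two (i := i) (j := σ i) (by rw [hσT, add_neg_cancel])
          (by rw [mul_comm]; exact hσζ i) hs1 hirr (hM s hs0 hs1 hirr) _ _
          (fun k hk => B.Cl_symm hk) (fun k hk => B.Cl_symm hk)
    have h5 : ∑ i, (if i ∈ T₀ then 0 else max 2 M) = (n - T₀.card) * max 2 M := by
      rw [Finset.sum_ite, Finset.sum_const_zero, zero_add, Finset.sum_const, smul_eq_mul]
      congr 1
      rw [← Finset.compl_filter, Finset.card_compl, Fintype.card_fin]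
      congr 2
      ext i
      simp
    calc 2 * ∑ i, (s.filter fun k => B.Cl i k).card ≤ (n - T₀.card) * max 2 M := by
          rw [h3, ← h5]
          exact Finset.sum_le_sum fun i _ => h4 i
      _ ≤ t * max 2 M := Nat.mul_le_mul_right _ (by omega)
      _ = max 2 M * t := mul_comm _ _
  obtain ⟨m, hm⟩ : ∃ m : Fin n → ℕ, m = fun k => (Finset.univ.filter fun i => B.Cl i k).card :=
    ⟨_, rfl⟩
  have hmsum : (s.map m).sum ≤ N := by
    have h3 := sum_count (fun i k => B.Cl i k) s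
    rw [← hm] at h3
    rw [← h3] at hcount
    omega
  -- the splitting into singletons
  obtain ⟨F, hF, hinj0⟩ := exists_split (fun _ : Fin n => ()) s.card s (fun _ =>
    Multiset.card_le_card (Multiset.filter_le _ s))
  have hinj : ∀ r, ∀ a ∈ F r, ∀ b ∈ F r, a = b := fun r a ha b hb => hinj0 r a ha b hb rfl
  have hinj' : ∀ r, ∀ a ∈ F r, ∀ b ∈ F r, B.Cl a b → a = b := fun r a ha b hb _ =>
    hinj r a ha b hb
  have hmF : ∑ r, ∑ k ∈ F r, m k = (s.map m).sum :=
    (sum_val F m).symm.trans (congrArg (fun u : Multiset (Fin n) => (u.map m).sum) hF)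
  -- the sets
  let S₁ : Fin s.card → Finset (Fin n) := fun r =>
    Finset.univ.filter fun i => ∃ k ∈ F r, B.Cl i k ∧ (i < k ∨ i = k)
  let S₁' : Fin s.card → Finset (Fin n) := fun r =>
    Finset.univ.filter fun i => ∃ k ∈ F r, B.Cl i k ∧ i < k
  let S₂ : Fin s.card → Finset (Fin n) := fun r =>
    Finset.univ.filter fun i => ∃ k ∈ F r, B.Cl i k ∧ (k < i ∨ i = k)
  let S₂' : Fin s.card → Finset (Fin n) := fun r =>
    Finset.univ.filter fun i => ∃ k ∈ F r, B.Cl i k ∧ k < i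
  have m₁ : ∀ r i, i ∈ S₁ r ↔ ∃ k ∈ F r, B.Cl i k ∧ (i < k ∨ i = k) := fun r i => by simp [S₁]
  have m₁' : ∀ r i, i ∈ S₁' r ↔ ∃ k ∈ F r, B.Cl i k ∧ i < k := fun r i => by simp [S₁']
  have m₂ : ∀ r i, i ∈ S₂ r ↔ ∃ k ∈ F r, B.Cl i k ∧ (k < i ∨ i = k) := fun r i => by simp [S₂]
  have m₂' : ∀ r i, i ∈ S₂' r ↔ ∃ k ∈ F r, B.Cl i k ∧ k < i := fun r i => by simp [S₂']
  have hCt : ∀ r (C : Finset (Fin n)), (∀ i ∈ C, ∃ k ∈ F r, B.Cl i k) →
      C.card ≤ ∑ k ∈ F r, m k := by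
    intro r C hC
    have h3 : C ⊆ (F r).biUnion fun k => Finset.univ.filter fun i => B.Cl i k := by
      intro i hi
      obtain ⟨k, hk, hik⟩ := hC i hi
      exact Finset.mem_biUnion.2 ⟨k, hk, by simp [hik]⟩
    refine (Finset.card_le_card h3).trans (Finset.card_biUnion_le.trans ?_)
    rw [hm]
  -- the numbers
  have hnum : ∀ r, (S₁ r).card + (S₂' r).card ≤ ∑ k ∈ F r, m k := by
    intro r
    have hd : Disjoint (S₁ r) (S₂' r) := by
      rw [Finset.disjoint_left]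
      intro i hi hi2
      obtain ⟨k, hk, hk2, hk3⟩ := (m₁ r i).1 hi
      obtain ⟨k', hk', hk2', hk3'⟩ := (m₂' r i).1 hi2
      rw [hinj r k' hk' k hk] at hk3'
      rcases hk3 with h3 | h3
      · exact lt_asymm h3 hk3'
      · exact hk3'.ne h3.symm
    rw [← Finset.card_union_of_disjoint hd]
    refine hCt r _ fun i hi => ?_
    rcases Finset.mem_union.1 hi with h3 | h3
    · obtain ⟨k, hk, hk2, -⟩ := (m₁ r i).1 h3
      exact ⟨k, hk, hk2⟩
    · obtain ⟨k, hk, hk2, -⟩ := (m₂' r i).1 h3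
      exact ⟨k, hk, hk2⟩
  have hnum' : ∀ r, (S₂ r).card + (S₁' r).card ≤ ∑ k ∈ F r, m k := by
    intro r
    have hd : Disjoint (S₂ r) (S₁' r) := by
      rw [Finset.disjoint_left]
      intro i hi hi2
      obtain ⟨k, hk, hk2, hk3⟩ := (m₂ r i).1 hi
      obtain ⟨k', hk', hk2', hk3'⟩ := (m₁' r i).1 hi2
      rw [hinj r k' hk' k hk] at hk3'
      rcases hk3 with h3 | h3
      · exact lt_asymm h3 hk3'
      · exact hk3'.ne h3
    rw [← Finset.card_union_of_disjoint hd]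
    refine hCt r _ fun i hi => ?_
    rcases Finset.mem_union.1 hi with h3 | h3
    · obtain ⟨k, hk, hk2, -⟩ := (m₂ r i).1 h3
      exact ⟨k, hk, hk2⟩
    · obtain ⟨k, hk, hk2, -⟩ := (m₁' r i).1 h3
      exact ⟨k, hk, hk2⟩
  have htot : (∑ r, (S₁' r).card + ∑ r, (S₁ r).card) +
      (∑ r, (S₂' r).card + ∑ r, (S₂ r).card) ≤ 2 * N := by
    have h3 : ∑ r, ((S₁ r).card + (S₂' r).card) ≤ N := by
      refine (Finset.sum_le_sum fun r _ => hnum r).trans ?_
      rw [hmF]
      exact hmsum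
    have h4 : ∑ r, ((S₂ r).card + (S₁' r).card) ≤ N := by
      refine (Finset.sum_le_sum fun r _ => hnum' r).trans ?_
      rw [hmF]
      exact hmsum
    rw [Finset.sum_add_distrib] at h3 h4
    omega
  by_cases hd : ∑ r, (S₁' r).card + ∑ r, (S₁ r).card ≤ N
  · refine hs1 (dir_one B hζ hcomm F hinj' hF hs0 hx (fun _ h => h) B.c (B.c_eq hx)
      (fun i j => i < j) (fun i => lt_irrefl i) (fun _ _ _ h h' => lt_trans h h')
      (fun a ha e he hea j => ?_) S₁ S₁' m₁ m₁' hd)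
    refine Submodule.span_mono ?_ (B.root_spanC (isLA_hn H) hx hz (fun _ _ _ _ => trivial)
      ha.ne' he hea j)
    rintro _ ⟨i, ⟨hi1, hi2⟩, rfl⟩
    refine ⟨i, ⟨hi2, ?_⟩, rfl⟩
    by_contra hcon
    push Not at hcon
    have := B.anti hcon
    linarith
  · refine hs1 (dir_one B hζ hcomm F hinj' hF hs0 hx.neg (fun t h => ?_) (fun i => -B.c i)
      (fun i => ?_) (fun i j => j < i) (fun i => lt_irrefl i) (fun _ _ _ h h' => lt_trans h' h)
      (fun a ha e he hea j => ?_) S₂ S₂' m₂ m₂' (by omega))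
    · rw [Matrix.neg_mul, Matrix.mul_neg, neg_inj] at h
      exact h
    · rw [Matrix.mul_neg, Matrix.trace_neg, B.c_eq hx, Complex.ofReal_neg]
    · refine Submodule.span_mono ?_ (B.root_spanC (isLA_hn H) hx hz (fun _ _ _ _ => trivial)
        (neg_ne_zero.2 ha.ne') he (EA_neg.1 hea) j)
      rintro _ ⟨i, ⟨hi1, hi2⟩, rfl⟩
      refine ⟨i, ⟨hi2, ?_⟩, rfl⟩
      by_contra hcon
      push Not at hcon
      have := B.anti hcon
      linarith

end Pool.Agent.N996.FP
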