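import Pool.Agent.N996.FP.Wdh

/-!
# Intertwining operators between highest weight vectors
-/

set_option linter.unusedSectionVars false

namespace Pool.Agent.N996.FP

open Matrix Pool.Agent.N996.BP ComplexConjugate ComplexOrder

section proj

variable {J : Type} [Fintype J] [DecidableEq J]

/-- The orthogonal complement. -/
def oc (W : Submodule ℂ (J → ℂ)) : Submodule ℂ (J → ℂ) where
  carrier := {w | ∀ u ∈ W, star u ⬝ᵥ w = 0}
  add_mem' := fun ha hb u hu => by rw [dotProduct_add, ha u hu, hb u hu, add_zero]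
  zero_mem' := fun u _ => by rw [dotProduct_zero]
  smul_mem' := fun c a ha u hu => by rw [dotProduct_smul, ha u hu, smul_zero]

lemma oc_compl (W : Submodule ℂ (J → ℂ)) : IsCompl W (oc W) := by
  refine IsCompl.of_eq ?_ ?_
  · rw [eq_bot_iff]
    rintro w ⟨h1, h2⟩
    exact dotProduct_star_self_eq_zero.1 (h2 w h1)
  · rw [eq_top_iff]
    rintro v -
    obtain ⟨u, hu, hort⟩ := exists_orth (1 : Matrix J J ℂ) W v
    refine Submodule.mem_sup.2 ⟨u, hu, v - u, fun w hw => ?_, add_sub_cancel _ _⟩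
    have := hort w hw
    rwa [Matrix.one_mulVec, Matrix.one_mulVec] at this

/-- The orthogonal projector. -/
lemma exists_projector (W : Submodule ℂ (J → ℂ)) (P : Set (Matrix J J ℂ))
    (hP : ∀ a ∈ P, aᴴ ∈ P) (hW : ∀ a ∈ P, ∀ v ∈ W, a *ᵥ v ∈ W) :
    ∃ E : Matrix J J ℂ, (∀ v, E *ᵥ v ∈ W) ∧ (∀ v, ∀ u ∈ W, star u ⬝ᵥ (v - E *ᵥ v) = 0) ∧
      ∀ a ∈ P, a * E = E * a := by
  obtain ⟨f, hf⟩ : ∃ f : (J → ℂ) →ₗ[ℂ] (J → ℂ), f = W.projection (oc W) (oc_compl W) := ⟨_, rfl⟩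
  have h1 : ∀ v, LinearMap.toMatrix' f *ᵥ v = f v := fun v => by
    rw [← Matrix.toLin'_apply, Matrix.toLin'_toMatrix']
  have h2 : ∀ v, f v ∈ W := fun v => by rw [hf]; exact Submodule.projection_apply_mem _ v
  have h3 : ∀ v, v - f v ∈ oc W := fun v => by rw [hf]; exact Submodule.sub_projection_mem _ v
  have hW' : ∀ a ∈ P, ∀ v ∈ oc W, a *ᵥ v ∈ oc W := by
    intro a ha v hv u hu
    rw [Matrix.dotProduct_mulVec]
    have e1 : star u ᵥ* a = star (aᴴ *ᵥ u) := by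
      rw [Matrix.star_mulVec, Matrix.conjTranspose_conjTranspose]
    rw [e1]
    exact hv _ (hW _ (hP a ha) u hu)
  refine ⟨LinearMap.toMatrix' f, fun v => by rw [h1]; exact h2 v,
    fun v u hu => by rw [h1]; exact h3 v u hu, fun a ha => ?_⟩
  apply Matrix.mulVec_injective
  funext v
  rw [← Matrix.mulVec_mulVec, ← Matrix.mulVec_mulVec, h1, h1]
  -- both sides are in `W` and the difference is orthogonal to `W`
  have h4 : a *ᵥ (f v) - f (a *ᵥ v) ∈ W := Submodule.sub_mem _ (hW a ha _ (h2 v)) (h2 _)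
  have h5 : a *ᵥ (f v) - f (a *ᵥ v) ∈ oc W := by
    have e1 : a *ᵥ (f v) - f (a *ᵥ v) = (a *ᵥ v - f (a *ᵥ v)) - a *ᵥ (v - f v) := by
      rw [Matrix.mulVec_sub]; abel
    rw [e1]
    exact Submodule.sub_mem _ (h3 _) (hW' a ha _ (h3 v))
  exact sub_eq_zero.1 (dotProduct_star_self_eq_zero.1 (h5 _ h4))

end proj

section sep

variable {ι : Type} [Fintype ι] [DecidableEq ι] {h : Submodule ℂ (Matrix ι ι ℂ)}
  {x : Matrix ι ι ℂ} {J J' : Type} [Fintype J] [DecidableEq J] [Fintype J'] [DecidableEq J']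

/-- The direct sum of representations. -/
def sL (ρ : Matrix ι ι ℂ →ₗ[ℂ] Matrix J J ℂ) (ρ' : Matrix ι ι ℂ →ₗ[ℂ] Matrix J' J' ℂ) :
    Matrix ι ι ℂ →ₗ[ℂ] Matrix (J ⊕ J') (J ⊕ J') ℂ where
  toFun a := Matrix.fromBlocks (ρ a) 0 0 (ρ' a)
  map_add' a b := by
    rw [map_add, map_add, Matrix.fromBlocks_add, add_zero, add_zero]
  map_smul' c a := by
    rw [map_smul, map_smul, RingHom.id_apply, Matrix.fromBlocks_smul, smul_zero, smul_zero]

lemma sL_apply (ρ : Matrix ι ι ℂ →ₗ[ℂ] Matrix J J ℂ) (ρ' : Matrix ι ι ℂ →ₗ[ℂ] Matrix J' J' ℂ)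
    (a : Matrix ι ι ℂ) : sL ρ ρ' a = Matrix.fromBlocks (ρ a) 0 0 (ρ' a) := rfl

lemma sL_mulVec (ρ : Matrix ι ι ℂ →ₗ[ℂ] Matrix J J ℂ) (ρ' : Matrix ι ι ℂ →ₗ[ℂ] Matrix J' J' ℂ)
    (a : Matrix ι ι ℂ) (w : J → ℂ) (w' : J' → ℂ) :
    sL ρ ρ' a *ᵥ Sum.elim w w' = Sum.elim (ρ a *ᵥ w) (ρ' a *ᵥ w') := by
  rw [sL_apply, Matrix.fromBlocks_mulVec]
  simp

/-- **Intertwining operators between highest weight vectors of the same weight.** -/
theorem sep2 (hh : IsLA h) (hx : IsReg h x) {ρ : Matrix ι ι ℂ →ₗ[ℂ] Matrix J J ℂ}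
    {ρ' : Matrix ι ι ℂ →ₗ[ℂ] Matrix J' J' ℂ}
    (hρ : ∀ a b, ρ (br a b) = br (ρ a) (ρ b)) (hρ' : ∀ a b, ρ' (br a b) = br (ρ' a) (ρ' b))
    (hs : ∀ a, ρ aᴴ = (ρ a)ᴴ) (hs' : ∀ a, ρ' aᴴ = (ρ' a)ᴴ)
    {w : J → ℂ} {w' : J' → ℂ} (hw : w ≠ 0)
    (h0 : ∀ t ∈ h, x * t = t * x → ∃ c : ℂ, ρ t *ᵥ w = c • w ∧ ρ' t *ᵥ w' = c • w')
    (hp : ∀ a : ℝ, 0 < a → ∀ e ∈ h, e ∈ EA x a → ρ e *ᵥ w = 0 ∧ ρ' e *ᵥ w' = 0)
    {l : ℝ} (hl : ρ x *ᵥ w = (l : ℂ) • w) (hl' : ρ' x *ᵥ w' = (l : ℂ) • w') :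
    ∃ (F : Matrix J' J ℂ) (c : ℂ), c ≠ 0 ∧ (∀ z ∈ h, ρ' z * F = F * ρ z) ∧
      F *ᵥ w = c • w' := by
  obtain ⟨r, hr⟩ : ∃ r, r = sL ρ ρ' := ⟨_, rfl⟩
  have hrv : ∀ (a : Matrix ι ι ℂ) (w : J → ℂ) (w' : J' → ℂ),
      r a *ᵥ Sum.elim w w' = Sum.elim (ρ a *ᵥ w) (ρ' a *ᵥ w') := fun a w w' => by
    rw [hr, sL_mulVec]
  have hrbr : ∀ a b, r (br a b) = br (r a) (r b) := by
    intro a b
    rw [hr, sL_apply, sL_apply, sL_apply, hρ, hρ', br, br, br, Matrix.fromBlocks_multiply,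
      Matrix.fromBlocks_multiply, sub_eq_add_neg (Matrix.fromBlocks _ _ _ _),
      Matrix.fromBlocks_neg, Matrix.fromBlocks_add]
    simp only [Matrix.mul_zero, Matrix.zero_mul, add_zero, zero_add, neg_zero, sub_eq_add_neg]
  have hrs : ∀ a, r aᴴ = (r a)ᴴ := by
    intro a
    rw [hr, sL_apply, sL_apply, Matrix.fromBlocks_conjTranspose, hs, hs',
      Matrix.conjTranspose_zero, Matrix.conjTranspose_zero]
  have hsm : ∀ (c : ℂ) (w : J → ℂ) (w' : J' → ℂ),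
      Sum.elim (c • w) (c • w') = c • Sum.elim w w' := by
    intro c w w'
    funext i
    rcases i with i | i <;> rfl
  obtain ⟨u, hu⟩ : ∃ u, u = Sum.elim w w' := ⟨_, rfl⟩
  have hlu : r x *ᵥ u = (l : ℂ) • u := by rw [hu, hrv, hl, hl', hsm]
  have hst := low_h hh hx hrbr (w := u) (fun t ht htx => by
    obtain ⟨c, hc, hc'⟩ := h0 t ht htx
    exact ⟨c, by rw [hu, hrv, hc, hc', hsm]⟩) (fun a ha e he hea => by
      rw [hu, hrv, (hp a ha e he hea).1, (hp a ha e he hea).2]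
      funext i
      rcases i with i | i <;> rfl)
  have hX : low h x r u ≤ Submodule.span ℂ {u} ⊔ TL (r x) l := by
    refine low_le r u (Submodule.mem_sup_left (Submodule.mem_span_singleton_self u)) ?_
    intro a ha e he hea v hv
    have h1 : br x e = (a : ℂ) • e := hea
    have key : ∀ (d : ℝ) (v : J ⊕ J' → ℂ), d ≤ l → r x *ᵥ v = (d : ℂ) • v →
        r e *ᵥ v ∈ TL (r x) l := by
      intro d v hd hv
      refine Submodule.subset_span ⟨d + a, by linarith, ?_⟩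
      rw [rho_mul hrbr, hv, h1, map_smul, Matrix.smul_mulVec, Matrix.mulVec_smul, ← add_smul]
      push_cast
      rfl
    obtain ⟨v₁, hv₁, v₂, hv₂, rfl⟩ := Submodule.mem_sup.1 hv
    rw [Matrix.mulVec_add]
    refine Submodule.mem_sup_right (Submodule.add_mem _ ?_ ?_)
    · obtain ⟨c, rfl⟩ := Submodule.mem_span_singleton.1 hv₁
      rw [Matrix.mulVec_smul]
      exact Submodule.smul_mem _ c (key l u le_rfl hlu)
    · clear hv
      induction hv₂ using Submodule.span_induction with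
      | mem v hv =>
        obtain ⟨d, hd, hv⟩ := hv
        exact key d v hd.le hv
      | zero => rw [Matrix.mulVec_zero]; exact Submodule.zero_mem _
      | add u v _ _ hu hv => rw [Matrix.mulVec_add]; exact Submodule.add_mem _ hu hv
      | smul c u _ hu => rw [Matrix.mulVec_smul]; exact Submodule.smul_mem _ _ hu
  obtain ⟨E, hE1, hE2, hE3⟩ := exists_projector (low h x r u) {b | ∃ a ∈ h, b = r a}
    (by
      rintro _ ⟨a, ha, rfl⟩
      exact ⟨aᴴ, hh.star a ha, (hrs a).symm⟩)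
    (by
      rintro _ ⟨a, ha, rfl⟩
      exact hst a ha)
  -- the value on the first vector
  obtain ⟨y, hy⟩ : ∃ y, y = Sum.elim w (0 : J' → ℂ) := ⟨_, rfl⟩
  have hly : r x *ᵥ y = (l : ℂ) • y := by
    rw [hy, hrv, hl, Matrix.mulVec_zero, ← hsm, smul_zero]
  have hlE : r x *ᵥ (E *ᵥ y) = (l : ℂ) • (E *ᵥ y) := by
    rw [Matrix.mulVec_mulVec, hE3 _ ⟨x, hx.mem, rfl⟩, ← Matrix.mulVec_mulVec, hly,
      Matrix.mulVec_smul]
  obtain ⟨v₁, hv₁, b, hb, hsum⟩ := Submodule.mem_sup.1 (hX (hE1 y))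
  obtain ⟨c, rfl⟩ := Submodule.mem_span_singleton.1 hv₁
  have hb2 : b = E *ᵥ y - c • u := by rw [← hsum]; abel
  have hb0 : b = 0 := by
    refine TL_zero hb ?_
    rw [hb2, Matrix.mulVec_sub, Matrix.mulVec_smul, hlE, hlu, smul_sub, smul_comm c]
  have hEy : E *ᵥ y = c • u := by
    rw [hb0] at hb2
    exact sub_eq_zero.1 hb2.symm
  have hc : c ≠ 0 := by
    intro h0
    rw [h0, zero_smul] at hEy
    have h1 := hE2 y u (low_mem r u)
    rw [hEy, sub_zero, hu, hy, dotProduct, Fintype.sum_sum_type] at h1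
    simp only [Sum.elim_inl, Sum.elim_inr, Pi.zero_apply, mul_zero, Finset.sum_const_zero,
      add_zero, Pi.star_apply] at h1
    exact hw (dotProduct_star_self_eq_zero.1 h1)
  refine ⟨E.toBlocks₂₁, c, hc, fun z hz => ?_, ?_⟩
  · have h1 := hE3 _ ⟨z, hz, rfl⟩
    rw [hr, sL_apply, ← Matrix.fromBlocks_toBlocks E, Matrix.fromBlocks_multiply,
      Matrix.fromBlocks_multiply, Matrix.fromBlocks_inj] at h1
    have h2 := h1.2.2.1
    rw [Matrix.zero_mul, zero_add, Matrix.mul_zero, add_zero] at h2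
    exact h2
  · have h1 : E *ᵥ y = Sum.elim (E.toBlocks₁₁ *ᵥ w) (E.toBlocks₂₁ *ᵥ w) := by
      conv_lhs => rw [← Matrix.fromBlocks_toBlocks E, hy]
      rw [Matrix.fromBlocks_mulVec]
      simp
    rw [hEy, hu, ← hsm] at h1
    funext i
    exact (congrFun h1 (Sum.inr i)).symm

end sep

variable {ι : Type} [Fintype ι] [DecidableEq ι] {H : HData ι}
  {κ : Type} [Fintype κ] [DecidableEq κ] {l : Type} [Fintype l] [DecidableEq l]

/-- Matrices which fix the Hodge classes fix all invariant tensors. -/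
lemma fix_inv {p : Matrix ι ι ℂ} (hp : Fixes H p κ) {d : (κ → ι) → ℂ}
    (hd : ∀ g ∈ GG H, kp κ g *ᵥ d = d) : kp κ p *ᵥ d = d := by
  let C : Submodule ℂ ((κ → ι) → ℂ) :=
    { carrier := {v | ∀ g ∈ GG H, kp κ g *ᵥ v = v}
      add_mem' := fun {a b} ha hb g hg => by rw [Matrix.mulVec_add, ha g hg, hb g hg]
      zero_mem' := fun g _ => Matrix.mulVec_zero _
      smul_mem' := fun c a ha g hg => by rw [Matrix.mulVec_smul, ha g hg] }
  have hC : ∀ (σ : ℂ ≃+* ℂ), ∀ v ∈ C, (fun i => σ (v i)) ∈ C := by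
    intro σ v h1 g hg
    have h5 := h1 (g.map σ.symm) (GG_map H σ.symm hg)
    funext i
    have h6 := congrArg σ (congrFun h5 i)
    rw [Matrix.mulVec, dotProduct, map_sum] at h6
    rw [Matrix.mulVec, dotProduct, ← h6]
    refine Finset.sum_congr rfl fun j _ => ?_
    rw [map_mul, kp_apply, kp_apply, map_prod]
    congr 1
    refine Finset.prod_congr rfl fun k _ => ?_
    rw [Matrix.map_apply, RingEquiv.apply_symm_apply]
  have hdC : d ∈ C := hd
  rw [Pool.Agent.W437.HD.span_rational C hC] at hdC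
  have key : ∀ v ∈ Submodule.span ℂ {w | w ∈ C ∧ ∃ u : (κ → ι) → ℚ, w = fun i => (u i : ℂ)},
      kp κ p *ᵥ v = v := by
    intro v hv
    induction hv using Submodule.span_induction with
    | mem v hv =>
      obtain ⟨h1, u, rfl⟩ := hv
      have h2 : u ∈ BB H κ := by
        intro t ht
        exact h1 _ (Submonoid.subset_closure (l_mem_gens H ht))
      exact hp _ h2
    | zero => exact Matrix.mulVec_zero _
    | add a b _ _ ha hb => rw [Matrix.mulVec_add, ha, hb]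
    | smul c a _ ha => rw [Matrix.mulVec_smul, ha]
  exact key d hdC

/-- Matrices which fix the Hodge classes commute with the intertwining operators. -/
lemma itw_fix {p : Matrix ι ι ℂ} (h2 : Fixes H p (Unit ⊕ Unit)) (hp : Fixes H p (l ⊕ κ))
    {F : Matrix (l → ι) (κ → ι) ℂ} (hF : ∀ w ∈ ho H, dk l w * F = F * dk κ w) :
    kp l p * F = F * kp κ p := by
  have h1 : kp (l ⊕ κ) p *ᵥ arr (F * kp κ (cQ H.Qir)) = arr (F * kp κ (cQ H.Qir)) := by
    refine fix_inv hp fun g hg => fix_of_NgT (fun σ => ?_) hg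
    have h3 := Ng_mem (H := H) σ
    rw [← arr_mat (dk (l ⊕ κ) (Ng H σ) *ᵥ arr (F * kp κ (cQ H.Qir))), mat_dk, mat_arr]
    have h4 : kp κ (cQ H.Qir) * (dk κ (Ng H σ))ᵀ = -(dk κ (Ng H σ) * kp κ (cQ H.Qir)) := by
      rw [eq_neg_iff_add_eq_zero, add_comm]; exact dk_inv h3
    rw [← Matrix.mul_assoc, hF _ h3, Matrix.mul_assoc F, Matrix.mul_assoc F, h4, Matrix.mul_neg,
      add_neg_cancel]
    rfl
  rw [kp_arr] at h1
  have h3 := congrArg mat h1
  rw [mat_arr, mat_arr] at h3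
  have h5 : kp κ p * kp κ (cQ H.Qir) * (kp κ p)ᵀ = kp κ (cQ H.Qir) := by
    rw [← kp_transpose, ← kp_mul, ← kp_mul, fix_Q H h2]
  obtain ⟨R, hR⟩ : ∃ R, R = kp κ (cQ H.Qir) * (kp κ p)ᵀ * kp κ (cQ H.Qr) := ⟨_, rfl⟩
  have h6 : kp κ p * R = 1 := by
    rw [hR]
    calc kp κ p * (kp κ (cQ H.Qir) * (kp κ p)ᵀ * kp κ (cQ H.Qr)) =
        (kp κ p * kp κ (cQ H.Qir) * (kp κ p)ᵀ) * kp κ (cQ H.Qr) := by simp only [Matrix.mul_assoc]
      _ = 1 := by rw [h5, QiQ]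
  have h7 : kp l p * F * R = F := by
    rw [hR]
    calc kp l p * F * (kp κ (cQ H.Qir) * (kp κ p)ᵀ * kp κ (cQ H.Qr)) =
        (kp l p * (F * kp κ (cQ H.Qir)) * (kp κ p)ᵀ) * kp κ (cQ H.Qr) := by
          simp only [Matrix.mul_assoc]
      _ = F * (kp κ (cQ H.Qir) * kp κ (cQ H.Qr)) := by rw [h3, Matrix.mul_assoc]
      _ = _ := by rw [QiQ, Matrix.mul_one]
  calc kp l p * F = kp l p * F * (R * kp κ p) := by
        rw [mul_eq_one_comm.1 h6, Matrix.mul_one]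
    _ = (kp l p * F * R) * kp κ p := by simp only [Matrix.mul_assoc]
    _ = _ := by rw [h7]

/-- The same in orthonormal coordinates. -/
lemma itw_fixn {p : Matrix ι ι ℂ} (h2 : Fixes H p (Unit ⊕ Unit)) (hp : Fixes H p (l ⊕ κ))
    {F : Matrix (l → ι) (κ → ι) ℂ} (hF : ∀ w ∈ hn H, dk l w * F = F * dk κ w) :
    kp l (cji H p) * F = F * kp κ (cji H p) := by
  have hMi : ∀ (κ : Type) [Fintype κ] [DecidableEq κ] (g : Matrix ι ι ℂ),
      kp κ g * kp κ (Mi H) = kp κ (Mi H) * kp κ (cji H g) := by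
    intro κ _ _ g
    rw [← kp_mul, ← kp_mul]
    congr 1
    rw [cji]
    calc g * Mi H = (Mi H * Mm H) * g * Mi H := by rw [Mi_Mm, Matrix.one_mul]
      _ = _ := by simp only [Matrix.mul_assoc]
  have hdMi : ∀ (κ : Type) [Fintype κ] [DecidableEq κ] (g : Matrix ι ι ℂ),
      dk κ g * kp κ (Mi H) = kp κ (Mi H) * dk κ (cji H g) := by
    intro κ _ _ g
    have h5 : dk κ (cji H g) * kp κ (Mm H) = kp κ (Mm H) * dk κ g := by
      rw [dk_cj_Mm, cj_cji]
    calc dk κ g * kp κ (Mi H) = (kp κ (Mi H) * kp κ (Mm H)) * dk κ g * kp κ (Mi H) := by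
            rw [← kp_mul, Mi_Mm, kp_one, Matrix.one_mul]
      _ = kp κ (Mi H) * (kp κ (Mm H) * dk κ g) * kp κ (Mi H) := by simp only [Matrix.mul_assoc]
      _ = kp κ (Mi H) * dk κ (cji H g) * (kp κ (Mm H) * kp κ (Mi H)) := by
          rw [← h5]; simp only [Matrix.mul_assoc]
      _ = _ := by rw [← kp_mul, Mm_Mi, kp_one, Matrix.mul_one]
  have hMm : ∀ (κ : Type) [Fintype κ] [DecidableEq κ] (g : Matrix ι ι ℂ),
      kp κ (Mm H) * kp κ g = kp κ (cji H g) * kp κ (Mm H) := by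
    intro κ _ _ g
    have := kp_cj_Mm (κ := κ) H (cji H g)
    rw [cj_cji] at this
    exact this.symm
  have h1 := itw_fix h2 hp (F := kp l (Mi H) * F * kp κ (Mm H)) fun w hw => by
    have hw' : cji H w ∈ hn H := by rw [mem_hn, cj_cji]; exact hw
    have e1 : dk κ (cji H w) * kp κ (Mm H) = kp κ (Mm H) * dk κ w := by
      rw [dk_cj_Mm, cj_cji]
    calc dk l w * (kp l (Mi H) * F * kp κ (Mm H)) =
        (dk l w * kp l (Mi H)) * F * kp κ (Mm H) := by simp only [Matrix.mul_assoc]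
      _ = kp l (Mi H) * (dk l (cji H w) * F) * kp κ (Mm H) := by
          rw [hdMi]; simp only [Matrix.mul_assoc]
      _ = kp l (Mi H) * F * (dk κ (cji H w) * kp κ (Mm H)) := by
          rw [hF _ hw']; simp only [Matrix.mul_assoc]
      _ = _ := by rw [e1]; simp only [Matrix.mul_assoc]
  have e2 : kp l p * (kp l (Mi H) * F * kp κ (Mm H)) =
      kp l (Mi H) * (kp l (cji H p) * F) * kp κ (Mm H) := by
    calc kp l p * (kp l (Mi H) * F * kp κ (Mm H)) =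
        (kp l p * kp l (Mi H)) * F * kp κ (Mm H) := by simp only [Matrix.mul_assoc]
      _ = _ := by rw [hMi]; simp only [Matrix.mul_assoc]
  have e3 : kp l (Mi H) * F * kp κ (Mm H) * kp κ p =
      kp l (Mi H) * (F * kp κ (cji H p)) * kp κ (Mm H) := by
    calc kp l (Mi H) * F * kp κ (Mm H) * kp κ p =
        kp l (Mi H) * F * (kp κ (Mm H) * kp κ p) := by simp only [Matrix.mul_assoc]
      _ = _ := by rw [hMm]; simp only [Matrix.mul_assoc]
  rw [e2, e3] at h1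
  have h3 := congrArg (fun X => kp l (Mm H) * X * kp κ (Mi H)) h1
  beta_reduce at h3
  have e4 : ∀ X : Matrix (l → ι) (κ → ι) ℂ,
      kp l (Mm H) * (kp l (Mi H) * X * kp κ (Mm H)) * kp κ (Mi H) = X := by
    intro X
    calc kp l (Mm H) * (kp l (Mi H) * X * kp κ (Mm H)) * kp κ (Mi H) =
        (kp l (Mm H) * kp l (Mi H)) * X * (kp κ (Mm H) * kp κ (Mi H)) := by
          simp only [Matrix.mul_assoc]
      _ = X := by
        rw [← kp_mul, ← kp_mul, Mm_Mi, kp_one, kp_one, Matrix.one_mul, Matrix.mul_one]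
  rwa [e4, e4] at h3

end Pool.Agent.N996.FP
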