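import Pool.Agent.N996.FP.Wedge

/-!
# Weights and the root lattice
-/

set_option linter.unusedSectionVars false

namespace Pool.Agent.N996.FP

open Matrix ComplexOrder

variable {ι : Type} [Fintype ι] [DecidableEq ι] {h : Submodule ℂ (Matrix ι ι ℂ)}
  {x : Matrix ι ι ℂ}

/-- The centraliser of the regular element. -/
def ct (h : Submodule ℂ (Matrix ι ι ℂ)) (x : Matrix ι ι ℂ) : Submodule ℂ (Matrix ι ι ℂ) where
  carrier := {t | t ∈ h ∧ x * t = t * x}
  add_mem' {a b} ha hb := ⟨h.add_mem ha.1 hb.1, by rw [Matrix.mul_add, Matrix.add_mul, ha.2, hb.2]⟩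
  zero_mem' := ⟨h.zero_mem, by rw [Matrix.mul_zero, Matrix.zero_mul]⟩
  smul_mem' c a ha := ⟨h.smul_mem c ha.1, by rw [Matrix.mul_smul, Matrix.smul_mul, ha.2]⟩

lemma mem_ct {t : Matrix ι ι ℂ} : t ∈ ct h x ↔ t ∈ h ∧ x * t = t * x := Iff.rfl

lemma ct_star (hh : IsLA h) (hx : xᴴ = x) {t : Matrix ι ι ℂ} (ht : t ∈ ct h x) : tᴴ ∈ ct h x := by
  refine ⟨hh.star t ht.1, ?_⟩
  have h1 := congrArg conjTranspose ht.2
  rw [Matrix.conjTranspose_mul, Matrix.conjTranspose_mul, hx] at h1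
  exact h1.symm

/-- The trace form is nondegenerate. -/
lemma ct_nondeg (hh : IsLA h) (hx : xᴴ = x) {u : Matrix ι ι ℂ} (hu : u ∈ ct h x)
    (h0 : ∀ t ∈ ct h x, (u * t).trace = 0) : u = 0 := by
  have h1 := h0 uᴴ (ct_star hh hx hu)
  have h2 : nsq uᴴ = 0 := by rw [nsq, Matrix.conjTranspose_conjTranspose]; exact h1
  rw [nsq_star] at h2
  exact nsq_eq_zero h2

/-- The real trace form. -/
noncomputable def ip (A B : Matrix ι ι ℂ) : ℝ := ((A * B).trace).re

lemma ip_comm (A B : Matrix ι ι ℂ) : ip A B = ip B A := by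
  rw [ip, ip, Matrix.trace_mul_comm]

lemma ip_add (A B C : Matrix ι ι ℂ) : ip (A + B) C = ip A C + ip B C := by
  rw [ip, ip, ip, Matrix.add_mul, Matrix.trace_add, Complex.add_re]

lemma ip_sub (A B C : Matrix ι ι ℂ) : ip (A - B) C = ip A C - ip B C := by
  rw [ip, ip, ip, Matrix.sub_mul, Matrix.trace_sub, Complex.sub_re]

lemma ip_zero (C : Matrix ι ι ℂ) : ip 0 C = 0 := by
  rw [ip, Matrix.zero_mul, Matrix.trace_zero, Complex.zero_re]

lemma ip_msum {α : Type*} (s : Multiset α) (f : α → Matrix ι ι ℂ) (C : Matrix ι ι ℂ) :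
    ip (s.map f).sum C = (s.map fun a => ip (f a) C).sum := by
  induction s using Multiset.induction_on with
  | empty => simp [ip_zero]
  | cons a s ih => rw [Multiset.map_cons, Multiset.sum_cons, ip_add, ih, Multiset.map_cons,
      Multiset.sum_cons]

lemma tr_ip {A B : Matrix ι ι ℂ} (hA : Aᴴ = A) (hB : Bᴴ = B) :
    (A * B).trace = (ip A B : ℂ) := by
  have h1 : star (A * B).trace = (A * B).trace := by
    rw [← Matrix.trace_conjTranspose, Matrix.conjTranspose_mul, hA, hB, Matrix.trace_mul_comm]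
  exact (Complex.conj_eq_iff_re.1 h1).symm

lemma ip_self_pos {A : Matrix ι ι ℂ} (hA : Aᴴ = A) (h0 : A ≠ 0) : 0 < ip A A := by
  have h1 := nsq_pos h0
  rw [nsq, hA, tr_ip hA hA] at h1
  exact_mod_cast h1

/-- The weights of vectors. -/
structure IsWt (h : Submodule ℂ (Matrix ι ι ℂ)) (x : Matrix ι ι ℂ) (v : ι → ℂ)
    (T : Matrix ι ι ℂ) : Prop where
  mem : T ∈ ct h x
  herm : Tᴴ = T
  val : ∀ t ∈ ct h x, t *ᵥ v = (T * t).trace • v

lemma IsWt.unique (hh : IsLA h) (hx : xᴴ = x) {v : ι → ℂ} {T T' : Matrix ι ι ℂ}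
    (hT : IsWt h x v T) (hT' : IsWt h x v T') (hv : v ≠ 0) : T = T' := by
  rw [← sub_eq_zero]
  refine ct_nondeg hh hx ((ct h x).sub_mem hT.mem hT'.mem) fun t ht => ?_
  have h1 := (hT.val t ht).symm.trans (hT'.val t ht)
  rw [Matrix.sub_mul, Matrix.trace_sub, sub_eq_zero]
  rw [← sub_eq_zero, ← sub_smul] at h1
  rcases smul_eq_zero.1 h1 with h2 | h2
  · exact sub_eq_zero.1 h2
  · exact absurd h2 hv

/-- Eigenvectors of the regular element have weights. -/
lemma exists_wt (hh : IsLA h) (hx : IsReg h x) {v : ι → ℂ} (hv : v ≠ 0) {d : ℝ}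
    (hd : x *ᵥ v = (d : ℂ) • v) : ∃ T, IsWt h x v T := by
  have hvv : star v ⬝ᵥ v ≠ 0 := fun h0 => hv (dotProduct_star_self_eq_zero.1 h0)
  have hvs : star (star v ⬝ᵥ v) = star v ⬝ᵥ v := by
    conv_rhs => rw [Matrix.star_dotProduct]
  let f : ct h x →ₗ[ℂ] ℂ :=
    { toFun := fun t => (star v ⬝ᵥ v)⁻¹ * (star v ⬝ᵥ ((t : Matrix ι ι ℂ) *ᵥ v))
      map_add' := fun a b => by
        rw [Submodule.coe_add, Matrix.add_mulVec, dotProduct_add, mul_add]
      map_smul' := fun c a => by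
        rw [Submodule.coe_smul, Matrix.smul_mulVec, dotProduct_smul, smul_eq_mul, smul_eq_mul,
          RingHom.id_apply]
        ring }
  have hf : ∀ t : ct h x, (t : Matrix ι ι ℂ) *ᵥ v = f t • v := by
    intro t
    obtain ⟨c, hc⟩ := hx.vec hh.star t.2.1 t.2.2 d
    have h1 := hc v hd
    have h2 : f t = c := by
      change (star v ⬝ᵥ v)⁻¹ * (star v ⬝ᵥ ((t : Matrix ι ι ℂ) *ᵥ v)) = c
      rw [h1, dotProduct_smul, smul_eq_mul, mul_comm c, ← mul_assoc, inv_mul_cancel₀ hvv, one_mul]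
    rw [h2, h1]
  let Φ : ct h x →ₗ[ℂ] Module.Dual ℂ (ct h x) :=
    LinearMap.mk₂ ℂ (fun s t => ((s : Matrix ι ι ℂ) * (t : Matrix ι ι ℂ)).trace)
      (fun a b c => by rw [Submodule.coe_add, Matrix.add_mul, Matrix.trace_add])
      (fun r a b => by rw [Submodule.coe_smul, Matrix.smul_mul, Matrix.trace_smul])
      (fun a b c => by rw [Submodule.coe_add, Matrix.mul_add, Matrix.trace_add])
      (fun r a b => by rw [Submodule.coe_smul, Matrix.mul_smul, Matrix.trace_smul])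
  have hinj : Function.Injective Φ := by
    rw [injective_iff_map_eq_zero]
    intro s hs
    apply Subtype.ext
    refine ct_nondeg hh hx.herm s.2 fun t ht => ?_
    exact LinearMap.congr_fun hs ⟨t, ht⟩
  have hsurj : Function.Surjective Φ :=
    (LinearMap.injective_iff_surjective_of_finrank_eq_finrank
      (Subspace.dual_finrank_eq).symm).1 hinj
  obtain ⟨T, hT⟩ := hsurj f
  have hval : ∀ (t : Matrix ι ι ℂ) (ht : t ∈ ct h x),
      ((T : Matrix ι ι ℂ) * t).trace = f ⟨t, ht⟩ := by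
    intro t ht
    exact LinearMap.congr_fun hT ⟨t, ht⟩
  refine ⟨T, T.2, ?_, fun t ht => ?_⟩
  · rw [← sub_eq_zero]
    refine ct_nondeg hh hx.herm ((ct h x).sub_mem (ct_star hh hx.herm T.2) T.2) fun t ht => ?_
    rw [Matrix.sub_mul, Matrix.trace_sub, sub_eq_zero, hval t ht]
    have h1 : ((T : Matrix ι ι ℂ)ᴴ * t).trace = star (((T : Matrix ι ι ℂ) * tᴴ).trace) := by
      rw [← Matrix.trace_conjTranspose, Matrix.conjTranspose_mul,
        Matrix.conjTranspose_conjTranspose, Matrix.trace_mul_comm]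
    rw [h1, hval _ (ct_star hh hx.herm ht)]
    change star ((star v ⬝ᵥ v)⁻¹ * (star v ⬝ᵥ (tᴴ *ᵥ v))) =
      (star v ⬝ᵥ v)⁻¹ * (star v ⬝ᵥ (t *ᵥ v))
    rw [star_mul', star_inv₀, hvs]
    congr 1
    rw [Matrix.star_dotProduct, Matrix.star_mulVec, Matrix.conjTranspose_conjTranspose, star_star,
      Matrix.dotProduct_mulVec]
  · rw [hval t ht]
    exact hf ⟨t, ht⟩

/-- Eigenvectors with the same eigenvalue have the same weight. -/
lemma wt_eq (hh : IsLA h) (hx : IsReg h x) {v w : ι → ℂ} (hv : v ≠ 0) (hw : w ≠ 0)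
    {T T' : Matrix ι ι ℂ} (hT : IsWt h x v T) (hT' : IsWt h x w T')
    (he : (T * x).trace = (T' * x).trace) : T = T' := by
  have hxx : x ∈ ct h x := ⟨hx.mem, rfl⟩
  have h1 := hT.val x hxx
  rw [tr_ip hT.herm hx.herm] at h1
  have h2 := hT'.val x hxx
  rw [← he, tr_ip hT.herm hx.herm] at h2
  refine (⟨hT.mem, hT.herm, fun t ht => ?_⟩ : IsWt h x w T).unique hh hx.herm hT' hw
  obtain ⟨c, hc⟩ := hx.vec hh.star ht.1 ht.2 _
  have h3 := hc v h1
  have h4 := (hT.val t ht).symm.trans h3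
  rw [← sub_eq_zero, ← sub_smul] at h4
  rcases smul_eq_zero.1 h4 with h5 | h5
  · rw [hc w h2, sub_eq_zero.1 h5]
  · exact absurd h5 hv

/-! ### Roots -/

/-- Root vectors. -/
structure IsRV (h : Submodule ℂ (Matrix ι ι ℂ)) (x : Matrix ι ι ℂ) (e : Matrix ι ι ℂ) : Prop where
  mem : e ∈ h
  ne : e ≠ 0
  ex : ∃ a : ℝ, a ≠ 0 ∧ e ∈ EA x a

/-- The root. -/
noncomputable def Rt (e : Matrix ι ι ℂ) : Matrix ι ι ℂ := (nsq e)⁻¹ • br e eᴴ

lemma star_nsq (e : Matrix ι ι ℂ) : star (nsq e) = nsq e := by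
  rw [nsq, ← Matrix.trace_conjTranspose, Matrix.conjTranspose_mul,
    Matrix.conjTranspose_conjTranspose]

lemma IsRV.ct (hh : IsLA h) (hx : IsReg h x) {e : Matrix ι ι ℂ} (he : IsRV h x e) :
    Rt e ∈ ct h x := by
  obtain ⟨a, _, hea⟩ := he.ex
  obtain ⟨h1, h2, _⟩ := h_mem hh hx he.mem hea
  exact (FP.ct h x).smul_mem _ ⟨h1, h2⟩

lemma IsRV.herm (hh : IsLA h) (hx : IsReg h x) {e : Matrix ι ι ℂ} (he : IsRV h x e) :
    (Rt e)ᴴ = Rt e := by
  obtain ⟨a, _, hea⟩ := he.ex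
  obtain ⟨_, _, h3⟩ := h_mem hh hx he.mem hea
  rw [Rt, Matrix.conjTranspose_smul, h3, star_inv₀, star_nsq]

lemma IsRV.val (hh : IsLA h) (hx : IsReg h x) {e : Matrix ι ι ℂ} (he : IsRV h x e)
    {t : Matrix ι ι ℂ} (ht : t ∈ FP.ct h x) : br t e = (Rt e * t).trace • e := by
  obtain ⟨a, _, hea⟩ := he.ex
  rw [root_val hh hx hea he.ne ht.1 ht.2 hea, Rt, Matrix.smul_mul, Matrix.trace_smul, smul_eq_mul,
    div_eq_inv_mul]

lemma IsRV.Rt_ne (hh : IsLA h) (hx : IsReg h x) {e : Matrix ι ι ℂ} (he : IsRV h x e) :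
    Rt e ≠ 0 := by
  intro h0
  obtain ⟨a, ha, hea⟩ := he.ex
  have h1 := he.val hh hx (t := x) ⟨hx.mem, rfl⟩
  rw [h0, Matrix.zero_mul, Matrix.trace_zero, zero_smul] at h1
  have h2 : br x e = (a : ℂ) • e := hea
  rw [h2] at h1
  rcases smul_eq_zero.1 h1 with h3 | h3
  · exact ha (by exact_mod_cast h3)
  · exact he.ne h3

lemma IsRV.star (hh : IsLA h) (hx : IsReg h x) {e : Matrix ι ι ℂ} (he : IsRV h x e) :
    IsRV h x eᴴ ∧ Rt eᴴ = -Rt e := by
  obtain ⟨a, ha, hea⟩ := he.ex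
  refine ⟨⟨hh.star _ he.mem, fun h0 => he.ne ?_, -a, neg_ne_zero.2 ha, EA_star hx.herm hea⟩, ?_⟩
  · rw [← Matrix.conjTranspose_conjTranspose e, h0, Matrix.conjTranspose_zero]
  · rw [Rt, Rt, Matrix.conjTranspose_conjTranspose, nsq_star, br_swap, smul_neg]

/-- The roots. -/
def rts (h : Submodule ℂ (Matrix ι ι ℂ)) (x : Matrix ι ι ℂ) : Set (Matrix ι ι ℂ) :=
  {R | ∃ e, IsRV h x e ∧ R = Rt e}

/-- The root lattice. -/
def QL (h : Submodule ℂ (Matrix ι ι ℂ)) (x : Matrix ι ι ℂ) : AddSubgroup (Matrix ι ι ℂ) :=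
  AddSubgroup.closure (rts h x)

lemma Rt_mem_QL {e : Matrix ι ι ℂ} (he : IsRV h x e) : Rt e ∈ QL h x :=
  AddSubgroup.subset_closure ⟨e, he, rfl⟩

lemma exists_list (hh : IsLA h) (hx : IsReg h x) {ν : Matrix ι ι ℂ} (hν : ν ∈ QL h x) :
    ∃ l : List (Matrix ι ι ℂ), (∀ R ∈ l, R ∈ rts h x) ∧ l.sum = ν := by
  induction hν using AddSubgroup.closure_induction with
  | mem R hR => exact ⟨[R], by simpa using hR, by simp⟩
  | zero => exact ⟨[], by simp, rfl⟩
  | add a b _ _ ha hb =>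
    obtain ⟨l, hl, rfl⟩ := ha
    obtain ⟨l', hl', rfl⟩ := hb
    refine ⟨l ++ l', fun R hR => ?_, List.sum_append⟩
    rcases List.mem_append.1 hR with h1 | h1
    · exact hl R h1
    · exact hl' R h1
  | neg a _ ha =>
    obtain ⟨l, hl, rfl⟩ := ha
    refine ⟨l.map fun R => -R, fun R hR => ?_, ?_⟩
    · obtain ⟨R', hR', rfl⟩ := List.mem_map.1 hR
      obtain ⟨e, he, rfl⟩ := hl R' hR'
      exact ⟨eᴴ, (he.star hh hx).1, (he.star hh hx).2.symm⟩
    · clear hl
      clear * -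
      induction l with
      | nil => simp
      | cons R l ih => rw [List.map_cons, List.sum_cons, ih, List.sum_cons, neg_add]

/-- The sum of two roots at an obtuse angle is a root or zero. -/
lemma sum_root (hh : IsLA h) (hx : IsReg h x) {e f : Matrix ι ι ℂ} (he : IsRV h x e)
    (hf : IsRV h x f) (hneg : ip (Rt e) (Rt f) < 0) :
    (∃ g, IsRV h x g ∧ Rt g = Rt e + Rt f) ∨ Rt e + Rt f = 0 := by
  obtain ⟨a, ha, hea⟩ := he.ex
  obtain ⟨b, hb, hfb⟩ := hf.ex
  obtain ⟨g, hg⟩ : ∃ g, g = br e f := ⟨_, rfl⟩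
  have hgh : g ∈ h := by rw [hg]; exact hh.lie _ he.mem _ hf.mem
  have hgx : g ∈ EA x ((a + b : ℝ) : ℂ) := by
    rw [hg]
    have := EA_br hea hfb
    push_cast
    exact this
  have hg0 : g ≠ 0 := by
    intro h0
    have h1 := nsq_br e f
    have hhe : br e eᴴ = nsq e • Rt e := by
      rw [Rt, smul_smul, mul_inv_cancel₀ (nsq_pos he.ne).ne', one_smul]
    have h2 : br (br e eᴴ) f = (nsq e * (ip (Rt e) (Rt f) : ℂ)) • f := by
      rw [hhe]
      have h3 : br (nsq e • Rt e) f = nsq e • br (Rt e) f := by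
        rw [br, br, Matrix.smul_mul, Matrix.mul_smul, smul_sub]
      rw [h3, hf.val hh hx (he.ct hh hx), tr_ip (hf.herm hh hx) (he.herm hh hx), ip_comm,
        smul_smul]
    have h4 : nsq (0 : Matrix ι ι ℂ) = 0 := by rw [nsq, Matrix.mul_zero, Matrix.trace_zero]
    rw [← hg, h0, h4, zero_sub, h2, Matrix.mul_smul, Matrix.trace_smul, smul_eq_mul, neg_inj] at h1
    have h5 := nsq_nonneg (br eᴴ f)
    rw [h1] at h5
    have h6 := nsq_pos he.ne
    have h7 := nsq_pos hf.ne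
    have h8 : (ip (Rt e) (Rt f) : ℂ) < 0 := by exact_mod_cast hneg
    have h9 : nsq e * (ip (Rt e) (Rt f) : ℂ) * (fᴴ * f).trace < 0 :=
      mul_neg_of_neg_of_pos (mul_neg_of_pos_of_neg h6 h8) h7
    exact absurd h5 (not_le_of_gt h9)
  have hval : ∀ t ∈ ct h x, br t g = ((Rt e + Rt f) * t).trace • g := by
    intro t ht
    rw [hg, br_jac, he.val hh hx ht, hf.val hh hx ht, Matrix.add_mul, Matrix.trace_add, add_smul]
    congr 1
    · rw [br, br, Matrix.smul_mul, Matrix.mul_smul, smul_sub]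
    · rw [br, br, Matrix.smul_mul, Matrix.mul_smul, smul_sub]
  have hsum : Rt e + Rt f ∈ ct h x := (ct h x).add_mem (he.ct hh hx) (hf.ct hh hx)
  by_cases hab : a + b = 0
  · right
    refine ct_nondeg hh hx.herm hsum fun t ht => ?_
    have h1 := hval t ht
    have hgc : x * g = g * x := by
      rw [hab, Complex.ofReal_zero] at hgx
      exact EA_zero hgx
    rw [br, hx.comm hh.star ht.1 ht.2 hgc, sub_self] at h1
    rcases smul_eq_zero.1 h1.symm with h2 | h2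
    · exact h2
    · exact absurd h2 hg0
  · left
    have hgr : IsRV h x g := ⟨hgh, hg0, a + b, hab, hgx⟩
    refine ⟨g, hgr, ?_⟩
    rw [← sub_eq_zero]
    refine ct_nondeg hh hx.herm ((ct h x).sub_mem (hgr.ct hh hx) hsum) fun t ht => ?_
    have h1 := (hgr.val hh hx ht).symm.trans (hval t ht)
    rw [Matrix.sub_mul, Matrix.trace_sub]
    rw [← sub_eq_zero, ← sub_smul] at h1
    rcases smul_eq_zero.1 h1 with h2 | h2
    · exact h2
    · exact absurd h2 hg0

/-- **Descent in the root lattice.** -/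
lemma descent (hh : IsLA h) (hx : IsReg h x) {ν : Matrix ι ι ℂ} (hν : ν ∈ QL h x) (h0 : ν ≠ 0) :
    ∃ e, IsRV h x e ∧ ip (Rt e) (Rt e) ≤ ip ν (Rt e) := by
  classical
  -- an expression of minimal length
  have hex : ∃ n : ℕ, ∃ l : List (Matrix ι ι ℂ), (∀ R ∈ l, R ∈ rts h x) ∧ l.sum = ν ∧
      l.length = n := by
    obtain ⟨l, hl, hs⟩ := exists_list hh hx hν
    exact ⟨_, l, hl, hs, rfl⟩
  obtain ⟨l, hl, hs, hn⟩ := Nat.find_spec hex
  have hmin : ∀ l' : List (Matrix ι ι ℂ), (∀ R ∈ l', R ∈ rts h x) → l'.sum = ν →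
      l.length ≤ l'.length := by
    intro l' h1 h2
    rw [hn]
    exact Nat.find_min' hex ⟨l', h1, h2, rfl⟩
  cases l with
  | nil => exact absurd hs.symm (by simpa using h0)
  | cons R l =>
    obtain ⟨e, he, rfl⟩ := hl R (List.mem_cons_self ..)
    refine ⟨e, he, ?_⟩
    have hpos : ∀ R' ∈ l, 0 ≤ ip (Rt e) R' := by
      intro R' hR'
      by_contra hneg
      push Not at hneg
      obtain ⟨f, hf, rfl⟩ := hl R' (List.mem_cons_of_mem _ hR')
      have hperm := List.perm_cons_erase hR'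
      have hsum : l.sum = Rt f + (l.erase (Rt f)).sum := by
        rw [hperm.sum_eq, List.sum_cons]
      have hlen : l.length = (l.erase (Rt f)).length + 1 := by
        rw [hperm.length_eq, List.length_cons]
      have hle : ∀ R ∈ l.erase (Rt f), R ∈ rts h x := fun R hR =>
        hl R (List.mem_cons_of_mem _ (List.mem_of_mem_erase hR))
      rw [List.sum_cons, hsum, ← add_assoc] at hs
      rcases sum_root hh hx he hf hneg with ⟨g, hg, hgs⟩ | hz
      · have h1 := hmin (Rt g :: l.erase (Rt f)) (fun R hR => by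
          rcases List.mem_cons.1 hR with rfl | hR
          · exact ⟨g, hg, rfl⟩
          · exact hle R hR) (by rw [List.sum_cons, hgs]; exact hs)
        rw [List.length_cons, List.length_cons] at h1
        omega
      · rw [hz, zero_add] at hs
        have h1 := hmin (l.erase (Rt f)) hle hs
        rw [List.length_cons] at h1
        omega
    rw [← hs, List.sum_cons, ip_add]
    have h2 : ∀ m : List (Matrix ι ι ℂ), (∀ R' ∈ m, 0 ≤ ip (Rt e) R') → 0 ≤ ip m.sum (Rt e) := by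
      intro m
      induction m with
      | nil => intro _; rw [List.sum_nil, ip_zero]
      | cons a m ih =>
        intro hm
        rw [List.sum_cons, ip_add]
        refine add_nonneg ?_ (ih fun R hR => hm R (List.mem_cons_of_mem _ hR))
        rw [ip_comm]
        exact hm a (List.mem_cons_self ..)
    linarith [h2 l hpos]

/-- Moving a weight by a root. -/
lemma move (hh : IsLA h) (hx : IsReg h x) {v : ι → ℂ} {T : Matrix ι ι ℂ}
    (hT : IsWt h x v T) (hv : v ≠ 0) {e : Matrix ι ι ℂ} (he : IsRV h x e)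
    (hpos : 0 < ip T (Rt e)) : eᴴ *ᵥ v ≠ 0 ∧ IsWt h x (eᴴ *ᵥ v) (T - Rt e) := by
  have hhe : br e eᴴ = nsq e • Rt e := by
    rw [Rt, smul_smul, mul_inv_cancel₀ (nsq_pos he.ne).ne', one_smul]
  refine ⟨fun h0 => ?_, (ct h x).sub_mem hT.mem (he.ct hh hx), ?_, fun t ht => ?_⟩
  · have h1 : star v ⬝ᵥ (br e eᴴ *ᵥ v) = -(star (e *ᵥ v) ⬝ᵥ (e *ᵥ v)) := by
      rw [br, Matrix.sub_mulVec, ← Matrix.mulVec_mulVec, h0, Matrix.mulVec_zero, zero_sub,
        dotProduct_neg, ← Matrix.mulVec_mulVec, Matrix.dotProduct_mulVec (star v), neg_inj]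
      rw [Matrix.star_mulVec]
    have h2 : star v ⬝ᵥ (br e eᴴ *ᵥ v) = nsq e * ip T (Rt e) * (star v ⬝ᵥ v) := by
      rw [hhe, Matrix.smul_mulVec, hT.val _ (he.ct hh hx), tr_ip hT.herm (he.herm hh hx),
        dotProduct_smul, dotProduct_smul, smul_eq_mul, smul_eq_mul, mul_assoc]
    have h3 : (0 : ℂ) < nsq e * ip T (Rt e) * (star v ⬝ᵥ v) := by
      refine mul_pos (mul_pos (nsq_pos he.ne) (by exact_mod_cast hpos)) ?_
      exact lt_of_le_of_ne (dotProduct_star_self_nonneg v)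
        (fun h4 => hv (dotProduct_star_self_eq_zero.1 h4.symm))
    rw [← h2, h1] at h3
    have h4 : (0 : ℂ) ≤ star (e *ᵥ v) ⬝ᵥ (e *ᵥ v) := dotProduct_star_self_nonneg _
    exact absurd h3 (not_lt_of_ge (neg_nonpos.2 h4))
  · rw [Matrix.conjTranspose_sub, hT.herm, he.herm hh hx]
  · obtain ⟨h1, h2⟩ := he.star hh hx
    have h3 := h1.val hh hx ht
    have h4 : t * eᴴ = (Rt eᴴ * t).trace • eᴴ + eᴴ * t := by
      rw [← h3, br]; abel
    rw [Matrix.mulVec_mulVec, h4, Matrix.add_mulVec, ← Matrix.mulVec_mulVec, hT.val t ht, h2,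
      Matrix.smul_mulVec, Matrix.mulVec_smul, Matrix.neg_mul, Matrix.trace_neg, Matrix.sub_mul,
      Matrix.trace_sub, ← add_smul]
    congr 1
    ring

end Pool.Agent.N996.FP
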