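import Pool.Agent.N996.FP.Wt

/-!
# Joint eigenvectors and sums of weights
-/

set_option linter.unusedSectionVars false

namespace Pool.Agent.N996.FP

open Matrix ComplexOrder

variable {ι : Type} [Fintype ι] [DecidableEq ι] {h : Submodule ℂ (Matrix ι ι ℂ)}
  {x z : Matrix ι ι ℂ} {V : Submodule ℂ (ι → ℂ)} {n : ℕ}

/-- A sorted basis of joint eigenvectors. -/
structure Bz (h : Submodule ℂ (Matrix ι ι ℂ)) (x z : Matrix ι ι ℂ) (V : Submodule ℂ (ι → ℂ))
    (n : ℕ) where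
  /-- the vectors -/
  v : Fin n → V
  /-- the eigenvalues -/
  c : Fin n → ℝ
  /-- the weights -/
  T : Fin n → Matrix ι ι ℂ
  /-- the eigenvalues -/
  ζ : Fin n → ℂ
  li : LinearIndependent ℂ v
  sp : Submodule.span ℂ (Set.range v) = ⊤
  ex : ∀ i, x *ᵥ (v i : ι → ℂ) = (c i : ℂ) • (v i : ι → ℂ)
  ez : ∀ i, z *ᵥ (v i : ι → ℂ) = ζ i • (v i : ι → ℂ)
  wt : ∀ i, IsWt h x (v i : ι → ℂ) (T i)
  anti : Antitone c

/-- The part of a subspace where a matrix acts by a scalar. -/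
def eP (W : Submodule ℂ (ι → ℂ)) (x : Matrix ι ι ℂ) (d : ℂ) : Submodule ℂ (ι → ℂ) where
  carrier := {v | v ∈ W ∧ x *ᵥ v = d • v}
  add_mem' {a b} ha hb := ⟨W.add_mem ha.1 hb.1, by rw [Matrix.mulVec_add, ha.2, hb.2, smul_add]⟩
  zero_mem' := ⟨W.zero_mem, by rw [Matrix.mulVec_zero, smul_zero]⟩
  smul_mem' r a ha := ⟨W.smul_mem r ha.1, by rw [Matrix.mulVec_smul, ha.2, smul_comm]⟩

lemma mem_eP {W : Submodule ℂ (ι → ℂ)} {x : Matrix ι ι ℂ} {d : ℂ} {v : ι → ℂ} :
    v ∈ eP W x d ↔ v ∈ W ∧ x *ᵥ v = d • v := Iff.rfl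

lemma eP_stab {W : Submodule ℂ (ι → ℂ)} {x y : Matrix ι ι ℂ} {d : ℂ}
    (hy : ∀ v ∈ W, y *ᵥ v ∈ W) (hxy : x * y = y * x) : ∀ v ∈ eP W x d, y *ᵥ v ∈ eP W x d := by
  rintro v ⟨h1, h2⟩
  refine ⟨hy v h1, ?_⟩
  rw [Matrix.mulVec_mulVec, hxy, ← Matrix.mulVec_mulVec, h2, Matrix.mulVec_smul]

/-- Joint eigenvectors span. -/
lemma joint_span {x z : Matrix ι ι ℂ} (hx : xᴴ = x) (hxz : x * z = z * x)
    (hzz : z * zᴴ = zᴴ * z) (hV : ∀ v ∈ V, x *ᵥ v ∈ V) (hVz : ∀ v ∈ V, z *ᵥ v ∈ V)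
    (hVz' : ∀ v ∈ V, zᴴ *ᵥ v ∈ V) {v : ι → ℂ} (hv : v ∈ V) :
    v ∈ Submodule.span ℂ {w | w ∈ V ∧ (∃ d : ℝ, x *ᵥ w = (d : ℂ) • w) ∧
      ∃ c : ℂ, z *ᵥ w = c • w} := by
  have hxz' : x * zᴴ = zᴴ * x := by
    have h1 := congrArg conjTranspose hxz
    rw [Matrix.conjTranspose_mul, Matrix.conjTranspose_mul, hx] at h1
    exact h1.symm
  obtain ⟨a, ha⟩ : ∃ a, a = z + zᴴ := ⟨_, rfl⟩
  obtain ⟨b, hb⟩ : ∃ b, b = Complex.I • (z - zᴴ) := ⟨_, rfl⟩
  have haH : aᴴ = a := by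
    rw [ha, Matrix.conjTranspose_add, Matrix.conjTranspose_conjTranspose, add_comm]
  have hbH : bᴴ = b := by
    rw [hb, Matrix.conjTranspose_smul, Matrix.conjTranspose_sub,
      Matrix.conjTranspose_conjTranspose]
    simp only [RCLike.star_def, Complex.conj_I]
    rw [neg_smul, ← smul_neg, neg_sub]
  have hxa : x * a = a * x := by rw [ha, Matrix.mul_add, Matrix.add_mul, hxz, hxz']
  have hxb : x * b = b * x := by
    rw [hb, Matrix.mul_smul, Matrix.smul_mul, Matrix.mul_sub, Matrix.sub_mul, hxz, hxz']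
  have hab : a * b = b * a := by
    rw [ha, hb, Matrix.mul_smul, Matrix.smul_mul, Matrix.mul_sub, Matrix.sub_mul,
      Matrix.add_mul, Matrix.add_mul, Matrix.mul_add, Matrix.mul_add, hzz]
  have hz2 : z = (2⁻¹ : ℂ) • (a - Complex.I • b) := by
    rw [hb, smul_smul, Complex.I_mul_I, neg_one_smul, sub_neg_eq_add, ha]
    have : z + zᴴ + (z - zᴴ) = (2 : ℂ) • z := by rw [two_smul]; abel
    rw [this, smul_smul, inv_mul_cancel₀ two_ne_zero, one_smul]
  have hVa : ∀ v ∈ V, a *ᵥ v ∈ V := by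
    intro v hv
    rw [ha, Matrix.add_mulVec]
    exact V.add_mem (hVz v hv) (hVz' v hv)
  have hVb : ∀ v ∈ V, b *ᵥ v ∈ V := by
    intro v hv
    rw [hb, Matrix.smul_mulVec, Matrix.sub_mulVec]
    exact V.smul_mem _ (V.sub_mem (hVz v hv) (hVz' v hv))
  refine vec_ind hx hV (P := fun v => v ∈ Submodule.span ℂ {w | w ∈ V ∧
    (∃ d : ℝ, x *ᵥ w = (d : ℂ) • w) ∧ ∃ c : ℂ, z *ᵥ w = c • w})
    (Submodule.zero_mem _) (fun z w hz hw => Submodule.add_mem _ hz hw) ?_ hv
  intro d u hu hud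
  refine vec_ind haH (eP_stab (d := (d : ℂ)) hVa hxa) (P := fun v => v ∈ Submodule.span ℂ
    {w | w ∈ V ∧ (∃ d : ℝ, x *ᵥ w = (d : ℂ) • w) ∧ ∃ c : ℂ, z *ᵥ w = c • w})
    (Submodule.zero_mem _) (fun z w hz hw => Submodule.add_mem _ hz hw) ?_ (mem_eP.2 ⟨hu, hud⟩)
  intro m u hu hum
  refine vec_ind hbH (eP_stab (d := (m : ℂ)) (eP_stab (d := (d : ℂ)) hVb hxb) hab)
    (P := fun v => v ∈ Submodule.span ℂ
    {w | w ∈ V ∧ (∃ d : ℝ, x *ᵥ w = (d : ℂ) • w) ∧ ∃ c : ℂ, z *ᵥ w = c • w})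
    (Submodule.zero_mem _) (fun z w hz hw => Submodule.add_mem _ hz hw) ?_ (mem_eP.2 ⟨hu, hum⟩)
  intro k u hu huk
  refine Submodule.subset_span ⟨hu.1.1, ⟨d, hu.1.2⟩, 2⁻¹ * (m - Complex.I * k), ?_⟩
  have h1 : z *ᵥ u = ((2⁻¹ : ℂ) • (a - Complex.I • b)) *ᵥ u := by rw [← hz2]
  rw [h1, Matrix.smul_mulVec, Matrix.sub_mulVec, Matrix.smul_mulVec, hu.2, huk, smul_smul,
    ← sub_smul, smul_smul]

lemma exists_Bz (hh : IsLA h) (hx : IsReg h x) (hxz : x * z = z * x)
    (hzz : z * zᴴ = zᴴ * z) (hV : ∀ v ∈ V, x *ᵥ v ∈ V) (hVz : ∀ v ∈ V, z *ᵥ v ∈ V)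
    (hVz' : ∀ v ∈ V, zᴴ *ᵥ v ∈ V) : ∃ n, Nonempty (Bz h x z V n) := by
  let s : Set V := {v | (∃ d : ℝ, x *ᵥ (v : ι → ℂ) = (d : ℂ) • (v : ι → ℂ)) ∧
    ∃ c : ℂ, z *ᵥ (v : ι → ℂ) = c • (v : ι → ℂ)}
  have hs : Submodule.span ℂ s = ⊤ := by
    have h1 : V ≤ (Submodule.span ℂ s).map V.subtype := by
      intro v hv
      have h2 := joint_span hx.herm hxz hzz hV hVz hVz' hv
      refine Submodule.span_le.2 ?_ h2
      rintro w ⟨hw, h3, h4⟩
      exact ⟨⟨w, hw⟩, Submodule.subset_span ⟨h3, h4⟩, rfl⟩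
    rw [eq_top_iff]
    rintro v -
    obtain ⟨w, hw, hwv⟩ := h1 v.2
    have : w = v := Subtype.ext hwv
    rwa [← this]
  obtain ⟨v, hv, hsp, hli⟩ := Submodule.exists_fun_fin_finrank_span_eq ℂ s
  choose hv1 hv2 using hv
  choose c hc using hv1
  choose ζ hζ using hv2
  have hT : ∀ i, ∃ T, IsWt h x (v i : ι → ℂ) T := fun i =>
    exists_wt hh hx (fun h0 => hli.ne_zero i (Subtype.ext h0)) (hc i)
  choose T hT using hT
  let σ := Tuple.sort fun i => -c i
  have hmono : Monotone ((fun i => -c i) ∘ σ) := Tuple.monotone_sort _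
  refine ⟨_, ⟨⟨v ∘ σ, c ∘ σ, T ∘ σ, ζ ∘ σ, hli.comp σ σ.injective, ?_, fun i => hc (σ i),
    fun i => hζ (σ i), fun i => hT (σ i), ?_⟩⟩⟩
  · rw [Set.range_comp, Set.range_eq_univ.2 σ.surjective, Set.image_univ, hsp, hs]
  · intro i j hij
    have := hmono hij
    simp only [Function.comp_apply] at this ⊢
    linarith

namespace Bz

variable (B : Bz h x z V n)

lemma v_ne (i : Fin n) : (B.v i : ι → ℂ) ≠ 0 := fun h0 => B.li.ne_zero i (Subtype.ext h0)

/-- The basis. -/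
noncomputable def bas : Module.Basis (Fin n) ℂ V := Module.Basis.mk B.li B.sp.ge

lemma bas_apply (i : Fin n) : B.bas i = B.v i := by simp [bas]

/-- Joint eigenvectors are combinations of the basis vectors with the same eigenvalues. -/
lemma coef {y : Matrix ι ι ℂ} {c' : Fin n → ℂ} (hy : ∀ i, y *ᵥ (B.v i : ι → ℂ) =
    c' i • (B.v i : ι → ℂ)) {u : V} {d : ℂ} (hu : y *ᵥ (u : ι → ℂ) = d • (u : ι → ℂ)) (i : Fin n)
    (hi : B.bas.repr u i ≠ 0) : c' i = d := by
  have h1 : y *ᵥ (u : ι → ℂ) = ((∑ l, (B.bas.repr u l * c' l) • B.v l : V) : ι → ℂ) := by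
    conv_lhs => rw [← B.bas.sum_repr u]
    rw [Submodule.coe_sum, Matrix.mulVec_sum, Submodule.coe_sum]
    refine Finset.sum_congr rfl fun l _ => ?_
    rw [B.bas_apply, Submodule.coe_smul, Matrix.mulVec_smul, hy, smul_smul, Submodule.coe_smul]
  have h2 : (∑ l, (B.bas.repr u l * c' l) • B.bas l : V) = d • u := by
    apply Subtype.ext
    rw [Submodule.coe_smul, ← hu, h1]
    simp only [B.bas_apply]
  have h3 := congrArg (fun w => B.bas.repr w i) h2
  simp only [map_smul, Finsupp.smul_apply, smul_eq_mul] at h3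
  rw [B.bas.repr_sum_self, mul_comm] at h3
  exact mul_right_cancel₀ hi h3

/-- Joint eigenvectors. -/
lemma mem_span {u : V} {d : ℝ} {ξ : ℂ} (hx' : x *ᵥ (u : ι → ℂ) = (d : ℂ) • (u : ι → ℂ))
    (hz' : z *ᵥ (u : ι → ℂ) = ξ • (u : ι → ℂ)) :
    u ∈ Submodule.span ℂ (B.v '' {i | B.c i = d ∧ B.ζ i = ξ}) := by
  rw [← B.bas.sum_repr u]
  refine Submodule.sum_mem _ fun i _ => ?_
  by_cases hi : B.bas.repr u i = 0
  · rw [hi, zero_smul]; exact Submodule.zero_mem _
  · refine Submodule.smul_mem _ _ (Submodule.subset_span ⟨i, ⟨?_, ?_⟩, (B.bas_apply i).symm⟩)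
    · have h1 := B.coef B.ex hx' i hi
      exact_mod_cast h1
    · exact B.coef B.ez hz' i hi

/-- Moving a weight by a root inside the basis. -/
lemma step (hh : IsLA h) (hx : IsReg h x) (hz : ∀ w ∈ h, z * w = w * z)
    (hV : ∀ w ∈ h, ∀ v ∈ V, w *ᵥ v ∈ V) (i : Fin n) {e : Matrix ι ι ℂ} (he : IsRV h x e)
    (hpos : 0 < ip (B.T i) (Rt e)) : ∃ j, B.T j = B.T i - Rt e ∧ B.ζ j = B.ζ i := by
  obtain ⟨h1, h2⟩ := move hh hx (B.wt i) (B.v_ne i) he hpos
  have heH := hh.star _ he.mem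
  have hxx : x ∈ ct h x := ⟨hx.mem, rfl⟩
  have h3 := h2.val x hxx
  rw [tr_ip h2.herm hx.herm] at h3
  have h4 : z *ᵥ (eᴴ *ᵥ (B.v i : ι → ℂ)) = B.ζ i • (eᴴ *ᵥ (B.v i : ι → ℂ)) := by
    rw [Matrix.mulVec_mulVec, hz _ heH, ← Matrix.mulVec_mulVec, B.ez, Matrix.mulVec_smul]
  have h5 := B.mem_span (u := ⟨eᴴ *ᵥ (B.v i : ι → ℂ), hV _ heH _ (B.v i).2⟩) h3 h4
  by_contra hcon
  push Not at hcon
  apply h1
  have h6 : {j | B.c j = ip (B.T i - Rt e) x ∧ B.ζ j = B.ζ i} = ∅ := by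
    ext j
    simp only [Set.mem_ofPred_eq, Set.mem_empty_iff_false, iff_false]
    rintro ⟨h7, h8⟩
    refine hcon j ?_ h8
    refine wt_eq hh hx (B.v_ne j) h1 (B.wt j) h2 ?_
    rw [tr_ip (B.wt j).herm hx.herm, tr_ip h2.herm hx.herm, ← h7]
    have h9 := (B.wt j).val x hxx
    rw [tr_ip (B.wt j).herm hx.herm, B.ex, ← sub_eq_zero, ← sub_smul] at h9
    rcases smul_eq_zero.1 h9 with h10 | h10
    · exact (sub_eq_zero.1 h10).symm
    · exact absurd h10 (B.v_ne j)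
  rw [h6, Set.image_empty, Submodule.span_empty, Submodule.mem_bot] at h5
  exact congrArg Subtype.val h5

/-- The eigenvalue is a value of the weight. -/
lemma c_eq (hx : IsReg h x) (i : Fin n) : (B.T i * x).trace = (B.c i : ℂ) := by
  have h9 := (B.wt i).val x ⟨hx.mem, rfl⟩
  rw [B.ex, ← sub_eq_zero, ← sub_smul] at h9
  rcases smul_eq_zero.1 h9 with h10 | h10
  · exact (sub_eq_zero.1 h10).symm
  · exact absurd h10 (B.v_ne i)

/-- The root vectors on the basis. -/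
lemma root_span (hh : IsLA h) (hx : IsReg h x) (hz : ∀ w ∈ h, z * w = w * z)
    (hV : ∀ w ∈ h, ∀ v ∈ V, w *ᵥ v ∈ V) {a : ℝ} (ha : a ≠ 0) {e : Matrix ι ι ℂ} (he : e ∈ h)
    (hea : e ∈ EA x a) (i : Fin n) : (⟨e *ᵥ (B.v i : ι → ℂ), hV _ he _ (B.v i).2⟩ : V) ∈
      Submodule.span ℂ (B.v '' {j | B.c j = B.c i + a ∧ B.T j - B.T i ∈ QL h x}) := by
  by_cases h0 : e *ᵥ (B.v i : ι → ℂ) = 0
  · have h1 : (⟨e *ᵥ (B.v i : ι → ℂ), hV _ he _ (B.v i).2⟩ : V) = 0 := Subtype.ext h0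
    rw [h1]
    exact Submodule.zero_mem _
  have he0 : e ≠ 0 := by
    rintro rfl
    exact h0 (Matrix.zero_mulVec _)
  have hr : IsRV h x e := ⟨he, he0, a, ha, hea⟩
  have h1 : x *ᵥ (e *ᵥ (B.v i : ι → ℂ)) = ((B.c i + a : ℝ) : ℂ) • (e *ᵥ (B.v i : ι → ℂ)) := by
    have h2 : x * e = (a : ℂ) • e + e * x := by rw [← mem_EA.1 hea]; abel
    rw [Matrix.mulVec_mulVec, h2, Matrix.add_mulVec, Matrix.smul_mulVec, ← Matrix.mulVec_mulVec,
      B.ex, Matrix.mulVec_smul]
    push_cast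
    rw [add_smul, add_comm]
  have h4 : z *ᵥ (e *ᵥ (B.v i : ι → ℂ)) = B.ζ i • (e *ᵥ (B.v i : ι → ℂ)) := by
    rw [Matrix.mulVec_mulVec, hz _ he, ← Matrix.mulVec_mulVec, B.ez, Matrix.mulVec_smul]
  have h5 := B.mem_span (u := ⟨e *ᵥ (B.v i : ι → ℂ), hV _ he _ (B.v i).2⟩) h1 h4
  refine Submodule.span_mono ?_ h5
  rintro _ ⟨j, ⟨hj1, hj2⟩, rfl⟩
  refine ⟨j, ⟨hj1, ?_⟩, rfl⟩
  have hw : IsWt h x (e *ᵥ (B.v i : ι → ℂ)) (B.T i + Rt e) := by
    refine ⟨(ct h x).add_mem (B.wt i).mem (hr.ct hh hx), ?_, fun t ht => ?_⟩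
    · rw [Matrix.conjTranspose_add, (B.wt i).herm, hr.herm hh hx]
    · have h6 := hr.val hh hx ht
      have h7 : t * e = (Rt e * t).trace • e + e * t := by rw [← h6, br]; abel
      rw [Matrix.mulVec_mulVec, h7, Matrix.add_mulVec, ← Matrix.mulVec_mulVec, (B.wt i).val t ht,
        Matrix.smul_mulVec, Matrix.mulVec_smul, Matrix.add_mul, Matrix.trace_add, ← add_smul,
        add_comm]
  have h8 : B.T j = B.T i + Rt e := by
    refine wt_eq hh hx (B.v_ne j) h0 (B.wt j) hw ?_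
    rw [B.c_eq hx, hj1]
    have h9 := hw.val x ⟨hx.mem, rfl⟩
    rw [h1, ← sub_eq_zero, ← sub_smul] at h9
    rcases smul_eq_zero.1 h9 with h10 | h10
    · exact sub_eq_zero.1 h10
    · exact absurd h10 h0
  rw [h8, add_sub_cancel_left]
  exact Rt_mem_QL hr

/-! ### Multisets of weights -/

/-- The sum of the weights. -/
def tot (s : Multiset (Fin n)) : Matrix ι ι ℂ := (s.map B.T).sum

/-- The product of the eigenvalues. -/
noncomputable def zt (s : Multiset (Fin n)) : ℂ := (s.map B.ζ).prod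

lemma tot_add (s t : Multiset (Fin n)) : B.tot (s + t) = B.tot s + B.tot t := by
  rw [tot, Multiset.map_add, Multiset.sum_add, tot, tot]

lemma zt_add (s t : Multiset (Fin n)) : B.zt (s + t) = B.zt s * B.zt t := by
  rw [zt, Multiset.map_add, Multiset.prod_add, zt, zt]

lemma tot_cons (i : Fin n) (t : Multiset (Fin n)) : B.tot (i ::ₘ t) = B.T i + B.tot t := by
  rw [tot, Multiset.map_cons, Multiset.sum_cons, tot]

lemma zt_cons (i : Fin n) (t : Multiset (Fin n)) : B.zt (i ::ₘ t) = B.ζ i * B.zt t := by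
  rw [zt, Multiset.map_cons, Multiset.prod_cons, zt]

/-- **A minimal bad multiset.** -/
theorem min_bad (hh : IsLA h) (hx : IsReg h x) (hz : ∀ w ∈ h, z * w = w * z)
    (hV : ∀ w ∈ h, ∀ v ∈ V, w *ᵥ v ∈ V)
    (hbad : ∃ s, B.tot s ∈ QL h x ∧ B.zt s ≠ 1) : ∃ s, B.tot s = 0 ∧ B.zt s ≠ 1 ∧
      ∀ t ≤ s, B.tot t ∈ QL h x → t = 0 ∨ t = s := by
  classical
  have hex : ∃ m : ℕ, ∃ s : Multiset (Fin n), s.card = m ∧ B.tot s ∈ QL h x ∧ B.zt s ≠ 1 := by
    obtain ⟨s, hs⟩ := hbad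
    exact ⟨_, s, rfl, hs⟩
  obtain ⟨m, hm, hmin⟩ : ∃ m : ℕ, (∃ s : Multiset (Fin n), s.card = m ∧ B.tot s ∈ QL h x ∧
      B.zt s ≠ 1) ∧ ∀ s : Multiset (Fin n), B.tot s ∈ QL h x → B.zt s ≠ 1 → m ≤ s.card :=
    ⟨Nat.find hex, Nat.find_spec hex, fun s h1 h2 => Nat.find_min' hex ⟨s, rfl, h1, h2⟩⟩
  -- minimal norm
  let P : Finset (Sym (Fin n) m) := Finset.univ.filter fun s =>
    B.tot (s : Multiset (Fin n)) ∈ QL h x ∧ B.zt (s : Multiset (Fin n)) ≠ 1
  obtain ⟨s₀, h1, h2, h3⟩ := hm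
  have hP : P.Nonempty := ⟨⟨s₀, h1⟩, Finset.mem_filter.2 ⟨Finset.mem_univ _, h2, h3⟩⟩
  obtain ⟨s, hsP, hsmin⟩ := P.exists_min_image
    (fun s => ip (B.tot (s : Multiset (Fin n))) (B.tot (s : Multiset (Fin n)))) hP
  obtain ⟨-, hs1, hs2⟩ := Finset.mem_filter.1 hsP
  have hcard : (s : Multiset (Fin n)).card = m := s.2
  obtain ⟨t, ht⟩ : ∃ t : Multiset (Fin n), t = (s : Multiset (Fin n)) := ⟨_, rfl⟩
  rw [← ht] at hs1 hs2 hcard
  refine ⟨t, ?_, hs2, ?_⟩
  · by_contra h0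
    obtain ⟨e, he, hle⟩ := descent hh hx hs1 h0
    have hpos : 0 < ip (Rt e) (Rt e) := ip_self_pos (he.herm hh hx) (he.Rt_ne hh hx)
    have hex2 : ∃ i ∈ t, 0 < ip (B.T i) (Rt e) := by
      by_contra hcon
      push Not at hcon
      have h4 : ip (B.tot t) (Rt e) ≤ 0 := by
        rw [tot, ip_msum]
        have h5 := Multiset.sum_map_le_sum_map (fun a => ip (B.T a) (Rt e)) (fun _ => (0 : ℝ))
          hcon
        simpa using h5
      linarith
    obtain ⟨i, hi, hipos⟩ := hex2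
    obtain ⟨j, hj1, hj2⟩ := B.step hh hx hz hV i he hipos
    have hti : t = i ::ₘ t.erase i := (Multiset.cons_erase hi).symm
    obtain ⟨t', ht'⟩ : ∃ t', t' = j ::ₘ t.erase i := ⟨_, rfl⟩
    have hc' : t'.card = m := by
      rw [ht', Multiset.card_cons, ← hcard]
      conv_rhs => rw [hti]
      rw [Multiset.card_cons]
    have hT' : B.tot t' = B.tot t - Rt e := by
      rw [ht', B.tot_cons, hj1]
      conv_rhs => rw [hti]
      rw [B.tot_cons]
      abel
    have hz' : B.zt t' = B.zt t := by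
      rw [ht', B.zt_cons, hj2]
      conv_rhs => rw [hti]
      rw [B.zt_cons]
    obtain ⟨τ, hτ⟩ : ∃ τ : Sym (Fin n) m, (τ : Multiset (Fin n)) = t' := ⟨⟨t', hc'⟩, rfl⟩
    have hmem : τ ∈ P := by
      refine Finset.mem_filter.2 ⟨Finset.mem_univ _, ?_, ?_⟩
      · rw [hτ, hT']
        exact (QL h x).sub_mem hs1 (Rt_mem_QL he)
      · rw [hτ, hz']
        exact hs2
    have h6 := hsmin _ hmem
    rw [← ht, hτ] at h6
    rw [hT', ip_sub, ip_comm (B.tot t) (B.tot t - Rt e), ip_sub, ip_comm (Rt e) (B.tot t - Rt e),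
      ip_sub, ip_comm (Rt e) (B.tot t)] at h6
    linarith
  · intro u hu huQ
    obtain ⟨w, rfl⟩ := Multiset.le_iff_exists_add.1 hu
    have hwQ : B.tot w ∈ QL h x := by
      have h4 := (QL h x).sub_mem hs1 huQ
      rwa [B.tot_add, add_sub_cancel_left] at h4
    rw [B.zt_add] at hs2
    rw [Multiset.card_add] at hcard
    by_cases h5 : B.zt u = 1
    · rw [h5, one_mul] at hs2
      have h6 := hmin w hwQ hs2
      left
      rw [← Multiset.card_eq_zero]
      omega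
    · have h6 := hmin u huQ h5
      right
      have h7 : w = 0 := by
        rw [← Multiset.card_eq_zero]
        omega
      rw [h7, add_zero]

/-- The number of the elements of a coset. -/
lemma count_le {s : Multiset (Fin n)}
    (hirr : ∀ t ≤ s, B.tot t ∈ QL h x → t = 0 ∨ t = s) {M : ℕ} {i : Fin n} {r : ℕ} (hr : 0 < r)
    (hrM : r ≤ M) (hrT : r • B.T i ∈ QL h x) (p : Fin n → Prop) [DecidablePred p]
    (hp : ∀ j, p j → B.T j - B.T i ∈ QL h x) : (s.filter p).card ≤ M := by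
  by_contra hcon
  push Not at hcon
  obtain ⟨l, hl⟩ : ∃ l : List (Fin n), (l : Multiset (Fin n)) = s.filter p :=
    Quot.exists_rep _
  obtain ⟨t, ht⟩ : ∃ t : Multiset (Fin n), t = ((l.take r : List (Fin n)) : Multiset (Fin n)) :=
    ⟨_, rfl⟩
  have hcl : l.length = (s.filter p).card := by rw [← hl, Multiset.coe_card]
  have htc : t.card = r := by
    rw [ht, Multiset.coe_card, List.length_take, hcl]
    omega
  have htl : t ≤ s.filter p := by
    rw [ht, ← hl, Multiset.coe_le]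
    exact (List.take_sublist r l).subperm
  have htp : ∀ j ∈ t, p j := fun j hj => Multiset.of_mem_filter (Multiset.mem_of_le htl hj)
  have hmod : ∀ u : Multiset (Fin n), (∀ j ∈ u, p j) → B.tot u - u.card • B.T i ∈ QL h x := by
    intro u
    induction u using Multiset.induction_on with
    | empty =>
      intro _
      rw [tot, Multiset.map_zero, Multiset.sum_zero, Multiset.card_zero, zero_smul, sub_zero]
      exact (QL h x).zero_mem
    | cons a u ih =>
      intro hu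
      have h1 := ih fun j hj => hu j (Multiset.mem_cons_of_mem hj)
      have h2 := hp a (hu a (Multiset.mem_cons_self a u))
      have h3 := (QL h x).add_mem h2 h1
      rw [B.tot_cons, Multiset.card_cons, add_smul, one_smul]
      convert h3 using 1
      abel
  have htQ : B.tot t ∈ QL h x := by
    have h1 := hmod t htp
    rw [htc] at h1
    have h2 := (QL h x).add_mem h1 hrT
    rwa [sub_add_cancel] at h2
  rcases hirr t (htl.trans (Multiset.filter_le p s)) htQ with h1 | h1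
  · rw [h1, Multiset.card_zero] at htc
    omega
  · have h2 := Multiset.card_le_card (Multiset.filter_le p s)
    have h3 : s.card = r := by rw [← h1, htc]
    omega

end Bz

/-- Splitting a multiset into sets without repeated classes. -/
lemma exists_split {α β : Type*} [DecidableEq α] [DecidableEq β] (f : α → β) (M : ℕ)
    (s : Multiset α) :
    (∀ b, (s.filter fun a => f a = b).card ≤ M) →
    ∃ F : Fin M → Finset α, (∑ r, (F r).val) = s ∧ ∀ r, ∀ a ∈ F r, ∀ b ∈ F r, f a = f b → a = b := by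
  induction s using Multiset.induction_on with
  | empty =>
    intro _
    exact ⟨fun _ => ∅, by simp, by simp⟩
  | cons a s ih =>
    intro hs
    obtain ⟨F, hF, hinj⟩ := ih fun b => (Multiset.card_le_card
      (Multiset.filter_le_filter _ (Multiset.le_cons_self s a))).trans (hs b)
    have h1 : ∃ r, ∀ b ∈ F r, f b ≠ f a := by
      by_contra hcon
      push Not at hcon
      have h2 := hs (f a)
      rw [Multiset.filter_cons_of_pos (p := fun a' => f a' = f a) _ rfl, Multiset.card_cons,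
        ← hF] at h2
      have h3 : (Multiset.filter (fun a' => f a' = f a) (∑ r, (F r).val)).card =
          ∑ r, ((F r).filter fun a' => f a' = f a).card := by
        rw [← Multiset.countP_eq_card_filter]
        have h4 : ∀ u : Finset (Fin M), Multiset.countP (fun a' => f a' = f a)
            (∑ r ∈ u, (F r).val) = ∑ r ∈ u, ((F r).filter fun a' => f a' = f a).card := by
          intro u
          induction u using Finset.induction_on with
          | empty => simp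
          | insert r u hr ihu =>
            rw [Finset.sum_insert hr, Finset.sum_insert hr, Multiset.countP_add, ihu,
              Multiset.countP_eq_card_filter]
            rfl
        exact h4 _
      rw [h3] at h2
      have h5 : ∑ r : Fin M, 1 ≤ ∑ r, ((F r).filter fun a' => f a' = f a).card := by
        refine Finset.sum_le_sum fun r _ => ?_
        obtain ⟨b, hb1, hb2⟩ := hcon r
        exact Finset.card_pos.2 ⟨b, Finset.mem_filter.2 ⟨hb1, hb2⟩⟩
      rw [Finset.sum_const, Finset.card_univ, Fintype.card_fin, smul_eq_mul, mul_one] at h5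
      omega
    obtain ⟨r, hr⟩ := h1
    have har : a ∉ F r := fun h2 => hr a h2 rfl
    refine ⟨Function.update F r (insert a (F r)), ?_, ?_⟩
    · rw [← Finset.add_sum_erase _ _ (Finset.mem_univ r), Function.update_self,
        Finset.insert_val_of_notMem har, Multiset.cons_add]
      congr 1
      rw [← hF, ← Finset.add_sum_erase _ _ (Finset.mem_univ r)]
      congr 1
      refine Finset.sum_congr rfl fun r' hr' => ?_
      rw [Function.update_of_ne (Finset.ne_of_mem_erase hr')]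
    · intro r'
      by_cases hrr : r' = r
      · subst hrr
        rw [Function.update_self]
        intro b hb c hc hbc
        rcases Finset.mem_insert.1 hb with hb1 | hb1
        · rcases Finset.mem_insert.1 hc with hc1 | hc1
          · rw [hb1, hc1]
          · rw [hb1] at hbc
            exact absurd hbc.symm (hr c hc1)
        · rcases Finset.mem_insert.1 hc with hc1 | hc1
          · rw [hc1] at hbc
            exact absurd hbc (hr b hb1)
          · exact hinj r' b hb1 c hc1 hbc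
      · rw [Function.update_of_ne hrr]
        exact hinj r'

end Pool.Agent.N996.FP
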